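import Mathlib
import Pool.Agent.Lib_helper70.ChainDefs
import Pool.Agent.Lib_helper46.CC.Defs

/-!
# Auxiliary definitions used by several files
-/

set_option autoImplicit false

namespace Pool.Agent.Lib_helper46.CC

open Finset Pool.Agent.Lib_helper70.Chains
open scoped Classical

section NIB

variable {V E : Type} [DecidableEq V] [Fintype E] [DecidableEq E]

/-- product weight of a random set of edges -/
noncomputable def rw (a : E → ℝ) (A : Finset E) : ℝ := (∏ e ∈ A, a e) * ∏ e ∈ univ \ A, (1 - a e)

/-- uncovered vertices after one round -/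
def nx (inc : E → Finset V) (S : Finset V) (A : Finset E) : Finset V :=
  S \ (A.filter (fun e => inc e ⊆ S)).biUnion inc

/-- expectation after `T` rounds (starting with the set `V0`) -/
noncomputable def Ev (V0 : Finset V) (inc : E → Finset V) (a : ℕ → E → ℝ) :
    ℕ → (Finset V → ℝ) → ℝ
  | 0, f => f V0
  | T + 1, f => Ev V0 inc a T (fun S => ∑ A : Finset E, rw (a T) A * f (nx inc S A))

/-- activation probabilities -/
noncomputable def act (w : E → ℝ) (inc : E → Finset V) (ε : ℝ) (T : ℕ) (e : E) : ℝ :=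
  ε * w e * Real.exp (ε * T * ((inc e).card - 1))

end NIB

section MASS

variable {r k t h D D2 : ℕ} {δ B : ℝ}

/-- average of `Wid` over the permutations -/
noncomputable def AW (κ : Ker r k t h D D2 δ B) (c : Bool) (M J : Fin r → ℕ) (b : PW r t) : ℝ :=
  (∑ σ : Equiv.Perm (Pos r t), Wid κ c M J (b ∘ σ)) / (Fintype.card (Equiv.Perm (Pos r t)) : ℝ)

end MASS

section COARSE

/-- exponent of a label assignment -/
noncomputable def expo {r k R t h : ℕ} (i : Fin r → Fin k) (c : Fin r → Fin R)
    (f : Fin r → Fin k → Fin R) (w : Fin R → PW r t) : ℝ :=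
  -(1 / (t : ℝ)) * ∑ p ∈ univ.filter (fun p => ∀ m, c m ≠ p),
    ((∑ m, (((usz f p m : ℝ) - 2 * (pas f p m (i m) : ℝ)) * h) * Dl (w p) m) +
      QF (fun m => ((usz f p m : ℝ) - 2 * (pas f p m (i m) : ℝ)) * h) / 2)

end COARSE

end Pool.Agent.Lib_helper46.CC
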