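import Mathlib
import Pool.Agent.Lib_helper46.CCF.WBase

/-! Block CHE, written by helper80. -/

set_option autoImplicit false

namespace Pool.Agent.Lib_helper46.CC

open Finset Pool.Agent.Lib_helper70.Chains
open scoped Classical

/-- splitting off the first letter -/
theorem che_split {α : Type} [Fintype α] (n : ℕ) (φ : α → ℝ) (F : ℝ → ℝ) :
    ∑ u : Fin (n + 1) → α, F (∑ x, φ (u x)) = ∑ j : α, ∑ u : Fin n → α, F (φ j + ∑ x, φ (u x)) := by
  rw [← (Fin.consEquiv (fun _ : Fin (n + 1) => α)).sum_comp, Fintype.sum_prod_type]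
  apply Finset.sum_congr rfl
  intro j _
  apply Finset.sum_congr rfl
  intro u _
  congr 1
  rw [Fin.sum_univ_succ]
  simp [Fin.consEquiv]

/-- moments of a sum of independent letters -/
theorem che_mom {α : Type} [Fintype α] (φ : α → ℝ) (h1 : ∑ j, φ j = 0)
    (h2 : ∑ j, φ j ^ 2 = 2) (h3 : ∑ j, φ j ^ 3 = 0) (h4 : ∑ j, φ j ^ 4 = 2) (n : ℕ) :
    (∑ u : Fin n → α, (∑ x, φ (u x)) ^ 2) * (Fintype.card α : ℝ) =
        2 * n * (Fintype.card α : ℝ) ^ n ∧
      (∑ u : Fin n → α, (∑ x, φ (u x)) ^ 4) * (Fintype.card α : ℝ) ^ 2 =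
        (2 * n * (Fintype.card α : ℝ) + 12 * n * (n - 1)) * (Fintype.card α : ℝ) ^ n := by
  have hc : ∀ n : ℕ, ∑ _u : Fin n → α, (1 : ℝ) = (Fintype.card α : ℝ) ^ n := by
    intro n
    rw [Finset.sum_const, Finset.card_univ, Fintype.card_fun, Fintype.card_fin]
    simp
  have hcα : ∑ _j : α, (1 : ℝ) = (Fintype.card α : ℝ) := by
    rw [Finset.sum_const, Finset.card_univ]; simp
  set c : ℝ := (Fintype.card α : ℝ) with hcd
  have e2 : ∀ n : ℕ, ∑ u : Fin (n + 1) → α, (∑ x, φ (u x)) ^ 2 =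
      2 * c ^ n + c * ∑ u : Fin n → α, (∑ x, φ (u x)) ^ 2 := by
    intro n
    rw [che_split n φ (fun s => s ^ 2)]
    have h5 : ∀ j : α, ∑ u : Fin n → α, (φ j + ∑ x, φ (u x)) ^ 2 =
        φ j ^ 2 * c ^ n + 2 * φ j * (∑ u : Fin n → α, ∑ x, φ (u x)) +
          1 * ∑ u : Fin n → α, (∑ x, φ (u x)) ^ 2 := by
      intro j
      rw [← hc n, Finset.mul_sum, Finset.mul_sum, Finset.mul_sum, ← Finset.sum_add_distrib,
        ← Finset.sum_add_distrib]
      apply Finset.sum_congr rfl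
      intro u _
      ring
    rw [Finset.sum_congr rfl (fun j _ => h5 j), Finset.sum_add_distrib, Finset.sum_add_distrib,
      ← Finset.sum_mul, ← Finset.sum_mul, ← Finset.sum_mul, ← Finset.mul_sum, h1, h2, hcα]
    ring
  have e4 : ∀ n : ℕ, ∑ u : Fin (n + 1) → α, (∑ x, φ (u x)) ^ 4 =
      2 * c ^ n + 12 * (∑ u : Fin n → α, (∑ x, φ (u x)) ^ 2) +
        c * ∑ u : Fin n → α, (∑ x, φ (u x)) ^ 4 := by
    intro n
    rw [che_split n φ (fun s => s ^ 4)]
    have h5 : ∀ j : α, ∑ u : Fin n → α, (φ j + ∑ x, φ (u x)) ^ 4 =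
        φ j ^ 4 * c ^ n + 4 * φ j ^ 3 * (∑ u : Fin n → α, ∑ x, φ (u x)) +
          6 * φ j ^ 2 * (∑ u : Fin n → α, (∑ x, φ (u x)) ^ 2) +
          4 * φ j * (∑ u : Fin n → α, (∑ x, φ (u x)) ^ 3) +
          1 * ∑ u : Fin n → α, (∑ x, φ (u x)) ^ 4 := by
      intro j
      rw [← hc n, Finset.mul_sum, Finset.mul_sum, Finset.mul_sum, Finset.mul_sum, Finset.mul_sum,
        ← Finset.sum_add_distrib, ← Finset.sum_add_distrib, ← Finset.sum_add_distrib,
        ← Finset.sum_add_distrib]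
      apply Finset.sum_congr rfl
      intro u _
      ring
    rw [Finset.sum_congr rfl (fun j _ => h5 j), Finset.sum_add_distrib, Finset.sum_add_distrib,
      Finset.sum_add_distrib, Finset.sum_add_distrib,
      ← Finset.sum_mul, ← Finset.sum_mul, ← Finset.sum_mul, ← Finset.sum_mul, ← Finset.sum_mul,
      ← Finset.mul_sum, ← Finset.mul_sum, ← Finset.mul_sum, h1, h2, h3, h4, hcα]
    ring
  induction n with
  | zero => simp
  | succ n ih =>
    obtain ⟨ih2, ih4⟩ := ih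
    constructor
    · rw [e2 n]
      calc (2 * c ^ n + c * ∑ u : Fin n → α, (∑ x, φ (u x)) ^ 2) * c
          = 2 * c ^ n * c + c * ((∑ u : Fin n → α, (∑ x, φ (u x)) ^ 2) * c) := by ring
        _ = _ := by rw [ih2]; push_cast; ring
    · rw [e4 n]
      calc (2 * c ^ n + 12 * (∑ u : Fin n → α, (∑ x, φ (u x)) ^ 2) +
            c * ∑ u : Fin n → α, (∑ x, φ (u x)) ^ 4) * c ^ 2
          = 2 * c ^ n * c ^ 2 + 12 * c * ((∑ u : Fin n → α, (∑ x, φ (u x)) ^ 2) * c) +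
            c * ((∑ u : Fin n → α, (∑ x, φ (u x)) ^ 4) * c ^ 2) := by ring
        _ = _ := by rw [ih2, ih4]; push_cast; ring

/-- `Dl` as a sum over the positions -/
theorem che_Dl {ι : Type} [Fintype ι] {r : ℕ} (b : ι → Fin (r + 1)) (m : Fin r) :
    Dl b m = ∑ x, ((if b x = m.castSucc then (1 : ℝ) else 0) - (if b x = m.succ then 1 else 0)) := by
  rw [Dl, ct, ct, Finset.sum_sub_distrib, Finset.sum_boole, Finset.sum_boole]

theorem che_phi {r : ℕ} (m : Fin r) (k : ℕ) (hk : 0 < k) :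
    ∑ j : Fin (r + 1), ((if j = m.castSucc then (1 : ℝ) else 0) - (if j = m.succ then 1 else 0)) ^ k =
      1 + (-1) ^ k := by
  have hne : m.castSucc ≠ m.succ := by
    intro h
    have := congrArg Fin.val h
    simp at this
  have h1 : ∀ j : Fin (r + 1),
      ((if j = m.castSucc then (1 : ℝ) else 0) - (if j = m.succ then 1 else 0)) ^ k =
      (if j = m.castSucc then 1 else 0) + (if j = m.succ then (-1) ^ k else 0) := by
    intro j
    by_cases hj : j = m.castSucc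
    · rw [hj]; simp [hne]
    · by_cases hj2 : j = m.succ
      · rw [hj2]; simp [Ne.symm hne]
      · simp [hj, hj2, hk.ne']
  rw [Finset.sum_congr rfl (fun j _ => h1 j), Finset.sum_add_distrib]
  simp

/-- moments of `Dl` -/
theorem che_Dl_mom (r t : ℕ) (m : Fin r) :
    (∑ b : PW r t, Dl b m ^ 2) = 2 * t * ((r : ℝ) + 1) ^ ((r + 1) * t) ∧
      (∑ b : PW r t, Dl b m ^ 4) ≤ (2 * t + 12 * t ^ 2) * ((r : ℝ) + 1) ^ ((r + 1) * t) := by
  set φ : Fin (r + 1) → ℝ := fun j =>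
    ((if j = m.castSucc then (1 : ℝ) else 0) - (if j = m.succ then 1 else 0)) with hφ
  have p1 : ∑ j, φ j = 0 := by
    have h := che_phi m 1 one_pos
    simp only [pow_one] at h
    rw [hφ]; rw [h]; norm_num
  have p2 : ∑ j, φ j ^ 2 = 2 := by
    have := che_phi m 2 two_pos
    rw [hφ]; rw [this]; norm_num
  have p3 : ∑ j, φ j ^ 3 = 0 := by
    have := che_phi m 3 three_pos
    rw [hφ]; rw [this]; norm_num
  have p4 : ∑ j, φ j ^ 4 = 2 := by
    have := che_phi m 4 four_pos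
    rw [hφ]; rw [this]; norm_num
  have hcard : Fintype.card (Pos r t) = (r + 1) * t := by
    simp [Fintype.card_prod]
  set e : Pos r t ≃ Fin ((r + 1) * t) := Fintype.equivFinOfCardEq hcard with he
  have htrans : ∀ k : ℕ, ∑ b : PW r t, Dl b m ^ k =
      ∑ u : Fin ((r + 1) * t) → Fin (r + 1), (∑ x, φ (u x)) ^ k := by
    intro k
    rw [← (Equiv.arrowCongr e (Equiv.refl (Fin (r + 1)))).sum_comp]
    apply Finset.sum_congr rfl
    intro b _
    rw [che_Dl]
    congr 1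
    rw [← e.sum_comp]
    apply Finset.sum_congr rfl
    intro x _
    simp [hφ, Equiv.arrowCongr]
  obtain ⟨m2, m4⟩ := che_mom φ p1 p2 p3 p4 ((r + 1) * t)
  rw [htrans 2, htrans 4]
  rw [Fintype.card_fin] at m2 m4
  have hr : (0 : ℝ) < (r : ℝ) + 1 := by positivity
  push_cast at m2 m4
  constructor
  · have h : (∑ u : Fin ((r + 1) * t) → Fin (r + 1), (∑ x, φ (u x)) ^ 2) * ((r : ℝ) + 1) =
        (2 * t * ((r : ℝ) + 1) ^ ((r + 1) * t)) * ((r : ℝ) + 1) := by
      rw [m2]; ring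
    exact mul_right_cancel₀ hr.ne' h
  · have h : (∑ u : Fin ((r + 1) * t) → Fin (r + 1), (∑ x, φ (u x)) ^ 4) * ((r : ℝ) + 1) ^ 2 ≤
        ((2 * t + 12 * t ^ 2) * ((r : ℝ) + 1) ^ ((r + 1) * t)) * ((r : ℝ) + 1) ^ 2 := by
      rw [m4]
      have h5 : (0 : ℝ) ≤ ((r : ℝ) + 1) ^ ((r + 1) * t) := by positivity
      have h6 : (0 : ℝ) ≤ ((r : ℝ) + 1) * t := by positivity
      have h7 : (2 * (((r : ℝ) + 1) * t) * ((r : ℝ) + 1) +
          12 * (((r : ℝ) + 1) * t) * (((r : ℝ) + 1) * t - 1)) ≤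
          (2 * t + 12 * t ^ 2) * ((r : ℝ) + 1) ^ 2 := by nlinarith
      calc _ ≤ ((2 * t + 12 * t ^ 2) * ((r : ℝ) + 1) ^ 2) * ((r : ℝ) + 1) ^ ((r + 1) * t) :=
            mul_le_mul_of_nonneg_right h7 h5
        _ = _ := by ring
    exact le_of_mul_le_mul_right h (by positivity)

theorem che_exp (x : ℝ) (hx : 0 ≤ x) : Real.exp (-x) ≤ 1 - x + x ^ 2 / 2 := by
  have h1 := Real.quadratic_le_exp_of_nonneg hx
  have h2 : Real.exp (-x) * Real.exp x = 1 := by rw [← Real.exp_add]; simp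
  have h3 : (1 - x + x ^ 2 / 2) * (1 + x + x ^ 2 / 2) = 1 + x ^ 4 / 4 := by ring
  have h4 : 0 < 1 - x + x ^ 2 / 2 := by nlinarith [sq_nonneg (x - 1)]
  have h5 : (1 : ℝ) ≤ (1 - x + x ^ 2 / 2) * Real.exp x := by
    have := mul_le_mul_of_nonneg_left h1 h4.le
    have h6 : (0 : ℝ) ≤ x ^ 4 / 4 := by positivity
    linarith
  have h7 : Real.exp (-x) * Real.exp x ≤ (1 - x + x ^ 2 / 2) * Real.exp x := by rw [h2]; exact h5
  exact le_of_mul_le_mul_right h7 (Real.exp_pos x)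

theorem chern_pr (r R t : ℕ) (ht : 1 ≤ t) (m : Fin r) (τ : ℝ) (h0 : 0 < τ) (h1 : τ ≤ 1) :
    ((univ.filter (fun b : Fin R → PW r t =>
        ∑ p, (Dl (b p) m) ^ 2 < (R : ℝ) * t * (2 - τ))).card : ℝ) ≤
      Real.exp (-(R * τ ^ 2 / 28)) * ((r : ℝ) + 1) ^ (R * ((r + 1) * t)) := by
  have ht0 : (0 : ℝ) < t := by exact_mod_cast (by omega : 0 < t)
  have ht1 : (1 : ℝ) ≤ t := by exact_mod_cast ht
  set θ : ℝ := τ / 14 with hθ
  have hθ0 : 0 < θ := by positivity
  obtain ⟨m2, m4⟩ := che_Dl_mom r t m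
  set N : ℝ := ((r : ℝ) + 1) ^ ((r + 1) * t) with hN
  have hN0 : 0 < N := by rw [hN]; positivity
  have hcardPW : ∑ _b : PW r t, (1 : ℝ) = N := by
    rw [Finset.sum_const, Finset.card_univ, hN]
    simp [Fintype.card_prod]
  -- one part
  have hone : ∑ b : PW r t, Real.exp (-(θ * (Dl b m ^ 2 / t))) ≤ N * (1 - 2 * θ + 7 * θ ^ 2) := by
    calc ∑ b : PW r t, Real.exp (-(θ * (Dl b m ^ 2 / t)))
        ≤ ∑ b : PW r t, (1 - θ * (Dl b m ^ 2 / t) + (θ * (Dl b m ^ 2 / t)) ^ 2 / 2) :=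
          Finset.sum_le_sum (fun b _ => che_exp _ (by positivity))
      _ = ∑ b : PW r t, ((1 : ℝ) - θ / t * Dl b m ^ 2 + θ ^ 2 / (2 * t ^ 2) * Dl b m ^ 4) := by
          apply Finset.sum_congr rfl
          intro b _
          field_simp
      _ = N - θ / t * (∑ b : PW r t, Dl b m ^ 2) + θ ^ 2 / (2 * t ^ 2) * ∑ b : PW r t, Dl b m ^ 4 := by
          rw [Finset.sum_add_distrib, Finset.sum_sub_distrib, hcardPW, Finset.mul_sum,
            Finset.mul_sum]
      _ ≤ N - θ / t * (2 * t * N) + θ ^ 2 / (2 * t ^ 2) * ((2 * t + 12 * t ^ 2) * N) := by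
          rw [m2]
          have := mul_le_mul_of_nonneg_left m4 (by positivity : 0 ≤ θ ^ 2 / (2 * (t : ℝ) ^ 2))
          linarith
      _ = N * (1 - 2 * θ + θ ^ 2 * (1 / t + 6)) := by
          field_simp
          ring
      _ ≤ N * (1 - 2 * θ + 7 * θ ^ 2) := by
          apply mul_le_mul_of_nonneg_left _ hN0.le
          have h5 : 1 / (t : ℝ) ≤ 1 := by rw [div_le_one ht0]; exact ht1
          nlinarith [sq_nonneg θ]
  have hone' : ∑ b : PW r t, Real.exp (-(θ * (Dl b m ^ 2 / t))) ≤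
      N * Real.exp (-2 * θ + 7 * θ ^ 2) := by
    apply hone.trans
    apply mul_le_mul_of_nonneg_left _ hN0.le
    have := Real.add_one_le_exp (-2 * θ + 7 * θ ^ 2)
    linarith
  -- all parts
  have hall : ∑ b : Fin R → PW r t, Real.exp (-(θ * (∑ p, Dl (b p) m ^ 2) / t)) ≤
      (N * Real.exp (-2 * θ + 7 * θ ^ 2)) ^ R := by
    calc ∑ b : Fin R → PW r t, Real.exp (-(θ * (∑ p, Dl (b p) m ^ 2) / t))
        = ∑ b : Fin R → PW r t, ∏ p, Real.exp (-(θ * (Dl (b p) m ^ 2 / t))) := by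
          apply Finset.sum_congr rfl
          intro b _
          rw [← Real.exp_sum]
          congr 1
          rw [Finset.sum_neg_distrib, ← Finset.mul_sum, ← Finset.sum_div]
          ring
      _ = ∏ _p : Fin R, ∑ b : PW r t, Real.exp (-(θ * (Dl b m ^ 2 / t))) := by
          rw [Finset.prod_univ_sum, Fintype.piFinset_univ]
      _ = (∑ b : PW r t, Real.exp (-(θ * (Dl b m ^ 2 / t)))) ^ R := by
          rw [Finset.prod_const, Finset.card_univ, Fintype.card_fin]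
      _ ≤ _ := pow_le_pow_left₀ (Finset.sum_nonneg (fun _ _ => (Real.exp_pos _).le)) hone' _
  have hmark : ((univ.filter (fun b : Fin R → PW r t =>
        ∑ p, (Dl (b p) m) ^ 2 < (R : ℝ) * t * (2 - τ))).card : ℝ) *
        Real.exp (-(θ * R * (2 - τ))) ≤
      ∑ b : Fin R → PW r t, Real.exp (-(θ * (∑ p, Dl (b p) m ^ 2) / t)) := by
    calc ((univ.filter (fun b : Fin R → PW r t =>
        ∑ p, (Dl (b p) m) ^ 2 < (R : ℝ) * t * (2 - τ))).card : ℝ) *
        Real.exp (-(θ * R * (2 - τ)))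
        = ∑ b ∈ (univ.filter (fun b : Fin R → PW r t =>
        ∑ p, (Dl (b p) m) ^ 2 < (R : ℝ) * t * (2 - τ))), Real.exp (-(θ * R * (2 - τ))) := by
          rw [Finset.sum_const, nsmul_eq_mul]
      _ ≤ ∑ b ∈ (univ.filter (fun b : Fin R → PW r t =>
        ∑ p, (Dl (b p) m) ^ 2 < (R : ℝ) * t * (2 - τ))),
          Real.exp (-(θ * (∑ p, Dl (b p) m ^ 2) / t)) := by
          apply Finset.sum_le_sum
          intro b hb
          apply Real.exp_le_exp.mpr
          have h5 := (Finset.mem_filter.mp hb).2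
          have h6 : θ * (∑ p, Dl (b p) m ^ 2) / t ≤ θ * R * (2 - τ) := by
            rw [div_le_iff₀ ht0]
            have := mul_le_mul_of_nonneg_left h5.le hθ0.le
            linarith
          linarith
      _ ≤ _ := Finset.sum_le_sum_of_subset_of_nonneg (Finset.filter_subset _ _)
          (fun _ _ _ => (Real.exp_pos _).le)
  have h8 := hmark.trans hall
  have h9 : (N * Real.exp (-2 * θ + 7 * θ ^ 2)) ^ R =
      (Real.exp (-(R * τ ^ 2 / 28)) * ((r : ℝ) + 1) ^ (R * ((r + 1) * t))) *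
        Real.exp (-(θ * R * (2 - τ))) := by
    rw [mul_pow, ← Real.exp_nat_mul, hN, ← pow_mul]
    have h10 : Real.exp ((R : ℝ) * (-2 * θ + 7 * θ ^ 2)) =
        Real.exp (-(R * τ ^ 2 / 28)) * Real.exp (-(θ * R * (2 - τ))) := by
      rw [← Real.exp_add]
      congr 1
      rw [hθ]
      ring
    rw [h10, mul_comm ((r + 1) * t) R]
    ring
  rw [h9] at h8
  exact le_of_mul_le_mul_right h8 (Real.exp_pos _)


end Pool.Agent.Lib_helper46.CC

namespace Pool.Agent.Lib_helper46.CC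

alias chern := chern_pr

end Pool.Agent.Lib_helper46.CC
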