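import Mathlib
import Pool.Agent.Lib_helper46.CCF.WBase
import Pool.Agent.Lib_helper70.ChainLower

/-! Block MMX, written by helper99. -/

/-! Block MMX: maximal multinomial coefficients. -/

set_option autoImplicit false

namespace Pool.Agent.Lib_helper46.CC

open Finset Pool.Agent.Lib_helper70.Chains
open scoped Classical

theorem mmx_pow (q x : ℕ) : q.factorial * (q + 1) ^ x ≤ x.factorial * (q + 1) ^ q := by
  rcases le_total q x with h | h
  · obtain ⟨d, rfl⟩ := Nat.exists_eq_add_of_le h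
    have := Nat.factorial_mul_pow_le_factorial (m := q) (n := d)
    calc q.factorial * (q + 1) ^ (q + d) = (q.factorial * (q + 1) ^ d) * (q + 1) ^ q := by
          rw [pow_add]; ring
      _ ≤ _ := Nat.mul_le_mul_right _ this
  · obtain ⟨d, rfl⟩ := Nat.exists_eq_add_of_le h
    have h1 : ∀ d : ℕ, (x + d).factorial ≤ x.factorial * (x + d + 1) ^ d := by
      intro d
      induction d with
      | zero => simp
      | succ d ih =>
        calc (x + (d + 1)).factorial = (x + d + 1) * (x + d).factorial := by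
              rw [← add_assoc, Nat.factorial_succ]
          _ ≤ (x + d + 1) * (x.factorial * (x + d + 1) ^ d) := Nat.mul_le_mul_left _ ih
          _ = x.factorial * (x + d + 1) ^ (d + 1) := by rw [pow_succ]; ring
          _ ≤ x.factorial * (x + (d + 1) + 1) ^ (d + 1) :=
              Nat.mul_le_mul_left _ (Nat.pow_le_pow_left (by omega) _)
    calc (x + d).factorial * (x + d + 1) ^ x ≤ (x.factorial * (x + d + 1) ^ d) * (x + d + 1) ^ x :=
          Nat.mul_le_mul_right _ (h1 d)
      _ = x.factorial * (x + d + 1) ^ (x + d) := by rw [pow_add]; ring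

theorem mmx_prod {r : ℕ} {a b : Fin (r + 1) → ℕ} (hs : ∑ i, a i = ∑ i, b i)
    (hb : ∀ i j, a i ≤ a j + 1) :
    ∏ i, (a i).factorial ≤ ∏ i, (b i).factorial := by
  obtain ⟨i0, -, hi0⟩ := Finset.exists_min_image (univ : Finset (Fin (r + 1))) a ⟨0, mem_univ _⟩
  set q := a i0 with hq
  have h1 : ∀ i, a i = q ∨ a i = q + 1 := by
    intro i
    have := hi0 i (mem_univ i)
    have := hb i i0
    omega
  have h2 : ∀ i, (a i).factorial * (q + 1) ^ q = q.factorial * (q + 1) ^ (a i) := by
    intro i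
    rcases h1 i with h | h
    · rw [h]
    · rw [h, Nat.factorial_succ, pow_succ]; ring
  have h3 : (∏ i, (a i).factorial) * ((q + 1) ^ q) ^ (r + 1) =
      q.factorial ^ (r + 1) * (q + 1) ^ (∑ i, a i) := by
    have : ∏ i : Fin (r + 1), ((a i).factorial * (q + 1) ^ q) =
        ∏ i : Fin (r + 1), (q.factorial * (q + 1) ^ (a i)) :=
      Finset.prod_congr rfl (fun i _ => h2 i)
    rw [Finset.prod_mul_distrib, Finset.prod_mul_distrib, Finset.prod_const, Finset.prod_const,
      Finset.card_univ, Fintype.card_fin, Finset.prod_pow_eq_pow_sum] at this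
    exact this
  have h4 : q.factorial ^ (r + 1) * (q + 1) ^ (∑ i, b i) ≤
      (∏ i, (b i).factorial) * ((q + 1) ^ q) ^ (r + 1) := by
    have : ∏ i : Fin (r + 1), (q.factorial * (q + 1) ^ (b i)) ≤
        ∏ i : Fin (r + 1), ((b i).factorial * (q + 1) ^ q) :=
      Finset.prod_le_prod' (fun i _ => mmx_pow q (b i))
    rw [Finset.prod_mul_distrib, Finset.prod_mul_distrib, Finset.prod_const, Finset.prod_const,
      Finset.card_univ, Fintype.card_fin, Finset.prod_pow_eq_pow_sum] at this
    exact this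
  rw [← hs, ← h3] at h4
  exact Nat.le_of_mul_le_mul_right h4 (pow_pos (pow_pos (Nat.succ_pos q) q) _)

theorem mmx_le {r : ℕ} {a b : Fin (r + 1) → ℕ} (hs : ∑ i, a i = ∑ i, b i)
    (hb : ∀ i j, a i ≤ a j + 1) : Nat.multinomial univ b ≤ Nat.multinomial univ a := by
  unfold Nat.multinomial
  rw [← hs]
  exact Nat.div_le_div_left (mmx_prod hs hb) (Finset.prod_pos fun i _ => Nat.factorial_pos _)

theorem mmx_gap {r n : ℕ} (hn : r + 1 ≤ n) {a : Fin (r + 1) → ℕ}
    (ha : ∑ i, a i = n) (hb : ∀ i j, a i ≤ a j + 1) : IsGapVector n r a := by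
  refine ⟨ha, fun i _ _ => ?_⟩
  by_contra hi
  have hi0 : a i = 0 := by omega
  have h1 : ∀ j, a j ≤ if j = i then 0 else 1 := by
    intro j
    split_ifs with h
    · rw [h, hi0]
    · have := hb j i
      omega
  have h2 : ∑ j, a j ≤ ∑ j : Fin (r + 1), if j = i then 0 else 1 :=
    Finset.sum_le_sum (fun j _ => h1 j)
  have h3 : (∑ j : Fin (r + 1), if j = i then 0 else 1) = r := by
    have : (∑ j : Fin (r + 1), if j = i then 0 else 1) + (∑ j : Fin (r + 1), if j = i then 1 else 0)
        = r + 1 := by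
      rw [← Finset.sum_add_distrib]
      have : ∀ j ∈ (univ : Finset (Fin (r + 1))),
          ((if j = i then 0 else 1) + (if j = i then 1 else 0) : ℕ) = 1 := by
        intro j _
        split_ifs <;> rfl
      rw [Finset.sum_congr rfl this]
      simp
    rw [Finset.sum_ite_eq' univ i (fun _ => 1)] at this
    simp at this
    omega
  omega

theorem mmx_balanced {r n : ℕ} (hn : r + 1 ≤ n) {a : Fin (r + 1) → ℕ}
    (ha : ∑ i, a i = n) (hb : ∀ i j, a i ≤ a j + 1) :
    maxMultinomial n r = Nat.multinomial univ a := by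
  unfold maxMultinomial
  apply IsGreatest.csSup_eq
  refine ⟨⟨a, mmx_gap hn ha hb, rfl⟩, ?_⟩
  rintro k ⟨b, hb', rfl⟩
  exact mmx_le (ha.trans hb'.1.symm) hb

theorem max_balanced_pr (r n : ℕ) (hr : 1 ≤ r) (hn : r + 1 ≤ n) (a : Fin (r + 1) → ℕ)
    (ha : ∑ i, a i = n) (hb : ∀ i j, a i ≤ a j + 1) :
    maxMultinomial n r = Nat.multinomial univ a := mmx_balanced hn ha hb

theorem mmx_all {r n : ℕ} (hn : r + 1 ≤ n) (b : Fin (r + 1) → ℕ) (hb : ∑ i, b i = n) :
    Nat.multinomial univ b ≤ maxMultinomial n r := by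
  have h1 := sum_bal n (r + 1) (Nat.succ_pos r)
  have h2 : ∀ i j : Fin (r + 1), (n / (r + 1) + if (i : ℕ) < n % (r + 1) then 1 else 0) ≤
      (n / (r + 1) + if (j : ℕ) < n % (r + 1) then 1 else 0) + 1 := by
    intro i j
    split_ifs <;> omega
  rw [mmx_balanced hn h1 h2]
  exact mmx_le (h1.trans hb.symm) h2

section Words

variable {ι : Type} [Fintype ι] [DecidableEq ι] {r : ℕ}

/-- the words with the same counts as `b0` -/
theorem mmx_words (b0 : ι → Fin (r + 1)) :
    (univ.filter (fun b : ι → Fin (r + 1) => ∀ j, ct b j = ct b0 j)).card ≤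
      Nat.multinomial univ (fun j => ct b0 j) := by
  have hex : ∀ b : ι → Fin (r + 1), (∀ j, ct b j = ct b0 j) →
      ∃ σ : Equiv.Perm ι, b0 ∘ σ = b := by
    intro b hb
    have h1 : ∀ c : Fin (r + 1), Nonempty ({x // b x = c} ≃ {x // b0 x = c}) := by
      intro c
      have h2 := hb c
      unfold ct at h2
      apply Fintype.card_eq.mp
      rw [Fintype.card_subtype, Fintype.card_subtype]
      exact h2
    refine ⟨Equiv.ofFiberEquiv (fun c => Classical.choice (h1 c)), ?_⟩
    funext x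
    exact Equiv.ofFiberEquiv_map _ x
  choose! σ hσ using hex
  have h3 : ((univ.filter (fun b : ι → Fin (r + 1) => ∀ j, ct b j = ct b0 j)) ×ˢ
      (univ.filter (fun g : Equiv.Perm ι => b0 ∘ g = b0))).card ≤
      (univ : Finset (Equiv.Perm ι)).card := by
    refine Finset.card_le_card_of_injOn (fun x => x.2 * σ x.1) (fun x _ => mem_univ _) ?_
    rintro ⟨b, g⟩ hbg ⟨b', g'⟩ hbg' h
    simp only [Finset.coe_product, Set.mem_prod, Finset.coe_filter, Set.mem_ofPred_eq, mem_univ,
      true_and] at hbg hbg' h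
    have e1 : b0 ∘ (g * σ b : Equiv.Perm ι) = b := by
      rw [Equiv.Perm.coe_mul, ← Function.comp_assoc, hbg.2, hσ b hbg.1]
    have e2 : b0 ∘ (g' * σ b' : Equiv.Perm ι) = b' := by
      rw [Equiv.Perm.coe_mul, ← Function.comp_assoc, hbg'.2, hσ b' hbg'.1]
    have e3 : b = b' := by rw [← e1, ← e2, h]
    subst e3
    have e4 : g = g' := mul_right_cancel h
    rw [e4]
  rw [Finset.card_product, Finset.card_univ, Fintype.card_perm] at h3
  have h4 : (univ.filter (fun g : Equiv.Perm ι => b0 ∘ g = b0)).card =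
      ∏ j, (ct b0 j).factorial := by
    rw [← Fintype.card_subtype, DomMulAct.stabilizer_card b0]
    refine Finset.prod_congr rfl (fun j _ => ?_)
    unfold ct
    rw [Fintype.card_subtype]
  rw [h4] at h3
  have h5 : ∑ j, ct b0 j = Fintype.card ι := by
    unfold ct
    rw [← Finset.card_univ]
    exact (Finset.card_eq_sum_card_fiberwise (fun x _ => mem_univ (b0 x))).symm
  unfold Nat.multinomial
  rw [h5, Nat.le_div_iff_mul_le (Finset.prod_pos fun i _ => Nat.factorial_pos _)]
  exact h3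

theorem mmx_ct {b b' : ι → Fin (r + 1)} (h : ∀ m : Fin r, cl b m = cl b' m) (j : Fin (r + 1)) :
    ct b j = ct b' j := by
  have h1 : ∀ n : ℕ, (univ.filter (fun x => (b x : ℕ) ≤ n)).card =
      (univ.filter (fun x => (b' x : ℕ) ≤ n)).card := by
    intro n
    by_cases hn : n < r
    · exact h ⟨n, hn⟩
    · rw [Finset.filter_true_of_mem, Finset.filter_true_of_mem]
      · intro x _
        have := (b' x).isLt
        omega
      · intro x _
        have := (b x).isLt
        omega
  have h2 : ∀ c : ι → Fin (r + 1), (univ.filter (fun x => (c x : ℕ) ≤ j)).card =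
      ct c j + (univ.filter (fun x => (c x : ℕ) < j)).card := by
    intro c
    unfold ct
    rw [← Finset.card_union_of_disjoint]
    · congr 1
      ext x
      simp only [mem_filter, mem_univ, true_and, mem_union, Fin.ext_iff]
      omega
    · rw [Finset.disjoint_filter]
      intro x _ hx hx'
      rw [hx] at hx'
      omega
  have h3 : (univ.filter (fun x => (b x : ℕ) < j)).card =
      (univ.filter (fun x => (b' x : ℕ) < j)).card := by
    rcases Nat.eq_zero_or_pos (j : ℕ) with h0 | h0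
    · rw [h0]
      simp
    · have h4 : ∀ c : ι → Fin (r + 1), (univ.filter (fun x => (c x : ℕ) < j)) =
          (univ.filter (fun x => (c x : ℕ) ≤ (j : ℕ) - 1)) := by
        intro c
        ext x
        simp only [mem_filter, mem_univ, true_and]
        omega
      rw [h4, h4]
      exact h1 _
  have h5 := h2 b
  have h6 := h2 b'
  have h7 := h1 j
  omega

end Words

theorem nc_le_max_pr (r : ℕ) (hr : 1 ≤ r) (ι : Type) [Fintype ι] [DecidableEq ι] (g : Fin r → ℤ)
    (hn : r + 1 ≤ Fintype.card ι) : NC ι g ≤ maxMultinomial (Fintype.card ι) r := by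
  unfold NC
  by_cases he : ∃ b0 : ι → Fin (r + 1), ∀ m, (cl b0 m : ℤ) = g m
  · obtain ⟨b0, hb0⟩ := he
    have h1 : (univ.filter (fun b : ι → Fin (r + 1) => ∀ m, (cl b m : ℤ) = g m)).card ≤
        (univ.filter (fun b : ι → Fin (r + 1) => ∀ j, ct b j = ct b0 j)).card := by
      apply Finset.card_le_card
      intro b hb
      simp only [mem_filter, mem_univ, true_and] at hb ⊢
      intro j
      apply mmx_ct
      intro m
      have := (hb m).trans (hb0 m).symm
      exact_mod_cast this
    refine h1.trans ((mmx_words b0).trans (mmx_all hn _ ?_))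
    unfold ct
    rw [← Finset.card_univ]
    exact (Finset.card_eq_sum_card_fiberwise (fun x _ => mem_univ (b0 x))).symm
  · have : univ.filter (fun b : ι → Fin (r + 1) => ∀ m, (cl b m : ℤ) = g m) = ∅ := by
      rw [Finset.filter_eq_empty_iff]
      intro b _ hb
      exact he ⟨b, hb⟩
    rw [this, Finset.card_empty]
    exact Nat.zero_le _

theorem max_lower_pr (r : ℕ) (hr : 1 ≤ r) : ∃ c : ℝ, 0 < c ∧ ∃ n0 : ℕ, ∀ n ≥ n0,
    c * ((r : ℝ) + 1) ^ n / Real.sqrt n ^ r ≤ (maxMultinomial n r : ℝ) := by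
  have hpi := Real.pi_pos
  set S : ℝ := Stirling.stirlingSeq 1 with hS
  have hS0 : 0 < S := Stirling.stirlingSeq'_pos 0
  set d : ℝ := 2 * Real.pi / ((S ^ 2 * 4 / (r + 1)) ^ (r + 1) *
    Real.exp (2 * (r + 1) ^ 2)) with hd
  have hd0 : 0 < d := by positivity
  refine ⟨Real.sqrt d, Real.sqrt_pos.mpr hd0, r + 1, fun n hn => ?_⟩
  obtain ⟨-, h1⟩ := lower_bound n r hn
  have hn0 : (0 : ℝ) < n := by
    have : 0 < n := by omega
    exact_mod_cast this
  have hn1 : (1 : ℝ) ≤ n := by
    have : 1 ≤ n := by omega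
    exact_mod_cast this
  have hnr : (r : ℝ) + 1 ≤ n := by exact_mod_cast hn
  have hq1 : 1 ≤ n / (r + 1) := (Nat.one_le_div_iff (by omega)).2 hn
  have hst : Stirling.stirlingSeq (n / (r + 1)) ≤ S := stirlingSeq_anti (le_refl 1) hq1
  have hst0 : 0 < Stirling.stirlingSeq (n / (r + 1)) := by
    have := Stirling.stirlingSeq'_pos (n / (r + 1) - 1)
    rwa [show n / (r + 1) - 1 + 1 = n / (r + 1) by omega] at this
  have h2 : d / n ^ r ≤ Real.pi * (2 * n) / ((Stirling.stirlingSeq (n / (r + 1)) ^ 2 *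
      (2 * (n + (r + 1)) / (r + 1))) ^ (r + 1) * Real.exp (2 * (r + 1) ^ 2 / n)) := by
    have h3 : Stirling.stirlingSeq (n / (r + 1)) ^ 2 * (2 * (n + (r + 1)) / (r + 1)) ≤
        (S ^ 2 * 4 / (r + 1)) * n := by
      have h4 : (2 * ((n : ℝ) + (r + 1)) / (r + 1)) ≤ 4 * n / (r + 1) := by
        apply div_le_div_of_nonneg_right _ (by positivity)
        linarith
      calc Stirling.stirlingSeq (n / (r + 1)) ^ 2 * (2 * (n + (r + 1)) / (r + 1)) ≤
          S ^ 2 * (4 * n / (r + 1)) :=
            mul_le_mul (pow_le_pow_left₀ hst0.le hst 2) h4 (by positivity) (by positivity)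
        _ = _ := by ring
    have h5 : Real.exp (2 * ((r : ℝ) + 1) ^ 2 / n) ≤ Real.exp (2 * (r + 1) ^ 2) := by
      apply Real.exp_le_exp.mpr
      exact div_le_self (by positivity) hn1
    have h6 : (Stirling.stirlingSeq (n / (r + 1)) ^ 2 *
        (2 * (n + (r + 1)) / (r + 1))) ^ (r + 1) * Real.exp (2 * (r + 1) ^ 2 / n) ≤
        ((S ^ 2 * 4 / (r + 1)) * n) ^ (r + 1) * Real.exp (2 * (r + 1) ^ 2) :=
      mul_le_mul (pow_le_pow_left₀ (by positivity) h3 _) h5 (by positivity) (by positivity)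
    calc d / n ^ r = Real.pi * (2 * n) / (((S ^ 2 * 4 / (r + 1)) * n) ^ (r + 1) *
          Real.exp (2 * (r + 1) ^ 2)) := by
          rw [hd, mul_pow _ (n : ℝ) (r + 1), pow_succ (n : ℝ) r]
          field_simp
      _ ≤ _ := div_le_div_of_nonneg_left (by positivity) (by positivity) h6
  have h7 : (Real.sqrt d * ((r : ℝ) + 1) ^ n / Real.sqrt n ^ r) ^ 2 ≤
      (maxMultinomial n r : ℝ) ^ 2 := by
    refine le_trans ?_ h1
    have h8 : (Real.sqrt d * ((r : ℝ) + 1) ^ n / Real.sqrt n ^ r) ^ 2 =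
        ((r : ℝ) + 1) ^ (2 * n) * (d / n ^ r) := by
      rw [div_pow, mul_pow, Real.sq_sqrt hd0.le, ← pow_mul (Real.sqrt n) r 2, mul_comm r 2,
        pow_mul (Real.sqrt n) 2 r, Real.sq_sqrt hn0.le, ← pow_mul, mul_comm n 2]
      ring
    rw [h8]
    exact mul_le_mul_of_nonneg_left h2 (by positivity)
  exact le_of_sq_le_sq h7 (Nat.cast_nonneg _)

end Pool.Agent.Lib_helper46.CC

namespace Pool.Agent.Lib_helper46.CC

alias max_balanced := max_balanced_pr
alias max_lower := max_lower_pr
alias nc_le_max := nc_le_max_pr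

end Pool.Agent.Lib_helper46.CC
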