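import Mathlib
import Pool.Agent.Lib_helper46.CCF.WBase
import Pool.Agent.Lib_helper46.CCF.MMX

/-! Block MUP, written by helper82. -/

/-!
# MP_10b4aa_co, block MUP
-/

set_option autoImplicit false

namespace Pool.Agent.Lib_helper46.CC

open Finset Pool.Agent.Lib_helper70.Chains
open scoped Classical
open scoped Nat

section MUP

theorem mup_fact_le {N : ℕ} (hN : 1 ≤ N) :
    (N ! : ℝ) ≤ Real.exp 1 * Real.sqrt N * (N / Real.exp 1) ^ N := by
  have hN' : (0 : ℝ) < N := by exact_mod_cast hN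
  have h1 : Stirling.stirlingSeq N ≤ Stirling.stirlingSeq 1 := by
    have := Stirling.stirlingSeq'_antitone (show 0 ≤ N - 1 by omega)
    simp only [Function.comp, Nat.succ_eq_add_one] at this
    rwa [show N - 1 + 1 = N by omega] at this
  rw [Stirling.stirlingSeq_one] at h1
  unfold Stirling.stirlingSeq at h1
  rw [div_le_iff₀ (by positivity)] at h1
  refine h1.trans (le_of_eq ?_)
  rw [Real.sqrt_mul (by norm_num)]
  have : Real.sqrt 2 ≠ 0 := by positivity
  field_simp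

theorem mup_fact_ge (t : ℕ) : Real.sqrt t * (t / Real.exp 1) ^ t ≤ (t ! : ℝ) := by
  refine le_trans ?_ (Stirling.le_factorial_stirling t)
  refine mul_le_mul_of_nonneg_right ?_ (by positivity)
  apply Real.sqrt_le_sqrt
  have : (0 : ℝ) ≤ t := Nat.cast_nonneg t
  have := Real.pi_gt_three
  nlinarith

/-- the central multinomial coefficient -/
theorem mup_central (r t : ℕ) (ht : 1 ≤ t) :
    (((r + 1) * t)! : ℝ) ≤ Real.exp 1 * Real.sqrt ((r : ℝ) + 1) *
      ((r : ℝ) + 1) ^ ((r + 1) * t) / Real.sqrt t ^ r * (t ! : ℝ) ^ (r + 1) := by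
  have ht' : (0 : ℝ) < t := by exact_mod_cast ht
  have h1 := mup_fact_le (N := (r + 1) * t) (by
    have : 1 * 1 ≤ (r + 1) * t := Nat.mul_le_mul (by omega) ht
    omega)
  refine h1.trans ?_
  have h2 : (Real.sqrt t * (t / Real.exp 1) ^ t) ^ (r + 1) ≤ (t ! : ℝ) ^ (r + 1) :=
    pow_le_pow_left₀ (by positivity) (mup_fact_ge t) _
  have h3 : 0 ≤ Real.exp 1 * Real.sqrt ((r : ℝ) + 1) *
      ((r : ℝ) + 1) ^ ((r + 1) * t) / Real.sqrt t ^ r := by positivity
  refine le_trans (le_of_eq ?_) (mul_le_mul_of_nonneg_left h2 h3)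
  have hs : Real.sqrt t ≠ 0 := by positivity
  have e1 : Real.sqrt (((r + 1) * t : ℕ) : ℝ) = Real.sqrt ((r : ℝ) + 1) * Real.sqrt t := by
    push_cast
    rw [Real.sqrt_mul (by positivity)]
  have e2 : (((r + 1) * t : ℕ) : ℝ) / Real.exp 1 = ((r : ℝ) + 1) * (t / Real.exp 1) := by
    push_cast
    ring
  rw [e1, e2, mul_pow (((r : ℝ) + 1)), mul_pow (Real.sqrt t), ← pow_mul,
    pow_succ (Real.sqrt t) r, mul_comm t (r + 1)]
  field_simp

/-- balanced multinomial coefficients -/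
theorem mup_bal (r n : ℕ) (hn : r + 1 ≤ n) :
    (Nat.multinomial univ (fun i : Fin (r + 1) => n / (r + 1) +
        if (i : ℕ) < n % (r + 1) then 1 else 0) : ℝ) ≤
      Real.exp 1 * Real.sqrt ((r : ℝ) + 1) * Real.sqrt (2 * ((r : ℝ) + 1)) ^ r *
        ((r : ℝ) + 1) ^ n / Real.sqrt n ^ r := by
  set t : ℕ := n / (r + 1) with ht
  set j : ℕ := n % (r + 1) with hj
  have ht1 : 1 ≤ t := (Nat.one_le_div_iff (by omega)).2 hn
  have ht' : (1 : ℝ) ≤ t := by exact_mod_cast ht1
  have hr0 : (0 : ℝ) ≤ r := Nat.cast_nonneg r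
  have hn' : n = (r + 1) * t + j := (Nat.div_add_mod n (r + 1)).symm
  have hjr : j < r + 1 := Nat.mod_lt _ (by omega)
  set f : Fin (r + 1) → ℕ := fun i => t + if (i : ℕ) < j then 1 else 0 with hf
  have hcj : (univ.filter (fun i : Fin (r + 1) => (i : ℕ) < j)).card = j := by
    have := Fin.card_filter_val_lt (n := r + 1) (m := j)
    rw [this]
    exact min_eq_right hjr.le
  have hsum : ∑ i, f i = n := by
    simp only [hf]
    rw [sum_add_distrib, sum_const, card_univ, Fintype.card_fin, smul_eq_mul, sum_boole, hcj]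
    simp only [Nat.cast_id]
    omega
  have hprod : ∏ i, (f i)! = t ! ^ (r + 1) * (t + 1) ^ j := by
    have e1 : ∀ i, (f i)! = t ! * (if (i : ℕ) < j then (t + 1) else 1) := by
      intro i
      simp only [hf]
      split_ifs
      · rw [Nat.factorial_succ, mul_comm]
      · rw [mul_one]; rfl
    rw [prod_congr rfl fun i _ => e1 i, prod_mul_distrib, prod_const, card_univ,
      Fintype.card_fin, ← prod_filter, prod_const, hcj]
  have hspec := Nat.multinomial_spec univ f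
  rw [hprod, hsum] at hspec
  have hfac : (n ! : ℝ) ≤ (((r + 1) * t)! : ℝ) * (((r : ℝ) + 1) * ((t : ℝ) + 1)) ^ j := by
    have e1 : n ! = ((r + 1) * t)! * ((r + 1) * t + 1).ascFactorial j := by
      rw [Nat.factorial_mul_ascFactorial, ← hn']
    have e2 := Nat.ascFactorial_le_pow_add ((r + 1) * t) j
    have e3 : (((r + 1) * t + j : ℕ) : ℝ) ≤ ((r : ℝ) + 1) * ((t : ℝ) + 1) := by
      have : (r + 1) * t + j ≤ (r + 1) * (t + 1) := by
        rw [Nat.mul_succ]
        omega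
      exact_mod_cast this
    have e4 : ((((r + 1) * t + 1).ascFactorial j : ℕ) : ℝ) ≤
        (((r : ℝ) + 1) * ((t : ℝ) + 1)) ^ j := by
      refine le_trans ?_ (pow_le_pow_left₀ (by positivity) e3 j)
      exact_mod_cast e2
    rw [e1]
    push_cast
    exact mul_le_mul_of_nonneg_left e4 (by positivity)
  have hcen := mup_central r t ht1
  have hmul : (Nat.multinomial univ f : ℝ) ≤ Real.exp 1 * Real.sqrt ((r : ℝ) + 1) *
      ((r : ℝ) + 1) ^ ((r + 1) * t) / Real.sqrt t ^ r * ((r : ℝ) + 1) ^ j := by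
    have hpos : (0 : ℝ) < (t ! : ℝ) ^ (r + 1) * ((t : ℝ) + 1) ^ j := by positivity
    have hspec' : ((t ! : ℝ) ^ (r + 1) * ((t : ℝ) + 1) ^ j) * (Nat.multinomial univ f : ℝ) =
        (n ! : ℝ) := by exact_mod_cast hspec
    refine le_of_mul_le_mul_left ?_ hpos
    rw [hspec']
    refine hfac.trans ?_
    rw [mul_pow ((r : ℝ) + 1)]
    calc (((r + 1) * t)! : ℝ) * (((r : ℝ) + 1) ^ j * ((t : ℝ) + 1) ^ j)
        ≤ (Real.exp 1 * Real.sqrt ((r : ℝ) + 1) * ((r : ℝ) + 1) ^ ((r + 1) * t) /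
            Real.sqrt t ^ r * (t ! : ℝ) ^ (r + 1)) * (((r : ℝ) + 1) ^ j * ((t : ℝ) + 1) ^ j) :=
          mul_le_mul_of_nonneg_right hcen (by positivity)
      _ = _ := by ring
  refine hmul.trans ?_
  have hpow : ((r : ℝ) + 1) ^ n = ((r : ℝ) + 1) ^ ((r + 1) * t) * ((r : ℝ) + 1) ^ j := by
    rw [← pow_add, ← hn']
  have hsqrt : Real.sqrt n ≤ Real.sqrt (2 * ((r : ℝ) + 1)) * Real.sqrt t := by
    rw [← Real.sqrt_mul (by positivity)]
    apply Real.sqrt_le_sqrt
    have h1 : (n : ℝ) = ((r : ℝ) + 1) * t + j := by exact_mod_cast hn'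
    have h2 : (j : ℝ) ≤ (r : ℝ) + 1 := by exact_mod_cast hjr.le
    nlinarith
  have hn0 : 0 < Real.sqrt n := by
    apply Real.sqrt_pos.2
    have : 0 < n := by omega
    exact_mod_cast this
  have hst : 0 < Real.sqrt t := by positivity
  have hinv : 1 / Real.sqrt t ^ r ≤ Real.sqrt (2 * ((r : ℝ) + 1)) ^ r / Real.sqrt n ^ r := by
    rw [div_le_div_iff₀ (by positivity) (by positivity), one_mul, ← mul_pow]
    exact pow_le_pow_left₀ hn0.le hsqrt r
  calc Real.exp 1 * Real.sqrt ((r : ℝ) + 1) * ((r : ℝ) + 1) ^ ((r + 1) * t) / Real.sqrt t ^ r *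
        ((r : ℝ) + 1) ^ j
      = (Real.exp 1 * Real.sqrt ((r : ℝ) + 1) * ((r : ℝ) + 1) ^ n) * (1 / Real.sqrt t ^ r) := by
        rw [hpow]; ring
    _ ≤ (Real.exp 1 * Real.sqrt ((r : ℝ) + 1) * ((r : ℝ) + 1) ^ n) *
        (Real.sqrt (2 * ((r : ℝ) + 1)) ^ r / Real.sqrt n ^ r) :=
        mul_le_mul_of_nonneg_left hinv (by positivity)
    _ = _ := by ring

/-- Block MUP -/
theorem nc_upper_pr (r : ℕ) : ∃ C : ℝ, 0 < C ∧ ∀ (ι : Type) [Fintype ι] [DecidableEq ι]
    (g : Fin r → ℤ), 0 < Fintype.card ι →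
      (NC ι g : ℝ) ≤ C * ((r : ℝ) + 1) ^ Fintype.card ι / Real.sqrt (Fintype.card ι) ^ r := by
  have hr0 : (0 : ℝ) ≤ r := Nat.cast_nonneg r
  set C₁ : ℝ := Real.exp 1 * Real.sqrt ((r : ℝ) + 1) * Real.sqrt (2 * ((r : ℝ) + 1)) ^ r with hC₁
  set C₂ : ℝ := Real.sqrt ((r : ℝ) + 1) ^ r with hC₂
  have hC₁0 : 0 < C₁ := by positivity
  have hC₂0 : 0 < C₂ := by positivity
  refine ⟨C₁ + C₂, by positivity, ?_⟩
  intro ι _ _ g hι
  set n := Fintype.card ι with hn
  have hn0 : (0 : ℝ) < n := by exact_mod_cast hι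
  have hsn : 0 < Real.sqrt n := Real.sqrt_pos.2 hn0
  have hX : 0 ≤ ((r : ℝ) + 1) ^ n / Real.sqrt n ^ r := by positivity
  have htriv : (NC ι g : ℝ) ≤ ((r : ℝ) + 1) ^ n := by
    unfold NC
    have h1 := card_filter_le (univ : Finset (ι → Fin (r + 1)))
      (fun b => ∀ m, (cl b m : ℤ) = g m)
    rw [card_univ, Fintype.card_fun, Fintype.card_fin] at h1
    exact_mod_cast h1
  by_cases hlt : r = 0 ∨ n < r + 1
  · -- small cases
    have h1 : Real.sqrt n ^ r ≤ C₂ := by
      rcases hlt with h0 | h0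
      · rw [hC₂, h0]; simp
      · rw [hC₂]
        apply pow_le_pow_left₀ hsn.le
        apply Real.sqrt_le_sqrt
        exact_mod_cast h0.le
    have h2 : ((r : ℝ) + 1) ^ n ≤ C₂ * (((r : ℝ) + 1) ^ n / Real.sqrt n ^ r) := by
      rw [← mul_div_assoc, le_div_iff₀ (by positivity), mul_comm C₂]
      exact mul_le_mul_of_nonneg_left h1 (by positivity)
    refine htriv.trans (h2.trans ?_)
    rw [mul_div_assoc]
    exact mul_le_mul_of_nonneg_right (by linarith) hX
  · push Not at hlt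
    obtain ⟨hr, hnr⟩ := hlt
    have hr1 : 1 ≤ r := Nat.one_le_iff_ne_zero.2 hr
    have h1 : NC ι g ≤ maxMultinomial n r := nc_le_max r hr1 ι g hnr
    have hcj : (univ.filter (fun i : Fin (r + 1) => (i : ℕ) < n % (r + 1))).card =
        n % (r + 1) := by
      have := Fin.card_filter_val_lt (n := r + 1) (m := n % (r + 1))
      rw [this]
      exact min_eq_right (Nat.mod_lt _ (by omega)).le
    have h2 := max_balanced r n hr1 hnr (fun i : Fin (r + 1) => n / (r + 1) +
        if (i : ℕ) < n % (r + 1) then 1 else 0) (by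
      rw [sum_add_distrib, sum_const, card_univ, Fintype.card_fin, smul_eq_mul, sum_boole, hcj]
      simp only [Nat.cast_id]
      exact Nat.div_add_mod n (r + 1)) (by
      intro i j
      split_ifs <;> omega)
    have h3 := mup_bal r n hnr
    have h4 : (NC ι g : ℝ) ≤ (maxMultinomial n r : ℝ) := by exact_mod_cast h1
    rw [h2] at h4
    refine h4.trans (h3.trans ?_)
    rw [← hC₁, mul_div_assoc, mul_div_assoc]
    exact mul_le_mul_of_nonneg_right (by linarith) hX

end MUP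

end Pool.Agent.Lib_helper46.CC

namespace Pool.Agent.Lib_helper46.CC

alias nc_upper := nc_upper_pr

end Pool.Agent.Lib_helper46.CC
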