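import Mathlib
import Pool.Agent.Lib_helper46.CCF.WBase

/-! Block TAG, written by helper80. -/

set_option autoImplicit false

namespace Pool.Agent.Lib_helper46.CC

open Finset Pool.Agent.Lib_helper70.Chains
open scoped Classical

theorem tag_one {r : ℕ} (φ : Fin (r + 1) → ℝ)
    (h0 : ∑ j, φ j = 0) (h1 : ∀ j, |φ j| ≤ 1) (θ : ℝ) :
    ∑ j, Real.exp (θ * φ j) ≤ ((r : ℝ) + 1) * Real.exp (θ ^ 2 / 2) := by
  have hconv : ∀ j, Real.exp (θ * φ j) ≤
      (1 + φ j) / 2 * Real.exp θ + (1 - φ j) / 2 * Real.exp (-θ) := by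
    intro j
    have h2 := abs_le.mp (h1 j)
    have h3 := convexOn_exp.2 (Set.mem_univ θ) (Set.mem_univ (-θ))
      (by linarith : 0 ≤ (1 + φ j) / 2) (by linarith : 0 ≤ (1 - φ j) / 2) (by ring)
    simp only [smul_eq_mul] at h3
    have h4 : (1 + φ j) / 2 * θ + (1 - φ j) / 2 * -θ = θ * φ j := by ring
    rw [h4] at h3
    exact h3
  calc ∑ j, Real.exp (θ * φ j)
      ≤ ∑ j, ((1 + φ j) / 2 * Real.exp θ + (1 - φ j) / 2 * Real.exp (-θ)) :=
        Finset.sum_le_sum (fun j _ => hconv j)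
    _ = ∑ j : Fin (r + 1), ((Real.exp θ + Real.exp (-θ)) / 2 +
          (Real.exp θ - Real.exp (-θ)) / 2 * φ j) :=
        Finset.sum_congr rfl (fun j _ => by ring)
    _ = ((r : ℝ) + 1) * Real.cosh θ := by
        rw [Finset.sum_add_distrib, ← Finset.mul_sum, h0, Finset.sum_const, Finset.card_univ,
          Fintype.card_fin, nsmul_eq_mul, Real.cosh_eq]
        push_cast
        ring
    _ ≤ _ := mul_le_mul_of_nonneg_left (Real.cosh_le_exp_half_sq θ) (by positivity)

theorem tag_side {r : ℕ} {ι : Type} [Fintype ι] [DecidableEq ι] (φ : Fin (r + 1) → ℝ)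
    (h0 : ∑ j, φ j = 0) (h1 : ∀ j, |φ j| ≤ 1) (A : ℝ) (hA : 0 ≤ A) (hι : 0 < Fintype.card ι) :
    ((univ.filter (fun u : ι → Fin (r + 1) =>
        A * Real.sqrt (Fintype.card ι) < ∑ x, φ (u x))).card : ℝ) ≤
      Real.exp (-A ^ 2 / 2) * ((r : ℝ) + 1) ^ Fintype.card ι := by
  set n : ℝ := (Fintype.card ι : ℝ) with hn
  have hn0 : 0 < n := by rw [hn]; exact_mod_cast hι
  have hs : 0 < Real.sqrt n := Real.sqrt_pos.mpr hn0
  have hss : Real.sqrt n * Real.sqrt n = n := Real.mul_self_sqrt hn0.le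
  set θ : ℝ := A / Real.sqrt n with hθ
  have hθ0 : 0 ≤ θ := div_nonneg hA hs.le
  have hgen : ∑ u : ι → Fin (r + 1), Real.exp (θ * ∑ x, φ (u x)) ≤
      ((r : ℝ) + 1) ^ Fintype.card ι * Real.exp (n * (θ ^ 2 / 2)) := by
    calc ∑ u : ι → Fin (r + 1), Real.exp (θ * ∑ x, φ (u x))
        = ∑ u : ι → Fin (r + 1), ∏ x, Real.exp (θ * φ (u x)) := by
          apply Finset.sum_congr rfl
          intro u _
          rw [Finset.mul_sum, Real.exp_sum]
      _ = ∏ x : ι, ∑ j, Real.exp (θ * φ j) := by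
          rw [Finset.prod_univ_sum, Fintype.piFinset_univ]
      _ = (∑ j, Real.exp (θ * φ j)) ^ Fintype.card ι := by
          rw [Finset.prod_const, Finset.card_univ]
      _ ≤ (((r : ℝ) + 1) * Real.exp (θ ^ 2 / 2)) ^ Fintype.card ι :=
          pow_le_pow_left₀ (Finset.sum_nonneg (fun j _ => (Real.exp_pos _).le))
            (tag_one φ h0 h1 θ) _
      _ = _ := by rw [mul_pow, ← Real.exp_nat_mul]
  have hmark : ((univ.filter (fun u : ι → Fin (r + 1) =>
        A * Real.sqrt n < ∑ x, φ (u x))).card : ℝ) * Real.exp (θ * (A * Real.sqrt n)) ≤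
      ∑ u : ι → Fin (r + 1), Real.exp (θ * ∑ x, φ (u x)) := by
    calc ((univ.filter (fun u : ι → Fin (r + 1) =>
        A * Real.sqrt n < ∑ x, φ (u x))).card : ℝ) * Real.exp (θ * (A * Real.sqrt n))
        = ∑ u ∈ univ.filter (fun u : ι → Fin (r + 1) => A * Real.sqrt n < ∑ x, φ (u x)),
            Real.exp (θ * (A * Real.sqrt n)) := by rw [Finset.sum_const, nsmul_eq_mul]
      _ ≤ ∑ u ∈ univ.filter (fun u : ι → Fin (r + 1) => A * Real.sqrt n < ∑ x, φ (u x)),
            Real.exp (θ * ∑ x, φ (u x)) := by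
          apply Finset.sum_le_sum
          intro u hu
          apply Real.exp_le_exp.mpr
          exact mul_le_mul_of_nonneg_left (Finset.mem_filter.mp hu).2.le hθ0
      _ ≤ _ := Finset.sum_le_sum_of_subset_of_nonneg (Finset.filter_subset _ _)
          (fun u _ _ => (Real.exp_pos _).le)
  have h2 : θ * (A * Real.sqrt n) = A ^ 2 := by
    rw [hθ]
    field_simp
  have h3 : n * (θ ^ 2 / 2) = A ^ 2 / 2 := by
    rw [hθ, div_pow, Real.sq_sqrt hn0.le]
    field_simp
  rw [h2] at hmark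
  rw [h3] at hgen
  have h4 := hmark.trans hgen
  have h5 : Real.exp (-A ^ 2 / 2) = Real.exp (A ^ 2 / 2) / Real.exp (A ^ 2) := by
    rw [← Real.exp_sub]; congr 1; ring
  rw [h5, div_mul_eq_mul_div, le_div_iff₀ (Real.exp_pos _)]
  linarith [mul_comm (Real.exp (A ^ 2 / 2)) (((r : ℝ) + 1) ^ Fintype.card ι)]

theorem tail_pr {r : ℕ} {ι : Type} [Fintype ι] [DecidableEq ι] (φ : Fin (r + 1) → ℝ)
    (h0 : ∑ j, φ j = 0) (h1 : ∀ j, |φ j| ≤ 1) (A : ℝ) (hA : 0 ≤ A) :
    ((univ.filter (fun u : ι → Fin (r + 1) =>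
        A * Real.sqrt (Fintype.card ι) < |∑ x, φ (u x)|)).card : ℝ) ≤
      2 * Real.exp (-A ^ 2 / 4) * ((r : ℝ) + 1) ^ Fintype.card ι := by
  rcases Nat.eq_zero_or_pos (Fintype.card ι) with hι | hι
  · have hemp : IsEmpty ι := Fintype.card_eq_zero_iff.mp hι
    have h2 : (univ.filter (fun u : ι → Fin (r + 1) =>
        A * Real.sqrt (Fintype.card ι) < |∑ x, φ (u x)|)) = ∅ := by
      apply Finset.filter_eq_empty_iff.mpr
      intro u _
      simp
    rw [h2]
    simp only [Finset.card_empty, Nat.cast_zero]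
    positivity
  · have hsub : (univ.filter (fun u : ι → Fin (r + 1) =>
        A * Real.sqrt (Fintype.card ι) < |∑ x, φ (u x)|)) ⊆
        (univ.filter (fun u : ι → Fin (r + 1) =>
          A * Real.sqrt (Fintype.card ι) < ∑ x, φ (u x))) ∪
        (univ.filter (fun u : ι → Fin (r + 1) =>
          A * Real.sqrt (Fintype.card ι) < ∑ x, (-φ (u x)))) := by
      intro u hu
      rw [Finset.mem_filter] at hu
      rw [Finset.mem_union, Finset.mem_filter, Finset.mem_filter, Finset.sum_neg_distrib]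
      rcases lt_abs.mp hu.2 with h | h
      · exact Or.inl ⟨Finset.mem_univ _, h⟩
      · exact Or.inr ⟨Finset.mem_univ _, h⟩
    have hcard := (Finset.card_le_card hsub).trans (Finset.card_union_le _ _)
    have hcard' : ((univ.filter (fun u : ι → Fin (r + 1) =>
        A * Real.sqrt (Fintype.card ι) < |∑ x, φ (u x)|)).card : ℝ) ≤
        ((univ.filter (fun u : ι → Fin (r + 1) =>
          A * Real.sqrt (Fintype.card ι) < ∑ x, φ (u x))).card : ℝ) +
        ((univ.filter (fun u : ι → Fin (r + 1) =>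
          A * Real.sqrt (Fintype.card ι) < ∑ x, (-φ (u x)))).card : ℝ) := by exact_mod_cast hcard
    have ha := tag_side (ι := ι) φ h0 h1 A hA hι
    have hb := tag_side (ι := ι) (fun j => -φ j) (by rw [Finset.sum_neg_distrib, h0, neg_zero])
      (fun j => by rw [abs_neg]; exact h1 j) A hA hι
    have hc : Real.exp (-A ^ 2 / 2) ≤ Real.exp (-A ^ 2 / 4) := by
      apply Real.exp_le_exp.mpr
      nlinarith [sq_nonneg A]
    have hd : Real.exp (-A ^ 2 / 2) * ((r : ℝ) + 1) ^ Fintype.card ι ≤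
        Real.exp (-A ^ 2 / 4) * ((r : ℝ) + 1) ^ Fintype.card ι :=
      mul_le_mul_of_nonneg_right hc (by positivity)
    linarith


end Pool.Agent.Lib_helper46.CC

namespace Pool.Agent.Lib_helper46.CC

alias tail := tail_pr

end Pool.Agent.Lib_helper46.CC
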