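import Mathlib
import Pool.Agent.Lib_helper46.CCF.WBase
import Pool.Agent.Lib_helper46.CCF.CHE
import Pool.Agent.Lib_helper46.CCF.TAG
import Pool.Agent.Lib_helper46.CCF.MUP
import Pool.Agent.Lib_helper46.CCF.MMX

/-! Block ATY, written by helper28. -/

/-!
# CC, block ATY: few words of a given type are not typical
-/

set_option autoImplicit false

namespace Pool.Agent.Lib_helper46.CC

open Finset Pool.Agent.Lib_helper70.Chains Filter Topology
open scoped Classical

section ATYP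

theorem aty_zt {ι : Type} [Fintype ι] [DecidableEq ι] {r : ℕ} (A : ℝ) (hA : 0 ≤ A) :
    ((univ.filter (fun u : ι → Fin (r + 1) => ¬ ZTyp A u)).card : ℝ) ≤
      2 * ((r : ℝ) + 1) * Real.exp (-A ^ 2 / 4) * ((r : ℝ) + 1) ^ Fintype.card ι := by
  have h1 : (univ.filter (fun u : ι → Fin (r + 1) => ¬ ZTyp A u)) ⊆
      univ.biUnion fun j : Fin (r + 1) => univ.filter fun u : ι → Fin (r + 1) =>
        A * Real.sqrt (Fintype.card ι) <
          |∑ x, ((if u x = j then (1 : ℝ) else 0) - 1 / ((r : ℝ) + 1))| := by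
    intro u hu
    rw [mem_filter] at hu
    have h2 := hu.2
    unfold ZTyp at h2
    push Not at h2
    obtain ⟨j, hj⟩ := h2
    rw [mem_biUnion]
    refine ⟨j, mem_univ _, mem_filter.2 ⟨mem_univ _, ?_⟩⟩
    have h3 : (∑ x, ((if u x = j then (1 : ℝ) else 0) - 1 / ((r : ℝ) + 1))) =
        (ct u j : ℝ) - (Fintype.card ι : ℝ) / (r + 1) := by
      rw [sum_sub_distrib, sum_const, card_univ, nsmul_eq_mul]
      unfold ct
      rw [card_filter]
      push_cast
      ring
    rw [h3]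
    exact hj
  have h2 : ∀ j : Fin (r + 1), ((univ.filter fun u : ι → Fin (r + 1) =>
        A * Real.sqrt (Fintype.card ι) <
          |∑ x, ((if u x = j then (1 : ℝ) else 0) - 1 / ((r : ℝ) + 1))|).card : ℝ) ≤
      2 * Real.exp (-A ^ 2 / 4) * ((r : ℝ) + 1) ^ Fintype.card ι := by
    intro j
    have hr0 : (0 : ℝ) < (r : ℝ) + 1 := by positivity
    refine tail (r := r) (ι := ι) (fun i => (if i = j then (1 : ℝ) else 0) - 1 / ((r : ℝ) + 1))
      ?_ ?_ A hA
    · rw [sum_sub_distrib, sum_const, card_univ, nsmul_eq_mul, Fintype.card_fin,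
        sum_ite_eq' univ j, if_pos (mem_univ j)]
      push_cast
      field_simp
      ring
    · intro i
      have h3 : 0 < 1 / ((r : ℝ) + 1) := by positivity
      have h4 : 1 / ((r : ℝ) + 1) ≤ 1 := by
        rw [div_le_one hr0]
        linarith [(Nat.cast_nonneg r : (0 : ℝ) ≤ r)]
      rw [abs_le]
      split_ifs
      · constructor <;> linarith
      · constructor <;> linarith
  have h3 : ((univ.filter (fun u : ι → Fin (r + 1) => ¬ ZTyp A u)).card : ℝ) ≤
      ∑ j : Fin (r + 1), ((univ.filter fun u : ι → Fin (r + 1) =>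
        A * Real.sqrt (Fintype.card ι) <
          |∑ x, ((if u x = j then (1 : ℝ) else 0) - 1 / ((r : ℝ) + 1))|).card : ℝ) := by
    have := (card_le_card h1).trans card_biUnion_le
    exact_mod_cast this
  refine h3.trans ((sum_le_sum fun j _ => h2 j).trans (le_of_eq ?_))
  rw [sum_const, card_univ, nsmul_eq_mul, Fintype.card_fin]
  push_cast
  ring

theorem aty_pi {ι α : Type} [Fintype ι] [DecidableEq ι] [Fintype α] (i : ι) (P : α → Prop)
    [DecidablePred P] (ε : ℝ) (h : ((univ.filter P).card : ℝ) ≤ ε * Fintype.card α) :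
    ((univ.filter fun f : ι → α => P (f i)).card : ℝ) ≤ ε * Fintype.card (ι → α) := by
  have h1 : (univ.filter fun f : ι → α => P (f i)).card =
      (univ.filter fun x : α × ({j // j ≠ i} → α) => P x.1).card := by
    apply Finset.card_equiv (Equiv.funSplitAt i α)
    intro f
    simp
  have h2 : (univ.filter fun x : α × ({j // j ≠ i} → α) => P x.1) =
      (univ.filter P) ×ˢ (univ : Finset ({j // j ≠ i} → α)) := by
    ext x
    simp
  rw [h1, h2, card_product, card_univ, Fintype.card_congr (Equiv.funSplitAt i α),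
    Fintype.card_prod]
  push_cast
  rw [← mul_assoc]
  exact mul_le_mul_of_nonneg_right h (by positivity)

theorem aty_fst {α β : Type} [Fintype α] [Fintype β] (P : α → Prop)
    [DecidablePred P] (ε : ℝ) (h : ((univ.filter P).card : ℝ) ≤ ε * Fintype.card α) :
    ((univ.filter fun x : α × β => P x.1).card : ℝ) ≤ ε * Fintype.card (α × β) := by
  have h2 : (univ.filter fun x : α × β => P x.1) = (univ.filter P) ×ˢ (univ : Finset β) := by
    ext x
    simp
  rw [h2, card_product, card_univ, Fintype.card_prod]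
  push_cast
  rw [← mul_assoc]
  exact mul_le_mul_of_nonneg_right h (by positivity)

theorem aty_snd {α β : Type} [Fintype α] [Fintype β] (P : β → Prop)
    [DecidablePred P] (ε : ℝ) (h : ((univ.filter P).card : ℝ) ≤ ε * Fintype.card β) :
    ((univ.filter fun x : α × β => P x.2).card : ℝ) ≤ ε * Fintype.card (α × β) := by
  have h2 : (univ.filter fun x : α × β => P x.2) = (univ : Finset α) ×ˢ (univ.filter P) := by
    ext x
    simp
  rw [h2, card_product, card_univ, Fintype.card_prod]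
  push_cast
  calc (Fintype.card α : ℝ) * (univ.filter P).card ≤ Fintype.card α * (ε * Fintype.card β) :=
        mul_le_mul_of_nonneg_left h (by positivity)
    _ = ε * (Fintype.card α * Fintype.card β) := by ring

variable {r y z R t : ℕ}

theorem aty_dead (f : Fin r → ℕ) (P : (Fin r → ZW r z) × (Fin R → PW r t) → Prop)
    [DecidablePred P] (G : ℝ)
    (hG : ∀ g : Fin r → ℤ, (NC (Fin y) g : ℝ) ≤ G) :
    ((univ.filter fun w : Word r y z R t => typ w = f ∧ P w.2).card : ℝ) ≤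
      (univ.filter P).card * G := by
  have h1 : (univ.filter fun w : Word r y z R t => typ w = f ∧ P w.2) ⊆
      (univ.filter P).biUnion fun v =>
        (univ.filter fun a : Fin y → Fin (r + 1) =>
          typ ((a, v) : Word r y z R t) = f).image fun a => ((a, v) : Word r y z R t) := by
    intro w hw
    obtain ⟨_, h2, h3⟩ := mem_filter.1 hw
    rw [mem_biUnion]
    refine ⟨w.2, mem_filter.2 ⟨mem_univ _, h3⟩, ?_⟩
    rw [mem_image]
    exact ⟨w.1, mem_filter.2 ⟨mem_univ _, h2⟩, rfl⟩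
  have h2 : ∀ v, ((univ.filter fun a : Fin y → Fin (r + 1) =>
      typ ((a, v) : Word r y z R t) = f).card : ℝ) ≤ G := by
    intro v
    refine le_trans ?_ (hG fun m => (f m : ℤ) - (∑ m', cl (v.1 m') m + ∑ p, cl (v.2 p) m : ℕ))
    unfold NC
    have h3 : (univ.filter fun a : Fin y → Fin (r + 1) =>
        typ ((a, v) : Word r y z R t) = f) ⊆ univ.filter fun b : Fin y → Fin (r + 1) =>
          ∀ m, (cl b m : ℤ) = (f m : ℤ) - (∑ m', cl (v.1 m') m + ∑ p, cl (v.2 p) m : ℕ) := by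
      intro a ha
      rw [mem_filter] at ha ⊢
      refine ⟨mem_univ _, fun m => ?_⟩
      have h4 := congrFun ha.2 m
      unfold typ at h4
      push_cast
      have h5 : (cl a m : ℤ) + ∑ m', (cl (v.1 m') m : ℤ) + ∑ p, (cl (v.2 p) m : ℤ) = f m := by
        exact_mod_cast h4
      linarith
    exact Nat.cast_le.2 ((card_le_card h3).trans (le_of_eq (by congr)))
  have h3 : ((univ.filter fun w : Word r y z R t => typ w = f ∧ P w.2).card : ℝ) ≤
      ∑ v ∈ univ.filter P, ((univ.filter fun a : Fin y → Fin (r + 1) =>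
          typ ((a, v) : Word r y z R t) = f).card : ℝ) := by
    have := ((card_le_card h1).trans card_biUnion_le).trans (sum_le_sum fun v _ => card_image_le)
    exact_mod_cast this
  refine h3.trans ((sum_le_sum fun v _ => h2 v).trans (le_of_eq ?_))
  rw [sum_const, nsmul_eq_mul]

theorem aty_live (f : Fin r → ℕ) (P : (Fin y → Fin (r + 1)) → Prop)
    [DecidablePred P] (G : ℝ)
    (hG : ∀ g : Fin r → ℤ, (NC ((Fin r × Fin z) ⊕ (Fin R × Pos r t)) g : ℝ) ≤ G) :
    ((univ.filter fun w : Word r y z R t => typ w = f ∧ P w.1).card : ℝ) ≤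
      (univ.filter P).card * G := by
  have h1 : (univ.filter fun w : Word r y z R t => typ w = f ∧ P w.1) ⊆
      (univ.filter P).biUnion fun a =>
        (univ.filter fun v : (Fin r → ZW r z) × (Fin R → PW r t) =>
          typ ((a, v) : Word r y z R t) = f).image fun v => ((a, v) : Word r y z R t) := by
    intro w hw
    obtain ⟨_, h2, h3⟩ := mem_filter.1 hw
    rw [mem_biUnion]
    refine ⟨w.1, mem_filter.2 ⟨mem_univ _, h3⟩, ?_⟩
    rw [mem_image]
    exact ⟨w.2, mem_filter.2 ⟨mem_univ _, h2⟩, rfl⟩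
  have h2 : ∀ a, ((univ.filter fun v : (Fin r → ZW r z) × (Fin R → PW r t) =>
      typ ((a, v) : Word r y z R t) = f).card : ℝ) ≤ G := by
    intro a
    refine le_trans ?_ (hG fun m => (f m : ℤ) - cl a m)
    unfold NC
    have h3 : (univ.filter fun v : (Fin r → ZW r z) × (Fin R → PW r t) =>
        typ ((a, v) : Word r y z R t) = f).card ≤
        (univ.filter fun b : (Fin r × Fin z) ⊕ (Fin R × Pos r t) → Fin (r + 1) =>
          ∀ m, (cl b m : ℤ) = (f m : ℤ) - cl a m).card := by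
      apply card_le_card_of_injOn (fun v => (Sum.elim (fun b => v.1 b.1 b.2)
        (fun c => v.2 c.1 c.2) : (Fin r × Fin z) ⊕ (Fin R × Pos r t) → Fin (r + 1)))
      · intro v hv
        rw [mem_coe, mem_filter] at hv ⊢
        refine ⟨mem_univ _, fun m => ?_⟩
        have h4 := congrFun hv.2 m
        unfold typ at h4
        have h5 : cl (Sum.elim (fun b => v.1 b.1 b.2) (fun c => v.2 c.1 c.2) :
            (Fin r × Fin z) ⊕ (Fin R × Pos r t) → Fin (r + 1)) m =
            ∑ m', cl (v.1 m') m + ∑ p, cl (v.2 p) m := by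
          unfold cl
          simp only [card_filter]
          rw [Fintype.sum_sum_type, Fintype.sum_prod_type, Fintype.sum_prod_type]
          rfl
        rw [h5]
        have h6 : (cl a m : ℤ) + ∑ m', (cl (v.1 m') m : ℤ) + ∑ p, (cl (v.2 p) m : ℤ) = f m := by
          exact_mod_cast h4
        push_cast
        linarith
      · intro v _ v' _ hvv
        apply Prod.ext
        · funext m x
          have := congrFun hvv (Sum.inl (m, x))
          exact this
        · funext p x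
          have := congrFun hvv (Sum.inr (p, x))
          exact this
    exact Nat.cast_le.2 (h3.trans (le_of_eq (by congr)))
  have h3 : ((univ.filter fun w : Word r y z R t => typ w = f ∧ P w.1).card : ℝ) ≤
      ∑ a ∈ univ.filter P, ((univ.filter fun v : (Fin r → ZW r z) × (Fin R → PW r t) =>
          typ ((a, v) : Word r y z R t) = f).card : ℝ) := by
    have := ((card_le_card h1).trans card_biUnion_le).trans (sum_le_sum fun v _ => card_image_le)
    exact_mod_cast this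
  refine h3.trans ((sum_le_sum fun v _ => h2 v).trans (le_of_eq ?_))
  rw [sum_const, nsmul_eq_mul]

/-- the event that the blocks or the parts are not typical -/
def AtyE (r z R t : ℕ) (A τ : ℝ) (v : (Fin r → ZW r z) × (Fin R → PW r t)) : Prop :=
  (∃ m, ¬ ZTyp A (v.1 m)) ∨ (∃ p, ¬ ZTyp A (v.2 p)) ∨
    ∃ m : Fin r, ∑ p, (Dl (v.2 p) m) ^ 2 < (R : ℝ) * t * (2 - τ)

theorem aty_card (r z R t : ℕ) :
    (Fintype.card ((Fin r → ZW r z) × (Fin R → PW r t)) : ℝ) =
      ((r : ℝ) + 1) ^ (r * z + R * ((r + 1) * t)) := by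
  rw [Fintype.card_prod, Fintype.card_fun, Fintype.card_fun, Fintype.card_fun, Fintype.card_fun,
    Fintype.card_prod]
  simp only [Fintype.card_fin]
  push_cast
  rw [← pow_mul, ← pow_mul, ← pow_add]
  congr 1
  ring

theorem aty_ev (r z R t : ℕ) (ht : 1 ≤ t) (A τ : ℝ) (hA : 0 ≤ A) (h0 : 0 < τ) (h1 : τ ≤ 1)
    (E : ℝ) (hE : Real.exp (-A ^ 2 / 4) ≤ E) (hE' : Real.exp (-(R * τ ^ 2 / 28)) ≤ E) :
    ((univ.filter (AtyE r z R t A τ)).card : ℝ) ≤
      ((r : ℝ) * (2 * ((r : ℝ) + 1)) + R * (2 * ((r : ℝ) + 1)) + r) * E *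
        ((r : ℝ) + 1) ^ (r * z + R * ((r + 1) * t)) := by
  set V := (Fin r → ZW r z) × (Fin R → PW r t) with hV
  have hE0 : 0 ≤ E := (Real.exp_pos _).le.trans hE
  have hVc : (Fintype.card V : ℝ) = ((r : ℝ) + 1) ^ (r * z + R * ((r + 1) * t)) :=
    aty_card r z R t
  have hcz : (Fintype.card (ZW r z) : ℝ) = ((r : ℝ) + 1) ^ Fintype.card (Fin z) := by
    rw [Fintype.card_fun, Fintype.card_fin, Fintype.card_fin]
    push_cast
    rfl
  have hcp : (Fintype.card (PW r t) : ℝ) = ((r : ℝ) + 1) ^ Fintype.card (Pos r t) := by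
    rw [Fintype.card_fun, Fintype.card_fin]
    push_cast
    rfl
  have e1 : ∀ m : Fin r, ((univ.filter fun v : V => ¬ ZTyp A (v.1 m)).card : ℝ) ≤
      (2 * ((r : ℝ) + 1) * E) * Fintype.card V := by
    intro m
    apply aty_fst (fun v : Fin r → ZW r z => ¬ ZTyp A (v m))
    apply aty_pi m (fun u : ZW r z => ¬ ZTyp A u)
    rw [hcz]
    refine (aty_zt A hA).trans ?_
    gcongr
  have e2 : ∀ p : Fin R, ((univ.filter fun v : V => ¬ ZTyp A (v.2 p)).card : ℝ) ≤
      (2 * ((r : ℝ) + 1) * E) * Fintype.card V := by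
    intro p
    apply aty_snd (fun v : Fin R → PW r t => ¬ ZTyp A (v p))
    apply aty_pi p (fun u : PW r t => ¬ ZTyp A u)
    rw [hcp]
    refine (aty_zt A hA).trans ?_
    gcongr
  have e3 : ∀ m : Fin r, ((univ.filter fun v : V =>
      ∑ p, (Dl (v.2 p) m) ^ 2 < (R : ℝ) * t * (2 - τ)).card : ℝ) ≤ E * Fintype.card V := by
    intro m
    apply aty_snd (fun v : Fin R → PW r t => ∑ p, (Dl (v p) m) ^ 2 < (R : ℝ) * t * (2 - τ))
    refine (chern r R t ht m τ h0 h1).trans ?_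
    have h2 : (Fintype.card (Fin R → PW r t) : ℝ) = ((r : ℝ) + 1) ^ (R * ((r + 1) * t)) := by
      rw [Fintype.card_fun, Fintype.card_fun, Fintype.card_prod]
      simp only [Fintype.card_fin]
      push_cast
      rw [← pow_mul]
      congr 1
      ring
    rw [h2]
    gcongr
  have hsub : univ.filter (AtyE r z R t A τ) ⊆
      ((univ.biUnion fun m : Fin r => univ.filter fun v : V => ¬ ZTyp A (v.1 m)) ∪
        (univ.biUnion fun p : Fin R => univ.filter fun v : V => ¬ ZTyp A (v.2 p))) ∪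
        univ.biUnion fun m : Fin r => univ.filter fun v : V =>
          ∑ p, (Dl (v.2 p) m) ^ 2 < (R : ℝ) * t * (2 - τ) := by
    intro v hv
    obtain ⟨_, h2⟩ := mem_filter.1 hv
    rw [mem_union, mem_union, mem_biUnion, mem_biUnion, mem_biUnion]
    rcases h2 with ⟨m, h⟩ | ⟨p, h⟩ | ⟨m, h⟩
    · left
      left
      exact ⟨m, mem_univ _, mem_filter.2 ⟨mem_univ _, h⟩⟩
    · left
      right
      exact ⟨p, mem_univ _, mem_filter.2 ⟨mem_univ _, h⟩⟩
    · right
      exact ⟨m, mem_univ _, mem_filter.2 ⟨mem_univ _, h⟩⟩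
  have h2 := (card_le_card hsub).trans ((card_union_le _ _).trans (Nat.add_le_add
    ((card_union_le _ _).trans (Nat.add_le_add card_biUnion_le card_biUnion_le)) card_biUnion_le))
  have h3 : ((univ.filter (AtyE r z R t A τ)).card : ℝ) ≤
      (∑ m : Fin r, ((univ.filter fun v : V => ¬ ZTyp A (v.1 m)).card : ℝ)) +
        (∑ p : Fin R, ((univ.filter fun v : V => ¬ ZTyp A (v.2 p)).card : ℝ)) +
        ∑ m : Fin r, ((univ.filter fun v : V =>
          ∑ p, (Dl (v.2 p) m) ^ 2 < (R : ℝ) * t * (2 - τ)).card : ℝ) := by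
    exact_mod_cast h2
  refine h3.trans ?_
  refine (add_le_add (add_le_add (sum_le_sum fun m _ => e1 m) (sum_le_sum fun p _ => e2 p))
    (sum_le_sum fun m _ => e3 m)).trans (le_of_eq ?_)
  rw [sum_const, sum_const, sum_const, card_univ, card_univ, Fintype.card_fin, Fintype.card_fin,
    nsmul_eq_mul, nsmul_eq_mul, nsmul_eq_mul, hVc]
  ring

theorem aty_lim (r : ℕ) (a b : ℝ) (ha : 0 ≤ a) (hb : 0 < b) :
    ∃ q0 : ℕ, ∀ q ≥ q0, a * ((q : ℝ) ^ 16 * ((2 * (q : ℝ) ^ 2) ^ r * (2 * (q : ℝ) ^ 14) ^ r) *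
      Real.exp (-(q : ℝ) ^ 2 / 4)) ≤ b := by
  have h1 : Tendsto (fun q : ℕ => a * 4 ^ r * ((q : ℝ) ^ (16 * r + 16) * Real.exp (-(q : ℝ))))
      atTop (𝓝 0) := by
    have := ((Real.tendsto_pow_mul_exp_neg_atTop_nhds_zero (16 * r + 16)).comp
      (tendsto_natCast_atTop_atTop (R := ℝ))).const_mul (a * 4 ^ r)
    rw [mul_zero] at this
    exact this
  obtain ⟨q0, hq0⟩ := eventually_atTop.1 ((h1.eventually (gt_mem_nhds hb)).and
    (eventually_ge_atTop 4))
  refine ⟨q0, fun q hq => ?_⟩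
  obtain ⟨h2, h3⟩ := hq0 q hq
  refine le_trans ?_ h2.le
  have h4 : (4 : ℝ) ≤ q := by exact_mod_cast h3
  have h5 : Real.exp (-(q : ℝ) ^ 2 / 4) ≤ Real.exp (-(q : ℝ)) := by
    apply Real.exp_le_exp.2
    nlinarith
  have h6 : (q : ℝ) ^ 16 * ((2 * (q : ℝ) ^ 2) ^ r * (2 * (q : ℝ) ^ 14) ^ r) =
      4 ^ r * (q : ℝ) ^ (16 * r + 16) := by
    rw [← mul_pow]
    have : (2 * (q : ℝ) ^ 2) * (2 * (q : ℝ) ^ 14) = 4 * (q : ℝ) ^ 16 := by ring
    rw [this, mul_pow, ← pow_mul, pow_add]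
    ring
  rw [h6]
  calc a * (4 ^ r * (q : ℝ) ^ (16 * r + 16) * Real.exp (-(q : ℝ) ^ 2 / 4)) ≤
      a * (4 ^ r * (q : ℝ) ^ (16 * r + 16) * Real.exp (-(q : ℝ))) := by gcongr
    _ = a * 4 ^ r * ((q : ℝ) ^ (16 * r + 16) * Real.exp (-(q : ℝ))) := by ring

/-- Block ATY: few words of a given type are not typical -/
theorem atyp_pr (r : ℕ) (hr : 1 ≤ r) (K η : ℝ) (hK : 0 < K) (hη : 0 < η) :
    ∃ q0 : ℕ, ∀ q ≥ q0, ∃ n0 : ℕ, ∀ n ≥ n0, ∀ t z y h : ℕ, Reg r q K n t z y h →
      ∀ f : Fin r → ℕ,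
        ((univ.filter (fun w : Word r y z (q ^ 16) t => typ w = f ∧
          ¬ Typ (q : ℝ) (1 / (q : ℝ) ^ 4) w)).card : ℝ) ≤
          η / ((2 * q ^ 14 : ℕ) : ℝ) ^ r * maxMultinomial n r := by
  obtain ⟨C, hC, hup⟩ := nc_upper r
  obtain ⟨c, hc, n1, hlow⟩ := max_lower r hr
  obtain ⟨q0, hq0⟩ := aty_lim r (5 * ((r : ℝ) + 1) ^ 2 * C) (η * c) (by positivity) (by positivity)
  refine ⟨max q0 2, fun q hq => ⟨max n1 1, fun n hn t z y h hReg f => ?_⟩⟩
  have hq1 : q0 ≤ q := (le_max_left _ _).trans hq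
  have hq2 : 2 ≤ q := (le_max_right _ _).trans hq
  have hn1 : n1 ≤ n := (le_max_left _ _).trans hn
  have hn2 : 1 ≤ n := (le_max_right _ _).trans hn
  have hqR : (2 : ℝ) ≤ q := by exact_mod_cast hq2
  have hq4 : 16 ≤ q ^ 4 := by
    calc 16 = 2 ^ 4 := by norm_num
      _ ≤ q ^ 4 := Nat.pow_le_pow_left hq2 4
  -- sizes
  have hsum := hReg.sum
  have hy1 := hReg.y_ge
  have hy2 := hReg.y_le
  have hz2 := hReg.z_le
  have hy8 : 8 * y ≤ n := by nlinarith
  have hz8 : 8 * (r * z) ≤ n := by nlinarith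
  have ht : 1 ≤ t := by
    by_contra hcon
    have h0 : t = 0 := by omega
    rw [h0] at hsum
    simp only [mul_zero, add_zero] at hsum
    omega
  have hy0 : 0 < y := by
    rcases Nat.eq_zero_or_pos y with h0 | h0
    · rw [h0] at hy1
      omega
    · exact h0
  set N : ℕ := r * z + q ^ 16 * ((r + 1) * t) with hN
  have hnN : n = y + N := by rw [hsum, hN]; ring
  have hN2 : n ≤ 2 * N := by omega
  have hN0 : 0 < N := by omega
  set X : ℝ := (r : ℝ) + 1 with hX
  have hX1 : 1 ≤ X := by rw [hX]; linarith [(Nat.cast_nonneg r : (0 : ℝ) ≤ r)]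
  set E : ℝ := Real.exp (-(q : ℝ) ^ 2 / 4) with hE
  have hE0 : 0 < E := Real.exp_pos _
  have hnR : (0 : ℝ) < n := by exact_mod_cast hn2
  have hsn : 0 < Real.sqrt n := Real.sqrt_pos.2 hnR
  set S : ℝ := (2 * (q : ℝ) ^ 2) ^ r / Real.sqrt n ^ r with hS
  have hS0 : 0 < S := by positivity
  -- comparison of the square roots
  have hroot : ∀ x : ℕ, 0 < x → n ≤ 4 * q ^ 4 * x → 1 / Real.sqrt x ^ r ≤ S := by
    intro x hx hnx
    have hxR : (0 : ℝ) < x := by exact_mod_cast hx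
    have hsx : 0 < Real.sqrt x := Real.sqrt_pos.2 hxR
    rw [hS, ← div_pow, ← one_div_pow]
    apply pow_le_pow_left₀ (by positivity)
    rw [div_le_div_iff₀ hsx hsn, one_mul]
    have h1 : (n : ℝ) ≤ (2 * (q : ℝ) ^ 2 * Real.sqrt x) ^ 2 := by
      rw [mul_pow, Real.sq_sqrt hxR.le]
      have : (n : ℝ) ≤ 4 * (q : ℝ) ^ 4 * x := by exact_mod_cast hnx
      calc (n : ℝ) ≤ 4 * (q : ℝ) ^ 4 * x := this
        _ = (2 * (q : ℝ) ^ 2) ^ 2 * x := by ring
    calc Real.sqrt n ≤ Real.sqrt ((2 * (q : ℝ) ^ 2 * Real.sqrt x) ^ 2) := Real.sqrt_le_sqrt h1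
      _ = 2 * (q : ℝ) ^ 2 * Real.sqrt x := Real.sqrt_sq (by positivity)
  -- bounds for NC
  have hG1 : ∀ g : Fin r → ℤ, (NC (Fin y) g : ℝ) ≤ C * X ^ y * S := by
    intro g
    have h1 := hup (Fin y) g (by rw [Fintype.card_fin]; exact hy0)
    rw [Fintype.card_fin] at h1
    refine h1.trans ?_
    rw [div_eq_mul_one_div]
    apply mul_le_mul_of_nonneg_left (hroot y hy0 _) (by positivity)
    calc n ≤ 2 * q ^ 4 * y := hy1
      _ ≤ 4 * q ^ 4 * y := by
        apply Nat.mul_le_mul_right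
        apply Nat.mul_le_mul_right
        norm_num
  have hcard : Fintype.card ((Fin r × Fin z) ⊕ (Fin (q ^ 16) × Pos r t)) = N := by
    rw [Fintype.card_sum, Fintype.card_prod, Fintype.card_prod, Fintype.card_prod]
    simp only [Fintype.card_fin]
    rfl
  have hG2 : ∀ g : Fin r → ℤ, (NC ((Fin r × Fin z) ⊕ (Fin (q ^ 16) × Pos r t)) g : ℝ) ≤
      C * X ^ N * S := by
    intro g
    have h1 := hup ((Fin r × Fin z) ⊕ (Fin (q ^ 16) × Pos r t)) g (by rw [hcard]; exact hN0)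
    rw [hcard] at h1
    refine h1.trans ?_
    rw [div_eq_mul_one_div]
    apply mul_le_mul_of_nonneg_left (hroot N hN0 _) (by positivity)
    calc n ≤ 2 * N := hN2
      _ ≤ 4 * q ^ 4 * N := by
        apply Nat.mul_le_mul_right
        omega
  -- the two parts
  have hsub : (univ.filter (fun w : Word r y z (q ^ 16) t => typ w = f ∧
      ¬ Typ (q : ℝ) (1 / (q : ℝ) ^ 4) w)) ⊆
      (univ.filter fun w : Word r y z (q ^ 16) t => typ w = f ∧ ¬ ZTyp (q : ℝ) w.1) ∪
        univ.filter fun w : Word r y z (q ^ 16) t => typ w = f ∧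
          AtyE r z (q ^ 16) t (q : ℝ) (1 / (q : ℝ) ^ 4) w.2 := by
    intro w hw
    obtain ⟨_, h1, h2⟩ := mem_filter.1 hw
    rw [mem_union, mem_filter, mem_filter]
    by_cases h3 : ZTyp (q : ℝ) w.1
    · right
      refine ⟨mem_univ _, h1, ?_⟩
      by_contra h4
      unfold AtyE at h4
      push Not at h4
      exact h2 ⟨h3, h4.1, h4.2.1, h4.2.2⟩
    · left
      exact ⟨mem_univ _, h1, h3⟩
  have hcnt : ((univ.filter (fun w : Word r y z (q ^ 16) t => typ w = f ∧
      ¬ Typ (q : ℝ) (1 / (q : ℝ) ^ 4) w)).card : ℝ) ≤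
      ((univ.filter fun w : Word r y z (q ^ 16) t => typ w = f ∧ ¬ ZTyp (q : ℝ) w.1).card : ℝ) +
        ((univ.filter fun w : Word r y z (q ^ 16) t => typ w = f ∧
          AtyE r z (q ^ 16) t (q : ℝ) (1 / (q : ℝ) ^ 4) w.2).card : ℝ) := by
    exact_mod_cast (card_le_card hsub).trans (card_union_le _ _)
  have hp1 := aty_live (z := z) (R := q ^ 16) (t := t) f
    (fun a : Fin y → Fin (r + 1) => ¬ ZTyp (q : ℝ) a) _ hG2
  have hp2 := aty_dead f (AtyE r z (q ^ 16) t (q : ℝ) (1 / (q : ℝ) ^ 4)) _ hG1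
  have hz1 : ((univ.filter fun a : Fin y → Fin (r + 1) => ¬ ZTyp (q : ℝ) a).card : ℝ) ≤
      2 * X * E * X ^ y := by
    have := aty_zt (ι := Fin y) (r := r) (q : ℝ) (by positivity)
    rw [Fintype.card_fin] at this
    exact this
  have hE' : Real.exp (-(((q ^ 16 : ℕ) : ℝ) * (1 / (q : ℝ) ^ 4) ^ 2 / 28)) ≤ E := by
    apply Real.exp_le_exp.2
    have h1 : ((q ^ 16 : ℕ) : ℝ) * (1 / (q : ℝ) ^ 4) ^ 2 = (q : ℝ) ^ 8 := by
      push_cast
      have : (q : ℝ) ≠ 0 := by positivity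
      field_simp
    rw [h1]
    have h2 : (64 : ℝ) ≤ (q : ℝ) ^ 6 := by
      calc (64 : ℝ) = 2 ^ 6 := by norm_num
        _ ≤ (q : ℝ) ^ 6 := pow_le_pow_left₀ (by norm_num) hqR 6
    have h3 : (q : ℝ) ^ 8 = (q : ℝ) ^ 6 * (q : ℝ) ^ 2 := by ring
    have h4 : 0 ≤ (q : ℝ) ^ 2 := by positivity
    rw [h3]
    nlinarith
  have hτ1 : 1 / (q : ℝ) ^ 4 ≤ 1 := by
    rw [div_le_one (by positivity)]
    exact one_le_pow₀ (by linarith)
  have hz2' := aty_ev r z (q ^ 16) t ht (q : ℝ) (1 / (q : ℝ) ^ 4) (by positivity) (by positivity)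
    hτ1 E le_rfl hE'
  have hq16 : ((q ^ 16 : ℕ) : ℝ) = (q : ℝ) ^ 16 := by push_cast; rfl
  rw [hq16] at hz2'
  have hXn : X ^ n = X ^ y * X ^ N := by rw [hnN, pow_add]
  have hb1 : ((univ.filter fun w : Word r y z (q ^ 16) t => typ w = f ∧
      ¬ ZTyp (q : ℝ) w.1).card : ℝ) ≤ 2 * X * E * (C * X ^ n * S) := by
    have hpos : 0 ≤ C * X ^ N * S := by positivity
    refine hp1.trans ((mul_le_mul_of_nonneg_right hz1 hpos).trans (le_of_eq ?_))
    rw [hXn]
    ring
  have hb2 : ((univ.filter fun w : Word r y z (q ^ 16) t => typ w = f ∧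
          AtyE r z (q ^ 16) t (q : ℝ) (1 / (q : ℝ) ^ 4) w.2).card : ℝ) ≤
      ((r : ℝ) * (2 * X) + (q : ℝ) ^ 16 * (2 * X) + r) * E * (C * X ^ n * S) := by
    have hpos : 0 ≤ C * X ^ y * S := by positivity
    refine hp2.trans ((mul_le_mul_of_nonneg_right hz2' hpos).trans (le_of_eq ?_))
    rw [hXn]
    ring
  have hcoef : 2 * X + ((r : ℝ) * (2 * X) + (q : ℝ) ^ 16 * (2 * X) + r) ≤
      5 * X ^ 2 * (q : ℝ) ^ 16 := by
    have h1 : (1 : ℝ) ≤ (q : ℝ) ^ 16 := one_le_pow₀ (by linarith)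
    have h2 : (r : ℝ) = X - 1 := by rw [hX]; ring
    rw [h2]
    nlinarith [mul_nonneg (sub_nonneg.2 hX1) (sub_nonneg.2 h1),
      mul_nonneg (mul_nonneg (sub_nonneg.2 hX1) (sub_nonneg.2 hX1)) (sub_nonneg.2 h1),
      mul_nonneg (sub_nonneg.2 hX1) (sub_nonneg.2 hX1)]
  have htot : ((univ.filter (fun w : Word r y z (q ^ 16) t => typ w = f ∧
      ¬ Typ (q : ℝ) (1 / (q : ℝ) ^ 4) w)).card : ℝ) ≤
      5 * X ^ 2 * (q : ℝ) ^ 16 * E * (C * X ^ n * S) := by
    refine hcnt.trans ((add_le_add hb1 hb2).trans ?_)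
    have h0 : 0 ≤ E * (C * X ^ n * S) := by positivity
    have := mul_le_mul_of_nonneg_right hcoef h0
    nlinarith
  have hlow' := hlow n hn1
  have hfin := hq0 q hq1
  have hP : (0 : ℝ) < (2 * (q : ℝ) ^ 14) ^ r := by positivity
  have h2q : ((2 * q ^ 14 : ℕ) : ℝ) = 2 * (q : ℝ) ^ 14 := by push_cast; rfl
  rw [h2q]
  have hA : 5 * X ^ 2 * (q : ℝ) ^ 16 * E * (C * (2 * (q : ℝ) ^ 2) ^ r) ≤
      η / (2 * (q : ℝ) ^ 14) ^ r * c := by
    rw [div_mul_eq_mul_div, le_div_iff₀ hP]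
    refine le_trans (le_of_eq ?_) hfin
    ring
  calc ((univ.filter (fun w : Word r y z (q ^ 16) t => typ w = f ∧
      ¬ Typ (q : ℝ) (1 / (q : ℝ) ^ 4) w)).card : ℝ) ≤
      5 * X ^ 2 * (q : ℝ) ^ 16 * E * (C * X ^ n * S) := htot
    _ = (5 * X ^ 2 * (q : ℝ) ^ 16 * E * (C * (2 * (q : ℝ) ^ 2) ^ r)) *
        (X ^ n / Real.sqrt n ^ r) := by
      rw [hS]
      ring
    _ ≤ (η / (2 * (q : ℝ) ^ 14) ^ r * c) * (X ^ n / Real.sqrt n ^ r) :=
      mul_le_mul_of_nonneg_right hA (by positivity)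
    _ = η / (2 * (q : ℝ) ^ 14) ^ r * (c * X ^ n / Real.sqrt n ^ r) := by ring
    _ ≤ η / (2 * (q : ℝ) ^ 14) ^ r * maxMultinomial n r :=
      mul_le_mul_of_nonneg_left hlow' (by positivity)

end ATYP

end Pool.Agent.Lib_helper46.CC

namespace Pool.Agent.Lib_helper46.CC

alias atyp := atyp_pr

end Pool.Agent.Lib_helper46.CC
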