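import Mathlib
import Pool.Agent.Lib_helper46.CCF.WBase

/-! Block PAV, written by helper82. -/

/-!
# MP_10b4aa_co, block PAV
-/

set_option autoImplicit false

namespace Pool.Agent.Lib_helper46.CC

open Finset Pool.Agent.Lib_helper70.Chains
open scoped Classical

section PAV

variable {ι : Type} [Fintype ι] [DecidableEq ι] {r : ℕ}

/-- the number of letters at most `n` -/
theorem pav_cle {b b' : ι → Fin (r + 1)} (h : ∀ m : Fin r, cl b' m = cl b m) (n : ℕ) :
    (univ.filter (fun x => (b' x : ℕ) ≤ n)).card = (univ.filter (fun x => (b x : ℕ) ≤ n)).card := by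
  by_cases hn : n < r
  · exact h ⟨n, hn⟩
  · have e1 : ∀ c : ι → Fin (r + 1), (univ.filter (fun x => (c x : ℕ) ≤ n)) = univ := by
      intro c
      refine filter_true_of_mem fun x _ => ?_
      have := (c x).2
      omega
    rw [e1, e1]

theorem pav_ct {b b' : ι → Fin (r + 1)} (h : ∀ m : Fin r, cl b' m = cl b m) (j : Fin (r + 1)) :
    (univ.filter (fun x => b' x = j)).card = (univ.filter (fun x => b x = j)).card := by
  have key : ∀ c : ι → Fin (r + 1), (univ.filter (fun x => (c x : ℕ) ≤ (j : ℕ))).card =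
      (univ.filter (fun x => c x = j)).card +
        (if (j : ℕ) = 0 then 0 else (univ.filter (fun x => (c x : ℕ) ≤ (j : ℕ) - 1)).card) := by
    intro c
    split_ifs with h0
    · rw [add_zero]
      congr 1
      ext x
      simp only [mem_filter, mem_univ, true_and]
      rw [Fin.ext_iff]
      omega
    · rw [← card_union_of_disjoint]
      · congr 1
        ext x
        simp only [mem_filter, mem_univ, true_and, mem_union]
        rw [Fin.ext_iff]
        omega
      · rw [disjoint_left]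
        intro x h1 h2
        simp only [mem_filter, mem_univ, true_and] at h1 h2
        rw [Fin.ext_iff] at h1
        omega
  have h1 := key b'
  have h2 := key b
  have h3 := pav_cle h (j : ℕ)
  have h4 := pav_cle h ((j : ℕ) - 1)
  split_ifs at h1 h2 <;> omega

theorem pav_perm {b b' : ι → Fin (r + 1)} (h : ∀ m : Fin r, cl b' m = cl b m) :
    ∃ σ : Equiv.Perm ι, b' = b ∘ σ := by
  have hc : ∀ j, Nonempty ({x // b' x = j} ≃ {x // b x = j}) := by
    intro j
    apply Fintype.card_eq.1
    rw [Fintype.card_subtype, Fintype.card_subtype]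
    exact pav_ct h j
  let e := fun j => Classical.choice (hc j)
  let σ : ι ≃ ι := (Equiv.sigmaFiberEquiv b').symm.trans
    ((Equiv.sigmaCongrRight e).trans (Equiv.sigmaFiberEquiv b))
  refine ⟨σ, funext fun x => ?_⟩
  show b' x = b (σ x)
  exact ((e (b' x) ⟨x, rfl⟩).2).symm

theorem pav_cl_comp (b : ι → Fin (r + 1)) (σ : Equiv.Perm ι) (m : Fin r) :
    cl (b ∘ σ) m = cl b m := by
  unfold cl
  apply card_bij (fun x _ => σ x)
  · intro x hx
    simpa using hx
  · intro x _ y _ hxy
    exact σ.injective hxy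
  · intro y hy
    exact ⟨σ.symm y, by simpa using hy, by simp⟩

/-- Block PAV -/
theorem perm_avg_pr {ι : Type} [Fintype ι] [DecidableEq ι] {r : ℕ} (b : ι → Fin (r + 1))
    (f : (ι → Fin (r + 1)) → ℝ) :
    (∑ σ : Equiv.Perm ι, f (b ∘ σ)) *
        ((univ.filter (fun b' : ι → Fin (r + 1) => ∀ m : Fin r, cl b' m = cl b m)).card : ℝ) =
      (Fintype.card (Equiv.Perm ι) : ℝ) *
        ∑ b' ∈ univ.filter (fun b' : ι → Fin (r + 1) => ∀ m : Fin r, cl b' m = cl b m), f b' := by
  set X := univ.filter (fun b' : ι → Fin (r + 1) => ∀ m : Fin r, cl b' m = cl b m) with hX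
  have h1 : ∀ b' ∈ X, ∑ σ : Equiv.Perm ι, f (b' ∘ σ) = ∑ σ : Equiv.Perm ι, f (b ∘ σ) := by
    intro b' hb'
    obtain ⟨τ, rfl⟩ := pav_perm (mem_filter.1 hb').2
    exact Fintype.sum_equiv (Equiv.mulLeft τ) _ _ fun σ => rfl
  have h2 : ∀ σ : Equiv.Perm ι, ∑ b' ∈ X, f (b' ∘ σ) = ∑ b' ∈ X, f b' := by
    intro σ
    apply sum_bij (fun b' _ => b' ∘ σ)
    · intro b' hb'
      rw [hX, mem_filter] at hb' ⊢
      exact ⟨mem_univ _, fun m => (pav_cl_comp b' σ m).trans (hb'.2 m)⟩
    · intro b₁ _ b₂ _ h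
      funext x
      have := congrFun h (σ.symm x)
      simpa using this
    · intro b' hb'
      rw [hX, mem_filter] at hb'
      refine ⟨b' ∘ σ.symm, ?_, ?_⟩
      · rw [hX, mem_filter]
        exact ⟨mem_univ _, fun m => (pav_cl_comp b' σ.symm m).trans (hb'.2 m)⟩
      · funext x
        simp
    · intro b' _
      rfl
  calc (∑ σ : Equiv.Perm ι, f (b ∘ σ)) * (X.card : ℝ)
      = ∑ b' ∈ X, ∑ σ : Equiv.Perm ι, f (b' ∘ σ) := by
        rw [sum_congr rfl h1, sum_const, nsmul_eq_mul, mul_comm]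
    _ = ∑ σ : Equiv.Perm ι, ∑ b' ∈ X, f (b' ∘ σ) := sum_comm
    _ = _ := by
        rw [sum_congr rfl fun σ _ => h2 σ, sum_const, nsmul_eq_mul, card_univ]

end PAV

end Pool.Agent.Lib_helper46.CC

namespace Pool.Agent.Lib_helper46.CC

alias perm_avg := perm_avg_pr

end Pool.Agent.Lib_helper46.CC
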