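import Mathlib
import Pool.Agent.Lib_helper46.CCF.WBase
import Pool.Agent.Lib_helper46.CCF.PAV

/-! Block EXP, written by helper80. -/

set_option autoImplicit false

namespace Pool.Agent.Lib_helper46.CC

open Finset Pool.Agent.Lib_helper70.Chains
open scoped Classical

/-! ### the differences -/

/-- extension of `x` by zero, shifted by one -/
noncomputable def expX {r : ℕ} (x : Fin r → ℝ) (i : ℕ) : ℝ :=
  if h : 1 ≤ i ∧ i ≤ r then x ⟨i - 1, by omega⟩ else 0

/-- extension of `x` by zero, shifted by one (integers) -/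
def expXZ {r : ℕ} (x : Fin r → ℤ) (i : ℕ) : ℤ :=
  if h : 1 ≤ i ∧ i ≤ r then x ⟨i - 1, by omega⟩ else 0

theorem expX_succ {r : ℕ} (x : Fin r → ℝ) (m : Fin r) : expX x ((m : ℕ) + 1) = x m := by
  have h : 1 ≤ (m : ℕ) + 1 ∧ (m : ℕ) + 1 ≤ r := ⟨by omega, m.2⟩
  rw [expX, dif_pos h]
  congr 1

theorem expXZ_succ {r : ℕ} (x : Fin r → ℤ) (m : Fin r) : expXZ x ((m : ℕ) + 1) = x m := by
  have h : 1 ≤ (m : ℕ) + 1 ∧ (m : ℕ) + 1 ≤ r := ⟨by omega, m.2⟩
  rw [expXZ, dif_pos h]
  congr 1

theorem expX_zero {r : ℕ} (x : Fin r → ℝ) : expX x 0 = 0 := by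
  rw [expX, dif_neg (by omega)]

theorem expX_last {r : ℕ} (x : Fin r → ℝ) : expX x (r + 1) = 0 := by
  rw [expX, dif_neg (by omega)]

theorem expXZ_zero {r : ℕ} (x : Fin r → ℤ) : expXZ x 0 = 0 := by
  rw [expXZ, dif_neg (by omega)]

theorem expXZ_last {r : ℕ} (x : Fin r → ℤ) : expXZ x (r + 1) = 0 := by
  rw [expXZ, dif_neg (by omega)]

theorem expXZ_cast {r : ℕ} (x : Fin r → ℤ) (i : ℕ) :
    ((expXZ x i : ℤ) : ℝ) = expX (fun m => (x m : ℝ)) i := by
  rw [expXZ, expX]
  split_ifs <;> simp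

/-- Abel summation -/
theorem exp_abel {r : ℕ} (x : Fin r → ℝ) (c : Fin (r + 1) → ℝ) :
    ∑ j : Fin (r + 1), (expX x ((j : ℕ) + 1) - expX x j) * c j =
      ∑ m : Fin r, x m * (c m.castSucc - c m.succ) := by
  have h1 : ∑ j : Fin (r + 1), expX x ((j : ℕ) + 1) * c j = ∑ m : Fin r, x m * c m.castSucc := by
    rw [Fin.sum_univ_castSucc]
    simp only [Fin.val_castSucc, Fin.val_last]
    rw [expX_last, zero_mul, add_zero]
    exact Finset.sum_congr rfl (fun m _ => by rw [expX_succ])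
  have h2 : ∑ j : Fin (r + 1), expX x j * c j = ∑ m : Fin r, x m * c m.succ := by
    rw [Fin.sum_univ_succ]
    simp only [Fin.val_zero, Fin.val_succ]
    rw [expX_zero, zero_mul, zero_add]
    exact Finset.sum_congr rfl (fun m _ => by rw [expX_succ])
  calc _ = ∑ j : Fin (r + 1), expX x ((j : ℕ) + 1) * c j - ∑ j : Fin (r + 1), expX x j * c j := by
        rw [← Finset.sum_sub_distrib]
        exact Finset.sum_congr rfl (fun j _ => by ring)
    _ = _ := by
        rw [h1, h2, ← Finset.sum_sub_distrib]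
        exact Finset.sum_congr rfl (fun j _ => by ring)

theorem exp_gm {r : ℕ} (x : Fin r → ℝ) (m : Fin r) :
    ∑ m', Gm r m m' * x m' = 2 * x m - expX x ((m : ℕ) + 2) - expX x m := by
  have h1 : ∀ m' : Fin r, Gm r m m' * x m' = (if m = m' then 2 * x m' else 0) -
      (if (m : ℕ) + 1 = m' then x m' else 0) - (if (m' : ℕ) + 1 = m then x m' else 0) := by
    intro m'
    rw [Gm]
    by_cases h : m = m'
    · have hv : (m : ℕ) = m' := congrArg Fin.val h
      rw [if_pos h, if_pos h, if_neg (by omega), if_neg (by omega)]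
      ring
    · rw [if_neg h, if_neg h]
      by_cases h2 : (m : ℕ) + 1 = m'
      · rw [if_pos (Or.inl h2), if_pos h2, if_neg (by omega)]
        ring
      · by_cases h3 : (m' : ℕ) + 1 = m
        · rw [if_pos (Or.inr h3), if_neg h2, if_pos h3]
          ring
        · rw [if_neg (by tauto), if_neg h2, if_neg h3]
          ring
  rw [Finset.sum_congr rfl (fun m' _ => h1 m'), Finset.sum_sub_distrib, Finset.sum_sub_distrib]
  have h2 : ∑ m' : Fin r, (if m = m' then 2 * x m' else 0) = 2 * x m := by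
    rw [Finset.sum_ite_eq]; simp
  have h3 : ∑ m' : Fin r, (if (m : ℕ) + 1 = m' then x m' else 0) = expX x ((m : ℕ) + 2) := by
    by_cases h : (m : ℕ) + 1 < r
    · rw [Finset.sum_eq_single (⟨(m : ℕ) + 1, h⟩ : Fin r)]
      · rw [if_pos rfl]
        exact (expX_succ x ⟨(m : ℕ) + 1, h⟩).symm
      · intro m' _ hm'
        rw [if_neg]
        intro h4
        apply hm'
        ext
        exact h4.symm
      · intro h4; exact absurd (Finset.mem_univ _) h4
    · rw [Finset.sum_eq_zero]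
      · rw [expX, dif_neg (by omega)]
      · intro m' _
        rw [if_neg]
        have := m'.2
        omega
  have h4 : ∑ m' : Fin r, (if (m' : ℕ) + 1 = m then x m' else 0) = expX x m := by
    by_cases h : 1 ≤ (m : ℕ)
    · have hlt : (m : ℕ) - 1 < r := by have := m.2; omega
      rw [Finset.sum_eq_single (⟨(m : ℕ) - 1, hlt⟩ : Fin r)]
      · rw [if_pos (by simp; omega)]
        have := expX_succ x ⟨(m : ℕ) - 1, hlt⟩
        simp only at this
        rw [Nat.sub_add_cancel h] at this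
        exact this.symm
      · intro m' _ hm'
        rw [if_neg]
        intro h5
        apply hm'
        ext
        simp
        omega
      · intro h4; exact absurd (Finset.mem_univ _) h4
    · have h0 : (m : ℕ) = 0 := by omega
      rw [Finset.sum_eq_zero]
      · rw [h0, expX_zero]
      · intro m' _
        rw [if_neg]
        omega
  rw [h2, h3, h4]

theorem exp_qf {r : ℕ} (x : Fin r → ℝ) :
    ∑ j : Fin (r + 1), (expX x ((j : ℕ) + 1) - expX x j) ^ 2 = QF x := by
  have h1 := exp_abel x (fun j : Fin (r + 1) => expX x ((j : ℕ) + 1) - expX x j)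
  simp only [Fin.val_castSucc, Fin.val_succ] at h1
  rw [QF]
  calc ∑ j : Fin (r + 1), (expX x ((j : ℕ) + 1) - expX x j) ^ 2
      = ∑ j : Fin (r + 1), (expX x ((j : ℕ) + 1) - expX x j) *
          (expX x ((j : ℕ) + 1) - expX x j) := Finset.sum_congr rfl (fun j _ => by ring)
    _ = _ := h1
    _ = ∑ m, x m * ∑ m', Gm r m m' * x m' := by
        apply Finset.sum_congr rfl
        intro m _
        rw [exp_gm, expX_succ]
        ring
    _ = _ := by
        apply Finset.sum_congr rfl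
        intro m _
        rw [Finset.mul_sum]
        exact Finset.sum_congr rfl (fun m' _ => by ring)

/-! ### words with given counts -/

theorem exp_cl_ct {ι : Type} [Fintype ι] {r : ℕ} (b : ι → Fin (r + 1)) (m : Fin r) :
    cl b m = ∑ j ∈ univ.filter (fun j : Fin (r + 1) => (j : ℕ) ≤ m), ct b j := by
  rw [cl, Finset.card_eq_sum_card_fiberwise (f := b)
    (t := univ.filter (fun j : Fin (r + 1) => (j : ℕ) ≤ m))]
  · apply Finset.sum_congr rfl
    intro j hj
    rw [ct]
    congr 1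
    ext x
    simp only [Finset.mem_filter, Finset.mem_univ, true_and]
    constructor
    · exact fun h => h.2
    · intro h
      refine ⟨?_, h⟩
      rw [h]
      exact (Finset.mem_filter.mp hj).2
  · intro x hx
    simp only [Finset.coe_filter, Finset.mem_univ, true_and, Set.mem_ofPred_eq] at hx ⊢
    exact hx

theorem exp_ct_sum {ι : Type} [Fintype ι] {r : ℕ} (b : ι → Fin (r + 1)) :
    ∑ j, ct b j = Fintype.card ι := by
  rw [← Finset.card_univ, Finset.card_eq_sum_card_fiberwise (f := b) (t := univ)]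
  · rfl
  · intro x _; simp

theorem exp_sum_le {r : ℕ} (x : Fin r → ℤ) (m : Fin r) :
    ∑ j ∈ univ.filter (fun j : Fin (r + 1) => (j : ℕ) ≤ m),
      (expXZ x ((j : ℕ) + 1) - expXZ x j) = x m := by
  rw [Finset.sum_filter,
    Fin.sum_univ_eq_sum_range (fun i => if i ≤ (m : ℕ) then expXZ x (i + 1) - expXZ x i else 0),
    ← Finset.sum_filter]
  have h1 : (range (r + 1)).filter (fun i => i ≤ (m : ℕ)) = range ((m : ℕ) + 1) := by
    ext i
    have := m.2
    simp only [Finset.mem_filter, Finset.mem_range]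
    omega
  rw [h1, Finset.sum_range_sub, expXZ_zero, sub_zero, expXZ_succ]

theorem exp_sum_all {r : ℕ} (x : Fin r → ℤ) :
    ∑ j : Fin (r + 1), (expXZ x ((j : ℕ) + 1) - expXZ x j) = 0 := by
  rw [Fin.sum_univ_eq_sum_range (fun i => expXZ x (i + 1) - expXZ x i), Finset.sum_range_sub,
    expXZ_zero, sub_zero, expXZ_last]

theorem exp_exists {ι : Type} [Fintype ι] {r : ℕ} (c : Fin (r + 1) → ℕ)
    (hc : ∑ j, c j = Fintype.card ι) : ∃ b : ι → Fin (r + 1), ∀ j, ct b j = c j := by
  have hcard : Fintype.card ι = Fintype.card (Σ j : Fin (r + 1), Fin (c j)) := by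
    rw [Fintype.card_sigma, ← hc]
    simp
  obtain ⟨e⟩ := Fintype.card_eq.mp hcard
  refine ⟨fun x => (e x).1, fun j => ?_⟩
  rw [ct]
  have h1 : (univ.filter (fun x : ι => (e x).1 = j)).card =
      (univ.filter (fun y : (Σ j : Fin (r + 1), Fin (c j)) => y.1 = j)).card := by
    apply Finset.card_bij (fun x _ => e x)
    · intro x hx
      simpa using hx
    · intro x _ x' _ h
      exact e.injective h
    · intro y hy
      exact ⟨e.symm y, by simpa using hy, by simp⟩
  rw [h1]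
  have h2 : (univ.filter (fun y : (Σ j : Fin (r + 1), Fin (c j)) => y.1 = j)) =
      (univ : Finset (Fin (c j))).map ⟨fun i => (⟨j, i⟩ : Σ j : Fin (r + 1), Fin (c j)),
        fun i i' h => by simpa using h⟩ := by
    ext y
    simp only [Finset.mem_filter, Finset.mem_univ, true_and, Finset.mem_map,
      Function.Embedding.coeFn_mk]
    constructor
    · rintro rfl
      exact ⟨y.2, rfl⟩
    · rintro ⟨i, rfl⟩
      rfl
  rw [h2, Finset.card_map, Finset.card_univ, Fintype.card_fin]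

theorem exp_NC {ι : Type} [Fintype ι] [DecidableEq ι] {r : ℕ} (b : ι → Fin (r + 1)) :
    (∏ j, ((ct b j).factorial : ℝ)) * (NC ι (fun m : Fin r => (cl b m : ℤ)) : ℝ) =
      ((Fintype.card ι).factorial : ℝ) := by
  have h1 := perm_avg b (fun b' => if b' = b then (1 : ℝ) else 0)
  have hN : NC ι (fun m : Fin r => (cl b m : ℤ)) =
      (univ.filter (fun b' : ι → Fin (r + 1) => ∀ m : Fin r, cl b' m = cl b m)).card := by
    rw [NC]
    congr 1
    ext b'
    simp
  have h2 : ∑ b' ∈ univ.filter (fun b' : ι → Fin (r + 1) => ∀ m : Fin r, cl b' m = cl b m),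
      (if b' = b then (1 : ℝ) else 0) = 1 := by
    rw [Finset.sum_ite_eq' _ b (fun _ => (1 : ℝ)), if_pos (by simp)]
  have h3 : (∑ σ : Equiv.Perm ι, (if b ∘ σ = b then (1 : ℝ) else 0)) =
      ∏ j, ((ct b j).factorial : ℝ) := by
    have h4 := DomMulAct.stabilizer_card (f := b)
    rw [Finset.sum_boole]
    have h5 : (univ.filter (fun σ : Equiv.Perm ι => b ∘ σ = b)).card =
        ∏ i, (ct b i).factorial := by
      rw [← Fintype.card_subtype]
      refine Eq.trans ?_ (h4.trans ?_)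
      · apply Fintype.card_congr
        exact Equiv.refl _
      · apply Finset.prod_congr rfl
        intro i _
        rw [ct, Fintype.card_subtype]
    rw [h5]
    push_cast
    rfl
  rw [h3, h2, Fintype.card_perm, mul_one] at h1
  rw [hN]
  exact h1

/-! ### ratios of factorials -/

theorem exp_up (t : ℝ) (ht : 0 < t) (c s : ℕ) :
    ((c + s).factorial : ℝ) ≤ (c.factorial : ℝ) *
      Real.exp (s * Real.log t + (s * ((c : ℝ) - t) + s * (s + 1) / 2) / t) := by
  induction s with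
  | zero => simp
  | succ s ih =>
    have h1 : ((c + (s + 1)).factorial : ℝ) = ((c : ℝ) + s + 1) * ((c + s).factorial : ℝ) := by
      rw [← add_assoc, Nat.factorial_succ]
      push_cast
      ring
    have h2 : (c : ℝ) + s + 1 ≤ Real.exp (Real.log t + ((c : ℝ) - t + s + 1) / t) := by
      rw [Real.exp_add, Real.exp_log ht]
      have h3 := Real.add_one_le_exp (((c : ℝ) - t + s + 1) / t)
      have h4 : t * (((c : ℝ) - t + s + 1) / t + 1) = (c : ℝ) + s + 1 := by
        field_simp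
        ring
      rw [← h4]
      exact mul_le_mul_of_nonneg_left h3 ht.le
    rw [h1]
    calc ((c : ℝ) + s + 1) * ((c + s).factorial : ℝ)
        ≤ Real.exp (Real.log t + ((c : ℝ) - t + s + 1) / t) * ((c.factorial : ℝ) *
          Real.exp (s * Real.log t + (s * ((c : ℝ) - t) + s * (s + 1) / 2) / t)) :=
          mul_le_mul h2 ih (by positivity) (Real.exp_pos _).le
      _ = (c.factorial : ℝ) * (Real.exp (Real.log t + ((c : ℝ) - t + s + 1) / t) *
          Real.exp (s * Real.log t + (s * ((c : ℝ) - t) + s * (s + 1) / 2) / t)) := by ring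
      _ = _ := by
          rw [← Real.exp_add]
          congr 2
          push_cast
          field_simp
          ring

theorem exp_inv (y : ℝ) (hy : -(1 / 2) ≤ y) : 1 ≤ (1 + y) * Real.exp (-y + y ^ 2) := by
  have h1 := Real.add_one_le_exp (-y + y ^ 2)
  have h2 : 0 < 1 + y := by linarith
  have h3 := mul_le_mul_of_nonneg_left h1 h2.le
  have h4 : (1 + y) * (-y + y ^ 2 + 1) = 1 + y ^ 3 := by ring
  rcases le_or_gt 0 y with h | h
  · have : 0 ≤ y ^ 3 := by positivity
    linarith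
  · -- for negative y use a better bound
    have h5 : 0 ≤ -y + y ^ 2 := by nlinarith
    have h6 := Real.quadratic_le_exp_of_nonneg h5
    have h7 := mul_le_mul_of_nonneg_left h6 h2.le
    have h8 : 1 ≤ (1 + y) * (1 + (-y + y ^ 2) + (-y + y ^ 2) ^ 2 / 2) := by
      have h9 : (1 + y) * (1 + (-y + y ^ 2) + (-y + y ^ 2) ^ 2 / 2) =
          1 + y ^ 3 + y ^ 2 * ((1 + y) * (1 - y) ^ 2 / 2) := by ring
      rw [h9]
      have h10 : 0 ≤ y + (1 + y) * (1 - y) ^ 2 / 2 := by
        nlinarith [sq_nonneg (y + 1 / 2), sq_nonneg y, mul_nonneg (sq_nonneg y) h2.le]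
      nlinarith [mul_nonneg (sq_nonneg y) h10]
    linarith

theorem exp_dn (t : ℝ) (ht : 0 < t) (c : ℕ) (D : ℝ) (hD : D ≤ t / 2) (u : ℕ)
    (hu : |(c : ℝ) - t| + u ≤ D) :
    ((c - u).factorial : ℝ) ≤ (c.factorial : ℝ) *
      Real.exp (-(u * Real.log t) + (-(u * ((c : ℝ) - t)) + u * (u - 1) / 2) / t +
        u * (D ^ 2 / t ^ 2)) := by
  induction u with
  | zero => simp
  | succ u ih =>
    have hu' : |(c : ℝ) - t| + u ≤ D := by push_cast at hu; linarith
    have ih' := ih hu'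
    have habs := abs_le.mp (le_refl |(c : ℝ) - t|)
    have hcu : (u : ℝ) + 1 ≤ c := by
      push_cast at hu
      linarith [habs.1]
    have hcu' : u + 1 ≤ c := by exact_mod_cast hcu
    have h1 : ((c - u).factorial : ℝ) = ((c : ℝ) - u) * ((c - (u + 1)).factorial : ℝ) := by
      have h2 : c - u = (c - (u + 1)) + 1 := by omega
      rw [h2, Nat.factorial_succ, ← h2]
      push_cast [Nat.cast_sub (by omega : u ≤ c)]
      ring
    set y : ℝ := ((c : ℝ) - t - u) / t with hy
    have hy1 : -(1 / 2) ≤ y := by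
      rw [hy, le_div_iff₀ ht]
      linarith [habs.1]
    have hyD : y ^ 2 ≤ D ^ 2 / t ^ 2 := by
      rw [hy, div_pow]
      apply div_le_div_of_nonneg_right _ (by positivity)
      apply sq_le_sq'
      · linarith [habs.1]
      · have : (0 : ℝ) ≤ u := Nat.cast_nonneg u
        linarith [habs.2]
    have h3 := exp_inv y hy1
    have h4 : (c : ℝ) - u = t * (1 + y) := by
      rw [hy]; field_simp; ring
    have hfac : (0 : ℝ) ≤ ((c - (u + 1)).factorial : ℝ) := Nat.cast_nonneg _
    -- multiply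
    have h5 : ((c - (u + 1)).factorial : ℝ) ≤ ((c - u).factorial : ℝ) *
        Real.exp (-Real.log t + (-y + y ^ 2)) := by
      rw [h1, h4, Real.exp_add, Real.exp_neg, Real.exp_log ht]
      calc ((c - (u + 1)).factorial : ℝ) = 1 * ((c - (u + 1)).factorial : ℝ) := by ring
        _ ≤ ((1 + y) * Real.exp (-y + y ^ 2)) * ((c - (u + 1)).factorial : ℝ) :=
          mul_le_mul_of_nonneg_right h3 hfac
        _ = _ := by field_simp
    calc ((c - (u + 1)).factorial : ℝ) ≤ ((c - u).factorial : ℝ) *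
        Real.exp (-Real.log t + (-y + y ^ 2)) := h5
      _ ≤ ((c.factorial : ℝ) *
          Real.exp (-(u * Real.log t) + (-(u * ((c : ℝ) - t)) + u * (u - 1) / 2) / t +
          u * (D ^ 2 / t ^ 2))) * Real.exp (-Real.log t + (-y + D ^ 2 / t ^ 2)) := by
          apply mul_le_mul ih' _ (Real.exp_pos _).le (by positivity)
          apply Real.exp_le_exp.mpr
          linarith
      _ = _ := by
          rw [mul_assoc, ← Real.exp_add]
          congr 2
          rw [hy]
          push_cast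
          field_simp
          ring

/-- one letter: `c` becomes `c + s` -/
theorem exp_one (t : ℝ) (ht : 0 < t) (c c' : ℕ) (s : ℤ) (hs : (c' : ℤ) = c + s) (D : ℝ)
    (hD : D ≤ t / 2) (hu : |(c : ℝ) - t| + |(s : ℝ)| ≤ D) :
    (c'.factorial : ℝ) ≤ (c.factorial : ℝ) *
      Real.exp (s * Real.log t + (s * ((c : ℝ) - t) + (s : ℝ) ^ 2 / 2) / t +
        (|(s : ℝ)| / (2 * t) + |(s : ℝ)| * (D ^ 2 / t ^ 2))) := by
  rcases le_or_gt 0 s with h | h
  · obtain ⟨u, rfl⟩ := Int.eq_ofNat_of_zero_le h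
    have hc' : c' = c + u := by omega
    rw [hc']
    apply (exp_up t ht c u).trans
    apply mul_le_mul_of_nonneg_left _ (Nat.cast_nonneg _)
    apply Real.exp_le_exp.mpr
    have h1 : |((u : ℤ) : ℝ)| = u := by
      rw [Int.cast_natCast]; exact abs_of_nonneg (Nat.cast_nonneg u)
    rw [h1]
    have h2 : (u * ((c : ℝ) - t) + u * (u + 1) / 2) / t =
        (((u : ℤ) : ℝ) * ((c : ℝ) - t) + ((u : ℤ) : ℝ) ^ 2 / 2) / t + (u : ℝ) / (2 * t) := by
      push_cast
      field_simp
      ring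
    rw [h2]
    have h3 : (0 : ℝ) ≤ u * (D ^ 2 / t ^ 2) := by positivity
    push_cast
    linarith
  · obtain ⟨u, hu2⟩ := Int.eq_ofNat_of_zero_le (by omega : 0 ≤ -s)
    have hs2 : s = -(u : ℤ) := by omega
    subst hs2
    have hc' : c' = c - u := by omega
    have h1 : |((-(u : ℤ) : ℤ) : ℝ)| = u := by
      rw [Int.cast_neg, abs_neg, Int.cast_natCast]; exact abs_of_nonneg (Nat.cast_nonneg u)
    rw [h1] at hu ⊢
    rw [hc']
    apply (exp_dn t ht c D hD u hu).trans
    apply mul_le_mul_of_nonneg_left _ (Nat.cast_nonneg _)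
    apply Real.exp_le_exp.mpr
    have h2 : (-(u * ((c : ℝ) - t)) + u * (u - 1) / 2) / t =
        (((-(u : ℤ) : ℤ) : ℝ) * ((c : ℝ) - t) + ((-(u : ℤ) : ℤ) : ℝ) ^ 2 / 2) / t -
          (u : ℝ) / (2 * t) := by
      push_cast
      field_simp
      ring
    rw [h2]
    have h3 : (0 : ℝ) ≤ (u : ℝ) / (2 * t) := by positivity
    push_cast
    linarith

theorem exp_lb_pr (r : ℕ) (a η : ℝ) (ha : 0 < a) (hη : 0 < η) :
    ∃ t1 : ℕ, ∀ t ≥ t1, ∀ b : PW r t, ZTyp a b → ∀ x : Fin r → ℤ,
      (∀ m, |(x m : ℝ)| ≤ a * Real.sqrt t) →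
      (NC (Pos r t) (fun m : Fin r => (cl b m : ℤ)) : ℝ) *
          Real.exp (-η - (1 / (t : ℝ)) * ((∑ m, (x m : ℝ) * Dl b m) +
            QF (fun m => (x m : ℝ)) / 2)) ≤
        (NC (Pos r t) (fun m : Fin r => (cl b m : ℤ) + x m) : ℝ) := by
  set L : ℝ := a * Real.sqrt ((r : ℝ) + 1) + 2 * a with hL
  have hL0 : 0 < L := by rw [hL]; positivity
  set M : ℝ := 2 * L + ((r : ℝ) + 1) * (a + 2 * a * L ^ 2) / η with hM
  have hM0 : 0 < M := by rw [hM]; positivity
  refine ⟨⌈M ^ 2⌉₊ + 1, ?_⟩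
  intro t ht b hb x hx
  have htM : M ^ 2 < t := by
    have h1 := Nat.le_ceil (M ^ 2)
    have h2 : ((⌈M ^ 2⌉₊ : ℕ) : ℝ) + 1 ≤ t := by exact_mod_cast ht
    linarith
  have ht0 : (0 : ℝ) < t := lt_trans (by positivity) htM
  have hsM : M ≤ Real.sqrt t := Real.le_sqrt_of_sq_le htM.le
  set w : ℝ := Real.sqrt t with hw
  have hw0 : 0 < w := lt_of_lt_of_le hM0 hsM
  have hww : w * w = t := Real.mul_self_sqrt ht0.le
  set D : ℝ := L * w with hDdef
  have hD : D ≤ t / 2 := by
    have h1 : 2 * L ≤ w := by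
      have : 0 ≤ ((r : ℝ) + 1) * (a + 2 * a * L ^ 2) / η := by positivity
      linarith
    rw [hDdef, ← hww]
    nlinarith
  -- bounds for the counts
  have hcardP : (Fintype.card (Pos r t) : ℝ) = ((r : ℝ) + 1) * t := by
    simp [Fintype.card_prod]
  have hct : ∀ j, |(ct b j : ℝ) - t| ≤ a * Real.sqrt ((r : ℝ) + 1) * w := by
    intro j
    have h1 := hb j
    rw [hcardP, Real.sqrt_mul (by positivity)] at h1
    have h2 : ((r : ℝ) + 1) * t / (r + 1) = t := by field_simp
    rw [h2] at h1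
    linarith
  set s : Fin (r + 1) → ℤ := fun j => expXZ x ((j : ℕ) + 1) - expXZ x j with hs
  have hX : ∀ i : ℕ, |((expXZ x i : ℤ) : ℝ)| ≤ a * w := by
    intro i
    rw [expXZ]
    split_ifs with h
    · exact hx _
    · simp only [Int.cast_zero, abs_zero]; positivity
  have hsb : ∀ j, |(s j : ℝ)| ≤ 2 * a * w := by
    intro j
    rw [hs]
    push_cast
    calc |((expXZ x ((j : ℕ) + 1) : ℤ) : ℝ) - ((expXZ x j : ℤ) : ℝ)|
        ≤ |((expXZ x ((j : ℕ) + 1) : ℤ) : ℝ)| + |((expXZ x j : ℤ) : ℝ)| := abs_sub _ _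
      _ ≤ a * w + a * w := add_le_add (hX _) (hX _)
      _ = _ := by ring
  have hcs : ∀ j, |(ct b j : ℝ) - t| + |(s j : ℝ)| ≤ D := by
    intro j
    have := hct j
    have := hsb j
    rw [hDdef, hL]
    linarith
  -- the new counts
  have hnn : ∀ j, 0 ≤ (ct b j : ℤ) + s j := by
    intro j
    have h1 := hcs j
    have h2 := (abs_le.mp (le_refl |(ct b j : ℝ) - t|)).1
    have h3 := (abs_le.mp (le_refl |(s j : ℝ)|)).1
    have h4 : (0 : ℝ) ≤ (ct b j : ℝ) + (s j : ℝ) := by linarith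
    exact_mod_cast h4
  set c' : Fin (r + 1) → ℕ := fun j => ((ct b j : ℤ) + s j).toNat with hc'
  have hc'z : ∀ j, (c' j : ℤ) = ct b j + s j := fun j => Int.toNat_of_nonneg (hnn j)
  have hc'sum : ∑ j, c' j = Fintype.card (Pos r t) := by
    have h1 : ((∑ j, c' j : ℕ) : ℤ) = ((∑ j, ct b j : ℕ) : ℤ) := by
      push_cast
      rw [Finset.sum_congr rfl (fun j _ => hc'z j), Finset.sum_add_distrib, hs,
        exp_sum_all x, add_zero]
    rw [exp_ct_sum b] at h1
    exact_mod_cast h1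
  obtain ⟨b', hb'⟩ := exp_exists (ι := Pos r t) c' hc'sum
  have hcl' : ∀ m, (cl b' m : ℤ) = cl b m + x m := by
    intro m
    rw [exp_cl_ct b' m, exp_cl_ct b m]
    push_cast
    rw [← exp_sum_le x m, ← Finset.sum_add_distrib]
    apply Finset.sum_congr rfl
    intro j _
    rw [hb' j, hc'z j]
  have hNC' := exp_NC b'
  have hNC := exp_NC b
  have heq : (fun m : Fin r => (cl b' m : ℤ)) = (fun m : Fin r => (cl b m : ℤ) + x m) :=
    funext hcl'
  rw [heq] at hNC'
  set N' : ℝ := (NC (Pos r t) (fun m : Fin r => (cl b m : ℤ) + x m) : ℝ) with hN'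
  set N : ℝ := (NC (Pos r t) (fun m : Fin r => (cl b m : ℤ)) : ℝ) with hN
  have hN'0 : 0 ≤ N' := Nat.cast_nonneg _
  -- product of the bounds
  set E : Fin (r + 1) → ℝ := fun j => s j * Real.log t + (s j * ((ct b j : ℝ) - t) +
      (s j : ℝ) ^ 2 / 2) / t + (|(s j : ℝ)| / (2 * t) + |(s j : ℝ)| * (D ^ 2 / (t : ℝ) ^ 2)) with hE
  have hprod : ∏ j, ((ct b' j).factorial : ℝ) ≤
      (∏ j, ((ct b j).factorial : ℝ)) * Real.exp (∑ j, E j) := by
    rw [Real.exp_sum, ← Finset.prod_mul_distrib]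
    apply Finset.prod_le_prod
    · intro j _; positivity
    · intro j _
      rw [hb' j]
      exact exp_one t ht0 (ct b j) (c' j) (s j) (hc'z j) D hD (hcs j)
  -- value of the exponent
  have herr : ∀ j, |(s j : ℝ)| / (2 * t) + |(s j : ℝ)| * (D ^ 2 / (t : ℝ) ^ 2) ≤
      η / ((r : ℝ) + 1) := by
    intro j
    have h1 : D ^ 2 / (t : ℝ) ^ 2 = L ^ 2 / t := by
      rw [hDdef, ← hww]; field_simp
    rw [h1]
    have h2 : |(s j : ℝ)| / (2 * t) + |(s j : ℝ)| * (L ^ 2 / t) ≤
        (a + 2 * a * L ^ 2) / w := by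
      have h3 : |(s j : ℝ)| / (2 * t) + |(s j : ℝ)| * (L ^ 2 / t) =
          |(s j : ℝ)| * ((1 + 2 * L ^ 2) / (2 * t)) := by field_simp
      rw [h3]
      calc |(s j : ℝ)| * ((1 + 2 * L ^ 2) / (2 * t)) ≤ (2 * a * w) * ((1 + 2 * L ^ 2) / (2 * t)) :=
            mul_le_mul_of_nonneg_right (hsb j) (by positivity)
        _ = _ := by rw [← hww]; field_simp
    apply h2.trans
    rw [div_le_div_iff₀ hw0 (by positivity)]
    have h4 : ((r : ℝ) + 1) * (a + 2 * a * L ^ 2) / η ≤ w := by
      have : 0 ≤ 2 * L := by positivity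
      linarith
    rw [div_le_iff₀ hη] at h4
    linarith
  have hsumE : ∑ j, E j ≤ η + (1 / (t : ℝ)) * ((∑ m, (x m : ℝ) * Dl b m) +
            QF (fun m => (x m : ℝ)) / 2) := by
    have h1 : ∑ j, (s j : ℝ) = 0 := by
      have := exp_sum_all x
      exact_mod_cast this
    have hsr : ∀ j : Fin (r + 1), (s j : ℝ) = expX (fun m => (x m : ℝ)) ((j : ℕ) + 1) -
        expX (fun m => (x m : ℝ)) j := by
      intro j
      rw [hs]
      push_cast
      rw [expXZ_cast, expXZ_cast]
    have h2 : ∑ j, (s j : ℝ) * (ct b j : ℝ) = ∑ m, (x m : ℝ) * Dl b m := by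
      rw [Finset.sum_congr rfl (fun j _ => by rw [hsr j]),
        exp_abel (fun m => (x m : ℝ)) (fun j => (ct b j : ℝ))]
      rfl
    have h3 : ∑ j, (s j : ℝ) ^ 2 = QF (fun m => (x m : ℝ)) := by
      rw [Finset.sum_congr rfl (fun j _ => by rw [hsr j]), exp_qf]
    have h4 : ∑ j, E j = (Real.log t - 1) * (∑ j, (s j : ℝ)) + (1 / (t : ℝ)) *
        ((∑ j, (s j : ℝ) * (ct b j : ℝ)) + (∑ j, (s j : ℝ) ^ 2) / 2) +
        ∑ j, (|(s j : ℝ)| / (2 * t) + |(s j : ℝ)| * (D ^ 2 / (t : ℝ) ^ 2)) := by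
      rw [Finset.mul_sum, Finset.sum_div, ← Finset.sum_add_distrib, Finset.mul_sum,
        ← Finset.sum_add_distrib, ← Finset.sum_add_distrib]
      apply Finset.sum_congr rfl
      intro j _
      rw [hE]
      simp only
      field_simp
      ring
    have h5 : ∑ j : Fin (r + 1), (|(s j : ℝ)| / (2 * t) + |(s j : ℝ)| * (D ^ 2 / (t : ℝ) ^ 2)) ≤
        η := by
      calc _ ≤ ∑ _j : Fin (r + 1), η / ((r : ℝ) + 1) := Finset.sum_le_sum (fun j _ => herr j)
        _ = η := by
          rw [Finset.sum_const, Finset.card_univ, Fintype.card_fin, nsmul_eq_mul]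
          push_cast
          field_simp
    rw [h4, h1, h2, h3]
    linarith
  -- conclusion
  have hP0 : 0 < ∏ j, ((ct b j).factorial : ℝ) := by positivity
  have hfin : (∏ j, ((ct b j).factorial : ℝ)) * N ≤
      (∏ j, ((ct b j).factorial : ℝ)) * (Real.exp (∑ j, E j) * N') := by
    rw [hNC, ← hNC']
    calc (∏ j, ((ct b' j).factorial : ℝ)) * N' ≤
        ((∏ j, ((ct b j).factorial : ℝ)) * Real.exp (∑ j, E j)) * N' :=
          mul_le_mul_of_nonneg_right hprod hN'0
      _ = _ := by ring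
  have hfin2 : N ≤ Real.exp (∑ j, E j) * N' := le_of_mul_le_mul_left hfin hP0
  set F : ℝ := (1 / (t : ℝ)) * ((∑ m, (x m : ℝ) * Dl b m) + QF (fun m => (x m : ℝ)) / 2) with hF
  calc N * Real.exp (-η - F) ≤ (Real.exp (∑ j, E j) * N') * Real.exp (-η - F) :=
        mul_le_mul_of_nonneg_right hfin2 (Real.exp_pos _).le
    _ = Real.exp ((∑ j, E j) + (-η - F)) * N' := by rw [Real.exp_add]; ring
    _ ≤ 1 * N' := by
        apply mul_le_mul_of_nonneg_right _ hN'0
        rw [Real.exp_le_one_iff]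
        linarith
    _ = N' := one_mul _


end Pool.Agent.Lib_helper46.CC

namespace Pool.Agent.Lib_helper46.CC

alias exp_lb := exp_lb_pr

end Pool.Agent.Lib_helper46.CC
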