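import Mathlib
import Pool.Agent.Lib_helper46.CC.Defs

/-! Block REP, written by helper46. -/

set_option autoImplicit false

namespace Pool.Agent.Lib_helper46.CC

open Finset

variable {r t : ℕ}

theorem rep_mem_Tr (b : PW r t) (m : Fin r) (x : Fin t) :
    x ∈ Tr b m ↔ (b (m.castSucc, x) : ℕ) = m ∨ (b (m.castSucc, x) : ℕ) = m + 1 := by
  simp [Tr]

theorem rep_mem_Sr (b : PW r t) (m : Fin r) (x : Fin t) :
    x ∈ Sr b m ↔ (b (m.castSucc, x) : ℕ) = m := by
  simp [Sr]

theorem rep_row (b : PW r t) (S : Fin r → Finset (Fin t)) (m : Fin r) (x : Fin t) :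
    rep b S (m.castSucc, x) =
      if x ∈ Tr b m then (if x ∈ S m then m.castSucc else m.succ) else b (m.castSucc, x) := by
  unfold rep
  have h : ((m.castSucc, x).1 : ℕ) < r := by simp
  rw [dif_pos h]
  have e : (⟨((m.castSucc, x).1 : ℕ), h⟩ : Fin r) = m := by ext; simp
  simp only [e]
  rfl

theorem rep_last (b : PW r t) (S : Fin r → Finset (Fin t)) (x : Pos r t) (h : ¬ (x.1 : ℕ) < r) :
    rep b S x = b x := by
  unfold rep
  rw [dif_neg h]

theorem tr_rep_pr (b : PW r t) (S : Fin r → Finset (Fin t)) (m : Fin r) :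
    Tr (rep b S) m = Tr b m := by
  ext x
  rw [rep_mem_Tr, rep_row]
  by_cases h : x ∈ Tr b m
  · rw [if_pos h]
    by_cases h' : x ∈ S m
    · simp [h', h]
    · simp [h', h]
  · rw [if_neg h, ← rep_mem_Tr]

theorem sr_rep_pr (b : PW r t) (S : Fin r → Finset (Fin t)) (m : Fin r) :
    Sr (rep b S) m = Tr b m ∩ S m := by
  ext x
  rw [rep_mem_Sr, rep_row, mem_inter]
  by_cases h : x ∈ Tr b m
  · by_cases h' : x ∈ S m
    · simp [h', h]
    · simp [h', h]
  · rw [if_neg h]
    simp only [h, false_and, iff_false]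
    intro h1
    exact h ((rep_mem_Tr b m x).2 (Or.inl h1))

theorem rep_ext {b b' : PW r t} (h : ∀ (m : Fin r) (x : Fin t), b (m.castSucc, x) = b' (m.castSucc, x))
    (h' : ∀ x : Pos r t, ¬ (x.1 : ℕ) < r → b x = b' x) : b = b' := by
  funext x
  by_cases hx : (x.1 : ℕ) < r
  · have := h ⟨x.1, hx⟩ x.2
    exact this
  · exact h' x hx

theorem rep_sr_pr (b : PW r t) : rep b (Sr b) = b := by
  apply rep_ext
  · intro m x
    rw [rep_row]
    by_cases h : x ∈ Tr b m
    · rw [if_pos h]
      by_cases h' : x ∈ Sr b m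
      · rw [if_pos h']
        have := (rep_mem_Sr b m x).1 h'
        ext
        simp [this]
      · rw [if_neg h']
        have h1 := (rep_mem_Tr b m x).1 h
        have h2 : ¬ ((b (m.castSucc, x) : ℕ) = m) := fun h3 => h' ((rep_mem_Sr b m x).2 h3)
        have h3 : (b (m.castSucc, x) : ℕ) = m + 1 := by tauto
        ext
        simp [h3]
    · rw [if_neg h]
  · intro x hx
    exact rep_last _ _ _ hx

theorem rep_rep_pr (b : PW r t) (S S' : Fin r → Finset (Fin t)) :
    rep (rep b S) S' = rep b S' := by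
  apply rep_ext
  · intro m x
    rw [rep_row, rep_row, rep_row, tr_rep_pr]
    by_cases h : x ∈ Tr b m
    · simp [h]
    · simp [h]
  · intro x hx
    rw [rep_last _ _ _ hx, rep_last _ _ _ hx, rep_last _ _ _ hx]

theorem sr_sub_pr (b : PW r t) (m : Fin r) : Sr b m ⊆ Tr b m := by
  intro x hx
  exact (rep_mem_Tr b m x).2 (Or.inl ((rep_mem_Sr b m x).1 hx))

theorem low_rep_pr (b : PW r t) (S : Fin r → Finset (Fin t)) (m : Fin r) (x : Pos r t) :
    (rep b S x : ℕ) ≤ (m : ℕ) ↔
      if x.1 = m.castSucc ∧ x.2 ∈ Tr b m then x.2 ∈ S m else (b x : ℕ) ≤ (m : ℕ) := by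
  by_cases hx : (x.1 : ℕ) < r
  · obtain ⟨x1, x2⟩ := x
    have hm' : x1 = (⟨x1, hx⟩ : Fin r).castSucc := by ext; simp
    generalize (⟨x1, hx⟩ : Fin r) = m' at hm'
    subst hm'
    rw [rep_row]
    by_cases hmm : m' = m
    · subst hmm
      by_cases h : x2 ∈ Tr b m'
      · by_cases h' : x2 ∈ S m'
        · simp [h, h']
        · simp [h, h']
      · simp [h]
    · have h0 : ¬ (m'.castSucc = m.castSucc) := fun h => hmm (Fin.castSucc_injective _ h)
      have h1 : ¬ ((m'.castSucc, x2).1 = m.castSucc ∧ (m'.castSucc, x2).2 ∈ Tr b m) := by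
        intro h; exact h0 h.1
      rw [if_neg h1]
      by_cases h : x2 ∈ Tr b m'
      · rw [if_pos h]
        have h2 := (rep_mem_Tr b m' x2).1 h
        have h3 : (m' : ℕ) ≠ m := fun h => hmm (Fin.ext h)
        by_cases h' : x2 ∈ S m'
        · rw [if_pos h']
          simp only [Fin.val_castSucc]
          omega
        · rw [if_neg h']
          simp only [Fin.val_succ]
          omega
      · rw [if_neg h]
  · rw [rep_last _ _ _ hx]
    have h1 : ¬ (x.1 = m.castSucc ∧ x.2 ∈ Tr b m) := by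
      rintro ⟨h, _⟩
      apply hx
      rw [h]
      simp
    rw [if_neg h1]

theorem cl_rep_pr (b : PW r t) (S : Fin r → Finset (Fin t)) (m : Fin r) (hS : S m ⊆ Tr b m) :
    cl (rep b S) m + (Sr b m).card = cl b m + (S m).card := by
  unfold cl
  have key : ∀ (b' : PW r t) (U : Finset (Fin t)), U ⊆ Tr b m →
      (∀ x : Pos r t, (b' x : ℕ) ≤ (m : ℕ) ↔
        if x.1 = m.castSucc ∧ x.2 ∈ Tr b m then x.2 ∈ U else (b x : ℕ) ≤ (m : ℕ)) →
      (univ.filter (fun x => (b' x : ℕ) ≤ (m : ℕ))).card =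
        (univ.filter (fun x : Pos r t => ¬ (x.1 = m.castSucc ∧ x.2 ∈ Tr b m) ∧
          (b x : ℕ) ≤ (m : ℕ))).card + U.card := by
    intro b' U hU hb'
    have e : univ.filter (fun x => (b' x : ℕ) ≤ (m : ℕ)) =
        (univ.filter (fun x : Pos r t => ¬ (x.1 = m.castSucc ∧ x.2 ∈ Tr b m) ∧
          (b x : ℕ) ≤ (m : ℕ))) ∪ U.image (fun y => (m.castSucc, y)) := by
      ext x
      simp only [mem_filter, mem_univ, true_and, mem_union, mem_image]
      rw [hb' x]
      by_cases hx : x.1 = m.castSucc ∧ x.2 ∈ Tr b m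
      · rw [if_pos hx]
        constructor
        · intro h
          right
          exact ⟨x.2, h, Prod.ext hx.1.symm rfl⟩
        · rintro (h | ⟨y, hy, rfl⟩)
          · exact absurd hx h.1
          · exact hy
      · rw [if_neg hx]
        constructor
        · intro h
          left
          exact ⟨hx, h⟩
        · rintro (h | ⟨y, hy, rfl⟩)
          · exact h.2
          · exact absurd ⟨rfl, hU hy⟩ hx
    rw [e, card_union_of_disjoint, card_image_of_injective]
    · intro y y' h
      simpa using h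
    · rw [disjoint_left]
      intro x hx hx'
      simp only [mem_filter, mem_univ, true_and, mem_image] at hx hx'
      obtain ⟨y, hy, rfl⟩ := hx'
      exact hx.1 ⟨rfl, hU hy⟩
  rw [key (rep b S) (S m) hS (low_rep_pr b S m)]
  have h2 := key b (Sr b m) (sr_sub_pr b m) (by
    intro x
    have := low_rep_pr b (Sr b) m x
    rwa [rep_sr_pr] at this)
  rw [h2]
  ring

theorem cl_perm_pr {ι : Type} [Fintype ι] [DecidableEq ι] (b : ι → Fin (r + 1))
    (σ : Equiv.Perm ι) (m : Fin r) : cl (b ∘ σ) m = cl b m := by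
  unfold cl
  apply card_bij (fun x _ => σ x)
  · intro x hx
    simpa using hx
  · intro x _ y _ h
    exact σ.injective h
  · intro y hy
    refine ⟨σ.symm y, ?_, by simp⟩
    simpa using hy

theorem ct_perm_pr {ι : Type} [Fintype ι] [DecidableEq ι] (b : ι → Fin (r + 1))
    (σ : Equiv.Perm ι) (j : Fin (r + 1)) : ct (b ∘ σ) j = ct b j := by
  unfold ct
  apply card_bij (fun x _ => σ x)
  · intro x hx
    simpa using hx
  · intro x _ y _ h
    exact σ.injective h
  · intro y hy
    refine ⟨σ.symm y, ?_, by simp⟩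
    simpa using hy

end Pool.Agent.Lib_helper46.CC

namespace Pool.Agent.Lib_helper46.CC

alias cl_perm := cl_perm_pr
alias cl_rep := cl_rep_pr
alias ct_perm := ct_perm_pr
alias low_rep := low_rep_pr
alias rep_rep := rep_rep_pr
alias rep_sr := rep_sr_pr
alias sr_rep := sr_rep_pr
alias sr_sub := sr_sub_pr
alias tr_rep := tr_rep_pr

end Pool.Agent.Lib_helper46.CC
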