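import Mathlib
import Pool.Agent.Lib_helper46.CCF.WBase
import Pool.Agent.Lib_helper46.CCF.REP

/-! Block MASS, written by helper82. -/

/-!
# MP_10b4aa_co, block MASS
-/

set_option autoImplicit false

namespace Pool.Agent.Lib_helper46.CC

open Finset Pool.Agent.Lib_helper70.Chains
open scoped Classical

section General

variable {ι α β : Type} [Fintype ι] [DecidableEq ι] [DecidableEq β]

theorem mass_half (A : ι → Finset α) (u : ι → α → ℝ) (f : ι → α → β)
    (G : ι → Finset β) (hG : ∀ i, ∀ a ∈ A i, f i a ∈ G i) (Φ : (ι → β) → ℝ) :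
    ∑ a ∈ Fintype.piFinset A, (∏ i, u i (a i)) * Φ (fun i => f i (a i)) =
      ∑ x ∈ Fintype.piFinset G, Φ x * ∏ i, ∑ a ∈ A i, (if f i a = x i then u i a else 0) := by
  simp_rw [prod_univ_sum, mul_sum]
  rw [sum_comm]
  refine sum_congr rfl fun a ha => ?_
  rw [Fintype.mem_piFinset] at ha
  rw [sum_eq_single_of_mem (fun i => f i (a i))
    (Fintype.mem_piFinset.2 fun i => hG i _ (ha i))]
  · rw [mul_comm]
    congr 1
    refine prod_congr rfl fun i _ => ?_
    rw [if_pos rfl]
  · intro x _ hx
    have : ∃ i, f i (a i) ≠ x i := by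
      by_contra hcon
      push Not at hcon
      exact hx (funext fun i => (hcon i).symm)
    obtain ⟨i, hi⟩ := this
    rw [prod_eq_zero (mem_univ i), mul_zero]
    rw [if_neg hi]

/-- exchange of the factors of a product weight -/
theorem mass_gen (A : ι → Finset α) (u v : ι → α → ℝ) (f g : ι → α → β)
    (h : ∀ i x, ∑ a ∈ A i, (if f i a = x then u i a else 0) =
      ∑ a ∈ A i, (if g i a = x then v i a else 0)) (Φ : (ι → β) → ℝ) :
    ∑ a ∈ Fintype.piFinset A, (∏ i, u i (a i)) * Φ (fun i => f i (a i)) =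
      ∑ a ∈ Fintype.piFinset A, (∏ i, v i (a i)) * Φ (fun i => g i (a i)) := by
  rw [mass_half A u f (fun i => (A i).image (f i) ∪ (A i).image (g i))
      (fun i a ha => mem_union_left _ (mem_image_of_mem _ ha)),
    mass_half A v g (fun i => (A i).image (f i) ∪ (A i).image (g i))
      (fun i a ha => mem_union_right _ (mem_image_of_mem _ ha))]
  exact sum_congr rfl fun x _ => by simp_rw [h]

end General

section MASS

variable {r k t h D D2 : ℕ} {δ B : ℝ}

theorem mass_exists (κ : Ker r k t h D D2 δ B) {c : Bool} {M J : ℕ} {T : Finset (Fin t)} {a : ℕ}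
    (hpos : 0 < ∑ S, ∑ P, (if (pv P (J * (2 * h))).card = a then κ.K c M T S P else 0)) :
    ∃ S P, κ.K c M T S P ≠ 0 ∧ (pv P (J * (2 * h))).card = a := by
  by_contra hcon
  push Not at hcon
  apply hpos.ne'
  refine sum_eq_zero fun S _ => sum_eq_zero fun P _ => ?_
  by_cases h1 : κ.K c M T S P = 0
  · rw [h1]; simp
  · rw [if_neg (hcon S P h1)]

/-- the identity for one row -/
theorem mass_row (κ : Ker r k t h D D2 δ B) (c : Bool) (M J : ℕ) (hJ : J ≤ M) (hM : M ≤ k)
    (hc : c = false → M ≤ 1) (T : Finset (Fin t)) (g : ℤ) :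
    ∑ S ∈ T.powerset, (if (S.card : ℤ) = g then dn κ c M J T S else 0) =
      ∑ S ∈ T.powerset, (if (S.card : ℤ) - ((M : ℤ) - 2 * J) * h = g then
        (if M = 0 ∨ Nice r t (if c = true then D2 else D) T S.card then (1 : ℝ) else 0)
        else 0) := by
  -- the right side
  have hR : ∑ S ∈ T.powerset, (if (S.card : ℤ) - ((M : ℤ) - 2 * J) * h = g then
        (if M = 0 ∨ Nice r t (if c = true then D2 else D) T S.card then (1 : ℝ) else 0)
        else 0) =
      if M = 0 ∨ Nice r t (if c = true then D2 else D) T (g + ((M : ℤ) - 2 * J) * h) then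
        (if 0 ≤ g + ((M : ℤ) - 2 * J) * h then
          ((T.card.choose (g + ((M : ℤ) - 2 * J) * h).toNat : ℕ) : ℝ) else 0) else 0 := by
    have e1 : ∀ S ∈ T.powerset, (if (S.card : ℤ) - ((M : ℤ) - 2 * J) * h = g then
        (if M = 0 ∨ Nice r t (if c = true then D2 else D) T S.card then (1 : ℝ) else 0)
        else 0) = if (S.card : ℤ) = g + ((M : ℤ) - 2 * J) * h then
          (if M = 0 ∨ Nice r t (if c = true then D2 else D) T (g + ((M : ℤ) - 2 * J) * h) then
            (1 : ℝ) else 0) else 0 := by
      intro S _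
      by_cases h1 : (S.card : ℤ) = g + ((M : ℤ) - 2 * J) * h
      · rw [if_pos h1, ← h1, if_pos (by linarith)]
      · rw [if_neg h1, if_neg (fun h2 => h1 (by linarith))]
    rw [sum_congr rfl e1, ← sum_filter, sum_const, nsmul_eq_mul]
    have e2 : (T.powerset.filter (fun S => (S.card : ℤ) = g + ((M : ℤ) - 2 * J) * h)).card =
        if 0 ≤ g + ((M : ℤ) - 2 * J) * h then
          T.card.choose (g + ((M : ℤ) - 2 * J) * h).toNat else 0 := by
      split_ifs with h0
      · rw [← card_powersetCard]
        congr 1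
        ext S
        simp only [mem_filter, mem_powerset, mem_powersetCard]
        constructor
        · rintro ⟨h1, h2⟩
          exact ⟨h1, by omega⟩
        · rintro ⟨h1, h2⟩
          exact ⟨h1, by omega⟩
      · rw [card_eq_zero, filter_eq_empty_iff]
        intro S _ h2
        omega
    rw [e2]
    split_ifs <;> simp
  rw [hR]
  -- no boundary effects
  have hb1 : ∀ x : ℤ, 0 ≤ x → x ≤ T.card → M ≠ 0 →
      Nice r t (if c = true then D2 else D) T x → (M : ℤ) * h ≤ x := by
    intro x hx0 hx1 hM0 hN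
    have hm := κ.mass c M M T (x + M * h).toNat le_rfl hM hc
    have e1 : (((x + M * h).toNat : ℕ) : ℤ) = x + M * h :=
      Int.toNat_of_nonneg (by positivity)
    have e2 : ((((x + M * h).toNat : ℕ) : ℤ) + ((M : ℤ) - 2 * (M : ℕ)) * h) = x := by
      rw [e1]; ring
    rw [e2, if_pos (Or.inr hN)] at hm
    have hpos : 0 < ((T.card.choose x.toNat : ℕ) : ℝ) := by
      exact_mod_cast Nat.choose_pos (by omega)
    rw [← hm] at hpos
    obtain ⟨S, P, hK, hP⟩ := mass_exists κ hpos
    have h3 := ((κ.supp c M T S P hK).2 (M * (2 * h))).2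
    rw [hP, min_self] at h3
    have h4 : ((x + M * h).toNat : ℤ) = (pv P 0).card + (M : ℤ) * (2 * h) := by
      exact_mod_cast h3
    rw [e1] at h4
    have h5 : (0 : ℤ) ≤ (pv P 0).card := by positivity
    linarith
  have hJh : (0 : ℤ) ≤ (J : ℤ) * h := by positivity
  have hMh : (0 : ℤ) ≤ (M : ℤ) * h := by positivity
  rcases lt_or_ge g 0 with hg | hg
  · -- g < 0
    have hL : ∑ S ∈ T.powerset, (if (S.card : ℤ) = g then dn κ c M J T S else 0) = 0 := by
      refine sum_eq_zero fun S _ => if_neg fun h1 => ?_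
      omega
    rw [hL]
    symm
    by_cases h1 : M = 0 ∨ Nice r t (if c = true then D2 else D) T (g + ((M : ℤ) - 2 * J) * h)
    · by_cases h2 : 0 ≤ g + ((M : ℤ) - 2 * J) * h
      · rw [if_pos h1, if_pos h2]
        by_cases hM0 : M = 0
        · exfalso
          subst hM0
          have hJ0 : J = 0 := by omega
          subst hJ0
          simp at h2
          omega
        · rcases le_or_gt (g + ((M : ℤ) - 2 * J) * h) T.card with h3 | h3
          · exfalso
            have := hb1 _ h2 h3 hM0 (h1.resolve_left hM0)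
            nlinarith
          · rw [Nat.choose_eq_zero_of_lt (by omega)]
            simp
      · rw [if_pos h1, if_neg h2]
    · rw [if_neg h1]
  · -- g ≥ 0
    obtain ⟨a, rfl⟩ := Int.eq_ofNat_of_zero_le hg
    have hm := κ.mass c M J T a hJ hM hc
    have hL : ∑ S ∈ T.powerset, (if (S.card : ℤ) = (a : ℤ) then dn κ c M J T S else 0) =
        ∑ S, ∑ P, (if (pv P (J * (2 * h))).card = a then κ.K c M T S P else 0) := by
      unfold dn
      have e1 : ∀ S' ∈ T.powerset, (if (S'.card : ℤ) = (a : ℤ) then
          ∑ S, ∑ P, (if pv P (J * (2 * h)) = S' then κ.K c M T S P else 0) else 0) =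
          ∑ S, ∑ P, (if pv P (J * (2 * h)) = S' then
            (if (pv P (J * (2 * h))).card = a then κ.K c M T S P else 0) else 0) := by
        intro S' _
        by_cases h1 : S'.card = a
        · rw [if_pos (by exact_mod_cast h1)]
          refine sum_congr rfl fun S _ => sum_congr rfl fun P _ => ?_
          split_ifs with h2 h3
          · rfl
          · exact absurd (by rw [h2, h1]) h3
          · rfl
        · rw [if_neg (by exact_mod_cast h1)]
          symm
          refine sum_eq_zero fun S _ => sum_eq_zero fun P _ => ?_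
          split_ifs with h2 h3
          · exact absurd (by rw [← h2, h3]) h1
          · rfl
          · rfl
      rw [sum_congr rfl e1, sum_comm]
      refine sum_congr rfl fun S _ => ?_
      rw [sum_comm]
      refine sum_congr rfl fun P _ => ?_
      by_cases hK : κ.K c M T S P = 0
      · rw [hK]; simp
      · have hmem : pv P (J * (2 * h)) ∈ T.powerset :=
          mem_powerset.2 ((κ.supp c M T S P hK).2 _).1
        rw [sum_ite_eq, if_pos hmem]
    rw [hL, hm]
    by_cases h1 : M = 0 ∨ Nice r t (if c = true then D2 else D) T (a + ((M : ℤ) - 2 * J) * h)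
    · rw [if_pos h1, if_pos h1]
      rw [if_pos]
      by_contra hneg
      push Not at hneg
      by_cases hM0 : M = 0
      · subst hM0
        have hJ0 : J = 0 := by omega
        subst hJ0
        simp at hneg
        omega
      · have hN := h1.resolve_left hM0
        rw [if_pos h1] at hm
        have e3 : ((a : ℤ) + ((M : ℤ) - 2 * J) * h).toNat = 0 := by omega
        rw [e3, Nat.choose_zero_right] at hm
        have hpos : 0 < ∑ S, ∑ P, (if (pv P (J * (2 * h))).card = a then κ.K c M T S P else 0) := by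
          rw [hm]; norm_num
        obtain ⟨S, P, hK, hP⟩ := mass_exists κ hpos
        have h3 := ((κ.supp c M T S P hK).2 (J * (2 * h))).2
        rw [hP, min_eq_left (Nat.mul_le_mul_right _ hJ)] at h3
        have h4 : (a : ℤ) = (pv P 0).card + (J : ℤ) * (2 * h) := by exact_mod_cast h3
        have h5 : (0 : ℤ) ≤ (pv P 0).card := by positivity
        nlinarith
    · rw [if_neg h1, if_neg h1]

/-- the words with given content outside the sets `S_m` -/
theorem mass_fiber (b0 : PW r t) (hb0 : ∃ b1, rep b1 (fun _ => ∅) = b0) (F : PW r t → ℝ) :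
    ∑ b ∈ univ.filter (fun b : PW r t => rep b (fun _ => ∅) = b0), F b =
      ∑ S ∈ Fintype.piFinset (fun m => (Tr b0 m).powerset), F (rep b0 S) := by
  obtain ⟨b1, hb1⟩ := hb0
  refine sum_bij' (fun b _ => Sr b) (fun S _ => rep b0 S) ?_ ?_ ?_ ?_ ?_
  · intro b hb
    rw [mem_filter] at hb
    rw [Fintype.mem_piFinset]
    intro m
    rw [mem_powerset, ← hb.2, tr_rep]
    exact sr_sub b m
  · intro S _
    rw [mem_filter]
    refine ⟨mem_univ _, ?_⟩
    rw [rep_rep, ← hb1, rep_rep]
  · intro b hb
    rw [mem_filter] at hb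
    show rep b0 (Sr b) = b
    rw [← hb.2, rep_rep, rep_sr]
  · intro S hS
    rw [Fintype.mem_piFinset] at hS
    funext m
    show Sr (rep b0 S) m = S m
    rw [sr_rep]
    exact inter_eq_right.2 (mem_powerset.1 (hS m))
  · intro b hb
    rw [mem_filter] at hb
    congr 1
    show b = rep b0 (Sr b)
    rw [← hb.2, rep_rep, rep_sr]

/-- Block MASS -/
theorem mass_id_pr (κ : Ker r k t h D D2 δ B) (c : Bool) (M J : Fin r → ℕ)
    (hJ : ∀ m, J m ≤ M m ∧ M m ≤ k) (hc : c = false → ∀ m, M m ≤ 1) (φ : (Fin r → ℤ) → ℝ) :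
    ∑ b : PW r t, Wid κ c M J b * φ (fun m => (cl b m : ℤ)) =
      ∑ b : PW r t, if NiceW r t D D2 c M b then
        φ (fun m => (cl b m : ℤ) - ((M m : ℤ) - 2 * J m) * h) else 0 := by
  rw [← sum_fiberwise univ (fun b : PW r t => rep b (fun _ => ∅)) (fun b : PW r t =>
      Wid κ c M J b * φ (fun m => (cl b m : ℤ))),
    ← sum_fiberwise univ (fun b : PW r t => rep b (fun _ => ∅)) (fun b : PW r t =>
      if NiceW r t D D2 c M b then
        φ (fun m => (cl b m : ℤ) - ((M m : ℤ) - 2 * J m) * h) else 0)]
  refine sum_congr rfl fun b0 _ => ?_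
  by_cases hb0 : ∃ b1 : PW r t, rep b1 (fun _ => ∅) = b0
  · rw [mass_fiber b0 hb0, mass_fiber b0 hb0]
    obtain ⟨b1, hb1⟩ := hb0
    have hS0 : ∀ m, Sr b0 m = ∅ := by
      intro m
      rw [← hb1, sr_rep, inter_empty]
    have hcl : ∀ S ∈ Fintype.piFinset (fun m => (Tr b0 m).powerset), ∀ m,
        (cl (rep b0 S) m : ℤ) = cl b0 m + (S m).card := by
      intro S hS m
      have h1 := cl_rep b0 S m (mem_powerset.1 (Fintype.mem_piFinset.1 hS m))
      rw [hS0, card_empty, add_zero] at h1
      exact_mod_cast h1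
    have hSr : ∀ S ∈ Fintype.piFinset (fun m => (Tr b0 m).powerset), ∀ m,
        Sr (rep b0 S) m = S m := by
      intro S hS m
      rw [sr_rep]
      exact inter_eq_right.2 (mem_powerset.1 (Fintype.mem_piFinset.1 hS m))
    have hgen := mass_gen (fun m => (Tr b0 m).powerset)
      (fun m S => dn κ c (M m) (J m) (Tr b0 m) S)
      (fun m S => if M m = 0 ∨ Nice r t (if c = true then D2 else D) (Tr b0 m) S.card
        then (1 : ℝ) else 0)
      (fun m S => (S.card : ℤ)) (fun m S => (S.card : ℤ) - ((M m : ℤ) - 2 * J m) * h)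
      (fun m x => mass_row κ c (M m) (J m) (hJ m).1 (hJ m).2 (fun hh => hc hh m) (Tr b0 m) x)
      (fun g => φ (fun m => (cl b0 m : ℤ) + g m))
    have hL : ∑ S ∈ Fintype.piFinset (fun m => (Tr b0 m).powerset),
        Wid κ c M J (rep b0 S) * φ (fun m => (cl (rep b0 S) m : ℤ)) =
        ∑ S ∈ Fintype.piFinset (fun m => (Tr b0 m).powerset),
          (∏ m, dn κ c (M m) (J m) (Tr b0 m) (S m)) *
            φ (fun m => (cl b0 m : ℤ) + (S m).card) := by
      refine sum_congr rfl fun S hS => ?_
      unfold Wid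
      congr 1
      · exact prod_congr rfl fun m _ => by rw [tr_rep, hSr S hS]
      · congr 1
        funext m
        exact hcl S hS m
    have hR : ∑ S ∈ Fintype.piFinset (fun m => (Tr b0 m).powerset),
        (if NiceW r t D D2 c M (rep b0 S) then
          φ (fun m => (cl (rep b0 S) m : ℤ) - ((M m : ℤ) - 2 * J m) * h) else 0) =
        ∑ S ∈ Fintype.piFinset (fun m => (Tr b0 m).powerset),
          (∏ m, if M m = 0 ∨ Nice r t (if c = true then D2 else D) (Tr b0 m) (S m).card
            then (1 : ℝ) else 0) *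
            φ (fun m => (cl b0 m : ℤ) + (((S m).card : ℤ) - ((M m : ℤ) - 2 * J m) * h)) := by
      refine sum_congr rfl fun S hS => ?_
      have e1 : NiceW r t D D2 c M (rep b0 S) ↔
          ∀ m, M m = 0 ∨ Nice r t (if c = true then D2 else D) (Tr b0 m) (S m).card := by
        unfold NiceW
        refine forall_congr' fun m => ?_
        rw [tr_rep, hSr S hS]
      have e2 : (fun m => (cl (rep b0 S) m : ℤ) - ((M m : ℤ) - 2 * J m) * h) =
          fun m => (cl b0 m : ℤ) + (((S m).card : ℤ) - ((M m : ℤ) - 2 * J m) * h) := by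
        funext m
        rw [hcl S hS m]
        ring
      rw [e2]
      by_cases hN : NiceW r t D D2 c M (rep b0 S)
      · rw [if_pos hN, prod_eq_one, one_mul]
        intro m _
        rw [if_pos (e1.1 hN m)]
      · rw [if_neg hN]
        rw [e1] at hN
        push Not at hN
        obtain ⟨m, hm⟩ := hN
        rw [prod_eq_zero (mem_univ m), zero_mul]
        rw [if_neg]
        tauto
    rw [hL, hR]
    exact hgen
  · have he : univ.filter (fun b : PW r t => rep b (fun _ => ∅) = b0) = ∅ := by
      rw [filter_eq_empty_iff]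
      intro b _ hb
      exact hb0 ⟨b, hb⟩
    rw [he, sum_empty, sum_empty]

end MASS

end Pool.Agent.Lib_helper46.CC

namespace Pool.Agent.Lib_helper46.CC

alias mass_id := mass_id_pr

end Pool.Agent.Lib_helper46.CC
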