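import Mathlib
import Pool.Agent.Lib_helper46.CCF.MASS
import Pool.Agent.Lib_helper46.CCF.PAV
import Pool.Agent.Lib_helper46.CCF.REP

/-! Block MSP, written by helper82. -/

/-!
# MP_10b4aa_co, blocks MSP, AWE
-/

set_option autoImplicit false

namespace Pool.Agent.Lib_helper46.CC

open Finset Pool.Agent.Lib_helper70.Chains
open scoped Classical

section MSP

variable {r k t h D D2 : ℕ} {δ B : ℝ}

theorem msp_point (κ : Ker r k t h D D2 δ B) (c : Bool) (M J : Fin r → ℕ)
    (hJ : ∀ m, J m ≤ M m ∧ M m ≤ k) (hc : c = false → ∀ m, M m ≤ 1) (x : Fin r → ℤ) :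
    ∑ b : PW r t, (if (fun m => (cl b m : ℤ)) = x then Wid κ c M J b else 0) =
      ∑ b : PW r t, (if (fun m => (cl b m : ℤ) - ((M m : ℤ) - 2 * J m) * h) = x then
        (if NiceW r t D D2 c M b then (1 : ℝ) else 0) else 0) := by
  have h1 := mass_id_pr κ c M J hJ hc (fun g => if g = x then (1 : ℝ) else 0)
  calc ∑ b : PW r t, (if (fun m => (cl b m : ℤ)) = x then Wid κ c M J b else 0)
      = ∑ b : PW r t, Wid κ c M J b * (if (fun m => (cl b m : ℤ)) = x then (1 : ℝ) else 0) := by
        refine sum_congr rfl fun b _ => ?_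
        split_ifs <;> simp
    _ = _ := h1
    _ = _ := by
        refine sum_congr rfl fun b _ => ?_
        by_cases hN : NiceW r t D D2 c M b
        · rw [if_pos hN, if_pos hN]
        · rw [if_neg hN, if_neg hN]
          split_ifs <;> rfl

theorem msp_usz {R : ℕ} (f : Fin r → Fin k → Fin R) (m : Fin r) : ∑ p, usz f p m = k := by
  unfold usz
  rw [← card_eq_sum_card_fiberwise (s := univ) (t := univ) (f := fun j => f m j)
    (fun j _ => mem_coe.2 (mem_univ _)), card_univ, Fintype.card_fin]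

end MSP

section MSP2

variable {r y z R t k h D D2 : ℕ} {δ B : ℝ}

/-- Block MSP: mass conservation for all parts -/
theorem mass_parts_pr (κ : Ker r k t h D D2 δ B) (f : Fin r → Fin k → Fin R)
    (φ : (Fin r → ℤ) → ℝ) (hφ : ∀ g, 0 ≤ φ g) :
    (∑ b : Fin R → PW r t, (∏ p, Wid κ (hib f p) (usz f p) (fun _ => 0) (b p)) *
      φ (fun m => ∑ p, (cl (b p) m : ℤ))) ≤
      ∑ b : Fin R → PW r t, φ (fun m => (∑ p, (cl (b p) m : ℤ)) - (k : ℤ) * h) := by
  have hJ : ∀ p m, (fun _ : Fin r => (0 : ℕ)) m ≤ usz f p m ∧ usz f p m ≤ k := by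
    intro p m
    refine ⟨Nat.zero_le _, ?_⟩
    unfold usz
    refine (card_filter_le _ _).trans ?_
    rw [card_univ, Fintype.card_fin]
  have hc : ∀ p, hib f p = false → ∀ m, usz f p m ≤ 1 := by
    intro p hp m
    unfold hib at hp
    rw [decide_eq_false_iff_not] at hp
    push Not at hp
    have := hp m
    omega
  have hgen := mass_gen (fun _ : Fin R => (univ : Finset (PW r t)))
    (fun p b => Wid κ (hib f p) (usz f p) (fun _ => 0) b)
    (fun p b => if NiceW r t D D2 (hib f p) (usz f p) b then (1 : ℝ) else 0)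
    (fun _ b => fun m : Fin r => (cl b m : ℤ))
    (fun p b => fun m : Fin r => (cl b m : ℤ) - ((usz f p m : ℤ) - 2 * (0 : ℕ)) * h)
    (fun p x => by
      have := msp_point κ (hib f p) (usz f p) (fun _ => 0) (hJ p) (hc p) x
      convert this)
    (fun G => φ (fun m => ∑ p, G p m))
  rw [Fintype.piFinset_univ] at hgen
  refine (le_of_eq ?_).trans ((le_of_eq hgen).trans ?_)
  · rfl
  · refine sum_le_sum fun b _ => ?_
    have e1 : (fun m => ∑ p, ((cl (b p) m : ℤ) - ((usz f p m : ℤ) - 2 * (0 : ℕ)) * h)) =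
        fun m => (∑ p, (cl (b p) m : ℤ)) - (k : ℤ) * h := by
      funext m
      rw [sum_sub_distrib]
      congr 1
      simp only [Nat.cast_zero, mul_zero, sub_zero]
      rw [← sum_mul]
      congr 1
      exact_mod_cast msp_usz f m
    show (∏ p, if NiceW r t D D2 (hib f p) (usz f p) (b p) then (1 : ℝ) else 0) *
      φ (fun m => ∑ p, ((cl (b p) m : ℤ) - ((usz f p m : ℤ) - 2 * (0 : ℕ)) * h)) ≤ _
    rw [e1]
    refine mul_le_of_le_one_left (hφ _) (prod_le_one (fun p _ => ?_) fun p _ => ?_)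
    · split_ifs <;> norm_num
    · split_ifs <;> norm_num

end MSP2

section AWE

variable {r k t h D D2 : ℕ} {δ B : ℝ}

/-- Block AWE -/
theorem aw_eq_pr (κ : Ker r k t h D D2 δ B) (c : Bool) (M J : Fin r → ℕ)
    (hJ : ∀ m, J m ≤ M m ∧ M m ≤ k) (hc : c = false → ∀ m, M m ≤ 1) (b : PW r t) :
    AW κ c M J b * (NC (Pos r t) (fun m : Fin r => (cl b m : ℤ)) : ℝ) =
      ((univ.filter (fun b' : PW r t => NiceW r t D D2 c M b' ∧
        ∀ m, (cl b' m : ℤ) = cl b m + ((M m : ℤ) - 2 * J m) * h)).card : ℝ) := by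
  have hpav := perm_avg_pr b (fun b' : PW r t => Wid κ c M J b')
  have hcard : (0 : ℝ) < (Fintype.card (Equiv.Perm (Pos r t)) : ℝ) := by
    exact_mod_cast Fintype.card_pos
  have hNC : (NC (Pos r t) (fun m : Fin r => (cl b m : ℤ)) : ℝ) =
      ((univ.filter (fun b' : PW r t => ∀ m : Fin r, cl b' m = cl b m)).card : ℝ) := by
    unfold NC
    congr 2
    ext b'
    simp only [mem_filter, mem_univ, true_and, Nat.cast_inj]
  have hpt := msp_point κ c M J hJ hc (fun m => (cl b m : ℤ))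
  have e1 : ∑ b' ∈ univ.filter (fun b' : PW r t => ∀ m : Fin r, cl b' m = cl b m),
      Wid κ c M J b' =
      ∑ b' : PW r t, (if (fun m => (cl b' m : ℤ)) = (fun m => (cl b m : ℤ)) then
        Wid κ c M J b' else 0) := by
    rw [sum_filter]
    refine sum_congr rfl fun b' _ => ?_
    have : (∀ m : Fin r, cl b' m = cl b m) ↔
        (fun m => (cl b' m : ℤ)) = (fun m => (cl b m : ℤ)) := by
      rw [funext_iff]
      simp only [Nat.cast_inj]
    simp only [this]
  have e2 : ∑ b' : PW r t, (if (fun m => (cl b' m : ℤ) - ((M m : ℤ) - 2 * J m) * h) =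
      (fun m => (cl b m : ℤ)) then (if NiceW r t D D2 c M b' then (1 : ℝ) else 0) else 0) =
      ((univ.filter (fun b' : PW r t => NiceW r t D D2 c M b' ∧
        ∀ m, (cl b' m : ℤ) = cl b m + ((M m : ℤ) - 2 * J m) * h)).card : ℝ) := by
    rw [card_filter]
    push_cast
    refine sum_congr rfl fun b' _ => ?_
    have : (fun m => (cl b' m : ℤ) - ((M m : ℤ) - 2 * J m) * h) = (fun m => (cl b m : ℤ)) ↔
        ∀ m, (cl b' m : ℤ) = cl b m + ((M m : ℤ) - 2 * J m) * h := by
      rw [funext_iff]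
      refine forall_congr' fun m => ?_
      constructor <;> intro hh <;> linarith
    by_cases h1 : ∀ m, (cl b' m : ℤ) = cl b m + ((M m : ℤ) - 2 * J m) * h
    · rw [if_pos (this.2 h1)]
      by_cases h2 : NiceW r t D D2 c M b'
      · rw [if_pos h2, if_pos ⟨h2, h1⟩]
      · rw [if_neg h2, if_neg (fun hh => h2 hh.1)]
    · rw [if_neg (fun hh => h1 (this.1 hh)), if_neg (fun hh => h1 hh.2)]
  unfold AW
  rw [hNC, div_mul_eq_mul_div, hpav, e1, hpt, e2, mul_div_cancel_left₀ _ hcard.ne']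

end AWE

end Pool.Agent.Lib_helper46.CC

namespace Pool.Agent.Lib_helper46.CC

alias aw_eq := aw_eq_pr
alias mass_parts := mass_parts_pr

end Pool.Agent.Lib_helper46.CC
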