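import Mathlib
import Pool.Agent.Lib_helper46.CCF.WBase
import Pool.Agent.Lib_helper46.CCF.EXP
import Pool.Agent.Lib_helper46.CCF.TAG

/-! Block MLO, written by helper82. -/

/-!
# MP_10b4aa_co, block MLO
-/

set_option autoImplicit false

namespace Pool.Agent.Lib_helper46.CC

open Finset Pool.Agent.Lib_helper70.Chains
open scoped Classical

section MLO

variable {r t : ℕ}

theorem mlo_card (r t : ℕ) : Fintype.card (Pos r t) = (r + 1) * t := by
  simp [Fintype.card_prod, Fintype.card_fin]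

theorem mlo_ztyp (A : ℝ) (b : PW r t) :
    ZTyp A b ↔ ∀ j, |(ct b j : ℝ) - t| ≤ A * Real.sqrt (((r : ℝ) + 1) * t) := by
  unfold ZTyp
  rw [mlo_card]
  have h1 : (((r + 1) * t : ℕ) : ℝ) = ((r : ℝ) + 1) * t := by push_cast; ring
  have h2 : (((r + 1) * t : ℕ) : ℝ) / ((r : ℝ) + 1) = t := by
    rw [h1, mul_div_cancel_left₀ _ (by positivity)]
  rw [h2, h1]

theorem mlo_cl_sum (b : PW r t) (m : Fin r) : cl b m = ∑ j ∈ Finset.Iic m.castSucc, ct b j := by
  unfold cl ct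
  rw [card_eq_sum_card_fiberwise (f := b) (t := Finset.Iic m.castSucc)]
  · refine sum_congr rfl fun j hj => ?_
    congr 1
    ext x
    simp only [mem_filter, mem_univ, true_and]
    constructor
    · exact fun h => h.2
    · intro h
      rw [mem_Iic, Fin.le_def] at hj
      refine ⟨?_, h⟩
      rw [h]
      exact hj
  · intro x hx
    simp only [mem_coe, mem_filter, mem_univ, true_and] at hx
    simp only [coe_Iic, Set.mem_Iic, Fin.le_def]
    exact hx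

theorem mlo_cl {A : ℝ} (b : PW r t) (hb : ZTyp A b) (m : Fin r) :
    |(cl b m : ℝ) - ((m : ℕ) + 1 : ℝ) * t| ≤ ((r : ℝ) + 1) * (A * Real.sqrt (((r : ℝ) + 1) * t)) := by
  rw [mlo_ztyp] at hb
  have hcard : (Finset.Iic m.castSucc).card = (m : ℕ) + 1 := by
    rw [Fin.card_Iic]; rfl
  have h1 : (cl b m : ℝ) - ((m : ℕ) + 1 : ℝ) * t =
      ∑ j ∈ Finset.Iic m.castSucc, ((ct b j : ℝ) - t) := by
    rw [sum_sub_distrib, sum_const, hcard, nsmul_eq_mul, mlo_cl_sum]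
    push_cast
    ring
  rw [h1]
  refine (abs_sum_le_sum_abs _ _).trans ((sum_le_sum fun j _ => hb j).trans ?_)
  rw [sum_const, hcard, nsmul_eq_mul]
  have h0 : 0 ≤ A * Real.sqrt (((r : ℝ) + 1) * t) := (abs_nonneg _).trans (hb 0)
  refine mul_le_mul_of_nonneg_right ?_ h0
  have : ((m : ℕ) : ℝ) ≤ r := by exact_mod_cast m.2.le
  push_cast
  linarith

theorem mlo_dl {A : ℝ} (b : PW r t) (hb : ZTyp A b) (m : Fin r) :
    |Dl b m| ≤ 2 * (A * Real.sqrt (((r : ℝ) + 1) * t)) := by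
  rw [mlo_ztyp] at hb
  unfold Dl
  have h1 := hb m.castSucc
  have h2 := hb m.succ
  rw [abs_le] at h1 h2 ⊢
  constructor <;> linarith

theorem mlo_qf {x : Fin r → ℝ} {y : ℝ} (hy : 0 ≤ y) (hx : ∀ m, |x m| ≤ y) :
    QF x ≤ 2 * r ^ 2 * y ^ 2 := by
  unfold QF
  have h1 : ∀ m m', Gm r m m' * x m * x m' ≤ 2 * y ^ 2 := by
    intro m m'
    have hG : |Gm r m m'| ≤ 2 := by
      unfold Gm
      split_ifs <;> norm_num
    refine (le_abs_self _).trans ?_
    rw [abs_mul, abs_mul, mul_assoc, pow_two]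
    exact mul_le_mul hG (mul_le_mul (hx m) (hx m') (abs_nonneg _) hy)
      (by positivity) (by norm_num)
  refine (sum_le_sum fun m _ => sum_le_sum fun m' _ => h1 m m').trans ?_
  simp only [sum_const, card_univ, Fintype.card_fin, nsmul_eq_mul]
  apply le_of_eq
  ring

/-- half of the words are typical -/
theorem mlo_half (r t : ℕ) : (1 / 2 : ℝ) * ((r : ℝ) + 1) ^ ((r + 1) * t) ≤
    ((univ.filter (fun b : PW r t => ZTyp (4 * ((r : ℝ) + 1)) b)).card : ℝ) := by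
  set A : ℝ := 4 * ((r : ℝ) + 1) with hA
  have hr1 : (0 : ℝ) < (r : ℝ) + 1 := by positivity
  have hA0 : 0 ≤ A := by positivity
  set φ : Fin (r + 1) → Fin (r + 1) → ℝ := fun j i => (if i = j then 1 else 0) - 1 / ((r : ℝ) + 1)
    with hφ
  have hφ0 : ∀ j, ∑ i, φ j i = 0 := by
    intro j
    simp only [hφ]
    rw [sum_sub_distrib, sum_ite_eq' univ j, if_pos (mem_univ j), sum_const, card_univ,
      Fintype.card_fin, nsmul_eq_mul]
    push_cast
    field_simp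
    ring
  have hφ1 : ∀ j i, |φ j i| ≤ 1 := by
    intro j i
    have h1 : 0 < 1 / ((r : ℝ) + 1) := by positivity
    have h2 : 1 / ((r : ℝ) + 1) ≤ 1 := by
      rw [div_le_one hr1]
      have : (0 : ℝ) ≤ r := Nat.cast_nonneg r
      linarith
    simp only [hφ]
    rw [abs_le]
    split_ifs <;> constructor <;> linarith
  have hsum : ∀ j (b : PW r t), ∑ x, φ j (b x) = (ct b j : ℝ) - t := by
    intro j b
    simp only [hφ]
    rw [sum_sub_distrib, sum_const, card_univ, mlo_card, nsmul_eq_mul]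
    have h1 : ∑ x : Pos r t, (if b x = j then (1 : ℝ) else 0) = (ct b j : ℝ) := by
      unfold ct
      rw [card_filter]
      push_cast
      rfl
    rw [h1]
    push_cast
    field_simp
  have hcomp : univ.filter (fun b : PW r t => ¬ ZTyp A b) ⊆
      univ.biUnion (fun j : Fin (r + 1) => univ.filter (fun b : PW r t =>
        A * Real.sqrt (Fintype.card (Pos r t)) < |∑ x, φ j (b x)|)) := by
    intro b hb
    rw [mem_filter, mlo_ztyp] at hb
    obtain ⟨_, hb⟩ := hb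
    push Not at hb
    obtain ⟨j, hj⟩ := hb
    rw [mem_biUnion]
    refine ⟨j, mem_univ j, ?_⟩
    rw [mem_filter]
    refine ⟨mem_univ _, ?_⟩
    rw [hsum, mlo_card]
    push_cast
    exact hj
  have h1 : ((univ.filter (fun b : PW r t => ¬ ZTyp A b)).card : ℝ) ≤
      (1 / 2 : ℝ) * ((r : ℝ) + 1) ^ ((r + 1) * t) := by
    have e1 : ((univ.filter (fun b : PW r t => ¬ ZTyp A b)).card : ℝ) ≤
        ∑ j : Fin (r + 1), ((univ.filter (fun b : PW r t =>
          A * Real.sqrt (Fintype.card (Pos r t)) < |∑ x, φ j (b x)|)).card : ℝ) := by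
      exact_mod_cast (card_le_card hcomp).trans card_biUnion_le
    refine e1.trans ((sum_le_sum fun j _ => tail (φ j) (hφ0 j) (hφ1 j) A hA0).trans ?_)
    rw [sum_const, card_univ, Fintype.card_fin, nsmul_eq_mul, mlo_card]
    have e2 : Real.exp (-A ^ 2 / 4) ≤ 1 / (4 * ((r : ℝ) + 1) ^ 2) := by
      have e3 : -A ^ 2 / 4 = -(4 * ((r : ℝ) + 1) ^ 2) := by rw [hA]; ring
      rw [e3, Real.exp_neg, one_div]
      apply inv_anti₀ (by positivity)
      have := Real.add_one_le_exp (4 * ((r : ℝ) + 1) ^ 2)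
      linarith
    have e4 : (0 : ℝ) ≤ ((r : ℝ) + 1) ^ ((r + 1) * t) := by positivity
    have e5 : ((r : ℝ) + 1) * (2 * Real.exp (-A ^ 2 / 4)) ≤ 1 / 2 := by
      have e6 : ((r : ℝ) + 1) * (2 * (1 / (4 * ((r : ℝ) + 1) ^ 2))) = 1 / (2 * ((r : ℝ) + 1)) := by
        field_simp
        ring
      have e7 : 1 / (2 * ((r : ℝ) + 1)) ≤ 1 / 2 := by
        apply one_div_le_one_div_of_le (by norm_num)
        have : (0 : ℝ) ≤ r := Nat.cast_nonneg r
        linarith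
      nlinarith
    calc ((r + 1 : ℕ) : ℝ) * (2 * Real.exp (-A ^ 2 / 4) * ((r : ℝ) + 1) ^ ((r + 1) * t))
        = (((r : ℝ) + 1) * (2 * Real.exp (-A ^ 2 / 4))) * ((r : ℝ) + 1) ^ ((r + 1) * t) := by
          push_cast; ring
      _ ≤ _ := mul_le_mul_of_nonneg_right e5 e4
  have h2 := card_filter_add_card_filter_not (s := (univ : Finset (PW r t))) (fun b => ZTyp A b)
  have h3 : ((univ : Finset (PW r t)).card : ℝ) = ((r : ℝ) + 1) ^ ((r + 1) * t) := by
    rw [card_univ, Fintype.card_fun, Fintype.card_fin, mlo_card]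
    push_cast
    rfl
  have h4 : ((univ.filter (fun b : PW r t => ZTyp A b)).card : ℝ) +
      ((univ.filter (fun b : PW r t => ¬ ZTyp A b)).card : ℝ) = ((univ : Finset (PW r t)).card : ℝ) := by
    exact_mod_cast h2
  rw [h3] at h4
  linarith

/-- there is a typical word with many words of the same type -/
theorem mlo_exists (r t : ℕ) (ht : 1 ≤ t) : ∃ b : PW r t, ZTyp (4 * ((r : ℝ) + 1)) b ∧
    (1 / 2 : ℝ) * ((r : ℝ) + 1) ^ ((r + 1) * t) /
      ((8 * ((r : ℝ) + 1) ^ 3 + 3) * Real.sqrt t) ^ r ≤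
      (NC (Pos r t) (fun m : Fin r => (cl b m : ℤ)) : ℝ) := by
  have ht' : (1 : ℝ) ≤ t := by exact_mod_cast ht
  have hs1 : 1 ≤ Real.sqrt t := Real.one_le_sqrt.2 ht'
  have hr0 : (0 : ℝ) ≤ r := Nat.cast_nonneg r
  set L : ℝ := ((r : ℝ) + 1) ^ 2 * (4 * ((r : ℝ) + 1)) * Real.sqrt t with hL
  have hL0 : 0 ≤ L := by positivity
  set L0 : ℕ := ⌈L⌉₊ with hL0def
  have hLL : L ≤ L0 := Nat.le_ceil L
  have hL0L : (L0 : ℝ) < L + 1 := Nat.ceil_lt_add_one hL0
  set T : Finset (Fin r → ℤ) := Fintype.piFinset (fun m : Fin r =>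
    Finset.Icc ((((m : ℕ) : ℤ) + 1) * t - L0) ((((m : ℕ) : ℤ) + 1) * t + L0)) with hT
  have hTcard : T.card = (2 * L0 + 1) ^ r := by
    rw [hT, Fintype.card_piFinset]
    have : ∀ m : Fin r, (Finset.Icc ((((m : ℕ) : ℤ) + 1) * t - L0)
        ((((m : ℕ) : ℤ) + 1) * t + L0)).card = 2 * L0 + 1 := by
      intro m
      rw [Int.card_Icc]
      omega
    rw [prod_congr rfl fun m _ => this m, prod_const, card_univ, Fintype.card_fin]
  have hTne : T.Nonempty := by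
    rw [← card_pos, hTcard]
    positivity
  have hmaps : ∀ b ∈ univ.filter (fun b : PW r t => ZTyp (4 * ((r : ℝ) + 1)) b),
      (fun m : Fin r => (cl b m : ℤ)) ∈ T := by
    intro b hb
    rw [mem_filter] at hb
    rw [hT, Fintype.mem_piFinset]
    intro m
    have h1 := mlo_cl b hb.2 m
    have h2 : Real.sqrt (((r : ℝ) + 1) * t) ≤ ((r : ℝ) + 1) * Real.sqrt t := by
      rw [Real.sqrt_mul (by positivity)]
      refine mul_le_mul_of_nonneg_right ?_ (Real.sqrt_nonneg _)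
      rw [Real.sqrt_le_left (by positivity)]
      nlinarith
    have h3 : ((r : ℝ) + 1) * (4 * ((r : ℝ) + 1) * Real.sqrt (((r : ℝ) + 1) * t)) ≤ L := by
      rw [hL]
      calc ((r : ℝ) + 1) * (4 * ((r : ℝ) + 1) * Real.sqrt (((r : ℝ) + 1) * t))
          ≤ ((r : ℝ) + 1) * (4 * ((r : ℝ) + 1) * (((r : ℝ) + 1) * Real.sqrt t)) := by gcongr
        _ = _ := by ring
    have h4 : |(cl b m : ℝ) - ((m : ℕ) + 1 : ℝ) * t| ≤ L0 := h1.trans (h3.trans hLL)
    have h5 : |((cl b m : ℤ) - (((m : ℕ) : ℤ) + 1) * t : ℤ)| ≤ (L0 : ℤ) := by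
      have : ((|((cl b m : ℤ) - (((m : ℕ) : ℤ) + 1) * t : ℤ)| : ℤ) : ℝ) ≤ ((L0 : ℤ) : ℝ) := by
        push_cast
        exact h4
      exact_mod_cast this
    rw [abs_le] at h5
    rw [mem_Icc]
    constructor <;> linarith
  set β : ℝ := (1 / 2 : ℝ) * ((r : ℝ) + 1) ^ ((r + 1) * t) / (2 * (L0 : ℝ) + 1) ^ r with hβ
  have hβ0 : 0 < β := by positivity
  have hb : T.card • β ≤ ((univ.filter (fun b : PW r t => ZTyp (4 * ((r : ℝ) + 1)) b)).card : ℝ) := by
    rw [nsmul_eq_mul, hTcard, hβ]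
    push_cast
    rw [mul_div_cancel₀ _ (by positivity)]
    exact mlo_half r t
  obtain ⟨y, _, hy⟩ := exists_le_card_fiber_of_nsmul_le_card_of_maps_to hmaps hTne hb
  have hne : ((univ.filter (fun b : PW r t => ZTyp (4 * ((r : ℝ) + 1)) b)).filter
      (fun b => (fun m : Fin r => (cl b m : ℤ)) = y)).Nonempty := by
    rw [← card_pos]
    have : (0 : ℝ) < (((univ.filter (fun b : PW r t => ZTyp (4 * ((r : ℝ) + 1)) b)).filter
      (fun b => (fun m : Fin r => (cl b m : ℤ)) = y)).card : ℝ) := hβ0.trans_le hy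
    exact_mod_cast this
  obtain ⟨b, hbm⟩ := hne
  rw [mem_filter, mem_filter] at hbm
  refine ⟨b, hbm.1.2, ?_⟩
  have h6 : ((2 * (L0 : ℝ) + 1)) ≤ (8 * ((r : ℝ) + 1) ^ 3 + 3) * Real.sqrt t := by
    have : (8 * ((r : ℝ) + 1) ^ 3 + 3) * Real.sqrt t = 2 * L + 3 * Real.sqrt t := by
      rw [hL]; ring
    rw [this]
    linarith
  have h7 : (1 / 2 : ℝ) * ((r : ℝ) + 1) ^ ((r + 1) * t) /
      ((8 * ((r : ℝ) + 1) ^ 3 + 3) * Real.sqrt t) ^ r ≤ β := by
    rw [hβ]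
    gcongr
  refine h7.trans (hy.trans ?_)
  have h8 : (univ.filter (fun b : PW r t => ZTyp (4 * ((r : ℝ) + 1)) b)).filter
      (fun b => (fun m : Fin r => (cl b m : ℤ)) = y) ⊆
      univ.filter (fun b' : PW r t => ∀ m, (cl b' m : ℤ) = (cl b m : ℤ)) := by
    intro b' hb'
    rw [mem_filter, mem_filter] at hb'
    rw [mem_filter]
    refine ⟨mem_univ _, fun m => ?_⟩
    have := hb'.2.trans hbm.2.symm
    exact congrFun this m
  unfold NC
  exact Nat.cast_le.2 (card_le_card h8)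

/-- Block MLO -/
theorem nc_lower_pr (r : ℕ) : ∃ c C : ℝ, 0 < c ∧ 0 < C ∧ ∀ a : ℝ, 1 ≤ a → ∃ t1 : ℕ, ∀ t ≥ t1,
    ∀ b : PW r t, ZTyp a b →
      c * Real.exp (-C * a ^ 2) * ((r : ℝ) + 1) ^ ((r + 1) * t) / Real.sqrt t ^ r ≤
        (NC (Pos r t) (fun m : Fin r => (cl b m : ℤ)) : ℝ) := by
  have hr0 : (0 : ℝ) ≤ r := Nat.cast_nonneg r
  set A : ℝ := 4 * ((r : ℝ) + 1) with hA
  have hA1 : 1 ≤ A := by rw [hA]; linarith
  set E : ℝ := ((r : ℝ) + 1) ^ 2 * (1 + A) with hE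
  have hE0 : 0 < E := by positivity
  set C₂ : ℝ := 2 * r * ((r : ℝ) + 1) * A * E + r ^ 2 * E ^ 2 with hC₂
  have hC₂0 : 0 ≤ C₂ := by positivity
  set c : ℝ := (1 / 2) / (8 * ((r : ℝ) + 1) ^ 3 + 3) ^ r * Real.exp (-1) with hc
  refine ⟨c, C₂ + 1, by positivity, by positivity, fun a ha => ?_⟩
  set a' : ℝ := ((r : ℝ) + 1) ^ 2 * (a + A) with ha'
  have ha'0 : 0 < a' := by positivity
  have ha'E : a' ≤ E * a := by
    rw [ha', hE]
    have : a + A ≤ (1 + A) * a := by nlinarith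
    calc ((r : ℝ) + 1) ^ 2 * (a + A) ≤ ((r : ℝ) + 1) ^ 2 * ((1 + A) * a) := by gcongr
      _ = _ := by ring
  obtain ⟨t₁, ht₁⟩ := exp_lb r a' 1 ha'0 one_pos
  refine ⟨max t₁ 1, fun t ht b hb => ?_⟩
  have ht1 : 1 ≤ t := (le_max_right _ _).trans ht
  have ht' : (1 : ℝ) ≤ t := by exact_mod_cast ht1
  have ht0 : (0 : ℝ) < t := by linarith
  obtain ⟨b₁, hb₁, hN⟩ := mlo_exists r t ht1
  rw [← hA] at hb₁
  have hsq : Real.sqrt (((r : ℝ) + 1) * t) ≤ ((r : ℝ) + 1) * Real.sqrt t := by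
    rw [Real.sqrt_mul (by positivity)]
    refine mul_le_mul_of_nonneg_right ?_ (Real.sqrt_nonneg _)
    rw [Real.sqrt_le_left (by positivity)]
    nlinarith
  have hs0 : 0 ≤ Real.sqrt t := Real.sqrt_nonneg _
  have hsqt : Real.sqrt t * Real.sqrt t = t := Real.mul_self_sqrt ht0.le
  have hAa' : A ≤ a' := by
    rw [ha']
    have h1 : (1 : ℝ) ≤ ((r : ℝ) + 1) ^ 2 := by nlinarith
    nlinarith
  have hb₁' : ZTyp a' b₁ := by
    intro j
    refine (hb₁ j).trans ?_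
    exact mul_le_mul_of_nonneg_right hAa' (Real.sqrt_nonneg _)
  set x : Fin r → ℤ := fun m => (cl b m : ℤ) - (cl b₁ m : ℤ) with hx
  have hxm : ∀ m, |(x m : ℝ)| ≤ a' * Real.sqrt t := by
    intro m
    have h1 := mlo_cl b hb m
    have h2 := mlo_cl b₁ hb₁ m
    have h3 : (x m : ℝ) = ((cl b m : ℝ) - ((m : ℕ) + 1 : ℝ) * t) -
        ((cl b₁ m : ℝ) - ((m : ℕ) + 1 : ℝ) * t) := by
      rw [hx]; push_cast; ring
    rw [h3]
    refine (abs_sub _ _).trans ((add_le_add h1 h2).trans ?_)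
    have h4 : ((r : ℝ) + 1) * (a * Real.sqrt (((r : ℝ) + 1) * t)) +
        ((r : ℝ) + 1) * (A * Real.sqrt (((r : ℝ) + 1) * t)) =
        (((r : ℝ) + 1) * (a + A)) * Real.sqrt (((r : ℝ) + 1) * t) := by ring
    rw [h4]
    calc (((r : ℝ) + 1) * (a + A)) * Real.sqrt (((r : ℝ) + 1) * t)
        ≤ (((r : ℝ) + 1) * (a + A)) * (((r : ℝ) + 1) * Real.sqrt t) := by gcongr
      _ = a' * Real.sqrt t := by rw [ha']; ring
  have hexp := ht₁ t ((le_max_left _ _).trans ht) b₁ hb₁' x hxm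
  have hcl : (fun m : Fin r => (cl b₁ m : ℤ) + x m) = fun m : Fin r => (cl b m : ℤ) := by
    funext m
    rw [hx]
    ring
  rw [hcl] at hexp
  refine le_trans ?_ hexp
  -- the exponent
  have hQ : QF (fun m => (x m : ℝ)) ≤ 2 * r ^ 2 * (a' * Real.sqrt t) ^ 2 :=
    mlo_qf (by positivity) hxm
  have hS : ∑ m, (x m : ℝ) * Dl b₁ m ≤
      r * ((a' * Real.sqrt t) * (2 * (A * (((r : ℝ) + 1) * Real.sqrt t)))) := by
    have h1 : ∀ m, (x m : ℝ) * Dl b₁ m ≤
        (a' * Real.sqrt t) * (2 * (A * (((r : ℝ) + 1) * Real.sqrt t))) := by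
      intro m
      refine (le_abs_self _).trans ?_
      rw [abs_mul]
      refine mul_le_mul (hxm m) ((mlo_dl b₁ hb₁ m).trans ?_) (abs_nonneg _) (by positivity)
      gcongr
    refine (sum_le_sum fun m _ => h1 m).trans ?_
    rw [sum_const, card_univ, Fintype.card_fin, nsmul_eq_mul]
  have hexpo : -1 - C₂ * a ^ 2 ≤
      -1 - (1 / (t : ℝ)) * ((∑ m, (x m : ℝ) * Dl b₁ m) + QF (fun m => (x m : ℝ)) / 2) := by
    have h1 : (∑ m, (x m : ℝ) * Dl b₁ m) + QF (fun m => (x m : ℝ)) / 2 ≤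
        (2 * r * ((r : ℝ) + 1) * A * a' + r ^ 2 * a' ^ 2) * t := by
      have e1 : r * ((a' * Real.sqrt t) * (2 * (A * (((r : ℝ) + 1) * Real.sqrt t)))) =
          2 * r * ((r : ℝ) + 1) * A * a' * t := by
        have : r * ((a' * Real.sqrt t) * (2 * (A * (((r : ℝ) + 1) * Real.sqrt t)))) =
            2 * r * ((r : ℝ) + 1) * A * a' * (Real.sqrt t * Real.sqrt t) := by ring
        rw [this, hsqt]
      have e2 : 2 * (r : ℝ) ^ 2 * (a' * Real.sqrt t) ^ 2 = 2 * (r ^ 2 * a' ^ 2 * t) := by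
        rw [mul_pow, pow_two (Real.sqrt t), hsqt]; ring
      rw [e1] at hS
      rw [e2] at hQ
      linarith
    have h2 : (1 / (t : ℝ)) * ((∑ m, (x m : ℝ) * Dl b₁ m) + QF (fun m => (x m : ℝ)) / 2) ≤
        2 * r * ((r : ℝ) + 1) * A * a' + r ^ 2 * a' ^ 2 := by
      rw [one_div, inv_mul_le_iff₀ ht0]
      linarith
    have h3 : 2 * r * ((r : ℝ) + 1) * A * a' + r ^ 2 * a' ^ 2 ≤ C₂ * a ^ 2 := by
      have e1 : a' ^ 2 ≤ E ^ 2 * a ^ 2 := by
        rw [← mul_pow]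
        exact pow_le_pow_left₀ ha'0.le ha'E 2
      have e2 : a' ≤ E * a ^ 2 := by
        refine ha'E.trans (mul_le_mul_of_nonneg_left ?_ hE0.le)
        rw [pow_two]
        exact le_mul_of_one_le_left (by linarith) ha
      have e3 : 2 * r * ((r : ℝ) + 1) * A * a' ≤ 2 * r * ((r : ℝ) + 1) * A * (E * a ^ 2) := by
        gcongr
      have e4 : (r : ℝ) ^ 2 * a' ^ 2 ≤ r ^ 2 * (E ^ 2 * a ^ 2) := by gcongr
      calc 2 * r * ((r : ℝ) + 1) * A * a' + r ^ 2 * a' ^ 2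
          ≤ 2 * r * ((r : ℝ) + 1) * A * (E * a ^ 2) + r ^ 2 * (E ^ 2 * a ^ 2) := add_le_add e3 e4
        _ = C₂ * a ^ 2 := by rw [hC₂]; ring
    linarith
  have hexp2 : Real.exp (-1) * Real.exp (-(C₂ + 1) * a ^ 2) ≤
      Real.exp (-1 - (1 / (t : ℝ)) * ((∑ m, (x m : ℝ) * Dl b₁ m) +
        QF (fun m => (x m : ℝ)) / 2)) := by
    rw [← Real.exp_add]
    apply Real.exp_le_exp.2
    refine le_trans ?_ hexpo
    nlinarith [sq_nonneg a]
  have hstep : c * Real.exp (-(C₂ + 1) * a ^ 2) * ((r : ℝ) + 1) ^ ((r + 1) * t) / Real.sqrt t ^ r =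
      ((1 / 2 : ℝ) * ((r : ℝ) + 1) ^ ((r + 1) * t) /
        ((8 * ((r : ℝ) + 1) ^ 3 + 3) * Real.sqrt t) ^ r) *
        (Real.exp (-1) * Real.exp (-(C₂ + 1) * a ^ 2)) := by
    rw [hc, mul_pow]
    have : Real.sqrt t ^ r ≠ 0 := by positivity
    field_simp
  rw [hstep]
  exact mul_le_mul hN hexp2 (by positivity) (by positivity)

end MLO

end Pool.Agent.Lib_helper46.CC

namespace Pool.Agent.Lib_helper46.CC

alias nc_lower := nc_lower_pr

end Pool.Agent.Lib_helper46.CC
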