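import Mathlib
import Pool.Agent.Lib_helper46.CCF.WBase
import Pool.Agent.Lib_helper46.CCF.TAG
import Pool.Agent.Lib_helper46.CCF.MLO
import Pool.Agent.Lib_helper46.CCF.MUP

/-! Block NIC, written by helper99. -/

/-! Block NIC: few words with typical counts are not nice. -/

set_option autoImplicit false

namespace Pool.Agent.Lib_helper46.CC

open Finset Pool.Agent.Lib_helper70.Chains
open scoped Classical

/-- the rows that are not nice -/
noncomputable def nic_E (r t D : ℕ) (m : Fin r) : Finset (Fin t → Fin (r + 1)) :=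
  univ.filter (fun u => ¬ Nice r t D
    (univ.filter (fun x => (u x : ℕ) = m ∨ (u x : ℕ) = m + 1))
    ((univ.filter (fun x => (u x : ℕ) = m)).card : ℕ))

theorem nic_sum1 {r t : ℕ} (m : Fin r) (u : Fin t → Fin (r + 1)) (s c : ℝ) :
    ∑ x, ((if u x = m.castSucc then (1 : ℝ) else 0) + s * (if u x = m.succ then 1 else 0) - c) =
      ((univ.filter (fun x => (u x : ℕ) = m)).card : ℝ) +
        s * ((univ.filter (fun x => (u x : ℕ) = m + 1)).card : ℝ) - t * c := by
  rw [Finset.sum_sub_distrib, Finset.sum_add_distrib, ← Finset.mul_sum, Finset.sum_boole,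
    Finset.sum_boole, Finset.sum_const, Finset.card_univ, Fintype.card_fin, nsmul_eq_mul]
  have h1 : (univ.filter (fun x => u x = m.castSucc)) = univ.filter (fun x => (u x : ℕ) = m) := by
    ext x
    simp [Fin.ext_iff]
  have h2 : (univ.filter (fun x => u x = m.succ)) = univ.filter (fun x => (u x : ℕ) = m + 1) := by
    ext x
    simp [Fin.ext_iff]
  rw [h1, h2]

theorem nic_sum2 {r : ℕ} (m : Fin r) (s c : ℝ) :
    ∑ j : Fin (r + 1), ((if j = m.castSucc then (1 : ℝ) else 0) +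
      s * (if j = m.succ then 1 else 0) - c) = 1 + s - (r + 1) * c := by
  rw [Finset.sum_sub_distrib, Finset.sum_add_distrib, ← Finset.mul_sum, Finset.sum_ite_eq',
    Finset.sum_ite_eq', Finset.sum_const, Finset.card_univ, Fintype.card_fin, nsmul_eq_mul]
  simp

theorem nic_T {r t : ℕ} (m : Fin r) (u : Fin t → Fin (r + 1)) :
    (univ.filter (fun x => (u x : ℕ) = m ∨ (u x : ℕ) = m + 1)).card =
      (univ.filter (fun x => (u x : ℕ) = m)).card +
        (univ.filter (fun x => (u x : ℕ) = m + 1)).card := by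
  rw [Finset.filter_or, Finset.card_union_of_disjoint]
  rw [Finset.disjoint_filter]
  intro x _ h h'
  omega

theorem nic_card (r : ℕ) (hr : 1 ≤ r) (b : ℝ) (hb : 1 ≤ b) (t D : ℕ) (m : Fin r)
    (hD : b * Real.sqrt t ≤ D) (ht : b ^ 2 * ((r : ℝ) + 1) ^ 2 ≤ t) :
    ((nic_E r t D m).card : ℝ) ≤ 4 * Real.exp (-b ^ 2 / 4) * ((r : ℝ) + 1) ^ t := by
  set φ1 : Fin (r + 1) → ℝ := fun j => (if j = m.castSucc then (1 : ℝ) else 0) +
      (-1) * (if j = m.succ then 1 else 0) - 0 with hφ1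
  set φ2 : Fin (r + 1) → ℝ := fun j => (if j = m.castSucc then (1 : ℝ) else 0) +
      1 * (if j = m.succ then 1 else 0) - 2 / (r + 1) with hφ2
  have hr1 : (1 : ℝ) ≤ r := by exact_mod_cast hr
  have hR : (0 : ℝ) < (r : ℝ) + 1 := by positivity
  have hne : m.castSucc ≠ m.succ := by
    intro h
    have := congrArg Fin.val h
    simp at this
  have h01 : ∑ j, φ1 j = 0 := by
    rw [hφ1, nic_sum2]; ring
  have h02 : ∑ j, φ2 j = 0 := by
    rw [hφ2, nic_sum2]
    field_simp
    ring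
  have h11 : ∀ j, |φ1 j| ≤ 1 := by
    intro j
    simp only [hφ1]
    by_cases h1 : j = m.castSucc
    · rw [if_pos h1, if_neg (by rw [h1]; exact hne)]
      norm_num
    · rw [if_neg h1]
      split_ifs <;> norm_num
  have hc : 0 < 2 / ((r : ℝ) + 1) := by positivity
  have hc1 : 2 / ((r : ℝ) + 1) ≤ 1 := by
    rw [div_le_one hR]
    linarith
  have h12 : ∀ j, |φ2 j| ≤ 1 := by
    intro j
    simp only [hφ2]
    rw [abs_le]
    by_cases h1 : j = m.castSucc
    · rw [if_pos h1, if_neg (by rw [h1]; exact hne)]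
      constructor <;> linarith
    · rw [if_neg h1]
      split_ifs <;> constructor <;> linarith
  have hA2 : 0 ≤ Real.sqrt t / (r + 1) := by positivity
  have hT1 := tail (ι := Fin t) φ1 h01 h11 b (by linarith)
  have hT2 := tail (ι := Fin t) φ2 h02 h12 (Real.sqrt t / (r + 1)) hA2
  rw [Fintype.card_fin] at hT1 hT2
  have hsub : nic_E r t D m ⊆
      univ.filter (fun u : Fin t → Fin (r + 1) => b * Real.sqrt t < |∑ x, φ1 (u x)|) ∪
      univ.filter (fun u : Fin t → Fin (r + 1) =>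
        Real.sqrt t / (r + 1) * Real.sqrt t < |∑ x, φ2 (u x)|) := by
    intro u hu
    unfold nic_E at hu
    rw [Finset.mem_filter] at hu
    unfold Nice at hu
    rw [not_and_or, nic_T] at hu
    rw [Finset.mem_union, Finset.mem_filter, Finset.mem_filter]
    obtain ⟨-, hu⟩ := hu
    set c1 := (univ.filter (fun x => (u x : ℕ) = m)).card with hc1
    set c2 := (univ.filter (fun x => (u x : ℕ) = m + 1)).card with hc2
    rcases hu with hu | hu
    · left
      refine ⟨mem_univ _, ?_⟩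
      rw [hφ1, nic_sum1 m u (-1) 0, ← hc1, ← hc2]
      have h2 : (D : ℤ) < |2 * (c1 : ℤ) - ((c1 + c2 : ℕ) : ℤ)| := not_le.mp hu
      have h3 : (D : ℝ) < |2 * (c1 : ℝ) - ((c1 : ℝ) + c2)| := by exact_mod_cast h2
      have h4 : 2 * (c1 : ℝ) - ((c1 : ℝ) + c2) = (c1 : ℝ) + -1 * (c2 : ℝ) - t * 0 := by ring
      rw [h4] at h3
      linarith
    · right
      refine ⟨mem_univ _, ?_⟩
      rw [hφ2, nic_sum1 m u 1 (2 / (r + 1)), ← hc1, ← hc2]
      have h2 : (r + 1) * (c1 + c2) < t := not_le.mp hu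
      have h3 : ((r : ℝ) + 1) * ((c1 : ℝ) + c2) < t := by exact_mod_cast h2
      have h4 : Real.sqrt t / (r + 1) * Real.sqrt t = t / (r + 1) := by
        rw [div_mul_eq_mul_div, Real.mul_self_sqrt (Nat.cast_nonneg t)]
      rw [h4, lt_abs]
      right
      have h5 : (c1 : ℝ) + c2 < t / (r + 1) := by
        rw [lt_div_iff₀ hR]
        linarith
      have h6 : (t : ℝ) * (2 / (r + 1)) = 2 * (t / (r + 1)) := by ring
      rw [h6]
      linarith
  have h2 : ((nic_E r t D m).card : ℝ) ≤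
      ((univ.filter (fun u : Fin t → Fin (r + 1) =>
        b * Real.sqrt t < |∑ x, φ1 (u x)|)).card : ℝ) +
      ((univ.filter (fun u : Fin t → Fin (r + 1) =>
        Real.sqrt t / (r + 1) * Real.sqrt t < |∑ x, φ2 (u x)|)).card : ℝ) := by
    exact_mod_cast (Finset.card_le_card hsub).trans (Finset.card_union_le _ _)
  have h3 : Real.exp (-(Real.sqrt t / (r + 1)) ^ 2 / 4) ≤ Real.exp (-b ^ 2 / 4) := by
    apply Real.exp_le_exp.mpr
    have h4 : (Real.sqrt t / (r + 1)) ^ 2 = t / (r + 1) ^ 2 := by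
      rw [div_pow, Real.sq_sqrt (Nat.cast_nonneg t)]
    have h5 : b ^ 2 ≤ t / ((r : ℝ) + 1) ^ 2 := by
      rw [le_div_iff₀ (by positivity)]
      exact ht
    rw [h4]
    linarith
  have h4 : (0 : ℝ) < ((r : ℝ) + 1) ^ t := by positivity
  have h5 : 2 * Real.exp (-(Real.sqrt t / (r + 1)) ^ 2 / 4) * ((r : ℝ) + 1) ^ t ≤
      2 * Real.exp (-b ^ 2 / 4) * ((r : ℝ) + 1) ^ t :=
    mul_le_mul_of_nonneg_right (by linarith) h4.le
  calc ((nic_E r t D m).card : ℝ) ≤ _ := h2
    _ ≤ 2 * Real.exp (-b ^ 2 / 4) * ((r : ℝ) + 1) ^ t +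
        2 * Real.exp (-b ^ 2 / 4) * ((r : ℝ) + 1) ^ t := add_le_add hT1 (hT2.trans h5)
    _ = _ := by ring

/-- the positions outside row `m` -/
abbrev nic_R (r t : ℕ) (m : Fin r) := {j : Fin (r + 1) // j ≠ m.castSucc} × Fin t

theorem nic_cl {r t : ℕ} (m : Fin r) (b : PW r t) (m' : Fin r) :
    cl b m' = cl (fun x : Fin t => b (m.castSucc, x)) m' +
      cl (fun y : nic_R r t m => b (y.1.1, y.2)) m' := by
  unfold cl
  rw [Finset.card_filter, Finset.card_filter, Finset.card_filter, Fintype.sum_prod_type,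
    Fintype.sum_prod_type, Fintype.sum_eq_add_sum_subtype_ne _ m.castSucc]

theorem nic_cardR (r t : ℕ) (m : Fin r) : Fintype.card (nic_R r t m) = r * t := by
  rw [Fintype.card_prod, Fintype.card_fin, Fintype.card_subtype_compl, Fintype.card_fin,
    Fintype.card_subtype_eq]
  simp

theorem nic_count {r t D : ℕ} (m : Fin r) (b0 : PW r t) (C : ℝ)
    (hC : ∀ g : Fin r → ℤ, (NC (nic_R r t m) g : ℝ) ≤ C) :
    ((univ.filter (fun b' : PW r t => (∀ m', cl b' m' = cl b0 m') ∧
        ¬ Nice r t D (Tr b' m) (Sr b' m).card)).card : ℝ) ≤ (nic_E r t D m).card * C := by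
  set S := univ.filter (fun b' : PW r t => (∀ m', cl b' m' = cl b0 m') ∧
        ¬ Nice r t D (Tr b' m) (Sr b' m).card) with hS
  have hmap : ∀ b' ∈ S, (fun x : Fin t => b' (m.castSucc, x)) ∈ nic_E r t D m := by
    intro b' hb'
    rw [hS, Finset.mem_filter] at hb'
    unfold nic_E
    rw [Finset.mem_filter]
    exact ⟨mem_univ _, hb'.2.2⟩
  have h1 : S.card = ∑ u ∈ nic_E r t D m,
      (S.filter (fun b' => (fun x : Fin t => b' (m.castSucc, x)) = u)).card :=
    Finset.card_eq_sum_card_fiberwise hmap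
  have h2 : ∀ u ∈ nic_E r t D m,
      ((S.filter (fun b' => (fun x : Fin t => b' (m.castSucc, x)) = u)).card : ℝ) ≤ C := by
    intro u _
    refine le_trans ?_ (hC (fun m' => (cl b0 m' : ℤ) - cl u m'))
    unfold NC
    rw [Nat.cast_le]
    refine Finset.card_le_card_of_injOn (fun b' => fun y : nic_R r t m => b' (y.1.1, y.2)) ?_ ?_
    · intro b' hb'
      rw [Finset.mem_coe, Finset.mem_filter, hS, Finset.mem_filter] at hb'
      rw [Finset.mem_coe, Finset.mem_filter]
      refine ⟨mem_univ _, fun m' => ?_⟩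
      have h3 := nic_cl m b' m'
      rw [hb'.2, hb'.1.2.1 m'] at h3
      show ((cl (fun y : nic_R r t m => b' (y.1.1, y.2)) m' : ℕ) : ℤ) = (cl b0 m' : ℤ) - cl u m'
      rw [h3]
      push_cast
      ring
    · intro b' hb' b'' hb'' h
      rw [Finset.mem_coe, Finset.mem_filter] at hb' hb''
      funext x
      by_cases hx : x.1 = m.castSucc
      · have e1 := congrFun hb'.2 x.2
        have e2 := congrFun hb''.2 x.2
        have e3 : x = (m.castSucc, x.2) := Prod.ext hx rfl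
        rw [e3]
        exact e1.trans e2.symm
      · exact congrFun h (⟨x.1, hx⟩, x.2)
  rw [h1]
  push_cast
  calc ∑ u ∈ nic_E r t D m,
        ((S.filter (fun b' => (fun x : Fin t => b' (m.castSucc, x)) = u)).card : ℝ) ≤
        ∑ u ∈ nic_E r t D m, C := Finset.sum_le_sum h2
    _ = _ := by rw [Finset.sum_const, nsmul_eq_mul]

theorem nice_frac_pr (r : ℕ) (hr : 1 ≤ r) : ∃ C : ℝ, 0 < C ∧ ∀ a b : ℝ, 1 ≤ a → 1 ≤ b →
    ∃ t1 : ℕ, ∀ t ≥ t1, ∀ D : ℕ, b * Real.sqrt t ≤ D → ∀ b0 : PW r t, ZTyp a b0 → ∀ m : Fin r,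
      ((univ.filter (fun b' : PW r t => (∀ m', cl b' m' = cl b0 m') ∧
          ¬ Nice r t D (Tr b' m) (Sr b' m).card)).card : ℝ) ≤
        C * Real.exp (C * a ^ 2 - b ^ 2 / C) *
          ((univ.filter (fun b' : PW r t => ∀ m', cl b' m' = cl b0 m')).card : ℝ) := by
  obtain ⟨CU, hCU, hU⟩ := nc_upper r
  obtain ⟨c, CL, hc, hCL, hL⟩ := nc_lower r
  set C : ℝ := max (max 4 CL) (4 * CU / c) with hCdef
  have hC4 : 4 ≤ C := (le_max_left _ _).trans (le_max_left _ _)
  have hCC : CL ≤ C := (le_max_right _ _).trans (le_max_left _ _)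
  have hCU' : 4 * CU / c ≤ C := le_max_right _ _
  have hC0 : 0 < C := by linarith
  refine ⟨C, hC0, fun a b ha hb => ?_⟩
  obtain ⟨t1, ht1⟩ := hL a ha
  refine ⟨max (max t1 1) ⌈b ^ 2 * ((r : ℝ) + 1) ^ 2⌉₊, fun t ht D hD b0 hb0 m => ?_⟩
  have htt1 : t1 ≤ t := le_trans (le_trans (le_max_left _ _) (le_max_left _ _)) ht
  have ht1' : 1 ≤ t := le_trans (le_trans (le_max_right _ _) (le_max_left _ _)) ht
  have htb : b ^ 2 * ((r : ℝ) + 1) ^ 2 ≤ t := by
    have h1 : ⌈b ^ 2 * ((r : ℝ) + 1) ^ 2⌉₊ ≤ t := le_trans (le_max_right _ _) ht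
    exact (Nat.le_ceil _).trans (by exact_mod_cast h1)
  have ht0 : (0 : ℝ) < t := by exact_mod_cast ht1'
  have hr1 : (1 : ℝ) ≤ r := by exact_mod_cast hr
  have hst : 0 < Real.sqrt t := Real.sqrt_pos.mpr ht0
  have hE := nic_card r hr b hb t D m hD htb
  -- upper bound for the rest
  have hCR : ∀ g : Fin r → ℤ, (NC (nic_R r t m) g : ℝ) ≤
      CU * ((r : ℝ) + 1) ^ (r * t) / Real.sqrt t ^ r := by
    intro g
    have h1 := hU (nic_R r t m) g (by rw [nic_cardR]; positivity)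
    rw [nic_cardR] at h1
    refine h1.trans ?_
    apply div_le_div_of_nonneg_left (by positivity) (by positivity)
    apply pow_le_pow_left₀ hst.le
    apply Real.sqrt_le_sqrt
    push_cast
    nlinarith
  have hcount := nic_count (D := D) m b0 _ hCR
  have hlow := ht1 t htt1 b0 hb0
  have hNC : (NC (Pos r t) (fun m : Fin r => (cl b0 m : ℤ)) : ℝ) =
      ((univ.filter (fun b' : PW r t => ∀ m', cl b' m' = cl b0 m')).card : ℝ) := by
    unfold NC
    congr 2
    ext b'
    simp only [mem_filter, mem_univ, true_and, Nat.cast_inj]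
  rw [hNC] at hlow
  refine hcount.trans ?_
  set NB : ℝ := ((univ.filter (fun b' : PW r t => ∀ m', cl b' m' = cl b0 m')).card : ℝ) with hNB
  have h2 : ((nic_E r t D m).card : ℝ) * (CU * ((r : ℝ) + 1) ^ (r * t) / Real.sqrt t ^ r) ≤
      (4 * Real.exp (-b ^ 2 / 4) * ((r : ℝ) + 1) ^ t) *
        (CU * ((r : ℝ) + 1) ^ (r * t) / Real.sqrt t ^ r) :=
    mul_le_mul_of_nonneg_right hE (by positivity)
  refine h2.trans ?_
  have h3 : (4 * Real.exp (-b ^ 2 / 4) * ((r : ℝ) + 1) ^ t) *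
        (CU * ((r : ℝ) + 1) ^ (r * t) / Real.sqrt t ^ r) =
      (4 * CU / c) * Real.exp (CL * a ^ 2 - b ^ 2 / 4) *
        (c * Real.exp (-CL * a ^ 2) * ((r : ℝ) + 1) ^ ((r + 1) * t) / Real.sqrt t ^ r) := by
    have h4 : Real.exp (CL * a ^ 2 - b ^ 2 / 4) * Real.exp (-CL * a ^ 2) =
        Real.exp (-b ^ 2 / 4) := by
      rw [← Real.exp_add]
      congr 1
      ring
    have h5 : ((r : ℝ) + 1) ^ ((r + 1) * t) = ((r : ℝ) + 1) ^ t * ((r : ℝ) + 1) ^ (r * t) := by
      rw [← pow_add]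
      congr 1
      ring
    rw [h5, ← h4]
    field_simp
  rw [h3]
  have h6 : Real.exp (CL * a ^ 2 - b ^ 2 / 4) ≤ Real.exp (C * a ^ 2 - b ^ 2 / C) := by
    apply Real.exp_le_exp.mpr
    have h7 : CL * a ^ 2 ≤ C * a ^ 2 := mul_le_mul_of_nonneg_right hCC (sq_nonneg a)
    have h8 : b ^ 2 / C ≤ b ^ 2 / 4 :=
      div_le_div_of_nonneg_left (sq_nonneg b) (by norm_num) hC4
    linarith
  exact mul_le_mul (mul_le_mul hCU' h6 (Real.exp_pos _).le hC0.le) hlow (by positivity)
    (by positivity)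

end Pool.Agent.Lib_helper46.CC

namespace Pool.Agent.Lib_helper46.CC

alias nice_frac := nice_frac_pr

end Pool.Agent.Lib_helper46.CC
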