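import Mathlib
import Pool.Agent.Lib_helper46.CCF.WBase
import Pool.Agent.Lib_helper46.CCF.EXP
import Pool.Agent.Lib_helper46.CCF.MSP
import Pool.Agent.Lib_helper46.CCF.NIC

/-! Block AWL, written by helper99. -/

/-! Block AWL: lower bound for the averages of `Wid`. -/

set_option autoImplicit false

namespace Pool.Agent.Lib_helper46.CC

open Finset Pool.Agent.Lib_helper70.Chains
open scoped Classical

theorem awl_asym (C A ε : ℝ) (hC : 0 < C) (hε : 0 < ε) :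
    ∃ q0 : ℕ, ∀ q ≥ q0, (q : ℝ) ^ 14 * Real.exp (A * (q : ℝ) ^ 16 - (q : ℝ) ^ 20 / C) ≤ ε ∧
      (q : ℝ) ^ 14 * Real.exp (A * (q : ℝ) ^ 2 - (q : ℝ) ^ 4 / C) ≤ ε := by
  have h1 := (Real.tendsto_pow_mul_exp_neg_atTop_nhds_zero 14).comp tendsto_natCast_atTop_atTop
  have h2 := (h1.eventually (ge_mem_nhds hε)).and
    (Filter.eventually_ge_atTop (⌈C * (A + 1)⌉₊ + 1))
  obtain ⟨q0, h3⟩ := Filter.eventually_atTop.mp h2
  refine ⟨q0, fun q hq => ?_⟩
  obtain ⟨h4, h5⟩ := h3 q hq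
  simp only [Function.comp] at h4
  have hq1 : (1 : ℝ) ≤ q := by
    have : 1 ≤ q := by omega
    exact_mod_cast this
  have hqC : C * (A + 1) ≤ q := by
    have h6 : ⌈C * (A + 1)⌉₊ ≤ q := by omega
    exact (Nat.le_ceil _).trans (by exact_mod_cast h6)
  have hq2 : (q : ℝ) ≤ (q : ℝ) ^ 2 := by nlinarith
  have hq0 : (0 : ℝ) < q := by linarith
  have hq4 : (q : ℝ) ^ 2 ≤ (q : ℝ) ^ 4 := by
    have : (1 : ℝ) ≤ (q : ℝ) ^ 2 := by nlinarith
    nlinarith [sq_nonneg ((q : ℝ) ^ 2)]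
  have e1 : (A + 1) * (q : ℝ) ^ 16 ≤ (q : ℝ) ^ 20 / C := by
    rw [le_div_iff₀ hC]
    have h6 : C * (A + 1) ≤ (q : ℝ) ^ 4 := by linarith
    have h7 : (0 : ℝ) ≤ (q : ℝ) ^ 16 := by positivity
    calc (A + 1) * (q : ℝ) ^ 16 * C = (C * (A + 1)) * (q : ℝ) ^ 16 := by ring
      _ ≤ (q : ℝ) ^ 4 * (q : ℝ) ^ 16 := mul_le_mul_of_nonneg_right h6 h7
      _ = _ := by ring
  have e2 : (A + 1) * (q : ℝ) ^ 2 ≤ (q : ℝ) ^ 4 / C := by
    rw [le_div_iff₀ hC]
    have h6 : C * (A + 1) ≤ (q : ℝ) ^ 2 := by linarith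
    have h7 : (0 : ℝ) ≤ (q : ℝ) ^ 2 := by positivity
    calc (A + 1) * (q : ℝ) ^ 2 * C = (C * (A + 1)) * (q : ℝ) ^ 2 := by ring
      _ ≤ (q : ℝ) ^ 2 * (q : ℝ) ^ 2 := mul_le_mul_of_nonneg_right h6 h7
      _ = _ := by ring
  have h16 : (q : ℝ) ≤ (q : ℝ) ^ 16 := by
    calc (q : ℝ) = (q : ℝ) ^ 1 := (pow_one _).symm
      _ ≤ _ := pow_le_pow_right₀ hq1 (by norm_num)
  have h14 : (0 : ℝ) ≤ (q : ℝ) ^ 14 := by positivity
  constructor
  · refine le_trans (mul_le_mul_of_nonneg_left (Real.exp_le_exp.mpr ?_) h14) h4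
    linarith
  · refine le_trans (mul_le_mul_of_nonneg_left (Real.exp_le_exp.mpr ?_) h14) h4
    linarith

/-- `1 - u ≥ exp (-2u)` -/
theorem awl_exp {u : ℝ} (h0 : 0 ≤ u) (h1 : u ≤ 1 / 2) : Real.exp (-(2 * u)) ≤ 1 - u := by
  have h2 : 0 < 1 - u := by linarith
  have h3 : 1 / (1 - u) ≤ Real.exp (2 * u) := by
    have h4 := Real.add_one_le_exp (2 * u)
    have h5 : 1 / (1 - u) ≤ 2 * u + 1 := by
      rw [div_le_iff₀ h2]
      nlinarith
    linarith
  rw [Real.exp_neg]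
  rw [one_div] at h3
  have h6 := inv_anti₀ (inv_pos.mpr h2) h3
  rwa [inv_inv] at h6

theorem awl_split {ι : Type} [Fintype ι] {r : ℕ} (b : ι → Fin (r + 1)) (j : Fin (r + 1)) :
    (univ.filter (fun x => (b x : ℕ) ≤ j)).card =
      ct b j + (univ.filter (fun x => (b x : ℕ) < j)).card := by
  unfold ct
  rw [← Finset.card_union_of_disjoint]
  · congr 1
    ext x
    simp only [mem_filter, mem_univ, true_and, mem_union, Fin.ext_iff]
    omega
  · rw [Finset.disjoint_filter]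
    intro x _ hx hx'
    rw [hx] at hx'
    omega

/-- the counts of letters change by at most twice the bound -/
theorem awl_ct {ι : Type} [Fintype ι] {r : ℕ} (b b0 : ι → Fin (r + 1)) (x : Fin r → ℤ) {Y : ℝ}
    (hY : 0 ≤ Y) (hx : ∀ m, |(x m : ℝ)| ≤ Y) (h : ∀ m, (cl b0 m : ℤ) = cl b m + x m)
    (j : Fin (r + 1)) : |(ct b0 j : ℝ) - ct b j| ≤ 2 * Y := by
  have h1 : ∀ n : ℕ, |((univ.filter (fun x => (b0 x : ℕ) ≤ n)).card : ℝ) -
      ((univ.filter (fun x => (b x : ℕ) ≤ n)).card : ℝ)| ≤ Y := by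
    intro n
    by_cases hn : n < r
    · have h2 := h ⟨n, hn⟩
      unfold cl at h2
      have h3 : ((univ.filter (fun x => (b0 x : ℕ) ≤ n)).card : ℝ) =
          ((univ.filter (fun x => (b x : ℕ) ≤ n)).card : ℝ) + x ⟨n, hn⟩ := by exact_mod_cast h2
      rw [h3, add_sub_cancel_left]
      exact hx _
    · rw [Finset.filter_true_of_mem, Finset.filter_true_of_mem, sub_self, abs_zero]
      · exact hY
      · intro x _
        have := (b x).isLt
        omega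
      · intro x _
        have := (b0 x).isLt
        omega
  have h3 : |((univ.filter (fun x => (b0 x : ℕ) < j)).card : ℝ) -
      ((univ.filter (fun x => (b x : ℕ) < j)).card : ℝ)| ≤ Y := by
    rcases Nat.eq_zero_or_pos (j : ℕ) with h0 | h0
    · rw [h0]
      simpa using hY
    · have h4 : ∀ c : ι → Fin (r + 1), (univ.filter (fun x => (c x : ℕ) < j)) =
          (univ.filter (fun x => (c x : ℕ) ≤ (j : ℕ) - 1)) := by
        intro c
        ext x
        simp only [mem_filter, mem_univ, true_and]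
        omega
      rw [h4, h4]
      exact h1 _
  have h5 : ((univ.filter (fun x => (b x : ℕ) ≤ j)).card : ℝ) =
      ct b j + ((univ.filter (fun x => (b x : ℕ) < j)).card : ℝ) := by
    exact_mod_cast awl_split b j
  have h6 : ((univ.filter (fun x => (b0 x : ℕ) ≤ j)).card : ℝ) =
      ct b0 j + ((univ.filter (fun x => (b0 x : ℕ) < j)).card : ℝ) := by
    exact_mod_cast awl_split b0 j
  have h7 := h1 j
  rw [h5, h6] at h7
  rw [abs_le] at h3 h7 ⊢
  constructor <;> linarith [h3.1, h3.2, h7.1, h7.2]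

theorem awl_core (r : ℕ) (hr : 1 ≤ r) : ∃ C : ℝ, 0 < C ∧ ∀ a β η : ℝ, 1 ≤ a → 1 ≤ β → 0 < η →
    ∃ t1 : ℕ, ∀ t ≥ t1, ∀ D : ℕ, β * Real.sqrt t ≤ D → ∀ b : PW r t, ZTyp a b →
      ∀ x : Fin r → ℤ, (∀ m, |(x m : ℝ)| ≤ a * Real.sqrt t) → ∀ P : Fin r → Prop,
      (NC (Pos r t) (fun m : Fin r => (cl b m : ℤ)) : ℝ) *
          Real.exp (-η - (1 / (t : ℝ)) * ((∑ m, (x m : ℝ) * Dl b m) +
            QF (fun m => (x m : ℝ)) / 2)) * (1 - r * (C * Real.exp (C * (3 * a) ^ 2 - β ^ 2 / C))) ≤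
        ((univ.filter (fun b' : PW r t => (∀ m, P m ∨ Nice r t D (Tr b' m) (Sr b' m).card) ∧
          ∀ m, (cl b' m : ℤ) = cl b m + x m)).card : ℝ) := by
  obtain ⟨C, hC, hN⟩ := nice_frac r hr
  refine ⟨C, hC, fun a β η ha hβ hη => ?_⟩
  obtain ⟨t1, h1⟩ := hN (3 * a) β (by linarith) hβ
  obtain ⟨t2, h2⟩ := exp_lb r a η (by linarith) hη
  refine ⟨max t1 t2, fun t ht D hD b hb x hx P => ?_⟩
  have h3 := h2 t (le_trans (le_max_right _ _) ht) b hb x hx
  set N1 : ℝ := (NC (Pos r t) (fun m : Fin r => (cl b m : ℤ) + x m) : ℝ) with hN1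
  set L : ℝ := (NC (Pos r t) (fun m : Fin r => (cl b m : ℤ)) : ℝ) *
          Real.exp (-η - (1 / (t : ℝ)) * ((∑ m, (x m : ℝ) * Dl b m) +
            QF (fun m => (x m : ℝ)) / 2)) with hL
  have hNC : 0 < (NC (Pos r t) (fun m : Fin r => (cl b m : ℤ)) : ℝ) := by
    unfold NC
    rw [Nat.cast_pos, Finset.card_pos]
    exact ⟨b, by rw [Finset.mem_filter]; exact ⟨mem_univ _, fun m => rfl⟩⟩
  have hLpos : 0 < L := mul_pos hNC (Real.exp_pos _)
  have hN1pos : 0 < N1 := lt_of_lt_of_le hLpos h3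
  obtain ⟨b0, hb0⟩ : ∃ b0 : PW r t, ∀ m, (cl b0 m : ℤ) = cl b m + x m := by
    rw [hN1] at hN1pos
    unfold NC at hN1pos
    rw [Nat.cast_pos, Finset.card_pos] at hN1pos
    obtain ⟨b0, hb0⟩ := hN1pos
    rw [Finset.mem_filter] at hb0
    exact ⟨b0, hb0.2⟩
  have hst : 0 ≤ Real.sqrt t := Real.sqrt_nonneg _
  have hz : ZTyp (3 * a) b0 := by
    intro j
    have h4 := hb j
    have h5 := awl_ct b b0 x (mul_nonneg (by linarith) hst) hx hb0 j
    have h6 : Real.sqrt t ≤ Real.sqrt (Fintype.card (Pos r t)) := by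
      apply Real.sqrt_le_sqrt
      rw [Fintype.card_prod, Fintype.card_fin, Fintype.card_fin]
      push_cast
      have : (0 : ℝ) ≤ (r : ℝ) * t := by positivity
      nlinarith
    have h7 : a * Real.sqrt t ≤ a * Real.sqrt (Fintype.card (Pos r t)) :=
      mul_le_mul_of_nonneg_left h6 (by linarith)
    rw [abs_le] at h4 h5 ⊢
    constructor <;> linarith [h4.1, h4.2, h5.1, h5.2]
  have h4 := h1 t (le_trans (le_max_left _ _) ht) D hD b0 hz
  set Sall := univ.filter (fun b' : PW r t => ∀ m', cl b' m' = cl b0 m') with hSall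
  have hcl : ∀ b' : PW r t, (∀ m, (cl b' m : ℤ) = cl b m + x m) ↔ ∀ m', cl b' m' = cl b0 m' := by
    intro b'
    refine forall_congr' (fun m => ?_)
    rw [← hb0 m]
    exact Nat.cast_inj
  have h5 : N1 = (Sall.card : ℝ) := by
    rw [hN1, hSall]
    unfold NC
    congr 2
    ext b'
    simp only [mem_filter, mem_univ, true_and]
    exact hcl b'
  set G := univ.filter (fun b' : PW r t => (∀ m, P m ∨ Nice r t D (Tr b' m) (Sr b' m).card) ∧
          ∀ m, (cl b' m : ℤ) = cl b m + x m) with hG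
  set Bd : Fin r → Finset (PW r t) := fun m => univ.filter (fun b' : PW r t =>
      (∀ m', cl b' m' = cl b0 m') ∧ ¬ Nice r t D (Tr b' m) (Sr b' m).card) with hBd
  have h6 : Sall ⊆ G ∪ univ.biUnion Bd := by
    intro b' hb'
    rw [hSall, Finset.mem_filter] at hb'
    rw [Finset.mem_union]
    by_cases h7 : ∀ m, P m ∨ Nice r t D (Tr b' m) (Sr b' m).card
    · left
      rw [hG, Finset.mem_filter]
      exact ⟨mem_univ _, h7, (hcl b').mpr hb'.2⟩
    · right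
      push Not at h7
      obtain ⟨m, -, h8⟩ := h7
      rw [Finset.mem_biUnion]
      refine ⟨m, mem_univ _, ?_⟩
      rw [hBd, Finset.mem_filter]
      exact ⟨mem_univ _, hb'.2, h8⟩
  have h7 : (Sall.card : ℝ) ≤ (G.card : ℝ) + ∑ m, ((Bd m).card : ℝ) := by
    have h8 : Sall.card ≤ G.card + ∑ m, (Bd m).card :=
      (Finset.card_le_card h6).trans ((Finset.card_union_le _ _).trans
        (Nat.add_le_add_left Finset.card_biUnion_le _))
    exact_mod_cast h8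
  set e : ℝ := C * Real.exp (C * (3 * a) ^ 2 - β ^ 2 / C) with he
  have h8 : ∑ m, ((Bd m).card : ℝ) ≤ r * (e * N1) := by
    calc ∑ m, ((Bd m).card : ℝ) ≤ ∑ _m : Fin r, e * N1 := by
          refine Finset.sum_le_sum (fun m _ => ?_)
          rw [h5]
          exact h4 m
      _ = _ := by rw [Finset.sum_const, Finset.card_univ, Fintype.card_fin, nsmul_eq_mul]
  have h9 : N1 * (1 - r * e) ≤ (G.card : ℝ) := by
    rw [← h5] at h7
    linarith
  by_cases h10 : 0 ≤ 1 - r * e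
  · exact (mul_le_mul_of_nonneg_right h3 h10).trans h9
  · have h11 : L * (1 - r * e) ≤ 0 :=
      mul_nonpos_of_nonneg_of_nonpos hLpos.le (le_of_lt (not_le.mp h10))
    exact h11.trans (Nat.cast_nonneg _)

theorem awl_n {r q n t z y h : ℕ} {K : ℝ} (hq : 2 ≤ q) (hR : Reg r q K n t z y h) :
    (n : ℝ) ≤ 2 * (q : ℝ) ^ 16 * (r + 1) * t := by
  have h1 : (n : ℝ) = y + r * z + (q : ℝ) ^ 16 * ((r + 1) * t) := by exact_mod_cast hR.sum
  have h2 : (q : ℝ) ^ 4 * y ≤ 2 * n := by exact_mod_cast hR.y_le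
  have h3 : (q : ℝ) ^ 4 * (r * z) ≤ 2 * n := by exact_mod_cast hR.z_le
  have hq2 : (2 : ℝ) ≤ q := by exact_mod_cast hq
  have h4 : (16 : ℝ) ≤ (q : ℝ) ^ 4 := by
    calc (16 : ℝ) = 2 ^ 4 := by norm_num
      _ ≤ _ := pow_le_pow_left₀ (by norm_num) hq2 4
  have hy : (0 : ℝ) ≤ y := Nat.cast_nonneg _
  have hz : (0 : ℝ) ≤ r * z := by positivity
  nlinarith

theorem awl_h {r q n t z y h : ℕ} {K : ℝ} (hK : 0 < K) (hq : 2 ≤ q) (hR : Reg r q K n t z y h)
    (ht : q ^ 12 ≤ t) :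
    (q : ℝ) ^ 14 * h ≤ (2 * K * (r + 1) + 1) * (q : ℝ) ^ 8 * Real.sqrt t := by
  have h1 := hR.h_le
  have h2 := awl_n hq hR
  have hq0 : (0 : ℝ) ≤ q := Nat.cast_nonneg _
  have h3 : Real.sqrt n ≤ (q : ℝ) ^ 8 * (2 * (r + 1)) * Real.sqrt t := by
    apply Real.sqrt_le_iff.mpr
    refine ⟨by positivity, ?_⟩
    rw [mul_pow, Real.sq_sqrt (Nat.cast_nonneg t), mul_pow]
    have h4 : (2 : ℝ) * (r + 1) ≤ (2 * (r + 1)) ^ 2 := by
      have : (0 : ℝ) ≤ r := Nat.cast_nonneg _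
      nlinarith
    calc (n : ℝ) ≤ 2 * (q : ℝ) ^ 16 * (r + 1) * t := h2
      _ = ((q : ℝ) ^ 8) ^ 2 * (2 * (r + 1)) * t := by ring
      _ ≤ ((q : ℝ) ^ 8) ^ 2 * (2 * (r + 1)) ^ 2 * t := by
          apply mul_le_mul_of_nonneg_right _ (Nat.cast_nonneg t)
          exact mul_le_mul_of_nonneg_left h4 (by positivity)
  have h5 : (q : ℝ) ^ 6 ≤ Real.sqrt t := by
    apply Real.le_sqrt_of_sq_le
    have : (q : ℝ) ^ 12 ≤ t := by exact_mod_cast ht
    calc ((q : ℝ) ^ 6) ^ 2 = (q : ℝ) ^ 12 := by ring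
      _ ≤ (t : ℝ) := this
  have h6 : (q : ℝ) ^ 14 ≤ (q : ℝ) ^ 8 * Real.sqrt t := by
    calc (q : ℝ) ^ 14 = (q : ℝ) ^ 8 * (q : ℝ) ^ 6 := by ring
      _ ≤ _ := mul_le_mul_of_nonneg_left h5 (by positivity)
  calc (q : ℝ) ^ 14 * h ≤ K * Real.sqrt n + (q : ℝ) ^ 14 := h1
    _ ≤ K * ((q : ℝ) ^ 8 * (2 * (r + 1)) * Real.sqrt t) + (q : ℝ) ^ 8 * Real.sqrt t :=
        add_le_add (mul_le_mul_of_nonneg_left h3 hK.le) h6
    _ = _ := by ring

theorem awl_sqrt (q t e : ℕ) : ((q : ℝ) ^ e) * Real.sqrt t ≤ ((q ^ e * (Nat.sqrt t + 1) : ℕ) : ℝ) := by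
  push_cast
  apply mul_le_mul_of_nonneg_left _ (by positivity)
  apply Real.sqrt_le_iff.mpr
  refine ⟨by positivity, ?_⟩
  have := Nat.lt_succ_sqrt' t
  exact_mod_cast this.le

theorem aw_lower_pr (r : ℕ) (hr : 1 ≤ r) (K η : ℝ) (hK : 0 < K) (hη : 0 < η) :
    ∃ q0 : ℕ, ∀ q ≥ q0, ∃ n0 : ℕ, ∀ n ≥ n0, ∀ t z y h : ℕ, Reg r q K n t z y h →
      ∀ (δ B : ℝ) (κ : Ker r (q ^ 14) t h (DA q t) (DB q t) δ B) (c : Bool) (M J : Fin r → ℕ),
      (∀ m, J m ≤ M m ∧ M m ≤ q ^ 14) → (c = false → ∀ m, M m ≤ 1) →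
      ∀ b : PW r t, ZTyp q b →
        Real.exp (-η / (q : ℝ) ^ 14 - (1 / (t : ℝ)) *
          ((∑ m, (((M m : ℝ) - 2 * J m) * h) * Dl b m) +
            QF (fun m => ((M m : ℝ) - 2 * J m) * h) / 2)) ≤ AW κ c M J b := by
  obtain ⟨C, hC, hcore⟩ := awl_core r hr
  set C1 : ℝ := 2 * K * (r + 1) + 1 with hC1
  have hC11 : 1 ≤ C1 := by
    have : 0 ≤ 2 * K * ((r : ℝ) + 1) := by positivity
    linarith
  have hr0 : (0 : ℝ) < r := by exact_mod_cast hr
  -- the tiny quantities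
  set ε : ℝ := min (1 / 2) (η / 4) / (r * C) with hε
  have hε0 : 0 < ε := by positivity
  obtain ⟨q1, hq1⟩ := awl_asym C (C * (3 * C1) ^ 2) ε hC hε0
  obtain ⟨q2, hq2⟩ := awl_asym C (C * 3 ^ 2) ε hC hε0
  refine ⟨max (max q1 q2) (max 2 ⌈C1⌉₊), fun q hq => ?_⟩
  have hqq1 : q1 ≤ q := le_trans (le_trans (le_max_left _ _) (le_max_left _ _)) hq
  have hqq2 : q2 ≤ q := le_trans (le_trans (le_max_right _ _) (le_max_left _ _)) hq
  have hq2' : 2 ≤ q := le_trans (le_trans (le_max_left _ _) (le_max_right _ _)) hq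
  have hqC : C1 ≤ q := by
    have : ⌈C1⌉₊ ≤ q := le_trans (le_trans (le_max_right _ _) (le_max_right _ _)) hq
    exact (Nat.le_ceil _).trans (by exact_mod_cast this)
  have hqr : (2 : ℝ) ≤ q := by exact_mod_cast hq2'
  have hqr1 : (1 : ℝ) ≤ q := by linarith
  have hq14 : (0 : ℝ) < (q : ℝ) ^ 14 := by positivity
  set η' : ℝ := η / 2 / (q : ℝ) ^ 14 with hη'
  have hη0 : 0 < η' := by positivity
  have hq8 : (1 : ℝ) ≤ (q : ℝ) ^ 8 := one_le_pow₀ hqr1
  have haT : 1 ≤ C1 * (q : ℝ) ^ 8 := by nlinarith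
  obtain ⟨t1, ht1⟩ := hcore (C1 * (q : ℝ) ^ 8) ((q : ℝ) ^ 10) η' haT (one_le_pow₀ hqr1) hη0
  obtain ⟨t2, ht2⟩ := hcore (q : ℝ) ((q : ℝ) ^ 2) η' hqr1 (one_le_pow₀ hqr1) hη0
  set t3 := max (max t1 t2) (q ^ 12) with ht3
  refine ⟨2 * q ^ 16 * (r + 1) * t3 + 1, fun n hn t z y h hR δ B κ c M J hJ hc b hb => ?_⟩
  have htt3 : t3 ≤ t := by
    by_contra hlt
    have h1 := awl_n hq2' hR
    have h2 : n ≤ 2 * q ^ 16 * (r + 1) * t := by exact_mod_cast h1
    have h3 : 2 * q ^ 16 * (r + 1) * t ≤ 2 * q ^ 16 * (r + 1) * t3 :=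
      Nat.mul_le_mul_left _ (by omega)
    omega
  have htt1 : t1 ≤ t := le_trans (le_trans (le_max_left _ _) (le_max_left _ _)) htt3
  have htt2 : t2 ≤ t := le_trans (le_trans (le_max_right _ _) (le_max_left _ _)) htt3
  have htq : q ^ 12 ≤ t := le_trans (le_max_right _ _) htt3
  have hh := awl_h hK hq2' hR htq
  rw [← hC1] at hh
  have hst : 0 ≤ Real.sqrt t := Real.sqrt_nonneg _
  have hh0 : (0 : ℝ) ≤ h := Nat.cast_nonneg _
  set x : Fin r → ℤ := fun m => ((M m : ℤ) - 2 * J m) * h with hx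
  have hxr : ∀ m, (x m : ℝ) = ((M m : ℝ) - 2 * J m) * h := by
    intro m
    rw [hx]
    push_cast
    ring
  have hxb : ∀ m, |(x m : ℝ)| ≤ (M m : ℝ) * h := by
    intro m
    rw [hxr m, abs_mul, abs_of_nonneg hh0]
    apply mul_le_mul_of_nonneg_right _ hh0
    have h1 : (J m : ℝ) ≤ M m := by exact_mod_cast (hJ m).1
    have h2 : (0 : ℝ) ≤ J m := Nat.cast_nonneg _
    rw [abs_le]
    constructor <;> linarith
  have hNC : 0 < (NC (Pos r t) (fun m : Fin r => (cl b m : ℤ)) : ℝ) := by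
    unfold NC
    rw [Nat.cast_pos, Finset.card_pos]
    exact ⟨b, by rw [Finset.mem_filter]; exact ⟨mem_univ _, fun m => rfl⟩⟩
  -- the main step
  have main : ∀ (P : Fin r → Prop), (∀ m, P m ↔ M m = 0) → ∀ (a β : ℝ) (D : ℕ),
      (if c = true then DB q t else DA q t) = D →
      (q : ℝ) ^ 14 * (C * Real.exp (C * (3 * a) ^ 2 - β ^ 2 / C)) ≤ C * ε →
      (NC (Pos r t) (fun m : Fin r => (cl b m : ℤ)) : ℝ) *
          Real.exp (-η' - (1 / (t : ℝ)) * ((∑ m, (x m : ℝ) * Dl b m) +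
            QF (fun m => (x m : ℝ)) / 2)) * (1 - r * (C * Real.exp (C * (3 * a) ^ 2 - β ^ 2 / C))) ≤
        ((univ.filter (fun b' : PW r t => (∀ m, P m ∨ Nice r t D (Tr b' m) (Sr b' m).card) ∧
          ∀ m, (cl b' m : ℤ) = cl b m + x m)).card : ℝ) →
      Real.exp (-η / (q : ℝ) ^ 14 - (1 / (t : ℝ)) *
          ((∑ m, (((M m : ℝ) - 2 * J m) * h) * Dl b m) +
            QF (fun m => ((M m : ℝ) - 2 * J m) * h) / 2)) ≤ AW κ c M J b := by
    intro P hP a β D hD hsm hmain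
    have h1 := aw_eq κ c M J hJ hc b
    have h2 : (univ.filter (fun b' : PW r t => (∀ m, P m ∨
        Nice r t D (Tr b' m) (Sr b' m).card) ∧ ∀ m, (cl b' m : ℤ) = cl b m + x m)) =
        (univ.filter (fun b' : PW r t => NiceW r t (DA q t) (DB q t) c M b' ∧
        ∀ m, (cl b' m : ℤ) = cl b m + ((M m : ℤ) - 2 * J m) * h)) := by
      ext b'
      simp only [mem_filter, mem_univ, true_and, hP]
      unfold NiceW
      rw [hD]
    rw [h2, ← h1] at hmain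
    set e : ℝ := C * Real.exp (C * (3 * a) ^ 2 - β ^ 2 / C) with he
    have he0 : 0 ≤ e := by positivity
    have h3 : (r : ℝ) * e ≤ min (1 / 2) (η / 4) / (q : ℝ) ^ 14 := by
      rw [le_div_iff₀ hq14]
      calc (r : ℝ) * e * (q : ℝ) ^ 14 = r * ((q : ℝ) ^ 14 * e) := by ring
        _ ≤ r * (C * ε) := mul_le_mul_of_nonneg_left hsm hr0.le
        _ = min (1 / 2) (η / 4) := by
            rw [hε]
            field_simp
    have h4 : (r : ℝ) * e ≤ 1 / 2 := by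
      refine h3.trans ?_
      rw [div_le_iff₀ hq14]
      have h5 := min_le_left (1 / 2 : ℝ) (η / 4)
      have h6 : (1 : ℝ) ≤ (q : ℝ) ^ 14 := one_le_pow₀ hqr1
      linarith
    have h5 : 2 * ((r : ℝ) * e) ≤ η' := by
      have h6 : min (1 / 2) (η / 4) / (q : ℝ) ^ 14 ≤ η / 4 / (q : ℝ) ^ 14 :=
        div_le_div_of_nonneg_right (min_le_right _ _) hq14.le
      have h7 : η' = 2 * (η / 4 / (q : ℝ) ^ 14) := by rw [hη']; ring
      rw [h7]
      linarith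
    have h6 : Real.exp (-η') ≤ 1 - r * e :=
      (Real.exp_le_exp.mpr (by linarith)).trans (awl_exp (mul_nonneg hr0.le he0) h4)
    set Q : ℝ := (1 / (t : ℝ)) * ((∑ m, (x m : ℝ) * Dl b m) +
            QF (fun m => (x m : ℝ)) / 2) with hQ
    have h7 : (1 / (t : ℝ)) * ((∑ m, (((M m : ℝ) - 2 * J m) * h) * Dl b m) +
            QF (fun m => ((M m : ℝ) - 2 * J m) * h) / 2) = Q := by
      rw [hQ]
      congr 2
      · refine Finset.sum_congr rfl (fun m _ => ?_)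
        rw [hxr m]
      · congr 1
        congr 1
        funext m
        exact (hxr m).symm
    rw [h7]
    have h8 : Real.exp (-η / (q : ℝ) ^ 14 - Q) = Real.exp (-η' - Q) * Real.exp (-η') := by
      rw [← Real.exp_add]
      congr 1
      rw [hη']
      ring
    rw [h8]
    have h9 : (NC (Pos r t) (fun m : Fin r => (cl b m : ℤ)) : ℝ) *
        (Real.exp (-η' - Q) * Real.exp (-η')) ≤
        (NC (Pos r t) (fun m : Fin r => (cl b m : ℤ)) : ℝ) * AW κ c M J b := by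
      calc (NC (Pos r t) (fun m : Fin r => (cl b m : ℤ)) : ℝ) *
            (Real.exp (-η' - Q) * Real.exp (-η')) =
            ((NC (Pos r t) (fun m : Fin r => (cl b m : ℤ)) : ℝ) * Real.exp (-η' - Q)) *
              Real.exp (-η') := by ring
        _ ≤ ((NC (Pos r t) (fun m : Fin r => (cl b m : ℤ)) : ℝ) * Real.exp (-η' - Q)) *
              (1 - r * e) := mul_le_mul_of_nonneg_left h6 (by positivity)
        _ ≤ AW κ c M J b * (NC (Pos r t) (fun m : Fin r => (cl b m : ℤ)) : ℝ) := hmain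
        _ = _ := mul_comm _ _
    exact le_of_mul_le_mul_left h9 hNC
  cases c with
  | true =>
    refine main (fun m => M m = 0) (fun _ => Iff.rfl) (C1 * (q : ℝ) ^ 8) ((q : ℝ) ^ 10) (DB q t) (if_pos rfl) ?_ ?_
    · have h1 := (hq1 q hqq1).1
      have h2 : C * (3 * (C1 * (q : ℝ) ^ 8)) ^ 2 - ((q : ℝ) ^ 10) ^ 2 / C =
          C * (3 * C1) ^ 2 * (q : ℝ) ^ 16 - (q : ℝ) ^ 20 / C := by ring
      rw [h2]
      calc (q : ℝ) ^ 14 * (C * Real.exp (C * (3 * C1) ^ 2 * (q : ℝ) ^ 16 - (q : ℝ) ^ 20 / C)) =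
          C * ((q : ℝ) ^ 14 * Real.exp (C * (3 * C1) ^ 2 * (q : ℝ) ^ 16 - (q : ℝ) ^ 20 / C)) := by
            ring
        _ ≤ C * ε := mul_le_mul_of_nonneg_left h1 hC.le
    · refine ht1 t htt1 (DB q t) (awl_sqrt q t 10) b ?_ x ?_ (fun m => M m = 0)
      · intro j
        refine (hb j).trans ?_
        apply mul_le_mul_of_nonneg_right _ (Real.sqrt_nonneg _)
        have h3 : (q : ℝ) ≤ (q : ℝ) ^ 8 := by
          calc (q : ℝ) = (q : ℝ) ^ 1 := (pow_one _).symm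
            _ ≤ _ := pow_le_pow_right₀ hqr1 (by norm_num)
        nlinarith
      · intro m
        refine (hxb m).trans (le_trans ?_ hh)
        apply mul_le_mul_of_nonneg_right _ hh0
        exact_mod_cast (hJ m).2
  | false =>
    refine main (fun m => M m = 0) (fun _ => Iff.rfl) (q : ℝ) ((q : ℝ) ^ 2) (DA q t) (if_neg (by decide)) ?_ ?_
    · have h1 := (hq2 q hqq2).2
      have h2 : C * (3 * (q : ℝ)) ^ 2 - ((q : ℝ) ^ 2) ^ 2 / C =
          C * 3 ^ 2 * (q : ℝ) ^ 2 - (q : ℝ) ^ 4 / C := by ring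
      rw [h2]
      calc (q : ℝ) ^ 14 * (C * Real.exp (C * 3 ^ 2 * (q : ℝ) ^ 2 - (q : ℝ) ^ 4 / C)) =
          C * ((q : ℝ) ^ 14 * Real.exp (C * 3 ^ 2 * (q : ℝ) ^ 2 - (q : ℝ) ^ 4 / C)) := by ring
        _ ≤ C * ε := mul_le_mul_of_nonneg_left h1 hC.le
    · refine ht2 t htt2 (DA q t) (awl_sqrt q t 2) b hb x ?_ (fun m => M m = 0)
      intro m
      have h3 : (M m : ℝ) ≤ 1 := by exact_mod_cast hc rfl m
      have h4 : (h : ℝ) ≤ Real.sqrt t := by
        have h5 : (q : ℝ) ^ 14 * h ≤ (q : ℝ) ^ 14 * Real.sqrt t := by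
          refine hh.trans ?_
          apply mul_le_mul_of_nonneg_right _ hst
          have h6 : C1 ≤ (q : ℝ) ^ 6 := by
            calc C1 ≤ (q : ℝ) ^ 1 := by rw [pow_one]; exact hqC
              _ ≤ _ := pow_le_pow_right₀ hqr1 (by norm_num)
          calc C1 * (q : ℝ) ^ 8 ≤ (q : ℝ) ^ 6 * (q : ℝ) ^ 8 :=
                mul_le_mul_of_nonneg_right h6 (by positivity)
            _ = (q : ℝ) ^ 14 := by ring
        exact le_of_mul_le_mul_left h5 hq14
      calc |(x m : ℝ)| ≤ (M m : ℝ) * h := hxb m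
        _ ≤ 1 * Real.sqrt t := mul_le_mul h3 h4 hh0 (by norm_num)
        _ ≤ q * Real.sqrt t := mul_le_mul_of_nonneg_right hqr1 hst

end Pool.Agent.Lib_helper46.CC

namespace Pool.Agent.Lib_helper46.CC

alias aw_lower := aw_lower_pr

end Pool.Agent.Lib_helper46.CC
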