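import Mathlib
import Pool.Agent.Lib_helper46.CC.Defs

/-! Block BIN, written by helper95. -/

/-!
# MP_10b4aa_co: block BIN
-/

set_option autoImplicit false

namespace Pool.Agent.Lib_helper46.CC

open Finset
open scoped Classical

theorem bin_step (T j E : ℕ) (hT : 0 < T) (h1 : |2 * (j : ℤ) - T| ≤ E)
    (h2 : |2 * ((j : ℤ) + 1) - T| ≤ E) (h3 : 2 * E ≤ T) :
    (T.choose j : ℝ) ≤ T.choose (j + 1) * Real.exp (4 * (E + 1) / T) ∧
      (T.choose (j + 1) : ℝ) ≤ T.choose j * Real.exp (4 * (E + 1) / T) := by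
  have hT0 : (0 : ℝ) < T := by exact_mod_cast hT
  rw [abs_le] at h1 h2
  have hjT : j + 1 ≤ T := by omega
  have hid : ((T.choose (j + 1) : ℝ)) * (j + 1) = T.choose j * (T - j) := by
    have h4 := Nat.choose_succ_right_eq T j
    have h5 : ((T.choose (j + 1) * (j + 1) : ℕ) : ℝ) = ((T.choose j * (T - j) : ℕ) : ℝ) := by
      rw [h4]
    rw [Nat.cast_mul, Nat.cast_mul, Nat.cast_sub (by omega)] at h5
    push_cast at h5
    exact h5
  have hexp : 1 + 4 * ((E : ℝ) + 1) / T ≤ Real.exp (4 * (E + 1) / T) := by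
    have := Real.add_one_le_exp (4 * ((E : ℝ) + 1) / T)
    linarith
  have hE1 : (T : ℝ) - 2 * j ≤ E := by
    have : (T : ℤ) - 2 * j ≤ E := by omega
    exact_mod_cast this
  have hE2 : 2 * ((j : ℝ) + 1) - T ≤ E := by
    have : 2 * ((j : ℤ) + 1) - T ≤ E := by omega
    exact_mod_cast this
  have hTE : 2 * (E : ℝ) ≤ T := by exact_mod_cast h3
  have hTj : (T : ℝ) / 4 ≤ T - j := by linarith
  have hj1 : (T : ℝ) / 4 ≤ j + 1 := by linarith
  have hTj0 : (0 : ℝ) < T - j := by linarith
  have hj0 : (0 : ℝ) < (j : ℝ) + 1 := by linarith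
  have hc0 : (0 : ℝ) ≤ T.choose j := Nat.cast_nonneg _
  have hc1 : (0 : ℝ) ≤ T.choose (j + 1) := Nat.cast_nonneg _
  have hq1 : ((j : ℝ) + 1) ≤ (T - j) * (1 + 4 * ((E : ℝ) + 1) / T) := by
    have h6 : (T : ℝ) / 4 * (4 * ((E : ℝ) + 1) / T) = E + 1 := by field_simp
    have h7 : (T : ℝ) / 4 * (4 * ((E : ℝ) + 1) / T) ≤ (T - j) * (4 * ((E : ℝ) + 1) / T) :=
      mul_le_mul_of_nonneg_right hTj (by positivity)
    nlinarith
  have hq2 : ((T : ℝ) - j) ≤ (j + 1) * (1 + 4 * ((E : ℝ) + 1) / T) := by
    have h6 : (T : ℝ) / 4 * (4 * ((E : ℝ) + 1) / T) = E + 1 := by field_simp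
    have h7 : (T : ℝ) / 4 * (4 * ((E : ℝ) + 1) / T) ≤ (j + 1) * (4 * ((E : ℝ) + 1) / T) :=
      mul_le_mul_of_nonneg_right hj1 (by positivity)
    nlinarith
  constructor
  · have h8 : (T.choose j : ℝ) * (T - j) ≤
        (T.choose (j + 1) * Real.exp (4 * (E + 1) / T)) * (T - j) := by
      rw [← hid]
      calc (T.choose (j + 1) : ℝ) * (j + 1) ≤
            T.choose (j + 1) * ((T - j) * (1 + 4 * ((E : ℝ) + 1) / T)) :=
            mul_le_mul_of_nonneg_left hq1 hc1
        _ ≤ T.choose (j + 1) * ((T - j) * Real.exp (4 * (E + 1) / T)) := by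
            gcongr
        _ = _ := by ring
    exact le_of_mul_le_mul_right h8 hTj0
  · have h8 : (T.choose (j + 1) : ℝ) * (j + 1) ≤
        (T.choose j * Real.exp (4 * (E + 1) / T)) * (j + 1) := by
      rw [hid]
      calc (T.choose j : ℝ) * (T - j) ≤
            T.choose j * ((j + 1) * (1 + 4 * ((E : ℝ) + 1) / T)) :=
            mul_le_mul_of_nonneg_left hq2 hc0
        _ ≤ T.choose j * ((j + 1) * Real.exp (4 * (E + 1) / T)) := by
            gcongr
        _ = _ := by ring
    exact le_of_mul_le_mul_right h8 hj0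

/-- Block BIN: ratio of binomial coefficients near the middle -/
theorem bin_ratio_pr (T a b x D : ℕ) (h1 : |2 * (a : ℤ) - T| ≤ D) (h2 : |(a : ℤ) - b| ≤ x)
    (h3 : 2 * (D + 2 * x) ≤ T) :
    (T.choose a : ℝ) ≤ T.choose b * Real.exp (4 * x * (D + 2 * x + 1) / T) := by
  rcases Nat.eq_zero_or_pos T with hT | hT
  · subst hT
    have hD : D = 0 := by omega
    have hx : x = 0 := by omega
    subst hD
    subst hx
    have hab : a = b := by
      rw [abs_le] at h2
      omega
    subst hab
    simp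
  have hT0 : (0 : ℝ) < T := by exact_mod_cast hT
  rw [abs_le] at h1 h2
  set F : ℝ := Real.exp (4 * (((D + 2 * x : ℕ) : ℝ) + 1) / T) with hF
  have hF1 : 1 ≤ F := by
    rw [hF]
    apply Real.one_le_exp
    positivity
  have hfin : ∀ s : ℕ, s ≤ x → F ^ s ≤ Real.exp (4 * x * (D + 2 * x + 1) / T) := by
    intro s hs
    calc F ^ s ≤ F ^ x := pow_le_pow_right₀ hF1 hs
      _ = _ := by
        rw [hF, ← Real.exp_nat_mul]
        congr 1
        push_cast
        ring
  rcases le_total a b with hab | hab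
  · obtain ⟨s, rfl⟩ := Nat.exists_eq_add_of_le hab
    have hs : s ≤ x := by omega
    have hind : ∀ s : ℕ, s ≤ x → (T.choose a : ℝ) ≤ T.choose (a + s) * F ^ s := by
      intro s
      induction s with
      | zero => simp
      | succ s ih =>
        intro hs1
        have h4 := (bin_step T (a + s) (D + 2 * x) hT (by rw [abs_le]; push_cast; omega)
          (by rw [abs_le]; push_cast; omega) h3).1
        calc (T.choose a : ℝ) ≤ T.choose (a + s) * F ^ s := ih (by omega)
          _ ≤ (T.choose (a + s + 1) * F) * F ^ s :=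
            mul_le_mul_of_nonneg_right h4 (by positivity)
          _ = _ := by
            rw [pow_succ, ← add_assoc]
            ring
    exact (hind s hs).trans (mul_le_mul_of_nonneg_left (hfin s hs) (Nat.cast_nonneg _))
  · obtain ⟨s, rfl⟩ := Nat.exists_eq_add_of_le hab
    have hs : s ≤ x := by omega
    have hind : ∀ u : ℕ, u ≤ s → (T.choose (b + s) : ℝ) ≤ T.choose (b + (s - u)) * F ^ u := by
      intro u
      induction u with
      | zero => simp
      | succ u ih =>
        intro hu
        have h5 : b + (s - u) = b + (s - (u + 1)) + 1 := by omega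
        have h4 := (bin_step T (b + (s - (u + 1))) (D + 2 * x) hT
          (by rw [abs_le]; push_cast; omega)
          (by rw [abs_le]; push_cast; omega) h3).2
        rw [← h5] at h4
        calc (T.choose (b + s) : ℝ) ≤ T.choose (b + (s - u)) * F ^ u := ih (by omega)
          _ ≤ (T.choose (b + (s - (u + 1))) * F) * F ^ u :=
            mul_le_mul_of_nonneg_right h4 (by positivity)
          _ = _ := by
            rw [pow_succ]
            ring
    have h6 := hind s le_rfl
    rw [Nat.sub_self, add_zero] at h6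
    exact h6.trans (mul_le_mul_of_nonneg_left (hfin s hs) (Nat.cast_nonneg _))

end Pool.Agent.Lib_helper46.CC

namespace Pool.Agent.Lib_helper46.CC

alias bin_ratio := bin_ratio_pr

end Pool.Agent.Lib_helper46.CC
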