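import Mathlib
import Pool.Agent.Lib_helper46.CCF.WBase

/-! Block BRI, written by helper30. -/

set_option autoImplicit false

namespace Pool.Agent.Lib_helper46.CC

open Finset Pool.Agent.Lib_helper70.Chains
open scoped Classical

section GLOBAL

theorem bridge_pr {G : Type} [Fintype G] [DecidableEq G] (r : ℕ) (F : Finset (Finset (Finset G)))
    (h1 : ∀ C ∈ F, IsChain (· ⊆ ·) (C : Set (Finset G)))
    (h2 : ∀ w : G → Fin (r + 1), ∃ C ∈ F, ∀ m : Fin r,
      univ.filter (fun x => (w x : ℕ) ≤ (m : ℕ)) ∈ C) :
    coverNumber (Fintype.card G) r ≤ F.card := by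
  set e : G ≃ Fin (Fintype.card G) := Fintype.equivFin G with he
  set T : Finset G → Finset (Fin (Fintype.card G)) := fun S => S.map e.toEmbedding with hT
  have hTmono : ∀ S S', S ⊆ S' → T S ⊆ T S' := by
    intro S S' h
    exact Finset.map_subset_map.mpr h
  set F' : Finset (Finset (Finset (Fin (Fintype.card G)))) := F.image (fun C => C.image T) with hF'
  have hcov : IsChainCover (Fintype.card G) r F' := by
    refine ⟨?_, ?_⟩
    · intro C hC
      obtain ⟨C0, hC0, rfl⟩ := Finset.mem_image.mp hC
      intro S hS S' hS' hne
      rw [Finset.mem_coe, Finset.mem_image] at hS hS'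
      obtain ⟨S0, hS0, rfl⟩ := hS
      obtain ⟨S0', hS0', rfl⟩ := hS'
      have hne0 : S0 ≠ S0' := by
        rintro rfl
        exact hne rfl
      rcases h1 C0 hC0 hS0 hS0' hne0 with h | h
      · exact Or.inl (hTmono _ _ h)
      · exact Or.inr (hTmono _ _ h)
    · intro D hDr hDc
      have hwlt : ∀ x : G, (D.filter (fun S => e x ∉ S)).card < r + 1 := by
        intro x
        have := Finset.card_filter_le D (fun S => e x ∉ S)
        omega
      obtain ⟨C, hC, hCm⟩ := h2 (fun x => ⟨(D.filter (fun S => e x ∉ S)).card, hwlt x⟩)
      refine ⟨C.image T, Finset.mem_image_of_mem _ hC, ?_⟩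
      intro S hS
      have hlt : (D.filter (fun S' => S' ⊂ S)).card < r := by
        rw [← hDr]
        apply Finset.card_lt_card
        rw [Finset.ssubset_iff_of_subset (Finset.filter_subset _ _)]
        refine ⟨S, hS, ?_⟩
        rw [mem_filter]
        rintro ⟨_, h⟩
        exact h.ne rfl
      have key := hCm ⟨(D.filter (fun S' => S' ⊂ S)).card, hlt⟩
      rw [Finset.mem_image]
      refine ⟨_, key, ?_⟩
      rw [hT]
      ext x
      simp only [Finset.mem_map_equiv, mem_filter, mem_univ, true_and, Equiv.apply_symm_apply]
      constructor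
      · intro hle
        by_contra hx
        have hsub : insert S (D.filter (fun S' => S' ⊂ S)) ⊆ D.filter (fun S' => x ∉ S') := by
          intro S' hS'
          rw [Finset.mem_insert] at hS'
          rcases hS' with rfl | hS'
          · rw [mem_filter]; exact ⟨hS, hx⟩
          · rw [mem_filter] at hS' ⊢
            exact ⟨hS'.1, fun h => hx (hS'.2.1 h)⟩
        have hcard := Finset.card_le_card hsub
        rw [Finset.card_insert_of_notMem] at hcard
        · omega
        · rw [mem_filter]
          rintro ⟨_, h⟩
          exact h.ne rfl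
      · intro hx
        apply Finset.card_le_card
        intro S' hS'
        rw [mem_filter] at hS' ⊢
        refine ⟨hS'.1, ?_⟩
        have hne : S' ≠ S := by
          rintro rfl
          exact hS'.2 hx
        rcases hDc hS'.1 hS hne with h | h
        · exact ssubset_of_subset_of_ne h hne
        · exact absurd (h hx) hS'.2
  have h3 : coverNumber (Fintype.card G) r ≤ F'.card := Nat.sInf_le ⟨F', hcov, rfl⟩
  exact h3.trans Finset.card_image_le


end GLOBAL

end Pool.Agent.Lib_helper46.CC

namespace Pool.Agent.Lib_helper46.CC

alias bridge := bridge_pr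

end Pool.Agent.Lib_helper46.CC
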