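import Mathlib
import Pool.Agent.Lib_helper46.CCF.WBase

/-! Block CEL, written by helper30. -/

set_option autoImplicit false

namespace Pool.Agent.Lib_helper46.CC

open Finset Pool.Agent.Lib_helper70.Chains
open scoped Classical

section GLOBAL

theorem cell_exists_pr (r q : ℕ) (hr : 1 ≤ r) (hq : 1 ≤ q) (K : ℝ) (hK : 0 < K) :
    ∃ n0 : ℕ, ∀ n ≥ n0, ∀ t z y h : ℕ, Reg r q K n t z y h →
      ∀ w : Word r y z (q ^ 16) t,
        (∀ m : Fin r, |(typ w m : ℝ) - ((m : ℝ) + 1) * n / (r + 1)| < K * Real.sqrt n) →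
        ∃ i : Fin r → Fin (q ^ 14), InC (F0 r q n h) h i w := by
  have hr1 : (0 : ℝ) < (r : ℝ) + 1 := by positivity
  have hq14 : 0 < q ^ 14 := by positivity
  -- for large `n`, `K √n + q^14 + 1 ≤ n / (r+1)`
  obtain ⟨n0, hn0⟩ : ∃ n0 : ℕ, ∀ n : ℕ, n0 ≤ n →
      K * Real.sqrt n + (q : ℝ) ^ 14 + 1 ≤ (n : ℝ) / (r + 1) := by
    set L : ℝ := (r + 1) * (K + (q : ℝ) ^ 14 + 1) with hL
    have hL0 : 0 ≤ L := by positivity
    refine ⟨⌈L ^ 2⌉₊ + 1, ?_⟩
    intro n hn
    have hn1 : (1 : ℝ) ≤ n := by exact_mod_cast (by omega : 1 ≤ n)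
    have hs1 : 1 ≤ Real.sqrt n := Real.one_le_sqrt.mpr hn1
    have hLn : L ^ 2 ≤ n := by
      have h1 := Nat.le_ceil (L ^ 2)
      have h2 : (⌈L ^ 2⌉₊ : ℝ) ≤ n := by exact_mod_cast (by omega : ⌈L ^ 2⌉₊ ≤ n)
      linarith
    have hLs : L ≤ Real.sqrt n := Real.le_sqrt_of_sq_le hLn
    have hss : Real.sqrt n * Real.sqrt n = n := Real.mul_self_sqrt (by linarith)
    rw [le_div_iff₀ hr1]
    have hq0 : (0 : ℝ) ≤ (q : ℝ) ^ 14 := by positivity
    have h3 : (K * Real.sqrt n + (q : ℝ) ^ 14 + 1) ≤ (K + (q : ℝ) ^ 14 + 1) * Real.sqrt n := by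
      nlinarith
    calc (K * Real.sqrt n + (q : ℝ) ^ 14 + 1) * (r + 1)
        ≤ ((K + (q : ℝ) ^ 14 + 1) * Real.sqrt n) * (r + 1) :=
          mul_le_mul_of_nonneg_right h3 hr1.le
      _ = L * Real.sqrt n := by rw [hL]; ring
      _ ≤ Real.sqrt n * Real.sqrt n := mul_le_mul_of_nonneg_right hLs (Real.sqrt_nonneg _)
      _ = n := hss
  refine ⟨n0, ?_⟩
  intro n hn t z y h hR w hw
  have hnn := hn0 n hn
  have key : ∀ m : Fin r, F0 r q n h m ≤ typ w m ∧ typ w m - F0 r q n h m < q ^ 14 * (2 * h + 1) := by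
    intro m
    set c : ℕ := ((m : ℕ) + 1) * n / (r + 1) with hc
    have hc1 : (c : ℝ) ≤ ((m : ℝ) + 1) * n / (r + 1) := by
      have := @Nat.cast_div_le ℝ _ _ _ (((m : ℕ) + 1) * n) (r + 1)
      push_cast at this
      exact this
    have hc2 : ((m : ℝ) + 1) * n / (r + 1) < c + 1 := by
      rw [div_lt_iff₀ hr1]
      have := Nat.lt_mul_div_succ (((m : ℕ) + 1) * n) (Nat.succ_pos r)
      rw [Nat.succ_eq_add_one, ← hc] at this
      have h2 : (((((m : ℕ) + 1) * n : ℕ)) : ℝ) < (((r + 1) * (c + 1) : ℕ) : ℝ) := by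
        exact_mod_cast this
      push_cast at h2
      linarith
    have hm := abs_lt.mp (hw m)
    have hh1 := hR.h_ge
    have hh2 := hR.h_le
    have hbig : (n : ℝ) / (r + 1) ≤ ((m : ℝ) + 1) * n / (r + 1) := by
      apply div_le_div_of_nonneg_right _ hr1.le
      have : (0 : ℝ) ≤ (m : ℝ) * n := by positivity
      linarith
    have hcq : q ^ 14 * h ≤ c := by
      have : ((q ^ 14 * h : ℕ) : ℝ) ≤ (c : ℝ) := by
        push_cast
        linarith
      exact_mod_cast this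
    have hF : F0 r q n h m = c - q ^ 14 * h := rfl
    have hlow : c - q ^ 14 * h ≤ typ w m := by
      have h1 : (c : ℝ) ≤ (typ w m + q ^ 14 * h : ℕ) := by
        push_cast
        linarith [hm.1]
      have h2 : c ≤ typ w m + q ^ 14 * h := by exact_mod_cast h1
      omega
    have hup : typ w m ≤ c + q ^ 14 * h := by
      have h1 : ((typ w m : ℕ) : ℝ) < ((c + q ^ 14 * h + 1 : ℕ) : ℝ) := by
        push_cast
        linarith [hm.2]
      have h2 : typ w m < c + q ^ 14 * h + 1 := by exact_mod_cast h1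
      omega
    rw [hF]
    refine ⟨hlow, ?_⟩
    have h3 : q ^ 14 * (2 * h + 1) = 2 * (q ^ 14 * h) + q ^ 14 := by ring
    rw [h3]
    omega
  refine ⟨fun m => ⟨(typ w m - F0 r q n h m) / (2 * h + 1), ?_⟩, ?_⟩
  · rw [Nat.div_lt_iff_lt_mul (Nat.succ_pos _)]
    exact (key m).2
  · intro m
    unfold bot
    simp only
    have h1 := Nat.div_mul_le_self (typ w m - F0 r q n h m) (2 * h + 1)
    have h2 := Nat.lt_div_mul_add (a := typ w m - F0 r q n h m) (b := 2 * h + 1) (Nat.succ_pos _)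
    have h3 := (key m).1
    constructor
    · omega
    · omega


end GLOBAL

end Pool.Agent.Lib_helper46.CC

namespace Pool.Agent.Lib_helper46.CC

alias cell_exists := cell_exists_pr

end Pool.Agent.Lib_helper46.CC
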