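import Mathlib
import Pool.Agent.Lib_helper46.CCF.WBase
import Pool.Agent.Lib_helper46.CCF.REP

/-! Block CLA, written by helper35. -/

set_option autoImplicit false

namespace Pool.Agent.Lib_helper46.CC

open Finset Pool.Agent.Lib_helper70.Chains
open scoped Classical

section UNITS

variable {r y z R t k h D D2 : ℕ} {δ B : ℝ}

/-- the replaced sets in part `p` -/
noncomputable def cla_X (Fn : LF r z R t) (w : Word r y z R t) (S : Fin r → Finset (Fin t))
    (p : Fin R) (m : Fin r) : Finset (Fin t) :=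
  if (cur Fn w m).1 = p then S m else Sr (lw Fn w p) m

theorem cla_lw (Fn : LF r z R t) (w : Word r y z R t) (S : Fin r → Finset (Fin t)) (p : Fin R) :
    lw Fn (modw Fn w S) p = rep (lw Fn w p) (cla_X Fn w S p) := by
  funext x
  have h : lw Fn (modw Fn w S) p x = rep (lw Fn w p) (cla_X Fn w S p)
      ((frs (cur Fn w) p).symm ((frs (cur Fn w) p) x)) := rfl
  rw [h, Equiv.symm_apply_apply]

theorem cla_part (Fn : LF r z R t) (w : Word r y z R t) (S : Fin r → Finset (Fin t)) (p : Fin R) :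
    (modw Fn w S).2.2 p = rep (lw Fn w p) (cla_X Fn w S p) ∘ (frs (cur Fn w) p).symm := rfl

theorem cla_lw_symm (Fn : LF r z R t) (w : Word r y z R t) (p : Fin R) :
    lw Fn w p ∘ (frs (cur Fn w) p).symm = w.2.2 p := by
  funext x
  have h : (lw Fn w p ∘ (frs (cur Fn w) p).symm) x = w.2.2 p
      ((frs (cur Fn w) p) ((frs (cur Fn w) p).symm x)) := rfl
  rw [h, Equiv.apply_symm_apply]

/-- Block CLA: replacement of the sets `SS` -/
theorem tt_mod_pr (Fn : LF r z R t) (w : Word r y z R t) (S : Fin r → Finset (Fin t))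
    (m : Fin r) : TT Fn (modw Fn w S) m = TT Fn w m := by
  have h : TT Fn (modw Fn w S) m = Tr (lw Fn (modw Fn w S) (cur Fn w m).1) m := rfl
  rw [h, cla_lw, tr_rep]
  rfl

theorem ss_mod_pr (Fn : LF r z R t) (w : Word r y z R t) (S : Fin r → Finset (Fin t))
    (hS : ∀ m, S m ⊆ TT Fn w m) (m : Fin r) : SS Fn (modw Fn w S) m = S m := by
  have h : SS Fn (modw Fn w S) m = Sr (lw Fn (modw Fn w S) (cur Fn w m).1) m := rfl
  rw [h, cla_lw, sr_rep]
  have h2 : cla_X Fn w S (cur Fn w m).1 m = S m := if_pos rfl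
  rw [h2]
  exact Finset.inter_eq_right.mpr (hS m)

theorem cla_X_ss (Fn : LF r z R t) (w : Word r y z R t) (p : Fin R) :
    cla_X Fn w (SS Fn w) p = Sr (lw Fn w p) := by
  funext m
  unfold cla_X
  split_ifs with h
  · rw [← h]; rfl
  · rfl

theorem mod_ss_pr (Fn : LF r z R t) (w : Word r y z R t) : modw Fn w (SS Fn w) = w := by
  have h : (modw Fn w (SS Fn w)).2.2 = w.2.2 := by
    funext p
    rw [cla_part, cla_X_ss, rep_sr, cla_lw_symm]
  exact Prod.ext rfl (Prod.ext rfl h)

theorem cla_X_mod (Fn : LF r z R t) (w : Word r y z R t) (S S' : Fin r → Finset (Fin t))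
    (p : Fin R) : cla_X Fn (modw Fn w S) S' p = cla_X Fn w S' p := by
  funext m
  have h : cla_X Fn (modw Fn w S) S' p m =
    if (cur Fn w m).1 = p then S' m else Sr (lw Fn (modw Fn w S) p) m := rfl
  rw [h, cla_lw, sr_rep]
  unfold cla_X
  split_ifs with h1
  · rfl
  · exact Finset.inter_eq_right.mpr (sr_sub _ _)

theorem mod_mod_pr (Fn : LF r z R t) (w : Word r y z R t) (S S' : Fin r → Finset (Fin t)) :
    modw Fn (modw Fn w S) S' = modw Fn w S' := by
  have h : (modw Fn (modw Fn w S) S').2.2 = (modw Fn w S').2.2 := by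
    funext p
    rw [cla_part, cla_part, cla_X_mod, cla_lw, rep_rep]
    rfl
  exact Prod.ext rfl (Prod.ext rfl h)

theorem cla_cl (Fn : LF r z R t) (w : Word r y z R t) (S : Fin r → Finset (Fin t))
    (m : Fin r) (p : Fin R) (hS : cla_X Fn w S p m ⊆ Tr (lw Fn w p) m) :
    cl ((modw Fn w S).2.2 p) m + (Sr (lw Fn w p) m).card =
      cl (w.2.2 p) m + (cla_X Fn w S p m).card := by
  rw [cla_part, cl_perm, cl_rep _ _ _ hS]
  congr 1
  exact cl_perm _ _ _

theorem typ_mod_pr (Fn : LF r z R t) (w : Word r y z R t) (S : Fin r → Finset (Fin t))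
    (hS : ∀ m, S m ⊆ TT Fn w m) (m : Fin r) :
    typ (modw Fn w S) m + (SS Fn w m).card = typ w m + (S m).card := by
  have h1 : typ (modw Fn w S) m = cl w.1 m + ∑ m', cl (w.2.1 m') m +
    ∑ p, cl ((modw Fn w S).2.2 p) m := rfl
  have h2 : typ w m = cl w.1 m + ∑ m', cl (w.2.1 m') m + ∑ p, cl (w.2.2 p) m := rfl
  set p0 := (cur Fn w m).1 with hp0
  have h3 : ∀ p, p ≠ p0 → cl ((modw Fn w S).2.2 p) m = cl (w.2.2 p) m := by
    intro p hp
    have hX : cla_X Fn w S p m = Sr (lw Fn w p) m := if_neg (fun hh => hp hh.symm)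
    have := cla_cl Fn w S m p (by rw [hX]; exact sr_sub _ _)
    rw [hX] at this
    exact Nat.add_right_cancel this
  have h4 : cl ((modw Fn w S).2.2 p0) m + (SS Fn w m).card = cl (w.2.2 p0) m + (S m).card := by
    have hX : cla_X Fn w S p0 m = S m := if_pos rfl
    have := cla_cl Fn w S m p0 (by rw [hX]; exact hS m)
    rw [hX] at this
    exact this
  rw [h1, h2, ← Finset.add_sum_erase _ _ (Finset.mem_univ p0),
    ← Finset.add_sum_erase _ (fun p => cl (w.2.2 p) m) (Finset.mem_univ p0)]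
  have h5 : ∑ p ∈ univ.erase p0, cl ((modw Fn w S).2.2 p) m =
      ∑ p ∈ univ.erase p0, cl (w.2.2 p) m :=
    Finset.sum_congr rfl fun p hp => h3 p (Finset.ne_of_mem_erase hp)
  rw [h5]
  omega

theorem mod_frozen_pr (Fn : LF r z R t) (w : Word r y z R t) (S : Fin r → Finset (Fin t))
    (p : Fin R) (hp : ∀ m, (cur Fn w m).1 ≠ p) : (modw Fn w S).2.2 p = w.2.2 p := by
  have hX : cla_X Fn w S p = Sr (lw Fn w p) := by
    funext m
    exact if_neg (hp m)
  rw [cla_part, hX, rep_sr, cla_lw_symm]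

theorem cla_sum {α β : Type} [Fintype α] [Fintype β] (f : α ⊕ β → Fin (r + 1)) (m : Fin r) :
    cl f m = cl (fun a => f (Sum.inl a)) m + cl (fun b => f (Sum.inr b)) m := by
  unfold cl
  rw [Finset.card_filter, Finset.card_filter, Finset.card_filter, Fintype.sum_sum_type]

theorem cla_prod {α β : Type} [Fintype α] [Fintype β] (f : α × β → Fin (r + 1)) (m : Fin r) :
    cl f m = ∑ a, cl (fun b => f (a, b)) m := by
  unfold cl
  simp_rw [Finset.card_filter]
  rw [Fintype.sum_prod_type]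

theorem typ_eq_pr (w : Word r y z R t) (m : Fin r) : typ w m = cl (wv w) m := by
  rw [cla_sum, cla_sum, cla_prod, cla_prod, ← add_assoc]
  rfl

end UNITS

end Pool.Agent.Lib_helper46.CC

namespace Pool.Agent.Lib_helper46.CC

alias mod_frozen := mod_frozen_pr
alias mod_mod := mod_mod_pr
alias mod_ss := mod_ss_pr
alias ss_mod := ss_mod_pr
alias tt_mod := tt_mod_pr
alias typ_eq := typ_eq_pr
alias typ_mod := typ_mod_pr

end Pool.Agent.Lib_helper46.CC
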