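import Mathlib
import Pool.Agent.Lib_helper46.CCF.WBase

/-! Block CO1, written by helper80. -/

set_option autoImplicit false

namespace Pool.Agent.Lib_helper46.CC

open Finset Pool.Agent.Lib_helper70.Chains
open scoped Classical

theorem co1_exp (a : ℝ) : 1 + a + a ^ 2 / 2 - |a| ^ 3 ≤ Real.exp a := by
  rcases le_or_gt 0 a with h | h
  · have h1 := Real.quadratic_le_exp_of_nonneg h
    have h2 : 0 ≤ |a| ^ 3 := by positivity
    linarith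
  · rw [abs_of_neg h]
    rcases le_or_gt (-1) a with h1 | h1
    · have h2 := Real.exp_bound (x := a) (abs_le.mpr ⟨h1, by linarith⟩) (n := 3) (by norm_num)
      rw [abs_of_neg h] at h2
      have h3 : ∑ m ∈ range 3, a ^ m / (m.factorial : ℝ) = 1 + a + a ^ 2 / 2 := by
        simp [Finset.sum_range_succ, Nat.factorial]
      rw [h3] at h2
      have h4 := (abs_le.mp h2).1
      have h5 : (-a) ^ 3 * (((3 : ℕ).succ : ℝ) / (((3 : ℕ).factorial : ℝ) * (3 : ℕ))) ≤ (-a) ^ 3 := by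
        have h6 : (0 : ℝ) ≤ (-a) ^ 3 := by
          have : 0 ≤ -a := by linarith
          positivity
        have h7 : (((3 : ℕ).succ : ℝ) / (((3 : ℕ).factorial : ℝ) * (3 : ℕ))) ≤ 1 := by
          norm_num [Nat.factorial]
        nlinarith
      linarith
    · have h2 := Real.exp_pos a
      have h3 : 1 + a + a ^ 2 / 2 - (-a) ^ 3 ≤ 0 := by
        have h4 : (-a) ^ 3 = (-a) * a ^ 2 := by ring
        rw [h4]
        nlinarith [sq_nonneg a]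
      linarith

theorem co1_pr {P : Type} [Fintype P] [DecidableEq P] (Q : Finset P) (r : ℕ)
    (hQ : (univ \ Q).card ≤ r) (y : P → ℝ) (Y γ τ ε : ℝ) (hY : 1 ≤ Y) (hy : ∀ p, |y p| ≤ Y)
    (hγ : 0 ≤ γ) (hγ1 : γ ≤ 1) (hε : ε = 1 ∨ ε = -1) (hτ : 0 ≤ τ)
    (hs : (Fintype.card P : ℝ) * (2 - τ) ≤ ∑ p, (y p) ^ 2) (hP : 0 < Fintype.card P) :
    1 - γ * ε * ((∑ p, y p) / Fintype.card P) -
        (r * (1 + γ * Y + γ ^ 2 * Y ^ 2) / Fintype.card P + γ ^ 2 * τ / 2 + γ ^ 3 * Y +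
          γ ^ 3 * (Y + γ) ^ 3) ≤
      (∑ p ∈ Q, Real.exp (-(γ * ε * y p) - γ ^ 2)) / Fintype.card P := by
  have hε2 : ε ^ 2 = 1 := by rcases hε with h | h <;> rw [h] <;> norm_num
  have hεa : |ε| = 1 := by rcases hε with h | h <;> rw [h] <;> norm_num
  have hN : (0 : ℝ) < (Fintype.card P : ℝ) := by exact_mod_cast hP
  set N : ℝ := (Fintype.card P : ℝ) with hNdef
  set c : ℝ := γ ^ 3 * Y + γ ^ 3 * (Y + γ) ^ 3 with hc
  have hc0 : 0 ≤ c := by rw [hc]; positivity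
  -- the lower bound for one summand
  have key : ∀ p, 1 - γ * ε * y p - γ ^ 2 + γ ^ 2 * (y p) ^ 2 / 2 - c ≤
      Real.exp (-(γ * ε * y p) - γ ^ 2) := by
    intro p
    have h1 := co1_exp (-(γ * ε * y p) - γ ^ 2)
    have h2 : |-(γ * ε * y p) - γ ^ 2| ≤ γ * (Y + γ) := by
      calc |-(γ * ε * y p) - γ ^ 2| ≤ |-(γ * ε * y p)| + |γ ^ 2| := abs_sub _ _
        _ = γ * |y p| + γ ^ 2 := by
          rw [abs_neg, abs_mul, abs_mul, hεa, abs_of_nonneg hγ, abs_of_nonneg (sq_nonneg γ)]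
          ring
        _ ≤ γ * Y + γ ^ 2 := by
          have := mul_le_mul_of_nonneg_left (hy p) hγ
          linarith
        _ = γ * (Y + γ) := by ring
    have h3 : |-(γ * ε * y p) - γ ^ 2| ^ 3 ≤ γ ^ 3 * (Y + γ) ^ 3 := by
      calc |-(γ * ε * y p) - γ ^ 2| ^ 3 ≤ (γ * (Y + γ)) ^ 3 :=
            pow_le_pow_left₀ (abs_nonneg _) h2 3
        _ = γ ^ 3 * (Y + γ) ^ 3 := by ring
    have h4 : -(γ ^ 3 * Y) ≤ γ ^ 3 * (ε * y p) := by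
      have h5 : |ε * y p| ≤ Y := by rw [abs_mul, hεa, one_mul]; exact hy p
      have h6 := (abs_le.mp h5).1
      have h7 : 0 ≤ γ ^ 3 := by positivity
      nlinarith
    have h8 : (-(γ * ε * y p) - γ ^ 2) ^ 2 / 2 =
        γ ^ 2 * (y p) ^ 2 / 2 + γ ^ 3 * (ε * y p) + γ ^ 4 / 2 := by
      have : (-(γ * ε * y p) - γ ^ 2) ^ 2 =
          γ ^ 2 * ε ^ 2 * (y p) ^ 2 + 2 * (γ ^ 3 * (ε * y p)) + γ ^ 4 := by ring
      rw [this, hε2]; ring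
    have h9 : 0 ≤ γ ^ 4 / 2 := by positivity
    rw [hc]
    linarith
  -- upper bound of the lower bound
  have key2 : ∀ p, 1 - γ * ε * y p - γ ^ 2 + γ ^ 2 * (y p) ^ 2 / 2 - c ≤
      1 + γ * Y + γ ^ 2 * Y ^ 2 := by
    intro p
    have h5 : |ε * y p| ≤ Y := by rw [abs_mul, hεa, one_mul]; exact hy p
    have h6 := (abs_le.mp h5).1
    have h7 : -(γ * Y) ≤ γ * (ε * y p) := by nlinarith
    have h8 : (y p) ^ 2 ≤ Y ^ 2 := sq_le_sq' (by linarith [(abs_le.mp (hy p)).1]) (abs_le.mp (hy p)).2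
    have h9 : γ ^ 2 * (y p) ^ 2 ≤ γ ^ 2 * Y ^ 2 := mul_le_mul_of_nonneg_left h8 (sq_nonneg γ)
    have h10 : 0 ≤ γ ^ 2 * (y p) ^ 2 := by positivity
    have h11 : 0 ≤ γ ^ 2 := sq_nonneg γ
    nlinarith
  have hU0 : 0 ≤ 1 + γ * Y + γ ^ 2 * Y ^ 2 := by positivity
  have hsumQ : ∑ p, (1 - γ * ε * y p - γ ^ 2 + γ ^ 2 * (y p) ^ 2 / 2 - c) -
      r * (1 + γ * Y + γ ^ 2 * Y ^ 2) ≤ ∑ p ∈ Q, Real.exp (-(γ * ε * y p) - γ ^ 2) := by
    have h1 : ∑ p ∈ univ \ Q, (1 - γ * ε * y p - γ ^ 2 + γ ^ 2 * (y p) ^ 2 / 2 - c) ≤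
        r * (1 + γ * Y + γ ^ 2 * Y ^ 2) := by
      calc ∑ p ∈ univ \ Q, (1 - γ * ε * y p - γ ^ 2 + γ ^ 2 * (y p) ^ 2 / 2 - c)
          ≤ ∑ p ∈ univ \ Q, (1 + γ * Y + γ ^ 2 * Y ^ 2) := Finset.sum_le_sum (fun p _ => key2 p)
        _ = ((univ \ Q).card : ℝ) * (1 + γ * Y + γ ^ 2 * Y ^ 2) := by
          rw [Finset.sum_const, nsmul_eq_mul]
        _ ≤ r * (1 + γ * Y + γ ^ 2 * Y ^ 2) := by
          apply mul_le_mul_of_nonneg_right _ hU0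
          exact_mod_cast hQ
    have h2 := Finset.sum_sdiff (Finset.subset_univ Q)
      (f := fun p => (1 - γ * ε * y p - γ ^ 2 + γ ^ 2 * (y p) ^ 2 / 2 - c))
    have h3 : ∑ p ∈ Q, (1 - γ * ε * y p - γ ^ 2 + γ ^ 2 * (y p) ^ 2 / 2 - c) ≤
        ∑ p ∈ Q, Real.exp (-(γ * ε * y p) - γ ^ 2) := Finset.sum_le_sum (fun p _ => key p)
    linarith
  have hsum : ∑ p, (1 - γ * ε * y p - γ ^ 2 + γ ^ 2 * (y p) ^ 2 / 2 - c) =
      N * (1 - γ ^ 2 - c) - γ * ε * (∑ p, y p) + γ ^ 2 / 2 * ∑ p, (y p) ^ 2 := by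
    have h1 : ∀ p, (1 - γ * ε * y p - γ ^ 2 + γ ^ 2 * (y p) ^ 2 / 2 - c) =
        (1 - γ ^ 2 - c) - γ * ε * y p + γ ^ 2 / 2 * (y p) ^ 2 := fun p => by ring
    rw [Finset.sum_congr rfl (fun p _ => h1 p), Finset.sum_add_distrib, Finset.sum_sub_distrib,
      Finset.sum_const, nsmul_eq_mul, Finset.card_univ, ← Finset.mul_sum, ← Finset.mul_sum]
  rw [hsum] at hsumQ
  rw [le_div_iff₀ hN]
  have h1 : γ ^ 2 / 2 * (N * (2 - τ)) ≤ γ ^ 2 / 2 * ∑ p, (y p) ^ 2 :=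
    mul_le_mul_of_nonneg_left hs (by positivity)
  have h2 : (1 - γ * ε * ((∑ p, y p) / N) -
        (r * (1 + γ * Y + γ ^ 2 * Y ^ 2) / N + γ ^ 2 * τ / 2 + γ ^ 3 * Y +
          γ ^ 3 * (Y + γ) ^ 3)) * N = N * (1 - γ ^ 2 - c) - γ * ε * (∑ p, y p) +
          γ ^ 2 / 2 * (N * (2 - τ)) - r * (1 + γ * Y + γ ^ 2 * Y ^ 2) := by
    rw [hc]
    field_simp
    ring
  rw [h2]
  linarith


end Pool.Agent.Lib_helper46.CC

namespace Pool.Agent.Lib_helper46.CC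

alias co1 := co1_pr

end Pool.Agent.Lib_helper46.CC
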