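import Mathlib
import Pool.Agent.Lib_helper46.CCF.WBase

/-! Block CO2, written by helper80. -/

set_option autoImplicit false

namespace Pool.Agent.Lib_helper46.CC

open Finset Pool.Agent.Lib_helper70.Chains
open scoped Classical

theorem co2_exp_up (u : ℝ) (h0 : 0 ≤ u) (h1 : u ≤ 1 / 2) : Real.exp u ≤ 1 + 2 * u := by
  have h2 : Real.exp u ≤ 1 / (1 - u) := by
    have h3 := Real.add_one_le_exp (-u)
    have h4 : 0 < 1 - u := by linarith
    rw [le_div_iff₀ h4]
    have h5 : Real.exp u * (1 - u) ≤ Real.exp u * Real.exp (-u) :=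
      mul_le_mul_of_nonneg_left (by linarith) (Real.exp_pos u).le
    rw [← Real.exp_add] at h5
    simpa using h5
  have h3 : 1 / (1 - u) ≤ 1 + 2 * u := by
    rw [div_le_iff₀ (by linarith)]
    nlinarith
  linarith

theorem co2_term {P : Type} (Q : Finset P) (hQ : 0 < Q.card)
    (a : P → ℝ) (x : ℝ) (ha : ∀ p, |a p| ≤ x) (p : P) :
    Real.exp (-(2 * x)) / Q.card ≤ Real.exp (a p) / ∑ p' ∈ Q, Real.exp (a p') ∧
      Real.exp (a p) / ∑ p' ∈ Q, Real.exp (a p') ≤ Real.exp (2 * x) / Q.card := by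
  have hM : (0 : ℝ) < (Q.card : ℝ) := by exact_mod_cast hQ
  have hlo : (Q.card : ℝ) * Real.exp (-x) ≤ ∑ p' ∈ Q, Real.exp (a p') := by
    calc (Q.card : ℝ) * Real.exp (-x) = ∑ p' ∈ Q, Real.exp (-x) := by
          rw [Finset.sum_const, nsmul_eq_mul]
      _ ≤ _ := Finset.sum_le_sum (fun p' _ => Real.exp_le_exp.mpr (abs_le.mp (ha p')).1)
  have hup : ∑ p' ∈ Q, Real.exp (a p') ≤ (Q.card : ℝ) * Real.exp x := by
    calc ∑ p' ∈ Q, Real.exp (a p') ≤ ∑ p' ∈ Q, Real.exp x :=
          Finset.sum_le_sum (fun p' _ => Real.exp_le_exp.mpr (abs_le.mp (ha p')).2)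
      _ = _ := by rw [Finset.sum_const, nsmul_eq_mul]
  have hpos : 0 < ∑ p' ∈ Q, Real.exp (a p') :=
    lt_of_lt_of_le (mul_pos hM (Real.exp_pos _)) hlo
  have h1 : Real.exp (a p) ≤ Real.exp x := Real.exp_le_exp.mpr (abs_le.mp (ha p)).2
  have h2 : Real.exp (-x) ≤ Real.exp (a p) := Real.exp_le_exp.mpr (abs_le.mp (ha p)).1
  constructor
  · rw [div_le_div_iff₀ hM hpos]
    calc Real.exp (-(2 * x)) * ∑ p' ∈ Q, Real.exp (a p')
        ≤ Real.exp (-(2 * x)) * ((Q.card : ℝ) * Real.exp x) :=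
          mul_le_mul_of_nonneg_left hup (Real.exp_pos _).le
      _ = Real.exp (-x) * Q.card := by
          rw [mul_comm (Q.card : ℝ), ← mul_assoc, ← Real.exp_add]
          congr 2; ring
      _ ≤ Real.exp (a p) * Q.card := mul_le_mul_of_nonneg_right h2 hM.le
  · rw [div_le_div_iff₀ hpos hM]
    calc Real.exp (a p) * Q.card ≤ Real.exp x * Q.card := mul_le_mul_of_nonneg_right h1 hM.le
      _ = Real.exp (2 * x) * ((Q.card : ℝ) * Real.exp (-x)) := by
          rw [mul_comm (Q.card : ℝ), ← mul_assoc, ← Real.exp_add]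
          congr 2; ring
      _ ≤ Real.exp (2 * x) * ∑ p' ∈ Q, Real.exp (a p') :=
          mul_le_mul_of_nonneg_left hlo (Real.exp_pos _).le

theorem co2_pr {P : Type} [Fintype P] [DecidableEq P] (Q : Finset P) (r : ℕ)
    (hQ : (univ \ Q).card ≤ r) (hr : 2 * r ≤ Fintype.card P) (hP : 0 < Fintype.card P)
    (a a' : P → ℝ) (x : ℝ) (hx : x ≤ 1 / 8) (ha : ∀ p, |a p| ≤ x) (ha' : ∀ p, |a' p| ≤ x) :
    |(∑ p ∈ Q, (Real.exp (a p) / ∑ p' ∈ Q, Real.exp (a p')) *
        (Real.exp (a' p) / ∑ p' ∈ Q, Real.exp (a' p'))) - 1 / Fintype.card P| ≤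
      (8 * x + 4 * r / Fintype.card P) / Fintype.card P := by
  have hNe : Nonempty P := Fintype.card_pos_iff.mp hP
  have hx0 : 0 ≤ x := le_trans (abs_nonneg _) (ha (Classical.choice hNe))
  have hcard : (univ \ Q).card + Q.card = Fintype.card P := by
    rw [Finset.card_sdiff_add_card_eq_card (Finset.subset_univ Q), Finset.card_univ]
  have hQpos : 0 < Q.card := by omega
  have hN : (0 : ℝ) < (Fintype.card P : ℝ) := by exact_mod_cast hP
  have hM : (0 : ℝ) < (Q.card : ℝ) := by exact_mod_cast hQpos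
  have hMN : (Q.card : ℝ) ≤ (Fintype.card P : ℝ) := by exact_mod_cast (by omega : Q.card ≤ _)
  have hMN2 : (Fintype.card P : ℝ) - r ≤ (Q.card : ℝ) := by
    have : (Fintype.card P : ℕ) ≤ Q.card + r := by omega
    have : (Fintype.card P : ℝ) ≤ Q.card + r := by exact_mod_cast this
    linarith
  have hrN : 2 * (r : ℝ) ≤ (Fintype.card P : ℝ) := by exact_mod_cast hr
  set N : ℝ := (Fintype.card P : ℝ) with hNdef
  set M : ℝ := (Q.card : ℝ) with hMdef
  set W : ℝ := ∑ p ∈ Q, (Real.exp (a p) / ∑ p' ∈ Q, Real.exp (a p')) *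
        (Real.exp (a' p) / ∑ p' ∈ Q, Real.exp (a' p')) with hW
  have hlo : Real.exp (-(4 * x)) / M ≤ W := by
    have h1 : ∀ p ∈ Q, (Real.exp (-(2 * x)) / M) * (Real.exp (-(2 * x)) / M) ≤
        (Real.exp (a p) / ∑ p' ∈ Q, Real.exp (a p')) *
        (Real.exp (a' p) / ∑ p' ∈ Q, Real.exp (a' p')) := fun p _ =>
      mul_le_mul (co2_term Q hQpos a x ha p).1 (co2_term Q hQpos a' x ha' p).1
        (by positivity) (le_trans (by positivity) (co2_term Q hQpos a x ha p).1)
    have h2 := Finset.sum_le_sum h1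
    rw [Finset.sum_const, nsmul_eq_mul] at h2
    have h3 : (Q.card : ℝ) * ((Real.exp (-(2 * x)) / M) * (Real.exp (-(2 * x)) / M)) =
        Real.exp (-(4 * x)) / M := by
      have : Real.exp (-(4 * x)) = Real.exp (-(2 * x)) * Real.exp (-(2 * x)) := by
        rw [← Real.exp_add]; congr 1; ring
      rw [this, ← hMdef]
      field_simp
    rw [h3] at h2
    exact h2
  have hup : W ≤ Real.exp (4 * x) / M := by
    have h1 : ∀ p ∈ Q, (Real.exp (a p) / ∑ p' ∈ Q, Real.exp (a p')) *
        (Real.exp (a' p) / ∑ p' ∈ Q, Real.exp (a' p')) ≤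
        (Real.exp (2 * x) / M) * (Real.exp (2 * x) / M) := fun p _ =>
      mul_le_mul (co2_term Q hQpos a x ha p).2 (co2_term Q hQpos a' x ha' p).2
        (le_trans (by positivity) (co2_term Q hQpos a' x ha' p).1) (by positivity)
    have h2 := Finset.sum_le_sum h1
    rw [Finset.sum_const, nsmul_eq_mul] at h2
    have h3 : (Q.card : ℝ) * ((Real.exp (2 * x) / M) * (Real.exp (2 * x) / M)) =
        Real.exp (4 * x) / M := by
      have : Real.exp (4 * x) = Real.exp (2 * x) * Real.exp (2 * x) := by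
        rw [← Real.exp_add]; congr 1; ring
      rw [this, ← hMdef]
      field_simp
    rw [h3] at h2
    exact h2
  have hr0 : (0 : ℝ) ≤ r := Nat.cast_nonneg r
  rw [abs_le]
  constructor
  · have h1 : (1 - 4 * x) / N ≤ Real.exp (-(4 * x)) / M := by
      have h2 : 1 - 4 * x ≤ Real.exp (-(4 * x)) := by
        have := Real.add_one_le_exp (-(4 * x)); linarith
      calc (1 - 4 * x) / N ≤ (1 - 4 * x) / M := by
            apply div_le_div_of_nonneg_left _ hM hMN
            linarith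
        _ ≤ _ := by gcongr
    have h2 : (1 - 4 * x) / N = 1 / N - 4 * x / N := by ring
    have h3 : (8 * x + 4 * r / N) / N = 8 * x / N + 4 * r / N / N := by ring
    have h4 : 0 ≤ 4 * r / N / N := by positivity
    have h5 : 4 * x / N ≤ 8 * x / N := by gcongr; linarith
    rw [h3]
    linarith
  · have h1 : Real.exp (4 * x) / M ≤ (1 + 8 * x) * (1 + 2 * (r / N)) / N := by
      have h2 : Real.exp (4 * x) ≤ 1 + 8 * x := by
        have := co2_exp_up (4 * x) (by linarith) (by linarith); linarith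
      have h3 : 1 / M ≤ (1 + 2 * (r / N)) / N := by
        rw [div_le_div_iff₀ hM hN]
        have h4 : (1 + 2 * (r / N)) * (N - r) ≤ (1 + 2 * (r / N)) * M :=
          mul_le_mul_of_nonneg_left hMN2 (by positivity)
        have h5 : (1 + 2 * (r / N)) * (N - r) = N + r * (1 - 2 * (r / N)) := by
          field_simp
          ring
        have h6 : 2 * (r / N) ≤ 1 := by
          rw [← mul_div_assoc, div_le_one hN]
          exact hrN
        nlinarith [mul_nonneg hr0 (by linarith : (0 : ℝ) ≤ 1 - 2 * (r / N))]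
      calc Real.exp (4 * x) / M = Real.exp (4 * x) * (1 / M) := by ring
        _ ≤ (1 + 8 * x) * ((1 + 2 * (r / N)) / N) :=
          mul_le_mul h2 h3 (by positivity) (by linarith)
        _ = _ := by ring
    have h2 : (1 + 8 * x) * (1 + 2 * (r / N)) ≤ 1 + 8 * x + 4 * r / N := by
      have h3 : 0 ≤ r / N := by positivity
      have h4 : 4 * r / N = 4 * (r / N) := by ring
      rw [h4]
      nlinarith
    have h3 : (1 + 8 * x) * (1 + 2 * (r / N)) / N ≤ (1 + 8 * x + 4 * r / N) / N := by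
      gcongr
    have h4 : (1 + 8 * x + 4 * r / N) / N = 1 / N + (8 * x + 4 * r / N) / N := by ring
    linarith


end Pool.Agent.Lib_helper46.CC

namespace Pool.Agent.Lib_helper46.CC

alias co2 := co2_pr

end Pool.Agent.Lib_helper46.CC
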