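import Mathlib
import Pool.Agent.Lib_helper46.CCF.WBase

/-! Block COX, written by helper93. -/

set_option autoImplicit false

namespace Pool.Agent.Lib_helper46.CC

open Finset
open scoped Classical

theorem cox_X {r k R : ℕ} (i : Fin r → Fin k) (c : Fin r → Fin R)
    (f : Oth i → Fin R) (p : Fin R) (hp : ∀ m, c m ≠ p) (m : Fin r) :
    (usz (join i c f) p m : ℝ) - 2 * (pas (join i c f) p m (i m) : ℝ) =
      ∑ u : Oth i, if u.1.1 = m ∧ f u = p then (if u.1.2 < i u.1.1 then (-1 : ℝ) else 1) else 0 := by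
  have h1 : (usz (join i c f) p m : ℝ) = ∑ j : Fin k, if join i c f m j = p then (1 : ℝ) else 0 := by
    unfold usz
    rw [Finset.sum_boole]
  have h2 : (pas (join i c f) p m (i m) : ℝ) =
      ∑ j : Fin k, if (join i c f m j = p ∧ (j : ℕ) < (i m : ℕ)) then (1 : ℝ) else 0 := by
    unfold pas
    rw [Finset.sum_boole]
  let G : Fin r × Fin k → ℝ := fun x => if x.1 = m ∧ join i c f x.1 x.2 = p then
    (if x.2 < i x.1 then (-1 : ℝ) else 1) else 0
  have h3 : ∑ u : Oth i, (if u.1.1 = m ∧ f u = p then (if u.1.2 < i u.1.1 then (-1 : ℝ) else 1) else 0) =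
      ∑ u : Oth i, G u.1 := by
    apply Finset.sum_congr rfl
    intro u _
    have hu : join i c f u.1.1 u.1.2 = f u := by
      unfold join
      rw [dif_neg u.2]
    simp only [G, hu]
  have h4 : ∑ u : Oth i, G u.1 = ∑ x ∈ univ.filter (fun x : Fin r × Fin k => x.2 ≠ i x.1), G x := by
    rw [Finset.sum_subtype (univ.filter (fun x : Fin r × Fin k => x.2 ≠ i x.1))
      (p := fun x => x.2 ≠ i x.1) (by intro x; simp) G]
  have h5 : ∑ x ∈ univ.filter (fun x : Fin r × Fin k => x.2 ≠ i x.1), G x = ∑ x, G x := by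
    apply Finset.sum_subset (Finset.filter_subset _ _)
    intro x _ hx
    have hx' : x.2 = i x.1 := by
      by_contra hcon
      exact hx (Finset.mem_filter.2 ⟨Finset.mem_univ _, hcon⟩)
    simp only [G]
    rw [if_neg]
    rintro ⟨_, h⟩
    rw [hx'] at h
    unfold join at h
    rw [dif_pos rfl] at h
    exact hp _ h
  have h6 : ∑ x, G x = ∑ j : Fin k, if join i c f m j = p then
      (if j < i m then (-1 : ℝ) else 1) else 0 := by
    rw [Fintype.sum_prod_type]
    rw [Finset.sum_eq_single m]
    · apply Finset.sum_congr rfl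
      intro j _
      simp [G]
    · intro b _ hb
      apply Finset.sum_eq_zero
      intro j _
      simp [G, hb]
    · intro h
      exact absurd (Finset.mem_univ _) h
  rw [h3, h4, h5, h6, h1, h2, Finset.mul_sum, ← Finset.sum_sub_distrib]
  apply Finset.sum_congr rfl
  intro j _
  by_cases ha : join i c f m j = p
  · by_cases hb : j < i m
    · have hb' : (j : ℕ) < (i m : ℕ) := hb
      simp only [ha, hb, hb', and_self, if_true]
      norm_num
    · have hb' : ¬ (j : ℕ) < (i m : ℕ) := hb
      simp only [ha, hb, hb', and_false, if_true, if_false]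
      norm_num
  · simp [ha]

/-- Block COX -/
theorem expo_eq_pr {r k R t h : ℕ} (ht : 0 < t) (i : Fin r → Fin k) (c : Fin r → Fin R)
    (f : Oth i → Fin R) (hf : Fre i (join i c f)) (w : Fin R → PW r t) :
    expo (h := h) i c (join i c f) w =
      (∑ u : Oth i, (-(((h : ℝ) / Real.sqrt t) * (if u.1.2 < i u.1.1 then -1 else 1) *
        (Dl (w (f u)) u.1.1 / Real.sqrt t)) - ((h : ℝ) / Real.sqrt t) ^ 2)) +
      ∑ u : Oth i, ∑ u' ∈ univ.filter (fun u' => u' ≠ u), if f u = f u' then
        -((((h : ℝ) / Real.sqrt t) ^ 2 / 2) * (if u.1.2 < i u.1.1 then -1 else 1) *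
          (if u'.1.2 < i u'.1.1 then -1 else 1) * Gm r u.1.1 u'.1.1) else 0 := by
  have htR : (0 : ℝ) < t := by exact_mod_cast ht
  have hs : Real.sqrt t ≠ 0 := (Real.sqrt_pos.2 htR).ne'
  have hs2 : Real.sqrt t * Real.sqrt t = t := Real.mul_self_sqrt htR.le
  -- frozen parts contain all values of `f`
  have hfr : ∀ u : Oth i, ∀ m, c m ≠ f u := by
    intro u m hc
    have := hf u.1.1 u.1.2 u.2 m
    apply this
    unfold join
    rw [dif_neg u.2, dif_pos rfl]
    exact hc.symm
  set Fz : Finset (Fin R) := univ.filter (fun p => ∀ m, c m ≠ p) with hFz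
  have hmem : ∀ u : Oth i, f u ∈ Fz := fun u => by
    rw [hFz, Finset.mem_filter]
    exact ⟨Finset.mem_univ _, hfr u⟩
  let e : Oth i → ℝ := fun u => if u.1.2 < i u.1.1 then (-1 : ℝ) else 1
  have he : ∀ u, e u * e u = 1 := by
    intro u
    simp only [e]
    split_ifs <;> norm_num
  -- one part
  have hX : ∀ p ∈ Fz, ∀ m, (usz (join i c f) p m : ℝ) - 2 * (pas (join i c f) p m (i m) : ℝ) =
      ∑ u : Oth i, if u.1.1 = m ∧ f u = p then e u else 0 := by
    intro p hp m
    rw [hFz, Finset.mem_filter] at hp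
    exact cox_X i c f p hp.2 m
  have hA : ∀ p ∈ Fz, ∑ m, (((usz (join i c f) p m : ℝ) - 2 * (pas (join i c f) p m (i m) : ℝ)) * h) *
      Dl (w p) m = ∑ u : Oth i, if f u = p then e u * h * Dl (w p) u.1.1 else 0 := by
    intro p hp
    calc _ = ∑ m, ∑ u : Oth i, if u.1.1 = m ∧ f u = p then e u * h * Dl (w p) m else 0 := by
          apply Finset.sum_congr rfl
          intro m _
          rw [hX p hp m, Finset.sum_mul, Finset.sum_mul]
          apply Finset.sum_congr rfl
          intro u _
          split_ifs <;> ring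
      _ = ∑ u : Oth i, ∑ m, if u.1.1 = m ∧ f u = p then e u * h * Dl (w p) m else 0 := Finset.sum_comm
      _ = _ := by
          apply Finset.sum_congr rfl
          intro u _
          rw [Finset.sum_eq_single u.1.1]
          · by_cases h1 : f u = p
            · simp [h1]
            · simp [h1]
          · intro b _ hb
            rw [if_neg]
            rintro ⟨h1, _⟩
            exact hb h1.symm
          · intro h1
            exact absurd (Finset.mem_univ _) h1
  have hB : ∀ p ∈ Fz, QF (fun m => ((usz (join i c f) p m : ℝ) -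
      2 * (pas (join i c f) p m (i m) : ℝ)) * h) =
      ∑ u : Oth i, ∑ u' : Oth i, if f u = p ∧ f u' = p then
        (h : ℝ) ^ 2 * (e u * e u' * Gm r u.1.1 u'.1.1) else 0 := by
    intro p hp
    unfold QF
    calc _ = ∑ m, ∑ m', ∑ u : Oth i, ∑ u' : Oth i,
          (if u.1.1 = m ∧ u'.1.1 = m' then (if f u = p ∧ f u' = p then
            (h : ℝ) ^ 2 * (e u * e u' * Gm r m m') else 0) else 0) := by
          apply Finset.sum_congr rfl
          intro m _
          apply Finset.sum_congr rfl
          intro m' _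
          beta_reduce
          rw [hX p hp m, hX p hp m']
          rw [mul_assoc (Gm r m m'), show (∑ u : Oth i, (if u.1.1 = m ∧ f u = p then e u else 0)) * (h : ℝ) *
            ((∑ u : Oth i, (if u.1.1 = m' ∧ f u = p then e u else 0)) * (h : ℝ)) =
            (h : ℝ) ^ 2 * ((∑ u : Oth i, (if u.1.1 = m ∧ f u = p then e u else 0)) *
            (∑ u : Oth i, (if u.1.1 = m' ∧ f u = p then e u else 0))) by ring]
          rw [Finset.sum_mul_sum, Finset.mul_sum, Finset.mul_sum]
          apply Finset.sum_congr rfl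
          intro u _
          rw [Finset.mul_sum, Finset.mul_sum]
          apply Finset.sum_congr rfl
          intro u' _
          by_cases h1 : u.1.1 = m <;> by_cases h2 : u'.1.1 = m' <;> by_cases h3 : f u = p <;>
            by_cases h4 : f u' = p <;> simp [h1, h2, h3, h4] <;> ring
      _ = ∑ u : Oth i, ∑ u' : Oth i, ∑ m, ∑ m',
          (if u.1.1 = m ∧ u'.1.1 = m' then (if f u = p ∧ f u' = p then
            (h : ℝ) ^ 2 * (e u * e u' * Gm r m m') else 0) else 0) := by
          rw [Finset.sum_congr rfl (fun m _ => Finset.sum_comm)]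
          rw [Finset.sum_comm]
          apply Finset.sum_congr rfl
          intro u _
          rw [Finset.sum_congr rfl (fun m _ => Finset.sum_comm)]
          rw [Finset.sum_comm]
      _ = _ := by
          apply Finset.sum_congr rfl
          intro u _
          apply Finset.sum_congr rfl
          intro u' _
          rw [Finset.sum_eq_single u.1.1]
          · rw [Finset.sum_eq_single u'.1.1]
            · simp
            · intro b _ hb
              rw [if_neg]
              rintro ⟨_, h1⟩
              exact hb h1.symm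
            · intro h1
              exact absurd (Finset.mem_univ _) h1
          · intro b _ hb
            apply Finset.sum_eq_zero
            intro b' _
            rw [if_neg]
            rintro ⟨h1, _⟩
            exact hb h1.symm
          · intro h1
            exact absurd (Finset.mem_univ _) h1
  have hA' : ∑ p ∈ Fz, ∑ u : Oth i, (if f u = p then e u * h * Dl (w p) u.1.1 else 0) =
      ∑ u : Oth i, e u * h * Dl (w (f u)) u.1.1 := by
    rw [Finset.sum_comm]
    apply Finset.sum_congr rfl
    intro u _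
    rw [Finset.sum_eq_single (f u)]
    · simp
    · intro b _ hb
      rw [if_neg]
      exact fun h1 => hb h1.symm
    · intro h1
      exact absurd (hmem u) h1
  have hB' : ∑ p ∈ Fz, ∑ u : Oth i, ∑ u' : Oth i, (if f u = p ∧ f u' = p then
        (h : ℝ) ^ 2 * (e u * e u' * Gm r u.1.1 u'.1.1) else 0) =
      ∑ u : Oth i, ∑ u' : Oth i, if f u = f u' then
        (h : ℝ) ^ 2 * (e u * e u' * Gm r u.1.1 u'.1.1) else 0 := by
    rw [Finset.sum_comm]
    apply Finset.sum_congr rfl
    intro u _
    rw [Finset.sum_comm]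
    apply Finset.sum_congr rfl
    intro u' _
    rw [Finset.sum_eq_single (f u)]
    · by_cases h1 : f u = f u'
      · rw [if_pos ⟨rfl, h1.symm⟩, if_pos h1]
      · rw [if_neg, if_neg h1]
        rintro ⟨_, h2⟩
        exact h1 h2.symm
    · intro b _ hb
      rw [if_neg]
      rintro ⟨h1, _⟩
      exact hb h1.symm
    · intro h1
      exact absurd (hmem u) h1
  -- the diagonal
  have hdiag : ∀ u : Oth i, ∑ u' : Oth i, (if f u = f u' then
      (h : ℝ) ^ 2 * (e u * e u' * Gm r u.1.1 u'.1.1) else 0) =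
      2 * (h : ℝ) ^ 2 + ∑ u' ∈ univ.filter (fun u' => u' ≠ u), if f u = f u' then
        (h : ℝ) ^ 2 * (e u * e u' * Gm r u.1.1 u'.1.1) else 0 := by
    intro u
    have h1 : (univ.filter (fun u' : Oth i => u' ≠ u)) = univ.erase u := by
      ext x
      simp
    rw [h1, ← Finset.add_sum_erase univ _ (Finset.mem_univ u)]
    congr 1
    rw [if_pos rfl, he]
    unfold Gm
    rw [if_pos rfl]
    ring
  unfold expo
  rw [← hFz]
  have hsplit : ∑ p ∈ Fz,
      ((∑ m, (((usz (join i c f) p m : ℝ) - 2 * (pas (join i c f) p m (i m) : ℝ)) * h) * Dl (w p) m) +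
        QF (fun m => ((usz (join i c f) p m : ℝ) - 2 * (pas (join i c f) p m (i m) : ℝ)) * h) / 2) =
      (∑ u : Oth i, e u * h * Dl (w (f u)) u.1.1) +
      (∑ u : Oth i, ∑ u' : Oth i, if f u = f u' then
        (h : ℝ) ^ 2 * (e u * e u' * Gm r u.1.1 u'.1.1) else 0) / 2 := by
    rw [Finset.sum_add_distrib, ← hA', ← hB']
    congr 1
    · exact Finset.sum_congr rfl hA
    · rw [Finset.sum_div]
      exact Finset.sum_congr rfl (fun p hp => by rw [hB p hp])
  rw [hsplit, Finset.sum_congr rfl (fun u _ => hdiag u), Finset.sum_add_distrib]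
  have hpair : ∑ u : Oth i, ∑ u' ∈ univ.filter (fun u' => u' ≠ u), (if f u = f u' then
        -((((h : ℝ) / Real.sqrt t) ^ 2 / 2) * (if u.1.2 < i u.1.1 then (-1 : ℝ) else 1) *
          (if u'.1.2 < i u'.1.1 then (-1 : ℝ) else 1) * Gm r u.1.1 u'.1.1) else 0) =
      -(1 / (2 * (t : ℝ))) * ∑ u : Oth i, ∑ u' ∈ univ.filter (fun u' => u' ≠ u), if f u = f u' then
        (h : ℝ) ^ 2 * (e u * e u' * Gm r u.1.1 u'.1.1) else 0 := by
    rw [Finset.mul_sum]
    apply Finset.sum_congr rfl
    intro u _
    rw [Finset.mul_sum]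
    apply Finset.sum_congr rfl
    intro u' _
    by_cases h1 : f u = f u'
    · rw [if_pos h1, if_pos h1]
      simp only [e]
      rw [div_pow, sq (Real.sqrt t), hs2]
      field_simp
    · rw [if_neg h1, if_neg h1, mul_zero]
  have hsing : ∑ u : Oth i, (-(((h : ℝ) / Real.sqrt t) * (if u.1.2 < i u.1.1 then (-1 : ℝ) else 1) *
        (Dl (w (f u)) u.1.1 / Real.sqrt t)) - ((h : ℝ) / Real.sqrt t) ^ 2) =
      -(1 / (t : ℝ)) * ((∑ u : Oth i, e u * h * Dl (w (f u)) u.1.1) + ∑ u : Oth i, (h : ℝ) ^ 2) := by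
    rw [← Finset.sum_add_distrib, Finset.mul_sum]
    apply Finset.sum_congr rfl
    intro u _
    have h1 : ((h : ℝ) / Real.sqrt t) * (if u.1.2 < i u.1.1 then (-1 : ℝ) else 1) *
        (Dl (w (f u)) u.1.1 / Real.sqrt t) = e u * h * Dl (w (f u)) u.1.1 / t := by
      have h9 : ∀ s e' D' : ℝ, s ≠ 0 → (h : ℝ) / s * e' * (D' / s) = e' * h * D' / (s * s) := by
        intro s e' D' h0
        field_simp
      rw [h9 _ _ _ hs, hs2]
    rw [h1, div_pow, sq (Real.sqrt t), hs2]
    ring
  rw [hpair, hsing]
  have h2 : ∑ _u : Oth i, (2 * (h : ℝ) ^ 2) = 2 * ∑ _u : Oth i, (h : ℝ) ^ 2 := by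
    rw [Finset.mul_sum]
  rw [h2]
  ring

end Pool.Agent.Lib_helper46.CC

namespace Pool.Agent.Lib_helper46.CC

alias expo_eq := expo_eq_pr

end Pool.Agent.Lib_helper46.CC
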