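import Mathlib
import Pool.Agent.Lib_helper46.CCF.WBase

/-! Block JEN, written by helper80. -/

set_option autoImplicit false

namespace Pool.Agent.Lib_helper46.CC

open Finset Pool.Agent.Lib_helper70.Chains
open scoped Classical

/-- expectation of a product indicator under a product law on `Q` -/
theorem jen_pair {O P : Type} [Fintype O] [Fintype P] [DecidableEq O] [DecidableEq P] (Q : Finset P)
    (W : O → P → ℝ) (hW : ∀ u, ∑ p ∈ Q, W u p = 1) (u u' : O) (huu : u' ≠ u) :
    ∑ f ∈ Fintype.piFinset (fun _ : O => Q), (∏ v, W v (f v)) * (if f u = f u' then 1 else 0) =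
      ∑ p ∈ Q, W u p * W u' p := by
  have h1 : ∀ f ∈ Fintype.piFinset (fun _ : O => Q),
      (∏ v, W v (f v)) * (if f u = f u' then (1 : ℝ) else 0) =
      ∑ p ∈ Q, ∏ v, (W v (f v) * (if v = u ∨ v = u' then (if f v = p then 1 else 0) else 1)) := by
    intro f hf
    rw [Fintype.mem_piFinset] at hf
    have h2 : ∀ p, ∏ v, (W v (f v) * (if v = u ∨ v = u' then (if f v = p then (1 : ℝ) else 0)
        else 1)) = (∏ v, W v (f v)) * ((if f u = p then 1 else 0) * (if f u' = p then 1 else 0)) := by
      intro p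
      rw [Finset.prod_mul_distrib]
      congr 1
      have h3 : ∏ v, (if v = u ∨ v = u' then (if f v = p then (1 : ℝ) else 0) else 1) =
          ∏ v ∈ ({u, u'} : Finset O), (if f v = p then (1 : ℝ) else 0) := by
        rw [← Finset.prod_filter]
        congr 1
        ext v; simp
      rw [h3, Finset.prod_pair (Ne.symm huu)]
    rw [Finset.sum_congr rfl (fun p _ => h2 p), ← Finset.mul_sum]
    congr 1
    rw [Finset.sum_eq_single (f u)]
    · simp [eq_comm]
    · intro p _ hp
      simp [Ne.symm hp]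
    · intro h; exact absurd (hf u) h
  rw [Finset.sum_congr rfl h1, Finset.sum_comm]
  apply Finset.sum_congr rfl
  intro p hp
  have h4 := (Finset.prod_univ_sum (fun _ : O => Q) (fun v q =>
    W v q * (if v = u ∨ v = u' then (if q = p then (1 : ℝ) else 0) else 1))).symm
  rw [h4]
  have h5 : ∀ v, ∑ q ∈ Q, W v q * (if v = u ∨ v = u' then (if q = p then (1 : ℝ) else 0) else 1) =
      if v = u ∨ v = u' then W v p else 1 := by
    intro v
    split_ifs with hv
    · rw [Finset.sum_eq_single p]
      · simp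
      · intro q _ hq; simp [hq]
      · intro h; exact absurd hp h
    · simp [hW v]
  rw [Finset.prod_congr rfl (fun v _ => h5 v), ← Finset.prod_filter]
  have h6 : (univ.filter (fun v => v = u ∨ v = u')) = ({u, u'} : Finset O) := by
    ext v; simp
  rw [h6, Finset.prod_pair (Ne.symm huu)]

theorem jen_pr {O P : Type} [Fintype O] [Fintype P] [DecidableEq O] [DecidableEq P] (Q : Finset P)
    (hQ : Q.Nonempty) (a : O → P → ℝ) (b : O → O → ℝ) :
    (∏ u, ∑ p ∈ Q, Real.exp (a u p)) *
        Real.exp (∑ u, ∑ u' ∈ univ.filter (fun u' => u' ≠ u), b u u' *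
          ∑ p ∈ Q, (Real.exp (a u p) / ∑ p' ∈ Q, Real.exp (a u p')) *
            (Real.exp (a u' p) / ∑ p' ∈ Q, Real.exp (a u' p'))) ≤
      ∑ f : O → P, if ∀ u, f u ∈ Q then
        Real.exp ((∑ u, a u (f u)) + ∑ u, ∑ u' ∈ univ.filter (fun u' => u' ≠ u),
          if f u = f u' then b u u' else 0) else 0 := by
  set Z : O → ℝ := fun u => ∑ p' ∈ Q, Real.exp (a u p') with hZ
  have hZpos : ∀ u, 0 < Z u := fun u => Finset.sum_pos (fun p _ => Real.exp_pos _) hQ
  set W : O → P → ℝ := fun u p => Real.exp (a u p) / Z u with hWd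
  have hW1 : ∀ u, ∑ p ∈ Q, W u p = 1 := by
    intro u
    rw [hWd]
    simp only
    rw [← Finset.sum_div]
    exact div_self (hZpos u).ne'
  have hW0 : ∀ u p, 0 ≤ W u p := fun u p => div_nonneg (Real.exp_pos _).le (hZpos u).le
  set G : (O → P) → ℝ := fun f => ∑ u, ∑ u' ∈ univ.filter (fun u' => u' ≠ u),
          if f u = f u' then b u u' else 0 with hG
  -- right side
  have hR : (∑ f : O → P, if ∀ u, f u ∈ Q then
        Real.exp ((∑ u, a u (f u)) + ∑ u, ∑ u' ∈ univ.filter (fun u' => u' ≠ u),
          if f u = f u' then b u u' else 0) else 0) =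
      (∏ u, Z u) * ∑ f ∈ Fintype.piFinset (fun _ : O => Q), (∏ v, W v (f v)) * Real.exp (G f) := by
    rw [← Finset.sum_filter]
    have h1 : (univ.filter (fun f : O → P => ∀ u, f u ∈ Q)) = Fintype.piFinset (fun _ : O => Q) := by
      ext f; simp [Fintype.mem_piFinset]
    rw [h1, Finset.mul_sum]
    apply Finset.sum_congr rfl
    intro f _
    rw [Real.exp_add, Real.exp_sum, ← mul_assoc, ← Finset.prod_mul_distrib]
    congr 1
    apply Finset.prod_congr rfl
    intro u _
    rw [hWd]
    simp only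
    rw [mul_div_cancel₀ _ (hZpos u).ne']
  -- mean of G
  have hE : ∑ f ∈ Fintype.piFinset (fun _ : O => Q), (∏ v, W v (f v)) * G f =
      ∑ u, ∑ u' ∈ univ.filter (fun u' => u' ≠ u), b u u' * ∑ p ∈ Q, W u p * W u' p := by
    have h1 : ∀ f, (∏ v, W v (f v)) * G f = ∑ u, ∑ u' ∈ univ.filter (fun u' => u' ≠ u),
        b u u' * ((∏ v, W v (f v)) * (if f u = f u' then 1 else 0)) := by
      intro f
      rw [hG]
      simp only
      rw [Finset.mul_sum]
      apply Finset.sum_congr rfl
      intro u _
      rw [Finset.mul_sum]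
      apply Finset.sum_congr rfl
      intro u' _
      split_ifs <;> ring
    rw [Finset.sum_congr rfl (fun f _ => h1 f), Finset.sum_comm]
    apply Finset.sum_congr rfl
    intro u _
    rw [Finset.sum_comm]
    apply Finset.sum_congr rfl
    intro u' hu'
    rw [← Finset.mul_sum, jen_pair Q W hW1 u u' (Finset.mem_filter.mp hu').2]
  have hT : ∑ f ∈ Fintype.piFinset (fun _ : O => Q), (∏ v, W v (f v)) = 1 := by
    rw [← Finset.prod_univ_sum (fun _ : O => Q) (fun v q => W v q)]
    exact Finset.prod_eq_one (fun v _ => hW1 v)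
  have hJ := convexOn_exp.map_sum_le (t := Fintype.piFinset (fun _ : O => Q))
    (w := fun f => ∏ v, W v (f v)) (p := G)
    (fun f _ => Finset.prod_nonneg (fun v _ => hW0 v (f v))) hT (fun f _ => Set.mem_univ _)
  simp only [smul_eq_mul] at hJ
  rw [hE] at hJ
  rw [hR]
  exact mul_le_mul_of_nonneg_left hJ (Finset.prod_nonneg (fun u _ => (hZpos u).le))


end Pool.Agent.Lib_helper46.CC

namespace Pool.Agent.Lib_helper46.CC

alias jen := jen_pr

end Pool.Agent.Lib_helper46.CC
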