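import Mathlib
import Pool.Agent.Lib_helper46.CC.Defs

/-! Block LIN, written by helper95. -/

/-!
# MP_10b4aa_co: block LIN
-/

set_option autoImplicit false

namespace Pool.Agent.Lib_helper46.CC

open Finset
open scoped Classical

section

variable {ι : Type*} [Fintype ι] {r : ℕ}

/-- number of letters smaller than `j` -/
noncomputable def lin_L (b : ι → Fin (r + 1)) (j : ℕ) : ℝ :=
  ((univ.filter (fun x => (b x : ℕ) < j)).card : ℝ)

theorem lin_ct (b : ι → Fin (r + 1)) (j : Fin (r + 1)) :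
    (ct b j : ℝ) = lin_L b ((j : ℕ) + 1) - lin_L b j := by
  have h1 : (univ.filter (fun x => (b x : ℕ) < (j : ℕ) + 1)).card =
      (univ.filter (fun x => (b x : ℕ) < (j : ℕ))).card + ct b j := by
    unfold ct
    rw [← Finset.card_union_of_disjoint]
    · congr 1
      ext x
      simp only [Finset.mem_union, Finset.mem_filter, Finset.mem_univ, true_and]
      rw [Nat.lt_succ_iff_lt_or_eq, Fin.ext_iff]
    · rw [Finset.disjoint_left]
      intro x hx hx'
      rw [Finset.mem_filter] at hx hx'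
      have := hx.2
      rw [hx'.2] at this
      exact lt_irrefl _ this
  unfold lin_L
  rw [h1]
  push_cast
  ring

theorem lin_Dl (b : ι → Fin (r + 1)) (m : Fin r) :
    Dl b m = 2 * lin_L b ((m : ℕ) + 1) - lin_L b m - lin_L b ((m : ℕ) + 2) := by
  unfold Dl
  rw [lin_ct, lin_ct]
  simp only [Fin.val_castSucc, Fin.val_succ]
  ring

theorem lin_cl (b : ι → Fin (r + 1)) (m : Fin r) : (cl b m : ℝ) = lin_L b ((m : ℕ) + 1) := by
  unfold cl lin_L
  congr 2
  ext x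
  simp only [Finset.mem_filter, Finset.mem_univ, true_and]
  omega

theorem lin_L_zero (b : ι → Fin (r + 1)) : lin_L b 0 = 0 := by
  simp [lin_L]

theorem lin_L_top (b : ι → Fin (r + 1)) : lin_L b (r + 1) = Fintype.card ι := by
  unfold lin_L
  rw [Finset.filter_true_of_mem, Finset.card_univ]
  intro x _
  exact (b x).2

theorem lin_Gm (m : Fin r) (Φ : ℕ → ℝ) (h0 : Φ 0 = 0) (h1 : Φ (r + 1) = 0) :
    ∑ m' : Fin r, Gm r m m' * Φ ((m' : ℕ) + 1) =
      2 * Φ ((m : ℕ) + 1) - Φ m - Φ ((m : ℕ) + 2) := by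
  have h2 : ∀ m' : Fin r, Gm r m m' * Φ ((m' : ℕ) + 1) =
      (if m' = m then 2 * Φ ((m' : ℕ) + 1) else 0) -
        (if (m' : ℕ) = (m : ℕ) + 1 then Φ ((m' : ℕ) + 1) else 0) -
        (if (m' : ℕ) + 1 = m then Φ ((m' : ℕ) + 1) else 0) := by
    intro m'
    unfold Gm
    by_cases ha : m' = m
    · subst ha
      simp
    · have ha' : ¬ m = m' := fun h => ha h.symm
      have ha2 : (m' : ℕ) ≠ m := fun h => ha (Fin.ext h)
      rw [if_neg ha', if_neg ha]
      by_cases hb : (m' : ℕ) = (m : ℕ) + 1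
      · have hc : ¬ (m' : ℕ) + 1 = m := by omega
        rw [if_pos (Or.inl hb.symm), if_pos hb, if_neg hc]
        ring
      · by_cases hc : (m' : ℕ) + 1 = m
        · rw [if_pos (Or.inr hc), if_neg hb, if_pos hc]
          ring
        · rw [if_neg (by
            rintro (h | h)
            · exact hb h.symm
            · exact hc h), if_neg hb, if_neg hc]
          ring
  rw [Finset.sum_congr rfl fun m' _ => h2 m', Finset.sum_sub_distrib, Finset.sum_sub_distrib,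
    Finset.sum_ite_eq' univ m (fun m' : Fin r => 2 * Φ ((m' : ℕ) + 1)),
    if_pos (Finset.mem_univ _)]
  have h3 : ∑ m' : Fin r, (if (m' : ℕ) = (m : ℕ) + 1 then Φ ((m' : ℕ) + 1) else 0) =
      Φ ((m : ℕ) + 2) := by
    by_cases hm : (m : ℕ) + 1 < r
    · rw [Finset.sum_eq_single_of_mem (⟨(m : ℕ) + 1, hm⟩ : Fin r) (Finset.mem_univ _)]
      · simp
      · intro m' _ hne
        rw [if_neg]
        intro h
        exact hne (Fin.ext h)
    · rw [Finset.sum_eq_zero]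
      · have : (m : ℕ) + 2 = r + 1 := by omega
        rw [this, h1]
      · intro m' _
        rw [if_neg]
        omega
  have h4 : ∑ m' : Fin r, (if (m' : ℕ) + 1 = m then Φ ((m' : ℕ) + 1) else 0) = Φ m := by
    by_cases hm : (m : ℕ) = 0
    · rw [Finset.sum_eq_zero]
      · rw [hm, h0]
      · intro m' _
        rw [if_neg]
        omega
    · rw [Finset.sum_eq_single_of_mem (⟨(m : ℕ) - 1, by omega⟩ : Fin r) (Finset.mem_univ _)]
      · rw [if_pos (by simp; omega)]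
        congr 1
        simp
        omega
      · intro m' _ hne
        rw [if_neg]
        intro h
        apply hne
        apply Fin.ext
        simp
        omega
  rw [h3, h4]
  ring

theorem lin_Gm_abs (m : Fin r) (e : Fin r → ℝ) (E : ℝ) (hE : 0 ≤ E) (he : ∀ m', |e m'| ≤ E) :
    |∑ m' : Fin r, Gm r m m' * e m'| ≤ 4 * E := by
  let Φ : ℕ → ℝ := fun j => if h : 1 ≤ j ∧ j ≤ r then e ⟨j - 1, by omega⟩ else 0
  have hΦ : ∀ j, |Φ j| ≤ E := by
    intro j
    simp only [Φ]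
    split_ifs
    · exact he _
    · simpa using hE
  have h1 : ∀ m' : Fin r, Φ ((m' : ℕ) + 1) = e m' := by
    intro m'
    simp only [Φ]
    rw [dif_pos ⟨by omega, by omega⟩]
    congr 1
  have h2 := lin_Gm m Φ (by simp [Φ]) (by simp [Φ])
  simp only [h1] at h2
  rw [h2]
  have ha := abs_le.1 (he m)
  have hb := abs_le.1 (hΦ m)
  have hc := abs_le.1 (hΦ ((m : ℕ) + 2))
  rw [abs_le]
  constructor <;> linarith

end

theorem lin_Dl_abs {ι : Type*} [Fintype ι] {r : ℕ} {A : ℝ} {b : ι → Fin (r + 1)}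
    (hb : ZTyp A b) (m : Fin r) : |Dl b m| ≤ 2 * (A * Real.sqrt (Fintype.card ι)) := by
  have h1 := abs_le.1 (hb m.castSucc)
  have h2 := abs_le.1 (hb m.succ)
  unfold Dl
  rw [abs_le]
  constructor <;> linarith

theorem lin_sqrt (q n x : ℝ) (hq : 0 < q) (hx : 0 ≤ x) (hn : 0 ≤ n) (h : q ^ 4 * x ≤ 2 * n) :
    2 * (q * Real.sqrt x) ≤ 3 * Real.sqrt n / q := by
  have h3 : q ^ 2 * Real.sqrt x ≤ 3 / 2 * Real.sqrt n := by
    have h4 : q ^ 2 * Real.sqrt x = Real.sqrt (q ^ 4 * x) := by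
      rw [Real.sqrt_mul (by positivity), show q ^ 4 = (q ^ 2) ^ 2 by ring,
        Real.sqrt_sq (by positivity)]
    rw [h4]
    apply Real.sqrt_le_iff.2 ⟨by positivity, ?_⟩
    rw [mul_pow, Real.sq_sqrt hn]
    linarith
  rw [le_div_iff₀ hq]
  linarith

/-- Block LIN: the linear term -/
theorem lin_pr (r q : ℕ) (hr : 1 ≤ r) (hq : 2 ≤ q) (K : ℝ) (hK : 0 < K) :
    ∃ n0 : ℕ, ∀ n ≥ n0, ∀ t z y h : ℕ, Reg r q K n t z y h →
      ∀ (i : Fin r → Fin (q ^ 14)) (w : Word r y z (q ^ 16) t), InC (F0 r q n h) h i w →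
      Typ (q : ℝ) (1 / (q : ℝ) ^ 4) w → ∀ m : Fin r,
        |(∑ p, Dl (w.2.2 p) m) +
          h * ∑ m', Gm r m m' * ((q : ℝ) ^ 14 - 1 - 2 * ((i m' : ℕ) : ℝ))| ≤
          4 * ((h : ℝ) + (q : ℝ) ^ 14 + 1) + 4 * ((r : ℝ) + 1) * Real.sqrt n / q := by
  set c1 : ℝ := ((r : ℝ) + 1) * K with hc1
  set c2 : ℝ := ((r : ℝ) + 1) * ((q : ℝ) ^ 14 + 1) with hc2
  have hc1p : 0 < c1 := by positivity
  have hc2p : 0 < c2 := by positivity
  refine ⟨⌈(c1 + c2 + 1) ^ 2⌉₊, ?_⟩
  intro n hn t z y h hR i w hw hT m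
  have hq0 : (0 : ℝ) < q := by
    have : 0 < q := by omega
    exact_mod_cast this
  have hn1 : (c1 + c2 + 1) ^ 2 ≤ (n : ℝ) := (Nat.le_ceil _).trans (by exact_mod_cast hn)
  have hs : c1 + c2 + 1 ≤ Real.sqrt n := Real.le_sqrt_of_sq_le hn1
  have hss : Real.sqrt n * Real.sqrt n = n := Real.mul_self_sqrt (Nat.cast_nonneg _)
  have hlarge : ((r : ℝ) + 1) * (K * Real.sqrt n + (q : ℝ) ^ 14 + 1) ≤ n := by
    have h1 : ((r : ℝ) + 1) * (K * Real.sqrt n + (q : ℝ) ^ 14 + 1) =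
        c1 * Real.sqrt n + c2 := by
      rw [hc1, hc2]
      ring
    rw [h1]
    nlinarith
  have hr0 : (0 : ℝ) < (r : ℝ) + 1 := by positivity
  -- the function Φ
  let Lt : ℕ → ℝ := fun j => lin_L w.1 j + ∑ m', lin_L (w.2.1 m') j + ∑ p, lin_L (w.2.2 p) j
  let Φ : ℕ → ℝ := fun j => Lt j - j * n / (r + 1)
  have hΦ0 : Φ 0 = 0 := by
    simp [Φ, Lt, lin_L_zero]
  have hΦ1 : Φ (r + 1) = 0 := by
    have h1 : Lt (r + 1) = n := by
      simp only [Lt, lin_L_top, Fintype.card_fin, Finset.sum_const, Finset.card_univ,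
        nsmul_eq_mul, Fintype.card_prod]
      rw [hR.sum]
      push_cast
      ring
    simp only [Φ, h1]
    push_cast
    field_simp
    ring
  have hsum := lin_Gm m Φ hΦ0 hΦ1
  have hD : 2 * Φ ((m : ℕ) + 1) - Φ m - Φ ((m : ℕ) + 2) =
      Dl w.1 m + ∑ m', Dl (w.2.1 m') m + ∑ p, Dl (w.2.2 p) m := by
    simp only [lin_Dl, Φ, Lt, Finset.sum_sub_distrib, ← Finset.mul_sum]
    push_cast
    ring
  rw [hD] at hsum
  -- the values of Φ
  have hval : ∀ m' : Fin r, |Φ ((m' : ℕ) + 1) +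
      h * ((q : ℝ) ^ 14 - 1 - 2 * ((i m' : ℕ) : ℝ))| ≤ (h : ℝ) + (q : ℝ) ^ 14 + 1 := by
    intro m'
    have h1 : Lt ((m' : ℕ) + 1) = (typ w m' : ℝ) := by
      simp only [Lt, typ]
      push_cast
      simp only [lin_cl]
    obtain ⟨h2, h3⟩ := hw m'
    unfold bot F0 at h2 h3
    set Dv := ((m' : ℕ) + 1) * n / (r + 1) with hDv
    have h4 : (r + 1) * Dv ≤ ((m' : ℕ) + 1) * n := Nat.mul_div_le _ _
    have h5 : ((m' : ℕ) + 1) * n < (r + 1) * (Dv + 1) := by
      have := Nat.lt_mul_div_succ (((m' : ℕ) + 1) * n) (Nat.succ_pos r)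
      exact this
    have h6 : q ^ 14 * h ≤ Dv := by
      have h7 : ((q : ℝ) ^ 14 * h + 1) * (r + 1) ≤ n := by
        have := hR.h_le
        nlinarith
      have h8 : (q ^ 14 * h + 1) * (r + 1) ≤ n := by exact_mod_cast h7
      have h9 : (q ^ 14 * h + 1) * (r + 1) ≤ ((m' : ℕ) + 1) * n := h8.trans (by nlinarith)
      by_contra hcon
      rw [not_le] at hcon
      have h10 : (r + 1) * (Dv + 1) ≤ (r + 1) * (q ^ 14 * h) := Nat.mul_le_mul_left _ hcon
      nlinarith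
    have h4' : ((r : ℝ) + 1) * Dv ≤ ((m' : ℕ) + 1) * n := by exact_mod_cast h4
    have h5' : (((m' : ℕ) : ℝ) + 1) * n < ((r : ℝ) + 1) * (Dv + 1) := by exact_mod_cast h5
    have h2' : (Dv : ℝ) - (q : ℝ) ^ 14 * h + (i m' : ℕ) * (2 * h + 1) ≤ typ w m' := by
      have : ((Dv - q ^ 14 * h + (i m' : ℕ) * (2 * h + 1) : ℕ) : ℝ) ≤ typ w m' := by
        exact_mod_cast h2
      rw [Nat.cast_add, Nat.cast_sub h6] at this
      push_cast at this
      exact this
    have h3' : (typ w m' : ℝ) ≤ (Dv : ℝ) - (q : ℝ) ^ 14 * h + (i m' : ℕ) * (2 * h + 1) +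
        2 * h := by
      have : (typ w m' : ℝ) ≤
          ((Dv - q ^ 14 * h + (i m' : ℕ) * (2 * h + 1) + 2 * h : ℕ) : ℝ) := by
        exact_mod_cast h3
      rw [Nat.cast_add, Nat.cast_add, Nat.cast_sub h6] at this
      push_cast at this
      exact this
    have h11 : (Dv : ℝ) ≤ (((m' : ℕ) : ℝ) + 1) * n / (r + 1) := by
      rw [le_div_iff₀ hr0]
      linarith
    have h12 : (((m' : ℕ) : ℝ) + 1) * n / (r + 1) ≤ Dv + 1 := by
      rw [div_le_iff₀ hr0]
      linarith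
    have hi1 : ((i m' : ℕ) : ℝ) ≤ (q : ℝ) ^ 14 := by
      have : (i m' : ℕ) ≤ q ^ 14 := (i m').2.le
      exact_mod_cast this
    have hi0 : (0 : ℝ) ≤ ((i m' : ℕ) : ℝ) := Nat.cast_nonneg _
    have h13 : Φ ((m' : ℕ) + 1) = typ w m' - (((m' : ℕ) : ℝ) + 1) * n / (r + 1) := by
      simp only [Φ, h1]
      push_cast
      ring
    rw [h13, abs_le]
    constructor <;> linarith
  have herr := lin_Gm_abs m (fun m' => Φ ((m' : ℕ) + 1) +
      h * ((q : ℝ) ^ 14 - 1 - 2 * ((i m' : ℕ) : ℝ))) _ (by positivity) hval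
  have hsplit : ∑ m' : Fin r, Gm r m m' * (Φ ((m' : ℕ) + 1) +
      h * ((q : ℝ) ^ 14 - 1 - 2 * ((i m' : ℕ) : ℝ))) =
      (Dl w.1 m + ∑ m', Dl (w.2.1 m') m + ∑ p, Dl (w.2.2 p) m) +
        h * ∑ m', Gm r m m' * ((q : ℝ) ^ 14 - 1 - 2 * ((i m' : ℕ) : ℝ)) := by
    rw [← hsum, Finset.mul_sum, ← Finset.sum_add_distrib]
    exact Finset.sum_congr rfl fun m' _ => by ring
  rw [hsplit] at herr
  -- dead region and blocks
  have hsn : 0 ≤ Real.sqrt n := Real.sqrt_nonneg _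
  have hy : |Dl w.1 m| ≤ 3 * Real.sqrt n / q := by
    have h1 := lin_Dl_abs hT.1 m
    rw [Fintype.card_fin] at h1
    refine h1.trans ?_
    have h2 : (q : ℝ) ^ 4 * y ≤ 2 * n := by exact_mod_cast hR.y_le
    exact lin_sqrt q n y hq0 (Nat.cast_nonneg _) (Nat.cast_nonneg _) h2
  have hz : |∑ m', Dl (w.2.1 m') m| ≤ 3 * r * Real.sqrt n / q := by
    have h1 : |∑ m', Dl (w.2.1 m') m| ≤ ∑ m' : Fin r, 3 * Real.sqrt n / q := by
      refine (Finset.abs_sum_le_sum_abs _ _).trans (Finset.sum_le_sum fun m' _ => ?_)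
      have h1 := lin_Dl_abs (hT.2.1 m') m
      rw [Fintype.card_fin] at h1
      refine h1.trans ?_
      have h2 : (q : ℝ) ^ 4 * (r * z) ≤ 2 * n := by exact_mod_cast hR.z_le
      have hr1 : (1 : ℝ) ≤ r := by exact_mod_cast hr
      have h2' : (q : ℝ) ^ 4 * z ≤ 2 * n := by
        have h5 : (z : ℝ) ≤ r * z := by
          have : (0 : ℝ) ≤ z := Nat.cast_nonneg _
          nlinarith
        have h6 : (q : ℝ) ^ 4 * z ≤ (q : ℝ) ^ 4 * (r * z) :=
          mul_le_mul_of_nonneg_left h5 (by positivity)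
        linarith
      exact lin_sqrt q n z hq0 (Nat.cast_nonneg _) (Nat.cast_nonneg _) h2'
    refine h1.trans ?_
    rw [Finset.sum_const, Finset.card_univ, Fintype.card_fin, nsmul_eq_mul]
    apply le_of_eq
    ring
  have hfin : 3 * Real.sqrt n / q + 3 * r * Real.sqrt n / q ≤
      4 * ((r : ℝ) + 1) * Real.sqrt n / q := by
    rw [← add_div]
    apply div_le_div_of_nonneg_right _ hq0.le
    have : (0 : ℝ) ≤ r := Nat.cast_nonneg _
    nlinarith
  have e1 := abs_le.1 herr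
  have e2 := abs_le.1 hy
  have e3 := abs_le.1 hz
  rw [abs_le]
  constructor <;> linarith

end Pool.Agent.Lib_helper46.CC

namespace Pool.Agent.Lib_helper46.CC

alias lin := lin_pr

end Pool.Agent.Lib_helper46.CC
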