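import Mathlib
import Pool.Agent.Lib_helper46.CCF.WBase
import Pool.Agent.Lib_helper46.CCF.CO1
import Pool.Agent.Lib_helper46.CCF.CO2
import Pool.Agent.Lib_helper46.CCF.JEN
import Pool.Agent.Lib_helper46.CCF.COX
import Pool.Agent.Lib_helper46.CCF.LIN

/-! Block CO3A, written by helper22. -/

/-!
# Block CO3 of CC: the coarse estimate, abstract part
-/

set_option autoImplicit false

namespace Pool.Agent.Lib_helper46.CC

open Finset Pool.Agent.Lib_helper70.Chains

theorem co3_exp {x : ℝ} (hx : |x| ≤ 1 / 2) : Real.exp (-x - 2 * x ^ 2) ≤ 1 - x := by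
  have hx' := abs_le.1 hx
  have h1 : 0 < 1 - x := by linarith
  rw [← Real.exp_log h1]
  apply Real.exp_le_exp.2
  have h2 := Real.one_sub_inv_le_log_of_pos h1
  refine le_trans ?_ h2
  have h3 : 1 - (1 - x)⁻¹ + x + 2 * x ^ 2 = x ^ 2 * (1 - 2 * x) / (1 - x) := by
    field_simp
    ring
  have h4 : 0 ≤ x ^ 2 * (1 - 2 * x) / (1 - x) := by
    apply div_nonneg _ h1.le
    apply mul_nonneg (sq_nonneg _)
    linarith
  linarith

theorem co3_gm_abs (r : ℕ) (m m' : Fin r) : |Gm r m m'| ≤ 2 := by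
  unfold Gm
  split_ifs <;> norm_num

theorem co3_gm_diag (r : ℕ) (m : Fin r) : Gm r m m = 2 := by
  unfold Gm
  rw [if_pos rfl]

theorem co3_QF_nonneg {r : ℕ} (x : Fin r → ℝ) : 0 ≤ QF x := by
  unfold QF
  have hterm : ∀ m m' : Fin r, (if m = m' then 2 * x m ^ 2 else 0) -
      (if (m : ℕ) + 1 = m' ∨ (m' : ℕ) + 1 = m then (x m ^ 2 + x m' ^ 2) / 2 else 0) ≤
      Gm r m m' * x m * x m' := by
    intro m m'
    unfold Gm
    by_cases h1 : m = m'
    · subst h1
      simp only [if_true]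
      rw [if_neg (by omega)]
      nlinarith
    · rw [if_neg h1, if_neg h1]
      split_ifs
      · nlinarith [sq_nonneg (x m - x m')]
      · simp
  have hsum : 0 ≤ ∑ m : Fin r, ∑ m' : Fin r, ((if m = m' then 2 * x m ^ 2 else 0) -
      (if (m : ℕ) + 1 = m' ∨ (m' : ℕ) + 1 = m then (x m ^ 2 + x m' ^ 2) / 2 else 0)) := by
    simp only [sum_sub_distrib]
    have e1 : ∑ m : Fin r, ∑ m' : Fin r, (if m = m' then 2 * x m ^ 2 else 0) =
        ∑ m : Fin r, 2 * x m ^ 2 := by
      refine sum_congr rfl fun m _ => ?_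
      rw [sum_ite_eq]
      simp
    have e2 : ∑ m : Fin r, ∑ m' : Fin r,
        (if (m : ℕ) + 1 = m' ∨ (m' : ℕ) + 1 = m then (x m ^ 2 + x m' ^ 2) / 2 else 0) =
        ∑ m : Fin r, ∑ m' : Fin r,
        (if (m : ℕ) + 1 = m' ∨ (m' : ℕ) + 1 = m then x m ^ 2 else 0) := by
      have e3 : ∑ m : Fin r, ∑ m' : Fin r,
          (if (m : ℕ) + 1 = m' ∨ (m' : ℕ) + 1 = m then x m ^ 2 else 0) =
          ∑ m : Fin r, ∑ m' : Fin r,
          (if (m : ℕ) + 1 = m' ∨ (m' : ℕ) + 1 = m then x m' ^ 2 else 0) := by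
        rw [sum_comm]
        refine sum_congr rfl fun m _ => sum_congr rfl fun m' _ => ?_
        congr 1
        exact propext or_comm
      have e4 : ∑ m : Fin r, ∑ m' : Fin r,
          (if (m : ℕ) + 1 = m' ∨ (m' : ℕ) + 1 = m then (x m ^ 2 + x m' ^ 2) / 2 else 0) =
          ((∑ m : Fin r, ∑ m' : Fin r,
          (if (m : ℕ) + 1 = m' ∨ (m' : ℕ) + 1 = m then x m ^ 2 else 0)) +
          (∑ m : Fin r, ∑ m' : Fin r,
          (if (m : ℕ) + 1 = m' ∨ (m' : ℕ) + 1 = m then x m' ^ 2 else 0))) / 2 := by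
        rw [← sum_add_distrib, sum_div]
        refine sum_congr rfl fun m _ => ?_
        rw [← sum_add_distrib, sum_div]
        refine sum_congr rfl fun m' _ => ?_
        split_ifs <;> ring
      rw [e4, ← e3]
      ring
    rw [e1, e2]
    have e5 : ∀ m : Fin r, ∑ m' : Fin r,
        (if (m : ℕ) + 1 = m' ∨ (m' : ℕ) + 1 = m then x m ^ 2 else 0) ≤ 2 * x m ^ 2 := by
      intro m
      rw [← sum_filter, sum_const, nsmul_eq_mul]
      refine mul_le_mul_of_nonneg_right ?_ (sq_nonneg _)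
      have hc : (univ.filter (fun m' : Fin r => (m : ℕ) + 1 = m' ∨ (m' : ℕ) + 1 = m)).card ≤ 2 := by
        have hinj : Set.InjOn (fun m' : Fin r => (m' : ℕ))
            (univ.filter (fun m' : Fin r => (m : ℕ) + 1 = m' ∨ (m' : ℕ) + 1 = m) : Finset (Fin r)) :=
          fun a _ b _ h => Fin.ext h
        rw [← card_image_of_injOn hinj]
        have hsub : (univ.filter (fun m' : Fin r => (m : ℕ) + 1 = m' ∨ (m' : ℕ) + 1 = m)).image
            (fun m' : Fin r => (m' : ℕ)) ⊆ {(m : ℕ) + 1, (m : ℕ) - 1} := by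
          intro a ha
          rw [mem_image] at ha
          obtain ⟨m', hm', rfl⟩ := ha
          rw [mem_filter] at hm'
          rw [mem_insert, mem_singleton]
          rcases hm'.2 with h | h
          · left; exact h.symm
          · right; omega
        exact (card_le_card hsub).trans card_le_two
      exact_mod_cast hc
    have e6 := sum_le_sum fun (m : Fin r) (_ : m ∈ univ) => e5 m
    linarith
  exact hsum.trans (sum_le_sum fun m _ => sum_le_sum fun m' _ => hterm m m')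

/-- the abstract estimate -/
theorem co3_core {O P : Type} [Fintype O] [Fintype P] [DecidableEq O] [DecidableEq P] (r : ℕ)
    (mu : O → Fin r) (ε : O → ℝ) (hε : ∀ u, ε u = 1 ∨ ε u = -1) (X : Fin r → ℝ)
    (hX : ∀ φ : Fin r → ℝ, ∑ u, ε u * φ (mu u) = ∑ m, φ m * X m) (Q : Finset P)
    (hQc : (univ \ Q).card ≤ r) (hr : 2 * r ≤ Fintype.card P) (hP : 0 < Fintype.card P)
    (hQ : Q.Nonempty) (y : Fin r → P → ℝ) (Y γ τ k L ζ n : ℝ) (hY : 1 ≤ Y)
    (hy : ∀ m p, |y m p| ≤ Y) (hγ : 0 ≤ γ) (hγ1 : γ ≤ 1) (hτ : 0 ≤ τ)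
    (hs : ∀ m, (Fintype.card P : ℝ) * (2 - τ) ≤ ∑ p, (y m p) ^ 2)
    (hx : γ * Y + γ ^ 2 ≤ 1 / 8) (hXk : ∀ m, |X m| ≤ k) (hn : (Fintype.card O : ℝ) ≤ n)
    (hL : ∀ m, |γ * ((∑ p, y m p) / Fintype.card P) +
      γ ^ 2 / Fintype.card P * ∑ m', Gm r m m' * X m'| ≤ L)
    (E1 : ℝ) (hE1 : r * (1 + γ * Y + γ ^ 2 * Y ^ 2) / Fintype.card P + γ ^ 2 * τ / 2 +
      γ ^ 3 * Y + γ ^ 3 * (Y + γ) ^ 3 ≤ E1)
    (hζ : ∀ m, |γ * ((∑ p, y m p) / Fintype.card P)| + E1 ≤ ζ) (hζ2 : ζ ≤ 1 / 2) :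
    1 - (n * E1 + r * k * L + 2 * n * ζ ^ 2 +
      n ^ 2 * γ ^ 2 * ((8 * (γ * Y + γ ^ 2) + 4 * r / Fintype.card P) / Fintype.card P)) ≤
    (∑ f : O → P, if ∀ u, f u ∈ Q then
        Real.exp ((∑ u, (-(γ * ε u * y (mu u) (f u)) - γ ^ 2)) +
          ∑ u, ∑ u' ∈ univ.filter (fun u' => u' ≠ u),
          if f u = f u' then -(γ ^ 2 / 2 * ε u * ε u' * Gm r (mu u) (mu u')) else 0) else 0) /
      (Fintype.card P : ℝ) ^ (Fintype.card O) := by
  set R : ℝ := (Fintype.card P : ℝ) with hR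
  have hR0 : 0 < R := by rw [hR]; exact_mod_cast hP
  set a : O → P → ℝ := fun u p => -(γ * ε u * y (mu u) p) - γ ^ 2 with ha
  set b : O → O → ℝ := fun u u' => -(γ ^ 2 / 2 * ε u * ε u' * Gm r (mu u) (mu u')) with hb
  have hεabs : ∀ u, |ε u| = 1 := by
    intro u
    rcases hε u with h | h <;> rw [h] <;> norm_num
  have hε2 : ∀ u, ε u * ε u = 1 := by
    intro u
    rcases hε u with h | h <;> rw [h] <;> norm_num
  have haabs : ∀ u p, |a u p| ≤ γ * Y + γ ^ 2 := by
    intro u p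
    simp only [ha]
    have h1 : |-(γ * ε u * y (mu u) p) - γ ^ 2| ≤ |γ * ε u * y (mu u) p| + |γ ^ 2| := by
      rw [← abs_neg (γ * ε u * y (mu u) p)]
      exact abs_sub _ _
    refine h1.trans ?_
    rw [abs_mul, abs_mul, hεabs, mul_one, abs_of_nonneg hγ, abs_of_nonneg (sq_nonneg γ)]
    have := mul_le_mul_of_nonneg_left (hy (mu u) p) hγ
    linarith
  have hjen := jen Q hQ a b
  have hRO : 0 < R ^ (Fintype.card O) := pow_pos hR0 _
  rw [le_div_iff₀ hRO]
  refine le_trans ?_ hjen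
  -- the product
  set xx : O → ℝ := fun u => γ * ε u * ((∑ p, y (mu u) p) / R) + E1 with hxx
  have hE1n : 0 ≤ E1 := by
    refine le_trans ?_ hE1
    have : 0 ≤ Y := by linarith
    positivity
  have hxxabs : ∀ u, |xx u| ≤ ζ := by
    intro u
    simp only [hxx]
    refine (abs_add_le _ _).trans ?_
    refine le_trans ?_ (hζ (mu u))
    rw [abs_of_nonneg hE1n]
    have e : |γ * ε u * ((∑ p, y (mu u) p) / R)| = |γ * ((∑ p, y (mu u) p) / R)| := by
      rw [abs_mul, abs_mul, hεabs, mul_one, abs_mul]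
    rw [e]
  have hZ : ∀ u, Real.exp (-xx u - 2 * xx u ^ 2) * R ≤ ∑ p ∈ Q, Real.exp (a u p) := by
    intro u
    have h1 := co1 Q r hQc (y (mu u)) Y γ τ (ε u) hY (hy (mu u)) hγ hγ1 (hε u) hτ (hs (mu u)) hP
    have h2 : 1 - xx u ≤ (∑ p ∈ Q, Real.exp (a u p)) / R := by
      refine le_trans ?_ h1
      simp only [hxx]
      linarith
    have h3 := co3_exp ((hxxabs u).trans hζ2)
    rw [← le_div_iff₀ hR0]
    exact h3.trans h2
  have hprod : Real.exp (∑ u, (-xx u - 2 * xx u ^ 2)) * R ^ (Fintype.card O) ≤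
      ∏ u, ∑ p ∈ Q, Real.exp (a u p) := by
    rw [Real.exp_sum]
    have e : R ^ (Fintype.card O) = ∏ _u : O, R := by
      rw [prod_const]
      rfl
    rw [e, ← prod_mul_distrib]
    exact prod_le_prod (fun u _ => by positivity) fun u _ => hZ u
  -- the pairs
  set π : O → O → ℝ := fun u u' => ∑ p ∈ Q, (Real.exp (a u p) / ∑ p' ∈ Q, Real.exp (a u p')) *
            (Real.exp (a u' p) / ∑ p' ∈ Q, Real.exp (a u' p')) with hπ
  set δ : ℝ := (8 * (γ * Y + γ ^ 2) + 4 * r / R) / R with hδ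
  have hπb : ∀ u u', |π u u' - 1 / R| ≤ δ := fun u u' =>
    co2 Q r hQc hr hP (a u) (a u') _ hx (haabs u) (haabs u')
  have hδ0 : 0 ≤ δ := by
    have : 0 ≤ Y := by linarith
    positivity
  have hbabs : ∀ u u', |b u u'| ≤ γ ^ 2 := by
    intro u u'
    simp only [hb]
    rw [abs_neg, abs_mul, abs_mul, abs_mul, hεabs, hεabs, mul_one, mul_one,
      abs_of_nonneg (by positivity)]
    have := mul_le_mul_of_nonneg_left (co3_gm_abs r (mu u) (mu u')) (by positivity :
      0 ≤ γ ^ 2 / 2)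
    linarith
  have hO0 : (0 : ℝ) ≤ Fintype.card O := Nat.cast_nonneg _
  have hn0 : 0 ≤ n := hO0.trans hn
  have hpair : ∑ u, ∑ u' ∈ univ.filter (fun u' => u' ≠ u), b u u' * (1 / R) - n ^ 2 * γ ^ 2 * δ ≤
      ∑ u, ∑ u' ∈ univ.filter (fun u' => u' ≠ u), b u u' * π u u' := by
    have h1 : ∑ u, ∑ u' ∈ univ.filter (fun u' => u' ≠ u), (b u u' * (1 / R) - b u u' * π u u') ≤
        ∑ _u : O, ∑ _u' : O, γ ^ 2 * δ := by
      refine sum_le_sum fun u _ => ?_
      refine le_trans (sum_le_sum (g := fun _ => γ ^ 2 * δ) fun u' _ => ?_) ?_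
      · rw [← mul_sub]
        refine (le_abs_self _).trans ?_
        rw [abs_mul, abs_sub_comm]
        exact mul_le_mul (hbabs u u') (hπb u u') (abs_nonneg _) (sq_nonneg _)
      · exact sum_le_sum_of_subset_of_nonneg (filter_subset _ _) fun _ _ _ => by positivity
    simp only [sum_sub_distrib, sum_const, nsmul_eq_mul] at h1
    have h2 : ((univ : Finset O).card : ℝ) = Fintype.card O := rfl
    rw [h2] at h1
    have h3 : (Fintype.card O : ℝ) * ((Fintype.card O : ℝ) * (γ ^ 2 * δ)) ≤ n ^ 2 * γ ^ 2 * δ := by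
      have : (Fintype.card O : ℝ) * Fintype.card O ≤ n ^ 2 := by nlinarith
      have h4 := mul_le_mul_of_nonneg_right this (by positivity : 0 ≤ γ ^ 2 * δ)
      linarith
    linarith
  -- sums over O
  have hGX : ∀ m, ∑ u', ε u' * Gm r m (mu u') = ∑ m', Gm r m m' * X m' := fun m =>
    hX (fun m' => Gm r m m')
  have hquad : ∑ u, ∑ u', ε u * ε u' * Gm r (mu u) (mu u') = QF X := by
    have h1 : ∑ u, ∑ u', ε u * ε u' * Gm r (mu u) (mu u') =
        ∑ u, ε u * (∑ m', Gm r (mu u) m' * X m') := by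
      refine sum_congr rfl fun u _ => ?_
      rw [← hGX, mul_sum]
      refine sum_congr rfl fun u' _ => by ring
    rw [h1, hX (fun m => ∑ m', Gm r m m' * X m')]
    unfold QF
    refine sum_congr rfl fun m _ => ?_
    rw [sum_mul]
    refine sum_congr rfl fun m' _ => by ring
  have hdiag : ∑ u, ∑ u' ∈ univ.filter (fun u' => u' ≠ u), b u u' * (1 / R) =
      -(γ ^ 2 / 2 / R) * QF X + γ ^ 2 * Fintype.card O / R := by
    have h1 : ∀ u : O, ∑ u' ∈ univ.filter (fun u' => u' ≠ u), b u u' * (1 / R) =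
        (∑ u', b u u' * (1 / R)) - b u u * (1 / R) := by
      intro u
      rw [← sum_filter_add_sum_filter_not univ (fun u' => u' ≠ u) (fun u' => b u u' * (1 / R))]
      have : univ.filter (fun u' : O => ¬ u' ≠ u) = {u} := by
        ext u'
        simp
      rw [this, sum_singleton]
      ring
    simp only [h1]
    rw [sum_sub_distrib]
    have h2 : ∑ u, b u u * (1 / R) = -(γ ^ 2 * Fintype.card O / R) := by
      have h3 : ∀ u : O, b u u * (1 / R) = -(γ ^ 2 / R) := by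
        intro u
        simp only [hb]
        rw [co3_gm_diag]
        have := hε2 u
        have e : γ ^ 2 / 2 * ε u * ε u * 2 = γ ^ 2 * (ε u * ε u) := by ring
        rw [e, this]
        ring
      simp only [h3, sum_const, nsmul_eq_mul]
      have h4 : ((univ : Finset O).card : ℝ) = Fintype.card O := rfl
      rw [h4]
      ring
    have h5 : ∑ u, ∑ u', b u u' * (1 / R) = -(γ ^ 2 / 2 / R) * QF X := by
      rw [← hquad, mul_sum]
      refine sum_congr rfl fun u _ => ?_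
      rw [mul_sum]
      refine sum_congr rfl fun u' _ => ?_
      simp only [hb]
      ring
    rw [h2, h5]
    ring
  have hlinsum : ∑ u, xx u ≤ -(γ ^ 2 / R) * QF X + r * k * L + n * E1 := by
    simp only [hxx]
    rw [sum_add_distrib, sum_const, nsmul_eq_mul]
    have h1 : ∑ u, γ * ε u * ((∑ p, y (mu u) p) / R) =
        ∑ m, (γ * ((∑ p, y m p) / R)) * X m := by
      rw [← hX (fun m => γ * ((∑ p, y m p) / R))]
      refine sum_congr rfl fun u _ => by ring
    have h2 : ∑ m, (γ * ((∑ p, y m p) / R)) * X m ≤ -(γ ^ 2 / R) * QF X + r * k * L := by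
      have h3 : ∀ m, (γ * ((∑ p, y m p) / R)) * X m ≤
          -(γ ^ 2 / R) * (∑ m', Gm r m m' * X m * X m') + k * L := by
        intro m
        have h4 : (γ * ((∑ p, y m p) / R)) * X m =
            (γ * ((∑ p, y m p) / R) + γ ^ 2 / R * ∑ m', Gm r m m' * X m') * X m -
            (γ ^ 2 / R) * (∑ m', Gm r m m' * X m * X m') := by
          have h5 : ∑ m', Gm r m m' * X m * X m' = (∑ m', Gm r m m' * X m') * X m := by
            rw [sum_mul]
            refine sum_congr rfl fun m' _ => by ring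
          rw [h5]
          ring
        have h6 : (γ * ((∑ p, y m p) / R) + γ ^ 2 / R * ∑ m', Gm r m m' * X m') * X m ≤ k * L := by
          refine (le_abs_self _).trans ?_
          rw [abs_mul, mul_comm k L]
          exact mul_le_mul (hL m) (hXk m) (abs_nonneg _) ((abs_nonneg _).trans (hL m))
        rw [h4]
        linarith
      have h7 := sum_le_sum fun (m : Fin r) (_ : m ∈ univ) => h3 m
      rw [sum_add_distrib, ← mul_sum, sum_const, card_univ, Fintype.card_fin, nsmul_eq_mul] at h7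
      refine h7.trans (le_of_eq ?_)
      unfold QF
      ring
    have h8 : ((univ : Finset O).card : ℝ) * E1 ≤ n * E1 := by
      have : ((univ : Finset O).card : ℝ) = Fintype.card O := rfl
      rw [this]
      exact mul_le_mul_of_nonneg_right hn hE1n
    rw [h1]
    linarith
  have hsqsum : ∑ u, xx u ^ 2 ≤ n * ζ ^ 2 := by
    have h1 : ∀ u ∈ (univ : Finset O), xx u ^ 2 ≤ ζ ^ 2 := by
      intro u _
      rw [← sq_abs]
      exact pow_le_pow_left₀ (abs_nonneg _) (hxxabs u) 2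
    have h2 := sum_le_sum h1
    rw [sum_const, nsmul_eq_mul] at h2
    refine h2.trans ?_
    have : ((univ : Finset O).card : ℝ) = Fintype.card O := rfl
    rw [this]
    exact mul_le_mul_of_nonneg_right hn (sq_nonneg _)
  have hQF := co3_QF_nonneg X
  -- conclusion
  have hexp : -(n * E1 + r * k * L + 2 * n * ζ ^ 2 + n ^ 2 * γ ^ 2 * δ) ≤
      (∑ u, (-xx u - 2 * xx u ^ 2)) +
        ∑ u, ∑ u' ∈ univ.filter (fun u' => u' ≠ u), b u u' * π u u' := by
    rw [sum_sub_distrib, sum_neg_distrib, ← mul_sum]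
    rw [hdiag] at hpair
    have h1 : 0 ≤ γ ^ 2 / 2 / R * QF X := by positivity
    have h2 : 0 ≤ γ ^ 2 * Fintype.card O / R := by positivity
    have h3 : γ ^ 2 / R * QF X = 2 * (γ ^ 2 / 2 / R * QF X) := by ring
    linarith
  have h9 : 1 - (n * E1 + r * k * L + 2 * n * ζ ^ 2 + n ^ 2 * γ ^ 2 * δ) ≤
      Real.exp ((∑ u, (-xx u - 2 * xx u ^ 2)) +
        ∑ u, ∑ u' ∈ univ.filter (fun u' => u' ≠ u), b u u' * π u u') := by
    have := Real.add_one_le_exp ((∑ u, (-xx u - 2 * xx u ^ 2)) +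
        ∑ u, ∑ u' ∈ univ.filter (fun u' => u' ≠ u), b u u' * π u u')
    linarith
  refine (mul_le_mul_of_nonneg_right h9 hRO.le).trans ?_
  rw [Real.exp_add]
  have h10 := mul_le_mul_of_nonneg_right hprod
    (Real.exp_pos (∑ u, ∑ u' ∈ univ.filter (fun u' => u' ≠ u), b u u' * π u u')).le
  refine le_trans (le_of_eq (by ring)) h10

end Pool.Agent.Lib_helper46.CC
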