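import Mathlib
import Pool.Agent.Lib_helper46.CCF.CO3A
import Pool.Agent.Lib_helper46.CCF.CO1
import Pool.Agent.Lib_helper46.CCF.CO2
import Pool.Agent.Lib_helper46.CCF.JEN
import Pool.Agent.Lib_helper46.CCF.COX
import Pool.Agent.Lib_helper46.CCF.LIN

/-! Block CO3, written by helper22. -/

/-!
# Block CO3 of CC: the coarse estimate
-/

set_option autoImplicit false

namespace Pool.Agent.Lib_helper46.CC

open Finset Pool.Agent.Lib_helper70.Chains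

theorem co3_inner {k : ℕ} (a : Fin k) :
    ∑ j : Fin k, (if j ≠ a then (if j < a then (-1 : ℝ) else 1) else 0) =
      (k : ℝ) - 1 - 2 * ((a : ℕ) : ℝ) := by
  have h1 : ∀ j : Fin k, (if j ≠ a then (if j < a then (-1 : ℝ) else 1) else 0) =
      1 - (if j = a then 1 else 0) - 2 * (if j < a then 1 else 0) := by
    intro j
    by_cases h : j = a
    · subst h
      simp
    · rw [if_pos h, if_neg h]
      split_ifs <;> norm_num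
  simp only [h1]
  rw [sum_sub_distrib, sum_sub_distrib, ← mul_sum, sum_ite_eq' univ a (fun _ => (1 : ℝ)),
    if_pos (mem_univ a), sum_const, card_univ, Fintype.card_fin, nsmul_eq_mul, mul_one]
  congr 2
  rw [← sum_filter, sum_const, nsmul_eq_mul, mul_one]
  have h2 : univ.filter (fun j : Fin k => j < a) = Finset.Iio a := by
    ext j
    simp
  rw [h2, Fin.card_Iio]

theorem co3_sum {r k : ℕ} (i : Fin r → Fin k) (φ : Fin r → ℝ) :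
    ∑ u : Oth i, (if u.1.2 < i u.1.1 then (-1 : ℝ) else 1) * φ u.1.1 =
      ∑ m, φ m * ((k : ℝ) - 1 - 2 * ((i m : ℕ) : ℝ)) := by
  have h1 : ∑ u : Oth i, (if u.1.2 < i u.1.1 then (-1 : ℝ) else 1) * φ u.1.1 =
      ∑ u ∈ univ.filter (fun u : Fin r × Fin k => u.2 ≠ i u.1),
        (if u.2 < i u.1 then (-1 : ℝ) else 1) * φ u.1 := by
    symm
    exact Finset.sum_subtype (univ.filter (fun u : Fin r × Fin k => u.2 ≠ i u.1))
      (by intro x; simp) (fun u : Fin r × Fin k => (if u.2 < i u.1 then (-1 : ℝ) else 1) * φ u.1)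
  rw [h1, sum_filter, Fintype.sum_prod_type]
  refine sum_congr rfl fun m _ => ?_
  rw [← co3_inner, mul_sum]
  refine sum_congr rfl fun j _ => ?_
  simp only
  split_ifs <;> ring

theorem co3_card {r k : ℕ} (i : Fin r → Fin k) : Fintype.card (Oth i) ≤ r * k := by
  have h := Fintype.card_subtype_le (fun u : Fin r × Fin k => u.2 ≠ i u.1)
  rw [Fintype.card_prod, Fintype.card_fin, Fintype.card_fin] at h
  exact h

theorem co3_fre {r k R : ℕ} (i : Fin r → Fin k) (c : Fin r → Fin R) (f : Oth i → Fin R) :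
    Fre i (join i c f) ↔ ∀ u, f u ∈ univ.filter (fun p => ∀ m, c m ≠ p) := by
  unfold Fre join
  constructor
  · intro h u
    rw [mem_filter]
    refine ⟨mem_univ _, fun m hm => ?_⟩
    have h1 := h u.1.1 u.1.2 u.2 m
    rw [dif_neg u.2, dif_pos rfl] at h1
    exact h1 hm.symm
  · intro h m j hj m'
    rw [dif_neg hj, dif_pos rfl]
    have h1 := (mem_filter.1 (h ⟨(m, j), hj⟩)).2 m'
    exact fun h2 => h1 h2.symm

theorem co3_compl {r R : ℕ} (c : Fin r → Fin R) :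
    (univ \ univ.filter (fun p => ∀ m, c m ≠ p)).card ≤ r := by
  have h1 : univ \ univ.filter (fun p => ∀ m, c m ≠ p) ⊆ univ.image c := by
    intro p hp
    rw [mem_sdiff, mem_filter] at hp
    rw [mem_image]
    by_contra hcon
    apply hp.2
    refine ⟨mem_univ _, fun m hm => hcon ⟨m, mem_univ _, hm⟩⟩
  refine (card_le_card h1).trans (card_image_le.trans ?_)
  rw [card_univ, Fintype.card_fin]

/-- bounds of the parameters -/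
theorem co3_par {r q : ℕ} (hr : 1 ≤ r) (hq : 2 ≤ q) {K : ℝ} (hK : 0 < K) {n t z y h : ℕ}
    (hn : 2 * q ^ 30 * (r + 1) ≤ n) (hR : Reg r q K n t z y h) :
    0 < t ∧ (q : ℝ) ^ 7 ≤ Real.sqrt t ∧
    Real.sqrt n ≤ Real.sqrt (2 * (r + 1)) * (q : ℝ) ^ 8 * Real.sqrt t ∧
    (h : ℝ) / Real.sqrt t ≤ (K * Real.sqrt (2 * (r + 1)) + 1) / (q : ℝ) ^ 6 := by
  obtain ⟨hsum, hyg, hyl, hzg, hzl, hhg, hhl⟩ := hR
  have hq0 : 0 < q := by omega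
  have h16 : 16 ≤ q ^ 4 := by
    calc 16 = 2 ^ 4 := by norm_num
      _ ≤ q ^ 4 := Nat.pow_le_pow_left hq 4
  have hnt : n ≤ 2 * q ^ 16 * (r + 1) * t := by
    have h1 : 16 * y ≤ q ^ 4 * y := Nat.mul_le_mul_right _ h16
    have h2 : 16 * (r * z) ≤ q ^ 4 * (r * z) := Nat.mul_le_mul_right _ h16
    have h3 : 2 * q ^ 16 * (r + 1) * t = 2 * (q ^ 16 * ((r + 1) * t)) := by ring
    rw [h3]
    omega
  have ht : q ^ 14 ≤ t := by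
    by_contra hcon
    push Not at hcon
    have h1 : 2 * q ^ 16 * (r + 1) * t < 2 * q ^ 16 * (r + 1) * q ^ 14 := by
      apply Nat.mul_lt_mul_of_pos_left hcon
      positivity
    have h2 : 2 * q ^ 16 * (r + 1) * q ^ 14 = 2 * q ^ 30 * (r + 1) := by ring
    omega
  have ht0 : 0 < t := lt_of_lt_of_le (by positivity) ht
  have hqR : (0 : ℝ) < q := by exact_mod_cast hq0
  have htR : (0 : ℝ) < t := by exact_mod_cast ht0
  have hst : 0 < Real.sqrt t := Real.sqrt_pos.2 htR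
  have hs7 : (q : ℝ) ^ 7 ≤ Real.sqrt t := by
    apply Real.le_sqrt_of_sq_le
    have : ((q ^ 14 : ℕ) : ℝ) ≤ t := by exact_mod_cast ht
    push_cast at this
    have e : ((q : ℝ) ^ 7) ^ 2 = (q : ℝ) ^ 14 := by ring
    rw [e]
    exact this
  have hsn : Real.sqrt n ≤ Real.sqrt (2 * (r + 1)) * (q : ℝ) ^ 8 * Real.sqrt t := by
    have h1 : (n : ℝ) ≤ 2 * (q : ℝ) ^ 16 * (r + 1) * t := by exact_mod_cast hnt
    have h2 : Real.sqrt (2 * (r + 1)) * (q : ℝ) ^ 8 * Real.sqrt t =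
        Real.sqrt (2 * (q : ℝ) ^ 16 * (r + 1) * t) := by
      have e1 := Real.sqrt_mul (x := 2 * ((r : ℝ) + 1) * ((q : ℝ) ^ 8) ^ 2) (by positivity) t
      have e2 := Real.sqrt_mul (x := 2 * ((r : ℝ) + 1)) (by positivity) (((q : ℝ) ^ 8) ^ 2)
      rw [show 2 * (q : ℝ) ^ 16 * (r + 1) * t = (2 * (r + 1)) * ((q : ℝ) ^ 8) ^ 2 * t by ring,
        e1, e2, Real.sqrt_sq (by positivity)]
    rw [h2]
    exact Real.sqrt_le_sqrt h1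
  refine ⟨ht0, hs7, hsn, ?_⟩
  rw [div_le_div_iff₀ hst (by positivity)]
  have h14 : (0 : ℝ) < (q : ℝ) ^ 14 := by positivity
  have h1 : (q : ℝ) ^ 14 * h ≤ K * (Real.sqrt (2 * (r + 1)) * (q : ℝ) ^ 8 * Real.sqrt t) +
      (q : ℝ) ^ 8 * Real.sqrt t * 1 := by
    refine hhl.trans ?_
    have h3 := mul_le_mul_of_nonneg_left hsn hK.le
    have h4 : (q : ℝ) ^ 14 ≤ (q : ℝ) ^ 8 * Real.sqrt t * 1 := by
      have h5 : (q : ℝ) ^ 14 ≤ (q : ℝ) ^ 8 * (q : ℝ) ^ 7 := by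
        rw [← pow_add]
        exact pow_le_pow_right₀ (by exact_mod_cast hq0) (by norm_num)
      have h6 := mul_le_mul_of_nonneg_left hs7 (by positivity : (0 : ℝ) ≤ (q : ℝ) ^ 8)
      linarith
    linarith
  have h2 : (q : ℝ) ^ 8 * (h * (q : ℝ) ^ 6) ≤
      (q : ℝ) ^ 8 * ((K * Real.sqrt (2 * (r + 1)) + 1) * Real.sqrt t) := by
    refine le_trans (le_of_eq (by ring)) (h1.trans (le_of_eq (by ring)))
  exact le_of_mul_le_mul_left h2 (by positivity)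

/-- powers of `1 / q` -/
theorem co3_pow {g : ℝ} (hg : 0 < g) (hg1 : g ≤ 1) {a b : ℕ} (hab : a ≤ b) : g ^ b ≤ g ^ a :=
  pow_le_pow_of_le_one hg.le hg1 hab

theorem co3_num1 {r C1 C3 g Q γ : ℝ} (hr : 0 ≤ r) (hC1 : 0 ≤ C1) (hC3 : 0 ≤ C3) (hQ : 0 < Q)
    (hQg : Q * g = 1) (hg : 0 < g) (hg1 : g ≤ 1) (hγ0 : 0 ≤ γ) (hγ : γ ≤ C1 * g ^ 6)
    (h8 : 8 * (C1 * C3 + C1 ^ 2) ≤ Q) :
    γ * (C3 * Q) + γ ^ 2 ≤ (C1 * C3 + C1 ^ 2) * g ^ 5 ∧ γ * (C3 * Q) + γ ^ 2 ≤ 1 / 8 ∧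
    r * (1 + γ * (C3 * Q) + γ ^ 2 * (C3 * Q) ^ 2) / Q ^ 16 + γ ^ 2 * (1 / Q ^ 4) / 2 +
      γ ^ 3 * (C3 * Q) + γ ^ 3 * ((C3 * Q) + γ) ^ 3 ≤
      (2 * r + C1 ^ 2 + C1 ^ 3 * C3 + (C1 * C3 + C1 ^ 2) ^ 3) * g ^ 15 := by
  have hA : 0 ≤ C1 * C3 + C1 ^ 2 := by positivity
  have h1 : γ * (C3 * Q) ≤ C1 * C3 * g ^ 5 := by
    have e : C1 * g ^ 6 * (C3 * Q) = C1 * C3 * g ^ 5 * (Q * g) := by ring
    calc γ * (C3 * Q) ≤ C1 * g ^ 6 * (C3 * Q) :=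
          mul_le_mul_of_nonneg_right hγ (by positivity)
      _ = C1 * C3 * g ^ 5 := by rw [e, hQg, mul_one]
  have h2 : γ ^ 2 ≤ C1 ^ 2 * g ^ 12 := by
    calc γ ^ 2 ≤ (C1 * g ^ 6) ^ 2 := pow_le_pow_left₀ hγ0 hγ 2
      _ = C1 ^ 2 * g ^ 12 := by ring
  have h3 : γ ^ 2 ≤ C1 ^ 2 * g ^ 5 :=
    h2.trans (mul_le_mul_of_nonneg_left (co3_pow hg hg1 (by norm_num)) (by positivity))
  have hx : γ * (C3 * Q) + γ ^ 2 ≤ (C1 * C3 + C1 ^ 2) * g ^ 5 := by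
    rw [add_mul]; exact add_le_add h1 h3
  have hx8 : γ * (C3 * Q) + γ ^ 2 ≤ 1 / 8 := by
    have h4 : (C1 * C3 + C1 ^ 2) * g ^ 5 ≤ (C1 * C3 + C1 ^ 2) * g ^ 1 :=
      mul_le_mul_of_nonneg_left (co3_pow hg hg1 (by norm_num)) hA
    have h5 : 8 * (C1 * C3 + C1 ^ 2) * g ≤ Q * g := mul_le_mul_of_nonneg_right h8 hg.le
    rw [hQg] at h5
    rw [pow_one] at h4
    linarith
  refine ⟨hx, hx8, ?_⟩
  have hY0 : 0 ≤ C3 * Q := by positivity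
  have hγY : 0 ≤ γ * (C3 * Q) := by positivity
  have hγY8 : γ * (C3 * Q) ≤ 1 / 8 := by nlinarith [sq_nonneg γ]
  have hQ16 : 1 / Q ^ 16 = g ^ 16 := by
    rw [div_eq_iff (by positivity), ← mul_pow, mul_comm g Q, hQg, one_pow]
  have hQ4 : 1 / Q ^ 4 = g ^ 4 := by
    rw [div_eq_iff (by positivity), ← mul_pow, mul_comm g Q, hQg, one_pow]
  have t1 : r * (1 + γ * (C3 * Q) + γ ^ 2 * (C3 * Q) ^ 2) / Q ^ 16 ≤ 2 * r * g ^ 15 := by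
    have e1 : r * (1 + γ * (C3 * Q) + γ ^ 2 * (C3 * Q) ^ 2) / Q ^ 16 =
        r * (1 + γ * (C3 * Q) + (γ * (C3 * Q)) ^ 2) * g ^ 16 := by
      rw [← hQ16]; ring
    rw [e1]
    have e2 : 1 + γ * (C3 * Q) + (γ * (C3 * Q)) ^ 2 ≤ 2 := by nlinarith
    have e3 : r * (1 + γ * (C3 * Q) + (γ * (C3 * Q)) ^ 2) ≤ 2 * r := by nlinarith
    exact mul_le_mul e3 (co3_pow hg hg1 (by norm_num)) (by positivity) (by positivity)
  have t2 : γ ^ 2 * (1 / Q ^ 4) / 2 ≤ C1 ^ 2 * g ^ 15 := by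
    rw [hQ4]
    have e1 : γ ^ 2 * g ^ 4 ≤ C1 ^ 2 * g ^ 12 * g ^ 4 :=
      mul_le_mul_of_nonneg_right h2 (by positivity)
    have e2 : C1 ^ 2 * g ^ 12 * g ^ 4 = C1 ^ 2 * g ^ 16 := by ring
    have e3 : C1 ^ 2 * g ^ 16 ≤ C1 ^ 2 * g ^ 15 :=
      mul_le_mul_of_nonneg_left (co3_pow hg hg1 (by norm_num)) (by positivity)
    have e4 : 0 ≤ γ ^ 2 * g ^ 4 := by positivity
    linarith
  have t3 : γ ^ 3 * (C3 * Q) ≤ C1 ^ 3 * C3 * g ^ 15 := by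
    have e1 : γ ^ 3 * (C3 * Q) = γ ^ 2 * (γ * (C3 * Q)) := by ring
    rw [e1]
    have e2 : γ ^ 2 * (γ * (C3 * Q)) ≤ (C1 ^ 2 * g ^ 12) * (C1 * C3 * g ^ 5) :=
      mul_le_mul h2 h1 hγY (by positivity)
    have e3 : (C1 ^ 2 * g ^ 12) * (C1 * C3 * g ^ 5) = C1 ^ 3 * C3 * g ^ 17 := by ring
    have e4 : C1 ^ 3 * C3 * g ^ 17 ≤ C1 ^ 3 * C3 * g ^ 15 :=
      mul_le_mul_of_nonneg_left (co3_pow hg hg1 (by norm_num)) (by positivity)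
    linarith
  have t4 : γ ^ 3 * ((C3 * Q) + γ) ^ 3 ≤ (C1 * C3 + C1 ^ 2) ^ 3 * g ^ 15 := by
    have e1 : γ ^ 3 * ((C3 * Q) + γ) ^ 3 = (γ * (C3 * Q) + γ ^ 2) ^ 3 := by ring
    have e2 : (C1 * C3 + C1 ^ 2) ^ 3 * g ^ 15 = ((C1 * C3 + C1 ^ 2) * g ^ 5) ^ 3 := by ring
    rw [e1, e2]
    exact pow_le_pow_left₀ (by positivity) hx 3
  have e : (2 * r + C1 ^ 2 + C1 ^ 3 * C3 + (C1 * C3 + C1 ^ 2) ^ 3) * g ^ 15 =
      2 * r * g ^ 15 + C1 ^ 2 * g ^ 15 + C1 ^ 3 * C3 * g ^ 15 +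
        (C1 * C3 + C1 ^ 2) ^ 3 * g ^ 15 := by ring
  rw [e]
  linarith

theorem co3_num2 {r C1 C2 g Q γ h sn st : ℝ} (hr : 0 ≤ r) (hC1 : 0 ≤ C1)
    (hQ : 1 ≤ Q) (hQg : Q * g = 1) (hg : 0 < g) (hg1 : g ≤ 1) (hγ0 : 0 ≤ γ)
    (hγ : γ ≤ C1 * g ^ 6) (hst : 0 < st) (hst7 : Q ^ 7 ≤ st) (hsn0 : 0 ≤ sn)
    (hsn : sn ≤ C2 * Q ^ 8 * st) (hh : h = γ * st) :
    γ / (st * Q ^ 16) * (4 * (h + Q ^ 14 + 1) + 4 * (r + 1) * sn / Q) ≤
      (4 * C1 ^ 2 + 8 * C1 + 4 * (r + 1) * C1 * C2) * g ^ 15 := by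
  have hQ0 : 0 < Q := by linarith
  have hgQ : ∀ a : ℕ, 1 / Q ^ a = g ^ a := by
    intro a
    rw [div_eq_iff (by positivity), ← mul_pow, mul_comm g Q, hQg, one_pow]
  have h2 : γ ^ 2 ≤ C1 ^ 2 * g ^ 12 := by
    calc γ ^ 2 ≤ (C1 * g ^ 6) ^ 2 := pow_le_pow_left₀ hγ0 hγ 2
      _ = C1 ^ 2 * g ^ 12 := by ring
  have hsti : 1 / st ≤ g ^ 7 := by
    rw [← hgQ 7]
    exact one_div_le_one_div_of_le (by positivity) hst7
  have e0 : γ / (st * Q ^ 16) * (4 * (h + Q ^ 14 + 1) + 4 * (r + 1) * sn / Q) =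
      4 * γ ^ 2 * g ^ 16 + 4 * (γ * (Q ^ 14 + 1)) * (1 / st) * g ^ 16 +
        4 * (r + 1) * (γ * (sn / st)) * g ^ 17 := by
    rw [← hgQ 16, ← hgQ 17, hh]
    field_simp
    ring
  rw [e0]
  have t1 : 4 * γ ^ 2 * g ^ 16 ≤ 4 * C1 ^ 2 * g ^ 15 := by
    have e1 : 4 * γ ^ 2 * g ^ 16 ≤ 4 * (C1 ^ 2 * g ^ 12) * g ^ 16 := by
      have := mul_le_mul_of_nonneg_right h2 (by positivity : 0 ≤ g ^ 16)
      linarith
    have e2 : 4 * (C1 ^ 2 * g ^ 12) * g ^ 16 = 4 * C1 ^ 2 * g ^ 28 := by ring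
    have e3 : 4 * C1 ^ 2 * g ^ 28 ≤ 4 * C1 ^ 2 * g ^ 15 :=
      mul_le_mul_of_nonneg_left (co3_pow hg hg1 (by norm_num)) (by positivity)
    linarith
  have t2 : 4 * (γ * (Q ^ 14 + 1)) * (1 / st) * g ^ 16 ≤ 8 * C1 * g ^ 15 := by
    have e1 : Q ^ 14 + 1 ≤ 2 * Q ^ 14 := by
      have := one_le_pow₀ (n := 14) hQ
      linarith
    have e2 : γ * (Q ^ 14 + 1) ≤ (C1 * g ^ 6) * (2 * Q ^ 14) :=
      mul_le_mul hγ e1 (by positivity) (by positivity)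
    have e3 : 4 * (γ * (Q ^ 14 + 1)) * (1 / st) ≤ 4 * ((C1 * g ^ 6) * (2 * Q ^ 14)) * g ^ 7 :=
      mul_le_mul (by linarith) hsti (by positivity) (by positivity)
    have e4 := mul_le_mul_of_nonneg_right e3 (by positivity : 0 ≤ g ^ 16)
    have e5 : 4 * ((C1 * g ^ 6) * (2 * Q ^ 14)) * g ^ 7 * g ^ 16 =
        8 * C1 * g ^ 15 * (Q * g) ^ 14 := by ring
    rw [e5, hQg, one_pow, mul_one] at e4
    exact e4
  have t3 : 4 * (r + 1) * (γ * (sn / st)) * g ^ 17 ≤ 4 * (r + 1) * C1 * C2 * g ^ 15 := by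
    have e1 : sn / st ≤ C2 * Q ^ 8 := by
      rw [div_le_iff₀ hst]; exact hsn
    have e2 : γ * (sn / st) ≤ (C1 * g ^ 6) * (C2 * Q ^ 8) :=
      mul_le_mul hγ e1 (by positivity) (by positivity)
    have e3 := mul_le_mul_of_nonneg_left e2 (by positivity : 0 ≤ 4 * (r + 1))
    have e4 := mul_le_mul_of_nonneg_right e3 (by positivity : 0 ≤ g ^ 17)
    have e5 : 4 * (r + 1) * ((C1 * g ^ 6) * (C2 * Q ^ 8)) * g ^ 17 =
        4 * (r + 1) * C1 * C2 * g ^ 15 * (Q * g) ^ 8 := by ring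
    rw [e5, hQg, one_pow, mul_one] at e4
    exact e4
  have e : (4 * C1 ^ 2 + 8 * C1 + 4 * (r + 1) * C1 * C2) * g ^ 15 =
      4 * C1 ^ 2 * g ^ 15 + 8 * C1 * g ^ 15 + 4 * (r + 1) * C1 * C2 * g ^ 15 := by ring
  rw [e]
  linarith

theorem co3_num3 {r C1 C4 C5 C6 A g Q γ x η : ℝ} (hr : 0 ≤ r) (hA : 0 ≤ A)
    (hQ : 1 ≤ Q) (hQg : Q * g = 1) (hg : 0 < g) (hg1 : g ≤ 1) (hγ0 : 0 ≤ γ)
    (hγ : γ ≤ C1 * g ^ 6) (hx0 : 0 ≤ x) (hx : x ≤ A * g ^ 5)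
    (hη : (r * C4 + r * C5 + 2 * r * C6 ^ 2 + r ^ 2 * C1 ^ 2 * (8 * A + 4 * r)) * g ≤ η) :
    (r * Q ^ 14) * (C4 * g ^ 15) + r * Q ^ 14 * (C5 * g ^ 15) +
      2 * (r * Q ^ 14) * (C6 * g ^ 14) ^ 2 +
      (r * Q ^ 14) ^ 2 * γ ^ 2 * ((8 * x + 4 * r / Q ^ 16) / Q ^ 16) ≤ η := by
  have hQ0 : 0 < Q := by linarith
  have hgQ : ∀ a : ℕ, 1 / Q ^ a = g ^ a := by
    intro a
    rw [div_eq_iff (by positivity), ← mul_pow, mul_comm g Q, hQg, one_pow]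
  have h2 : γ ^ 2 ≤ C1 ^ 2 * g ^ 12 := by
    calc γ ^ 2 ≤ (C1 * g ^ 6) ^ 2 := pow_le_pow_left₀ hγ0 hγ 2
      _ = C1 ^ 2 * g ^ 12 := by ring
  have e1 : (r * Q ^ 14) * (C4 * g ^ 15) = r * C4 * g := by
    have : (r * Q ^ 14) * (C4 * g ^ 15) = r * C4 * g * (Q * g) ^ 14 := by ring
    rw [this, hQg, one_pow, mul_one]
  have e2 : r * Q ^ 14 * (C5 * g ^ 15) = r * C5 * g := by
    have : r * Q ^ 14 * (C5 * g ^ 15) = r * C5 * g * (Q * g) ^ 14 := by ring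
    rw [this, hQg, one_pow, mul_one]
  have e3 : 2 * (r * Q ^ 14) * (C6 * g ^ 14) ^ 2 ≤ 2 * r * C6 ^ 2 * g := by
    have h : 2 * (r * Q ^ 14) * (C6 * g ^ 14) ^ 2 =
        2 * r * C6 ^ 2 * g ^ 14 * (Q * g) ^ 14 := by ring
    rw [h, hQg, one_pow, mul_one]
    have h' := co3_pow hg hg1 (show 1 ≤ 14 by norm_num)
    rw [pow_one] at h'
    exact mul_le_mul_of_nonneg_left h' (by positivity)
  have e4 : (r * Q ^ 14) ^ 2 * γ ^ 2 * ((8 * x + 4 * r / Q ^ 16) / Q ^ 16) ≤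
      r ^ 2 * C1 ^ 2 * (8 * A + 4 * r) * g := by
    have h : (8 * x + 4 * r / Q ^ 16) / Q ^ 16 = (8 * x + 4 * r * g ^ 16) * g ^ 16 := by
      rw [← hgQ 16]; ring
    rw [h]
    have hx' : 8 * x + 4 * r * g ^ 16 ≤ (8 * A + 4 * r) * g := by
      have a1 : A * g ^ 5 ≤ A * g ^ 1 :=
        mul_le_mul_of_nonneg_left (co3_pow hg hg1 (by norm_num)) hA
      have a2 : r * g ^ 16 ≤ r * g ^ 1 :=
        mul_le_mul_of_nonneg_left (co3_pow hg hg1 (by norm_num)) hr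
      rw [pow_one] at a1 a2
      linarith
    have a3 : (r * Q ^ 14) ^ 2 * γ ^ 2 ≤ (r * Q ^ 14) ^ 2 * (C1 ^ 2 * g ^ 12) :=
      mul_le_mul_of_nonneg_left h2 (by positivity)
    have a4 : (8 * x + 4 * r * g ^ 16) * g ^ 16 ≤ (8 * A + 4 * r) * g * g ^ 16 :=
      mul_le_mul_of_nonneg_right hx' (by positivity)
    have a5 := mul_le_mul a3 a4 (by positivity) (by positivity)
    refine a5.trans (le_of_eq ?_)
    have a6 : (r * Q ^ 14) ^ 2 * (C1 ^ 2 * g ^ 12) * ((8 * A + 4 * r) * g * g ^ 16) =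
        r ^ 2 * C1 ^ 2 * (8 * A + 4 * r) * g * (Q * g) ^ 28 := by ring
    rw [a6, hQg, one_pow, mul_one]
  rw [e1, e2]
  refine le_trans ?_ hη
  have e5 : (r * C4 + r * C5 + 2 * r * C6 ^ 2 + r ^ 2 * C1 ^ 2 * (8 * A + 4 * r)) * g =
      r * C4 * g + r * C5 * g + 2 * r * C6 ^ 2 * g +
        r ^ 2 * C1 ^ 2 * (8 * A + 4 * r) * g := by ring
  rw [e5]
  linarith

theorem co3_dl {r t : ℕ} {Q : ℝ} {w : PW r t} (hw : ZTyp Q w) (m : Fin r) :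
    |Dl w m| ≤ 2 * Real.sqrt ((r : ℝ) + 1) * Q * Real.sqrt t := by
  have hc : (Fintype.card (Pos r t) : ℝ) = ((r : ℝ) + 1) * t := by
    rw [Fintype.card_prod, Fintype.card_fin, Fintype.card_fin]; push_cast; ring
  have h2 := hw m.castSucc
  have h3 := hw m.succ
  rw [hc] at h2 h3
  unfold Dl
  have h4 : (ct w m.castSucc : ℝ) - (ct w m.succ : ℝ) =
      ((ct w m.castSucc : ℝ) - ((r : ℝ) + 1) * t / ((r : ℝ) + 1)) -
      ((ct w m.succ : ℝ) - ((r : ℝ) + 1) * t / ((r : ℝ) + 1)) := by ring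
  rw [h4]
  refine (abs_sub _ _).trans ?_
  have h5 : Real.sqrt (((r : ℝ) + 1) * t) = Real.sqrt ((r : ℝ) + 1) * Real.sqrt t :=
    Real.sqrt_mul (by positivity) _
  rw [h5] at h2 h3
  refine (add_le_add h2 h3).trans (le_of_eq ?_)
  ring

/-- the final step with the sizes as free variables -/
theorem co3_mid (r k R n t y z h : ℕ) (C1 C3 C4 C5 C6 Q g γ η : ℝ)
    (hk : (k : ℝ) = Q ^ 14) (hR : (R : ℝ) = Q ^ 16) (hRr : 2 * r ≤ R) (hR0 : 0 < R)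
    (hQ0 : 0 < Q) (hQg : Q * g = 1) (hg : 0 < g) (hg1 : g ≤ 1)
    (hC4 : 0 ≤ C4) (hC5 : 0 ≤ C5) (hC6 : 0 ≤ C6) (hC6d : C6 = 2 * r * C1 ^ 2 + C5 + C4)
    (hqC6 : 2 * C6 ≤ Q) (ht : 0 < t) (hγdef : γ = (h : ℝ) / Real.sqrt t) (hγ0 : 0 ≤ γ)
    (hγ : γ ≤ C1 * g ^ 6) (hγ1 : γ ≤ 1) (hY1 : 1 ≤ C3 * Q)
    (hx8 : γ * (C3 * Q) + γ ^ 2 ≤ 1 / 8)
    (hE1 : r * (1 + γ * (C3 * Q) + γ ^ 2 * (C3 * Q) ^ 2) / Q ^ 16 + γ ^ 2 * (1 / Q ^ 4) / 2 +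
      γ ^ 3 * (C3 * Q) + γ ^ 3 * ((C3 * Q) + γ) ^ 3 ≤ C4 * g ^ 15)
    (hL : γ / (Real.sqrt t * Q ^ 16) * (4 * (h + Q ^ 14 + 1) + 4 * (r + 1) * Real.sqrt n / Q) ≤
      C5 * g ^ 15)
    (hnum : (r * Q ^ 14) * (C4 * g ^ 15) + r * Q ^ 14 * (C5 * g ^ 15) +
      2 * (r * Q ^ 14) * (C6 * g ^ 14) ^ 2 +
      (r * Q ^ 14) ^ 2 * γ ^ 2 * ((8 * (γ * (C3 * Q) + γ ^ 2) + 4 * r / Q ^ 16) / Q ^ 16) ≤ η)
    (i : Fin r → Fin k) (w : Word r y z R t)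
    (hlin : ∀ m : Fin r, |(∑ p, Dl (w.2.2 p) m) +
      h * ∑ m', Gm r m m' * (Q ^ 14 - 1 - 2 * ((i m' : ℕ) : ℝ))| ≤
      4 * ((h : ℝ) + Q ^ 14 + 1) + 4 * ((r : ℝ) + 1) * Real.sqrt n / Q)
    (hDl : ∀ m p, |Dl (w.2.2 p) m| ≤ C3 * Q * Real.sqrt t)
    (hT : ∀ m : Fin r, (R : ℝ) * t * (2 - 1 / Q ^ 4) ≤ ∑ p, (Dl (w.2.2 p) m) ^ 2)
    (c : Fin r → Fin R) :
    1 - η ≤ (∑ f : Oth i → Fin R, if Fre i (join i c f) then
      Real.exp (expo (h := h) i c (join i c f) w.2.2) else 0) /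
        (Fintype.card (Oth i → Fin R) : ℝ) := by
  have htR : (0 : ℝ) < t := by exact_mod_cast ht
  have hst : 0 < Real.sqrt t := Real.sqrt_pos.2 htR
  obtain ⟨yy, hyy⟩ : ∃ yy : Fin r → Fin R → ℝ, yy = fun m p => Dl (w.2.2 p) m / Real.sqrt t :=
    ⟨_, rfl⟩
  obtain ⟨X, hX⟩ : ∃ X : Fin r → ℝ, X = fun m => (k : ℝ) - 1 - 2 * ((i m : ℕ) : ℝ) := ⟨_, rfl⟩
  have hcardP : (Fintype.card (Fin R) : ℝ) = Q ^ 16 := by
    rw [Fintype.card_fin, hR]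
  have hXabs : ∀ m, |X m| ≤ Q ^ 14 := by
    intro m
    rw [hX]
    have h1 : ((i m : ℕ) : ℝ) + 1 ≤ (k : ℝ) := by exact_mod_cast (i m).2
    have h0 : (0 : ℝ) ≤ ((i m : ℕ) : ℝ) := Nat.cast_nonneg _
    have h3 : |(k : ℝ) - 1 - 2 * ((i m : ℕ) : ℝ)| ≤ k := by
      rw [abs_le]
      constructor <;> linarith
    rw [← hk]
    exact h3
  have hyabs : ∀ m p, |yy m p| ≤ C3 * Q := by
    intro m p
    rw [hyy]
    have h1 : |Dl (w.2.2 p) m / Real.sqrt t| ≤ C3 * Q := by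
      rw [abs_div, abs_of_pos hst, div_le_iff₀ hst]
      exact hDl m p
    exact h1
  have hs : ∀ m, (Fintype.card (Fin R) : ℝ) * (2 - 1 / Q ^ 4) ≤ ∑ p, (yy m p) ^ 2 := by
    intro m
    have h1 := hT m
    have h2 : ∑ p, (yy m p) ^ 2 = (∑ p, (Dl (w.2.2 p) m) ^ 2) / t := by
      rw [sum_div, hyy]
      refine sum_congr rfl fun p _ => ?_
      rw [div_pow, Real.sq_sqrt htR.le]
    rw [h2, le_div_iff₀ htR, Fintype.card_fin]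
    refine le_trans (le_of_eq (by ring)) h1
  have hLm : ∀ m, |γ * ((∑ p, yy m p) / (Fintype.card (Fin R) : ℝ)) +
      γ ^ 2 / (Fintype.card (Fin R) : ℝ) * ∑ m', Gm r m m' * X m'| ≤ C5 * g ^ 15 := by
    intro m
    refine le_trans ?_ hL
    rw [hcardP]
    have h1 := hlin m
    have h3 : ∑ p, yy m p = (∑ p, Dl (w.2.2 p) m) / Real.sqrt t := by
      rw [sum_div, hyy]
    have h4 : (h : ℝ) = γ * Real.sqrt t := by rw [hγdef]; field_simp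
    have h5 : ∑ m', Gm r m m' * X m' =
        ∑ m', Gm r m m' * (Q ^ 14 - 1 - 2 * ((i m' : ℕ) : ℝ)) := by
      rw [hX, ← hk]
    rw [← h5] at h1
    have h2 : γ * ((∑ p, yy m p) / Q ^ 16) + γ ^ 2 / Q ^ 16 * ∑ m', Gm r m m' * X m' =
        γ / (Real.sqrt t * Q ^ 16) * ((∑ p, Dl (w.2.2 p) m) +
          h * ∑ m', Gm r m m' * X m') := by
      rw [h3, h4]
      generalize (∑ p, Dl (w.2.2 p) m) = S1
      generalize (∑ m', Gm r m m' * X m') = S2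
      field_simp
    rw [h2, abs_mul, abs_of_nonneg (by positivity)]
    exact mul_le_mul_of_nonneg_left h1 (by positivity)
  have hGX : ∀ m, |∑ m', Gm r m m' * X m'| ≤ 2 * r * Q ^ 14 := by
    intro m
    refine (abs_sum_le_sum_abs _ _).trans ?_
    refine (sum_le_card_nsmul _ _ (2 * Q ^ 14) fun m' _ => ?_).trans ?_
    · rw [abs_mul]
      exact mul_le_mul (co3_gm_abs r m m') (hXabs m') (abs_nonneg _) (by norm_num)
    · rw [card_univ, Fintype.card_fin, nsmul_eq_mul]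
      exact le_of_eq (by ring)
  have hγ2 : γ ^ 2 ≤ C1 ^ 2 * g ^ 12 := by
    calc γ ^ 2 ≤ (C1 * g ^ 6) ^ 2 := pow_le_pow_left₀ hγ0 hγ 2
      _ = C1 ^ 2 * g ^ 12 := by ring
  have hζ : ∀ m, |γ * ((∑ p, yy m p) / (Fintype.card (Fin R) : ℝ))| + C4 * g ^ 15 ≤
      C6 * g ^ 14 := by
    intro m
    have h1 := hLm m
    have h7' := hGX m
    rw [hcardP] at h1 ⊢
    generalize (∑ m', Gm r m m' * X m') = S2 at h1 h7'
    generalize (∑ p, yy m p) = S1 at h1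
    clear hLm hGX hs hyabs hXabs hnum hL hE1 hlin hDl hT
    have h2 : |γ * (S1 / Q ^ 16)| ≤ C5 * g ^ 15 + |γ ^ 2 / Q ^ 16 * S2| := by
      have h3 := abs_sub (γ * (S1 / Q ^ 16) + γ ^ 2 / Q ^ 16 * S2) (γ ^ 2 / Q ^ 16 * S2)
      rw [add_sub_cancel_right] at h3
      linarith
    have h4 : |γ ^ 2 / Q ^ 16 * S2| ≤ 2 * r * C1 ^ 2 * g ^ 14 := by
      rw [abs_mul, abs_of_nonneg (by positivity : 0 ≤ γ ^ 2 / Q ^ 16)]
      have h5 : γ ^ 2 / Q ^ 16 = γ ^ 2 * g ^ 16 := by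
        rw [div_eq_iff (by positivity), mul_assoc, ← mul_pow, mul_comm g Q, hQg, one_pow, mul_one]
      have h6 : γ ^ 2 * g ^ 16 ≤ C1 ^ 2 * g ^ 12 * g ^ 16 :=
        mul_le_mul_of_nonneg_right hγ2 (by positivity)
      rw [h5]
      have h7 := mul_le_mul h6 h7' (abs_nonneg _) (by positivity)
      refine h7.trans (le_of_eq ?_)
      have h8 : C1 ^ 2 * g ^ 12 * g ^ 16 * (2 * r * Q ^ 14) =
          2 * r * C1 ^ 2 * g ^ 14 * (Q * g) ^ 14 := by ring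
      rw [h8, hQg, one_pow, mul_one]
    have h9 : g ^ 15 ≤ g ^ 14 := co3_pow hg hg1 (by norm_num)
    have h10 : C5 * g ^ 15 ≤ C5 * g ^ 14 := mul_le_mul_of_nonneg_left h9 hC5
    have h11 : C4 * g ^ 15 ≤ C4 * g ^ 14 := mul_le_mul_of_nonneg_left h9 hC4
    have h12 : C6 * g ^ 14 = 2 * r * C1 ^ 2 * g ^ 14 + C5 * g ^ 14 + C4 * g ^ 14 := by
      rw [hC6d]; ring
    rw [h12]
    linarith
  have hζ2 : C6 * g ^ 14 ≤ 1 / 2 := by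
    have h1 : C6 * g ^ 14 ≤ C6 * g ^ 1 :=
      mul_le_mul_of_nonneg_left (co3_pow hg hg1 (by norm_num)) hC6
    have h2 : 2 * C6 * g ≤ Q * g := mul_le_mul_of_nonneg_right hqC6 hg.le
    rw [pow_one] at h1
    clear hLm hGX hs hyabs hXabs hnum hL hE1 hlin hDl hT
    linarith
  have hq16 : 2 * r ≤ Fintype.card (Fin R) := by
    rw [Fintype.card_fin]; exact hRr
  have hPpos : 0 < Fintype.card (Fin R) := by
    rw [Fintype.card_fin]; exact hR0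
  obtain ⟨QQ, hQQ⟩ : ∃ QQ : Finset (Fin R), QQ = univ.filter (fun p => ∀ m, c m ≠ p) := ⟨_, rfl⟩
  have hQc : (univ \ QQ).card ≤ r := by rw [hQQ]; exact co3_compl c
  have hQne : QQ.Nonempty := by
    rw [← card_pos]
    have h1 := card_sdiff_add_card_inter (univ : Finset (Fin R)) QQ
    rw [univ_inter, card_univ] at h1
    omega
  have hcardO : (Fintype.card (Oth i) : ℝ) ≤ r * Q ^ 14 := by
    have h1 := co3_card i
    have h2 : (Fintype.card (Oth i) : ℝ) ≤ ((r * k : ℕ) : ℝ) := by exact_mod_cast h1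
    refine h2.trans (le_of_eq ?_)
    rw [Nat.cast_mul, hk]
  have hcore := co3_core r (fun u : Oth i => u.1.1)
    (fun u : Oth i => if u.1.2 < i u.1.1 then (-1 : ℝ) else 1)
    (fun u => by split_ifs <;> simp) X (fun φ => by rw [hX]; exact co3_sum i φ)
    QQ hQc hq16 hPpos hQne yy (C3 * Q) γ
    (1 / Q ^ 4) (Q ^ 14) (C5 * g ^ 15) (C6 * g ^ 14) (r * Q ^ 14) hY1 hyabs hγ0 hγ1
    (by positivity) hs hx8 hXabs hcardO
    hLm (C4 * g ^ 15) (by rw [hcardP]; exact hE1) hζ hζ2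
  have hcardF : (Fintype.card (Oth i → Fin R) : ℝ) =
      (Fintype.card (Fin R) : ℝ) ^ (Fintype.card (Oth i)) := by
    rw [Fintype.card_fun]
    push_cast
    rfl
  have hsumeq : (∑ f : Oth i → Fin R, if ∀ u, f u ∈ QQ then
        Real.exp ((∑ u, (-(γ * (if u.1.2 < i u.1.1 then (-1 : ℝ) else 1) * yy u.1.1 (f u)) -
          γ ^ 2)) +
          ∑ u, ∑ u' ∈ univ.filter (fun u' => u' ≠ u),
          if f u = f u' then -(γ ^ 2 / 2 * (if u.1.2 < i u.1.1 then (-1 : ℝ) else 1) *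
            (if u'.1.2 < i u'.1.1 then (-1 : ℝ) else 1) * Gm r u.1.1 u'.1.1) else 0) else 0) =
      ∑ f : Oth i → Fin R, if Fre i (join i c f) then
        Real.exp (expo (h := h) i c (join i c f) w.2.2) else 0 := by
    refine sum_congr rfl fun f _ => ?_
    by_cases hf : Fre i (join i c f)
    · have hf' := (co3_fre i c f).1 hf
      rw [← hQQ] at hf'
      rw [if_pos hf', if_pos hf, expo_eq ht i c f hf w.2.2, hyy, hγdef]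
    · have hf' : ¬ ∀ u, f u ∈ QQ := fun h' => hf ((co3_fre i c f).2 (by rw [← hQQ]; exact h'))
      rw [if_neg hf', if_neg hf]
  rw [← hsumeq, hcardF]
  refine le_trans ?_ hcore
  rw [hcardP]
  exact sub_le_sub_left hnum 1

theorem coarse_pr (r : ℕ) (hr : 1 ≤ r) (K η : ℝ) (hK : 0 < K) (hη : 0 < η) :
    ∃ q0 : ℕ, ∀ q ≥ q0, ∃ n0 : ℕ, ∀ n ≥ n0, ∀ t z y h : ℕ, Reg r q K n t z y h →
      ∀ (i : Fin r → Fin (q ^ 14)) (w : Word r y z (q ^ 16) t), InC (F0 r q n h) h i w →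
      Typ (q : ℝ) (1 / (q : ℝ) ^ 4) w → ∀ c : Fin r → Fin (q ^ 16),
        1 - η ≤ (∑ f : Oth i → Fin (q ^ 16), if Fre i (join i c f) then
          Real.exp (expo (h := h) i c (join i c f) w.2.2) else 0) /
            (Fintype.card (Oth i → Fin (q ^ 16)) : ℝ) := by
  obtain ⟨C2, hC2⟩ : ∃ C2 : ℝ, C2 = Real.sqrt (2 * ((r : ℝ) + 1)) := ⟨_, rfl⟩
  obtain ⟨C1, hC1⟩ : ∃ C1 : ℝ, C1 = K * C2 + 1 := ⟨_, rfl⟩
  obtain ⟨C3, hC3⟩ : ∃ C3 : ℝ, C3 = 2 * Real.sqrt ((r : ℝ) + 1) := ⟨_, rfl⟩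
  obtain ⟨A, hA⟩ : ∃ A : ℝ, A = C1 * C3 + C1 ^ 2 := ⟨_, rfl⟩
  obtain ⟨C4, hC4⟩ : ∃ C4 : ℝ, C4 = 2 * r + C1 ^ 2 + C1 ^ 3 * C3 + A ^ 3 := ⟨_, rfl⟩
  obtain ⟨C5, hC5⟩ : ∃ C5 : ℝ, C5 = 4 * C1 ^ 2 + 8 * C1 + 4 * ((r : ℝ) + 1) * C1 * C2 :=
    ⟨_, rfl⟩
  obtain ⟨C6, hC6⟩ : ∃ C6 : ℝ, C6 = 2 * r * C1 ^ 2 + C5 + C4 := ⟨_, rfl⟩
  obtain ⟨Ct, hCt⟩ : ∃ Ct : ℝ, Ct = r * C4 + r * C5 + 2 * r * C6 ^ 2 +
    (r : ℝ) ^ 2 * C1 ^ 2 * (8 * A + 4 * r) := ⟨_, rfl⟩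
  have hC2' : 0 ≤ C2 := by rw [hC2]; exact Real.sqrt_nonneg _
  have hC1' : 0 ≤ C1 := by rw [hC1]; positivity
  have hC3' : 0 ≤ C3 := by rw [hC3]; positivity
  have hA' : 0 ≤ A := by rw [hA]; positivity
  have hC4' : 0 ≤ C4 := by rw [hC4]; positivity
  have hC5' : 0 ≤ C5 := by rw [hC5]; positivity
  have hC6' : 0 ≤ C6 := by rw [hC6]; positivity
  refine ⟨⌈8 * A⌉₊ + ⌈2 * C6⌉₊ + ⌈Ct / η⌉₊ + ⌈C1⌉₊ + 2 * r + 2, fun q hq => ?_⟩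
  have hq2 : 2 ≤ q := by omega
  have hqA : 8 * A ≤ q := (Nat.le_ceil _).trans (by exact_mod_cast (by omega : ⌈8 * A⌉₊ ≤ q))
  have hqC6 : 2 * C6 ≤ q :=
    (Nat.le_ceil _).trans (by exact_mod_cast (by omega : ⌈2 * C6⌉₊ ≤ q))
  have hqCt : Ct / η ≤ q :=
    (Nat.le_ceil _).trans (by exact_mod_cast (by omega : ⌈Ct / η⌉₊ ≤ q))
  have hqC1 : C1 ≤ q := (Nat.le_ceil _).trans (by exact_mod_cast (by omega : ⌈C1⌉₊ ≤ q))
  have hqr : 2 * r ≤ q := by omega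
  obtain ⟨n0, hn0⟩ := lin r q hr hq2 K hK
  refine ⟨max n0 (2 * q ^ 30 * (r + 1)), fun n hn t z y h hReg i w hInC hTyp c => ?_⟩
  have hn1 : n0 ≤ n := le_trans (le_max_left _ _) hn
  have hn2 : 2 * q ^ 30 * (r + 1) ≤ n := le_trans (le_max_right _ _) hn
  obtain ⟨ht, hst7, hsn, hγb⟩ := co3_par hr hq2 hK hn2 hReg
  have hlin := hn0 n hn1 t z y h hReg i w hInC hTyp
  have hq0 : 0 < q := by omega
  have hqk : ((q ^ 14 : ℕ) : ℝ) = (q : ℝ) ^ 14 := Nat.cast_pow q 14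
  have hqR : ((q ^ 16 : ℕ) : ℝ) = (q : ℝ) ^ 16 := Nat.cast_pow q 16
  have hTy3 : ∀ p, ZTyp (q : ℝ) (w.2.2 p) := hTyp.2.2.1
  have hTy4 := hTyp.2.2.2
  have hQ1 : 1 ≤ (q : ℝ) := by exact_mod_cast hq0
  have hRr : 2 * r ≤ q ^ 16 := by
    refine hqr.trans ?_
    calc q = q ^ 1 := (pow_one q).symm
      _ ≤ q ^ 16 := Nat.pow_le_pow_right hq0 (by norm_num)
  have hR0 : 0 < q ^ 16 := Nat.pow_pos hq0
  rw [← hC2] at hsn hγb
  rw [← hC1] at hγb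
  clear hq hn hn0 hn1 hn2 hReg hInC hTyp
  revert i w c hqk hqR hRr hR0
  generalize hkk : q ^ 14 = k
  generalize hRR : q ^ 16 = R
  generalize (q : ℝ) = Q at *
  intro i w c hlin hk hR hTy3 hTy4 hRr hR0
  have hQ0 : 0 < Q := by linarith
  obtain ⟨g, hgdef⟩ : ∃ g : ℝ, g = Q⁻¹ := ⟨_, rfl⟩
  have hQg : Q * g = 1 := by rw [hgdef]; exact mul_inv_cancel₀ hQ0.ne'
  have hg : 0 < g := by rw [hgdef]; exact inv_pos.2 hQ0
  have hg1 : g ≤ 1 := by rw [hgdef]; exact inv_le_one_of_one_le₀ hQ1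
  have htR : (0 : ℝ) < t := by exact_mod_cast ht
  have hst : 0 < Real.sqrt t := Real.sqrt_pos.2 htR
  obtain ⟨γ, hγdef⟩ : ∃ γ : ℝ, γ = (h : ℝ) / Real.sqrt t := ⟨_, rfl⟩
  have hγ0 : 0 ≤ γ := by rw [hγdef]; positivity
  have hγ : γ ≤ C1 * g ^ 6 := by
    rw [hγdef]
    refine hγb.trans (le_of_eq ?_)
    rw [hgdef, inv_pow, div_eq_mul_inv]
  have hγ1 : γ ≤ 1 := by
    refine hγ.trans ?_
    have h1 : C1 * g ^ 6 ≤ C1 * g ^ 1 :=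
      mul_le_mul_of_nonneg_left (co3_pow hg hg1 (by norm_num)) hC1'
    have h2 : C1 * g ≤ Q * g := mul_le_mul_of_nonneg_right hqC1 hg.le
    rw [pow_one] at h1
    rw [hQg] at h2
    exact h1.trans h2
  rw [hA] at hqA
  obtain ⟨hx5, hx8, hE1⟩ := co3_num1 (r := (r : ℝ)) (Nat.cast_nonneg r) hC1' hC3' hQ0 hQg hg hg1
    hγ0 hγ hqA
  rw [← hA] at hx5 hE1
  rw [← hC4] at hE1
  have hL := co3_num2 (r := (r : ℝ)) (Nat.cast_nonneg r) hC1' hQ1 hQg hg hg1 hγ0 hγ hst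
    hst7 (Real.sqrt_nonneg (n : ℝ)) hsn (h := (h : ℝ)) (by rw [hγdef]; field_simp)
  rw [← hC5] at hL
  have hηg : Ct * g ≤ η := by
    have h1 : Ct ≤ Q * η := by rwa [div_le_iff₀ hη] at hqCt
    have h2 := mul_le_mul_of_nonneg_right h1 hg.le
    have h3 : Q * η * g = η * (Q * g) := by ring
    rw [h3, hQg, mul_one] at h2
    exact h2
  rw [hCt] at hηg
  have hnum := co3_num3 (r := (r : ℝ)) (C4 := C4) (C5 := C5) (C6 := C6) (Nat.cast_nonneg r)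
    hA' hQ1 hQg hg hg1 hγ0 hγ (x := γ * (C3 * Q) + γ ^ 2) (by positivity) hx5 hηg
  have hY1 : 1 ≤ C3 * Q := by
    have h1 : 1 ≤ Real.sqrt ((r : ℝ) + 1) := by
      rw [Real.one_le_sqrt]
      have : (0 : ℝ) ≤ r := Nat.cast_nonneg r
      linarith
    have h2 : 1 ≤ C3 := by rw [hC3]; linarith
    calc (1 : ℝ) = 1 * 1 := (mul_one 1).symm
      _ ≤ C3 * Q := mul_le_mul h2 hQ1 zero_le_one hC3'
  have hDl : ∀ m p, |Dl (w.2.2 p) m| ≤ C3 * Q * Real.sqrt t := by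
    intro m p
    rw [hC3]
    exact co3_dl (hTy3 p) m
  rw [hR] at hTy4
  refine co3_mid r k R n t y z h C1 C3 C4 C5 C6 Q g γ η hk hR hRr hR0 hQ0 hQg hg hg1
    hC4' hC5' hC6' hC6 hqC6 ht hγdef hγ0 hγ hγ1 hY1 hx8 hE1 hL hnum i w hlin hDl ?_ c
  intro m
  rw [hR]
  exact hTy4 m

end Pool.Agent.Lib_helper46.CC

namespace Pool.Agent.Lib_helper46.CC

alias coarse := coarse_pr

end Pool.Agent.Lib_helper46.CC
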