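import Mathlib
import Pool.Agent.Lib_helper46.CCF.WBase
import Pool.Agent.Lib_helper46.CCF.REP

/-! Block WBD, written by helper82. -/

/-!
# MP_10b4aa_co, block WBD
-/

set_option autoImplicit false

namespace Pool.Agent.Lib_helper46.CC

open Finset Pool.Agent.Lib_helper70.Chains
open scoped Classical

section WBD

variable {r k t h D D2 : ℕ} {δ B : ℝ}

theorem wbd_dn_nonneg (κ : Ker r k t h D D2 δ B) (c : Bool) (M J : ℕ) (T S : Finset (Fin t)) :
    0 ≤ dn κ c M J T S := by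
  unfold dn
  refine sum_nonneg fun S' _ => sum_nonneg fun P _ => ?_
  split_ifs
  · exact κ.nonneg _ _ _ _ _
  · exact le_rfl

/-- Block WBD: bounds for `Wid` -/
theorem wid_nonneg_pr (κ : Ker r k t h D D2 δ B) (c : Bool) (M J : Fin r → ℕ) (b : PW r t) :
    0 ≤ Wid κ c M J b :=
  prod_nonneg fun m _ => wbd_dn_nonneg κ c _ _ _ _

theorem wid_le_pr (κ : Ker r k t h D D2 δ B) (c : Bool) (M J : Fin r → ℕ)
    (hJ : ∀ m, J m ≤ M m ∧ M m ≤ k) (hc : c = false → ∀ m, M m ≤ 1) (b : PW r t) :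
    Wid κ c M J b ≤ B ^ (∑ m, M m) := by
  unfold Wid
  rw [← prod_pow_eq_pow_sum]
  refine prod_le_prod (fun m _ => wbd_dn_nonneg κ c _ _ _ _) fun m _ => ?_
  have h1 := κ.dens c (M m) (J m) (Tr b m) (Sr b m) (hJ m).1 (hJ m).2 fun h => hc h m
  refine h1.trans ?_
  split_ifs with h0
  · rw [h0, pow_zero]
  · exact le_self_pow₀ κ.oneB h0

theorem wid_zero_pr (κ : Ker r k t h D D2 δ B) (c : Bool) (b : PW r t) :
    Wid κ c (fun _ => 0) (fun _ => 0) b = 1 := by
  unfold Wid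
  refine prod_eq_one fun m _ => ?_
  have h1 := κ.zero c (Tr b m) (Sr b m) (sr_sub b m)
  unfold dn
  simpa using h1

end WBD

end Pool.Agent.Lib_helper46.CC

namespace Pool.Agent.Lib_helper46.CC

alias wid_le := wid_le_pr
alias wid_nonneg := wid_nonneg_pr
alias wid_zero := wid_zero_pr

end Pool.Agent.Lib_helper46.CC
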