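import Mathlib
import Pool.Agent.Lib_helper46.CCF.WBase
import Pool.Agent.Lib_helper46.CCF.WBD

/-! Block FAC, written by helper6. -/

set_option autoImplicit false

namespace Pool.Agent.Lib_helper46.CC

open Finset Pool.Agent.Lib_helper70.Chains
open scoped Classical

/-- independence: the average of a product over different coordinates -/
theorem fac_indep {V S P : Type} [Fintype V] [DecidableEq V] [Fintype S] [Nonempty S] [Fintype P]
    (u : P → V) (hu : Function.Injective u) (g : P → S → ℝ) :
    (∑ π : V → S, ∏ p : P, g p (π (u p))) / (Fintype.card (V → S) : ℝ) =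
      ∏ p : P, ((∑ s, g p s) / (Fintype.card S : ℝ)) := by
  have hS : (Fintype.card S : ℝ) ≠ 0 := by exact_mod_cast Fintype.card_ne_zero
  set G : V → S → ℝ := fun v s => ∏ p ∈ univ.filter (fun p => u p = v), g p s with hG
  have h1 : ∀ π : V → S, ∏ p : P, g p (π (u p)) = ∏ v, G v (π v) := by
    intro π
    rw [← prod_fiberwise (univ : Finset P) u]
    apply prod_congr rfl
    intro v _
    simp only [hG]
    apply prod_congr rfl
    intro p hp
    rw [(mem_filter.mp hp).2]
  have h2 : ∑ π : V → S, ∏ v, G v (π v) = ∏ v, ∑ s, G v s := by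
    rw [prod_univ_sum, Fintype.piFinset_univ]
  have h3 : (Fintype.card (V → S) : ℝ) = ∏ _v : V, (Fintype.card S : ℝ) := by
    rw [Fintype.card_fun, prod_const, card_univ]
    push_cast
    rfl
  have h4 : ∀ v, (∑ s, G v s) / (Fintype.card S : ℝ) =
      ∏ p ∈ univ.filter (fun p => u p = v), ((∑ s, g p s) / (Fintype.card S : ℝ)) := by
    intro v
    simp only [hG]
    by_cases hv : ∃ p, u p = v
    · obtain ⟨p, hp⟩ := hv
      have : univ.filter (fun p => u p = v) = {p} := by
        ext q
        simp only [mem_filter, mem_univ, true_and, mem_singleton]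
        constructor
        · intro hq
          exact hu (hq.trans hp.symm)
        · rintro rfl
          exact hp
      rw [this]
      simp only [prod_singleton]
    · have : univ.filter (fun p => u p = v) = ∅ := by
        ext q
        simp only [mem_filter, mem_univ, true_and, notMem_empty, iff_false]
        intro hq
        exact hv ⟨q, hq⟩
      rw [this]
      simp only [prod_empty, sum_const, card_univ, nsmul_eq_mul, mul_one]
      exact div_self hS
  calc (∑ π : V → S, ∏ p : P, g p (π (u p))) / (Fintype.card (V → S) : ℝ)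
      = (∏ v, ∑ s, G v s) / ∏ _v : V, (Fintype.card S : ℝ) := by
        rw [h3, ← h2]
        congr 1
        exact sum_congr rfl (fun π _ => h1 π)
    _ = ∏ v, ((∑ s, G v s) / (Fintype.card S : ℝ)) := by rw [prod_div_distrib]
    _ = ∏ v, ∏ p ∈ univ.filter (fun p => u p = v), ((∑ s, g p s) / (Fintype.card S : ℝ)) :=
        prod_congr rfl (fun v _ => h4 v)
    _ = ∏ p : P, ((∑ s, g p s) / (Fintype.card S : ℝ)) := by
        rw [prod_fiberwise]

section
variable {r k t h D D2 : ℕ} {δ B : ℝ} {R : ℕ}

theorem fac_cur {Λ : Type} (i : Fin r → Fin k) (c : Fin r → Λ) (o : Oth i → Λ) (m : Fin r) :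
    join i c o m (i m) = c m := by
  unfold join
  rw [dif_pos rfl]

theorem fac_oth {Λ : Type} (i : Fin r → Fin k) (c : Fin r → Λ) (o : Oth i → Λ) (m : Fin r)
    (j : Fin k) (hj : j ≠ i m) : join i c o m j = o ⟨(m, j), hj⟩ := by
  unfold join
  rw [dif_neg hj]

theorem fac_fst (i : Fin r → Fin k) (c : Fin r → Lab r R t) (f : Oth i → Fin R)
    (π : Oth i → Equiv.Perm (Pos r t)) (m : Fin r) (j : Fin k) :
    (join i c (fun u => (f u, π u)) m j).1 = join i (fun m => (c m).1) f m j := by
  unfold join
  split_ifs <;> rfl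

/-- the windows with part `p` -/
def fac_U (f : Fin r → Fin k → Fin R) (p : Fin R) : Finset (Fin r ×ₗ Fin k) :=
  univ.filter (fun u => f (ofLex u).1 (ofLex u).2 = p)

theorem fac_min_ne (i : Fin r → Fin k) (c : Fin r → Fin R) (f : Oth i → Fin R) (p : Fin R)
    (hp : ∀ m, c m ≠ p) (hU : (fac_U (join i c f) p).Nonempty) :
    (ofLex ((fac_U (join i c f) p).min' hU)).2 ≠ i (ofLex ((fac_U (join i c f) p).min' hU)).1 := by
  intro he
  have h1 := min'_mem (fac_U (join i c f) p) hU
  have h2 := (mem_filter.mp h1).2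
  rw [he, fac_cur] at h2
  exact hp _ h2

/-- the first window with part `p` -/
def fac_u (i : Fin r → Fin k) (c : Fin r → Fin R) (f : Oth i → Fin R) (p : Fin R)
    (hp : ∀ m, c m ≠ p) (hU : (fac_U (join i c f) p).Nonempty) : Oth i :=
  ⟨ofLex ((fac_U (join i c f) p).min' hU), fac_min_ne i c f p hp hU⟩

theorem fac_f_u (i : Fin r → Fin k) (c : Fin r → Fin R) (f : Oth i → Fin R) (p : Fin R)
    (hp : ∀ m, c m ≠ p) (hU : (fac_U (join i c f) p).Nonempty) :
    f (fac_u i c f p hp hU) = p := by
  have h1 := min'_mem (fac_U (join i c f) p) hU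
  have h2 := (mem_filter.mp h1).2
  rw [fac_oth i c f _ _ (fac_min_ne i c f p hp hU)] at h2
  exact h2

theorem fac_fsg (i : Fin r → Fin k) (c : Fin r → Lab r R t) (f : Oth i → Fin R)
    (π : Oth i → Equiv.Perm (Pos r t)) (p : Fin R) (hp : ∀ m, (c m).1 ≠ p)
    (hU : (fac_U (join i (fun m => (c m).1) f) p).Nonempty) :
    fsg (join i c (fun u => (f u, π u))) p = π (fac_u i (fun m => (c m).1) f p hp hU) := by
  have hset : (univ.filter (fun u : Fin r ×ₗ Fin k =>
      (join i c (fun u => (f u, π u)) (ofLex u).1 (ofLex u).2).1 = p)) =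
      fac_U (join i (fun m => (c m).1) f) p := by
    unfold fac_U
    apply filter_congr
    intro u _
    rw [fac_fst]
  unfold fsg frs
  have hne : (univ.filter (fun u : Fin r ×ₗ Fin k =>
      (join i c (fun u => (f u, π u)) (ofLex u).1 (ofLex u).2).1 = p)).Nonempty := by
    rw [hset]; exact hU
  rw [dif_pos hne]
  have hmin : (univ.filter (fun u : Fin r ×ₗ Fin k =>
      (join i c (fun u => (f u, π u)) (ofLex u).1 (ofLex u).2).1 = p)).min' hne =
      (fac_U (join i (fun m => (c m).1) f) p).min' hU := by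
    congr 1
  rw [hmin]
  change (join i c (fun u => (f u, π u))
    (ofLex ((fac_U (join i (fun m => (c m).1) f) p).min' hU)).1
    (ofLex ((fac_U (join i (fun m => (c m).1) f) p).min' hU)).2).2 = _
  rw [fac_oth i c _ _ _ (fac_min_ne i (fun m => (c m).1) f p hp hU)]
  rfl

theorem fac_usz (f : Fin r → Fin k → Fin R) (p : Fin R) (hU : ¬ (fac_U f p).Nonempty) :
    usz f p = fun _ => 0 := by
  funext m
  unfold usz
  rw [card_eq_zero, filter_eq_empty_iff]
  intro j _ hj
  apply hU
  exact ⟨toLex (m, j), mem_filter.mpr ⟨mem_univ _, hj⟩⟩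

theorem fac_pas (f : Fin r → Fin k → Fin R) (p : Fin R) (hU : ¬ (fac_U f p).Nonempty)
    (i : Fin r → Fin k) : (fun m => pas f p m (i m)) = fun _ => 0 := by
  funext m
  unfold pas
  rw [card_eq_zero, filter_eq_empty_iff]
  intro j _ hj
  apply hU
  exact ⟨toLex (m, j), mem_filter.mpr ⟨mem_univ _, hj.1⟩⟩

/-- the average over the permutations for fixed parts -/
theorem fac_inner (κ : Ker r k t h D D2 δ B) (i : Fin r → Fin k) (c : Fin r → Lab r R t)
    (w : Fin R → PW r t) (f : Oth i → Fin R) :
    (∑ π : Oth i → Equiv.Perm (Pos r t), Psi κ i (join i c (fun u => (f u, π u))) w) /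
        (Fintype.card (Oth i → Equiv.Perm (Pos r t)) : ℝ) =
      if Fre i (join i (fun m => (c m).1) f) then
        ∏ p ∈ univ.filter (fun p => ∀ m, (c m).1 ≠ p),
          AW κ (hib (join i (fun m => (c m).1) f) p) (usz (join i (fun m => (c m).1) f) p)
            (fun m => pas (join i (fun m => (c m).1) f) p m (i m)) (w p)
        else 0 := by
  have hfst : ∀ π : Oth i → Equiv.Perm (Pos r t),
      (fun m j => (join i c (fun u => (f u, π u)) m j).1) = join i (fun m => (c m).1) f := by
    intro π
    funext m j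
    exact fac_fst i c f π m j
  set jf := join i (fun m => (c m).1) f with hjf
  split_ifs with hF
  · -- the frozen parts which are used
    set Z := univ.filter (fun p => (∀ m, (c m).1 ≠ p) ∧ (fac_U jf p).Nonempty) with hZ
    have hZ1 : ∀ p : Z, ∀ m, (c m).1 ≠ (p : Fin R) := fun p => (mem_filter.mp p.2).2.1
    have hZ2 : ∀ p : Z, (fac_U jf (p : Fin R)).Nonempty := fun p => (mem_filter.mp p.2).2.2
    have hsub : Z ⊆ univ.filter (fun p => ∀ m, (c m).1 ≠ p) := by
      intro p hp
      exact mem_filter.mpr ⟨mem_univ _, (mem_filter.mp hp).2.1⟩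
    set g : Z → Equiv.Perm (Pos r t) → ℝ := fun p σ =>
      Wid κ (hib jf p) (usz jf p) (fun m => pas jf p m (i m)) (w p ∘ σ) with hg
    have hPsi : ∀ π : Oth i → Equiv.Perm (Pos r t),
        Psi κ i (join i c (fun u => (f u, π u))) w =
          ∏ p : Z, g p (π (fac_u i (fun m => (c m).1) f p (hZ1 p) (hZ2 p))) := by
      intro π
      unfold Psi
      rw [hfst π, if_pos hF]
      have hfil : univ.filter (fun p => ∀ m, (join i c (fun u => (f u, π u)) m (i m)).1 ≠ p) =
          univ.filter (fun p => ∀ m, (c m).1 ≠ p) := by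
        apply filter_congr
        intro p _
        simp only [fac_cur]
      rw [hfil, ← prod_subset hsub]
      · rw [← prod_coe_sort]
        apply prod_congr rfl
        intro p _
        simp only [hg]
        rw [fac_fsg i c f π p (hZ1 p) (hZ2 p)]
      · intro p hp hpZ
        have hU : ¬ (fac_U jf p).Nonempty := by
          intro hU
          exact hpZ (mem_filter.mpr ⟨mem_univ _, (mem_filter.mp hp).2, hU⟩)
        rw [fac_usz jf p hU, fac_pas jf p hU i, wid_zero]
    have hinj : Function.Injective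
        (fun p : Z => fac_u i (fun m => (c m).1) f p (hZ1 p) (hZ2 p)) := by
      intro p q hpq
      have h1 := fac_f_u i (fun m => (c m).1) f p (hZ1 p) (hZ2 p)
      have h2 := fac_f_u i (fun m => (c m).1) f q (hZ1 q) (hZ2 q)
      simp only at hpq
      rw [hpq] at h1
      exact Subtype.ext (h1.symm.trans h2)
    have h1 := fac_indep (fun p : Z => fac_u i (fun m => (c m).1) f p (hZ1 p) (hZ2 p)) hinj g
    rw [sum_congr rfl (fun π _ => hPsi π)]
    rw [h1, ← prod_subset hsub]
    · rw [← prod_coe_sort Z]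
      rfl
    · intro p hp hpZ
      have hU : ¬ (fac_U jf p).Nonempty := by
        intro hU
        exact hpZ (mem_filter.mpr ⟨mem_univ _, (mem_filter.mp hp).2, hU⟩)
      unfold AW
      rw [fac_usz jf p hU, fac_pas jf p hU i]
      simp only [wid_zero, sum_const, card_univ, nsmul_eq_mul, mul_one]
      apply div_self
      exact_mod_cast Fintype.card_ne_zero
  · rw [sum_eq_zero, zero_div]
    intro π _
    unfold Psi
    rw [hfst π, if_neg hF]

theorem psi_avg_pr {R : ℕ} (κ : Ker r k t h D D2 δ B) (i : Fin r → Fin k) (c : Fin r → Lab r R t)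
    (w : Fin R → PW r t) :
    (∑ o : Oth i → Lab r R t, Psi κ i (join i c o) w) / (Fintype.card (Oth i → Lab r R t) : ℝ) =
      (∑ f : Oth i → Fin R, if Fre i (join i (fun m => (c m).1) f) then
        ∏ p ∈ univ.filter (fun p => ∀ m, (c m).1 ≠ p),
          AW κ (hib (join i (fun m => (c m).1) f) p) (usz (join i (fun m => (c m).1) f) p)
            (fun m => pas (join i (fun m => (c m).1) f) p m (i m)) (w p)
        else 0) / (Fintype.card (Oth i → Fin R) : ℝ) := by
  have hcard : (Fintype.card (Oth i → Lab r R t) : ℝ) =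
      (Fintype.card (Oth i → Fin R) : ℝ) * (Fintype.card (Oth i → Equiv.Perm (Pos r t)) : ℝ) := by
    rw [← Nat.cast_mul, ← Fintype.card_prod]
    exact congrArg _ (Fintype.card_congr (Equiv.arrowProdEquivProdArrow _ _ _))
  have hsum : ∑ o : Oth i → Lab r R t, Psi κ i (join i c o) w =
      ∑ f : Oth i → Fin R, ∑ π : Oth i → Equiv.Perm (Pos r t),
        Psi κ i (join i c (fun u => (f u, π u))) w := by
    rw [← Fintype.sum_prod_type' (fun (f : Oth i → Fin R) (π : Oth i → Equiv.Perm (Pos r t)) =>
      Psi κ i (join i c (fun u => (f u, π u))) w)]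
    exact Fintype.sum_equiv (Equiv.arrowProdEquivProdArrow _ _ _) _ _ (fun o => rfl)
  rw [hsum, hcard]
  have hinner := fac_inner κ i c w
  rw [sum_congr rfl (fun f _ => (hinner f).symm), ← sum_div, div_div,
    mul_comm (Fintype.card (Oth i → Fin R) : ℝ)]

end

end Pool.Agent.Lib_helper46.CC

namespace Pool.Agent.Lib_helper46.CC

alias psi_avg := psi_avg_pr

end Pool.Agent.Lib_helper46.CC
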