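import Mathlib
import Pool.Agent.Lib_helper46.CCF.WBase
import Pool.Agent.Lib_helper46.CCF.CO3
import Pool.Agent.Lib_helper46.CCF.FAC
import Pool.Agent.Lib_helper46.CCF.WBD
import Pool.Agent.Lib_helper46.CCF.AWL

/-! Block IDE, written by helper93. -/

set_option autoImplicit false

namespace Pool.Agent.Lib_helper46.CC

open Finset
open scoped Classical

theorem ide_unused {r k t h D D2 : ℕ} {δ B : ℝ} {R : ℕ} (κ : Ker r k t h D D2 δ B)
    (i : Fin r → Fin k) (c : Fin r → Fin R) (f : Oth i → Fin R) (p : Fin R)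
    (hp : ∀ m, c m ≠ p) (hu : ∀ u, f u ≠ p) (b : PW r t) :
    (∀ m, usz (join i c f) p m = 0) ∧ (∀ m, pas (join i c f) p m (i m) = 0) ∧
    AW κ (hib (join i c f) p) (usz (join i c f) p) (fun m => pas (join i c f) p m (i m)) b = 1 := by
  have h0 : ∀ m j, join i c f m j ≠ p := by
    intro m j
    unfold join
    split_ifs with h
    · exact hp m
    · exact hu _
  have h1 : ∀ m, usz (join i c f) p m = 0 := by
    intro m
    unfold usz
    rw [Finset.card_eq_zero, Finset.filter_eq_empty_iff]
    intro j _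
    exact h0 m j
  have h2 : ∀ m, pas (join i c f) p m (i m) = 0 := by
    intro m
    unfold pas
    rw [Finset.card_eq_zero, Finset.filter_eq_empty_iff]
    rintro j _ ⟨h3, _⟩
    exact h0 m j h3
  have h3 : hib (join i c f) p = false := by
    unfold hib
    rw [decide_eq_false_iff_not]
    rintro ⟨m, hm⟩
    rw [h1 m] at hm
    omega
  refine ⟨h1, h2, ?_⟩
  have h4 : usz (join i c f) p = fun _ => 0 := funext h1
  have h5 : (fun m => pas (join i c f) p m (i m)) = fun _ => 0 := funext h2
  rw [h3, h4, h5]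
  unfold AW
  have h6 : ∑ σ : Equiv.Perm (Pos r t), Wid κ false (fun _ => 0) (fun _ => 0) (b ∘ σ) =
      ∑ _σ : Equiv.Perm (Pos r t), (1 : ℝ) :=
    Finset.sum_congr rfl (fun σ _ => wid_zero κ false (b ∘ σ))
  rw [h6, Finset.sum_const, Finset.card_univ, nsmul_eq_mul, mul_one]
  apply div_self
  exact_mod_cast Fintype.card_ne_zero

/-- Block IDE: the expected total weight of the frozen contents is at least `1 - η` -/
theorem ideal_pr (r : ℕ) (hr : 1 ≤ r) (K η : ℝ) (hK : 0 < K) (hη : 0 < η) :
    ∃ q0 : ℕ, ∀ q ≥ q0, ∃ n0 : ℕ, ∀ n ≥ n0, ∀ t z y h : ℕ, Reg r q K n t z y h →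
      ∀ (δ B : ℝ) (κ : Ker r (q ^ 14) t h (DA q t) (DB q t) δ B)
        (i : Fin r → Fin (q ^ 14)) (w : Word r y z (q ^ 16) t), InC (F0 r q n h) h i w →
      Typ (q : ℝ) (1 / (q : ℝ) ^ 4) w → ∀ c : Fin r → Lab r (q ^ 16) t,
        1 - η ≤ (∑ o : Oth i → Lab r (q ^ 16) t, Psi κ i (join i c o) w.2.2) /
            (Fintype.card (Oth i → Lab r (q ^ 16) t) : ℝ) := by
  have hrR : (0 : ℝ) < r := by exact_mod_cast (by omega : 0 < r)
  set η0 : ℝ := min η 1 with hη0
  have hη0p : 0 < η0 := lt_min hη one_pos
  have hη01 : η0 ≤ 1 := min_le_right _ _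
  have hη0η : η0 ≤ η := min_le_left _ _
  have hη1p : 0 < η0 / (4 * r) := by positivity
  obtain ⟨q1, hq1⟩ := aw_lower r hr K (η0 / (4 * r)) hK hη1p
  obtain ⟨q2, hq2⟩ := coarse r hr K (η0 / 4) hK (by positivity)
  refine ⟨max (max q1 q2) 1, fun q hq => ?_⟩
  have hqa : q1 ≤ q := le_trans (le_trans (le_max_left _ _) (le_max_left _ _)) hq
  have hqb : q2 ≤ q := le_trans (le_trans (le_max_right _ _) (le_max_left _ _)) hq
  have hqc : 1 ≤ q := le_trans (le_max_right _ _) hq
  obtain ⟨n1, hn1⟩ := hq1 q hqa
  obtain ⟨n2, hn2⟩ := hq2 q hqb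
  refine ⟨max n1 n2, fun n hn t z y h hreg δ B κ i w hw hty c => ?_⟩
  have hna : n1 ≤ n := le_trans (le_max_left _ _) hn
  have hnb : n2 ≤ n := le_trans (le_max_right _ _) hn
  have haw := hn1 n hna t z y h hreg δ B κ
  have hco := hn2 n hnb t z y h hreg i w hw hty (fun m => (c m).1)
  rw [psi_avg]
  have hqR : (0 : ℝ) < (q : ℝ) ^ 14 := by
    have : (0 : ℝ) < q := by exact_mod_cast hqc
    positivity
  -- one assignment
  have hterm : ∀ f : Oth i → Fin (q ^ 16),
      Real.exp (-(η0 / 4)) * (if Fre i (join i (fun m => (c m).1) f) then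
          Real.exp (expo (h := h) i (fun m => (c m).1) (join i (fun m => (c m).1) f) w.2.2) else 0) ≤
      (if Fre i (join i (fun m => (c m).1) f) then
        ∏ p ∈ univ.filter (fun p => ∀ m, (c m).1 ≠ p),
          AW κ (hib (join i (fun m => (c m).1) f) p) (usz (join i (fun m => (c m).1) f) p)
            (fun m => pas (join i (fun m => (c m).1) f) p m (i m)) (w.2.2 p)
        else 0) := by
    intro f
    by_cases hf : Fre i (join i (fun m => (c m).1) f)
    · rw [if_pos hf, if_pos hf, ← Real.exp_add]
      set F := join i (fun m => (c m).1) f with hF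
      set S : Finset (Fin (q ^ 16)) := univ.filter (fun p => ∀ m, (c m).1 ≠ p) with hS
      let E : Fin (q ^ 16) → ℝ := fun p => (1 / (t : ℝ)) *
        ((∑ m, (((usz F p m : ℝ) - 2 * (pas F p m (i m) : ℝ)) * h) * Dl (w.2.2 p) m) +
          QF (fun m => ((usz F p m : ℝ) - 2 * (pas F p m (i m) : ℝ)) * h) / 2)
      have hexpo : expo (h := h) i (fun m => (c m).1) F w.2.2 = - ∑ p ∈ S, E p := by
        unfold expo
        simp only [E]
        rw [← Finset.mul_sum, neg_mul]
      let U : Finset (Fin (q ^ 16)) := univ.image f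
      have hUcard : (U.card : ℝ) ≤ r * (q : ℝ) ^ 14 := by
        have h1 : U.card ≤ Fintype.card (Oth i) := by
          have := Finset.card_image_le (s := (univ : Finset (Oth i))) (f := f)
          rwa [Finset.card_univ] at this
        have h2 : Fintype.card (Oth i) ≤ Fintype.card (Fin r × Fin (q ^ 14)) :=
          Fintype.card_subtype_le _
        rw [Fintype.card_prod, Fintype.card_fin, Fintype.card_fin] at h2
        exact_mod_cast h1.trans h2
      have hone : ∀ p ∈ S, Real.exp (-(if p ∈ U then η0 / (4 * r) / (q : ℝ) ^ 14 else 0) - E p) ≤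
          AW κ (hib F p) (usz F p) (fun m => pas F p m (i m)) (w.2.2 p) := by
        intro p hp
        rw [hS, Finset.mem_filter] at hp
        by_cases hpU : p ∈ U
        · rw [if_pos hpU]
          have h1 : ∀ m, pas F p m (i m) ≤ usz F p m ∧ usz F p m ≤ q ^ 14 := by
            intro m
            constructor
            · unfold pas usz
              apply Finset.card_le_card
              intro j hj
              rw [Finset.mem_filter] at hj ⊢
              exact ⟨hj.1, hj.2.1⟩
            · unfold usz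
              refine (Finset.card_filter_le _ _).trans ?_
              rw [Finset.card_univ, Fintype.card_fin]
          have h2 : hib F p = false → ∀ m, usz F p m ≤ 1 := by
            intro hh m
            unfold hib at hh
            rw [decide_eq_false_iff_not] at hh
            by_contra hcon
            exact hh ⟨m, by omega⟩
          have h3 := haw (hib F p) (usz F p) (fun m => pas F p m (i m)) h1 h2 (w.2.2 p) (hty.2.2.1 p)
          refine le_trans (le_of_eq ?_) h3
          congr 1
          simp only [E]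
          ring
        · rw [if_neg hpU]
          have hu : ∀ u, f u ≠ p := fun u hu => hpU (Finset.mem_image.2 ⟨u, Finset.mem_univ _, hu⟩)
          obtain ⟨h1, h2, h3⟩ := ide_unused κ i (fun m => (c m).1) f p hp.2 hu (w.2.2 p)
          rw [← hF] at h1 h2 h3
          rw [h3]
          have hE0 : E p = 0 := by
            simp only [E]
            have : ∀ m, ((usz F p m : ℝ) - 2 * (pas F p m (i m) : ℝ)) * h = 0 := by
              intro m
              rw [h1 m, h2 m]
              simp
            simp only [this]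
            unfold QF
            simp
          rw [hE0]
          simp
      have hprod : ∏ p ∈ S, Real.exp (-(if p ∈ U then η0 / (4 * r) / (q : ℝ) ^ 14 else 0) - E p) ≤
          ∏ p ∈ S, AW κ (hib F p) (usz F p) (fun m => pas F p m (i m)) (w.2.2 p) :=
        Finset.prod_le_prod (fun p _ => (Real.exp_pos _).le) hone
      refine le_trans ?_ hprod
      rw [← Real.exp_sum]
      apply Real.exp_le_exp.2
      rw [hexpo, Finset.sum_sub_distrib, Finset.sum_neg_distrib]
      have hsum : ∑ p ∈ S, (if p ∈ U then η0 / (4 * r) / (q : ℝ) ^ 14 else 0) ≤ η0 / 4 := by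
        have h1 : ∑ p ∈ S, (if p ∈ U then η0 / (4 * r) / (q : ℝ) ^ 14 else 0) ≤
            ∑ p, (if p ∈ U then η0 / (4 * r) / (q : ℝ) ^ 14 else 0) := by
          apply Finset.sum_le_sum_of_subset_of_nonneg (Finset.subset_univ _)
          intro p _ _
          split_ifs
          · positivity
          · exact le_refl 0
        refine h1.trans ?_
        rw [Finset.sum_ite_mem, Finset.univ_inter, Finset.sum_const, nsmul_eq_mul]
        calc (U.card : ℝ) * (η0 / (4 * r) / (q : ℝ) ^ 14) ≤
            (r * (q : ℝ) ^ 14) * (η0 / (4 * r) / (q : ℝ) ^ 14) :=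
              mul_le_mul_of_nonneg_right hUcard (by positivity)
          _ = η0 / 4 := by field_simp
      linarith
    · rw [if_neg hf, if_neg hf, mul_zero]
  have hcard : (0 : ℝ) < (Fintype.card (Oth i → Fin (q ^ 16)) : ℝ) := by
    have : 0 < q ^ 16 := by positivity
    have : Nonempty (Fin (q ^ 16)) := ⟨⟨0, this⟩⟩
    exact_mod_cast Fintype.card_pos
  have hsum := Finset.sum_le_sum (fun f (_ : f ∈ (univ : Finset (Oth i → Fin (q ^ 16)))) => hterm f)
  rw [← Finset.mul_sum] at hsum
  have hdiv := div_le_div_of_nonneg_right hsum hcard.le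
  refine le_trans ?_ hdiv
  rw [mul_div_assoc]
  have he : 1 - η0 / 4 ≤ Real.exp (-(η0 / 4)) := by
    have := Real.add_one_le_exp (-(η0 / 4))
    linarith
  calc 1 - η ≤ 1 - η0 := by linarith
    _ ≤ (1 - η0 / 4) * (1 - η0 / 4) := by nlinarith
    _ ≤ Real.exp (-(η0 / 4)) * _ :=
      mul_le_mul he hco (by linarith) (Real.exp_pos _).le

end Pool.Agent.Lib_helper46.CC

namespace Pool.Agent.Lib_helper46.CC

alias ideal := ideal_pr

end Pool.Agent.Lib_helper46.CC
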