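import Mathlib
import Pool.Agent.Lib_helper46.CCF.WBase

/-! Block FSG, written by helper30. -/

set_option autoImplicit false

namespace Pool.Agent.Lib_helper46.CC

open Finset Pool.Agent.Lib_helper70.Chains
open scoped Classical

section EDGES

variable {r y z R t k h D D2 : ℕ} {δ B : ℝ}

theorem fsg_eq_pr (i : Fin r → Fin k) (f : Fin r → Fin k → Lab r R t)
    (hf : Fre i (fun m j => (f m j).1)) (p : Fin R) (hp : ∃ m, (f m (i m)).1 = p) :
    fsg f p = frs (fun m => f m (i m)) p := by
  obtain ⟨m1, hm1⟩ := hp
  have hcur : ∀ m j, (f m j).1 = p → j = i m := by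
    intro m j hj
    by_contra hne
    exact hf m j hne m1 (by simp only [hj, hm1])
  have hne1 : (univ.filter (fun m => (f m (i m)).1 = p)).Nonempty :=
    ⟨m1, by rw [mem_filter]; exact ⟨mem_univ _, hm1⟩⟩
  have hne2 : (univ.filter (fun u : Fin r ×ₗ Fin k => (f (ofLex u).1 (ofLex u).2).1 = p)).Nonempty :=
    ⟨toLex (m1, i m1), by rw [mem_filter]; exact ⟨mem_univ _, hm1⟩⟩
  unfold fsg frs
  rw [dif_pos hne1, dif_pos hne2]
  set m0 := (univ.filter (fun m => (f m (i m)).1 = p)).min' hne1 with hm0
  have hm0m : (f m0 (i m0)).1 = p := by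
    have := Finset.min'_mem _ hne1
    rw [mem_filter] at this
    exact this.2
  have key : (univ.filter (fun u : Fin r ×ₗ Fin k => (f (ofLex u).1 (ofLex u).2).1 = p)).min' hne2 =
      toLex (m0, i m0) := by
    apply le_antisymm
    · apply Finset.min'_le
      rw [mem_filter]
      exact ⟨mem_univ _, hm0m⟩
    · apply Finset.le_min'
      intro u hu
      rw [mem_filter] at hu
      have h1 := hcur _ _ hu.2
      have h2 : m0 ≤ (ofLex u).1 := by
        apply Finset.min'_le
        rw [mem_filter]
        refine ⟨mem_univ _, ?_⟩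
        rw [← h1]
        exact hu.2
      rw [Prod.Lex.le_iff]
      rcases h2.lt_or_eq with h3 | h3
      · exact Or.inl h3
      · refine Or.inr ⟨h3, ?_⟩
        change i m0 ≤ (ofLex u).2
        rw [h1, h3]
  rw [key]
  rfl

theorem usz_cur_pr (i : Fin r → Fin k) (f : Fin r → Fin k → Fin R) (hf : Fre i f) (p : Fin R)
    (hp : ∃ m, f m (i m) = p) (m : Fin r) :
    usz f p m = (if f m (i m) = p then 1 else 0) ∧ pas f p m (i m) = 0 ∧ hib f p = false := by
  obtain ⟨m1, hm1⟩ := hp
  have hcur : ∀ m j, f m j = p → j = i m := by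
    intro m j hj
    by_contra hne
    exact hf m j hne m1 (by rw [hj, hm1])
  have husz : ∀ m, usz f p m = (if f m (i m) = p then 1 else 0) := by
    intro m
    unfold usz
    by_cases h : f m (i m) = p
    · rw [if_pos h, Finset.card_eq_one]
      refine ⟨i m, ?_⟩
      ext j
      rw [mem_filter, mem_singleton]
      constructor
      · rintro ⟨_, hj⟩
        exact hcur m j hj
      · rintro rfl
        exact ⟨mem_univ _, h⟩
    · rw [if_neg h, Finset.card_eq_zero, Finset.filter_eq_empty_iff]
      intro j _ hj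
      apply h
      rw [← hcur m j hj]
      exact hj
  refine ⟨husz m, ?_, ?_⟩
  · unfold pas
    rw [Finset.card_eq_zero, Finset.filter_eq_empty_iff]
    rintro j _ ⟨hj, hlt⟩
    have := hcur m j hj
    rw [this] at hlt
    exact lt_irrefl _ hlt
  · unfold hib
    rw [decide_eq_false_iff_not]
    rintro ⟨m', hm'⟩
    rw [husz m'] at hm'
    split_ifs at hm' <;> omega

theorem pas_sum_pr (i : Fin r → Fin k) (f : Fin r → Fin k → Fin R) (hf : Fre i f) (m : Fin r) :
    ∑ p ∈ univ.filter (fun p => p ≠ f m (i m)), pas f p m (i m) = (i m : ℕ) := by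
  have h1 : ∑ p ∈ univ.filter (fun p => p ≠ f m (i m)), pas f p m (i m) =
      (univ.filter (fun j' : Fin k => (j' : ℕ) < (i m : ℕ))).card := by
    rw [Finset.card_eq_sum_card_fiberwise (f := fun j' => f m j')
      (t := univ.filter (fun p => p ≠ f m (i m)))]
    · apply Finset.sum_congr rfl
      intro p _
      unfold pas
      rw [Finset.filter_filter]
      congr 1
      ext j
      simp only [mem_filter, mem_univ, true_and]
      exact and_comm
    · intro j hj
      have hj' : (j : ℕ) < (i m : ℕ) := by
        have := hj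
        simpa using this
      have hne : j ≠ i m := by
        rintro rfl
        exact lt_irrefl _ hj'
      have := hf m j hne m
      simpa using this
  rw [h1]
  have h2 : (univ.filter (fun j' : Fin k => (j' : ℕ) < (i m : ℕ))) = Finset.Iio (i m) := by
    ext j
    simp only [mem_filter, mem_univ, true_and, mem_Iio, Fin.lt_def]
  rw [h2, Fin.card_Iio]

theorem usz_sum_pr (f : Fin r → Fin k → Fin R) (m : Fin r) : ∑ p, usz f p m = k := by
  have h1 := Finset.card_eq_sum_card_fiberwise (s := (univ : Finset (Fin k)))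
    (f := fun j' => f m j') (t := (univ : Finset (Fin R))) (fun _ _ => Finset.mem_coe.mpr (mem_univ _))
  rw [Finset.card_univ, Fintype.card_fin] at h1
  exact h1.symm


end EDGES

end Pool.Agent.Lib_helper46.CC

namespace Pool.Agent.Lib_helper46.CC

alias fsg_eq := fsg_eq_pr
alias pas_sum := pas_sum_pr
alias usz_cur := usz_cur_pr
alias usz_sum := usz_sum_pr

end Pool.Agent.Lib_helper46.CC
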