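import Mathlib
import Pool.Agent.Lib_helper46.CCF.WBase
import Pool.Agent.Lib_helper46.CCF.FSG
import Pool.Agent.Lib_helper46.CCF.WBD

/-! Block PSB, written by helper30. -/

set_option autoImplicit false

namespace Pool.Agent.Lib_helper46.CC

open Finset Pool.Agent.Lib_helper70.Chains
open scoped Classical

section WORDS2

variable {r k t h D D2 : ℕ} {δ B : ℝ}

theorem psi_bd_pr {R : ℕ} (κ : Ker r k t h D D2 δ B) (i : Fin r → Fin k)
    (f : Fin r → Fin k → Lab r R t) (w : Fin R → PW r t) :
    0 ≤ Psi κ i f w ∧ Psi κ i f w ≤ B ^ (r * k) := by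
  have hB := κ.oneB
  have hB0 : 0 ≤ B := zero_le_one.trans hB
  have hpow : 0 ≤ B ^ (r * k) := pow_nonneg hB0 _
  unfold Psi
  split_ifs with hF
  · refine ⟨Finset.prod_nonneg fun p _ => wid_nonneg κ _ _ _ _, ?_⟩
    set g : Fin r → Fin k → Fin R := fun m j => (f m j).1 with hg
    have hle : ∀ p : Fin R, Wid κ (hib g p) (usz g p) (fun m => pas g p m (i m)) (w p ∘ fsg f p) ≤
        B ^ (∑ m, usz g p m) := by
      intro p
      apply wid_le
      · intro m
        refine ⟨?_, ?_⟩
        · unfold pas usz
          apply Finset.card_le_card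
          intro j hj
          rw [mem_filter] at hj ⊢
          exact ⟨hj.1, hj.2.1⟩
        · unfold usz
          calc (univ.filter (fun j => g m j = p)).card ≤ (univ : Finset (Fin k)).card :=
                Finset.card_le_card (Finset.filter_subset _ _)
            _ = k := by rw [Finset.card_univ, Fintype.card_fin]
      · intro hib0 m
        unfold hib at hib0
        rw [decide_eq_false_iff_not] at hib0
        push Not at hib0
        have := hib0 m
        omega
    calc ∏ p ∈ univ.filter (fun p => ∀ m, (f m (i m)).1 ≠ p),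
          Wid κ (hib g p) (usz g p) (fun m => pas g p m (i m)) (w p ∘ fsg f p)
        ≤ ∏ p ∈ univ.filter (fun p => ∀ m, (f m (i m)).1 ≠ p), B ^ (∑ m, usz g p m) :=
          Finset.prod_le_prod (fun p _ => wid_nonneg κ _ _ _ _) (fun p _ => hle p)
      _ ≤ ∏ p : Fin R, B ^ (∑ m, usz g p m) := by
          rw [Finset.prod_pow_eq_pow_sum, Finset.prod_pow_eq_pow_sum]
          apply pow_le_pow_right₀ hB
          exact Finset.sum_le_sum_of_subset (Finset.filter_subset _ _)
      _ = B ^ (r * k) := by
          rw [Finset.prod_pow_eq_pow_sum, Finset.sum_comm]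
          congr 1
          rw [Finset.sum_congr rfl (fun m _ => usz_sum g m)]
          simp
  · exact ⟨le_rfl, hpow⟩


end WORDS2

end Pool.Agent.Lib_helper46.CC

namespace Pool.Agent.Lib_helper46.CC

alias psi_bd := psi_bd_pr

end Pool.Agent.Lib_helper46.CC
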