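import Mathlib
import Pool.Agent.Lib_helper46.CCF.WBase

/-! Block SMO, written by helper6. -/

set_option autoImplicit false

namespace Pool.Agent.Lib_helper46.CC

open Finset Pool.Agent.Lib_helper70.Chains
open scoped Classical

/-- modify `F` on the range of `g` -/
noncomputable def smo_md {I Λ O : Type} (g : O → I) (F : I → Λ) (o : O → Λ) : I → Λ :=
  fun i => if h : ∃ u, g u = i then o h.choose else F i

theorem smo_md_range {I Λ O : Type} {g : O → I} (hg : Function.Injective g) (F : I → Λ)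
    (o : O → Λ) (u : O) : smo_md g F o (g u) = o u := by
  have h : ∃ v, g v = g u := ⟨u, rfl⟩
  unfold smo_md
  rw [dif_pos h, hg h.choose_spec]

theorem smo_md_out {I Λ O : Type} {g : O → I} (F : I → Λ) (o : O → Λ) {i : I}
    (hi : ∀ u, g u ≠ i) : smo_md g F o i = F i := by
  unfold smo_md
  rw [dif_neg]
  rintro ⟨u, hu⟩
  exact hi u hu

theorem smo_inv {I Λ O : Type} {g : O → I} (hg : Function.Injective g) (F : I → Λ) (o : O → Λ) :
    smo_md g (smo_md g F o) (F ∘ g) = F := by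
  funext i
  by_cases h : ∃ u, g u = i
  · obtain ⟨u, rfl⟩ := h
    rw [smo_md_range hg]
    rfl
  · have hi : ∀ u, g u ≠ i := fun u hu => h ⟨u, hu⟩
    rw [smo_md_out _ _ hi, smo_md_out _ _ hi]

/-- the exchange of the values on the range of `g` -/
noncomputable def smo_eq {I Λ O : Type} {g : O → I} (hg : Function.Injective g) :
    (I → Λ) × (O → Λ) ≃ (I → Λ) × (O → Λ) where
  toFun p := (smo_md g p.1 p.2, p.1 ∘ g)
  invFun p := (smo_md g p.1 p.2, p.1 ∘ g)
  left_inv := by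
    rintro ⟨F, o⟩
    refine Prod.ext ?_ ?_
    · exact smo_inv hg F o
    · funext u
      exact smo_md_range hg F o u
  right_inv := by
    rintro ⟨F, o⟩
    refine Prod.ext ?_ ?_
    · exact smo_inv hg F o
    · funext u
      exact smo_md_range hg F o u

theorem smo_sum {I Λ O : Type} [Fintype I] [DecidableEq I] [Fintype Λ] [Fintype O] [DecidableEq O]
    {g : O → I} (hg : Function.Injective g) (Ψ : (I → Λ) → ℝ) :
    ∑ F : I → Λ, ∑ o : O → Λ, Ψ (smo_md g F o) =
      (Fintype.card (O → Λ) : ℝ) * ∑ F : I → Λ, Ψ F := by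
  have h1 : ∑ p : (I → Λ) × (O → Λ), Ψ (smo_md g p.1 p.2) = ∑ p : (I → Λ) × (O → Λ), Ψ p.1 :=
    Fintype.sum_equiv (smo_eq hg) _ _ (fun p => rfl)
  rw [Fintype.sum_prod_type, Fintype.sum_prod_type] at h1
  rw [h1, mul_sum]
  apply sum_congr rfl
  intro F _
  change ∑ _y : O → Λ, Ψ F = _
  rw [sum_const, card_univ, nsmul_eq_mul]

theorem smo_zero {I Λ O : Type} [Fintype I] [DecidableEq I] [Fintype Λ] [Nonempty Λ] [Fintype O]
    [DecidableEq O]
    {g : O → I} (hg : Function.Injective g) (D Φ : (I → Λ) → ℝ)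
    (h1 : ∀ F o, Φ (smo_md g F o) = Φ F) (h2 : ∀ F, ∑ o : O → Λ, D (smo_md g F o) = 0) :
    ∑ F, D F * Φ F = 0 := by
  have h3 := smo_sum hg (fun F => D F * Φ F)
  have h4 : ∑ F : I → Λ, ∑ o : O → Λ, D (smo_md g F o) * Φ (smo_md g F o) = 0 := by
    apply sum_eq_zero
    intro F _
    have : ∑ o : O → Λ, D (smo_md g F o) * Φ (smo_md g F o) =
        (∑ o : O → Λ, D (smo_md g F o)) * Φ F := by
      rw [sum_mul]
      exact sum_congr rfl (fun o _ => by rw [h1])
    rw [this, h2, zero_mul]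
  rw [h4] at h3
  have h5 : (Fintype.card (O → Λ) : ℝ) ≠ 0 := by
    exact_mod_cast Fintype.card_ne_zero
  rcases mul_eq_zero.mp h3.symm with h | h
  · exact absurd h h5
  · exact h

theorem second_moment_pr {I Λ O Q X : Type} [Fintype I] [DecidableEq I] [Fintype Λ] [DecidableEq Λ]
    [Nonempty Λ] [Fintype O] [DecidableEq O] [Fintype Q] [DecidableEq Q] [DecidableEq X]
    (x : Q → I) (hx : Function.Injective x) (Hs : Finset X) (ι : X → O → I)
    (hinj : ∀ H ∈ Hs, Function.Injective (ι H)) (hdis : ∀ H ∈ Hs, ∀ o c, ι H o ≠ x c)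
    (ω : X → ℝ) (hω : ∀ H ∈ Hs, 0 ≤ ω H) (G : (Q → Λ) → (O → Λ) → ℝ) (B g0 σ η : ℝ)
    (hG0 : ∀ c o, 0 ≤ G c o) (hGB : ∀ c o, G c o ≤ B)
    (hg : ∀ c, g0 ≤ (∑ o : O → Λ, G c o) / (Fintype.card (O → Λ) : ℝ))
    (hσ : (∑ H ∈ Hs, ∑ H' ∈ Hs, if ∃ o o', ι H o = ι H' o' then ω H * ω H' else 0) ≤ σ)
    (hη : 0 < η) :
    η ^ 2 * ((univ.filter (fun F : I → Λ =>
        (∑ H ∈ Hs, ω H * G (F ∘ x) (F ∘ ι H)) < (∑ H ∈ Hs, ω H) * g0 - η)).card : ℝ) ≤
      B ^ 2 * σ * (Fintype.card (I → Λ) : ℝ) := by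
  have hc : (0 : ℝ) < (Fintype.card (O → Λ) : ℝ) := by
    exact_mod_cast Fintype.card_pos
  set av : (Q → Λ) → ℝ := fun c => (∑ o : O → Λ, G c o) / (Fintype.card (O → Λ) : ℝ) with hav
  have hav0 : ∀ c, 0 ≤ av c := fun c => div_nonneg (sum_nonneg (fun o _ => hG0 c o)) hc.le
  have havB : ∀ c, av c ≤ B := by
    intro c
    simp only [hav]
    rw [div_le_iff₀ hc]
    calc ∑ o : O → Λ, G c o ≤ ∑ _o : O → Λ, B := sum_le_sum (fun o _ => hGB c o)
      _ = B * (Fintype.card (O → Λ) : ℝ) := by rw [sum_const, card_univ, nsmul_eq_mul, mul_comm]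
  set D : X → (I → Λ) → ℝ := fun H F => G (F ∘ x) (F ∘ ι H) - av (F ∘ x) with hD
  have hDB : ∀ H F, |D H F| ≤ B := by
    intro H F
    simp only [hD]
    rw [abs_le]
    constructor
    · linarith [hG0 (F ∘ x) (F ∘ ι H), havB (F ∘ x)]
    · linarith [hGB (F ∘ x) (F ∘ ι H), hav0 (F ∘ x)]
  -- composition with the modification
  have hmx : ∀ H ∈ Hs, ∀ (F : I → Λ) (o : O → Λ), (smo_md (ι H) F o) ∘ x = F ∘ x := by
    intro H hH F o
    funext c
    exact smo_md_out F o (fun u => hdis H hH u c)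
  -- the pairs without common window
  have hzero : ∀ H ∈ Hs, ∀ H' ∈ Hs, (¬ ∃ o o', ι H o = ι H' o') → ∑ F, D H F * D H' F = 0 := by
    intro H hH H' hH' hno
    refine smo_zero (hinj H hH) (D H) (D H') ?_ ?_
    · intro F o
      simp only [hD]
      rw [hmx H hH]
      have : (smo_md (ι H) F o) ∘ ι H' = F ∘ ι H' := by
        funext u
        exact smo_md_out F o (fun v hv => hno ⟨v, u, hv⟩)
      rw [this]
    · intro F
      simp only [hD]
      have h1 : ∀ o : O → Λ, G ((smo_md (ι H) F o) ∘ x) ((smo_md (ι H) F o) ∘ ι H) -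
          av ((smo_md (ι H) F o) ∘ x) = G (F ∘ x) o - av (F ∘ x) := by
        intro o
        rw [hmx H hH]
        have : (smo_md (ι H) F o) ∘ ι H = o := by
          funext u
          exact smo_md_range (hinj H hH) F o u
        rw [this]
      simp only [h1]
      rw [sum_sub_distrib, sum_const, card_univ, nsmul_eq_mul]
      simp only [hav]
      field_simp
      ring
  -- the second moment
  have hpair : ∀ H ∈ Hs, ∀ H' ∈ Hs, ω H * ω H' * ∑ F, D H F * D H' F ≤
      B ^ 2 * (Fintype.card (I → Λ) : ℝ) *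
        (if ∃ o o', ι H o = ι H' o' then ω H * ω H' else 0) := by
    intro H hH H' hH'
    split_ifs with h
    · have h1 : ∑ F : I → Λ, D H F * D H' F ≤ (Fintype.card (I → Λ) : ℝ) * B ^ 2 := by
        calc ∑ F : I → Λ, D H F * D H' F ≤ ∑ _F : I → Λ, B ^ 2 := by
              apply sum_le_sum
              intro F _
              calc D H F * D H' F ≤ |D H F * D H' F| := le_abs_self _
                _ = |D H F| * |D H' F| := abs_mul _ _
                _ ≤ B * B := mul_le_mul (hDB H F) (hDB H' F) (abs_nonneg _)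
                    ((abs_nonneg _).trans (hDB H F))
                _ = B ^ 2 := by ring
          _ = _ := by rw [sum_const, card_univ, nsmul_eq_mul]
      have h2 : 0 ≤ ω H * ω H' := mul_nonneg (hω H hH) (hω H' hH')
      calc ω H * ω H' * ∑ F, D H F * D H' F ≤ ω H * ω H' * ((Fintype.card (I → Λ) : ℝ) * B ^ 2) :=
            mul_le_mul_of_nonneg_left h1 h2
        _ = _ := by ring
    · rw [hzero H hH H' hH' h, mul_zero, mul_zero]
  have hsecond : ∑ F : I → Λ, (∑ H ∈ Hs, ω H * D H F) ^ 2 ≤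
      B ^ 2 * σ * (Fintype.card (I → Λ) : ℝ) := by
    have e1 : ∑ F : I → Λ, (∑ H ∈ Hs, ω H * D H F) ^ 2 =
        ∑ H ∈ Hs, ∑ H' ∈ Hs, ω H * ω H' * ∑ F, D H F * D H' F := by
      have e2 : ∀ F : I → Λ, (∑ H ∈ Hs, ω H * D H F) ^ 2 =
          ∑ H ∈ Hs, ∑ H' ∈ Hs, ω H * ω H' * (D H F * D H' F) := by
        intro F
        rw [sq, sum_mul_sum]
        apply sum_congr rfl
        intro H _
        apply sum_congr rfl
        intro H' _
        ring
      simp only [e2]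
      rw [sum_comm]
      apply sum_congr rfl
      intro H _
      rw [sum_comm]
      apply sum_congr rfl
      intro H' _
      rw [mul_sum]
    rw [e1]
    calc ∑ H ∈ Hs, ∑ H' ∈ Hs, ω H * ω H' * ∑ F, D H F * D H' F
        ≤ ∑ H ∈ Hs, ∑ H' ∈ Hs, B ^ 2 * (Fintype.card (I → Λ) : ℝ) *
          (if ∃ o o', ι H o = ι H' o' then ω H * ω H' else 0) :=
          sum_le_sum (fun H hH => sum_le_sum (fun H' hH' => hpair H hH H' hH'))
      _ = B ^ 2 * (Fintype.card (I → Λ) : ℝ) *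
          (∑ H ∈ Hs, ∑ H' ∈ Hs, if ∃ o o', ι H o = ι H' o' then ω H * ω H' else 0) := by
          rw [mul_sum]
          exact sum_congr rfl (fun H _ => by rw [mul_sum])
      _ ≤ B ^ 2 * (Fintype.card (I → Λ) : ℝ) * σ :=
          mul_le_mul_of_nonneg_left hσ (by positivity)
      _ = _ := by ring
  -- Markov
  refine le_trans ?_ hsecond
  calc η ^ 2 * ((univ.filter (fun F : I → Λ =>
        (∑ H ∈ Hs, ω H * G (F ∘ x) (F ∘ ι H)) < (∑ H ∈ Hs, ω H) * g0 - η)).card : ℝ)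
      = ∑ _F ∈ univ.filter (fun F : I → Λ =>
        (∑ H ∈ Hs, ω H * G (F ∘ x) (F ∘ ι H)) < (∑ H ∈ Hs, ω H) * g0 - η), η ^ 2 := by
        rw [sum_const, nsmul_eq_mul, mul_comm]
    _ ≤ ∑ F ∈ univ.filter (fun F : I → Λ =>
        (∑ H ∈ Hs, ω H * G (F ∘ x) (F ∘ ι H)) < (∑ H ∈ Hs, ω H) * g0 - η),
        (∑ H ∈ Hs, ω H * D H F) ^ 2 := by
        apply sum_le_sum
        intro F hF
        have hF' := (mem_filter.mp hF).2
        have h1 : ∑ H ∈ Hs, ω H * D H F =
            ∑ H ∈ Hs, ω H * G (F ∘ x) (F ∘ ι H) - (∑ H ∈ Hs, ω H) * av (F ∘ x) := by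
          rw [sum_mul, ← sum_sub_distrib]
          exact sum_congr rfl (fun H _ => by simp only [hD]; ring)
        have h2 : (∑ H ∈ Hs, ω H) * g0 ≤ (∑ H ∈ Hs, ω H) * av (F ∘ x) :=
          mul_le_mul_of_nonneg_left (hg (F ∘ x)) (sum_nonneg hω)
        have h3 : ∑ H ∈ Hs, ω H * D H F < -η := by rw [h1]; linarith
        nlinarith
    _ ≤ ∑ F : I → Λ, (∑ H ∈ Hs, ω H * D H F) ^ 2 :=
        sum_le_sum_of_subset_of_nonneg (filter_subset _ _) (fun F _ _ => sq_nonneg _)

end Pool.Agent.Lib_helper46.CC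

namespace Pool.Agent.Lib_helper46.CC

alias second_moment := second_moment_pr

end Pool.Agent.Lib_helper46.CC
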