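import Mathlib
import Pool.Agent.Lib_helper46.CCF.WBase

/-! Block ZBK, written by helper28. -/

/-!
# CC, block ZBK: sums of the weights of the histories
-/

set_option autoImplicit false

namespace Pool.Agent.Lib_helper46.CC

open Finset Pool.Agent.Lib_helper70.Chains Filter Topology
open scoped Classical

section BLOCKS

/-! ### abstract path counting -/

theorem zbk_snoc {α : Type} [Fintype α] {n : ℕ} (f : (Fin (n + 2) → α) → ℝ) :
    ∑ H : Fin (n + 2) → α, f H = ∑ H' : Fin (n + 1) → α, ∑ a : α, f (Fin.snoc H' a) := by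
  rw [← Fintype.sum_prod_type']
  symm
  apply Fintype.sum_equiv ((Equiv.prodComm _ _).trans (Fin.snocEquiv fun _ => α))
  rintro ⟨H', a⟩
  rfl

theorem zbk_cons {α : Type} [Fintype α] {n : ℕ} (f : (Fin (n + 2) → α) → ℝ) :
    ∑ H : Fin (n + 2) → α, f H = ∑ H' : Fin (n + 1) → α, ∑ a : α, f (Fin.cons a H') := by
  rw [← Fintype.sum_prod_type']
  symm
  apply Fintype.sum_equiv ((Equiv.prodComm _ _).trans (Fin.consEquiv fun _ => α))
  rintro ⟨H', a⟩
  rfl

/-- the weight of a path -/
def zbkW {α : Type} (S : α → α → ℝ) {n : ℕ} (H : Fin (n + 1) → α) : ℝ :=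
  ∏ s : Fin n, S (H s.castSucc) (H s.succ)

theorem zbkW_nonneg {α : Type} {S : α → α → ℝ} (hS : ∀ a b, 0 ≤ S a b) {n : ℕ}
    (H : Fin (n + 1) → α) : 0 ≤ zbkW S H := Finset.prod_nonneg fun _ _ => hS _ _

theorem zbkW_snoc {α : Type} (S : α → α → ℝ) {n : ℕ} (H : Fin (n + 1) → α) (a : α) :
    zbkW S (Fin.snoc H a : Fin (n + 2) → α) = zbkW S H * S (H (Fin.last n)) a := by
  unfold zbkW
  rw [Fin.prod_univ_castSucc]
  congr 1
  · apply Finset.prod_congr rfl
    intro s _
    rw [Fin.snoc_castSucc, ← Fin.castSucc_succ, Fin.snoc_castSucc]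
  · rw [Fin.snoc_castSucc, Fin.succ_last, Fin.snoc_last]

theorem zbkW_cons {α : Type} (S : α → α → ℝ) {n : ℕ} (H : Fin (n + 1) → α) (a : α) :
    zbkW S (Fin.cons a H : Fin (n + 2) → α) = S a (H 0) * zbkW S H := by
  unfold zbkW
  rw [Fin.prod_univ_succ]
  congr 1

theorem zbk_upper {α : Type} [Fintype α] [DecidableEq α] (S : α → α → ℝ) (β : ℝ) (hβ : 0 ≤ β)
    (hS : ∀ a b, 0 ≤ S a b) (hr : ∀ a, ∑ b, S a b ≤ β) (hc : ∀ b, ∑ a, S a b ≤ β) :
    ∀ (n : ℕ) (j : Fin (n + 1)) (u : α),
      (∑ H : Fin (n + 1) → α, if H j = u then zbkW S H else 0) ≤ β ^ n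
  | 0, j, u => by
    have hj : j = 0 := Fin.ext (by have := j.2; show (j : ℕ) = 0; omega)
    subst hj
    have h1 : ∀ H : Fin 1 → α, (if H 0 = u then zbkW S H else 0) =
        if H = (fun _ => u) then 1 else 0 := by
      intro H
      have h2 : (H 0 = u) ↔ H = fun _ => u := by
        constructor
        · intro h
          funext x
          have : x = 0 := Subsingleton.elim _ _
          rw [this, h]
        · intro h
          rw [h]
      by_cases h3 : H 0 = u
      · rw [if_pos h3, if_pos (h2.1 h3)]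
        simp [zbkW]
      · rw [if_neg h3, if_neg fun h => h3 (h2.2 h)]
    rw [Finset.sum_congr rfl fun H _ => h1 H]
    simp
  | n + 1, j, u => by
    have ih := zbk_upper S β hβ hS hr hc n
    rcases Fin.eq_castSucc_or_eq_last j with ⟨j', rfl⟩ | rfl
    · rw [zbk_snoc]
      have h1 : ∀ H' : Fin (n + 1) → α,
          (∑ a : α, if (Fin.snoc H' a : Fin (n + 2) → α) j'.castSucc = u then
            zbkW S (Fin.snoc H' a : Fin (n + 2) → α) else 0) ≤
          β * (if H' j' = u then zbkW S H' else 0) := by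
        intro H'
        simp only [Fin.snoc_castSucc, zbkW_snoc]
        by_cases h2 : H' j' = u
        · simp only [h2, if_true]
          rw [← Finset.mul_sum, mul_comm β]
          exact mul_le_mul_of_nonneg_left (hr _) (zbkW_nonneg hS H')
        · simp [h2]
      refine (Finset.sum_le_sum fun H' _ => h1 H').trans ?_
      rw [← Finset.mul_sum, pow_succ, mul_comm]
      exact mul_le_mul_of_nonneg_right (ih j' u) hβ
    · rw [zbk_cons]
      have h1 : ∀ H' : Fin (n + 1) → α,
          (∑ a : α, if (Fin.cons a H' : Fin (n + 2) → α) (Fin.last (n + 1)) = u then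
            zbkW S (Fin.cons a H' : Fin (n + 2) → α) else 0) ≤
          β * (if H' (Fin.last n) = u then zbkW S H' else 0) := by
        intro H'
        have h0 : ∀ a : α, (Fin.cons a H' : Fin (n + 2) → α) (Fin.last (n + 1)) =
            H' (Fin.last n) := by
          intro a
          rw [← Fin.succ_last, Fin.cons_succ]
        simp only [h0, zbkW_cons]
        by_cases h2 : H' (Fin.last n) = u
        · simp only [h2, if_true]
          rw [← Finset.sum_mul]
          exact mul_le_mul_of_nonneg_right (hc _) (zbkW_nonneg hS H')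
        · simp [h2]
      refine (Finset.sum_le_sum fun H' _ => h1 H').trans ?_
      rw [← Finset.mul_sum, pow_succ, mul_comm]
      exact mul_le_mul_of_nonneg_right (ih (Fin.last n) u) hβ

theorem zbk_upper2 {α : Type} [Fintype α] [DecidableEq α] (S : α → α → ℝ) (β : ℝ) (hβ : 0 ≤ β)
    (hS : ∀ a b, 0 ≤ S a b) (hS1 : ∀ a b, S a b ≤ 1) (hr : ∀ a, ∑ b, S a b ≤ β)
    (hc : ∀ b, ∑ a, S a b ≤ β) :
    ∀ (n : ℕ) (s : Fin n) (w u : α),
      (∑ H : Fin (n + 1) → α, if H s.castSucc = w ∧ H s.succ = u then zbkW S H else 0) ≤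
        β ^ (n - 1)
  | 0, s, _, _ => s.elim0
  | n + 1, s, w, u => by
    have ih := zbk_upper2 S β hβ hS hS1 hr hc n
    rcases Fin.eq_castSucc_or_eq_last s with ⟨s', rfl⟩ | rfl
    · rw [zbk_snoc]
      have h1 : ∀ H' : Fin (n + 1) → α,
          (∑ a : α, if (Fin.snoc H' a : Fin (n + 2) → α) s'.castSucc.castSucc = w ∧
            (Fin.snoc H' a : Fin (n + 2) → α) s'.castSucc.succ = u then
            zbkW S (Fin.snoc H' a : Fin (n + 2) → α) else 0) ≤
          β * (if H' s'.castSucc = w ∧ H' s'.succ = u then zbkW S H' else 0) := by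
        intro H'
        have h0 : ∀ a : α, (Fin.snoc H' a : Fin (n + 2) → α) s'.castSucc.succ = H' s'.succ := by
          intro a
          rw [← Fin.castSucc_succ, Fin.snoc_castSucc]
        simp only [Fin.snoc_castSucc, zbkW_snoc, h0]
        by_cases h2 : H' s'.castSucc = w ∧ H' s'.succ = u
        · simp only [h2, and_self, if_true]
          rw [← Finset.mul_sum, mul_comm β]
          exact mul_le_mul_of_nonneg_left (hr _) (zbkW_nonneg hS H')
        · simp [h2]
      refine (Finset.sum_le_sum fun H' _ => h1 H').trans ?_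
      rw [← Finset.mul_sum]
      have h3 : β ^ (n + 1 - 1) = β * β ^ (n - 1) := by
        have h4 : 0 < n := s'.pos
        rw [← pow_succ']
        congr 1
        omega
      rw [h3]
      exact mul_le_mul_of_nonneg_left (ih s' w u) hβ
    · rw [zbk_snoc]
      have h1 : ∀ H' : Fin (n + 1) → α,
          (∑ a : α, if (Fin.snoc H' a : Fin (n + 2) → α) (Fin.last n).castSucc = w ∧
            (Fin.snoc H' a : Fin (n + 2) → α) (Fin.last n).succ = u then
            zbkW S (Fin.snoc H' a : Fin (n + 2) → α) else 0) ≤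
          (if H' (Fin.last n) = w then zbkW S H' else 0) := by
        intro H'
        simp only [Fin.snoc_castSucc, zbkW_snoc, Fin.succ_last, Fin.snoc_last]
        by_cases h2 : H' (Fin.last n) = w
        · simp only [h2, true_and, if_true]
          rw [Finset.sum_ite_eq' univ u, if_pos (Finset.mem_univ u)]
          exact mul_le_of_le_one_right (zbkW_nonneg hS H') (hS1 _ _)
        · simp [h2]
      refine (Finset.sum_le_sum fun H' _ => h1 H').trans ?_
      exact zbk_upper S β hβ hS hr hc n (Fin.last n) w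

theorem zbk_lower {α : Type} [Fintype α] [DecidableEq α] (S : α → α → ℝ) (c : ℝ) (hc0 : 0 ≤ c)
    (hS : ∀ a b, 0 ≤ S a b) (u : α) :
    ∀ (n : ℕ), (∀ (n' : ℕ) (H : Fin (n' + 1) → α) (j : Fin (n' + 1)), n' < n → H j = u →
      zbkW S H ≠ 0 → c ≤ (∑ b, S (H (Fin.last n')) b) ∧ c ≤ ∑ a, S a (H 0)) →
      ∀ j : Fin (n + 1), c ^ n ≤ ∑ H : Fin (n + 1) → α, if H j = u then zbkW S H else 0
  | 0, _, j => by
    have hj : j = 0 := Fin.ext (by have := j.2; show (j : ℕ) = 0; omega)
    subst hj
    have h1 : (if (fun _ : Fin 1 => u) 0 = u then zbkW S (fun _ : Fin 1 => u) else 0) = 1 := by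
      simp [zbkW]
    rw [pow_zero, ← h1]
    exact Finset.single_le_sum (f := fun H : Fin 1 → α => if H 0 = u then zbkW S H else 0)
      (fun H _ => by
        show 0 ≤ if H 0 = u then zbkW S H else 0
        split_ifs
        · exact zbkW_nonneg hS H
        · exact le_rfl) (Finset.mem_univ (fun _ : Fin 1 => u))
  | n + 1, hn, j => by
    have ih := zbk_lower S c hc0 hS u n fun n' H j hn' => hn n' H j (by omega)
    rcases Fin.eq_castSucc_or_eq_last j with ⟨j', rfl⟩ | rfl
    · rw [zbk_snoc]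
      have h1 : ∀ H' : Fin (n + 1) → α,
          c * (if H' j' = u then zbkW S H' else 0) ≤
          (∑ a : α, if (Fin.snoc H' a : Fin (n + 2) → α) j'.castSucc = u then
            zbkW S (Fin.snoc H' a : Fin (n + 2) → α) else 0) := by
        intro H'
        simp only [Fin.snoc_castSucc, zbkW_snoc]
        by_cases h2 : H' j' = u
        · by_cases h3 : zbkW S H' = 0
          · simp [h3]
          · have h4 := (hn n H' j' (Nat.lt_succ_self n) h2 h3).1
            simp only [h2, if_true]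
            rw [← Finset.mul_sum, mul_comm c]
            exact mul_le_mul_of_nonneg_left h4 (zbkW_nonneg hS H')
        · simp [h2]
      refine le_trans ?_ (Finset.sum_le_sum fun H' _ => h1 H')
      rw [← Finset.mul_sum, pow_succ, mul_comm]
      exact mul_le_mul_of_nonneg_left (ih j') hc0
    · rw [zbk_cons]
      have h1 : ∀ H' : Fin (n + 1) → α,
          c * (if H' (Fin.last n) = u then zbkW S H' else 0) ≤
          (∑ a : α, if (Fin.cons a H' : Fin (n + 2) → α) (Fin.last (n + 1)) = u then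
            zbkW S (Fin.cons a H' : Fin (n + 2) → α) else 0) := by
        intro H'
        have h0 : ∀ a : α, (Fin.cons a H' : Fin (n + 2) → α) (Fin.last (n + 1)) =
            H' (Fin.last n) := by
          intro a
          rw [← Fin.succ_last, Fin.cons_succ]
        simp only [h0, zbkW_cons]
        by_cases h2 : H' (Fin.last n) = u
        · by_cases h3 : zbkW S H' = 0
          · simp [h3]
          · have h4 := (hn n H' (Fin.last n) (Nat.lt_succ_self n) h2 h3).2
            simp only [h2, if_true]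
            rw [← Finset.sum_mul]
            exact mul_le_mul_of_nonneg_right h4 (zbkW_nonneg hS H')
        · simp [h2]
      refine le_trans ?_ (Finset.sum_le_sum fun H' _ => h1 H')
      rw [← Finset.mul_sum, pow_succ, mul_comm]
      exact mul_le_mul_of_nonneg_left (ih (Fin.last n)) hc0

/-! ### steps -/

variable {r z k : ℕ}

theorem zbk_succ_ne (m : Fin r) : m.castSucc ≠ m.succ := (Fin.castSucc_lt_succ (i := m)).ne

theorem zbk_val_succ {m : Fin r} {a : Fin (r + 1)} : (a : ℕ) = m + 1 ↔ a = m.succ := by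
  rw [Fin.ext_iff, Fin.val_succ]

theorem zbk_out (m : Fin r) (u : ZW r z) :
    (univ.filter fun u' : ZW r z => IsStep m u u').card = ct u m.succ := by
  unfold ct
  symm
  apply Finset.card_bij (fun x _ => Function.update u x m.castSucc)
  · intro x hx
    rw [Finset.mem_filter] at hx ⊢
    exact ⟨Finset.mem_univ _, x, zbk_val_succ.2 hx.2, rfl⟩
  · intro x hx x' hx' hxx
    rw [Finset.mem_filter] at hx hx'
    by_contra hne
    have h1 := congrFun hxx x
    rw [Function.update_self, Function.update_of_ne hne, hx.2] at h1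
    exact zbk_succ_ne m h1
  · intro u' hu'
    obtain ⟨_, x, hx, rfl⟩ := Finset.mem_filter.1 hu'
    exact ⟨x, Finset.mem_filter.2 ⟨Finset.mem_univ _, zbk_val_succ.1 hx⟩, rfl⟩

theorem zbk_back {m : Fin r} {u u' : ZW r z} {x : Fin z} (h : (u x : ℕ) = m + 1)
    (h' : u' = Function.update u x m.castSucc) :
    u = Function.update u' x m.succ ∧ u' x = m.castSucc := by
  constructor
  · have h1 : Function.update u x m.succ = u := by
      rw [← zbk_val_succ.1 h]
      exact Function.update_eq_self x u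
    rw [h', Function.update_idem]
    exact h1.symm
  · rw [h', Function.update_self]

theorem zbk_in (m : Fin r) (u' : ZW r z) :
    (univ.filter fun u : ZW r z => IsStep m u u').card = ct u' m.castSucc := by
  unfold ct
  symm
  apply Finset.card_bij (fun x _ => Function.update u' x m.succ)
  · intro x hx
    rw [Finset.mem_filter] at hx ⊢
    refine ⟨Finset.mem_univ _, x, ?_, ?_⟩
    · rw [Function.update_self]
      rfl
    · rw [Function.update_idem, ← hx.2, Function.update_eq_self]
  · intro x hx x' hx' hxx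
    rw [Finset.mem_filter] at hx hx'
    by_contra hne
    have h1 := congrFun hxx x
    rw [Function.update_self, Function.update_of_ne hne, hx.2] at h1
    exact zbk_succ_ne m h1.symm
  · intro u hu
    obtain ⟨_, x, hx, h⟩ := Finset.mem_filter.1 hu
    obtain ⟨h1, h2⟩ := zbk_back hx h
    exact ⟨x, Finset.mem_filter.2 ⟨Finset.mem_univ _, h2⟩, h1.symm⟩

theorem zbk_step_diff {m : Fin r} {u u' : ZW r z} (h : IsStep m u u') :
    (univ.filter fun x => u x ≠ u' x).card ≤ 1 := by
  obtain ⟨x, hx, rfl⟩ := h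
  refine le_trans (Finset.card_le_card (t := {x}) ?_) (Finset.card_singleton x).le
  intro y hy
  rw [Finset.mem_filter] at hy
  rw [Finset.mem_singleton]
  by_contra hne
  exact hy.2 (by rw [Function.update_of_ne hne])

/-- a path of steps -/
def zbkP (m : Fin r) {n : ℕ} (H : Fin (n + 1) → ZW r z) : Prop :=
  ∀ s : Fin n, IsStep m (H s.castSucc) (H s.succ)

theorem zbk_path_diff {m : Fin r} {n : ℕ} {H : Fin (n + 1) → ZW r z} (h : zbkP m H) :
    ∀ (d a b : ℕ) (ha : a < n + 1) (hb : b < n + 1), b = a + d →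
      (univ.filter fun x => H ⟨a, ha⟩ x ≠ H ⟨b, hb⟩ x).card ≤ d
  | 0, a, b, ha, hb, hab => by
    have : b = a := by omega
    subst this
    simp
  | d + 1, a, b, ha, hb, hab => by
    have ih := zbk_path_diff h d a (a + d) ha (by omega) rfl
    have h1 := zbk_step_diff (h ⟨a + d, by omega⟩)
    have h2 : (⟨a + d, by omega⟩ : Fin n).castSucc = ⟨a + d, by omega⟩ := rfl
    have h3 : (⟨a + d, by omega⟩ : Fin n).succ = ⟨b, hb⟩ := by
      rw [Fin.ext_iff]
      show a + d + 1 = b
      omega
    rw [h2, h3] at h1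
    have h4 : (univ.filter fun x => H ⟨a, ha⟩ x ≠ H ⟨b, hb⟩ x) ⊆
        (univ.filter fun x => H ⟨a, ha⟩ x ≠ H ⟨a + d, by omega⟩ x) ∪
          univ.filter fun x => H ⟨a + d, by omega⟩ x ≠ H ⟨b, hb⟩ x := by
      intro x hx
      rw [Finset.mem_union, Finset.mem_filter, Finset.mem_filter]
      rw [Finset.mem_filter] at hx
      by_cases h5 : H ⟨a, ha⟩ x = H ⟨a + d, by omega⟩ x
      · right
        rw [← h5]
        exact hx
      · left
        exact ⟨Finset.mem_univ _, h5⟩
    have h6 := (Finset.card_le_card h4).trans (Finset.card_union_le _ _)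
    omega

theorem zbk_path_diff' {m : Fin r} {n : ℕ} {H : Fin (n + 1) → ZW r z} (h : zbkP m H)
    (a b : Fin (n + 1)) : (univ.filter fun x => H a x ≠ H b x).card ≤ n := by
  rcases le_total (a : ℕ) b with hab | hab
  · have := zbk_path_diff h (b - a) a b a.2 b.2 (by omega)
    have hb := b.2
    exact this.trans (by omega)
  · have := zbk_path_diff h (a - b) b a b.2 a.2 (by omega)
    have ha := a.2
    have h2 : (univ.filter fun x => H a x ≠ H b x) = univ.filter fun x => H b x ≠ H a x := by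
      apply Finset.filter_congr
      intro x _
      exact ne_comm
    rw [h2]
    exact this.trans (by omega)

theorem zbk_ct_diff (u u' : ZW r z) (j : Fin (r + 1)) :
    ct u j ≤ ct u' j + (univ.filter fun x => u x ≠ u' x).card := by
  unfold ct
  have h1 : (univ.filter fun x => u x = j) ⊆
      (univ.filter fun x => u' x = j) ∪ univ.filter fun x => u x ≠ u' x := by
    intro x hx
    rw [Finset.mem_filter] at hx
    rw [Finset.mem_union, Finset.mem_filter, Finset.mem_filter]
    by_cases h : u x = u' x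
    · left
      exact ⟨Finset.mem_univ _, by rw [← h]; exact hx.2⟩
    · right
      exact ⟨Finset.mem_univ _, h⟩
  exact (Finset.card_le_card h1).trans (Finset.card_union_le _ _)

theorem zbk_path_ct {m : Fin r} {n : ℕ} {H : Fin (n + 1) → ZW r z} (h : zbkP m H)
    (a b : Fin (n + 1)) (j : Fin (r + 1)) : ct (H a) j ≤ ct (H b) j + n :=
  (zbk_ct_diff _ _ j).trans (Nat.add_le_add_left (zbk_path_diff' h a b) _)

theorem zbk_path_back {m : Fin r} {n : ℕ} {H : Fin (n + 1) → ZW r z} (h : zbkP m H) (x : Fin z) :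
    ∀ (d a b : ℕ) (ha : a < n + 1) (hb : b < n + 1), b = a + d →
      H ⟨b, hb⟩ x = m.succ → H ⟨a, ha⟩ x = m.succ
  | 0, a, b, ha, hb, hab, hx => by
    have : b = a := by omega
    subst this
    exact hx
  | d + 1, a, b, ha, hb, hab, hx => by
    refine zbk_path_back h x d a (a + d) ha (by omega) rfl ?_
    obtain ⟨y, hy, hu⟩ := h ⟨a + d, by omega⟩
    have h3 : (⟨a + d, by omega⟩ : Fin n).succ = ⟨b, hb⟩ := by
      rw [Fin.ext_iff]
      show a + d + 1 = b
      omega
    rw [h3] at hu
    by_cases hxy : x = y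
    · subst hxy
      rw [hu, Function.update_self] at hx
      exact absurd hx (zbk_succ_ne m)
    · rw [hu, Function.update_of_ne hxy] at hx
      exact hx

theorem zbk_vh {A : ℝ} {m : Fin r} {n : ℕ} {H : Fin (n + 1) → ZW r z} :
    VH A m H ↔ ZTyp (2 * A) (H 0) ∧ zbkP m H := by
  constructor
  · rintro ⟨h1, h2⟩
    refine ⟨h1 0 rfl, fun s => h2 _ _ ?_⟩
    rw [Fin.val_succ, Fin.val_castSucc]
  · rintro ⟨h1, h2⟩
    refine ⟨fun j hj => ?_, fun j j' hj => ?_⟩
    · have : j = 0 := Fin.ext hj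
      rw [this]
      exact h1
    · have hj' := j'.2
      have h3 := h2 ⟨j, by omega⟩
      have h4 : (⟨j, by omega⟩ : Fin n).castSucc = j := rfl
      have h5 : (⟨j, by omega⟩ : Fin n).succ = j' := by
        rw [Fin.ext_iff]
        show (j : ℕ) + 1 = j'
        omega
      rw [h4, h5] at h3
      exact h3

/-- restricted step kernel -/
noncomputable def zbkS (m : Fin r) (β : ℝ) (a b : ZW r z) : ℝ :=
  if IsStep m a b ∧ (ct a m.succ : ℝ) ≤ β ∧ (ct b m.castSucc : ℝ) ≤ β then 1 else 0

theorem zbkS_nonneg (m : Fin r) (β : ℝ) (a b : ZW r z) : 0 ≤ zbkS m β a b := by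
  unfold zbkS
  split_ifs <;> norm_num

theorem zbkS_le (m : Fin r) (β : ℝ) (a b : ZW r z) : zbkS m β a b ≤ 1 := by
  unfold zbkS
  split_ifs <;> norm_num

theorem zbkS_row (m : Fin r) (β : ℝ) (hβ : 0 ≤ β) (a : ZW r z) : ∑ b, zbkS m β a b ≤ β := by
  by_cases h : (ct a m.succ : ℝ) ≤ β
  · refine le_trans ?_ h
    rw [← zbk_out m a, Finset.card_filter]
    push_cast
    apply Finset.sum_le_sum
    intro b _
    unfold zbkS
    by_cases h1 : IsStep m a b
    · rw [if_pos h1]
      split_ifs <;> norm_num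
    · rw [if_neg h1, if_neg fun h => h1 h.1]
  · refine le_trans (le_of_eq ?_) hβ
    apply Finset.sum_eq_zero
    intro b _
    unfold zbkS
    rw [if_neg fun h' => h h'.2.1]

theorem zbkS_col (m : Fin r) (β : ℝ) (hβ : 0 ≤ β) (b : ZW r z) : ∑ a, zbkS m β a b ≤ β := by
  by_cases h : (ct b m.castSucc : ℝ) ≤ β
  · refine le_trans ?_ h
    rw [← zbk_in m b, Finset.card_filter]
    push_cast
    apply Finset.sum_le_sum
    intro a _
    unfold zbkS
    by_cases h1 : IsStep m a b
    · rw [if_pos h1]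
      split_ifs <;> norm_num
    · rw [if_neg h1, if_neg fun h => h1 h.1]
  · refine le_trans (le_of_eq ?_) hβ
    apply Finset.sum_eq_zero
    intro a _
    unfold zbkS
    rw [if_neg fun h' => h h'.2.2]

/-- the weight of a history is at most the weight of the path -/
theorem zbk_wz_le {A : ℝ} (m : Fin r) {n : ℕ} (β : ℝ)
    (hβ : (z : ℝ) / (r + 1) + 2 * A * Real.sqrt z + n ≤ β) (H : Fin (n + 1) → ZW r z) :
    wz A m H ≤ (((r : ℝ) + 1) / z) ^ n * zbkW (zbkS m β) H := by
  have hw0 : 0 ≤ zbkW (zbkS m β) H := zbkW_nonneg (zbkS_nonneg m β) H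
  unfold wz
  by_cases hV : VH A m H
  · rw [if_pos hV, Nat.add_sub_cancel]
    obtain ⟨hT, hP⟩ := zbk_vh.1 hV
    have hct : ∀ (s : Fin (n + 1)) (j : Fin (r + 1)), (ct (H s) j : ℝ) ≤ β := by
      intro s j
      have h1 : (ct (H s) j : ℝ) ≤ ct (H 0) j + n := by exact_mod_cast zbk_path_ct hP s 0 j
      have h2 := (abs_le.1 (hT j)).2
      rw [Fintype.card_fin] at h2
      linarith
    have h1 : zbkW (zbkS m β) H = 1 := by
      unfold zbkW
      apply Finset.prod_eq_one
      intro s _
      unfold zbkS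
      rw [if_pos ⟨hP s, hct _ _, hct _ _⟩]
    rw [h1, mul_one]
  · rw [if_neg hV]
    positivity

theorem zbk_one {A : ℝ} (m : Fin r) {n : ℕ} (β : ℝ) (hβ0 : 0 ≤ β)
    (hβ : (z : ℝ) / (r + 1) + 2 * A * Real.sqrt z + n ≤ β) (j : Fin (n + 1)) (u : ZW r z) :
    (∑ H : Fin (n + 1) → ZW r z, if H j = u then wz A m H else 0) ≤
      (((r : ℝ) + 1) / z * β) ^ n := by
  have h1 : ∀ H : Fin (n + 1) → ZW r z, (if H j = u then wz A m H else 0) ≤
      (((r : ℝ) + 1) / z) ^ n * (if H j = u then zbkW (zbkS m β) H else 0) := by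
    intro H
    by_cases h : H j = u
    · rw [if_pos h, if_pos h]
      exact zbk_wz_le m β hβ H
    · simp [h]
  refine (Finset.sum_le_sum fun H _ => h1 H).trans ?_
  rw [← Finset.mul_sum, mul_pow]
  exact mul_le_mul_of_nonneg_left
    (zbk_upper (zbkS m β) β hβ0 (zbkS_nonneg m β) (zbkS_row m β hβ0) (zbkS_col m β hβ0) n j u)
    (by positivity)

theorem zbk_adj {A : ℝ} (m : Fin r) {n : ℕ} (β : ℝ) (hβ0 : 0 ≤ β)
    (hβ : (z : ℝ) / (r + 1) + 2 * A * Real.sqrt z + n ≤ β) (s : Fin n) (w u : ZW r z) :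
    (∑ H : Fin (n + 1) → ZW r z, if H s.castSucc = w ∧ H s.succ = u then wz A m H else 0) ≤
      (((r : ℝ) + 1) / z) ^ n * β ^ (n - 1) := by
  have h1 : ∀ H : Fin (n + 1) → ZW r z,
      (if H s.castSucc = w ∧ H s.succ = u then wz A m H else 0) ≤
      (((r : ℝ) + 1) / z) ^ n *
        (if H s.castSucc = w ∧ H s.succ = u then zbkW (zbkS m β) H else 0) := by
    intro H
    by_cases h : H s.castSucc = w ∧ H s.succ = u
    · rw [if_pos h, if_pos h]
      exact zbk_wz_le m β hβ H
    · rw [if_neg h, if_neg h, mul_zero]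
  refine (Finset.sum_le_sum fun H _ => h1 H).trans ?_
  rw [← Finset.mul_sum]
  exact mul_le_mul_of_nonneg_left
    (zbk_upper2 (zbkS m β) β hβ0 (zbkS_nonneg m β) (zbkS_le m β) (zbkS_row m β hβ0)
      (zbkS_col m β hβ0) n s w u) (by positivity)

theorem zbk_wz_nonneg {A : ℝ} (m : Fin r) (H : Fin k → ZW r z) : 0 ≤ wz A m H := by
  unfold wz
  split_ifs
  · positivity
  · exact le_rfl

theorem zbk_two {A : ℝ} (m : Fin r) {n : ℕ} (β : ℝ) (hβ0 : 0 ≤ β)
    (hβ : (z : ℝ) / (r + 1) + 2 * A * Real.sqrt z + n ≤ β) (j j' : Fin (n + 1))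
    (hjj : j < j') (u u' : ZW r z) :
    (∑ H : Fin (n + 1) → ZW r z, if H j = u ∧ H j' = u' then wz A m H else 0) ≤
      n * ((((r : ℝ) + 1) / z) ^ n * β ^ (n - 1)) := by
  have hRHS0 : 0 ≤ (n : ℝ) * ((((r : ℝ) + 1) / z) ^ n * β ^ (n - 1)) := by positivity
  -- nothing to do if there is no path
  by_cases hex : ∃ H : Fin (n + 1) → ZW r z, (H j = u ∧ H j' = u') ∧ zbkP m H
  swap
  · refine le_trans (le_of_eq ?_) hRHS0
    apply Finset.sum_eq_zero
    intro H _
    by_cases h : H j = u ∧ H j' = u'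
    · rw [if_pos h]
      unfold wz
      rw [if_neg]
      intro hV
      exact hex ⟨H, h, (zbk_vh.1 hV).2⟩
    · rw [if_neg h]
  obtain ⟨H0, ⟨hH0, hH0'⟩, hP0⟩ := hex
  set X : Finset (Fin z) := univ.filter fun x => u x ≠ u' x with hX
  have hXc : X.card ≤ n := by
    rw [hX, ← hH0, ← hH0']
    exact zbk_path_diff' hP0 j j'
  have hj0 : 0 < (j' : ℕ) := lt_of_le_of_lt (Nat.zero_le _) hjj
  have hj'n := j'.2
  set s : Fin n := ⟨j' - 1, by omega⟩ with hs
  have hs1 : s.succ = j' := by
    rw [Fin.ext_iff]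
    show (j' : ℕ) - 1 + 1 = j'
    omega
  have h1 : ∀ H : Fin (n + 1) → ZW r z, (if H j = u ∧ H j' = u' then wz A m H else 0) ≤
      ∑ x ∈ X, if H s.castSucc = Function.update u' x m.succ ∧ H s.succ = u' then
        wz A m H else 0 := by
    intro H
    have hnn : ∀ x ∈ X, 0 ≤ (if H s.castSucc = Function.update u' x m.succ ∧ H s.succ = u' then
        wz A m H else 0) := by
      intro x _
      split_ifs
      · exact zbk_wz_nonneg m H
      · exact le_rfl
    by_cases h : H j = u ∧ H j' = u'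
    · rw [if_pos h]
      by_cases hV : VH A m H
      · obtain ⟨_, hP⟩ := zbk_vh.1 hV
        obtain ⟨x, hx, hu⟩ := hP s
        obtain ⟨h2, h3⟩ := zbk_back hx hu
        rw [hs1, h.2] at h2 h3
        have hux : u x = m.succ := by
          have h4 := zbk_path_back hP x ((j' : ℕ) - 1 - j) j ((j' : ℕ) - 1) j.2 (by omega)
            (by have : (j : ℕ) < j' := hjj; omega) (zbk_val_succ.1 hx)
          rw [← h.1]
          exact h4
        have hxX : x ∈ X := by
          rw [hX, Finset.mem_filter]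
          refine ⟨Finset.mem_univ _, ?_⟩
          rw [hux, h3]
          exact (zbk_succ_ne m).symm
        refine le_trans (le_of_eq ?_) (Finset.single_le_sum hnn hxX)
        rw [if_pos ⟨h2, by rw [hs1]; exact h.2⟩]
      · have : wz A m H = 0 := by
          unfold wz
          rw [if_neg hV]
        rw [this]
        simp
    · rw [if_neg h]
      exact Finset.sum_nonneg hnn
  refine (Finset.sum_le_sum fun H _ => h1 H).trans ?_
  rw [Finset.sum_comm]
  refine (Finset.sum_le_sum fun x _ =>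
    zbk_adj (A := A) m β hβ0 hβ s (Function.update u' x m.succ) u').trans ?_
  rw [Finset.sum_const, nsmul_eq_mul]
  apply mul_le_mul_of_nonneg_right _ (by positivity)
  exact_mod_cast hXc

theorem zbk_low {A : ℝ} (hA : 0 < A) (m : Fin r) {n : ℕ} (hn : (n : ℝ) ≤ A * Real.sqrt z)
    (c : ℝ) (hc0 : 0 ≤ c) (hc : c ≤ (z : ℝ) / (r + 1) - A * Real.sqrt z - n)
    (j : Fin (n + 1)) (u : ZW r z) (hu : ZTyp A u) :
    (((r : ℝ) + 1) / z * c) ^ n ≤
      ∑ H : Fin (n + 1) → ZW r z, if H j = u then wz A m H else 0 := by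
  set S : ZW r z → ZW r z → ℝ := fun a b => if IsStep m a b then 1 else 0 with hS
  have hS0 : ∀ a b, 0 ≤ S a b := by
    intro a b
    show 0 ≤ if IsStep m a b then (1 : ℝ) else 0
    split_ifs <;> norm_num
  have hW : ∀ {n' : ℕ} (H : Fin (n' + 1) → ZW r z), zbkW S H ≠ 0 → zbkP m H := by
    intro n' H hH s
    unfold zbkW at hH
    rw [Finset.prod_ne_zero_iff] at hH
    by_contra hcon
    exact hH s (Finset.mem_univ s) (if_neg hcon)
  have hlow := zbk_lower S c hc0 hS0 u n (by
    intro n' H j' hn' hj' hH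
    have hP := hW H hH
    have hnn : (n' : ℝ) ≤ n := by exact_mod_cast hn'.le
    constructor
    · have h1 : (∑ b, S (H (Fin.last n')) b) = (ct (H (Fin.last n')) m.succ : ℝ) := by
        rw [← zbk_out m, Finset.card_filter]
        push_cast
        rfl
      rw [h1]
      have h2 : (ct u m.succ : ℝ) ≤ ct (H (Fin.last n')) m.succ + n' := by
        rw [← hj']
        exact_mod_cast zbk_path_ct hP j' (Fin.last n') m.succ
      have h3 := (abs_le.1 (hu m.succ)).1
      rw [Fintype.card_fin] at h3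
      linarith
    · have h1 : (∑ a, S a (H 0)) = (ct (H 0) m.castSucc : ℝ) := by
        rw [← zbk_in m, Finset.card_filter]
        push_cast
        rfl
      rw [h1]
      have h2 : (ct u m.castSucc : ℝ) ≤ ct (H 0) m.castSucc + n' := by
        rw [← hj']
        exact_mod_cast zbk_path_ct hP j' 0 m.castSucc
      have h3 := (abs_le.1 (hu m.castSucc)).1
      rw [Fintype.card_fin] at h3
      linarith) j
  rw [mul_pow]
  refine (mul_le_mul_of_nonneg_left hlow (by positivity)).trans ?_
  rw [Finset.mul_sum]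
  apply Finset.sum_le_sum
  intro H _
  by_cases h : H j = u
  · rw [if_pos h, if_pos h]
    by_cases h0 : zbkW S H = 0
    · rw [h0, mul_zero]
      exact zbk_wz_nonneg m H
    · have hP := hW H h0
      have h1 : zbkW S H = 1 := by
        unfold zbkW
        apply Finset.prod_eq_one
        intro s _
        exact if_pos (hP s)
      have hT : ZTyp (2 * A) (H 0) := by
        intro l
        rw [Fintype.card_fin]
        have h2 : (ct (H 0) l : ℝ) ≤ ct u l + n := by
          rw [← h]
          exact_mod_cast zbk_path_ct hP 0 j l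
        have h3 : (ct u l : ℝ) ≤ ct (H 0) l + n := by
          rw [← h]
          exact_mod_cast zbk_path_ct hP j 0 l
        have h4 := abs_le.1 (hu l)
        rw [Fintype.card_fin] at h4
        rw [abs_le]
        constructor <;> linarith [h4.1, h4.2]
      have hV : VH A m H := zbk_vh.2 ⟨hT, hP⟩
      unfold wz
      rw [if_pos hV, h1, mul_one, Nat.add_sub_cancel]
  · rw [if_neg h, if_neg h, mul_zero]

/-! ### limits -/

theorem zbk_lim (r : ℕ) (a b : ℝ) :
    Tendsto (fun z : ℕ => ((r : ℝ) + 1) / z * ((z : ℝ) / (r + 1) + a * Real.sqrt z + b))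
      atTop (𝓝 1) := by
  have h1 : Tendsto (fun z : ℕ => 1 + ((r : ℝ) + 1) * a * (Real.sqrt z)⁻¹ +
      ((r : ℝ) + 1) * b * ((z : ℝ))⁻¹) atTop (𝓝 (1 + ((r : ℝ) + 1) * a * 0 +
        ((r : ℝ) + 1) * b * 0)) := by
    apply Tendsto.add
    · apply Tendsto.add tendsto_const_nhds
      apply Tendsto.mul tendsto_const_nhds
      exact tendsto_inv_atTop_zero.comp (Real.tendsto_sqrt_atTop.comp tendsto_natCast_atTop_atTop)
    · apply Tendsto.mul tendsto_const_nhds
      exact tendsto_inv_atTop_zero.comp tendsto_natCast_atTop_atTop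
  have h2 : (1 + ((r : ℝ) + 1) * a * 0 + ((r : ℝ) + 1) * b * 0) = 1 := by ring
  rw [h2] at h1
  refine h1.congr' ?_
  filter_upwards [eventually_ge_atTop 1] with z hz
  have hz0 : (0 : ℝ) < z := by exact_mod_cast hz
  have hs : 0 < Real.sqrt z := Real.sqrt_pos.2 hz0
  have hss : Real.sqrt z * Real.sqrt z = z := Real.mul_self_sqrt hz0.le
  have hr : (r : ℝ) + 1 ≠ 0 := by positivity
  have h3 : (Real.sqrt z)⁻¹ = Real.sqrt z / z := by
    rw [eq_div_iff hz0.ne', inv_mul_eq_iff_eq_mul₀ hs.ne']
    exact hss.symm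
  rw [h3]
  field_simp

/-- Block ZBK: sums of the weights of the histories -/
theorem z_bounds_pr (r k : ℕ) (hr : 1 ≤ r) (hk : 2 ≤ k) (A κ : ℝ) (hA : 0 < A) (hκ : 0 < κ) :
    ∃ z0 : ℕ, ∀ z ≥ z0, ∀ m : Fin r,
      (∀ (j : Fin k) (u : ZW r z),
        (∑ H : Fin k → ZW r z, if H j = u then wz A m H else 0) ≤ 1 + κ) ∧
      (∀ (j : Fin k) (u : ZW r z), ZTyp A u →
        1 - κ ≤ ∑ H : Fin k → ZW r z, if H j = u then wz A m H else 0) ∧
      (∀ (j j' : Fin k) (u u' : ZW r z), j ≠ j' →
        (∑ H : Fin k → ZW r z, if H j = u ∧ H j' = u' then wz A m H else 0) ≤ κ) ∧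
      ∀ H : Fin k → ZW r z, wz A m H ≤ κ := by
  obtain ⟨n, rfl⟩ : ∃ n, k = n + 1 := ⟨k - 1, by omega⟩
  have hn1 : 1 ≤ n := by omega
  have l1 := zbk_lim r (2 * A) n
  have l2 := zbk_lim r (-A) (-n)
  have l3 : Tendsto (fun z : ℕ => ((r : ℝ) + 1) / z) atTop (𝓝 0) := by
    have := (tendsto_const_nhds (x := (r : ℝ) + 1)).mul
      (tendsto_inv_atTop_zero.comp (tendsto_natCast_atTop_atTop (R := ℝ)))
    rw [mul_zero] at this
    exact this
  have e1 : ∀ᶠ z : ℕ in atTop, (((r : ℝ) + 1) / z * ((z : ℝ) / (r + 1) + 2 * A * Real.sqrt z +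
      n)) ^ n < 1 + κ := by
    have := l1.pow n
    rw [one_pow] at this
    exact this.eventually (gt_mem_nhds (by linarith))
  have e2 : ∀ᶠ z : ℕ in atTop, 1 - κ < (((r : ℝ) + 1) / z * ((z : ℝ) / (r + 1) +
      -A * Real.sqrt z + -n)) ^ n := by
    have := l2.pow n
    rw [one_pow] at this
    exact this.eventually (lt_mem_nhds (by linarith))
  have e2' : ∀ᶠ z : ℕ in atTop, 0 < ((r : ℝ) + 1) / z * ((z : ℝ) / (r + 1) +
      -A * Real.sqrt z + -n) := l2.eventually (lt_mem_nhds one_pos)
  have e3 : ∀ᶠ z : ℕ in atTop, n * (((r : ℝ) + 1) / z * (((r : ℝ) + 1) / z *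
      ((z : ℝ) / (r + 1) + 2 * A * Real.sqrt z + n)) ^ (n - 1)) < κ := by
    have := (tendsto_const_nhds (x := (n : ℝ))).mul (l3.mul (l1.pow (n - 1)))
    rw [zero_mul, mul_zero] at this
    exact this.eventually (gt_mem_nhds hκ)
  have e4 : ∀ᶠ z : ℕ in atTop, (((r : ℝ) + 1) / z) ^ n < κ := by
    have := l3.pow n
    rw [zero_pow (by omega)] at this
    exact this.eventually (gt_mem_nhds hκ)
  have e5 : ∀ᶠ z : ℕ in atTop, (n : ℝ) ≤ A * Real.sqrt z := by
    have : Tendsto (fun z : ℕ => A * Real.sqrt z) atTop atTop :=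
      Tendsto.const_mul_atTop hA (Real.tendsto_sqrt_atTop.comp tendsto_natCast_atTop_atTop)
    exact this.eventually (eventually_ge_atTop _)
  obtain ⟨z0, hz0⟩ := eventually_atTop.1
    (e1.and (e2.and (e2'.and (e3.and (e4.and (e5.and (eventually_ge_atTop 1)))))))
  refine ⟨z0, fun z hz m => ?_⟩
  obtain ⟨f1, f2, f2', f3, f4, f5, f6⟩ := hz0 z hz
  have hzp : (0 : ℝ) < z := by exact_mod_cast f6
  set β : ℝ := (z : ℝ) / (r + 1) + 2 * A * Real.sqrt z + n with hβ
  have hβ0 : 0 ≤ β := by positivity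
  have hq0 : 0 < ((r : ℝ) + 1) / z := by positivity
  refine ⟨?_, ?_, ?_, ?_⟩
  · intro j u
    exact (zbk_one m β hβ0 le_rfl j u).trans f1.le
  · intro j u hu
    have hc0 : 0 ≤ (z : ℝ) / (r + 1) - A * Real.sqrt z - n := by
      have h1 := (mul_pos_iff_of_pos_left hq0).1 f2'
      linarith
    refine le_trans ?_ (zbk_low hA m f5 _ hc0 le_rfl j u hu)
    have h2 : (z : ℝ) / (r + 1) - A * Real.sqrt z - n =
        (z : ℝ) / (r + 1) + -A * Real.sqrt z + -n := by ring
    rw [h2]
    exact f2.le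
  · intro j j' u u' hne
    have h2 : (n : ℝ) * ((((r : ℝ) + 1) / z) ^ n * β ^ (n - 1)) =
        n * (((r : ℝ) + 1) / z * (((r : ℝ) + 1) / z * β) ^ (n - 1)) := by
      have h3 : (((r : ℝ) + 1) / z) ^ n = ((r : ℝ) + 1) / z * (((r : ℝ) + 1) / z) ^ (n - 1) := by
        rw [← pow_succ']
        congr 1
        omega
      rw [h3, mul_pow]
      ring
    rcases lt_or_gt_of_ne hne with h | h
    · have h1 := zbk_two (A := A) m β hβ0 le_rfl j j' h u u'
      rw [h2] at h1
      exact h1.trans f3.le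
    · have h1 := zbk_two (A := A) m β hβ0 le_rfl j' j h u' u
      rw [h2] at h1
      refine le_trans (le_of_eq ?_) (h1.trans f3.le)
      apply Finset.sum_congr rfl
      intro H _
      exact if_congr and_comm rfl rfl
  · intro H
    unfold wz
    split_ifs
    · rw [Nat.add_sub_cancel]
      exact f4.le
    · exact hκ.le

end BLOCKS

end Pool.Agent.Lib_helper46.CC

namespace Pool.Agent.Lib_helper46.CC

alias z_bounds := z_bounds_pr

end Pool.Agent.Lib_helper46.CC
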