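import Mathlib
import Pool.Agent.Lib_helper46.CCF.WBase

/-! Block ZCL, written by helper30. -/

set_option autoImplicit false

namespace Pool.Agent.Lib_helper46.CC

open Finset Pool.Agent.Lib_helper70.Chains
open scoped Classical

section BLOCKS

theorem zcl_step_cl {r z : ℕ} {m : Fin r} {u u' : ZW r z} (h : IsStep m u u') (m' : Fin r) :
    (cl u' m' : ℤ) - cl u m' = if m' = m then 1 else 0 := by
  obtain ⟨x, hx, rfl⟩ := h
  unfold cl
  by_cases hm : m' = m
  · subst hm
    rw [if_pos rfl]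
    have h1 : (univ.filter (fun y => (Function.update u x m'.castSucc y : ℕ) ≤ (m' : ℕ))) =
        insert x (univ.filter (fun y => (u y : ℕ) ≤ (m' : ℕ))) := by
      ext y
      rw [mem_filter, mem_insert, mem_filter]
      by_cases hy : y = x
      · subst hy
        simp
      · rw [Function.update_of_ne hy]
        simp [hy]
    have h2 : x ∉ univ.filter (fun y => (u y : ℕ) ≤ (m' : ℕ)) := by
      rw [mem_filter]
      rintro ⟨_, h3⟩
      omega
    rw [h1, Finset.card_insert_of_notMem h2]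
    push_cast
    ring
  · rw [if_neg hm]
    have hm2 : (m' : ℕ) ≠ (m : ℕ) := fun h => hm (Fin.ext h)
    have h1 : (univ.filter (fun y => (Function.update u x m.castSucc y : ℕ) ≤ (m' : ℕ))) =
        univ.filter (fun y => (u y : ℕ) ≤ (m' : ℕ)) := by
      ext y
      rw [mem_filter, mem_filter]
      by_cases hy : y = x
      · subst hy
        rw [Function.update_self, Fin.val_castSucc, hx]
        constructor
        · rintro ⟨_, h3⟩
          exact ⟨mem_univ _, by omega⟩
        · rintro ⟨_, h3⟩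
          exact ⟨mem_univ _, by omega⟩
      · rw [Function.update_of_ne hy]
    rw [h1, sub_self]

theorem zcl_step_mono {r z : ℕ} {m : Fin r} {u u' : ZW r z} (h : IsStep m u u') (x : Fin z)
    (hx : (u x : ℕ) ≤ m) : (u' x : ℕ) ≤ m := by
  obtain ⟨y, hy, rfl⟩ := h
  by_cases hxy : x = y
  · subst hxy
    rw [Function.update_self, Fin.val_castSucc]
  · rw [Function.update_of_ne hxy]
    exact hx

theorem zcl_step_other {r z : ℕ} {m : Fin r} {u u' : ZW r z} (h : IsStep m u u') (m' : Fin r)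
    (hm : m' ≠ m) (x : Fin z) : (u x : ℕ) ≤ m' ↔ (u' x : ℕ) ≤ m' := by
  have hm2 : (m' : ℕ) ≠ (m : ℕ) := fun h => hm (Fin.ext h)
  obtain ⟨y, hy, rfl⟩ := h
  by_cases hxy : x = y
  · subst hxy
    rw [Function.update_self, Fin.val_castSucc, hy]
    omega
  · rw [Function.update_of_ne hxy]

theorem zcl_cl_le {r z k : ℕ} {A : ℝ} {m : Fin r} {H : Fin k → ZW r z} (hH : VH A m H)
    (m' : Fin r) : ∀ (d : ℕ) (j j' : Fin k), (j' : ℕ) = j + d →
    (cl (H j') m' : ℤ) - cl (H j) m' = if m' = m then (d : ℤ) else 0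
  | 0, j, j', h => by
      have : j' = j := Fin.ext (by omega)
      subst this
      simp
  | (d + 1), j, j', h => by
      have hlt : (j : ℕ) + d < k := by have := j'.isLt; omega
      have h1 := zcl_cl_le hH m' d j ⟨j + d, hlt⟩ rfl
      have h2 := zcl_step_cl (hH.2 ⟨j + d, hlt⟩ j' (by simp only; omega)) m'
      split_ifs at h1 h2 ⊢
      · push_cast; linarith
      · linarith

theorem vh_cl_pr {r z k : ℕ} {A : ℝ} {m : Fin r} {H : Fin k → ZW r z} (hH : VH A m H)
    (j j' : Fin k) (m' : Fin r) :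
    (cl (H j') m' : ℤ) - cl (H j) m' = if m' = m then ((j' : ℕ) : ℤ) - (j : ℕ) else 0 := by
  rcases le_total (j : ℕ) (j' : ℕ) with h | h
  · have h1 := zcl_cl_le hH m' (j' - j) j j' (by omega)
    rw [h1]
    split_ifs
    · push_cast [h]; ring
    · rfl
  · have h1 := zcl_cl_le hH m' (j - j') j' j (by omega)
    split_ifs at h1 ⊢
    · push_cast [h] at h1; linarith
    · linarith

theorem zcl_mono {r z k : ℕ} {A : ℝ} {m : Fin r} {H : Fin k → ZW r z} (hH : VH A m H)
    (x : Fin z) : ∀ (d : ℕ) (j j' : Fin k), (j' : ℕ) = j + d → (H j x : ℕ) ≤ m → (H j' x : ℕ) ≤ m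
  | 0, j, j', h, hx => by
      have : j' = j := Fin.ext (by omega)
      subst this
      exact hx
  | (d + 1), j, j', h, hx => by
      have hlt : (j : ℕ) + d < k := by have := j'.isLt; omega
      have h1 := zcl_mono hH x d j ⟨j + d, hlt⟩ rfl hx
      exact zcl_step_mono (hH.2 ⟨j + d, hlt⟩ j' (by simp only; omega)) x h1

theorem zcl_other {r z k : ℕ} {A : ℝ} {m : Fin r} {H : Fin k → ZW r z} (hH : VH A m H)
    (m' : Fin r) (hm : m' ≠ m) (x : Fin z) : ∀ (d : ℕ) (j j' : Fin k), (j' : ℕ) = j + d →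
    ((H j x : ℕ) ≤ m' ↔ (H j' x : ℕ) ≤ m')
  | 0, j, j', h => by
      have : j' = j := Fin.ext (by omega)
      subst this
      exact Iff.rfl
  | (d + 1), j, j', h => by
      have hlt : (j : ℕ) + d < k := by have := j'.isLt; omega
      have h1 := zcl_other hH m' hm x d j ⟨j + d, hlt⟩ rfl
      exact h1.trans (zcl_step_other (hH.2 ⟨j + d, hlt⟩ j' (by simp only; omega)) m' hm x)

theorem vh_mono_pr {r z k : ℕ} {A : ℝ} {m : Fin r} {H : Fin k → ZW r z} (hH : VH A m H)
    (j j' : Fin k) (hj : j ≤ j') (x : Fin z) (hx : (H j x : ℕ) ≤ m) : (H j' x : ℕ) ≤ m := by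
  have hj' : (j : ℕ) ≤ (j' : ℕ) := hj
  exact zcl_mono hH x (j' - j) j j' (by omega) hx

theorem vh_other_pr {r z k : ℕ} {A : ℝ} {m : Fin r} {H : Fin k → ZW r z} (hH : VH A m H)
    (j j' : Fin k) (m' : Fin r) (hm : m' ≠ m) (x : Fin z) :
    (H j x : ℕ) ≤ m' ↔ (H j' x : ℕ) ≤ m' := by
  rcases le_total (j : ℕ) (j' : ℕ) with h | h
  · exact zcl_other hH m' hm x (j' - j) j j' (by omega)
  · exact (zcl_other hH m' hm x (j - j') j' j (by omega)).symm

theorem vh_inj_pr {r z k : ℕ} {A : ℝ} {m : Fin r} {H H' : Fin k → ZW r z} (hH : VH A m H)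
    (hH' : VH A m H') (j : Fin k) (hj : H j = H' j) (j1 j2 : Fin k) (h12 : H j1 = H' j2) :
    j1 = j2 := by
  have h1 := vh_cl_pr hH j j1 m
  have h2 := vh_cl_pr hH' j j2 m
  rw [if_pos rfl] at h1 h2
  rw [h12, hj] at h1
  apply Fin.ext
  omega


end BLOCKS

end Pool.Agent.Lib_helper46.CC

namespace Pool.Agent.Lib_helper46.CC

alias vh_cl := vh_cl_pr
alias vh_inj := vh_inj_pr
alias vh_mono := vh_mono_pr
alias vh_other := vh_other_pr

end Pool.Agent.Lib_helper46.CC
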