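import Mathlib
import Pool.Agent.Lib_helper46.CCF.WBase
import Pool.Agent.Lib_helper46.CCF.ZBK
import Pool.Agent.Lib_helper46.CCF.PSB
import Pool.Agent.Lib_helper46.CCF.ZCL
import Pool.Agent.Lib_helper46.CCF.SMO

/-! Block PHB, written by helper29. -/

/-! Block PHB: for a typical word, `Phi` is almost at least `1` for most label functions. -/

set_option autoImplicit false

namespace Pool.Agent.Lib_helper46.CC

open Finset Pool.Agent.Lib_helper70.Chains
open scoped Classical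

section

variable {r k z : ℕ}

theorem phb_wz_nonneg (A : ℝ) (m : Fin r) (H : Fin k → ZW r z) : 0 ≤ wz A m H := by
  unfold wz
  split_ifs
  · positivity
  · exact le_refl 0

/-- product of the weights -/
noncomputable def phb_w (A : ℝ) (H : Fin r → Fin k → ZW r z) : ℝ := ∏ m, wz A m (H m)

theorem phb_w_nonneg (A : ℝ) (H : Fin r → Fin k → ZW r z) : 0 ≤ phb_w A H :=
  Finset.prod_nonneg fun m _ => phb_wz_nonneg A m (H m)

theorem phb_vh {A : ℝ} {H : Fin r → Fin k → ZW r z} (h : phb_w A H ≠ 0) (m : Fin r) :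
    VH A m (H m) := by
  by_contra hcon
  apply h
  unfold phb_w
  refine Finset.prod_eq_zero (Finset.mem_univ m) ?_
  unfold wz
  rw [if_neg hcon]

/-- the histories through `v` -/
noncomputable def phb_Hs (A : ℝ) (i : Fin r → Fin k) (v : Fin r → ZW r z) :
    Finset (Fin r → Fin k → ZW r z) :=
  univ.filter (fun H => (∀ m, H m (i m) = v m) ∧ phb_w A H ≠ 0)

theorem phb_mem {A : ℝ} {i : Fin r → Fin k} {v : Fin r → ZW r z} {H : Fin r → Fin k → ZW r z} :
    H ∈ phb_Hs A i v ↔ (∀ m, H m (i m) = v m) ∧ phb_w A H ≠ 0 := by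
  unfold phb_Hs
  rw [Finset.mem_filter]
  exact ⟨fun h => h.2, fun h => ⟨Finset.mem_univ _, h⟩⟩

theorem phb_sum (A : ℝ) (i : Fin r → Fin k) (v : Fin r → ZW r z)
    (g : (Fin r → Fin k → ZW r z) → ℝ) :
    ∑ H ∈ phb_Hs A i v, phb_w A H * g H =
      ∑ H : Fin r → Fin k → ZW r z, if ∀ m, H m (i m) = v m then phb_w A H * g H else 0 := by
  unfold phb_Hs
  rw [Finset.sum_filter]
  refine Finset.sum_congr rfl fun H _ => ?_
  by_cases h1 : ∀ m, H m (i m) = v m
  · by_cases h2 : phb_w A H = 0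
    · rw [if_neg (fun h => h.2 h2), if_pos h1, h2, zero_mul]
    · rw [if_pos ⟨h1, h2⟩, if_pos h1]
  · rw [if_neg (fun h => h1 h.1), if_neg h1]

theorem phb_prod (g : Fin r → (Fin k → ZW r z) → ℝ) :
    ∑ H : Fin r → Fin k → ZW r z, ∏ m, g m (H m) = ∏ m, ∑ h : Fin k → ZW r z, g m h := by
  rw [Finset.prod_univ_sum, Fintype.piFinset_univ]

/-- total weight of the histories through `v` -/
theorem phb_total (A : ℝ) (i : Fin r → Fin k) (v : Fin r → ZW r z) :
    ∑ H ∈ phb_Hs A i v, phb_w A H =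
      ∏ m, ∑ h : Fin k → ZW r z, if h (i m) = v m then wz A m h else 0 := by
  have h1 := phb_sum A i v (fun _ => 1)
  simp only [mul_one] at h1
  rw [h1, ← phb_prod]
  refine Finset.sum_congr rfl fun H _ => ?_
  rw [Finset.prod_ite_zero]
  simp only [Finset.mem_univ, true_imp_iff]
  rfl

/-- weight of the histories through `v` and another point -/
theorem phb_pair {A κ : ℝ} (hκ : 0 ≤ κ) (i : Fin r → Fin k) (v : Fin r → ZW r z)
    (h1 : ∀ (m : Fin r) (j : Fin k) (u : ZW r z),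
      (∑ H : Fin k → ZW r z, if H j = u then wz A m H else 0) ≤ 1 + κ)
    (h2 : ∀ (m : Fin r) (j j' : Fin k) (u u' : ZW r z), j ≠ j' →
      (∑ H : Fin k → ZW r z, if H j = u ∧ H j' = u' then wz A m H else 0) ≤ κ)
    (m0 : Fin r) (j : Fin k) (hj : j ≠ i m0) (u : ZW r z) :
    ∑ H ∈ phb_Hs A i v, phb_w A H * (if H m0 j = u then 1 else 0) ≤ κ * (1 + κ) ^ r := by
  rw [phb_sum]
  have h3 : ∀ H : Fin r → Fin k → ZW r z,
      (if ∀ m, H m (i m) = v m then phb_w A H * (if H m0 j = u then 1 else 0) else 0) =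
      ∏ m, (if H m (i m) = v m ∧ (m = m0 → H m j = u) then wz A m (H m) else 0) := by
    intro H
    rw [Finset.prod_ite_zero]
    simp only [Finset.mem_univ, true_imp_iff]
    by_cases ha : ∀ m, H m (i m) = v m
    · by_cases hb : H m0 j = u
      · rw [if_pos ha, if_pos hb, mul_one, if_pos]
        · rfl
        · intro m
          refine ⟨ha m, ?_⟩
          rintro rfl
          exact hb
      · rw [if_pos ha, if_neg hb, mul_zero, if_neg]
        intro hcon
        exact hb ((hcon m0).2 rfl)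
    · rw [if_neg ha, if_neg]
      intro hcon
      exact ha fun m => (hcon m).1
  simp only [h3]
  rw [phb_prod (fun m h => if h (i m) = v m ∧ (m = m0 → h j = u) then wz A m h else 0)]
  have h4 : ∏ m : Fin r, ((if m = m0 then κ else 1) * (1 + κ)) = κ * (1 + κ) ^ r := by
    rw [Finset.prod_mul_distrib, Finset.prod_ite_eq' Finset.univ m0 (fun _ => κ),
      if_pos (Finset.mem_univ m0), Finset.prod_const, Finset.card_univ, Fintype.card_fin]
  rw [← h4]
  refine Finset.prod_le_prod (fun m _ => Finset.sum_nonneg fun h _ => ?_) fun m _ => ?_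
  · split_ifs
    · exact phb_wz_nonneg A m h
    · exact le_refl 0
  · by_cases hm : m = m0
    · subst hm
      rw [if_pos rfl]
      have h5 := h2 m (i m) j (v m) u hj.symm
      have h6 : (∑ h : Fin k → ZW r z, if h (i m) = v m ∧ (m = m → h j = u) then wz A m h else 0) =
          ∑ H : Fin k → ZW r z, if H (i m) = v m ∧ H j = u then wz A m H else 0 := by
        refine Finset.sum_congr rfl fun h _ => ?_
        simp
      rw [h6]
      nlinarith
    · rw [if_neg hm, one_mul]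
      have h5 := h1 m (i m) (v m)
      have h6 : (∑ h : Fin k → ZW r z, if h (i m) = v m ∧ (m = m0 → h j = u) then wz A m h else 0) =
          ∑ H : Fin k → ZW r z, if H (i m) = v m then wz A m H else 0 := by
        refine Finset.sum_congr rfl fun h _ => ?_
        simp [hm]
      rw [h6]
      exact h5

theorem phb_total_le {A κ : ℝ} (i : Fin r → Fin k) (v : Fin r → ZW r z)
    (h1 : ∀ (m : Fin r) (j : Fin k) (u : ZW r z),
      (∑ H : Fin k → ZW r z, if H j = u then wz A m H else 0) ≤ 1 + κ) :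
    ∑ H ∈ phb_Hs A i v, phb_w A H ≤ (1 + κ) ^ r := by
  rw [phb_total]
  have h2 : ∏ _m : Fin r, (1 + κ) = (1 + κ) ^ r := by
    rw [Finset.prod_const, Finset.card_univ, Fintype.card_fin]
  rw [← h2]
  refine Finset.prod_le_prod (fun m _ => Finset.sum_nonneg fun h _ => ?_) fun m _ => h1 m _ _
  split_ifs
  · exact phb_wz_nonneg A m h
  · exact le_refl 0

theorem phb_total_ge {A κ : ℝ} (hκ : κ ≤ 1) (i : Fin r → Fin k) (v : Fin r → ZW r z)
    (hv : ∀ m, ZTyp A (v m))
    (h1 : ∀ (m : Fin r) (j : Fin k) (u : ZW r z), ZTyp A u →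
      1 - κ ≤ (∑ H : Fin k → ZW r z, if H j = u then wz A m H else 0)) :
    (1 - κ) ^ r ≤ ∑ H ∈ phb_Hs A i v, phb_w A H := by
  rw [phb_total]
  have h2 : ∏ _m : Fin r, (1 - κ) = (1 - κ) ^ r := by
    rw [Finset.prod_const, Finset.card_univ, Fintype.card_fin]
  rw [← h2]
  exact Finset.prod_le_prod (fun m _ => by linarith) fun m _ => h1 m _ _ (hv m)

/-- the index map of a history -/
def phb_i (i : Fin r → Fin k) (H : Fin r → Fin k → ZW r z) (u : Oth i) : Fin r × ZW r z :=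
  (u.1.1, H u.1.1 u.1.2)

/-- two histories with a common index -/
theorem phb_common {A : ℝ} {i : Fin r → Fin k} {v : Fin r → ZW r z}
    {H H' : Fin r → Fin k → ZW r z} (hH : H ∈ phb_Hs A i v) (hH' : H' ∈ phb_Hs A i v)
    (h : ∃ o o', phb_i i H o = phb_i i H' o') : ∃ m, ∃ j, j ≠ i m ∧ H' m j = H m j := by
  obtain ⟨⟨⟨m, j⟩, hj⟩, ⟨⟨m', j'⟩, hj'⟩, he⟩ := h
  unfold phb_i at he
  simp only [Prod.mk.injEq] at he
  obtain ⟨hm, he⟩ := he
  subst hm
  have h1 := (phb_mem.1 hH).1 m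
  have h2 := (phb_mem.1 hH').1 m
  have h3 := vh_inj (phb_vh (phb_mem.1 hH).2 m) (phb_vh (phb_mem.1 hH').2 m) (i m)
    (h1.trans h2.symm) j j' he
  subst h3
  exact ⟨m, j, hj, he.symm⟩

theorem phb_sigma {A κ : ℝ} (hκ : 0 ≤ κ) (i : Fin r → Fin k) (v : Fin r → ZW r z)
    (h1 : ∀ (m : Fin r) (j : Fin k) (u : ZW r z),
      (∑ H : Fin k → ZW r z, if H j = u then wz A m H else 0) ≤ 1 + κ)
    (h2 : ∀ (m : Fin r) (j j' : Fin k) (u u' : ZW r z), j ≠ j' →
      (∑ H : Fin k → ZW r z, if H j = u ∧ H j' = u' then wz A m H else 0) ≤ κ) :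
    (∑ H ∈ phb_Hs A i v, ∑ H' ∈ phb_Hs A i v,
      if ∃ o o', phb_i i H o = phb_i i H' o' then phb_w A H * phb_w A H' else 0) ≤
      r * k * ((1 + κ) ^ r * (κ * (1 + κ) ^ r)) := by
  have h3 : ∀ H ∈ phb_Hs A i v, (∑ H' ∈ phb_Hs A i v,
      if ∃ o o', phb_i i H o = phb_i i H' o' then phb_w A H * phb_w A H' else 0) ≤
      phb_w A H * (r * k * (κ * (1 + κ) ^ r)) := by
    intro H hH
    have h4 : ∀ H' ∈ phb_Hs A i v,
        (if ∃ o o', phb_i i H o = phb_i i H' o' then phb_w A H * phb_w A H' else 0) ≤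
        ∑ m : Fin r, ∑ j ∈ univ.filter (fun j => j ≠ i m),
          phb_w A H * (phb_w A H' * (if H' m j = H m j then 1 else 0)) := by
      intro H' hH'
      have hnn : ∀ (m : Fin r) (j : Fin k),
          0 ≤ phb_w A H * (phb_w A H' * (if H' m j = H m j then (1 : ℝ) else 0)) := by
        intro m j
        refine mul_nonneg (phb_w_nonneg A H) (mul_nonneg (phb_w_nonneg A H') ?_)
        split_ifs
        · exact zero_le_one
        · exact le_refl 0
      split_ifs with he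
      · obtain ⟨m, j, hj, he'⟩ := phb_common hH hH' he
        calc phb_w A H * phb_w A H'
            = phb_w A H * (phb_w A H' * (if H' m j = H m j then (1 : ℝ) else 0)) := by
              rw [if_pos he', mul_one]
          _ ≤ ∑ j ∈ univ.filter (fun j => j ≠ i m),
              phb_w A H * (phb_w A H' * (if H' m j = H m j then (1 : ℝ) else 0)) :=
              Finset.single_le_sum (f := fun j =>
                phb_w A H * (phb_w A H' * (if H' m j = H m j then (1 : ℝ) else 0)))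
                (fun j _ => hnn m j) (Finset.mem_filter.2 ⟨Finset.mem_univ j, hj⟩)
          _ ≤ ∑ m : Fin r, ∑ j ∈ univ.filter (fun j => j ≠ i m),
              phb_w A H * (phb_w A H' * (if H' m j = H m j then (1 : ℝ) else 0)) :=
              Finset.single_le_sum (f := fun m => ∑ j ∈ univ.filter (fun j => j ≠ i m),
                phb_w A H * (phb_w A H' * (if H' m j = H m j then (1 : ℝ) else 0)))
                (fun m _ => Finset.sum_nonneg fun j _ => hnn m j) (Finset.mem_univ m)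
      · exact Finset.sum_nonneg fun m _ => Finset.sum_nonneg fun j _ => hnn m j
    refine (Finset.sum_le_sum h4).trans ?_
    rw [Finset.sum_comm]
    have h5 : ∀ m : Fin r, (∑ H' ∈ phb_Hs A i v, ∑ j ∈ univ.filter (fun j => j ≠ i m),
          phb_w A H * (phb_w A H' * (if H' m j = H m j then (1 : ℝ) else 0))) ≤
        k * (phb_w A H * (κ * (1 + κ) ^ r)) := by
      intro m
      rw [Finset.sum_comm]
      have h6 : ∀ j ∈ univ.filter (fun j => j ≠ i m),
          (∑ H' ∈ phb_Hs A i v,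
            phb_w A H * (phb_w A H' * (if H' m j = H m j then (1 : ℝ) else 0))) ≤
          phb_w A H * (κ * (1 + κ) ^ r) := by
        intro j hj
        rw [← Finset.mul_sum]
        exact mul_le_mul_of_nonneg_left
          (phb_pair hκ i v h1 h2 m j (Finset.mem_filter.1 hj).2 (H m j)) (phb_w_nonneg A H)
      refine (Finset.sum_le_sum h6).trans ?_
      rw [Finset.sum_const, nsmul_eq_mul]
      have h7 : (((univ.filter (fun j => j ≠ i m)).card : ℕ) : ℝ) ≤ k := by
        have h8 := Finset.card_le_univ (univ.filter (fun j => j ≠ i m))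
        rw [Fintype.card_fin] at h8
        exact_mod_cast h8
      refine mul_le_mul_of_nonneg_right h7 (mul_nonneg (phb_w_nonneg A H) ?_)
      positivity
    refine (Finset.sum_le_sum fun m _ => h5 m).trans (le_of_eq ?_)
    rw [Finset.sum_const, Finset.card_univ, Fintype.card_fin, nsmul_eq_mul]
    ring
  refine (Finset.sum_le_sum h3).trans ?_
  rw [← Finset.sum_mul]
  have h4 := phb_total_le (A := A) i v h1
  calc (∑ H ∈ phb_Hs A i v, phb_w A H) * (r * k * (κ * (1 + κ) ^ r))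
      ≤ (1 + κ) ^ r * (r * k * (κ * (1 + κ) ^ r)) := by
        refine mul_le_mul_of_nonneg_right h4 ?_
        positivity
    _ = r * k * ((1 + κ) ^ r * (κ * (1 + κ) ^ r)) := by ring

end

theorem phb_phi {r y z R t k h D D2 : ℕ} {δ B : ℝ} (κ : Ker r k t h D D2 δ B) (A : ℝ)
    (Fn : LF r z R t) (i : Fin r → Fin k) (w : Word r y z R t) :
    Phi κ A Fn i w = ∑ H ∈ phb_Hs A i w.2.1, phb_w A H *
      Psi κ i (join i (fun m => Fn m (w.2.1 m))
        (fun u : Oth i => Fn u.1.1 (H u.1.1 u.1.2))) w.2.2 := by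
  rw [phb_sum]
  unfold Phi
  refine Finset.sum_congr rfl fun H _ => ?_
  by_cases hH : ∀ m, H m (i m) = w.2.1 m
  · rw [if_pos hH, if_pos hH]
    have h1 : (fun m j => Fn m (H m j)) = join i (fun m => Fn m (w.2.1 m))
        (fun u : Oth i => Fn u.1.1 (H u.1.1 u.1.2)) := by
      funext m j
      unfold join
      split_ifs with hj
      · rw [hj, hH m]
      · rfl
    rw [h1]
    rfl
  · rw [if_neg hH, if_neg hH]

theorem phb_small (r k : ℕ) {η s : ℝ} (hη : 0 < η) (hs : 0 < s) :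
    ∃ κ : ℝ, 0 < κ ∧ κ ≤ 1 ∧ 1 - η / 2 ≤ (1 - κ) ^ r ∧
      r * k * ((1 + κ) ^ r * (κ * (1 + κ) ^ r)) ≤ s := by
  have hc1 : Continuous fun κ : ℝ => (1 - κ) ^ r := by fun_prop
  have hc2 : Continuous fun κ : ℝ => (r : ℝ) * k * ((1 + κ) ^ r * (κ * (1 + κ) ^ r)) := by
    fun_prop
  have e1 : ∀ᶠ κ : ℝ in nhds 0, 1 - η / 2 < (1 - κ) ^ r := by
    refine hc1.continuousAt.eventually (lt_mem_nhds ?_)
    simp only [sub_zero, one_pow]
    linarith
  have e2 : ∀ᶠ κ : ℝ in nhds 0, (r : ℝ) * k * ((1 + κ) ^ r * (κ * (1 + κ) ^ r)) < s := by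
    refine hc2.continuousAt.eventually (gt_mem_nhds ?_)
    simpa using hs
  have e3 : ∀ᶠ κ : ℝ in nhds 0, κ < 1 := gt_mem_nhds zero_lt_one
  obtain ⟨ε, hε, hb⟩ := Metric.eventually_nhds_iff.1 (e1.and (e2.and e3))
  have h1 := hb (y := ε / 2) (by
    rw [Real.dist_eq, sub_zero, abs_of_pos (by positivity)]
    linarith)
  exact ⟨ε / 2, by positivity, h1.2.2.le, h1.1.le, h1.2.1.le⟩

theorem phi_prob_pr (r q : ℕ) (hr : 1 ≤ r) (hq : 2 ≤ q) (K η δ B : ℝ) (hK : 0 < K) (hη : 0 < η) :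
    ∃ n0 : ℕ, ∀ n ≥ n0, ∀ t z y h : ℕ, Reg r q K n t z y h →
      ∀ (κ : Ker r (q ^ 14) t h (DA q t) (DB q t) δ B)
        (i : Fin r → Fin (q ^ 14)) (w : Word r y z (q ^ 16) t),
      Typ (q : ℝ) (1 / (q : ℝ) ^ 4) w →
      (∀ c : Fin r → Lab r (q ^ 16) t,
        1 - η ≤ (∑ o : Oth i → Lab r (q ^ 16) t, Psi κ i (join i c o) w.2.2) /
            (Fintype.card (Oth i → Lab r (q ^ 16) t) : ℝ)) →
        ((univ.filter (fun Fn : LF r z (q ^ 16) t =>
          Phi κ (q : ℝ) Fn i w < 1 - 2 * η)).card : ℝ) ≤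
          η / ((2 * q ^ 14 : ℕ) : ℝ) ^ r * (Fintype.card (LF r z (q ^ 16) t) : ℝ) := by
  have hq0 : 0 < q := by omega
  have hqr : (0 : ℝ) < q := by exact_mod_cast hq0
  have hk2 : 2 ≤ q ^ 14 := by
    calc 2 ≤ q := hq
      _ = q ^ 1 := (pow_one q).symm
      _ ≤ q ^ 14 := Nat.pow_le_pow_right hq0 (by norm_num)
  set B1 : ℝ := (max B 1) ^ (r * q ^ 14) with hB1
  have hB10 : 0 < B1 := pow_pos (lt_of_lt_of_le zero_lt_one (le_max_right _ _)) _
  set X : ℝ := ((2 * q ^ 14 : ℕ) : ℝ) ^ r with hX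
  have hX0 : 0 < X := by
    have h' : (0 : ℝ) < ((2 * q ^ 14 : ℕ) : ℝ) := by
      have : 0 < 2 * q ^ 14 := by positivity
      exact_mod_cast this
    positivity
  set s : ℝ := η * (η / 2) ^ 2 / (B1 ^ 2 * X) with hs
  have hs0 : 0 < s := by positivity
  obtain ⟨κ', hκ0, hκ1, hκ2, hκ3⟩ := phb_small r (q ^ 14) hη hs0
  obtain ⟨z0, hz0⟩ := z_bounds r (q ^ 14) hr hk2 q κ' hqr hκ0
  refine ⟨2 * q ^ 4 * (r * z0) + 1, fun n hn t z y h hReg κ i w hTyp hav => ?_⟩
  have hz : z0 ≤ z := by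
    by_contra hcon
    have h1 : z ≤ z0 := (not_le.1 hcon).le
    have h2 := hReg.z_ge
    have h3 : 2 * q ^ 4 * (r * z) ≤ 2 * q ^ 4 * (r * z0) :=
      Nat.mul_le_mul_left _ (Nat.mul_le_mul_left _ h1)
    omega
  have hzb := hz0 z hz
  have hb1 : ∀ (m : Fin r) (j : Fin (q ^ 14)) (u : ZW r z),
      (∑ H : Fin (q ^ 14) → ZW r z, if H j = u then wz (q : ℝ) m H else 0) ≤ 1 + κ' :=
    fun m => (hzb m).1
  have hb2 := fun m : Fin r => (hzb m).2.1
  have hb3 : ∀ (m : Fin r) (j j' : Fin (q ^ 14)) (u u' : ZW r z), j ≠ j' →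
      (∑ H : Fin (q ^ 14) → ZW r z, if H j = u ∧ H j' = u' then wz (q : ℝ) m H else 0) ≤ κ' :=
    fun m => (hzb m).2.2.1
  have hpsi : ∀ (c : Fin r → Lab r (q ^ 16) t) (o : Oth i → Lab r (q ^ 16) t),
      0 ≤ Psi κ i (join i c o) w.2.2 := fun c o => (psi_bd κ i _ _).1
  rcases le_or_gt (1 / 2) η with hη2 | hη2
  · have h0 : (univ.filter (fun Fn : LF r z (q ^ 16) t =>
          Phi κ (q : ℝ) Fn i w < 1 - 2 * η)) = ∅ := by
      refine Finset.filter_eq_empty_iff.2 fun Fn _ => not_lt.2 ?_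
      have : 0 ≤ Phi κ (q : ℝ) Fn i w := by
        rw [phb_phi]
        exact Finset.sum_nonneg fun H _ => mul_nonneg (phb_w_nonneg _ H) (hpsi _ _)
      linarith
    rw [h0, Finset.card_empty, Nat.cast_zero]
    positivity
  have : Nonempty (Lab r (q ^ 16) t) := ⟨(⟨0, by positivity⟩, 1)⟩
  have hsm := second_moment (I := Fin r × ZW r z) (Λ := Lab r (q ^ 16) t) (O := Oth i)
    (Q := Fin r) (X := Fin r → Fin (q ^ 14) → ZW r z) (fun m => (m, w.2.1 m))
    (fun m m' he => congrArg Prod.fst he) (phb_Hs (q : ℝ) i w.2.1) (phb_i i)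
    (fun H hH => by
      rintro ⟨⟨m, j⟩, hj⟩ ⟨⟨m', j'⟩, hj'⟩ he
      unfold phb_i at he
      simp only [Prod.mk.injEq] at he
      obtain ⟨hm, he⟩ := he
      subst hm
      have h3 := vh_inj (phb_vh (phb_mem.1 hH).2 m) (phb_vh (phb_mem.1 hH).2 m) (i m)
        rfl j j' he
      subst h3
      rfl)
    (fun H hH => by
      rintro ⟨⟨m, j⟩, hj⟩ m' he
      unfold phb_i at he
      simp only [Prod.mk.injEq] at he
      obtain ⟨hm, he⟩ := he
      subst hm
      have h1 := (phb_mem.1 hH).1 m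
      have h3 := vh_inj (phb_vh (phb_mem.1 hH).2 m) (phb_vh (phb_mem.1 hH).2 m) (i m)
        rfl j (i m) (he.trans h1.symm)
      exact hj h3)
    (phb_w (q : ℝ)) (fun H _ => phb_w_nonneg _ H)
    (fun c o => Psi κ i (join i c o) w.2.2) B1 (1 - η) s (η / 2) hpsi
    (fun c o => by
      refine (psi_bd κ i _ _).2.trans ?_
      have h1 : 0 ≤ B := le_trans zero_le_one κ.oneB
      exact pow_le_pow_left₀ h1 (le_max_left _ _) _)
    hav
    (by
      refine le_trans ?_ ((phb_sigma hκ0.le i w.2.1 hb1 hb3).trans ?_)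
      · refine Finset.sum_le_sum fun H _ => Finset.sum_le_sum fun H' _ => ?_
        by_cases he : ∃ o o', phb_i i H o = phb_i i H' o'
        · rw [if_pos he]
        · rw [if_neg he]
      · exact_mod_cast hκ3)
    (by positivity)
  -- comparison of the two events
  have hω : 1 - η / 2 ≤ ∑ H ∈ phb_Hs (q : ℝ) i w.2.1, phb_w (q : ℝ) H :=
    hκ2.trans (phb_total_ge hκ1 i w.2.1 hTyp.2.1 hb2)
  have hcard : ((univ.filter (fun Fn : LF r z (q ^ 16) t =>
          Phi κ (q : ℝ) Fn i w < 1 - 2 * η)).card : ℝ) ≤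
      ((univ.filter (fun F : Fin r × ZW r z → Lab r (q ^ 16) t =>
        (∑ H ∈ phb_Hs (q : ℝ) i w.2.1, phb_w (q : ℝ) H *
          Psi κ i (join i (F ∘ fun m => (m, w.2.1 m)) (F ∘ phb_i i H)) w.2.2) <
          (∑ H ∈ phb_Hs (q : ℝ) i w.2.1, phb_w (q : ℝ) H) * (1 - η) - η / 2)).card : ℝ) := by
    refine Nat.cast_le.2 (Finset.card_le_card_of_injOn
      (fun (Fn : LF r z (q ^ 16) t) (p : Fin r × ZW r z) => Fn p.1 p.2) ?_ ?_)
    · intro Fn hFn
      have hFn' := (Finset.mem_filter.1 (Finset.mem_coe.1 hFn)).2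
      refine Finset.mem_coe.2 (Finset.mem_filter.2 ⟨Finset.mem_univ _, ?_⟩)
      have h1 : (∑ H ∈ phb_Hs (q : ℝ) i w.2.1, phb_w (q : ℝ) H *
          Psi κ i (join i ((fun p : Fin r × ZW r z => Fn p.1 p.2) ∘ fun m => (m, w.2.1 m))
            ((fun p : Fin r × ZW r z => Fn p.1 p.2) ∘ phb_i i H)) w.2.2) =
          Phi κ (q : ℝ) Fn i w := by
        rw [phb_phi]
        rfl
      rw [h1]
      refine hFn'.trans_le ?_
      nlinarith
    · intro Fn _ Fn' _ he
      funext m u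
      exact congrFun he (m, u)
  have hcardL : Fintype.card (Fin r × ZW r z → Lab r (q ^ 16) t) =
      Fintype.card (LF r z (q ^ 16) t) :=
    Fintype.card_congr (Equiv.curry (Fin r) (ZW r z) (Lab r (q ^ 16) t))
  rw [hcardL] at hsm
  have hη4 : 0 < (η / 2) ^ 2 := by positivity
  have h1 : (η / 2) ^ 2 * ((univ.filter (fun Fn : LF r z (q ^ 16) t =>
          Phi κ (q : ℝ) Fn i w < 1 - 2 * η)).card : ℝ) ≤
      B1 ^ 2 * s * (Fintype.card (LF r z (q ^ 16) t) : ℝ) := by
    refine (mul_le_mul_of_nonneg_left (hcard.trans ?_) hη4.le).trans hsm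
    refine Nat.cast_le.2 (Finset.card_le_card fun F hF => ?_)
    rw [Finset.mem_filter] at hF ⊢
    exact hF
  have h2 : B1 ^ 2 * s = (η / 2) ^ 2 * (η / X) := by
    rw [hs]
    field_simp
  rw [h2, mul_assoc] at h1
  exact le_of_mul_le_mul_left h1 hη4


end Pool.Agent.Lib_helper46.CC

namespace Pool.Agent.Lib_helper46.CC

alias phi_prob := phi_prob_pr

end Pool.Agent.Lib_helper46.CC
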