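import Mathlib
import Pool.Agent.Lib_helper46.CCF.WBase
import Pool.Agent.Lib_helper46.CCF.TAG
import Pool.Agent.Lib_helper46.CCF.PAV
import Pool.Agent.Lib_helper46.CCF.MMX
import Pool.Agent.Lib_helper46.CCF.NIC

/-! Block VBD, written by helper95. -/

/-!
# MP_10b4aa_co: blocks VBD and NCP
-/

set_option autoImplicit false

namespace Pool.Agent.Lib_helper46.CC

open Finset Pool.Agent.Lib_helper70.Chains Filter Topology
open scoped Classical

/-! ### marginals -/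

theorem vbd_marg {I X : Type*} [Fintype I] [DecidableEq I] [Fintype X] (i0 : I) (E : X → Prop)
    (ρ : ℝ) (h : ((univ.filter (fun x : X => E x)).card : ℝ) ≤ ρ * (Fintype.card X : ℝ)) :
    ((univ.filter (fun f : I → X => E (f i0))).card : ℝ) ≤
      ρ * (Fintype.card (I → X) : ℝ) := by
  let A : I → Finset X := fun i => if i = i0 then univ.filter (fun x : X => E x) else univ
  have h1 : (univ.filter (fun f : I → X => E (f i0))) = Fintype.piFinset A := by
    ext f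
    rw [Finset.mem_filter, Fintype.mem_piFinset]
    constructor
    · rintro ⟨_, hf⟩ i
      by_cases hi : i = i0
      · subst hi
        simp only [A, if_true]
        exact Finset.mem_filter.2 ⟨Finset.mem_univ _, hf⟩
      · simp only [A, if_neg hi]
        exact Finset.mem_univ _
    · intro hf
      have := hf i0
      simp only [A, if_true] at this
      exact ⟨Finset.mem_univ _, (Finset.mem_filter.1 this).2⟩
  rw [h1, Fintype.card_piFinset, ← Finset.mul_prod_erase univ _ (Finset.mem_univ i0)]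
  have h2 : ∏ i ∈ univ.erase i0, (A i).card = ∏ _i ∈ univ.erase i0, Fintype.card X := by
    refine Finset.prod_congr rfl fun i hi => ?_
    simp only [A, if_neg (Finset.ne_of_mem_erase hi)]
    exact Finset.card_univ
  have h3 : Fintype.card (I → X) = Fintype.card X * ∏ _i ∈ univ.erase i0, Fintype.card X := by
    rw [Finset.mul_prod_erase univ (fun _ => Fintype.card X) (Finset.mem_univ i0),
      Finset.prod_const, Finset.card_univ, Fintype.card_fun]
  have h4 : (A i0) = univ.filter (fun x : X => E x) := by simp [A]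
  rw [h2, h3, h4, Nat.cast_mul, Nat.cast_mul, ← mul_assoc]
  exact mul_le_mul_of_nonneg_right h (Nat.cast_nonneg _)

theorem vbd_prod {I X : Type*} [Fintype I] [Fintype X] (E : I → X → Prop) (ρ : ℝ)
    (h : ∀ i, ((univ.filter (fun x : X => E i x)).card : ℝ) ≤ ρ * (Fintype.card X : ℝ)) :
    ((univ.filter (fun f : I × X => E f.1 f.2)).card : ℝ) ≤
      ρ * (Fintype.card (I × X) : ℝ) := by
  have h1 : (univ.filter (fun f : I × X => E f.1 f.2)).card =
      ∑ i : I, (univ.filter (fun x : X => E i x)).card := by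
    simp only [Finset.card_filter]
    exact Fintype.sum_prod_type _
  rw [h1]
  push_cast
  calc ∑ i : I, ((univ.filter (fun x : X => E i x)).card : ℝ) ≤
        ∑ _i : I, ρ * (Fintype.card X : ℝ) := Finset.sum_le_sum fun i _ => h i
    _ = _ := by
      rw [Finset.sum_const, Finset.card_univ, nsmul_eq_mul, Fintype.card_prod]
      push_cast
      ring

theorem vbd_equiv {I X : Type*} [Fintype I] [Fintype X] (e : I ≃ X) (E : X → Prop) (ρ : ℝ)
    (h : ((univ.filter (fun x : X => E x)).card : ℝ) ≤ ρ * (Fintype.card X : ℝ)) :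
    ((univ.filter (fun i : I => E (e i))).card : ℝ) ≤ ρ * (Fintype.card I : ℝ) := by
  rw [Fintype.card_congr e]
  have h1 : (univ.filter (fun i : I => E (e i))).card =
      (univ.filter (fun x : X => E x)).card := by
    apply Finset.card_equiv e
    intro i
    simp
  rw [h1]
  exact h

theorem vbd_row {r t : ℕ} (j0 : Fin (r + 1)) (E : (Fin t → Fin (r + 1)) → Prop) (ρ : ℝ)
    (h : ((univ.filter (fun u : Fin t → Fin (r + 1) => E u)).card : ℝ) ≤
      ρ * (Fintype.card (Fin t → Fin (r + 1)) : ℝ)) :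
    ((univ.filter (fun b : PW r t => E (fun x => b (j0, x)))).card : ℝ) ≤
      ρ * (Fintype.card (PW r t) : ℝ) :=
  vbd_equiv (Equiv.curry (Fin (r + 1)) (Fin t) (Fin (r + 1))) (fun g => E (g j0)) ρ
    (vbd_marg j0 E ρ h)

theorem vbd_union {X J : Type*} [Fintype X] [Fintype J] (E : J → X → Prop) (ρ : ℝ)
    (h : ∀ j, ((univ.filter (fun x : X => E j x)).card : ℝ) ≤ ρ) :
    ((univ.filter (fun x : X => ∃ j, E j x)).card : ℝ) ≤ Fintype.card J * ρ := by
  have h1 : (univ.filter (fun x : X => ∃ j, E j x)) ⊆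
      univ.biUnion (fun j : J => univ.filter (fun x : X => E j x)) := by
    intro x hx
    obtain ⟨j, hj⟩ := (Finset.mem_filter.1 hx).2
    exact Finset.mem_biUnion.2 ⟨j, Finset.mem_univ _, Finset.mem_filter.2 ⟨Finset.mem_univ _, hj⟩⟩
  have h2 := (Finset.card_le_card h1).trans Finset.card_biUnion_le
  calc ((univ.filter (fun x : X => ∃ j, E j x)).card : ℝ) ≤
        ((∑ j : J, (univ.filter (fun x : X => E j x)).card : ℕ) : ℝ) := by exact_mod_cast h2
    _ ≤ ∑ _j : J, ρ := by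
      push_cast
      exact Finset.sum_le_sum fun j _ => h j
    _ = _ := by rw [Finset.sum_const, Finset.card_univ, nsmul_eq_mul]

/-! ### parameters -/

theorem vbd_reg {r q n t z y h : ℕ} {K : ℝ} (hq : 2 ≤ q) (hR : Reg r q K n t z y h) :
    n ≤ 2 * q ^ 16 * (r + 1) * t := by
  have h1 := hR.sum
  have h2 := hR.y_le
  have h3 := hR.z_le
  have h4 : 16 ≤ q ^ 4 := by
    calc 16 = 2 ^ 4 := by norm_num
      _ ≤ q ^ 4 := Nat.pow_le_pow_left hq 4
  have h5 : 16 * y ≤ q ^ 4 * y := Nat.mul_le_mul_right _ h4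
  have h6 : 16 * (r * z) ≤ q ^ 4 * (r * z) := Nat.mul_le_mul_right _ h4
  have h7 : 2 * q ^ 16 * (r + 1) * t = 2 * (q ^ 16 * ((r + 1) * t)) := by ring
  rw [h7]
  generalize q ^ 16 * ((r + 1) * t) = A at *
  generalize q ^ 4 * y = B at *
  generalize q ^ 4 * (r * z) = C at *
  generalize r * z = D at *
  omega

theorem vbd_t (r q T0 : ℕ) (K : ℝ) (hq : 2 ≤ q) : ∃ n0 : ℕ, ∀ n ≥ n0, ∀ t z y h : ℕ,
    Reg r q K n t z y h → T0 ≤ t := by
  refine ⟨2 * q ^ 16 * (r + 1) * T0, fun n hn t z y h hR => ?_⟩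
  have h1 := hn.trans (vbd_reg hq hR)
  have h2 : 0 < 2 * q ^ 16 * (r + 1) := by positivity
  exact Nat.le_of_mul_le_mul_left h1 h2

theorem vbd_h {r q n t z y h : ℕ} {K : ℝ} (hK : 0 < K) (hq : 2 ≤ q) (hR : Reg r q K n t z y h) :
    (h : ℝ) ≤ K * Real.sqrt (2 * ((r : ℝ) + 1)) * Real.sqrt t + 1 := by
  have hq0 : (0 : ℝ) < q := by
    have : 0 < q := by omega
    exact_mod_cast this
  have hq1 : (1 : ℝ) ≤ q := by
    have : 1 ≤ q := by omega
    exact_mod_cast this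
  have h1 : (n : ℝ) ≤ (q : ℝ) ^ 16 * (2 * ((r : ℝ) + 1) * t) := by
    have : (n : ℝ) ≤ ((2 * q ^ 16 * (r + 1) * t : ℕ) : ℝ) := by exact_mod_cast vbd_reg hq hR
    push_cast at this
    linarith
  have h2 : Real.sqrt n ≤ (q : ℝ) ^ 8 * (Real.sqrt (2 * ((r : ℝ) + 1)) * Real.sqrt t) := by
    calc Real.sqrt n ≤ Real.sqrt ((q : ℝ) ^ 16 * (2 * ((r : ℝ) + 1) * t)) := Real.sqrt_le_sqrt h1
      _ = _ := by
        rw [Real.sqrt_mul (by positivity), show (q : ℝ) ^ 16 = ((q : ℝ) ^ 8) ^ 2 by ring,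
          Real.sqrt_sq (by positivity), Real.sqrt_mul (by positivity)]
  have h3 : (q : ℝ) ^ 8 ≤ (q : ℝ) ^ 14 := pow_le_pow_right₀ hq1 (by norm_num)
  have h4 : (0 : ℝ) ≤ Real.sqrt (2 * ((r : ℝ) + 1)) * Real.sqrt t := by positivity
  have h5 : K * Real.sqrt n ≤
      (q : ℝ) ^ 14 * (K * (Real.sqrt (2 * ((r : ℝ) + 1)) * Real.sqrt t)) := by
    calc K * Real.sqrt n ≤ K * ((q : ℝ) ^ 14 * (Real.sqrt (2 * ((r : ℝ) + 1)) * Real.sqrt t)) :=
          mul_le_mul_of_nonneg_left (h2.trans (mul_le_mul_of_nonneg_right h3 h4)) hK.le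
      _ = _ := by ring
  have h6 := hR.h_le
  have h7 : (q : ℝ) ^ 14 * h ≤ (q : ℝ) ^ 14 *
      (K * Real.sqrt (2 * ((r : ℝ) + 1)) * Real.sqrt t + 1) := by
    calc (q : ℝ) ^ 14 * h ≤ K * Real.sqrt n + (q : ℝ) ^ 14 := h6
      _ ≤ (q : ℝ) ^ 14 * (K * (Real.sqrt (2 * ((r : ℝ) + 1)) * Real.sqrt t)) +
          (q : ℝ) ^ 14 := by linarith
      _ = _ := by ring
  exact le_of_mul_le_mul_left h7 (by positivity)

/-! ### letters in a row -/

theorem vbd_sr {r t : ℕ} (b : PW r t) (m : Fin r) : (Sr b m).card =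
    (univ.filter (fun x : Fin t => b (m.castSucc, x) = m.castSucc)).card := by
  unfold Sr
  congr 1
  ext x
  simp only [Finset.mem_filter, Finset.mem_univ, true_and]
  rw [Fin.ext_iff]
  rfl

theorem vbd_tr {r t : ℕ} (b : PW r t) (m : Fin r) : (Tr b m).card =
    (univ.filter (fun x : Fin t => b (m.castSucc, x) = m.castSucc)).card +
    (univ.filter (fun x : Fin t => b (m.castSucc, x) = m.succ)).card := by
  rw [← Finset.card_union_of_disjoint]
  · unfold Tr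
    congr 1
    ext x
    simp only [Finset.mem_filter, Finset.mem_univ, true_and, Finset.mem_union]
    rw [Fin.ext_iff, Fin.ext_iff]
    simp
  · rw [Finset.disjoint_left]
    intro x hx hx'
    have h1 := (Finset.mem_filter.1 hx).2
    have h2 := (Finset.mem_filter.1 hx').2
    rw [h1, Fin.ext_iff] at h2
    simp at h2

/-- the row `u` has a wrong number of letters `j` -/
def vbd_bad {r t : ℕ} (j : Fin (r + 1)) (u : Fin t → Fin (r + 1)) : Prop :=
  (t : ℝ) / (4 * ((r : ℝ) + 1)) <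
    |((univ.filter (fun x : Fin t => u x = j)).card : ℝ) - (t : ℝ) / ((r : ℝ) + 1)|

theorem vbd_tail {r t : ℕ} (hr : 1 ≤ r) (j : Fin (r + 1)) :
    ((univ.filter (fun u : Fin t → Fin (r + 1) => vbd_bad j u)).card : ℝ) ≤
      2 * Real.exp (-((t : ℝ) / (64 * ((r : ℝ) + 1) ^ 2))) *
        (Fintype.card (Fin t → Fin (r + 1)) : ℝ) := by
  have hr0 : (0 : ℝ) < (r : ℝ) + 1 := by positivity
  have hr1 : (1 : ℝ) ≤ (r : ℝ) := by exact_mod_cast hr
  let φ : Fin (r + 1) → ℝ := fun l => (if l = j then 1 else 0) - 1 / ((r : ℝ) + 1)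
  have h0 : ∑ l, φ l = 0 := by
    simp only [φ, Finset.sum_sub_distrib, Finset.sum_ite_eq', Finset.mem_univ, if_true,
      Finset.sum_const, Finset.card_univ, Fintype.card_fin, nsmul_eq_mul]
    push_cast
    field_simp
    ring
  have h1 : ∀ l, |φ l| ≤ 1 := by
    intro l
    have h2 : 1 / ((r : ℝ) + 1) ≤ 1 := by
      rw [div_le_one hr0]
      linarith
    have h3 : 0 ≤ 1 / ((r : ℝ) + 1) := by positivity
    simp only [φ]
    rw [abs_le]
    split_ifs <;> constructor <;> linarith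
  have h2 := tail (ι := Fin t) φ h0 h1 (Real.sqrt t / (4 * ((r : ℝ) + 1))) (by positivity)
  have hcard : (Fintype.card (Fin t → Fin (r + 1)) : ℝ) =
      ((r : ℝ) + 1) ^ Fintype.card (Fin t) := by
    rw [Fintype.card_fun, Fintype.card_fin, Fintype.card_fin]
    push_cast
    rfl
  rw [hcard]
  have hA : -(Real.sqrt t / (4 * ((r : ℝ) + 1))) ^ 2 / 4 =
      -((t : ℝ) / (64 * ((r : ℝ) + 1) ^ 2)) := by
    rw [div_pow, Real.sq_sqrt (Nat.cast_nonneg _)]
    field_simp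
    ring
  rw [hA] at h2
  refine le_trans ?_ h2
  have hsub : (univ.filter (fun u : Fin t → Fin (r + 1) => vbd_bad j u)) ⊆
      univ.filter (fun u : Fin t → Fin (r + 1) =>
        Real.sqrt t / (4 * ((r : ℝ) + 1)) * Real.sqrt (Fintype.card (Fin t)) <
          |∑ x, φ (u x)|) := by
    intro u hu
    have hu1 := (Finset.mem_filter.1 hu).2
    refine Finset.mem_filter.2 ⟨Finset.mem_univ _, ?_⟩
    rw [Fintype.card_fin]
    have h3 : Real.sqrt t / (4 * ((r : ℝ) + 1)) * Real.sqrt t = t / (4 * ((r : ℝ) + 1)) := by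
      rw [div_mul_eq_mul_div, Real.mul_self_sqrt (Nat.cast_nonneg _)]
    have h4 : ∑ x, φ (u x) = ((univ.filter (fun x : Fin t => u x = j)).card : ℝ) -
        (t : ℝ) / ((r : ℝ) + 1) := by
      simp only [φ, Finset.sum_sub_distrib, Finset.sum_const, Finset.card_univ,
        Fintype.card_fin, nsmul_eq_mul]
      rw [Finset.card_filter]
      push_cast
      ring
    rw [h3, h4]
    exact hu1
  exact_mod_cast Finset.card_le_card hsub

theorem vbd_ok {r t h al τ : ℕ} {b : PW r t} {m : Fin r}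
    (h1 : ¬ vbd_bad m.castSucc (fun x => b (m.castSucc, x)))
    (h2 : ¬ vbd_bad m.succ (fun x => b (m.castSucc, x)))
    (h3 : 8 * (h : ℝ) ≤ (t : ℝ) / ((r : ℝ) + 1)) (hτ : τ ≤ 2 * h)
    (hal : al = (Sr b m).card - τ) : Okk r t h (Tr b m) al := by
  unfold vbd_bad at h1 h2
  rw [not_lt] at h1 h2
  have hr0 : (0 : ℝ) < (r : ℝ) + 1 := by positivity
  rw [vbd_sr] at hal
  unfold Okk
  rw [vbd_tr]
  set N0 := (univ.filter (fun x : Fin t => b (m.castSucc, x) = m.castSucc)).card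
  set N1 := (univ.filter (fun x : Fin t => b (m.castSucc, x) = m.succ)).card
  set μ : ℝ := (t : ℝ) / ((r : ℝ) + 1) with hμ
  have h4 : (t : ℝ) / (4 * ((r : ℝ) + 1)) = μ / 4 := by
    rw [hμ]
    field_simp
  rw [h4, abs_le] at h1 h2
  have ht : (t : ℝ) = μ * ((r : ℝ) + 1) := by
    rw [hμ]
    field_simp
  have hh : (0 : ℝ) ≤ h := Nat.cast_nonneg _
  have hμ0 : 0 ≤ μ := by linarith
  have hτ' : (τ : ℝ) ≤ 2 * h := by exact_mod_cast hτ
  have hN0 : τ ≤ N0 := by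
    have : (τ : ℝ) ≤ N0 := by linarith
    exact_mod_cast this
  have hal' : (al : ℝ) = (N0 : ℝ) - τ := by
    rw [hal, Nat.cast_sub hN0]
  have hτ0 : (0 : ℝ) ≤ τ := Nat.cast_nonneg _
  refine ⟨?_, ?_, ?_⟩
  · have h5 : (t : ℝ) ≤ ((r : ℝ) + 1) * ((N0 : ℝ) + N1) := by
      rw [ht]
      have h6 : μ ≤ (N0 : ℝ) + N1 := by linarith
      nlinarith
    exact_mod_cast h5
  · have h5 : (N0 : ℝ) + N1 ≤ 4 * al := by
      rw [hal']
      linarith
    exact_mod_cast h5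
  · have h5 : 4 * ((al : ℝ) + 2 * h) ≤ 3 * ((N0 : ℝ) + N1) := by
      rw [hal']
      linarith
    exact_mod_cast h5

theorem vbd_card (r y z R t : ℕ) : Fintype.card (Word r y z R t) =
    (r + 1) ^ (y + r * z + R * ((r + 1) * t)) := by
  simp only [Fintype.card_prod, Fintype.card_fun, Fintype.card_fin]
  rw [pow_add, pow_add, ← pow_mul, ← pow_mul, mul_comm z r, mul_comm ((r + 1) * t) R, mul_assoc]

/-- bad words for the coordinate `m` and the letter `j` -/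
theorem vbd_frac {r y z R t : ℕ} (hr : 1 ≤ r) (Fn : LF r z R t) (m : Fin r) (j : Fin (r + 1)) :
    ((univ.filter (fun w : Word r y z R t =>
      vbd_bad j (fun x => lw Fn w (cur Fn w m).1 (m.castSucc, x)))).card : ℝ) ≤
      2 * Real.exp (-((t : ℝ) / (64 * ((r : ℝ) + 1) ^ 2))) *
        (Fintype.card (Word r y z R t) : ℝ) := by
  refine vbd_prod (I := Fin y → Fin (r + 1)) (X := (Fin r → ZW r z) × (Fin R → PW r t))
    (fun a bv => vbd_bad j (fun x => lw Fn ((a, bv) : Word r y z R t)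
      (cur Fn ((a, bv) : Word r y z R t) m).1 (m.castSucc, x))) _ fun a => ?_
  refine vbd_prod (I := Fin r → ZW r z) (X := Fin R → PW r t)
    (fun b v => vbd_bad j (fun x => lw Fn ((a, (b, v)) : Word r y z R t)
      (cur Fn ((a, (b, v)) : Word r y z R t) m).1 (m.castSucc, x))) _ fun b => ?_
  set p : Fin R := (Fn m (b m)).1 with hp
  set σ : Equiv.Perm (Pos r t) := frs (fun m' => Fn m' (b m')) p with hσ
  have h1 := vbd_marg (X := PW r t) p
    (fun b' : PW r t => vbd_bad j (fun x => (b' ∘ σ) (m.castSucc, x)))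
    (2 * Real.exp (-((t : ℝ) / (64 * ((r : ℝ) + 1) ^ 2))))
    (vbd_equiv (Equiv.arrowCongr σ.symm (Equiv.refl (Fin (r + 1))))
      (fun b' : PW r t => vbd_bad j (fun x => b' (m.castSucc, x))) _
      (vbd_row m.castSucc (vbd_bad j) _ (vbd_tail hr j)))
  exact h1

theorem vbd_lim (r : ℕ) (a A η : ℝ) (ha : 0 < a) (hη : 0 < η) :
    ∃ T1 : ℕ, ∀ t ≥ T1, A * ((t : ℝ) ^ r * Real.exp (-(a * t))) ≤ η := by
  have h1 := (Real.tendsto_pow_mul_exp_neg_atTop_nhds_zero r).comp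
    ((tendsto_natCast_atTop_atTop (R := ℝ)).const_mul_atTop ha)
  have h2 := h1.const_mul (A / a ^ r)
  rw [mul_zero] at h2
  obtain ⟨T1, hT1⟩ := Filter.eventually_atTop.1 (h2.eventually (ge_mem_nhds hη))
  refine ⟨T1, fun t ht => ?_⟩
  have h3 := hT1 t ht
  refine le_trans (le_of_eq ?_) h3
  simp only [Function.comp_apply]
  rw [mul_pow]
  have : a ^ r ≠ 0 := pow_ne_zero _ ha.ne'
  field_simp

/-- Block VBD: few words in the box are not admissible -/
theorem vbad_pr (r : ℕ) (hr : 1 ≤ r) (K η : ℝ) (hK : 0 < K) (hη : 0 < η) :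
    ∃ q0 : ℕ, ∀ q ≥ q0, ∃ n0 : ℕ, ∀ n ≥ n0, ∀ t z y h : ℕ, Reg r q K n t z y h →
      ∀ Fn : LF r z (q ^ 16) t,
        ((univ.filter (fun w : Word r y z (q ^ 16) t => ∃ i : Fin r → Fin (q ^ 14),
          InC (F0 r q n h) h i w ∧ ¬ OkW (F0 r q n h) h Fn i w)).card : ℝ) ≤
          η * maxMultinomial n r := by
  refine ⟨2, fun q hq => ?_⟩
  obtain ⟨c, hc, n1, hmax⟩ := max_lower r hr
  set a : ℝ := 1 / (64 * ((r : ℝ) + 1) ^ 2) with ha
  have ha0 : 0 < a := by positivity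
  set C1 : ℝ := 2 * (q : ℝ) ^ 16 * ((r : ℝ) + 1) with hC1
  obtain ⟨T1, hT1⟩ := vbd_lim r a ((r : ℝ) * ((r : ℝ) + 1) * 2 * C1 ^ r) (η * c) ha0
    (mul_pos hη hc)
  set s : ℝ := 8 * ((r : ℝ) + 1) * (K * Real.sqrt (2 * ((r : ℝ) + 1)) + 1) with hs
  obtain ⟨n2, hn2⟩ := vbd_t r q (max T1 ⌈s ^ 2⌉₊ + 1) K hq
  refine ⟨max n1 n2 + 1, fun n hn t z y h hR Fn => ?_⟩
  have hn1 : n1 ≤ n := by omega
  have hn2' : n2 ≤ n := by omega
  have htT := hn2 n hn2' t z y h hR
  have ht1 : T1 ≤ t := by omega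
  have ht2 : ⌈s ^ 2⌉₊ ≤ t := by omega
  have ht0 : 1 ≤ t := by omega
  have hr0 : (0 : ℝ) < (r : ℝ) + 1 := by positivity
  have hst : s ≤ Real.sqrt t :=
    Real.le_sqrt_of_sq_le ((Nat.le_ceil _).trans (by exact_mod_cast ht2))
  have hst1 : 1 ≤ Real.sqrt t := Real.one_le_sqrt.2 (by exact_mod_cast ht0)
  have hss : Real.sqrt t * Real.sqrt t = t := Real.mul_self_sqrt (Nat.cast_nonneg _)
  have hh : 8 * (h : ℝ) ≤ (t : ℝ) / ((r : ℝ) + 1) := by
    have h1 := vbd_h hK hq hR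
    rw [le_div_iff₀ hr0]
    have h2 : K * Real.sqrt (2 * ((r : ℝ) + 1)) * Real.sqrt t + 1 ≤
        (K * Real.sqrt (2 * ((r : ℝ) + 1)) + 1) * Real.sqrt t := by
      rw [add_mul, one_mul]
      linarith
    calc 8 * (h : ℝ) * ((r : ℝ) + 1) ≤
          8 * ((K * Real.sqrt (2 * ((r : ℝ) + 1)) + 1) * Real.sqrt t) * ((r : ℝ) + 1) := by
          gcongr
          exact h1.trans h2
      _ = s * Real.sqrt t := by
          rw [hs]
          ring
      _ ≤ Real.sqrt t * Real.sqrt t := mul_le_mul_of_nonneg_right hst (Real.sqrt_nonneg _)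
      _ = t := hss
  -- the bad words
  have hsub : (univ.filter (fun w : Word r y z (q ^ 16) t => ∃ i : Fin r → Fin (q ^ 14),
      InC (F0 r q n h) h i w ∧ ¬ OkW (F0 r q n h) h Fn i w)) ⊆
      univ.filter (fun w : Word r y z (q ^ 16) t => ∃ mj : Fin r × Fin (r + 1),
        vbd_bad mj.2 (fun x => lw Fn w (cur Fn w mj.1).1 (mj.1.castSucc, x))) := by
    intro w hw
    obtain ⟨i, hi, hok⟩ := (Finset.mem_filter.1 hw).2
    refine Finset.mem_filter.2 ⟨Finset.mem_univ _, ?_⟩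
    by_contra hcon
    apply hok
    intro m
    have hc1 : ¬ vbd_bad m.castSucc (fun x => lw Fn w (cur Fn w m).1 (m.castSucc, x)) :=
      fun hb => hcon ⟨(m, m.castSucc), hb⟩
    have hc2 : ¬ vbd_bad m.succ (fun x => lw Fn w (cur Fn w m).1 (m.castSucc, x)) :=
      fun hb => hcon ⟨(m, m.succ), hb⟩
    have hi2 := (hi m).2
    exact vbd_ok (τ := typ w m - bot (F0 r q n h) h i m) hc1 hc2 hh (by omega) rfl
  have h1 := vbd_union (X := Word r y z (q ^ 16) t)
    (fun (mj : Fin r × Fin (r + 1)) w =>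
      vbd_bad mj.2 (fun x => lw Fn w (cur Fn w mj.1).1 (mj.1.castSucc, x))) _
    (fun mj => vbd_frac hr Fn mj.1 mj.2)
  have h2 : ((univ.filter (fun w : Word r y z (q ^ 16) t => ∃ i : Fin r → Fin (q ^ 14),
      InC (F0 r q n h) h i w ∧ ¬ OkW (F0 r q n h) h Fn i w)).card : ℝ) ≤ _ :=
    (Nat.cast_le.2 (Finset.card_le_card hsub)).trans h1
  refine h2.trans ?_
  rw [vbd_card, ← hR.sum, Fintype.card_prod, Fintype.card_fin, Fintype.card_fin]
  push_cast
  have hM := hmax n hn1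
  have hnt : (n : ℝ) ≤ C1 * t := by
    have : (n : ℝ) ≤ ((2 * q ^ 16 * (r + 1) * t : ℕ) : ℝ) := by exact_mod_cast vbd_reg hq hR
    push_cast at this
    rw [hC1]
    linarith
  have hn0 : 1 ≤ (n : ℝ) := by
    have : 1 ≤ n := by omega
    exact_mod_cast this
  have hsn : Real.sqrt n ≤ C1 * t := by
    refine le_trans ?_ hnt
    rw [Real.sqrt_le_left (by linarith)]
    nlinarith
  have hsn0 : 0 < Real.sqrt n := Real.sqrt_pos.2 (by linarith)
  have hP : (0 : ℝ) < ((r : ℝ) + 1) ^ n := by positivity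
  have hfin := hT1 t ht1
  have hexp : Real.exp (-((t : ℝ) / (64 * ((r : ℝ) + 1) ^ 2))) = Real.exp (-(a * t)) := by
    congr 1
    rw [ha]
    ring
  rw [hexp]
  have h3 : ((r : ℝ) * ((r : ℝ) + 1)) * (2 * Real.exp (-(a * t))) * Real.sqrt n ^ r ≤ η * c := by
    calc ((r : ℝ) * ((r : ℝ) + 1)) * (2 * Real.exp (-(a * t))) * Real.sqrt n ^ r ≤
          ((r : ℝ) * ((r : ℝ) + 1)) * (2 * Real.exp (-(a * t))) * (C1 * t) ^ r := by
          gcongr
      _ = (r : ℝ) * ((r : ℝ) + 1) * 2 * C1 ^ r * ((t : ℝ) ^ r * Real.exp (-(a * t))) := by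
          rw [mul_pow]
          ring
      _ ≤ η * c := hfin
  calc (r : ℝ) * ((r : ℝ) + 1) * (2 * Real.exp (-(a * t)) * ((r : ℝ) + 1) ^ n) =
        (((r : ℝ) * ((r : ℝ) + 1)) * (2 * Real.exp (-(a * t))) * Real.sqrt n ^ r) *
          (((r : ℝ) + 1) ^ n / Real.sqrt n ^ r) := by
        field_simp
    _ ≤ (η * c) * (((r : ℝ) + 1) ^ n / Real.sqrt n ^ r) :=
        mul_le_mul_of_nonneg_right h3 (by positivity)
    _ = η * (c * ((r : ℝ) + 1) ^ n / Real.sqrt n ^ r) := by ring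
    _ ≤ η * maxMultinomial n r := mul_le_mul_of_nonneg_left hM hη.le

/-! ### NCP -/

/-- the label `l` produces a word which is not nice in row `m` -/
def ncp_bad {r R t : ℕ} (D' : ℕ) (w : Fin R → PW r t) (m : Fin r) (l : Lab r R t) : Prop :=
  ¬ Nice r t D' (Tr (w l.1 ∘ l.2) m) (Sr (w l.1 ∘ l.2) m).card

theorem ncp_perm {r t : ℕ} (D' : ℕ) (b : PW r t) (m : Fin r) (ε : ℝ)
    (h : ((univ.filter (fun b' : PW r t => (∀ m', cl b' m' = cl b m') ∧
          ¬ Nice r t D' (Tr b' m) (Sr b' m).card)).card : ℝ) ≤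
        ε * ((univ.filter (fun b' : PW r t => ∀ m', cl b' m' = cl b m')).card : ℝ)) :
    ((univ.filter (fun σ : Equiv.Perm (Pos r t) =>
      ¬ Nice r t D' (Tr (b ∘ σ) m) (Sr (b ∘ σ) m).card)).card : ℝ) ≤
      ε * (Fintype.card (Equiv.Perm (Pos r t)) : ℝ) := by
  have h1 := perm_avg (ι := Pos r t) b
    (fun b' => if ¬ Nice r t D' (Tr b' m) (Sr b' m).card then (1 : ℝ) else 0)
  have h2 : ∑ σ : Equiv.Perm (Pos r t),
      (if ¬ Nice r t D' (Tr (b ∘ σ) m) (Sr (b ∘ σ) m).card then (1 : ℝ) else 0) =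
      ((univ.filter (fun σ : Equiv.Perm (Pos r t) =>
      ¬ Nice r t D' (Tr (b ∘ σ) m) (Sr (b ∘ σ) m).card)).card : ℝ) := by
    rw [Finset.card_filter]
    push_cast
    rfl
  have h3 : ∑ b' ∈ univ.filter (fun b' : PW r t => ∀ m' : Fin r, cl b' m' = cl b m'),
      (if ¬ Nice r t D' (Tr b' m) (Sr b' m).card then (1 : ℝ) else 0) =
      ((univ.filter (fun b' : PW r t => (∀ m', cl b' m' = cl b m') ∧
          ¬ Nice r t D' (Tr b' m) (Sr b' m).card)).card : ℝ) := by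
    rw [← Finset.filter_filter, Finset.card_filter]
    push_cast
    rfl
  rw [h2, h3] at h1
  have hpos : (0 : ℝ) <
      ((univ.filter (fun b' : PW r t => ∀ m' : Fin r, cl b' m' = cl b m')).card : ℝ) := by
    have : 0 < (univ.filter (fun b' : PW r t => ∀ m' : Fin r, cl b' m' = cl b m')).card :=
      Finset.card_pos.2 ⟨b, Finset.mem_filter.2 ⟨Finset.mem_univ _, fun _ => rfl⟩⟩
    exact_mod_cast this
  have h4 : (Fintype.card (Equiv.Perm (Pos r t)) : ℝ) *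
      ((univ.filter (fun b' : PW r t => (∀ m', cl b' m' = cl b m') ∧
          ¬ Nice r t D' (Tr b' m) (Sr b' m).card)).card : ℝ) ≤
      (ε * (Fintype.card (Equiv.Perm (Pos r t)) : ℝ)) *
      ((univ.filter (fun b' : PW r t => ∀ m' : Fin r, cl b' m' = cl b m')).card : ℝ) := by
    calc _ ≤ (Fintype.card (Equiv.Perm (Pos r t)) : ℝ) * (ε *
          ((univ.filter (fun b' : PW r t => ∀ m', cl b' m' = cl b m')).card : ℝ)) :=
          mul_le_mul_of_nonneg_left h (Nat.cast_nonneg _)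
      _ = _ := by ring
  rw [← h1] at h4
  exact le_of_mul_le_mul_right h4 hpos

theorem ncp_lab {r z R t : ℕ} (D' : ℕ) (w : Fin R → PW r t) (m m' : Fin r) (u : ZW r z) (ε : ℝ)
    (h : ∀ p, ((univ.filter (fun b' : PW r t => (∀ m', cl b' m' = cl (w p) m') ∧
          ¬ Nice r t D' (Tr b' m) (Sr b' m).card)).card : ℝ) ≤
        ε * ((univ.filter (fun b' : PW r t => ∀ m', cl b' m' = cl (w p) m')).card : ℝ)) :
    ((univ.filter (fun Fn : LF r z R t => ncp_bad D' w m (Fn m' u))).card : ℝ) ≤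
      ε * (Fintype.card (LF r z R t) : ℝ) := by
  have h1 := vbd_prod (I := Fin R) (X := Equiv.Perm (Pos r t))
    (fun p σ => ncp_bad D' w m (p, σ)) ε (fun p => by
      have h0 := ncp_perm D' (w p) m ε (h p)
      have e : (univ.filter (fun σ : Equiv.Perm (Pos r t) => ncp_bad D' w m (p, σ))) =
          univ.filter (fun σ : Equiv.Perm (Pos r t) =>
            ¬ Nice r t D' (Tr (w p ∘ σ) m) (Sr (w p ∘ σ) m).card) := by
        ext σ
        rw [Finset.mem_filter, Finset.mem_filter]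
        rfl
      rw [e]
      exact h0)
  have h2 := vbd_marg (I := ZW r z) (X := Lab r R t) u (fun l => ncp_bad D' w m l) ε h1
  exact vbd_marg (I := Fin r) (X := ZW r z → Lab r R t) m'
    (fun g => ncp_bad D' w m (g u)) ε h2

theorem ncp_frs {r R t : ℕ} (c : Fin r → Lab r R t) (m : Fin r) :
    ∃ m', (c m').1 = (c m).1 ∧ frs c (c m).1 = (c m').2 := by
  have hne : (univ.filter (fun u => (c u).1 = (c m).1)).Nonempty :=
    ⟨m, Finset.mem_filter.2 ⟨Finset.mem_univ _, rfl⟩⟩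
  refine ⟨(univ.filter (fun u => (c u).1 = (c m).1)).min' hne, ?_, ?_⟩
  · exact (Finset.mem_filter.1 (Finset.min'_mem _ hne)).2
  · unfold frs
    rw [dif_pos hne]

theorem ncp_nice {r t h D D' : ℕ} {b : PW r t} {m : Fin r} {τ al : ℕ}
    (hD : D' + 2 * h = D) (hτ : τ ≤ 2 * h) (ht : (r + 1) * (D' + 4 * h) ≤ t)
    (hal : al = (Sr b m).card - τ) (hn : Nice r t D' (Tr b m) (Sr b m).card) :
    Nice r t D (Tr b m) (al + h) := by
  obtain ⟨h1, h2⟩ := hn
  refine ⟨?_, h2⟩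
  have h3 : D' + 4 * h ≤ (Tr b m).card := by
    have := ht.trans h2
    exact Nat.le_of_mul_le_mul_left this (Nat.succ_pos r)
  rw [abs_le] at h1
  have h4 : τ ≤ (Sr b m).card := by omega
  have h5 : (al : ℤ) = (Sr b m).card - τ := by
    rw [hal]
    omega
  rw [h5, abs_le]
  constructor <;> omega

theorem ncp_lim (r : ℕ) (C η : ℝ) (hC : 0 < C) (hη : 0 < η) :
    ∃ q1 : ℕ, ∀ q ≥ q1, ((r : ℝ) * r) * (C * Real.exp (C * (q : ℝ) ^ 2 -
      ((q : ℝ) ^ 2 / 2) ^ 2 / C)) ≤ η / ((2 * q ^ 14 : ℕ) : ℝ) ^ r := by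
  obtain ⟨q2, hq2⟩ := vbd_lim (14 * r) 1 ((r : ℝ) * r * C * 2 ^ r) η one_pos hη
  refine ⟨max q2 (⌈4 * C * (C + 1)⌉₊ + 1) , fun q hq => ?_⟩
  have h1 : q2 ≤ q := by omega
  have h2 : ⌈4 * C * (C + 1)⌉₊ + 1 ≤ q := by omega
  have hq1 : (1 : ℝ) ≤ q := by
    have : 1 ≤ q := by omega
    exact_mod_cast this
  have h3 : 4 * C * (C + 1) ≤ q := (Nat.le_ceil _).trans (by exact_mod_cast (by omega))
  have h4 : C * (q : ℝ) ^ 2 - ((q : ℝ) ^ 2 / 2) ^ 2 / C ≤ -(1 * q) := by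
    have h5 : C * (q : ℝ) ^ 2 + q ≤ ((q : ℝ) ^ 2 / 2) ^ 2 / C := by
      rw [le_div_iff₀ hC]
      have h6 : 4 * C * (C + 1) * q ^ 2 ≤ (q : ℝ) ^ 2 * q ^ 2 := by
        apply mul_le_mul_of_nonneg_right _ (by positivity)
        nlinarith
      have h7 : (q : ℝ) ≤ q ^ 2 := by nlinarith
      have h8 : C * q ≤ C * (q : ℝ) ^ 2 := mul_le_mul_of_nonneg_left h7 hC.le
      nlinarith
    linarith
  have hpos : (0 : ℝ) < ((2 * q ^ 14 : ℕ) : ℝ) ^ r := by
    have : 0 < 2 * q ^ 14 := by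
      have : 0 < q := by omega
      positivity
    have h9 : (0 : ℝ) < ((2 * q ^ 14 : ℕ) : ℝ) := by exact_mod_cast this
    exact pow_pos h9 r
  rw [le_div_iff₀ hpos]
  calc ((r : ℝ) * r) * (C * Real.exp (C * (q : ℝ) ^ 2 -
        ((q : ℝ) ^ 2 / 2) ^ 2 / C)) * ((2 * q ^ 14 : ℕ) : ℝ) ^ r ≤
      ((r : ℝ) * r) * (C * Real.exp (-(1 * q))) * ((2 * q ^ 14 : ℕ) : ℝ) ^ r := by
        gcongr
    _ = (r : ℝ) * r * C * 2 ^ r * ((q : ℝ) ^ (14 * r) * Real.exp (-(1 * q))) := by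
        push_cast
        rw [mul_pow, ← pow_mul]
        ring
    _ ≤ η := hq2 q h1

theorem ncp_DA (q t : ℕ) : (q : ℝ) ^ 2 * Real.sqrt t ≤ (DA q t : ℝ) := by
  unfold DA
  push_cast
  apply mul_le_mul_of_nonneg_left _ (by positivity)
  refine Real.sqrt_le_iff.2 ⟨by positivity, ?_⟩
  have h1 := Nat.lt_succ_sqrt t
  have h2 : (t : ℝ) < ((Nat.succ (Nat.sqrt t) * Nat.succ (Nat.sqrt t) : ℕ) : ℝ) := by
    exact_mod_cast h1
  push_cast at h2
  nlinarith

theorem ncp_DA_le (q t : ℕ) : (DA q t : ℝ) ≤ (q : ℝ) ^ 2 * (Real.sqrt t + 1) := by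
  unfold DA
  push_cast
  apply mul_le_mul_of_nonneg_left _ (by positivity)
  have := Real.nat_sqrt_le_real_sqrt (a := t)
  linarith

/-- Block NCP: for a typical word, the class is nice for most label functions -/
theorem nice_prob_pr (r : ℕ) (hr : 1 ≤ r) (K η : ℝ) (hK : 0 < K) (hη : 0 < η) :
    ∃ q0 : ℕ, ∀ q ≥ q0, ∃ n0 : ℕ, ∀ n ≥ n0, ∀ t z y h : ℕ, Reg r q K n t z y h →
      ∀ (i : Fin r → Fin (q ^ 14)) (w : Word r y z (q ^ 16) t), InC (F0 r q n h) h i w →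
      Typ (q : ℝ) (1 / (q : ℝ) ^ 4) w →
        ((univ.filter (fun Fn : LF r z (q ^ 16) t => ¬ ∀ m,
          Nice r t (DA q t) (TT Fn w m) (al (F0 r q n h) h Fn i w m + h))).card : ℝ) ≤
          η / ((2 * q ^ 14 : ℕ) : ℝ) ^ r * (Fintype.card (LF r z (q ^ 16) t) : ℝ) := by
  obtain ⟨C, hC, hnf⟩ := nice_frac r hr
  obtain ⟨q1, hq1⟩ := ncp_lim r C η hC hη
  set κ : ℝ := K * Real.sqrt (2 * ((r : ℝ) + 1)) with hκ
  have hκ0 : 0 < κ := by positivity
  refine ⟨max q1 (⌈4 * κ + 4⌉₊ + 2), fun q hq => ?_⟩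
  have hqq1 : q1 ≤ q := by omega
  have hq2 : 2 ≤ q := by omega
  have hqκ : 4 * κ + 4 ≤ q := (Nat.le_ceil _).trans (by exact_mod_cast (by omega))
  have hq1r : (2 : ℝ) ≤ q := by exact_mod_cast hq2
  obtain ⟨t1, ht1⟩ := hnf q ((q : ℝ) ^ 2 / 2) (by linarith) (by nlinarith)
  set s : ℝ := 4 * (q : ℝ) ^ 2 * ((r : ℝ) + 1) with hs
  obtain ⟨n0, hn0⟩ := vbd_t r q (max t1 ⌈s ^ 2⌉₊ + 1) K hq2
  refine ⟨n0, fun n hn t z y h hR i w hw hT => ?_⟩
  have htT := hn0 n hn t z y h hR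
  have htt1 : t1 ≤ t := by omega
  have hts : ⌈s ^ 2⌉₊ ≤ t := by omega
  have ht0 : 1 ≤ t := by omega
  have hst : s ≤ Real.sqrt t :=
    Real.le_sqrt_of_sq_le ((Nat.le_ceil _).trans (by exact_mod_cast hts))
  have hst1 : 1 ≤ Real.sqrt t := Real.one_le_sqrt.2 (by exact_mod_cast ht0)
  have hss : Real.sqrt t * Real.sqrt t = t := Real.mul_self_sqrt (Nat.cast_nonneg _)
  have hh := vbd_h hK hq2 hR
  rw [← hκ] at hh
  have hh2 : 2 * (h : ℝ) ≤ (q : ℝ) ^ 2 / 2 * Real.sqrt t := by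
    have h1 : 2 * (h : ℝ) ≤ (2 * κ + 2) * Real.sqrt t := by nlinarith
    have h2 : 2 * κ + 2 ≤ (q : ℝ) ^ 2 / 2 := by nlinarith
    exact h1.trans (mul_le_mul_of_nonneg_right h2 (Real.sqrt_nonneg _))
  have hDA1 := ncp_DA q t
  have hDA2 := ncp_DA_le q t
  have hq2s : 0 ≤ (q : ℝ) ^ 2 * Real.sqrt t := by positivity
  have hDh : 2 * h ≤ DA q t := by
    have : (2 : ℝ) * h ≤ DA q t := by linarith
    exact_mod_cast this
  obtain ⟨D', hD'⟩ := Nat.exists_eq_add_of_le' hDh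
  have hD'r : (D' : ℝ) = DA q t - 2 * h := by
    have : (DA q t : ℝ) = ((D' + 2 * h : ℕ) : ℝ) := by rw [← hD']
    rw [this]
    push_cast
    ring
  have hD'1 : (q : ℝ) ^ 2 / 2 * Real.sqrt t ≤ D' := by
    rw [hD'r]
    linarith
  have htb : (r + 1) * (D' + 4 * h) ≤ t := by
    have h1 : ((r : ℝ) + 1) * ((D' : ℝ) + 4 * h) ≤ t := by
      rw [hD'r]
      have h2 : (DA q t : ℝ) - 2 * h + 4 * h ≤ 4 * (q : ℝ) ^ 2 * Real.sqrt t := by
        have h3 : (q : ℝ) ^ 2 ≤ (q : ℝ) ^ 2 * Real.sqrt t := by nlinarith [sq_nonneg (q : ℝ)]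
        linarith
      calc ((r : ℝ) + 1) * ((DA q t : ℝ) - 2 * h + 4 * h) ≤
            ((r : ℝ) + 1) * (4 * (q : ℝ) ^ 2 * Real.sqrt t) :=
            mul_le_mul_of_nonneg_left h2 (by positivity)
        _ = s * Real.sqrt t := by
            rw [hs]
            ring
        _ ≤ Real.sqrt t * Real.sqrt t := mul_le_mul_of_nonneg_right hst (Real.sqrt_nonneg _)
        _ = t := hss
    exact_mod_cast h1
  set ε : ℝ := C * Real.exp (C * (q : ℝ) ^ 2 - ((q : ℝ) ^ 2 / 2) ^ 2 / C) with hε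
  -- bad label functions
  have hsub : (univ.filter (fun Fn : LF r z (q ^ 16) t => ¬ ∀ m,
      Nice r t (DA q t) (TT Fn w m) (al (F0 r q n h) h Fn i w m + h))) ⊆
      univ.filter (fun Fn : LF r z (q ^ 16) t => ∃ mm : Fin r × Fin r,
        ncp_bad D' w.2.2 mm.1 (Fn mm.2 (w.2.1 mm.2))) := by
    intro Fn hFn
    have h1 := (Finset.mem_filter.1 hFn).2
    refine Finset.mem_filter.2 ⟨Finset.mem_univ _, ?_⟩
    by_contra hcon
    apply h1
    intro m
    obtain ⟨m', hm1, hm2⟩ := ncp_frs (cur Fn w) m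
    have h2 : ¬ ncp_bad D' w.2.2 m (Fn m' (w.2.1 m')) := fun hb => hcon ⟨(m, m'), hb⟩
    unfold ncp_bad at h2
    rw [not_not] at h2
    have h3 : lw Fn w (cur Fn w m).1 = w.2.2 (Fn m' (w.2.1 m')).1 ∘ (Fn m' (w.2.1 m')).2 := by
      unfold lw
      rw [hm2, ← hm1]
      rfl
    have hi2 := (hw m).2
    have h4 := ncp_nice (b := lw Fn w (cur Fn w m).1) (m := m) (h := h) (D := DA q t)
      (τ := typ w m - bot (F0 r q n h) h i m) (al := al (F0 r q n h) h Fn i w m) hD'.symm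
      (by omega) htb rfl (by rw [h3]; exact h2)
    exact h4
  have h5 : ∀ mm : Fin r × Fin r, ((univ.filter (fun Fn : LF r z (q ^ 16) t =>
      ncp_bad D' w.2.2 mm.1 (Fn mm.2 (w.2.1 mm.2)))).card : ℝ) ≤
      ε * (Fintype.card (LF r z (q ^ 16) t) : ℝ) := fun mm =>
    ncp_lab D' w.2.2 mm.1 mm.2 _ ε fun p =>
      ht1 t htt1 D' hD'1 (w.2.2 p) (hT.2.2.1 p) mm.1
  have h6 := vbd_union (fun (mm : Fin r × Fin r) (Fn : LF r z (q ^ 16) t) =>
    ncp_bad D' w.2.2 mm.1 (Fn mm.2 (w.2.1 mm.2))) _ h5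
  have h7 : ((univ.filter (fun Fn : LF r z (q ^ 16) t => ¬ ∀ m,
      Nice r t (DA q t) (TT Fn w m) (al (F0 r q n h) h Fn i w m + h))).card : ℝ) ≤ _ :=
    (Nat.cast_le.2 (Finset.card_le_card hsub)).trans h6
  refine h7.trans ?_
  rw [Fintype.card_prod, Fintype.card_fin]
  push_cast
  have h8 := hq1 q hqq1
  rw [← hε] at h8
  push_cast at h8
  calc (r : ℝ) * r * (ε * (Fintype.card (LF r z (q ^ 16) t) : ℝ)) =
        (r : ℝ) * r * ε * (Fintype.card (LF r z (q ^ 16) t) : ℝ) := by ring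
    _ ≤ _ := mul_le_mul_of_nonneg_right h8 (Nat.cast_nonneg _)

end Pool.Agent.Lib_helper46.CC

namespace Pool.Agent.Lib_helper46.CC

alias nice_prob := nice_prob_pr
alias vbad := vbad_pr

end Pool.Agent.Lib_helper46.CC
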