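import Mathlib
import Pool.Agent.Lib_helper46.CCF.WBase
import Pool.Agent.Lib_helper46.CCF.ATY
import Pool.Agent.Lib_helper46.CCF.PHB
import Pool.Agent.Lib_helper46.CCF.CLA
import Pool.Agent.Lib_helper46.CCF.IDE
import Pool.Agent.Lib_helper46.CCF.VBD
import Pool.Agent.Lib_helper46.CCF.MMX

/-! Block CHO, written by helper29. -/

/-! Block CHO: choice of the label function. -/

set_option autoImplicit false

namespace Pool.Agent.Lib_helper46.CC

open Finset Pool.Agent.Lib_helper70.Chains
open scoped Classical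

theorem cho_wv_inj {r y z R t : ℕ} :
    Function.Injective (wv : Word r y z R t → Gr r y z R t → Fin (r + 1)) := by
  intro w w' h
  refine Prod.ext ?_ (Prod.ext ?_ ?_)
  · funext x
    exact congrFun h (Sum.inl x)
  · funext m x
    exact congrFun h (Sum.inr (Sum.inl (m, x)))
  · funext p x
    exact congrFun h (Sum.inr (Sum.inr (p, x)))

theorem cho_card_gr (r y z R t : ℕ) :
    Fintype.card (Gr r y z R t) = y + r * z + R * ((r + 1) * t) := by
  simp only [Fintype.card_sum, Fintype.card_prod, Fintype.card_fin]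
  ring

theorem cho_card_typ {r y z R t n : ℕ} (hr : 1 ≤ r) (hn : n = y + r * z + R * ((r + 1) * t))
    (h1 : r + 1 ≤ n) (f : Fin r → ℕ) :
    (univ.filter (fun w : Word r y z R t => typ w = f)).card ≤ maxMultinomial n r := by
  have h2 := nc_le_max r hr (Gr r y z R t) (fun m => (f m : ℤ))
    (by rw [cho_card_gr, ← hn]; exact h1)
  rw [cho_card_gr, ← hn] at h2
  refine le_trans ?_ h2
  unfold NC
  refine Finset.card_le_card_of_injOn wv ?_ (cho_wv_inj.injOn)
  intro w hw
  have hw' := (Finset.mem_filter.1 (Finset.mem_coe.1 hw)).2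
  refine Finset.mem_coe.2 (Finset.mem_filter.2 ⟨Finset.mem_univ _, fun m => ?_⟩)
  rw [← typ_eq, hw']

theorem cho_conv {W : Type} [Fintype W] {P Q : W → Prop} {d1 : DecidablePred P}
    {d2 : DecidablePred Q} (h : ∀ w, P w → Q w) :
    ((@Finset.filter W P d1 univ).card : ℝ) ≤ ((@Finset.filter W Q d2 univ).card : ℝ) := by
  exact_mod_cast Finset.card_le_card (fun w hw => by
    rw [Finset.mem_filter] at hw ⊢
    exact ⟨hw.1, h w hw.2⟩)

/-- double counting for one corner type -/
theorem cho_corner {W L : Type} [Fintype W] [Fintype L] (T Ty : W → Prop) (G : L → W → Prop)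
    (c M : ℝ) (hc : 0 ≤ c)
    (hT : ((univ.filter (fun w => T w)).card : ℝ) ≤ M)
    (h1 : ((univ.filter (fun w => T w ∧ ¬ Ty w)).card : ℝ) ≤ c * M)
    (h2 : ∀ w, T w → Ty w → ((univ.filter (fun F => ¬ G F w)).card : ℝ) ≤
      2 * c * Fintype.card L) :
    ∑ F : L, ((univ.filter (fun w => T w ∧ ¬ G F w)).card : ℝ) ≤ 3 * c * M * Fintype.card L := by
  have h3 : ∀ F : L, ((univ.filter (fun w => T w ∧ ¬ G F w)).card : ℝ) ≤
      c * M + ((univ.filter (fun w => (T w ∧ Ty w) ∧ ¬ G F w)).card : ℝ) := by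
    intro F
    have h4 : (univ.filter (fun w => T w ∧ ¬ G F w)) ⊆ (univ.filter (fun w => T w ∧ ¬ Ty w)) ∪
        (univ.filter (fun w => (T w ∧ Ty w) ∧ ¬ G F w)) := by
      intro w hw
      rw [Finset.mem_filter] at hw
      rw [Finset.mem_union, Finset.mem_filter, Finset.mem_filter]
      by_cases hy : Ty w
      · exact Or.inr ⟨hw.1, ⟨hw.2.1, hy⟩, hw.2.2⟩
      · exact Or.inl ⟨hw.1, hw.2.1, hy⟩
    have h5 := (Finset.card_le_card h4).trans (Finset.card_union_le _ _)
    have h6 : ((univ.filter (fun w => T w ∧ ¬ G F w)).card : ℝ) ≤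
        ((univ.filter (fun w => T w ∧ ¬ Ty w)).card : ℝ) +
          ((univ.filter (fun w => (T w ∧ Ty w) ∧ ¬ G F w)).card : ℝ) := by exact_mod_cast h5
    linarith
  have h7 : ∑ F : L, ((univ.filter (fun w => (T w ∧ Ty w) ∧ ¬ G F w)).card : ℝ) ≤
      M * (2 * c * Fintype.card L) := by
    have h8 : ∀ F : L, ((univ.filter (fun w => (T w ∧ Ty w) ∧ ¬ G F w)).card : ℝ) =
        ∑ w ∈ univ.filter (fun w => T w ∧ Ty w), if ¬ G F w then (1 : ℝ) else 0 := by
      intro F
      rw [Finset.sum_boole, Finset.filter_filter]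
    simp only [h8]
    rw [Finset.sum_comm]
    have h9 : ∀ w ∈ univ.filter (fun w => T w ∧ Ty w),
        ∑ F : L, (if ¬ G F w then (1 : ℝ) else 0) ≤ 2 * c * Fintype.card L := by
      intro w hw
      rw [Finset.mem_filter] at hw
      rw [Finset.sum_boole]
      exact h2 w hw.2.1 hw.2.2
    refine (Finset.sum_le_sum h9).trans ?_
    rw [Finset.sum_const, nsmul_eq_mul]
    have h10 : ((univ.filter (fun w => T w ∧ Ty w)).card : ℝ) ≤ M := by
      refine le_trans ?_ hT
      exact_mod_cast Finset.card_le_card (fun w hw => by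
        rw [Finset.mem_filter] at hw ⊢
        exact ⟨hw.1, hw.2.1⟩)
    exact mul_le_mul_of_nonneg_right h10 (by positivity)
  calc ∑ F : L, ((univ.filter (fun w => T w ∧ ¬ G F w)).card : ℝ)
      ≤ ∑ F : L, (c * M + ((univ.filter (fun w => (T w ∧ Ty w) ∧ ¬ G F w)).card : ℝ)) :=
        Finset.sum_le_sum fun F _ => h3 F
    _ = Fintype.card L * (c * M) +
        ∑ F : L, ((univ.filter (fun w => (T w ∧ Ty w) ∧ ¬ G F w)).card : ℝ) := by
        rw [Finset.sum_add_distrib, Finset.sum_const, Finset.card_univ, nsmul_eq_mul]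
    _ ≤ Fintype.card L * (c * M) + M * (2 * c * Fintype.card L) := by linarith
    _ = 3 * c * M * Fintype.card L := by ring

theorem cho_union {L : Type} [Fintype L] {P P1 P2 : L → Prop}
    (h : ∀ F, P F → P1 F ∨ P2 F) :
    ((univ.filter (fun F => P F)).card : ℝ) ≤
      ((univ.filter (fun F => P1 F)).card : ℝ) + ((univ.filter (fun F => P2 F)).card : ℝ) := by
  have h4 : (univ.filter (fun F => P F)) ⊆ (univ.filter (fun F => P1 F)) ∪
      (univ.filter (fun F => P2 F)) := by
    intro F hF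
    rw [Finset.mem_filter] at hF
    rw [Finset.mem_union, Finset.mem_filter, Finset.mem_filter]
    rcases h F hF.2 with h1 | h1
    · exact Or.inl ⟨hF.1, h1⟩
    · exact Or.inr ⟨hF.1, h1⟩
  have h5 := (Finset.card_le_card h4).trans (Finset.card_union_le _ _)
  exact_mod_cast h5

theorem choose_fn_pr (r : ℕ) (hr : 1 ≤ r) (K η δ : ℝ) (hK : 0 < K) (hη : 0 < η) :
    ∃ q0 : ℕ, ∀ q ≥ q0, ∀ B : ℝ, ∃ n0 : ℕ, ∀ n ≥ n0, ∀ t z y h : ℕ, Reg r q K n t z y h →
      ∀ κ : Ker r (q ^ 14) t h (DA q t) (DB q t) δ B, ∃ Fn : LF r z (q ^ 16) t,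
        ((∑ i : Fin r → Fin (q ^ 14), ∑ ρ : Fin r → Bool,
          (univ.filter (fun w : Word r y z (q ^ 16) t =>
            (∀ m, typ w m = bot (F0 r q n h) h i m + if ρ m = true then 2 * h else 0) ∧
              OkW (F0 r q n h) h Fn i w ∧
              ¬ Good κ (q : ℝ) (2 * η) (F0 r q n h) Fn i w)).card : ℕ) : ℝ) ≤
          3 * η * maxMultinomial n r := by
  obtain ⟨q1, hq1⟩ := atyp r hr K η hK hη
  obtain ⟨q2, hq2⟩ := nice_prob r hr K η hK hη
  obtain ⟨q3, hq3⟩ := ideal r hr K η hK hη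
  refine ⟨max (max q1 q2) (max q3 2), fun q hq B => ?_⟩
  have hqa : q1 ≤ q := le_trans (le_trans (le_max_left _ _) (le_max_left _ _)) hq
  have hqb : q2 ≤ q := le_trans (le_trans (le_max_right _ _) (le_max_left _ _)) hq
  have hqc : q3 ≤ q := le_trans (le_trans (le_max_left _ _) (le_max_right _ _)) hq
  have hqd : 2 ≤ q := le_trans (le_trans (le_max_right _ _) (le_max_right _ _)) hq
  obtain ⟨n1, hn1⟩ := hq1 q hqa
  obtain ⟨n2, hn2⟩ := hq2 q hqb
  obtain ⟨n3, hn3⟩ := hq3 q hqc
  obtain ⟨n4, hn4⟩ := phi_prob r q hr hqd K η δ B hK hη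
  refine ⟨max (max n1 n2) (max (max n3 n4) (r + 1)), fun n hn t z y h hReg κ => ?_⟩
  have hna : n1 ≤ n := le_trans (le_trans (le_max_left _ _) (le_max_left _ _)) hn
  have hnb : n2 ≤ n := le_trans (le_trans (le_max_right _ _) (le_max_left _ _)) hn
  have hnc : n3 ≤ n := le_trans (le_trans (le_trans (le_max_left _ _) (le_max_left _ _))
    (le_max_right _ _)) hn
  have hnd : n4 ≤ n := le_trans (le_trans (le_trans (le_max_right _ _) (le_max_left _ _))
    (le_max_right _ _)) hn
  have hne : r + 1 ≤ n := le_trans (le_trans (le_max_right _ _) (le_max_right _ _)) hn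
  have hq0 : 0 < q := by omega
  set M : ℝ := (maxMultinomial n r : ℝ) with hM
  have hM0 : 0 ≤ M := Nat.cast_nonneg _
  set X : ℝ := ((2 * q ^ 14 : ℕ) : ℝ) ^ r with hX
  have hX0 : 0 < X := by
    have : 0 < 2 * q ^ 14 := by positivity
    have h' : (0 : ℝ) < ((2 * q ^ 14 : ℕ) : ℝ) := by exact_mod_cast this
    positivity
  set L : Type := LF r z (q ^ 16) t with hL
  have : Nonempty (Lab r (q ^ 16) t) := ⟨(⟨0, by positivity⟩, 1)⟩
  -- the bound for one corner
  have hcorner : ∀ (i : Fin r → Fin (q ^ 14)) (ρ : Fin r → Bool),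
      ∑ Fn : LF r z (q ^ 16) t, ((univ.filter (fun w : Word r y z (q ^ 16) t =>
        (∀ m, typ w m = bot (F0 r q n h) h i m + if ρ m = true then 2 * h else 0) ∧
          OkW (F0 r q n h) h Fn i w ∧
            ¬ Good κ (q : ℝ) (2 * η) (F0 r q n h) Fn i w)).card : ℝ) ≤
        3 * (η / X) * M * Fintype.card (LF r z (q ^ 16) t) := by
    intro i ρ
    set f : Fin r → ℕ := fun m => bot (F0 r q n h) h i m + if ρ m = true then 2 * h else 0 with hf
    have hInC : ∀ w : Word r y z (q ^ 16) t, typ w = f → InC (F0 r q n h) h i w := by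
      intro w hw m
      rw [hw]
      simp only [hf]
      split_ifs
      · omega
      · omega
    have h1 := cho_corner (W := Word r y z (q ^ 16) t) (L := LF r z (q ^ 16) t)
      (fun w => typ w = f) (fun w => Typ (q : ℝ) (1 / (q : ℝ) ^ 4) w)
      (fun Fn w => Good κ (q : ℝ) (2 * η) (F0 r q n h) Fn i w) (η / X) M (by positivity)
      (by
        have h0 := cho_card_typ (R := q ^ 16) hr hReg.sum hne f
        have h0' : ((univ.filter (fun w : Word r y z (q ^ 16) t => typ w = f)).card : ℝ) ≤ M := by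
          exact Nat.cast_le.2 h0
        exact (cho_conv fun w hw => hw).trans h0')
      ((cho_conv fun w hw => hw).trans (hn1 n hna t z y h hReg f))
      (by
        intro w hw hty
        have h2 := hn2 n hnb t z y h hReg i w (hInC w hw) hty
        have h3 := hn4 n hnd t z y h hReg κ i w hty
          (hn3 n hnc t z y h hReg δ B κ i w (hInC w hw) hty)
        have h6 := cho_union (L := LF r z (q ^ 16) t)
          (P := fun Fn => ¬ Good κ (q : ℝ) (2 * η) (F0 r q n h) Fn i w)
          (P1 := fun Fn => ¬ ∀ m,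
              Nice r t (DA q t) (TT Fn w m) (al (F0 r q n h) h Fn i w m + h))
          (P2 := fun Fn => Phi κ (q : ℝ) Fn i w < 1 - 2 * η)
          (fun Fn hFn => by
            by_cases hN : ∀ m, Nice r t (DA q t) (TT Fn w m) (al (F0 r q n h) h Fn i w m + h)
            · refine Or.inr ?_
              by_contra hcon
              exact hFn ⟨hN, not_lt.1 hcon⟩
            · exact Or.inl hN)
        have h7 := h6.trans (add_le_add ((cho_conv fun w hw => hw).trans h2)
          ((cho_conv fun w hw => hw).trans h3))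
        refine (cho_conv fun w hw => hw).trans (h7.trans (le_of_eq ?_))
        rw [hX]
        ring)
    refine le_trans (Finset.sum_le_sum fun Fn _ => ?_) h1
    exact cho_conv fun w hw => ⟨funext fun m => hw.1 m, hw.2.2⟩
  -- average over the label functions
  have hLpos : (0 : ℝ) < Fintype.card (LF r z (q ^ 16) t) := by
    exact_mod_cast Fintype.card_pos
  have htot : ∑ Fn : LF r z (q ^ 16) t, (((∑ i : Fin r → Fin (q ^ 14), ∑ ρ : Fin r → Bool,
          (univ.filter (fun w : Word r y z (q ^ 16) t =>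
            (∀ m, typ w m = bot (F0 r q n h) h i m + if ρ m = true then 2 * h else 0) ∧
              OkW (F0 r q n h) h Fn i w ∧
              ¬ Good κ (q : ℝ) (2 * η) (F0 r q n h) Fn i w)).card : ℕ) : ℝ)) ≤
      ∑ _Fn : LF r z (q ^ 16) t, 3 * η * M := by
    rw [Finset.sum_const, Finset.card_univ, nsmul_eq_mul]
    have h1 : ∀ Fn : LF r z (q ^ 16) t, (((∑ i : Fin r → Fin (q ^ 14), ∑ ρ : Fin r → Bool,
          (univ.filter (fun w : Word r y z (q ^ 16) t =>
            (∀ m, typ w m = bot (F0 r q n h) h i m + if ρ m = true then 2 * h else 0) ∧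
              OkW (F0 r q n h) h Fn i w ∧
              ¬ Good κ (q : ℝ) (2 * η) (F0 r q n h) Fn i w)).card : ℕ) : ℝ)) =
        ∑ i : Fin r → Fin (q ^ 14), ∑ ρ : Fin r → Bool,
          ((univ.filter (fun w : Word r y z (q ^ 16) t =>
            (∀ m, typ w m = bot (F0 r q n h) h i m + if ρ m = true then 2 * h else 0) ∧
              OkW (F0 r q n h) h Fn i w ∧
              ¬ Good κ (q : ℝ) (2 * η) (F0 r q n h) Fn i w)).card : ℝ) := by
      intro Fn
      push_cast
      rfl
    simp only [h1]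
    rw [Finset.sum_comm]
    have h2 : ∀ i : Fin r → Fin (q ^ 14), ∑ Fn : LF r z (q ^ 16) t, ∑ ρ : Fin r → Bool,
          ((univ.filter (fun w : Word r y z (q ^ 16) t =>
            (∀ m, typ w m = bot (F0 r q n h) h i m + if ρ m = true then 2 * h else 0) ∧
              OkW (F0 r q n h) h Fn i w ∧
              ¬ Good κ (q : ℝ) (2 * η) (F0 r q n h) Fn i w)).card : ℝ) ≤
        (2 : ℝ) ^ r * (3 * (η / X) * M * Fintype.card (LF r z (q ^ 16) t)) := by
      intro i
      rw [Finset.sum_comm]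
      refine (Finset.sum_le_sum fun ρ _ => hcorner i ρ).trans ?_
      rw [Finset.sum_const, Finset.card_univ, nsmul_eq_mul]
      simp
    refine (Finset.sum_le_sum fun i _ => h2 i).trans ?_
    rw [Finset.sum_const, Finset.card_univ, nsmul_eq_mul]
    have h3 : ((Fintype.card (Fin r → Fin (q ^ 14)) : ℕ) : ℝ) * 2 ^ r = X := by
      rw [hX, Fintype.card_fun, Fintype.card_fin, Fintype.card_fin]
      push_cast
      rw [mul_pow]
      ring
    have h4 : ((Fintype.card (Fin r → Fin (q ^ 14)) : ℕ) : ℝ) *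
        (2 ^ r * (3 * (η / X) * M * Fintype.card (LF r z (q ^ 16) t))) =
        X * (3 * (η / X) * M * Fintype.card (LF r z (q ^ 16) t)) := by
      rw [← mul_assoc, h3]
    rw [h4]
    have h5 : X * (3 * (η / X) * M * Fintype.card (LF r z (q ^ 16) t)) =
        Fintype.card (LF r z (q ^ 16) t) * (3 * η * M) := by
      field_simp
    rw [h5]
  obtain ⟨Fn, _, hFn⟩ := Finset.exists_le_of_sum_le Finset.univ_nonempty htot
  exact ⟨Fn, hFn⟩


end Pool.Agent.Lib_helper46.CC

namespace Pool.Agent.Lib_helper46.CC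

alias choose_fn := choose_fn_pr

end Pool.Agent.Lib_helper46.CC
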