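import Mathlib
import Pool.Agent.Lib_helper46.CCF.WBase
import Pool.Agent.Lib_helper46.CCF.CLA
import Pool.Agent.Lib_helper46.CCF.REP

/-! Block INV, written by helper35. -/

set_option autoImplicit false

namespace Pool.Agent.Lib_helper46.CC

open Finset Pool.Agent.Lib_helper70.Chains
open scoped Classical

section UNITS

variable {r y z R t k h D D2 : ℕ} {δ B : ℝ}

theorem inv_card (f0 : Fin r → ℕ) (Fn : LF r z R t) (i : Fin r → Fin k) (w : Word r y z R t)
    (ht : 0 < t) (hw : InC f0 h i w) (hok : OkW f0 h Fn i w) (m : Fin r) :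
    (SS Fn w m).card = al f0 h Fn i w m + (typ w m - bot f0 h i m) := by
  have h1 := hok m
  have h2 : al f0 h Fn i w m = (SS Fn w m).card - (typ w m - bot f0 h i m) := rfl
  obtain ⟨h3, h4, _⟩ := h1
  have h5 : 0 < (TT Fn w m).card := by
    rcases Nat.eq_zero_or_pos (TT Fn w m).card with h0 | h0
    · rw [h0] at h3; omega
    · exact h0
  omega

theorem inv_al (f0 : Fin r → ℕ) (Fn : LF r z R t) (i : Fin r → Fin k) (w : Word r y z R t)
    (ht : 0 < t) (hw : InC f0 h i w) (hok : OkW f0 h Fn i w) (S : Fin r → Finset (Fin t))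
    (hS : Val f0 h Fn i w S) (m : Fin r) :
    typ (modw Fn w S) m + al f0 h Fn i w m = bot f0 h i m + (S m).card := by
  have h1 := inv_card f0 Fn i w ht hw hok m
  have h2 := typ_mod Fn w S (fun m => (hS m).1) m
  have h3 := (hw m).1
  omega

/-- Block INV: invariance of the class data -/
theorem val_inv_pr (f0 : Fin r → ℕ) (Fn : LF r z R t) (i : Fin r → Fin k) (w : Word r y z R t)
    (ht : 0 < t) (hw : InC f0 h i w) (hok : OkW f0 h Fn i w) (S : Fin r → Finset (Fin t))
    (hS : Val f0 h Fn i w S) :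
    InC f0 h i (modw Fn w S) ∧ (∀ m, al f0 h Fn i (modw Fn w S) m = al f0 h Fn i w m) ∧
      OkW f0 h Fn i (modw Fn w S) ∧ Val f0 h Fn i w (SS Fn w) := by
  have hal : ∀ m, al f0 h Fn i (modw Fn w S) m = al f0 h Fn i w m := by
    intro m
    have h1 := inv_al f0 Fn i w ht hw hok S hS m
    have h2 : al f0 h Fn i (modw Fn w S) m = (SS Fn (modw Fn w S) m).card -
      (typ (modw Fn w S) m - bot f0 h i m) := rfl
    rw [ss_mod Fn w S (fun m => (hS m).1) m] at h2
    have h3 := (hS m).2.1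
    omega
  refine ⟨fun m => ?_, hal, fun m => ?_, fun m => ?_⟩
  · have h1 := inv_al f0 Fn i w ht hw hok S hS m
    have h3 := (hS m).2
    omega
  · rw [tt_mod, hal m]
    exact hok m
  · have h1 := inv_card f0 Fn i w ht hw hok m
    have h3 := hw m
    refine ⟨sr_sub _ _, ?_, ?_⟩
    · omega
    · omega

theorem inv_psi (κ : Ker r k t h D D2 δ B) (Fn : LF r z R t) (i : Fin r → Fin k)
    (w : Word r y z R t) (S : Fin r → Finset (Fin t)) (H : Fin r → Fin k → ZW r z)
    (hH : ∀ m, H m (i m) = w.2.1 m) :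
    Psi κ i (fun m j => Fn m (H m j)) (modw Fn w S).2.2 =
      Psi κ i (fun m j => Fn m (H m j)) w.2.2 := by
  unfold Psi
  split_ifs with h1
  · apply Finset.prod_congr rfl
    intro p hp
    have h2 : ∀ m, (Fn m (H m (i m))).1 ≠ p := (Finset.mem_filter.mp hp).2
    have h3 : ∀ m, (cur Fn w m).1 ≠ p := by
      intro m
      have := h2 m
      rw [hH m] at this
      exact this
    rw [mod_frozen Fn w S p h3]
  · rfl

theorem inv_phi (κ : Ker r k t h D D2 δ B) (A : ℝ) (Fn : LF r z R t) (i : Fin r → Fin k)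
    (w : Word r y z R t) (S : Fin r → Finset (Fin t)) :
    Phi κ A Fn i (modw Fn w S) = Phi κ A Fn i w := by
  unfold Phi
  apply Finset.sum_congr rfl
  intro H _
  have h1 : (modw Fn w S).2.1 = w.2.1 := rfl
  rw [h1]
  split_ifs with h2
  · rw [inv_psi κ Fn i w S H h2]
  · rfl

theorem good_inv_pr (κ : Ker r k t h D D2 δ B) (A η : ℝ) (f0 : Fin r → ℕ) (Fn : LF r z R t)
    (i : Fin r → Fin k) (w : Word r y z R t)
    (ht : 0 < t) (hw : InC f0 h i w) (hok : OkW f0 h Fn i w) (S : Fin r → Finset (Fin t))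
    (hS : Val f0 h Fn i w S) :
    Good κ A η f0 Fn i (modw Fn w S) ↔ Good κ A η f0 Fn i w := by
  have hal := (val_inv_pr f0 Fn i w ht hw hok S hS).2.1
  unfold Good
  rw [inv_phi]
  constructor
  · rintro ⟨h1, h2⟩
    refine ⟨fun m => ?_, h2⟩
    have := h1 m
    rw [tt_mod, hal m] at this
    exact this
  · rintro ⟨h1, h2⟩
    refine ⟨fun m => ?_, h2⟩
    rw [tt_mod, hal m]
    exact h1 m

end UNITS

end Pool.Agent.Lib_helper46.CC

namespace Pool.Agent.Lib_helper46.CC

alias good_inv := good_inv_pr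
alias val_inv := val_inv_pr

end Pool.Agent.Lib_helper46.CC
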