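import Mathlib
import Pool.Agent.Lib_helper46.CCF.WBase
import Pool.Agent.Lib_helper46.CCF.CLA
import Pool.Agent.Lib_helper46.CCF.INV

/-! Block CNT, written by helper99. -/

/-! Block CNT: units counted by words of the corner types. -/

set_option autoImplicit false

namespace Pool.Agent.Lib_helper46.CC

open Finset Pool.Agent.Lib_helper70.Chains
open scoped Classical

section UNITS

variable {r y z R t k h D D2 : ℕ} {δ B : ℝ}

theorem cnt_phi (T : Finset (Fin t)) (a L : ℕ) (At : Finset (Finset (Fin t)))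
    (hc : At.card ≤ T.card.choose a + T.card.choose (a + L)) :
    ∃ φ : Finset (Fin t) → Finset (Fin t) × Bool,
      (∀ S ∈ At, (φ S).1 ⊆ T ∧ (φ S).1.card = a + if (φ S).2 = true then L else 0) ∧
      ∀ S ∈ At, ∀ S' ∈ At, φ S = φ S' → S = S' := by
  set Tg : Finset (Finset (Fin t) × Bool) :=
    (T.powersetCard a) ×ˢ {false} ∪ (T.powersetCard (a + L)) ×ˢ {true} with hTg
  have h1 : Tg.card = T.card.choose a + T.card.choose (a + L) := by
    rw [hTg, Finset.card_union_of_disjoint]
    · rw [Finset.card_product, Finset.card_product, Finset.card_powersetCard,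
        Finset.card_powersetCard, Finset.card_singleton, Finset.card_singleton, mul_one, mul_one]
    · rw [Finset.disjoint_left]
      rintro ⟨S, b⟩ hS hS'
      rw [Finset.mem_product, Finset.mem_singleton] at hS hS'
      have h2 := hS.2
      have h3 := hS'.2
      simp only at h2 h3
      rw [h2] at h3
      exact absurd h3 (by decide)
  have h2 : Fintype.card At ≤ Fintype.card Tg := by
    rw [Fintype.card_coe, Fintype.card_coe, h1]
    exact hc
  have hmem : ∀ x ∈ Tg, x.1 ⊆ T ∧ x.1.card = a + if x.2 = true then L else 0 := by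
    intro x h3
    rw [hTg, Finset.mem_union, Finset.mem_product, Finset.mem_product, Finset.mem_singleton,
      Finset.mem_singleton, Finset.mem_powersetCard, Finset.mem_powersetCard] at h3
    rcases h3 with ⟨⟨h4, h5⟩, h6⟩ | ⟨⟨h4, h5⟩, h6⟩
    · refine ⟨h4, ?_⟩
      rw [h5, h6]
      simp
    · refine ⟨h4, ?_⟩
      rw [h5, h6]
      simp
  obtain ⟨e⟩ := Function.Embedding.nonempty_of_card_le h2
  refine ⟨fun S => if hS : S ∈ At then (e ⟨S, hS⟩).1 else (S, false), ?_, ?_⟩
  · intro S hS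
    simp only [dif_pos hS]
    exact hmem _ (e ⟨S, hS⟩).2
  · intro S hS S' hS' h
    simp only [dif_pos hS, dif_pos hS'] at h
    have h3 := e.injective (Subtype.ext h)
    exact congrArg Subtype.val h3

theorem count_units_pr (κ : Ker r k t h D D2 δ B) (f0 : Fin r → ℕ) (Fn : LF r z R t)
    (i : Fin r → Fin k) (ht : 0 < t) (Pr : Word r y z R t → Prop)
    (hPr : ∀ w S, InC f0 h i w → OkW f0 h Fn i w → Val f0 h Fn i w S →
      (Pr (modw Fn w S) ↔ Pr w)) :
    (univ.filter (fun w : Word r y z R t => InC f0 h i w ∧ OkW f0 h Fn i w ∧ Rp κ f0 Fn i w ∧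
      Pr w)).card ≤
      ∑ ρ : Fin r → Bool, (univ.filter (fun w : Word r y z R t =>
        (∀ m, typ w m = bot f0 h i m + if ρ m = true then 2 * h else 0) ∧
          OkW f0 h Fn i w ∧ Pr w)).card := by
  have hφ : ∀ (T : Finset (Fin t)) (a : ℕ), ∃ φ : Finset (Fin t) → Finset (Fin t) × Bool,
      Okk r t h T a →
      (∀ S ∈ κ.At T a, (φ S).1 ⊆ T ∧ (φ S).1.card = a + if (φ S).2 = true then 2 * h else 0) ∧
      ∀ S ∈ κ.At T a, ∀ S' ∈ κ.At T a, φ S = φ S' → S = S' := by
    intro T a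
    by_cases hok : Okk r t h T a
    · obtain ⟨φ, h1⟩ := cnt_phi T a (2 * h) (κ.At T a) (κ.isSys T a hok).card_le
      exact ⟨φ, fun _ => h1⟩
    · exact ⟨fun S => (S, false), fun h => absurd h hok⟩
  choose φ hφ using hφ
  -- the new sets
  set S1 : Word r y z R t → Fin r → Finset (Fin t) := fun w m =>
    (φ (TT Fn w m) (al f0 h Fn i w m) (SS Fn w m)).1 with hS1
  set b1 : Word r y z R t → Fin r → Bool := fun w m =>
    (φ (TT Fn w m) (al f0 h Fn i w m) (SS Fn w m)).2 with hb1
  have hval : ∀ w, InC f0 h i w → OkW f0 h Fn i w → Rp κ f0 Fn i w →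
      (∀ m, S1 w m ⊆ TT Fn w m ∧
        (S1 w m).card = al f0 h Fn i w m + if b1 w m = true then 2 * h else 0) ∧
      Val f0 h Fn i w (S1 w) := by
    intro w _ h2 h3
    have h4 : ∀ m, S1 w m ⊆ TT Fn w m ∧
        (S1 w m).card = al f0 h Fn i w m + if b1 w m = true then 2 * h else 0 :=
      fun m => (hφ (TT Fn w m) (al f0 h Fn i w m) (h2 m)).1 (SS Fn w m) (h3 m)
    refine ⟨h4, fun m => ⟨(h4 m).1, ?_, ?_⟩⟩
    · rw [(h4 m).2]
      exact Nat.le_add_right _ _
    · rw [(h4 m).2]
      split_ifs <;> omega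
  rw [← Finset.card_sigma]
  refine Finset.card_le_card_of_injOn
    (fun w => (⟨b1 w, modw Fn w (S1 w)⟩ : (_ : Fin r → Bool) × Word r y z R t)) ?_ ?_
  · intro w hw
    rw [Finset.mem_coe, Finset.mem_filter] at hw
    obtain ⟨-, h1, h2, h3, h4⟩ := hw
    obtain ⟨h5, h6⟩ := hval w h1 h2 h3
    rw [Finset.mem_coe, Finset.mem_sigma]
    refine ⟨mem_univ _, ?_⟩
    rw [Finset.mem_filter]
    refine ⟨mem_univ _, ?_, (val_inv f0 Fn i w ht h1 h2 (S1 w) h6).2.2.1, (hPr w _ h1 h2 h6).mpr h4⟩
    intro m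
    have h7 := typ_mod Fn w (S1 w) (fun m => (h5 m).1) m
    have h8 := (h5 m).2
    have h9 := h1 m
    have h10 := (h2 m).1
    have h11 := (h2 m).2.1
    have h12 : 0 < (TT Fn w m).card := by
      rcases Nat.eq_zero_or_pos (TT Fn w m).card with h | h
      · rw [h, mul_zero] at h10
        omega
      · exact h
    have h13 : 0 < al f0 h Fn i w m := by omega
    have h14 : al f0 h Fn i w m = (SS Fn w m).card - (typ w m - bot f0 h i m) := rfl
    show typ (modw Fn w (S1 w)) m = _
    split_ifs at h8 ⊢ <;> omega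
  · intro w hw w' hw' h
    rw [Finset.mem_coe, Finset.mem_filter] at hw hw'
    obtain ⟨-, h1, h2, h3, h4⟩ := hw
    obtain ⟨-, h1', h2', h3', h4'⟩ := hw'
    obtain ⟨h5, h6⟩ := hval w h1 h2 h3
    obtain ⟨h5', h6'⟩ := hval w' h1' h2' h3'
    simp only [Sigma.mk.injEq, heq_eq_eq] at h
    obtain ⟨e1, e2⟩ := h
    have e3 : ∀ m, TT Fn w m = TT Fn w' m := by
      intro m
      rw [← tt_mod Fn w (S1 w) m, e2, tt_mod]
    have e4 : ∀ m, al f0 h Fn i w m = al f0 h Fn i w' m := by
      intro m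
      rw [← (val_inv f0 Fn i w ht h1 h2 (S1 w) h6).2.1 m, e2,
        (val_inv f0 Fn i w' ht h1' h2' (S1 w') h6').2.1 m]
    have e5 : ∀ m, S1 w m = S1 w' m := by
      intro m
      rw [← ss_mod Fn w (S1 w) (fun m => (h5 m).1) m, e2, ss_mod Fn w' (S1 w') (fun m => (h5' m).1) m]
    have e6 : ∀ m, SS Fn w m = SS Fn w' m := by
      intro m
      have h7 := hφ (TT Fn w m) (al f0 h Fn i w m) (h2 m)
      have h8 := h3' m
      rw [← e3 m, ← e4 m] at h8
      apply h7.2 (SS Fn w m) (h3 m) (SS Fn w' m) h8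
      have h9 : (φ (TT Fn w m) (al f0 h Fn i w m) (SS Fn w m)).1 =
          (φ (TT Fn w m) (al f0 h Fn i w m) (SS Fn w' m)).1 := by
        have := e5 m
        simp only [hS1] at this
        rw [← e3 m, ← e4 m] at this
        exact this
      have h10 : (φ (TT Fn w m) (al f0 h Fn i w m) (SS Fn w m)).2 =
          (φ (TT Fn w m) (al f0 h Fn i w m) (SS Fn w' m)).2 := by
        have := congrFun e1 m
        simp only [hb1] at this
        rw [← e3 m, ← e4 m] at this
        exact this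
      exact Prod.ext h9 h10
    calc w = modw Fn w (SS Fn w) := (mod_ss Fn w).symm
      _ = modw Fn (modw Fn w (S1 w)) (SS Fn w) := (mod_mod Fn w (S1 w) (SS Fn w)).symm
      _ = modw Fn (modw Fn w' (S1 w')) (SS Fn w') := by rw [e2, funext e6]
      _ = modw Fn w' (SS Fn w') := mod_mod Fn w' (S1 w') (SS Fn w')
      _ = w' := mod_ss Fn w'

end UNITS

end Pool.Agent.Lib_helper46.CC

namespace Pool.Agent.Lib_helper46.CC

alias count_units := count_units_pr

end Pool.Agent.Lib_helper46.CC
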