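import Mathlib
import Pool.Agent.Lib_helper46.CCF.WBase
import Pool.Agent.Lib_helper46.CCF.ZCL
import Pool.Agent.Lib_helper46.CCF.REP

/-! Block CVC, written by helper29. -/

/-!
# Block CVC (helper29): the chain of an edge is a chain
-/

set_option autoImplicit false

namespace Pool.Agent.Lib_helper46.CC

open Finset Pool.Agent.Lib_helper70.Chains
open scoped Classical

section

variable {r y z R t k h D D2 : ℕ} {δ B : ℝ}

theorem cvc_lt (b : PW r t) (S S' : Fin r → Finset (Fin t)) {m m' : Fin r} (hm : m < m')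
    (u : Pos r t) (hu : (rep b S u : ℕ) ≤ (m : ℕ)) : (rep b S' u : ℕ) ≤ (m' : ℕ) := by
  have hmn : (m : ℕ) < (m' : ℕ) := hm
  rw [low_rep] at hu ⊢
  by_cases h1 : u.1 = m'.castSucc ∧ u.2 ∈ Tr b m'
  · exfalso
    have hne : ¬ (u.1 = m.castSucc ∧ u.2 ∈ Tr b m) := by
      rintro ⟨h2, -⟩
      rw [h1.1] at h2
      have := congrArg Fin.val h2
      simp only [Fin.val_castSucc] at this
      omega
    rw [if_neg hne] at hu
    have h3 := (mem_filter.1 h1.2).2
    have h4 : (m'.castSucc, u.2) = u := by rw [← h1.1]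
    rw [h4] at h3
    omega
  · rw [if_neg h1]
    by_cases h2 : u.1 = m.castSucc ∧ u.2 ∈ Tr b m
    · have h3 := (mem_filter.1 h2.2).2
      have h4 : (m.castSucc, u.2) = u := by rw [← h2.1]
      rw [h4] at h3
      omega
    · rw [if_neg h2] at hu
      omega

theorem cvc_le (b : PW r t) (S S' : Fin r → Finset (Fin t)) (m : Fin r)
    (hS : ∀ x ∈ Tr b m, x ∈ S m → x ∈ S' m)
    (u : Pos r t) (hu : (rep b S u : ℕ) ≤ (m : ℕ)) : (rep b S' u : ℕ) ≤ (m : ℕ) := by
  rw [low_rep] at hu ⊢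
  by_cases h1 : u.1 = m.castSucc ∧ u.2 ∈ Tr b m
  · rw [if_pos h1] at hu ⊢
    exact hS _ h1.2 hu
  · rw [if_neg h1] at hu ⊢
    exact hu

theorem cvc_iff (b : PW r t) (S S' : Fin r → Finset (Fin t)) (m : Fin r)
    (hS : ∀ x ∈ Tr b m, x ∈ S m ↔ x ∈ S' m)
    (u : Pos r t) : (rep b S u : ℕ) ≤ (m : ℕ) ↔ (rep b S' u : ℕ) ≤ (m : ℕ) :=
  ⟨cvc_le b S S' m (fun x hx => (hS x hx).1) u, cvc_le b S' S m (fun x hx => (hS x hx).2) u⟩

theorem cvc_wt (κ : Ker r k t h D D2 δ B) (A : ℝ) (f0 : Fin r → ℕ) (Fn : LF r z R t)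
    (e : Edge r y z R t k h) (he : wt κ A f0 Fn e ≠ 0) :
    (∀ m, st0 e m = f0 m) ∧ (∀ m, VH A m (e.2.1 m)) ∧
      (∀ p, wp κ (prt Fn e) p (e.2.2 p) ≠ 0) := by
  unfold wt at he
  by_cases h0 : ∀ m, st0 e m = f0 m
  · rw [if_pos h0] at he
    obtain ⟨h1, h2⟩ := mul_ne_zero_iff.1 he
    refine ⟨h0, fun m => ?_, fun p => ?_⟩
    · have h3 := (prod_ne_zero_iff.1 h1) m (mem_univ m)
      unfold wz at h3
      by_contra h4
      rw [if_neg h4] at h3
      exact h3 rfl
    · exact (prod_ne_zero_iff.1 h2) p (mem_univ p)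
  · rw [if_neg h0] at he
    exact absurd rfl he

theorem cvc_wp (κ : Ker r k t h D D2 δ B) (f : Fin r → Fin k → Fin R) (p : Fin R)
    (d : PW r t × (Fin r → Finset (Fin t) × (Fin (k * (2 * h) + 1) → Finset (Fin t))))
    (hd : wp κ f p d ≠ 0) (m : Fin r) : pv (d.2 m).2 0 = Sr d.1 m ∧
      κ.K (hib f p) (usz f p m) (Tr d.1 m) (d.2 m).1 (d.2 m).2 ≠ 0 := by
  unfold wp at hd
  have h3 := (prod_ne_zero_iff.1 hd) m (mem_univ m)
  by_cases h4 : pv (d.2 m).2 0 = Sr d.1 m
  · rw [if_pos h4] at h3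
    exact ⟨h4, h3⟩
  · rw [if_neg h4] at h3
    exact absurd rfl h3

/-- the time of the part `p` is monotone -/
theorem cvc_time (f : Fin r → Fin k → Fin R) (p : Fin R) (m : Fin r) (j j' : Fin k) (l l' : ℕ)
    (hl : l ≤ 2 * h) (hlt : j < j' ∨ (j = j' ∧ l ≤ l')) :
    pas f p m j * (2 * h) + (if f m j = p then l else 0) ≤
      pas f p m j' * (2 * h) + (if f m j' = p then l' else 0) := by
  rcases hlt with hlt | ⟨rfl, hle⟩
  · have h1 : pas f p m j + (if f m j = p then 1 else 0) ≤ pas f p m j' := by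
      unfold pas
      have hjj : (j : ℕ) < (j' : ℕ) := hlt
      by_cases hp : f m j = p
      · rw [if_pos hp]
        have h2 : insert j (univ.filter (fun j'' : Fin k => f m j'' = p ∧ (j'' : ℕ) < j)) ⊆
            univ.filter (fun j'' : Fin k => f m j'' = p ∧ (j'' : ℕ) < j') := by
          intro x hx
          rw [mem_insert] at hx
          rcases hx with rfl | hx
          · exact mem_filter.2 ⟨mem_univ _, hp, hjj⟩
          · obtain ⟨-, hx1, hx2⟩ := mem_filter.1 hx
            exact mem_filter.2 ⟨mem_univ _, hx1, hx2.trans hjj⟩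
        have h3 := card_le_card h2
        rw [card_insert_of_notMem (by
          intro hx
          exact lt_irrefl _ (mem_filter.1 hx).2.2)] at h3
        exact h3
      · rw [if_neg hp, add_zero]
        refine card_le_card ?_
        intro x hx
        obtain ⟨-, hx1, hx2⟩ := mem_filter.1 hx
        exact mem_filter.2 ⟨mem_univ _, hx1, hx2.trans hjj⟩
    calc pas f p m j * (2 * h) + (if f m j = p then l else 0) ≤
        (pas f p m j + (if f m j = p then 1 else 0)) * (2 * h) := by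
          by_cases hp : f m j = p
          · rw [if_pos hp, if_pos hp, add_mul, one_mul]
            omega
          · rw [if_neg hp, if_neg hp, add_zero, add_zero]
      _ ≤ pas f p m j' * (2 * h) := Nat.mul_le_mul_right _ h1
      _ ≤ _ := Nat.le_add_right _ _
  · split_ifs <;> omega

/-- the letters of the words along the chain -/
theorem cvc_low (Fn : LF r z R t) (e : Edge r y z R t k h) {m m' : Fin r} {j j' : Fin k}
    {l l' : ℕ}
    (h1 : ∀ x, (e.1 x : ℕ) ≤ (m : ℕ) → (e.1 x : ℕ) ≤ (m' : ℕ))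
    (h2 : ∀ b x, (e.2.1 b j x : ℕ) ≤ (m : ℕ) → (e.2.1 b j' x : ℕ) ≤ (m' : ℕ))
    (h3 : ∀ p (u : Pos r t), (rep (e.2.2 p).1 (fun m'' => pv ((e.2.2 p).2 m'').2
      (pas (prt Fn e) p m j * (2 * h) + if prt Fn e m j = p then l else 0)) u : ℕ) ≤ (m : ℕ) →
      (rep (e.2.2 p).1 (fun m'' => pv ((e.2.2 p).2 m'').2
      (pas (prt Fn e) p m' j' * (2 * h) + if prt Fn e m' j' = p then l' else 0)) u : ℕ) ≤
        (m' : ℕ)) :
    low (cw Fn e m j l) m ⊆ low (cw Fn e m' j' l') m' := by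
  intro x hx
  unfold low at hx ⊢
  rw [mem_filter] at hx ⊢
  refine ⟨mem_univ _, ?_⟩
  rcases x with x | ⟨b, x⟩ | ⟨p, x⟩
  · exact h1 x hx.2
  · exact h2 b x hx.2
  · exact h3 p _ hx.2

theorem cvc_wv (Fn : LF r z R t) (w : Word r y z R t) (S : Fin r → Finset (Fin t)) (p : Fin R)
    (x : Pos r t) : wv (modw Fn w S) (Sum.inr (Sum.inr (p, x))) =
      rep (lw Fn w p) (fun m => if (cur Fn w m).1 = p then S m else Sr (lw Fn w p) m)
        ((frs (cur Fn w) p).symm x) := rfl

/-- Block CVC: the chain of an edge is a chain -/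
theorem chn_chain_pr (κ : Ker r k t h D D2 δ B) (A : ℝ) (f0 : Fin r → ℕ) (Fn : LF r z R t)
    (e : Edge r y z R t k h) (he : wt κ A f0 Fn e ≠ 0) :
    IsChain (· ⊆ ·) (chn Fn e : Set (Finset (Gr r y z R t))) := by
  obtain ⟨-, hVH, hwp⟩ := cvc_wt κ A f0 Fn e he
  -- different coordinates
  have hlt : ∀ (m m' : Fin r) (j j' : Fin k) (l l' : ℕ), m < m' →
      low (cw Fn e m j l) m ⊆ low (cw Fn e m' j' l') m' := by
    intro m m' j j' l l' hm
    have hmn : (m : ℕ) < (m' : ℕ) := hm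
    refine cvc_low Fn e ?_ ?_ ?_
    · intro x hx; omega
    · intro b x hx
      by_cases hb : m = b
      · have hb' : m' ≠ b := fun h => by rw [← h] at hb; omega
        exact (vh_other (hVH b) j j' m' hb' x).1 (by omega)
      · have := (vh_other (hVH b) j j' m hb x).1 hx
        omega
    · intro p u hu
      exact cvc_lt _ _ _ hm u hu
  -- the same coordinate
  have heq : ∀ (m : Fin r) (j j' : Fin k) (l l' : ℕ), l ≤ 2 * h →
      (j < j' ∨ (j = j' ∧ l ≤ l')) →
      low (cw Fn e m j l) m ⊆ low (cw Fn e m j' l') m := by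
    intro m j j' l l' hl hjl
    have hjj : j ≤ j' := by
      rcases hjl with h | ⟨h, -⟩
      · exact h.le
      · exact h.le
    refine cvc_low Fn e (fun x hx => hx) ?_ ?_
    · intro b x hx
      by_cases hb : m = b
      · subst hb
        exact vh_mono (hVH m) j j' hjj x hx
      · exact (vh_other (hVH b) j j' m hb x).1 hx
    · intro p u hu
      refine cvc_le _ _ _ m ?_ u hu
      intro x _ hx
      have hK := (cvc_wp κ (prt Fn e) p (e.2.2 p) (hwp p) m).2
      exact (κ.supp _ _ _ _ _ hK).1 _ _ (cvc_time (prt Fn e) p m j j' l l' hl hjl) hx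
  intro a ha b hb _
  unfold chn at ha hb
  simp only [coe_biUnion, Set.mem_iUnion, coe_univ, Set.mem_univ, coe_image, Set.mem_image,
    coe_range, Set.mem_Iio, exists_prop, true_and] at ha hb
  obtain ⟨m, j, l, hl, rfl⟩ := ha
  obtain ⟨m', j', l', hl', rfl⟩ := hb
  rcases lt_trichotomy m m' with hm | rfl | hm
  · exact Or.inl (hlt m m' j j' l l' hm)
  · rcases lt_trichotomy j j' with hj | rfl | hj
    · exact Or.inl (heq m j j' l l' (by omega) (Or.inl hj))
    · rcases le_total l l' with hl2 | hl2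
      · exact Or.inl (heq m j j l l' (by omega) (Or.inr ⟨rfl, hl2⟩))
      · exact Or.inr (heq m j j l' l (by omega) (Or.inr ⟨rfl, hl2⟩))
    · exact Or.inr (heq m j' j l' l (by omega) (Or.inl hj))
  · exact Or.inr (hlt m' m j' j l' l hm)

end

end Pool.Agent.Lib_helper46.CC

namespace Pool.Agent.Lib_helper46.CC

alias chn_chain := chn_chain_pr

end Pool.Agent.Lib_helper46.CC
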