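import Mathlib
import Pool.Agent.Lib_helper46.CCF.WBase
import Pool.Agent.Lib_helper46.CCF.FSG
import Pool.Agent.Lib_helper46.CCF.ZCL
import Pool.Agent.Lib_helper46.CCF.REP

/-! Block KET, written by helper28. -/

/-!
# CC, block KET: the type of the start word
-/

set_option autoImplicit false

namespace Pool.Agent.Lib_helper46.CC

open Finset Pool.Agent.Lib_helper70.Chains
open scoped Classical

section EDGES

variable {r y z R t k h D D2 : ℕ} {δ B : ℝ}

theorem ket_wp (κ : Ker r k t h D D2 δ B) (f : Fin r → Fin k → Fin R) (p : Fin R)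
    (d : PW r t × (Fin r → Finset (Fin t) × (Fin (k * (2 * h) + 1) → Finset (Fin t))))
    (hd : wp κ f p d ≠ 0) (m : Fin r) :
    pv (d.2 m).2 0 = Sr d.1 m ∧
      κ.K (hib f p) (usz f p m) (Tr d.1 m) (d.2 m).1 (d.2 m).2 ≠ 0 := by
  unfold wp at hd
  rw [Finset.prod_ne_zero_iff] at hd
  have h1 := hd m (Finset.mem_univ m)
  by_cases h2 : pv (d.2 m).2 0 = Sr d.1 m
  · rw [if_pos h2] at h1
    exact ⟨h2, h1⟩
  · rw [if_neg h2] at h1
    exact absurd rfl h1

theorem ket_pas_le (f : Fin r → Fin k → Fin R) (p : Fin R) (m : Fin r) (j : ℕ) :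
    pas f p m j ≤ usz f p m := by
  unfold pas usz
  apply Finset.card_le_card
  intro j' hj'
  rw [Finset.mem_filter] at hj' ⊢
  exact ⟨hj'.1, hj'.2.1⟩

/-- Block KET: the type of the start word -/
theorem key_type_pr (κ : Ker r k t h D D2 δ B) (A : ℝ) (f0 : Fin r → ℕ) (Fn : LF r z R t)
    (i : Fin r → Fin k) (w : Word r y z R t) (hw : InC f0 h i w) (hok : OkW f0 h Fn i w)
    (e : Edge r y z R t k h) (he : FreE Fn e i) (hu : uw Fn e i = w)
    (h1 : ∀ m, VH A m (e.2.1 m)) (h2 : ∀ p, wp κ (prt Fn e) p (e.2.2 p) ≠ 0) :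
    (∀ m, st0 e m = f0 m) ↔
      ∀ m, (pv ((e.2.2 (prt Fn e m (i m))).2 m).2 0).card = al f0 h Fn i w m := by
  apply forall_congr'
  intro m
  have hk : 0 < k := (i m).pos
  set pm : Fin R := prt Fn e m (i m) with hpm
  set mk : Finset (Fin t) := ((e.2.2 pm).2 m).1 with hmk
  have hfre : Fre i (prt Fn e) := he
  -- the current part
  obtain ⟨hus, hpas, hhib⟩ := usz_cur i (prt Fn e) hfre pm ⟨m, rfl⟩ m
  rw [if_pos rfl] at hus
  obtain ⟨hst, hK⟩ := ket_wp κ (prt Fn e) pm (e.2.2 pm) (h2 pm) m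
  rw [hhib, hus] at hK
  have hmksub : mk ⊆ Tr (e.2.2 pm).1 m := κ.cur_sub _ _ _ hK
  -- the words of the parts
  have hw2 : ∀ p, w.2.2 p = rep (e.2.2 p).1 (fun m => if prt Fn e m (i m) = p then
      ((e.2.2 p).2 m).1 else pv ((e.2.2 p).2 m).2 (pas (prt Fn e) p m (i m) * (2 * h))) ∘
        (fsg (lab Fn e) p).symm := by
    intro p
    rw [← hu]
    rfl
  have hcur : cur Fn w = fun m => lab Fn e m (i m) := by
    funext m'
    rw [← hu]
    rfl
  have hcm : (cur Fn w m).1 = pm := by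
    rw [hcur]
    rfl
  -- the mark is the set `SS`
  have hSS : SS Fn w m = mk := by
    unfold SS
    rw [hcm]
    have h3 : lw Fn w pm = rep (e.2.2 pm).1 (fun m => if prt Fn e m (i m) = pm then
      ((e.2.2 pm).2 m).1 else pv ((e.2.2 pm).2 m).2 (pas (prt Fn e) pm m (i m) * (2 * h))) := by
      unfold lw
      rw [hw2 pm, hcur]
      have h4 : fsg (lab Fn e) pm = frs (fun m => lab Fn e m (i m)) pm :=
        fsg_eq i (lab Fn e) hfre pm ⟨m, rfl⟩
      rw [h4]
      funext x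
      simp
    rw [h3, sr_rep]
    show Tr (e.2.2 pm).1 m ∩ (if prt Fn e m (i m) = pm then ((e.2.2 pm).2 m).1 else _) = mk
    rw [if_pos rfl]
    exact Finset.inter_eq_right.2 hmksub
  -- the contribution of one part
  have hpart : ∀ p, (cl (w.2.2 p) m : ℤ) = cl (e.2.2 p).1 m +
      (if p = pm then (mk.card : ℤ) - (pv ((e.2.2 pm).2 m).2 0).card
        else (pas (prt Fn e) p m (i m) : ℤ) * (2 * h)) := by
    intro p
    rw [hw2 p, cl_perm]
    by_cases hp : p = pm
    · subst hp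
      rw [if_pos rfl]
      have h3 := cl_rep (e.2.2 pm).1 (fun m => if prt Fn e m (i m) = pm then
        ((e.2.2 pm).2 m).1 else pv ((e.2.2 pm).2 m).2 (pas (prt Fn e) pm m (i m) * (2 * h))) m (by
          show (if prt Fn e m (i m) = pm then ((e.2.2 pm).2 m).1 else _) ⊆ _
          rw [if_pos rfl]
          exact hmksub)
      have h4 : (if prt Fn e m (i m) = pm then ((e.2.2 pm).2 m).1 else
        pv ((e.2.2 pm).2 m).2 (pas (prt Fn e) pm m (i m) * (2 * h))) = mk := if_pos rfl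
      have h5 : cl (rep (e.2.2 pm).1 (fun m => if prt Fn e m (i m) = pm then
        ((e.2.2 pm).2 m).1 else pv ((e.2.2 pm).2 m).2 (pas (prt Fn e) pm m (i m) * (2 * h)))) m +
          (Sr (e.2.2 pm).1 m).card = cl (e.2.2 pm).1 m + mk.card := by
        rw [h3]
        show cl (e.2.2 pm).1 m + (if prt Fn e m (i m) = pm then ((e.2.2 pm).2 m).1 else
          pv ((e.2.2 pm).2 m).2 (pas (prt Fn e) pm m (i m) * (2 * h))).card = _
        rw [h4]
      rw [← hst] at h5
      have h6 := congrArg (fun n : ℕ => (n : ℤ)) h5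
      push_cast at h6
      linarith
    · rw [if_neg hp]
      have hne : prt Fn e m (i m) ≠ p := fun h => hp h.symm
      obtain ⟨hst', hK'⟩ := ket_wp κ (prt Fn e) p (e.2.2 p) (h2 p) m
      obtain ⟨_, hs⟩ := κ.supp _ _ _ _ _ hK'
      obtain ⟨hsub, hcard⟩ := hs (pas (prt Fn e) p m (i m) * (2 * h))
      have hmin : min (pas (prt Fn e) p m (i m) * (2 * h)) (usz (prt Fn e) p m * (2 * h)) =
          pas (prt Fn e) p m (i m) * (2 * h) :=
        min_eq_left (Nat.mul_le_mul_right _ (ket_pas_le _ _ _ _))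
      rw [hmin, hst'] at hcard
      have h4 : (if prt Fn e m (i m) = p then ((e.2.2 p).2 m).1 else
        pv ((e.2.2 p).2 m).2 (pas (prt Fn e) p m (i m) * (2 * h))) =
          pv ((e.2.2 p).2 m).2 (pas (prt Fn e) p m (i m) * (2 * h)) := if_neg hne
      have h3 := cl_rep (e.2.2 p).1 (fun m => if prt Fn e m (i m) = p then
        ((e.2.2 p).2 m).1 else pv ((e.2.2 p).2 m).2 (pas (prt Fn e) p m (i m) * (2 * h))) m (by
          show (if prt Fn e m (i m) = p then ((e.2.2 p).2 m).1 else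
            pv ((e.2.2 p).2 m).2 (pas (prt Fn e) p m (i m) * (2 * h))) ⊆ _
          rw [h4]
          exact hsub)
      have h5 : cl (rep (e.2.2 p).1 (fun m => if prt Fn e m (i m) = p then
        ((e.2.2 p).2 m).1 else pv ((e.2.2 p).2 m).2 (pas (prt Fn e) p m (i m) * (2 * h)))) m +
          (Sr (e.2.2 p).1 m).card = cl (e.2.2 p).1 m +
            ((Sr (e.2.2 p).1 m).card + pas (prt Fn e) p m (i m) * (2 * h)) := by
        rw [h3, ← hcard]
        show cl (e.2.2 p).1 m + (if prt Fn e m (i m) = p then ((e.2.2 p).2 m).1 else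
          pv ((e.2.2 p).2 m).2 (pas (prt Fn e) p m (i m) * (2 * h))).card = _
        rw [h4]
      have h6 := congrArg (fun n : ℕ => (n : ℤ)) h5
      push_cast at h6
      linarith
  have hparts : (∑ p, (cl (w.2.2 p) m : ℤ)) = (∑ p, (cl (e.2.2 p).1 m : ℤ)) +
      (i m : ℕ) * (2 * h) + ((mk.card : ℤ) - (pv ((e.2.2 pm).2 m).2 0).card) := by
    rw [Finset.sum_congr rfl fun p _ => hpart p, Finset.sum_add_distrib]
    have h3 : ∑ p, (if p = pm then (mk.card : ℤ) - (pv ((e.2.2 pm).2 m).2 0).card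
        else (pas (prt Fn e) p m (i m) : ℤ) * (2 * h)) =
        ((mk.card : ℤ) - (pv ((e.2.2 pm).2 m).2 0).card) +
          ∑ p ∈ univ.filter (fun p => p ≠ pm), (pas (prt Fn e) p m (i m) : ℤ) * (2 * h) := by
      rw [Finset.filter_ne', ← Finset.add_sum_erase _ _ (Finset.mem_univ pm), if_pos rfl]
      congr 1
      apply Finset.sum_congr rfl
      intro p hp
      rw [if_neg (Finset.ne_of_mem_erase hp)]
    rw [h3, ← Finset.sum_mul]
    have h4 := pas_sum i (prt Fn e) hfre m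
    have h5 : (∑ p ∈ univ.filter (fun p => p ≠ pm), (pas (prt Fn e) p m (i m) : ℤ)) =
        ((i m : ℕ) : ℤ) := by
      have h51 := congrArg (fun n : ℕ => (n : ℤ)) h4
      push_cast at h51
      exact h51
    rw [h5]
    ring
  -- the blocks
  have hblocks : (∑ m', (cl (w.2.1 m') m : ℤ)) =
      (∑ m', (cl (e.2.1 m' ⟨0, hk⟩) m : ℤ)) + (i m : ℕ) := by
    have h3 : ∀ m', (cl (w.2.1 m') m : ℤ) = cl (e.2.1 m' ⟨0, hk⟩) m +
        (if m' = m then ((i m' : ℕ) : ℤ) else 0) := by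
      intro m'
      have h4 := vh_cl (h1 m') ⟨0, hk⟩ (i m') m
      have h5 : w.2.1 m' = e.2.1 m' (i m') := by
        rw [← hu]
        rfl
      rw [h5]
      by_cases h6 : m = m'
      · subst h6
        simp only [if_true] at h4 ⊢
        push_cast at h4
        linarith
      · rw [if_neg h6] at h4
        rw [if_neg fun h => h6 h.symm]
        linarith
    rw [Finset.sum_congr rfl fun m' _ => h3 m', Finset.sum_add_distrib, Finset.sum_ite_eq']
    simp
  -- the type
  have hw1 : w.1 = e.1 := by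
    rw [← hu]
    rfl
  have htyp : (typ w m : ℤ) = st0 e m + (i m : ℕ) * (2 * h + 1) +
      ((mk.card : ℤ) - (pv ((e.2.2 pm).2 m).2 0).card) := by
    have h3 : (st0 e m : ℤ) = cl e.1 m + (∑ m', (cl (e.2.1 m' ⟨0, hk⟩) m : ℤ)) +
        ∑ p, (cl (e.2.2 p).1 m : ℤ) := by
      have h4 : st0 e m = cl e.1 m + (∑ m', cl (e.2.1 m' ⟨0, hk⟩) m) +
          ∑ p, cl (e.2.2 p).1 m := by
        show cl e.1 m + ∑ m', (if hk : 0 < k then cl (e.2.1 m' ⟨0, hk⟩) m else 0) +
          ∑ p, cl (e.2.2 p).1 m = _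
        have h31 : ∀ m' : Fin r, (if hk : 0 < k then cl (e.2.1 m' ⟨0, hk⟩) m else 0) =
            cl (e.2.1 m' ⟨0, hk⟩) m := fun m' => dif_pos hk
        rw [Finset.sum_congr rfl fun m' _ => h31 m']
      rw [h4]
      push_cast
      ring
    have h4 : (typ w m : ℤ) = cl w.1 m + (∑ m', (cl (w.2.1 m') m : ℤ)) +
        ∑ p, (cl (w.2.2 p) m : ℤ) := by
      unfold typ
      push_cast
      ring
    rw [h4, h3, hparts, hblocks, hw1]
    ring
  -- the levels
  obtain ⟨hb1, hb2⟩ := hw m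
  obtain ⟨ho1, ho2, ho3⟩ := hok m
  unfold al at ho2 ho3 ⊢
  unfold bot at hb1 hb2 ho2 ho3 ⊢
  rw [hSS] at ho2 ho3 ⊢
  have hle : typ w m - (f0 m + ((i m : Fin k) : ℕ) * (2 * h + 1)) ≤ mk.card := by
    by_contra hcon
    push Not at hcon
    have h3 : mk.card - (typ w m - (f0 m + ((i m : Fin k) : ℕ) * (2 * h + 1))) = 0 := by omega
    rw [h3] at ho2 ho3
    omega
  have hprod : ((f0 m + ((i m : Fin k) : ℕ) * (2 * h + 1) : ℕ) : ℤ) =
      f0 m + ((i m : ℕ) : ℤ) * (2 * h + 1) := by push_cast; ring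
  constructor
  · intro h3
    rw [h3] at htyp
    omega
  · intro h3
    omega

end EDGES

end Pool.Agent.Lib_helper46.CC

namespace Pool.Agent.Lib_helper46.CC

alias key_type := key_type_pr

end Pool.Agent.Lib_helper46.CC
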