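import Mathlib
import Pool.Agent.Lib_helper46.CCF.CVC
import Pool.Agent.Lib_helper46.CCF.KET
import Pool.Agent.Lib_helper46.CCF.FSG
import Pool.Agent.Lib_helper46.CCF.ZCL
import Pool.Agent.Lib_helper46.CCF.CLA
import Pool.Agent.Lib_helper46.CCF.REP

/-! Block CVE, written by helper29. -/

/-!
# Block CVE (helper29): the chain of an edge covers its units
-/

set_option autoImplicit false

namespace Pool.Agent.Lib_helper46.CC

open Finset Pool.Agent.Lib_helper70.Chains
open scoped Classical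

section

variable {r y z R t k h D D2 : ℕ} {δ B : ℝ}

/-- the sets of the unit in a part -/
noncomputable def cve_S (Fn : LF r z R t) (e : Edge r y z R t k h) (i : Fin r → Fin k) (p : Fin R)
    (m : Fin r) : Finset (Fin t) :=
  if prt Fn e m (i m) = p then ((e.2.2 p).2 m).1
    else pv ((e.2.2 p).2 m).2 (pas (prt Fn e) p m (i m) * (2 * h))

theorem cve_lw (Fn : LF r z R t) (e : Edge r y z R t k h) (i : Fin r → Fin k)
    (hi : FreE Fn e i) (p : Fin R) (hp : ∃ m, prt Fn e m (i m) = p) :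
    frs (cur Fn (uw Fn e i)) p = fsg (lab Fn e) p ∧
      lw Fn (uw Fn e i) p = rep (e.2.2 p).1 (cve_S Fn e i p) := by
  have h1 : fsg (lab Fn e) p = frs (cur Fn (uw Fn e i)) p := fsg_eq i (lab Fn e) hi p hp
  refine ⟨h1.symm, ?_⟩
  unfold lw
  rw [← h1]
  funext x
  change rep (e.2.2 p).1 (cve_S Fn e i p) ((fsg (lab Fn e) p).symm ((fsg (lab Fn e) p) x)) = _
  rw [Equiv.symm_apply_apply]

theorem cve_cw (Fn : LF r z R t) (e : Edge r y z R t k h) (m : Fin r) (j : Fin k) (l : ℕ)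
    (p : Fin R) (x : Pos r t) : wv (cw Fn e m j l) (Sum.inr (Sum.inr (p, x))) =
      rep (e.2.2 p).1 (fun m' => pv ((e.2.2 p).2 m').2
        (pas (prt Fn e) p m j * (2 * h) + if prt Fn e m j = p then l else 0))
        ((fsg (lab Fn e) p).symm x) := rfl

/-- Block CVE: the chain of an edge covers its units -/
theorem chn_cover_pr (κ : Ker r k t h D D2 δ B) (A : ℝ) (f0 : Fin r → ℕ) (Fn : LF r z R t)
    (e : Edge r y z R t k h) (he : wt κ A f0 Fn e ≠ 0) (i : Fin r → Fin k) (hi : FreE Fn e i)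
    (ht : 0 < t) (w : Word r y z R t) (hu : uw Fn e i = w) (hw : InC f0 h i w)
    (hok : OkW f0 h Fn i w) (hrp : Rp κ f0 Fn i w) (S : Fin r → Finset (Fin t))
    (hS : Val f0 h Fn i w S)
    (hst : ∀ m, κ.st (TT Fn w m) (al f0 h Fn i w m) (S m) = SS Fn w m) (m : Fin r) :
    low (modw Fn w S) m ∈ chn Fn e := by
  obtain ⟨h0, hVH, hwp⟩ := cvc_wt κ A f0 Fn e he
  have hcard := (key_type κ A f0 Fn i w hw hok e hi hu hVH hwp).1 h0 m
  subst hu
  set p₀ : Fin R := prt Fn e m (i m) with hp₀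
  have hcur : (cur Fn (uw Fn e i) m).1 = p₀ := rfl
  obtain ⟨hσ, hlw⟩ := cve_lw Fn e i hi p₀ ⟨m, rfl⟩
  obtain ⟨hus, hpas, hhib⟩ := usz_cur i (prt Fn e) hi p₀ ⟨m, rfl⟩ m
  have hK := (cvc_wp κ (prt Fn e) p₀ (e.2.2 p₀) (hwp p₀) m).2
  rw [hus, if_pos hp₀.symm, hhib] at hK
  have hmark := κ.cur_sub _ _ _ hK
  have hTT : TT Fn (uw Fn e i) m = Tr (e.2.2 p₀).1 m := by
    unfold TT
    rw [hcur, hlw, tr_rep]
  have hSS : SS Fn (uw Fn e i) m = ((e.2.2 p₀).2 m).1 := by
    unfold SS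
    rw [hcur, hlw, sr_rep]
    unfold cve_S
    rw [if_pos hp₀.symm, inter_eq_right.2 hmark]
  obtain ⟨hS1, hS2, hS3⟩ := hS m
  have hpath : pv ((e.2.2 p₀).2 m).2 ((S m).card - al f0 h Fn i (uw Fn e i) m) = S m := by
    have h1 := κ.cur_supp _ _ _ hK (by rw [hcard, ← hTT]; exact hok m) (S m)
      (by rw [← hTT]; exact hS1) (by rw [hcard]; exact hS2) (by rw [hcard]; exact hS3)
      (by rw [hcard, ← hTT, hst m, hSS])
    rwa [hcard] at h1
  set l : ℕ := (S m).card - al f0 h Fn i (uw Fn e i) m with hl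
  have hlh : l ≤ 2 * h := by omega
  have hmain : low (modw Fn (uw Fn e i) S) m = low (cw Fn e m (i m) l) m := by
    unfold low
    refine filter_congr fun x _ => ?_
    rcases x with x | ⟨b, x⟩ | ⟨p, x⟩
    · exact Iff.rfl
    · change ((e.2.1 b (i b) x : ℕ)) ≤ (m : ℕ) ↔ ((e.2.1 b (i m) x : ℕ)) ≤ (m : ℕ)
      by_cases hb : m = b
      · subst hb
        exact Iff.rfl
      · exact vh_other (hVH b) (i b) (i m) m hb x
    · by_cases hp : ∃ m', prt Fn e m' (i m') = p
      · obtain ⟨hσp, hlwp⟩ := cve_lw Fn e i hi p hp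
        have hrr : ∀ X, rep (lw Fn (uw Fn e i) p) X = rep (e.2.2 p).1 X := fun X => by
          rw [hlwp, rep_rep]
        rw [cvc_wv, hσp, hrr, cve_cw]
        refine cvc_iff _ _ _ m ?_ _
        intro x' hx'
        by_cases hc : prt Fn e m (i m) = p
        · have hc' : (cur Fn (uw Fn e i) m).1 = p := hc
          have hpp : p₀ = p := hc
          rw [if_pos hc', if_pos hc, ← hpp, hpas, zero_mul, zero_add, hpath]
        · have hc' : ¬ (cur Fn (uw Fn e i) m).1 = p := hc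
          rw [if_neg hc', if_neg hc, hlwp, sr_rep, mem_inter]
          unfold cve_S
          rw [if_neg hc, add_zero]
          exact ⟨fun h => h.2, fun h => ⟨hx', h⟩⟩
      · have hp' : ∀ m', prt Fn e m' (i m') ≠ p := fun m' h => hp ⟨m', h⟩
        have h1 : wv (modw Fn (uw Fn e i) S) (Sum.inr (Sum.inr (p, x))) =
            rep (e.2.2 p).1 (cve_S Fn e i p) ((fsg (lab Fn e) p).symm x) := by
          have h2 : wv (modw Fn (uw Fn e i) S) (Sum.inr (Sum.inr (p, x))) =
            (modw Fn (uw Fn e i) S).2.2 p x := rfl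
          rw [h2, mod_frozen Fn (uw Fn e i) S p hp']
          rfl
        rw [h1, cve_cw]
        refine cvc_iff _ _ _ m ?_ _
        intro x' hx'
        unfold cve_S
        rw [if_neg (hp' m), if_neg (hp' m), add_zero]
  rw [hmain]
  unfold chn
  rw [mem_biUnion]
  refine ⟨m, mem_univ _, ?_⟩
  rw [mem_biUnion]
  refine ⟨i m, mem_univ _, ?_⟩
  rw [mem_image]
  exact ⟨l, mem_range.2 (by omega), rfl⟩

end

end Pool.Agent.Lib_helper46.CC

namespace Pool.Agent.Lib_helper46.CC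

alias chn_cover := chn_cover_pr

end Pool.Agent.Lib_helper46.CC
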