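import Mathlib
import Pool.Agent.Lib_helper46.CCF.WBase
import Pool.Agent.Lib_helper46.CCF.REP

/-! Block KEP, written by helper95. -/

/-!
# MP_10b4aa_co: blocks KEP and KEQ
-/

set_option autoImplicit false

namespace Pool.Agent.Lib_helper46.CC

open Finset Pool.Agent.Lib_helper70.Chains
open scoped Classical

variable {r y z R t k h D D2 : ℕ} {δ B : ℝ}

/-- marked paths -/
abbrev kep_M (t k h : ℕ) := Finset (Fin t) × (Fin (k * (2 * h) + 1) → Finset (Fin t))

theorem kep_fiber (κ : Ker r k t h D D2 δ B) (f : Fin r → Fin k → Fin R) (p : Fin R)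
    (X : Fin r → kep_M t k h → Finset (Fin t)) (Cn : Fin r → kep_M t k h → Prop)
    (hX : ∀ m T s, κ.K (hib f p) (usz f p m) T s.1 s.2 ≠ 0 → X m s ⊆ T)
    (β : PW r t) (q : Fin r → kep_M t k h) :
    (∑ b : PW r t, if rep b (fun m => X m (q m)) = β ∧ (∀ m, Cn m (q m)) then
      wp κ f p (b, q) else 0) =
      ∏ m, (if X m (q m) = Sr β m ∧ Cn m (q m) then
        κ.K (hib f p) (usz f p m) (Tr β m) (q m).1 (q m).2 else 0) := by
  set G : PW r t → ℝ := fun b => if rep b (fun m => X m (q m)) = β ∧ (∀ m, Cn m (q m)) then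
      wp κ f p (b, q) else 0 with hG
  set b0 : PW r t := rep β (fun m => pv (q m).2 0) with hb0
  have hwp : ∀ b, wp κ f p (b, q) ≠ 0 → (∀ m, pv (q m).2 0 = Sr b m) ∧
      (∀ m, κ.K (hib f p) (usz f p m) (Tr b m) (q m).1 (q m).2 ≠ 0) ∧
      wp κ f p (b, q) = ∏ m, κ.K (hib f p) (usz f p m) (Tr b m) (q m).1 (q m).2 := by
    intro b hb
    have h1 : ∀ m, (if pv (q m).2 0 = Sr b m then
        κ.K (hib f p) (usz f p m) (Tr b m) (q m).1 (q m).2 else 0) ≠ 0 := by
      intro m
      exact Finset.prod_ne_zero_iff.1 hb m (Finset.mem_univ m)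
    have h2 : ∀ m, pv (q m).2 0 = Sr b m := fun m => by
      by_contra hne
      exact h1 m (if_neg hne)
    refine ⟨h2, fun m => ?_, ?_⟩
    · have := h1 m
      rwa [if_pos (h2 m)] at this
    · show (∏ m, if pv (q m).2 0 = Sr b m then _ else 0) = _
      exact Finset.prod_congr rfl fun m _ => if_pos (h2 m)
  -- a nonzero term
  have hterm : ∀ b, G b ≠ 0 → b = b0 ∧ G b =
      ∏ m, (if X m (q m) = Sr β m ∧ Cn m (q m) then
        κ.K (hib f p) (usz f p m) (Tr β m) (q m).1 (q m).2 else 0) := by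
    intro b hb
    have hc : rep b (fun m => X m (q m)) = β ∧ (∀ m, Cn m (q m)) := by
      by_contra hne
      exact hb (if_neg hne)
    have hGb : G b = wp κ f p (b, q) := if_pos hc
    rw [hGb] at hb
    obtain ⟨h1, h2, h3⟩ := hwp b hb
    have hT : ∀ m, Tr b m = Tr β m := fun m => by rw [← hc.1, tr_rep]
    constructor
    · have h4 : (fun m => pv (q m).2 0) = Sr b := funext h1
      rw [hb0, ← hc.1, rep_rep, h4, rep_sr]
    · rw [hGb, h3]
      refine Finset.prod_congr rfl fun m _ => ?_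
      rw [hT m, if_pos]
      refine ⟨?_, hc.2 m⟩
      have h5 : Sr β m = Tr b m ∩ X m (q m) := by rw [← hc.1, sr_rep]
      rw [h5]
      exact (Finset.inter_eq_right.2 (hX m _ _ (h2 m))).symm
  have hsum : ∑ b, G b = G b0 := by
    refine Finset.sum_eq_single_of_mem b0 (Finset.mem_univ _) fun b _ hne => ?_
    by_contra hb
    exact hne (hterm b hb).1
  rw [hsum]
  by_cases h0 : G b0 = 0
  · rw [h0]
    symm
    by_contra hne
    have h1 : ∀ m, (if X m (q m) = Sr β m ∧ Cn m (q m) then
        κ.K (hib f p) (usz f p m) (Tr β m) (q m).1 (q m).2 else 0) ≠ 0 := fun m =>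
      Finset.prod_ne_zero_iff.1 hne m (Finset.mem_univ m)
    have h2 : ∀ m, X m (q m) = Sr β m ∧ Cn m (q m) := fun m => by
      by_contra hcon
      exact h1 m (if_neg hcon)
    have h3 : ∀ m, κ.K (hib f p) (usz f p m) (Tr β m) (q m).1 (q m).2 ≠ 0 := fun m => by
      have := h1 m
      rwa [if_pos (h2 m)] at this
    have h4 : ∀ m, pv (q m).2 0 ⊆ Tr β m := fun m => ((κ.supp _ _ _ _ _ (h3 m)).2 0).1
    have h5 : rep b0 (fun m => X m (q m)) = β := by
      have h6 : (fun m => X m (q m)) = Sr β := funext fun m => (h2 m).1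
      rw [hb0, rep_rep, h6, rep_sr]
    have hG0 : G b0 = wp κ f p (b0, q) := if_pos ⟨h5, fun m => (h2 m).2⟩
    rw [hG0] at h0
    have h7 : wp κ f p (b0, q) = ∏ m, κ.K (hib f p) (usz f p m) (Tr β m) (q m).1 (q m).2 := by
      show (∏ m, if pv (q m).2 0 = Sr b0 m then
        κ.K (hib f p) (usz f p m) (Tr b0 m) (q m).1 (q m).2 else 0) = _
      refine Finset.prod_congr rfl fun m _ => ?_
      rw [hb0, sr_rep, tr_rep, if_pos (Finset.inter_eq_right.2 (h4 m)).symm]
    rw [h7] at h0
    exact Finset.prod_ne_zero_iff.2 (fun m _ => h3 m) h0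
  · exact (hterm b0 h0).2

theorem kep_main (κ : Ker r k t h D D2 δ B) (f : Fin r → Fin k → Fin R) (p : Fin R)
    (X : Fin r → kep_M t k h → Finset (Fin t)) (Cn : Fin r → kep_M t k h → Prop)
    (hX : ∀ m T s, κ.K (hib f p) (usz f p m) T s.1 s.2 ≠ 0 → X m s ⊆ T) (β : PW r t) :
    (∑ d : PW r t × (Fin r → kep_M t k h),
      if rep d.1 (fun m => X m (d.2 m)) = β ∧ (∀ m, Cn m (d.2 m)) then
        wp κ f p d else 0) =
      ∏ m, ∑ S, ∑ P, (if X m (S, P) = Sr β m ∧ Cn m (S, P) then
        κ.K (hib f p) (usz f p m) (Tr β m) S P else 0) := by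
  rw [Fintype.sum_prod_type_right]
  rw [Finset.sum_congr rfl fun q _ => kep_fiber κ f p X Cn hX β q]
  have h1 : ∀ m, (∑ S, ∑ P, (if X m (S, P) = Sr β m ∧ Cn m (S, P) then
        κ.K (hib f p) (usz f p m) (Tr β m) S P else 0)) =
      ∑ s : kep_M t k h, (if X m s = Sr β m ∧ Cn m s then
        κ.K (hib f p) (usz f p m) (Tr β m) s.1 s.2 else 0) := fun m =>
    (Fintype.sum_prod_type (fun s : kep_M t k h => if X m s = Sr β m ∧ Cn m s then
        κ.K (hib f p) (usz f p m) (Tr β m) s.1 s.2 else 0)).symm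
  rw [Finset.prod_congr rfl fun m _ => h1 m, Finset.prod_univ_sum, Fintype.piFinset_univ]

/-- Block KEP: contents of a frozen part -/
theorem key_frozen_pr (κ : Ker r k t h D D2 δ B) (f : Fin r → Fin k → Fin R) (p : Fin R)
    (J : Fin r → ℕ) (β : PW r t) :
    (∑ d : PW r t × (Fin r → Finset (Fin t) × (Fin (k * (2 * h) + 1) → Finset (Fin t))),
      if rep d.1 (fun m => pv (d.2 m).2 (J m * (2 * h))) = β then wp κ f p d else 0) =
      Wid κ (hib f p) (usz f p) J β := by
  have h1 := kep_main κ f p (fun m s => pv s.2 (J m * (2 * h))) (fun _ _ => True)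
    (fun m T s hs => ((κ.supp _ _ _ _ _ hs).2 _).1) β
  simp only [and_true, implies_true] at h1
  rw [Wid]
  simp only [dn]
  exact h1

/-- Block KEQ: contents of a current part (`I` = set of the coordinates for which it is current) -/
theorem key_current_pr (κ : Ker r k t h D D2 δ B) (f : Fin r → Fin k → Fin R) (p : Fin R)
    (I : Fin r → Prop) (hI : ∀ m, usz f p m = if I m then 1 else 0) (a : Fin r → ℕ) (β : PW r t) :
    (∑ d : PW r t × (Fin r → Finset (Fin t) × (Fin (k * (2 * h) + 1) → Finset (Fin t))),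
      if rep d.1 (fun m => if I m then (d.2 m).1 else pv (d.2 m).2 0) = β ∧
        (∀ m, I m → (pv (d.2 m).2 0).card = a m) then wp κ f p d else 0) =
      ∏ m, if I m then
        ∑ P, (if (pv P 0).card = a m then κ.K false 1 (Tr β m) (Sr β m) P else 0) else 1 := by
  have hhib : hib f p = false := by
    unfold hib
    rw [decide_eq_false_iff_not]
    rintro ⟨m, hm⟩
    rw [hI m] at hm
    split_ifs at hm <;> omega
  have h1 := kep_main κ f p (fun m s => if I m then s.1 else pv s.2 0)
    (fun m s => I m → (pv s.2 0).card = a m) (fun m T s hs => by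
      by_cases hm : I m
      · rw [hhib, hI m, if_pos hm] at hs
        simp only [if_pos hm]
        exact κ.cur_sub T s.1 s.2 hs
      · simp only [if_neg hm]
        exact ((κ.supp _ _ _ _ _ hs).2 0).1) β
  refine Eq.trans ?_ (h1.trans (Finset.prod_congr rfl fun m _ => ?_))
  · refine Finset.sum_congr rfl fun d _ => ?_
    by_cases hd : rep d.1 (fun m => if I m then (d.2 m).1 else pv (d.2 m).2 0) = β ∧
        (∀ m, I m → (pv (d.2 m).2 0).card = a m)
    · rw [if_pos hd]
      exact (if_pos hd).symm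
    · rw [if_neg hd]
      exact (if_neg hd).symm
  rw [hhib, hI m]
  by_cases hm : I m
  · simp only [if_pos hm, hm, true_implies]
    rw [Finset.sum_eq_single_of_mem (Sr β m) (Finset.mem_univ _)]
    · refine Finset.sum_congr rfl fun P _ => ?_
      simp
    · intro S _ hS
      refine Finset.sum_eq_zero fun P _ => ?_
      rw [if_neg]
      exact fun h => hS h.1
  · simp only [if_neg hm, hm, false_implies, and_true]
    exact κ.zero false (Tr β m) (Sr β m) (sr_sub β m)

end Pool.Agent.Lib_helper46.CC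

namespace Pool.Agent.Lib_helper46.CC

alias key_current := key_current_pr
alias key_frozen := key_frozen_pr

end Pool.Agent.Lib_helper46.CC
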