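import Mathlib
import Pool.Agent.Lib_helper46.CCF.WBase
import Pool.Agent.Lib_helper46.CCF.KET
import Pool.Agent.Lib_helper46.CCF.FSG
import Pool.Agent.Lib_helper46.CCF.KEP

/-! Block KEY, written by helper47. -/

/-!
# Block KEY: total weight of the edges containing the unit `(i, w)`
-/

set_option autoImplicit false

namespace Pool.Agent.Lib_helper46.CC

open Finset Pool.Agent.Lib_helper70.Chains
open scoped Classical

section EDGES

variable {r y z R t k h D D2 : ℕ} {δ B : ℝ}

/-- condition on the content of the part `p` -/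
def KEYcond (a : Fin r → ℕ) (f : Fin r → Fin k → Fin R) (i : Fin r → Fin k) (p : Fin R)
    (β : PW r t)
    (d : PW r t × (Fin r → Finset (Fin t) × (Fin (k * (2 * h) + 1) → Finset (Fin t)))) : Prop :=
  rep d.1 (fun m => if f m (i m) = p then (d.2 m).1
    else pv (d.2 m).2 (pas f p m (i m) * (2 * h))) = β ∧
  ∀ m, f m (i m) = p → (pv (d.2 m).2 0).card = a m

theorem KEY_comp_symm {α β : Type} (g : α → β) (w : α → β) (σ : Equiv.Perm α) :
    g ∘ σ.symm = w ↔ g = w ∘ σ := by
  constructor
  · intro h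
    rw [← h]
    funext x
    simp
  · intro h
    rw [h]
    funext x
    simp

theorem KEY_point (κ : Ker r k t h D D2 δ B) (A : ℝ) (f0 : Fin r → ℕ) (Fn : LF r z R t)
    (i : Fin r → Fin k) (w : Word r y z R t) (hw : InC f0 h i w) (hok : OkW f0 h Fn i w)
    (ψ : (Fin r → Fin k → ZW r z) → ℝ) (w0 : Fin y → Fin (r + 1)) (H : Fin r → Fin k → ZW r z)
    (E : Fin R → PW r t × (Fin r → Finset (Fin t) × (Fin (k * (2 * h) + 1) → Finset (Fin t)))) :
    (if FreE Fn ((w0, H, E) : Edge r y z R t k h) i ∧ uw Fn ((w0, H, E) : Edge r y z R t k h) i = w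
      then ψ ((w0, H, E) : Edge r y z R t k h).2.1 * wt κ A f0 Fn ((w0, H, E) : Edge r y z R t k h)
      else 0) =
    if w0 = w.1 then
      (if Fre i (fun m j => (Fn m (H m j)).1) ∧ ∀ m, H m (i m) = w.2.1 m then
        ψ H * (∏ m, wz A m (H m)) * ∏ p, (if KEYcond (al f0 h Fn i w) (fun m j => (Fn m (H m j)).1)
          i p (w.2.2 p ∘ fsg (fun m j => Fn m (H m j)) p) (E p) then
            wp κ (fun m j => (Fn m (H m j)).1) p (E p) else 0)
      else 0) else 0 := by
  set e : Edge r y z R t k h := (w0, H, E) with he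
  have hprt : prt Fn e = fun m j => (Fn m (H m j)).1 := rfl
  have hlab : lab Fn e = fun m j => Fn m (H m j) := rfl
  have huw : uw Fn e i = w ↔ (w0 = w.1 ∧ (∀ m, H m (i m) = w.2.1 m) ∧
      ∀ p, rep (E p).1 (fun m => if (Fn m (H m (i m))).1 = p then ((E p).2 m).1
        else pv ((E p).2 m).2 (pas (fun m j => (Fn m (H m j)).1) p m (i m) * (2 * h))) =
        w.2.2 p ∘ fsg (fun m j => Fn m (H m j)) p) := by
    have h1 : uw Fn e i = w ↔ (w0 = w.1 ∧ (fun m => H m (i m)) = w.2.1 ∧
        (fun p => rep (E p).1 (fun m => if (Fn m (H m (i m))).1 = p then ((E p).2 m).1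
        else pv ((E p).2 m).2 (pas (fun m j => (Fn m (H m j)).1) p m (i m) * (2 * h))) ∘
        (fsg (fun m j => Fn m (H m j)) p).symm) = w.2.2) := by
      constructor
      · intro h
        exact ⟨congrArg (fun v : Word r y z R t => v.1) h,
          congrArg (fun v : Word r y z R t => v.2.1) h,
          congrArg (fun v : Word r y z R t => v.2.2) h⟩
      · rintro ⟨h1, h2, h3⟩
        exact Prod.ext h1 (Prod.ext h2 h3)
    exact h1.trans (and_congr Iff.rfl (and_congr funext_iff
      (funext_iff.trans (forall_congr' fun p => KEY_comp_symm _ _ _))))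
  by_cases hw0 : w0 = w.1
  swap
  · rw [if_neg hw0, if_neg]
    rintro ⟨_, h2⟩
    exact hw0 (huw.mp h2).1
  rw [if_pos hw0]
  by_cases hH : Fre i (fun m j => (Fn m (H m j)).1) ∧ ∀ m, H m (i m) = w.2.1 m
  swap
  · rw [if_neg hH, if_neg]
    rintro ⟨h1, h2⟩
    exact hH ⟨h1, (huw.mp h2).2.1⟩
  rw [if_pos hH]
  by_cases hrep : ∀ p, rep (E p).1 (fun m => if (Fn m (H m (i m))).1 = p then ((E p).2 m).1
        else pv ((E p).2 m).2 (pas (fun m j => (Fn m (H m j)).1) p m (i m) * (2 * h))) =
        w.2.2 p ∘ fsg (fun m j => Fn m (H m j)) p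
  swap
  · rw [if_neg]
    · push Not at hrep
      obtain ⟨p, hp⟩ := hrep
      symm
      apply mul_eq_zero_of_right
      apply Finset.prod_eq_zero (Finset.mem_univ p)
      rw [if_neg]
      intro hc
      exact hp hc.1
    · rintro ⟨h1, h2⟩
      exact hrep (huw.mp h2).2.2
  have hu : uw Fn e i = w := huw.mpr ⟨hw0, hH.2, hrep⟩
  have hfre : FreE Fn e i := hH.1
  rw [if_pos ⟨hfre, hu⟩]
  have hwt : wt κ A f0 Fn e = if ∀ m, st0 e m = f0 m then
      (∏ m, wz A m (H m)) * ∏ p, wp κ (fun m j => (Fn m (H m j)).1) p (E p) else 0 := rfl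
  rw [hwt]
  show ψ H * _ = _
  by_cases hz : ∏ m, wz A m (H m) = 0
  · rw [hz]
    simp
  have hVH : ∀ m, VH A m (H m) := by
    intro m
    by_contra hc
    apply hz
    apply Finset.prod_eq_zero (Finset.mem_univ m)
    unfold wz
    rw [if_neg hc]
  by_cases hp : ∀ p, wp κ (fun m j => (Fn m (H m j)).1) p (E p) ≠ 0
  swap
  · push Not at hp
    obtain ⟨p, hp⟩ := hp
    have h1 : ∏ p, wp κ (fun m j => (Fn m (H m j)).1) p (E p) = 0 :=
      Finset.prod_eq_zero (Finset.mem_univ p) hp
    have h2 : ∏ p, (if KEYcond (al f0 h Fn i w) (fun m j => (Fn m (H m j)).1)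
          i p (w.2.2 p ∘ fsg (fun m j => Fn m (H m j)) p) (E p) then
            wp κ (fun m j => (Fn m (H m j)).1) p (E p) else 0) = 0 := by
      apply Finset.prod_eq_zero (Finset.mem_univ p)
      rw [hp]
      simp
    rw [h1, h2]
    simp
  have hty := key_type κ A f0 Fn i w hw hok e hfre hu hVH hp
  by_cases hcard : ∀ m, (pv ((e.2.2 (prt Fn e m (i m))).2 m).2 0).card = al f0 h Fn i w m
  · rw [if_pos (hty.mpr hcard)]
    have h2 : ∏ p, (if KEYcond (al f0 h Fn i w) (fun m j => (Fn m (H m j)).1)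
          i p (w.2.2 p ∘ fsg (fun m j => Fn m (H m j)) p) (E p) then
            wp κ (fun m j => (Fn m (H m j)).1) p (E p) else 0)
        = ∏ p, wp κ (fun m j => (Fn m (H m j)).1) p (E p) := by
      refine Finset.prod_congr rfl ?_
      intro p _
      rw [if_pos]
      refine ⟨hrep p, ?_⟩
      intro m hm
      have := hcard m
      rw [← hm]
      exact this
    rw [h2]
    ring
  · rw [if_neg (fun hc => hcard (hty.mp hc)), mul_zero]
    symm
    apply mul_eq_zero_of_right
    push Not at hcard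
    obtain ⟨m, hm⟩ := hcard
    apply Finset.prod_eq_zero (Finset.mem_univ ((Fn m (H m (i m))).1))
    rw [if_neg]
    intro hc
    exact hm (hc.2 m rfl)

theorem KEY_part_frozen (κ : Ker r k t h D D2 δ B) (a : Fin r → ℕ)
    (f : Fin r → Fin k → Fin R) (i : Fin r → Fin k) (p : Fin R) (β : PW r t)
    (hp : ∀ m, f m (i m) ≠ p) :
    (∑ d : PW r t × (Fin r → Finset (Fin t) × (Fin (k * (2 * h) + 1) → Finset (Fin t))),
      if KEYcond a f i p β d then wp κ f p d else 0) =
      Wid κ (hib f p) (usz f p) (fun m => pas f p m (i m)) β := by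
  rw [← key_frozen κ f p (fun m => pas f p m (i m)) β]
  refine Finset.sum_congr rfl ?_
  intro d _
  have h1 : KEYcond a f i p β d ↔
      rep d.1 (fun m => pv (d.2 m).2 (pas f p m (i m) * (2 * h))) = β := by
    unfold KEYcond
    have h2 : (fun m => if f m (i m) = p then (d.2 m).1
        else pv (d.2 m).2 (pas f p m (i m) * (2 * h)))
        = fun m => pv (d.2 m).2 (pas f p m (i m) * (2 * h)) := by
      funext m
      rw [if_neg (hp m)]
    rw [h2]
    constructor
    · intro h; exact h.1
    · intro h; exact ⟨h, fun m hm => absurd hm (hp m)⟩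
  by_cases hc : KEYcond a f i p β d
  · rw [if_pos hc, if_pos (h1.mp hc)]
  · rw [if_neg hc, if_neg (fun hh => hc (h1.mpr hh))]

theorem KEY_part_current (κ : Ker r k t h D D2 δ B) (a : Fin r → ℕ)
    (f : Fin r → Fin k → Fin R) (i : Fin r → Fin k) (hf : Fre i f) (p : Fin R) (β : PW r t)
    (hp : ∃ m, f m (i m) = p) :
    (∑ d : PW r t × (Fin r → Finset (Fin t) × (Fin (k * (2 * h) + 1) → Finset (Fin t))),
      if KEYcond a f i p β d then wp κ f p d else 0) =
      ∏ m, if f m (i m) = p then
        ∑ P, (if (pv P 0).card = a m then κ.K false 1 (Tr β m) (Sr β m) P else 0) else 1 := by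
  have hus := usz_cur i f hf p hp
  have hI : ∀ m, usz f p m = @ite ℕ (f m (i m) = p) (Classical.propDecidable _) 1 0 := by
    intro m
    rw [(hus m).1]
    by_cases hm : f m (i m) = p
    · rw [if_pos hm, if_pos hm]
    · rw [if_neg hm, if_neg hm]
  have hkc := key_current κ f p (fun m => f m (i m) = p) hI a β
  have hR : (∏ m, if f m (i m) = p then
        ∑ P, (if (pv P 0).card = a m then κ.K false 1 (Tr β m) (Sr β m) P else 0) else 1) =
      ∏ m, @ite ℝ (f m (i m) = p) (Classical.propDecidable _)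
        (∑ P, (if (pv P 0).card = a m then κ.K false 1 (Tr β m) (Sr β m) P else 0)) 1 := by
    refine Finset.prod_congr rfl ?_
    intro m _
    by_cases hm : f m (i m) = p
    · rw [if_pos hm, if_pos hm]
    · rw [if_neg hm, if_neg hm]
  rw [hR]
  refine Eq.trans ?_ hkc
  refine Finset.sum_congr rfl ?_
  intro d _
  have h1 : KEYcond a f i p β d ↔
      (rep d.1 (fun m => @ite _ (f m (i m) = p) (Classical.propDecidable _) (d.2 m).1
        (pv (d.2 m).2 0)) = β ∧
        (∀ m, f m (i m) = p → (pv (d.2 m).2 0).card = a m)) := by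
    unfold KEYcond
    have h2 : (fun m => if f m (i m) = p then (d.2 m).1
        else pv (d.2 m).2 (pas f p m (i m) * (2 * h)))
        = fun m => @ite _ (f m (i m) = p) (Classical.propDecidable _) (d.2 m).1
          (pv (d.2 m).2 0) := by
      funext m
      rw [(hus m).2.1, zero_mul]
      by_cases hm : f m (i m) = p
      · rw [if_pos hm, if_pos hm]
      · rw [if_neg hm, if_neg hm]
    rw [h2]
  by_cases hc : KEYcond a f i p β d
  · rw [if_pos hc, if_pos (h1.mp hc)]
  · rw [if_neg hc, if_neg (fun hh => hc (h1.mpr hh))]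

theorem KEY_parts (κ : Ker r k t h D D2 δ B) (f0 : Fin r → ℕ) (Fn : LF r z R t)
    (i : Fin r → Fin k) (w : Word r y z R t) (H : Fin r → Fin k → ZW r z)
    (hf : Fre i (fun m j => (Fn m (H m j)).1)) (hH : ∀ m, H m (i m) = w.2.1 m) :
    (∏ p, ∑ d : PW r t × (Fin r → Finset (Fin t) × (Fin (k * (2 * h) + 1) → Finset (Fin t))),
      (if KEYcond (al f0 h Fn i w) (fun m j => (Fn m (H m j)).1)
          i p (w.2.2 p ∘ fsg (fun m j => Fn m (H m j)) p) d then
            wp κ (fun m j => (Fn m (H m j)).1) p d else 0)) =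
    Psi κ i (fun m j => Fn m (H m j)) w.2.2 *
      ∏ m, ∑ P, (if (pv P 0).card = al f0 h Fn i w m then
        κ.K false 1 (TT Fn w m) (SS Fn w m) P else 0) := by
  have hpsi : Psi κ i (fun m j => Fn m (H m j)) w.2.2 =
      ∏ p ∈ univ.filter (fun p => ∀ m, (Fn m (H m (i m))).1 ≠ p),
      Wid κ (hib (fun m j => (Fn m (H m j)).1) p) (usz (fun m j => (Fn m (H m j)).1) p)
        (fun m => pas (fun m j => (Fn m (H m j)).1) p m (i m))
        (w.2.2 p ∘ fsg (fun m j => Fn m (H m j)) p) := by
    unfold Psi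
    rw [if_pos hf]
  rw [hpsi, ← Finset.prod_filter_mul_prod_filter_not univ
    (fun p => ∀ m, (Fn m (H m (i m))).1 ≠ p)]
  congr 1
  · refine Finset.prod_congr rfl ?_
    intro p hp
    rw [mem_filter] at hp
    exact KEY_part_frozen κ _ _ i p _ hp.2
  · have h1 : ∀ p ∈ univ.filter (fun p => ¬ ∀ m, (Fn m (H m (i m))).1 ≠ p),
        (∑ d : PW r t × (Fin r → Finset (Fin t) × (Fin (k * (2 * h) + 1) → Finset (Fin t))),
          (if KEYcond (al f0 h Fn i w) (fun m j => (Fn m (H m j)).1)
            i p (w.2.2 p ∘ fsg (fun m j => Fn m (H m j)) p) d then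
              wp κ (fun m j => (Fn m (H m j)).1) p d else 0)) =
        ∏ m, if p = (Fn m (H m (i m))).1 then
          ∑ P, (if (pv P 0).card = al f0 h Fn i w m then
            κ.K false 1 (TT Fn w m) (SS Fn w m) P else 0) else 1 := by
      intro p hp
      rw [mem_filter] at hp
      have hp2 := hp.2
      push Not at hp2
      rw [KEY_part_current κ _ _ i hf p _ hp2]
      refine Finset.prod_congr rfl ?_
      intro m _
      by_cases hm : (Fn m (H m (i m))).1 = p
      · rw [if_pos hm, if_pos hm.symm]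
        have hfsg := fsg_eq i (fun m j => Fn m (H m j)) hf p hp2
        have hcur : (fun m => Fn m (H m (i m))) = cur Fn w := by
          funext m'
          unfold cur
          rw [hH m']
        have hlw : w.2.2 p ∘ fsg (fun m j => Fn m (H m j)) p = lw Fn w (cur Fn w m).1 := by
          have e1 : (cur Fn w m).1 = p := by
            rw [← hm, ← hcur]
          rw [e1, hfsg]
          unfold lw
          rw [← hcur]
        rw [hlw]
        rfl
      · rw [if_neg hm, if_neg (fun hh => hm hh.symm)]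
    rw [Finset.prod_congr rfl h1, Finset.prod_comm]
    refine Finset.prod_congr rfl ?_
    intro m _
    rw [Finset.prod_ite_eq']
    rw [if_pos]
    rw [mem_filter]
    refine ⟨Finset.mem_univ _, ?_⟩
    intro hc
    exact hc m rfl

/-- Block KEY: total weight of the edges containing the unit `(i, w)` -/
theorem key_pr (κ : Ker r k t h D D2 δ B) (A : ℝ) (f0 : Fin r → ℕ) (Fn : LF r z R t)
    (i : Fin r → Fin k) (w : Word r y z R t) (hw : InC f0 h i w) (hok : OkW f0 h Fn i w)
    (ψ : (Fin r → Fin k → ZW r z) → ℝ) :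
    (∑ e : Edge r y z R t k h, if FreE Fn e i ∧ uw Fn e i = w then
      ψ e.2.1 * wt κ A f0 Fn e else 0) =
      (∑ H : Fin r → Fin k → ZW r z, if ∀ m, H m (i m) = w.2.1 m then
        ψ H * ((∏ m, wz A m (H m)) * Psi κ i (fun m j => Fn m (H m j)) w.2.2) else 0) *
      ∏ m, ∑ P, (if (pv P 0).card = al f0 h Fn i w m then
        κ.K false 1 (TT Fn w m) (SS Fn w m) P else 0) := by
  rw [Fintype.sum_prod_type]
  simp_rw [Fintype.sum_prod_type, KEY_point κ A f0 Fn i w hw hok ψ]
  rw [Finset.sum_eq_single w.1]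
  · simp only [if_true]
    rw [Finset.sum_mul]
    refine Finset.sum_congr rfl ?_
    intro H _
    by_cases hH : ∀ m, H m (i m) = w.2.1 m
    · rw [if_pos hH]
      by_cases hf : Fre i (fun m j => (Fn m (H m j)).1)
      · have hc : Fre i (fun m j => (Fn m (H m j)).1) ∧ ∀ m, H m (i m) = w.2.1 m := ⟨hf, hH⟩
        simp_rw [if_pos hc]
        rw [← Finset.mul_sum]
        have h1 := Finset.prod_univ_sum (fun _ : Fin R => (univ : Finset (PW r t ×
          (Fin r → Finset (Fin t) × (Fin (k * (2 * h) + 1) → Finset (Fin t))))))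
          (fun p d => (if KEYcond (al f0 h Fn i w) (fun m j => (Fn m (H m j)).1)
          i p (w.2.2 p ∘ fsg (fun m j => Fn m (H m j)) p) d then
            wp κ (fun m j => (Fn m (H m j)).1) p d else 0))
        rw [Fintype.piFinset_univ] at h1
        rw [← h1, KEY_parts κ f0 Fn i w H hf hH]
        ring
      · have hc : ¬ (Fre i (fun m j => (Fn m (H m j)).1) ∧ ∀ m, H m (i m) = w.2.1 m) :=
          fun hh => hf hh.1
        simp_rw [if_neg hc]
        have h0 : Psi κ i (fun m j => Fn m (H m j)) w.2.2 = 0 := by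
          unfold Psi
          rw [if_neg hf]
        rw [h0]
        simp
    · have hc : ¬ (Fre i (fun m j => (Fn m (H m j)).1) ∧ ∀ m, H m (i m) = w.2.1 m) :=
          fun hh => hH hh.2
      simp_rw [if_neg hc, if_neg hH]
      simp
  · intro w0 _ hw0
    simp_rw [if_neg hw0]
    simp
  · intro hc
    exact absurd (Finset.mem_univ _) hc

end EDGES

end Pool.Agent.Lib_helper46.CC

namespace Pool.Agent.Lib_helper46.CC

alias key := key_pr

end Pool.Agent.Lib_helper46.CC
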