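import Mathlib
import Pool.Agent.Lib_helper46.CCF.WBase
import Pool.Agent.Lib_helper46.CCF.FSG

/-! Block WTN, written by helper30. -/

set_option autoImplicit false

namespace Pool.Agent.Lib_helper46.CC

open Finset Pool.Agent.Lib_helper70.Chains
open scoped Classical

section EDGES

variable {r y z R t k h D D2 : ℕ} {δ B : ℝ}

theorem wtn_wp_nonneg (κ : Ker r k t h D D2 δ B) (f : Fin r → Fin k → Fin R) (p : Fin R)
    (d : PW r t × (Fin r → Finset (Fin t) × (Fin (k * (2 * h) + 1) → Finset (Fin t)))) :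
    0 ≤ wp κ f p d := by
  unfold wp
  apply Finset.prod_nonneg
  intro m _
  split_ifs
  · exact κ.nonneg _ _ _ _ _
  · exact le_rfl

theorem wtn_wp_le (κ : Ker r k t h D D2 δ B) (f : Fin r → Fin k → Fin R) (p : Fin R)
    (d : PW r t × (Fin r → Finset (Fin t) × (Fin (k * (2 * h) + 1) → Finset (Fin t)))) :
    wp κ f p d ≤ B ^ (∑ m, usz f p m) := by
  have hB := κ.oneB
  rw [← Finset.prod_pow_eq_pow_sum]
  unfold wp
  apply Finset.prod_le_prod
  · intro m _
    split_ifs
    · exact κ.nonneg _ _ _ _ _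
    · exact le_rfl
  · intro m _
    have h0 : 0 ≤ B ^ usz f p m := pow_nonneg (zero_le_one.trans hB) _
    split_ifs
    · refine (κ.le_B _ _ _ _ _).trans ?_
      split_ifs with h1
      · rw [h1, pow_zero]
      · exact le_self_pow₀ hB h1
    · exact h0

theorem wtn_wz_nonneg (A : ℝ) (m : Fin r) (H : Fin k → ZW r z) : 0 ≤ wz A m H := by
  unfold wz
  split_ifs
  · positivity
  · exact le_rfl

theorem wt_nonneg_pr (κ : Ker r k t h D D2 δ B) (A : ℝ) (f0 : Fin r → ℕ) (Fn : LF r z R t)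
    (e : Edge r y z R t k h) : 0 ≤ wt κ A f0 Fn e := by
  unfold wt
  split_ifs
  · exact mul_nonneg (Finset.prod_nonneg fun m _ => wtn_wz_nonneg A m _)
      (Finset.prod_nonneg fun p _ => wtn_wp_nonneg κ _ p _)
  · exact le_rfl

theorem wt_le_pr (κ : Ker r k t h D D2 δ B) (A : ℝ) (f0 : Fin r → ℕ) (Fn : LF r z R t)
    (e : Edge r y z R t k h) : wt κ A f0 Fn e ≤ (∏ m, wz A m (e.2.1 m)) * B ^ (r * k) := by
  have hB := κ.oneB
  have hz : 0 ≤ ∏ m, wz A m (e.2.1 m) := Finset.prod_nonneg fun m _ => wtn_wz_nonneg A m _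
  unfold wt
  split_ifs
  · apply mul_le_mul_of_nonneg_left _ hz
    calc ∏ p, wp κ (prt Fn e) p (e.2.2 p) ≤ ∏ p, B ^ (∑ m, usz (prt Fn e) p m) :=
          Finset.prod_le_prod (fun p _ => wtn_wp_nonneg κ _ p _) (fun p _ => wtn_wp_le κ _ p _)
      _ = B ^ (r * k) := by
          rw [Finset.prod_pow_eq_pow_sum, Finset.sum_comm]
          congr 1
          rw [Finset.sum_congr rfl (fun m _ => usz_sum (prt Fn e) m)]
          simp
  · exact mul_nonneg hz (pow_nonneg (zero_le_one.trans hB) _)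


end EDGES

end Pool.Agent.Lib_helper46.CC

namespace Pool.Agent.Lib_helper46.CC

alias wt_le := wt_le_pr
alias wt_nonneg := wt_nonneg_pr

end Pool.Agent.Lib_helper46.CC
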