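import Mathlib
import Pool.Agent.Lib_helper46.CCF.WBase
import Pool.Agent.Lib_helper46.CCF.PSB
import Pool.Agent.Lib_helper46.CCF.WTN
import Pool.Agent.Lib_helper46.CCF.KEY

/-! Block DEG, written by helper30. -/

set_option autoImplicit false

namespace Pool.Agent.Lib_helper46.CC

open Finset Pool.Agent.Lib_helper70.Chains
open scoped Classical

section EDGES

variable {r y z R t k h D D2 : ℕ} {δ B : ℝ}

theorem deg_lower_pr (κ : Ker r k t h D D2 δ B) (A η : ℝ) (hη : η ≤ 1) (hδ : δ ≤ 1) (f0 : Fin r → ℕ)
    (Fn : LF r z R t) (i : Fin r → Fin k) (w : Word r y z R t) (hw : InC f0 h i w)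
    (hok : OkW f0 h Fn i w) (hrp : Rp κ f0 Fn i w) (hg : Good κ A η f0 Fn i w) :
    (1 - η) * (1 - δ) ^ r ≤ ∑ e : Edge r y z R t k h,
      if FreE Fn e i ∧ uw Fn e i = w then wt κ A f0 Fn e else 0 := by
  have h1 := key κ A f0 Fn i w hw hok (fun _ => 1)
  simp only [one_mul] at h1
  rw [h1]
  have h2 : (∑ H : Fin r → Fin k → ZW r z, if ∀ m, H m (i m) = w.2.1 m then
        ((∏ m, wz A m (H m)) * Psi κ i (fun m j => Fn m (H m j)) w.2.2) else 0) =
      Phi κ A Fn i w := rfl
  rw [h2]
  have h3 : (1 - δ) ^ r ≤ ∏ m, ∑ P, (if (pv P 0).card = al f0 h Fn i w m then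
        κ.K false 1 (TT Fn w m) (SS Fn w m) P else 0) := by
    calc (1 - δ) ^ r = ∏ _m : Fin r, (1 - δ) := by
          rw [Finset.prod_const, Finset.card_univ, Fintype.card_fin]
      _ ≤ _ := by
          apply Finset.prod_le_prod
          · intro m _
            linarith
          · intro m _
            exact κ.cur_ge _ _ _ (hok m) (hg.1 m) (hrp m)
  exact mul_le_mul hg.2 h3 (pow_nonneg (by linarith) _) ((by linarith : (0 : ℝ) ≤ 1 - η).trans hg.2)

theorem deg_wz_nonneg (A : ℝ) (m : Fin r) (H : Fin k → ZW r z) : 0 ≤ wz A m H := by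
  unfold wz
  split_ifs
  · positivity
  · exact le_rfl

theorem codeg_pr (κ : Ker r k t h D D2 δ B) (A : ℝ) (f0 : Fin r → ℕ)
    (Fn : LF r z R t) (C ε : ℝ)
    (hC : ∀ m j u, (∑ H : Fin k → ZW r z, if H j = u then wz A m H else 0) ≤ C)
    (hC1 : 1 ≤ C) (hε0 : 0 ≤ ε)
    (hε : ∀ m j j' u u', j ≠ j' →
      (∑ H : Fin k → ZW r z, if H j = u ∧ H j' = u' then wz A m H else 0) ≤ ε)
    (i i' : Fin r → Fin k) (hi : i ≠ i') (w w' : Word r y z R t) (hw : InC f0 h i w)
    (hok : OkW f0 h Fn i w) :
    (∑ e : Edge r y z R t k h, if (FreE Fn e i ∧ uw Fn e i = w) ∧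
      (FreE Fn e i' ∧ uw Fn e i' = w') then wt κ A f0 Fn e else 0) ≤
      ε * C ^ r * B ^ (r * k) * B ^ r := by
  have hB := κ.oneB
  have hB0 : 0 ≤ B := zero_le_one.trans hB
  obtain ⟨m0, hm0⟩ : ∃ m0, i m0 ≠ i' m0 := by
    by_contra hcon
    push Not at hcon
    exact hi (funext hcon)
  set ψ : (Fin r → Fin k → ZW r z) → ℝ := fun H => if H m0 (i' m0) = w'.2.1 m0 then 1 else 0 with hψ
  have h1 := key κ A f0 Fn i w hw hok ψ
  have hle : (∑ e : Edge r y z R t k h, if (FreE Fn e i ∧ uw Fn e i = w) ∧
      (FreE Fn e i' ∧ uw Fn e i' = w') then wt κ A f0 Fn e else 0) ≤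
      ∑ e : Edge r y z R t k h, if FreE Fn e i ∧ uw Fn e i = w then
        ψ e.2.1 * wt κ A f0 Fn e else 0 := by
    apply Finset.sum_le_sum
    intro e _
    have hwt := wt_nonneg κ A f0 Fn e
    have hψ0 : 0 ≤ ψ e.2.1 := by
      simp only [hψ]
      split_ifs <;> norm_num
    by_cases hA : FreE Fn e i ∧ uw Fn e i = w
    · rw [if_pos hA]
      by_cases hA' : FreE Fn e i' ∧ uw Fn e i' = w'
      · rw [if_pos ⟨hA, hA'⟩]
        have h2 : e.2.1 m0 (i' m0) = w'.2.1 m0 := by
          rw [← hA'.2]
          rfl
        have h3 : ψ e.2.1 = 1 := by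
          simp only [hψ]
          rw [if_pos h2]
        rw [h3, one_mul]
      · rw [if_neg (fun h => hA' h.2)]
        exact mul_nonneg hψ0 hwt
    · rw [if_neg hA, if_neg (fun h => hA h.1)]
  refine hle.trans ?_
  rw [h1]
  have hcur0 : ∀ m, 0 ≤ ∑ P, (if (pv P 0).card = al f0 h Fn i w m then
        κ.K false 1 (TT Fn w m) (SS Fn w m) P else 0) := by
    intro m
    apply Finset.sum_nonneg
    intro P _
    split_ifs
    · exact κ.nonneg _ _ _ _ _
    · exact le_rfl
  have hcur : ∏ m, ∑ P, (if (pv P 0).card = al f0 h Fn i w m then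
        κ.K false 1 (TT Fn w m) (SS Fn w m) P else 0) ≤ B ^ r := by
    calc _ ≤ ∏ _m : Fin r, B := by
          apply Finset.prod_le_prod
          · intro m _
            exact hcur0 m
          · intro m _
            exact κ.cur_le _ _ _
      _ = B ^ r := by rw [Finset.prod_const, Finset.card_univ, Fintype.card_fin]
  -- the sum over the histories
  have hsum : (∑ H : Fin r → Fin k → ZW r z, if ∀ m, H m (i m) = w.2.1 m then
        ψ H * ((∏ m, wz A m (H m)) * Psi κ i (fun m j => Fn m (H m j)) w.2.2) else 0) ≤
      ε * C ^ r * B ^ (r * k) := by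
    set g : (m : Fin r) → (Fin k → ZW r z) → ℝ := fun m H =>
      if m = m0 then (if H (i m) = w.2.1 m ∧ H (i' m) = w'.2.1 m then wz A m H else 0)
      else (if H (i m) = w.2.1 m then wz A m H else 0) with hg
    have hg0 : ∀ m H, 0 ≤ g m H := by
      intro m H
      simp only [hg]
      split_ifs <;> first | exact deg_wz_nonneg A m H | exact le_rfl
    have h2 : ∀ H : Fin r → Fin k → ZW r z, (if ∀ m, H m (i m) = w.2.1 m then
        ψ H * ((∏ m, wz A m (H m)) * Psi κ i (fun m j => Fn m (H m j)) w.2.2) else 0) ≤
        (∏ m, g m (H m)) * B ^ (r * k) := by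
      intro H
      have hpow : 0 ≤ B ^ (r * k) := pow_nonneg hB0 _
      have hprod0 : 0 ≤ ∏ m, g m (H m) := Finset.prod_nonneg fun m _ => hg0 m _
      by_cases hA : ∀ m, H m (i m) = w.2.1 m
      · rw [if_pos hA]
        by_cases hA' : H m0 (i' m0) = w'.2.1 m0
        · have h3 : ψ H = 1 := by
            simp only [hψ]
            rw [if_pos hA']
          have h4 : ∏ m, g m (H m) = ∏ m, wz A m (H m) := by
            apply Finset.prod_congr rfl
            intro m _
            simp only [hg]
            by_cases hm : m = m0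
            · subst hm
              rw [if_pos rfl, if_pos ⟨hA m, hA'⟩]
            · rw [if_neg hm, if_pos (hA m)]
          rw [h3, one_mul, h4]
          exact mul_le_mul_of_nonneg_left (psi_bd κ i _ _).2
            (Finset.prod_nonneg fun m _ => deg_wz_nonneg A m _)
        · have h3 : ψ H = 0 := by
            simp only [hψ]
            rw [if_neg hA']
          rw [h3, zero_mul]
          exact mul_nonneg hprod0 hpow
      · rw [if_neg hA]
        exact mul_nonneg hprod0 hpow
    calc _ ≤ ∑ H : Fin r → Fin k → ZW r z, (∏ m, g m (H m)) * B ^ (r * k) :=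
          Finset.sum_le_sum fun H _ => h2 H
      _ = (∏ m, ∑ H : Fin k → ZW r z, g m H) * B ^ (r * k) := by
          rw [← Finset.sum_mul, Finset.prod_univ_sum, Fintype.piFinset_univ]
      _ ≤ ε * C ^ r * B ^ (r * k) := by
          apply mul_le_mul_of_nonneg_right _ (pow_nonneg hB0 _)
          have hC0 : 0 ≤ C := zero_le_one.trans hC1
          have hbd : ∀ m, ∑ H : Fin k → ZW r z, g m H ≤ if m = m0 then ε else C := by
            intro m
            by_cases hm : m = m0
            · subst hm
              rw [if_pos rfl]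
              have := hε m (i m) (i' m) (w.2.1 m) (w'.2.1 m) hm0
              refine le_trans (le_of_eq ?_) this
              apply Finset.sum_congr rfl
              intro H _
              simp only [hg, if_true]
            · rw [if_neg hm]
              have := hC m (i m) (w.2.1 m)
              refine le_trans (le_of_eq ?_) this
              apply Finset.sum_congr rfl
              intro H _
              simp only [hg]
              rw [if_neg hm]
          calc ∏ m, ∑ H : Fin k → ZW r z, g m H ≤ ∏ m, (if m = m0 then ε else C) :=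
                Finset.prod_le_prod (fun m _ => Finset.sum_nonneg fun H _ => hg0 m H)
                  (fun m _ => hbd m)
            _ ≤ ε * C ^ r := by
                rw [← Finset.mul_prod_erase _ _ (mem_univ m0), if_pos rfl]
                apply mul_le_mul_of_nonneg_left _ hε0
                calc ∏ m ∈ univ.erase m0, (if m = m0 then ε else C) =
                      ∏ m ∈ univ.erase m0, C := by
                      apply Finset.prod_congr rfl
                      intro m hm
                      rw [if_neg (Finset.ne_of_mem_erase hm)]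
                  _ = C ^ (univ.erase m0).card := Finset.prod_const _
                  _ ≤ C ^ r := by
                      apply pow_le_pow_right₀ hC1
                      calc (univ.erase m0).card ≤ (univ : Finset (Fin r)).card :=
                            Finset.card_le_card (Finset.erase_subset _ _)
                        _ = r := by rw [Finset.card_univ, Fintype.card_fin]
  have hpos : 0 ≤ ε * C ^ r * B ^ (r * k) := by
    have hC0 : 0 ≤ C := zero_le_one.trans hC1
    positivity
  exact mul_le_mul hsum hcur (Finset.prod_nonneg fun m _ => hcur0 m) hpos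


end EDGES

end Pool.Agent.Lib_helper46.CC

namespace Pool.Agent.Lib_helper46.CC

alias codeg := codeg_pr
alias deg_lower := deg_lower_pr

end Pool.Agent.Lib_helper46.CC
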