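import Mathlib
import Pool.Agent.Lib_helper46.CCF.WBase
import Pool.Agent.Lib_helper70.ChainLower
import Pool.Agent.Lib_helper46.CCF.MMX

/-! Block FAR, written by helper70. -/

/-!
# CC, block FAR: the chains of the grids which contain words of far types
-/

set_option autoImplicit false

namespace Pool.Agent.Lib_helper46.CC

open Finset Pool.Agent.Lib_helper70.Chains

/-! ## Symmetric chains, with the number of the long ones -/

private theorem fa_choose_mono {s : ℕ} : ∀ {b a : ℕ}, a ≤ b → b ≤ s / 2 →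
    s.choose a ≤ s.choose b := by
  intro b
  induction b with
  | zero =>
    intro a h1 h2
    rw [Nat.le_zero.mp h1]
  | succ b ih =>
    intro a h1 h2
    rcases Nat.lt_or_ge b a with h | h
    · have : a = b + 1 := by omega
      rw [this]
    · exact (ih h (by omega)).trans (Nat.choose_le_succ_of_lt_half_left (by omega))

private theorem fa_choose_bound (s Y : ℕ) (hY : Y ≤ s / 2) :
    (Y + 1) * s.choose (s / 2 - Y) ≤ 2 ^ s := by
  calc (Y + 1) * s.choose (s / 2 - Y) = ∑ j ∈ Finset.Icc (s / 2 - Y) (s / 2),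
        s.choose (s / 2 - Y) := by
        rw [Finset.sum_const, Nat.card_Icc, smul_eq_mul]
        congr 1
        omega
    _ ≤ ∑ j ∈ Finset.Icc (s / 2 - Y) (s / 2), s.choose j := by
        refine Finset.sum_le_sum fun j hj => ?_
        rw [Finset.mem_Icc] at hj
        exact fa_choose_mono hj.1 hj.2
    _ ≤ ∑ j ∈ Finset.range (s + 1), s.choose j := by
        refine Finset.sum_le_sum_of_subset fun j hj => ?_
        rw [Finset.mem_Icc] at hj
        rw [Finset.mem_range]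
        omega
    _ = 2 ^ s := Nat.sum_range_choose s

private theorem fa_cover {α : Type} [DecidableEq α] (S : Finset α) :
    ∃ f : Fin (Nat.choose S.card (S.card / 2)) → Finset (Finset α),
    (∀ i, IsChain (· ⊆ ·) (f i : Set (Finset α))) ∧ (∀ A ⊆ S, ∃ i, A ∈ f i) ∧
    ∀ Y : ℕ, (Y + 1) * (univ.filter (fun i => ∃ A ∈ f i,
      2 * (Y : ℤ) + 1 ≤ |2 * (A.card : ℤ) - S.card|)).card ≤ 2 ^ S.card := by
  obtain ⟨𝒟, h1, h2, h3⟩ := scd S
  -- each chain contains a set of middle size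
  have hmid : ∀ C ∈ 𝒟, ∃ A ∈ C, A.card = S.card / 2 := by
    intro C hC
    obtain ⟨⟨hch, k, hk, him⟩, hsub⟩ := h1 C hC
    have : S.card / 2 ∈ C.image Finset.card := by rw [him, Finset.mem_Icc]; omega
    exact Finset.mem_image.1 this
  choose! m hm hmc using hmid
  have hcard : 𝒟.card ≤ Nat.choose S.card (S.card / 2) := by
    rw [← Finset.card_powersetCard]
    refine Finset.card_le_card_of_injOn m ?_ ?_
    · intro C hC
      rw [Finset.mem_coe, Finset.mem_powersetCard]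
      exact ⟨(h1 C hC).2 _ (hm C hC), hmc C hC⟩
    · intro C hC C' hC' h
      exact h3 (m C) C hC C' hC' (hm C hC) (by rw [h]; exact hm C' hC')
  let e := 𝒟.equivFin
  let f : Fin (Nat.choose S.card (S.card / 2)) → Finset (Finset α) :=
    fun i => if h : i.1 < 𝒟.card then (e.symm ⟨i.1, h⟩ : Finset (Finset α)) else ∅
  have hf1 : ∀ i, (h : i.1 < 𝒟.card) → f i = (e.symm ⟨i.1, h⟩ : Finset (Finset α)) := by
    intro i h
    simp only [f, h, dite_true]
  have hf2 : ∀ i, ¬ i.1 < 𝒟.card → f i = ∅ := by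
    intro i h
    simp only [f, h, dite_false]
  refine ⟨f, ?_, ?_, ?_⟩
  · intro i
    by_cases h : i.1 < 𝒟.card
    · rw [hf1 i h]
      exact (h1 _ (e.symm ⟨i.1, h⟩).2).1.1
    · rw [hf2 i h]
      simp
  · intro A hA
    obtain ⟨C, hC, hAC⟩ := h2 A hA
    refine ⟨⟨(e ⟨C, hC⟩).1, lt_of_lt_of_le (e ⟨C, hC⟩).2 hcard⟩, ?_⟩
    rw [hf1 _ (e ⟨C, hC⟩).2]
    simpa using hAC
  · intro Y
    by_cases hY : Y ≤ S.card / 2
    · refine (Nat.mul_le_mul_left _ ?_).trans (fa_choose_bound _ Y hY)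
      -- the bad chains contain a set of size `s/2 - Y`
      have hB : ∀ i : Fin (Nat.choose S.card (S.card / 2)), ∃ B : Finset α,
          (∃ A ∈ f i, 2 * (Y : ℤ) + 1 ≤ |2 * (A.card : ℤ) - S.card|) →
          B ∈ f i ∧ B.card = S.card / 2 - Y := by
        intro i
        by_cases hi : ∃ A ∈ f i, 2 * (Y : ℤ) + 1 ≤ |2 * (A.card : ℤ) - S.card|
        · obtain ⟨A, hA, hAY⟩ := hi
          have hlt : i.1 < 𝒟.card := by
            by_contra h
            rw [hf2 i h] at hA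
            simp at hA
          rw [hf1 i hlt] at hA ⊢
          obtain ⟨⟨hch, k, hk, him⟩, hsub⟩ := h1 _ (e.symm ⟨i.1, hlt⟩).2
          have hAc : A.card ∈ Finset.Icc k (S.card - k) := by
            rw [← him]; exact Finset.mem_image_of_mem _ hA
          rw [Finset.mem_Icc] at hAc
          have hx : S.card / 2 - Y ∈ Finset.Icc k (S.card - k) := by
            rw [Finset.mem_Icc]
            rcases le_abs.mp hAY with h | h <;> omega
          rw [← him] at hx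
          obtain ⟨B, hB, hBc⟩ := Finset.mem_image.1 hx
          exact ⟨B, fun _ => ⟨hB, hBc⟩⟩
        · exact ⟨∅, fun h => absurd h hi⟩
      choose B hB using hB
      rw [← Finset.card_powersetCard (S.card / 2 - Y) S]
      refine Finset.card_le_card_of_injOn B ?_ ?_
      · intro i hi
        have hi' := (Finset.mem_filter.1 (Finset.mem_coe.1 hi)).2
        obtain ⟨h4, h5⟩ := hB i hi'
        have hlt : i.1 < 𝒟.card := by
          by_contra h
          rw [hf2 i h] at h4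
          simp at h4
        rw [hf1 i hlt] at h4
        rw [Finset.mem_coe, Finset.mem_powersetCard]
        exact ⟨(h1 _ (e.symm ⟨i.1, hlt⟩).2).2 _ h4, h5⟩
      · intro i hi j hj hij
        have hi' := (Finset.mem_filter.1 (Finset.mem_coe.1 hi)).2
        have hj' := (Finset.mem_filter.1 (Finset.mem_coe.1 hj)).2
        have h4 := (hB i hi').1
        have h5 := (hB j hj').1
        have hlt : i.1 < 𝒟.card := by
          by_contra h
          rw [hf2 i h] at h4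
          simp at h4
        have hlt' : j.1 < 𝒟.card := by
          by_contra h
          rw [hf2 j h] at h5
          simp at h5
        rw [hf1 i hlt] at h4
        rw [hf1 j hlt', ← hij] at h5
        have h6 := h3 (B i) _ (e.symm ⟨i.1, hlt⟩).2 _ (e.symm ⟨j.1, hlt'⟩).2 h4 h5
        have h7 := e.symm.injective (Subtype.ext h6)
        apply Fin.ext
        simpa using congrArg Fin.val h7
    · have hemp : (univ.filter (fun i => ∃ A ∈ f i,
          2 * (Y : ℤ) + 1 ≤ |2 * (A.card : ℤ) - S.card|)) = ∅ := by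
        rw [Finset.filter_eq_empty_iff]
        rintro i - ⟨A, hA, hAY⟩
        have hlt : i.1 < 𝒟.card := by
          by_contra h
          rw [hf2 i h] at hA
          simp at hA
        rw [hf1 i hlt] at hA
        have h4 := Finset.card_le_card ((h1 _ (e.symm ⟨i.1, hlt⟩).2).2 _ hA)
        rcases le_abs.mp hAY with h | h <;> omega
      rw [hemp]
      simp

/-! ## The chains of the grids -/

section Grid

variable {r : ℕ} {ℓ : Fin r → ℕ}

private noncomputable def fa_g (i : Fin r) (u : Fin (ℓ i) → Fin r) :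
    Fin (Nat.choose (Sp ℓ i u).card ((Sp ℓ i u).card / 2)) → Finset (Finset (Fin (ℓ i))) :=
  Classical.choose (fa_cover (Sp ℓ i u))

private noncomputable def fa_chn (ω : Om ℓ) : Finset (Finset (Gd ℓ)) :=
  Finset.univ.biUnion (fun j => (fa_g j (ω j).1 (ω j).2).image (setF ω j))

private theorem fa_chn_chain (ω : Om ℓ) :
    IsChain (· ⊆ ·) (fa_chn ω : Set (Finset (Gd ℓ))) := by
  intro A hA B hB _
  simp only [fa_chn, Finset.coe_biUnion, Set.mem_iUnion, Finset.mem_coe, Finset.mem_univ,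
    Finset.mem_image, exists_prop, true_and] at hA hB
  obtain ⟨j, d, hd, rfl⟩ := hA
  obtain ⟨j', d', hd', rfl⟩ := hB
  rcases lt_trichotomy j j' with h | h | h
  · left; exact setF_lt ω h d d'
  · subst h
    rcases ((Classical.choose_spec (fa_cover (Sp ℓ j (ω j).1))).1 (ω j).2).total hd hd' with h | h
    · left; exact setF_mono ω j h
    · right; exact setF_mono ω j h
  · right; exact setF_lt ω h d' d

private def fa_v (w : Gd ℓ → Fin (r + 1)) (z : Gd ℓ) : Fin r :=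
  if h : (w z : ℕ) ≤ z.1.1 then ⟨w z, lt_of_le_of_lt h z.1.2⟩
    else ⟨w z - 1, by have := (w z).2; have := z.1.2; omega⟩

private theorem fa_v1 (w : Gd ℓ → Fin (r + 1)) (z : Gd ℓ) (h : (w z : ℕ) ≤ z.1.1) :
    (fa_v w z : ℕ) = w z := by
  simp only [fa_v, h, dite_true]

private theorem fa_v2 (w : Gd ℓ → Fin (r + 1)) (z : Gd ℓ) (h : ¬ (w z : ℕ) ≤ z.1.1) :
    (fa_v w z : ℕ) = w z - 1 := by
  simp only [fa_v, h, dite_false]

private def fa_d (w : Gd ℓ → Fin (r + 1)) (i : Fin r) : Finset (Fin (ℓ i)) :=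
  univ.filter (fun x => (w ⟨i, x⟩ : ℕ) = i)

private theorem fa_word (w : Gd ℓ → Fin (r + 1)) : ∃ ω : Om ℓ,
    (∀ i, (ω i).1 = fun x => fa_v w ⟨i, x⟩) ∧
    (∀ m, fa_d w m ∈ fa_g m (ω m).1 (ω m).2) ∧
    ∀ m : Fin r, univ.filter (fun z => (w z : ℕ) ≤ (m : ℕ)) ∈ fa_chn ω := by
  have hdd : ∀ i, fa_d w i ⊆ Sp ℓ i (fun x => fa_v w ⟨i, x⟩) := by
    intro i x hx
    simp only [fa_d, Finset.mem_filter, Finset.mem_univ, true_and] at hx
    simp only [Sp, Finset.mem_filter, Finset.mem_univ, true_and]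
    apply Fin.ext
    rw [fa_v1 _ _ (by simp only; omega)]
    exact hx
  choose k hk using fun i =>
    (Classical.choose_spec (fa_cover (Sp ℓ i (fun x => fa_v w ⟨i, x⟩)))).2.1 (fa_d w i) (hdd i)
  refine ⟨fun i => ⟨fun x => fa_v w ⟨i, x⟩, k i⟩, fun i => rfl, hk, fun m => ?_⟩
  simp only [fa_chn, Finset.mem_biUnion, Finset.mem_univ, Finset.mem_image, true_and]
  refine ⟨m, fa_d w m, hk m, ?_⟩
  ext z
  rw [mem_setF, Finset.mem_filter]
  simp only [Finset.mem_univ, true_and]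
  have hvv : vv (fun i => ⟨fun x => fa_v w ⟨i, x⟩, k i⟩ : Om ℓ) z = fa_v w z := rfl
  have hdz : z ∈ (fa_d w m).image (Sigma.mk m) ↔ z.1 = m ∧ (w z : ℕ) = m := by
    rw [Finset.mem_image]
    constructor
    · rintro ⟨x, hx, rfl⟩
      refine ⟨rfl, ?_⟩
      simpa only [fa_d, Finset.mem_filter, Finset.mem_univ, true_and] using hx
    · rintro ⟨h1, h2⟩
      obtain ⟨i, x⟩ := z
      simp only at h1
      subst h1
      refine ⟨x, ?_, rfl⟩
      simpa only [fa_d, Finset.mem_filter, Finset.mem_univ, true_and] using h2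
  rw [hvv, hdz]
  simp only [Fin.ext_iff, Fin.lt_def, Fin.le_def]
  by_cases h : (w z : ℕ) ≤ z.1.1
  · rw [fa_v1 w z h]; omega
  · rw [fa_v2 w z h]; omega

/-! ## The types -/

/-- the centred contribution of a position -/
private noncomputable def fa_h (m : Fin r) (z : Gd ℓ) (c : Fin r) : ℝ :=
  ((if (c < z.1 ∧ c ≤ m) ∨ (z.1 ≤ c ∧ c < m) then 1 else 0) +
    (if z.1 = m ∧ c = m then 1 / 2 else 0)) - ((m : ℝ) + 1) / (r + 1)

/-- the weights -/
private noncomputable def fa_p (z : Gd ℓ) (c : Fin r) : ℝ := if c = z.1 then 2 else 1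

private theorem fa_p_nonneg (z : Gd ℓ) (c : Fin r) : 0 ≤ fa_p z c := by
  unfold fa_p
  split_ifs <;> norm_num

private theorem fa_p_sum (z : Gd ℓ) : ∑ c, fa_p z c = (r : ℝ) + 1 := by
  have h1 : ∀ c, fa_p z c = 1 + if c = z.1 then 1 else 0 := by
    intro c
    unfold fa_p
    split_ifs <;> norm_num
  simp only [h1, Finset.sum_add_distrib, Finset.sum_ite_eq', Finset.mem_univ, if_true]
  simp

private theorem fa_h_le (m : Fin r) (z : Gd ℓ) (c : Fin r) : |fa_h m z c| ≤ 1 := by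
  have hr : (0 : ℝ) < r + 1 := by positivity
  have h1 : ((m : ℝ) + 1) / (r + 1) ≤ 1 := by
    rw [div_le_one hr]
    have : (m : ℝ) ≤ r := by exact_mod_cast m.2.le
    linarith
  have h2 : 0 ≤ ((m : ℝ) + 1) / (r + 1) := by positivity
  unfold fa_h
  rw [abs_le]
  split_ifs with h3 h4 h4
  · exfalso
    obtain ⟨h5, h6⟩ := h4
    rw [h5, h6] at h3
    rcases h3 with h3 | h3
    · exact lt_irrefl _ h3.1
    · exact lt_irrefl _ h3.2
  · constructor <;> linarith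
  · constructor <;> linarith
  · constructor <;> linarith

private theorem fa_card_lt (k : ℕ) (hk : k ≤ r) :
    (∑ c : Fin r, if (c : ℕ) < k then (1 : ℝ) else 0) = k := by
  rw [Finset.sum_boole, Fin.card_filter_val_lt, min_eq_right hk]

private theorem fa_h_mean (m : Fin r) (z : Gd ℓ) : ∑ c, fa_p z c * fa_h m z c = 0 := by
  have hr : ((r : ℝ) + 1) ≠ 0 := by positivity
  set F : Fin r → ℝ := fun c => (if (c < z.1 ∧ c ≤ m) ∨ (z.1 ≤ c ∧ c < m) then 1 else 0) +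
    (if z.1 = m ∧ c = m then 1 / 2 else 0) with hF
  have h1 : ∀ c, fa_p z c * fa_h m z c = F c + (if c = z.1 then F c else 0) -
      fa_p z c * (((m : ℝ) + 1) / (r + 1)) := by
    intro c
    have : fa_h m z c = F c - ((m : ℝ) + 1) / (r + 1) := rfl
    rw [this]
    unfold fa_p
    split_ifs <;> ring
  simp only [h1]
  rw [Finset.sum_sub_distrib, Finset.sum_add_distrib, Finset.sum_ite_eq', ← Finset.sum_mul,
    fa_p_sum]
  simp only [Finset.mem_univ, if_true]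
  have h2 : ((r : ℝ) + 1) * (((m : ℝ) + 1) / (r + 1)) = m + 1 := by field_simp
  rw [h2, sub_eq_zero]
  rcases lt_trichotomy z.1 m with h | h | h
  · have h3 : ∀ c, F c = if (c : ℕ) < (m : ℕ) then 1 else 0 := by
      intro c
      have e1 : ¬ (z.1 = m ∧ c = m) := fun h5 => absurd h5.1 h.ne
      have e2 : ((c < z.1 ∧ c ≤ m) ∨ (z.1 ≤ c ∧ c < m)) ↔ (c : ℕ) < (m : ℕ) := by
        rw [Fin.lt_def] at h
        simp only [Fin.lt_def, Fin.le_def]
        omega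
      simp only [hF, e1, if_false, add_zero, e2]
    rw [Finset.sum_congr rfl fun c _ => h3 c, fa_card_lt m m.2.le, h3,
      if_pos (show (z.1 : ℕ) < (m : ℕ) from h)]
  · have h3 : ∀ c, F c = (if (c : ℕ) < (m : ℕ) then 1 else 0) + if c = m then 1 / 2 else 0 := by
      intro c
      have e2 : ((c < z.1 ∧ c ≤ m) ∨ (z.1 ≤ c ∧ c < m)) ↔ (c : ℕ) < (m : ℕ) := by
        rw [Fin.ext_iff] at h
        simp only [Fin.lt_def, Fin.le_def]
        omega
      simp only [hF]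
      rw [if_congr e2 rfl rfl]
      simp only [h, true_and]
    rw [Finset.sum_congr rfl fun c _ => h3 c, Finset.sum_add_distrib, fa_card_lt m m.2.le, h3,
      Finset.sum_ite_eq', h]
    simp
    ring
  · have h3 : ∀ c, F c = if (c : ℕ) < (m : ℕ) + 1 then 1 else 0 := by
      intro c
      have e1 : ¬ (z.1 = m ∧ c = m) := fun h5 => absurd h5.1 h.ne'
      have e2 : ((c < z.1 ∧ c ≤ m) ∨ (z.1 ≤ c ∧ c < m)) ↔ (c : ℕ) < (m : ℕ) + 1 := by
        rw [Fin.lt_def] at h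
        simp only [Fin.lt_def, Fin.le_def]
        omega
      simp only [hF, e1, if_false, add_zero, e2]
    have h4 : ¬ ((z.1 : ℕ) < (m : ℕ) + 1) := by
      rw [Fin.lt_def] at h
      omega
    rw [Finset.sum_congr rfl fun c _ => h3 c, fa_card_lt (m + 1) m.2, h3, if_neg h4]
    push_cast
    ring

/-- the type of a word -/
private theorem fa_type (w : Gd ℓ → Fin (r + 1)) (m : Fin r) :
    (cl w m : ℝ) - ((m : ℝ) + 1) * (Fintype.card (Gd ℓ)) / (r + 1) =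
      (((fa_d w m).card : ℝ) - ((Sp ℓ m (fun x => fa_v w ⟨m, x⟩)).card : ℝ) / 2) +
        ∑ z, fa_h m z (fa_v w z) := by
  have h1 : (cl w m : ℝ) = ∑ z, if (w z : ℕ) ≤ (m : ℕ) then (1 : ℝ) else 0 := by
    rw [cl, Finset.sum_boole]
  have h2 : ∀ (P : Gd ℓ → Prop) [DecidablePred P] (c : ℝ),
      ∑ z : Gd ℓ, (if z.1 = m ∧ P z then c else 0) =
        ((univ.filter (fun x : Fin (ℓ m) => P ⟨m, x⟩)).card : ℝ) * c := by
    intro P _ c
    rw [Fintype.sum_sigma, Finset.sum_eq_single m]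
    · simp only [true_and]
      rw [← Finset.sum_filter, Finset.sum_const, nsmul_eq_mul]
    · intro j _ hj
      simp only [hj, false_and, if_false, Finset.sum_const_zero]
    · intro h
      exact absurd (Finset.mem_univ _) h
  have h3 := h2 (fun z => (w z : ℕ) = m) 1
  have h4 := h2 (fun z => fa_v w z = m) (1 / 2)
  have h5 : ∀ z : Gd ℓ, (if (w z : ℕ) ≤ (m : ℕ) then (1 : ℝ) else 0) =
      (if z.1 = m ∧ (w z : ℕ) = m then 1 else 0) - (if z.1 = m ∧ fa_v w z = m then 1 / 2 else 0) +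
        fa_h m z (fa_v w z) + ((m : ℝ) + 1) / (r + 1) := by
    intro z
    have e1 : (if (w z : ℕ) ≤ (m : ℕ) then (1 : ℝ) else 0) =
        (if z.1 = m ∧ (w z : ℕ) = m then 1 else 0) +
        (if (fa_v w z < z.1 ∧ fa_v w z ≤ m) ∨ (z.1 ≤ fa_v w z ∧ fa_v w z < m) then 1 else 0) := by
      simp only [Fin.ext_iff, Fin.lt_def, Fin.le_def]
      by_cases h : (w z : ℕ) ≤ z.1.1
      · rw [fa_v1 w z h]
        split_ifs <;> first | omega | norm_num
      · rw [fa_v2 w z h]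
        split_ifs <;> first | omega | norm_num
    rw [e1, fa_h]
    ring
  rw [h1, Finset.sum_congr rfl fun z _ => h5 z, Finset.sum_add_distrib, Finset.sum_add_distrib,
    Finset.sum_sub_distrib, h3, h4, Finset.sum_const, Finset.card_univ, nsmul_eq_mul]
  have e2 : (univ.filter (fun x : Fin (ℓ m) => (w ⟨m, x⟩ : ℕ) = m)) = fa_d w m := rfl
  have e3 : (univ.filter (fun x : Fin (ℓ m) => fa_v w ⟨m, x⟩ = m)) =
      Sp ℓ m (fun x => fa_v w ⟨m, x⟩) := rfl
  rw [e2, e3]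
  ring

/-! ## The second moment -/

end Grid

private theorem fa_cheb {ι κ : Type} [Fintype ι] [DecidableEq ι] [Fintype κ] [DecidableEq κ]
    (p h : ι → κ → ℝ) (R : ℝ)
    (hp0 : ∀ z c, 0 ≤ p z c) (hpR : ∀ z, ∑ c, p z c = R)
    (hh0 : ∀ z, ∑ c, p z c * h z c = 0) (hh1 : ∀ z c, |h z c| ≤ 1) :
    ∑ u : ι → κ, (∏ z, p z (u z)) * (∑ z, h z (u z)) ^ 2 ≤
      Fintype.card ι * R ^ Fintype.card ι := by
  have hprod : ∀ f : ι → κ → ℝ, ∑ u : ι → κ, ∏ z, f z (u z) = ∏ z, ∑ c, f z c := by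
    intro f
    rw [Finset.prod_univ_sum, Fintype.piFinset_univ]
  have hoff : ∀ z z' : ι, z ≠ z' →
      ∑ u : ι → κ, (∏ z, p z (u z)) * (h z (u z) * h z' (u z')) = 0 := by
    intro z z' hz
    have h1 : ∀ u : ι → κ, (∏ z, p z (u z)) * (h z (u z) * h z' (u z')) =
        ∏ z'', (p z'' (u z'') * (if z'' = z then h z'' (u z'') else 1) *
          (if z'' = z' then h z'' (u z'') else 1)) := by
      intro u
      rw [Finset.prod_mul_distrib, Finset.prod_mul_distrib, Finset.prod_ite_eq',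
        Finset.prod_ite_eq']
      simp only [Finset.mem_univ, if_true]
      ring
    simp only [h1]
    rw [hprod (fun z'' c => p z'' c * (if z'' = z then h z'' c else 1) *
          (if z'' = z' then h z'' c else 1))]
    refine Finset.prod_eq_zero (Finset.mem_univ z) ?_
    simp only [if_true, hz, if_false, mul_one]
    exact hh0 z
  have hdiag : ∀ z : ι, ∑ u : ι → κ, (∏ z, p z (u z)) * (h z (u z) * h z (u z)) ≤
      R ^ Fintype.card ι := by
    intro z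
    calc ∑ u : ι → κ, (∏ z, p z (u z)) * (h z (u z) * h z (u z))
        ≤ ∑ u : ι → κ, ∏ z, p z (u z) := by
          refine Finset.sum_le_sum fun u _ => ?_
          refine mul_le_of_le_one_right (Finset.prod_nonneg fun z _ => hp0 z _) ?_
          have := hh1 z (u z)
          rw [← sq, ← sq_abs]
          exact pow_le_one₀ (abs_nonneg _) this
      _ = R ^ Fintype.card ι := by
          rw [hprod, Finset.prod_congr rfl fun z _ => hpR z, Finset.prod_const,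
            Finset.card_univ]
  have h1 : ∀ u : ι → κ, (∏ z, p z (u z)) * (∑ z, h z (u z)) ^ 2 =
      ∑ z, ∑ z', (∏ z, p z (u z)) * (h z (u z) * h z' (u z')) := by
    intro u
    rw [sq, Finset.sum_mul_sum, Finset.mul_sum]
    refine Finset.sum_congr rfl fun z _ => ?_
    rw [Finset.mul_sum]
  simp only [h1]
  rw [Finset.sum_comm]
  calc ∑ z, ∑ u : ι → κ, ∑ z', (∏ z, p z (u z)) * (h z (u z) * h z' (u z'))
      = ∑ z, ∑ z', ∑ u : ι → κ, (∏ z, p z (u z)) * (h z (u z) * h z' (u z')) :=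
        Finset.sum_congr rfl fun z _ => Finset.sum_comm
    _ = ∑ z, ∑ u : ι → κ, (∏ z, p z (u z)) * (h z (u z) * h z (u z)) := by
        refine Finset.sum_congr rfl fun z _ => ?_
        refine Finset.sum_eq_single z (fun z' _ hz' => hoff z z' hz'.symm) fun h => ?_
        exact absurd (Finset.mem_univ _) h
    _ ≤ ∑ z : ι, R ^ Fintype.card ι := Finset.sum_le_sum fun z _ => hdiag z
    _ = _ := by rw [Finset.sum_const, Finset.card_univ, nsmul_eq_mul]

/-! ## Counting -/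

section Count

variable {r : ℕ} {ℓ : Fin r → ℕ}

private def fa_N (i : Fin r) (u : Fin (ℓ i) → Fin r) : ℕ :=
  Nat.choose (Sp ℓ i u).card ((Sp ℓ i u).card / 2)

private theorem fa_b3 (i : Fin r) :
    ∑ u : Fin (ℓ i) → Fin r, (2 : ℝ) ^ (Sp ℓ i u).card = ((r : ℝ) + 1) ^ (ℓ i) := by
  have h := sum_words (m := ℓ i) i (fun s => (2 : ℝ) ^ s)
  have h2 := S1 (ℓ i) ((r : ℝ) - 1)
  rw [h2] at h
  have h3 : (r : ℝ) - 1 + 2 = r + 1 := by ring
  rw [h3] at h
  exact h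

private theorem fa_b2 (i : Fin r) :
    ∑ u : Fin (ℓ i) → Fin r, (fa_N i u : ℝ) ^ 2 / 2 ^ (Sp ℓ i u).card ≤
      ((r : ℝ) + 1) ^ (ℓ i + 1) / (ℓ i + 1) := by
  have hr : 1 ≤ r := by have := i.2; omega
  have hq : (0 : ℝ) ≤ (r : ℝ) - 1 := by
    have : (1 : ℝ) ≤ r := by exact_mod_cast hr
    linarith
  have h := sum_words (m := ℓ i) i (fun s => (Nat.choose s (s / 2) : ℝ) ^ 2 / 2 ^ s)
  have h1 : ∑ u : Fin (ℓ i) → Fin r, (fa_N i u : ℝ) ^ 2 / 2 ^ (Sp ℓ i u).card =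
      ∑ s ∈ Finset.range (ℓ i + 1), ((ℓ i).choose s : ℝ) * (((r : ℝ) - 1) ^ (ℓ i - s) *
        ((Nat.choose s (s / 2) : ℝ) ^ 2 / 2 ^ s)) := h
  rw [h1]
  have h2 := S2 (ℓ i) ((r : ℝ) - 1) hq
  have h3 : (r : ℝ) - 1 + 2 = r + 1 := by ring
  rw [h3] at h2
  have hC : ∀ s : ℕ, (Nat.choose s (s / 2) : ℝ) ^ 2 / 2 ^ s ≤ 2 * (2 ^ s / ((s : ℝ) + 1)) := by
    intro s
    have hc := central_bound s
    have hs : (0 : ℝ) ≤ s := Nat.cast_nonneg s
    have hpi := Real.pi_gt_three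
    set C : ℝ := (Nat.choose s (s / 2) : ℝ) with hCdef
    have h44 : (0 : ℝ) < 4 ^ s := by positivity
    have h5 : C ^ 2 * (s + 1) ^ 2 * 3 ≤ 4 ^ s * 2 * (s + 2) := by
      refine le_trans ?_ hc
      apply mul_le_mul_of_nonneg_left hpi.le (by positivity)
    have h6 : C ^ 2 * (s + 1) * (s + 1) ≤ 2 * 4 ^ s * (s + 1) := by
      have : C ^ 2 * (s + 1) ^ 2 * 3 ≤ 4 ^ s * 6 * (s + 1) := by
        refine h5.trans ?_
        nlinarith
      nlinarith
    have h7 : C ^ 2 * (s + 1) ≤ 2 * 4 ^ s := le_of_mul_le_mul_right h6 (by positivity)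
    have h8 : (2 : ℝ) * (2 ^ s / ((s : ℝ) + 1)) = 2 * 2 ^ s / (s + 1) := by ring
    rw [h8, div_le_div_iff₀ (by positivity) (by positivity)]
    have h9 : (2 : ℝ) ^ s * 2 ^ s = 4 ^ s := by rw [← mul_pow]; norm_num
    calc C ^ 2 * (s + 1) ≤ 2 * 4 ^ s := h7
      _ = 2 * 2 ^ s * 2 ^ s := by rw [← h9]; ring
  calc ∑ s ∈ Finset.range (ℓ i + 1), ((ℓ i).choose s : ℝ) * (((r : ℝ) - 1) ^ (ℓ i - s) *
        ((Nat.choose s (s / 2) : ℝ) ^ 2 / 2 ^ s))
      ≤ ∑ s ∈ Finset.range (ℓ i + 1), 2 * (((ℓ i).choose s : ℝ) * (((r : ℝ) - 1) ^ (ℓ i - s) *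
        (2 ^ s / ((s : ℝ) + 1)))) := by
        refine Finset.sum_le_sum fun s _ => ?_
        have hw : (0 : ℝ) ≤ ((ℓ i).choose s : ℝ) * ((r : ℝ) - 1) ^ (ℓ i - s) := by positivity
        calc ((ℓ i).choose s : ℝ) * (((r : ℝ) - 1) ^ (ℓ i - s) *
            ((Nat.choose s (s / 2) : ℝ) ^ 2 / 2 ^ s)) =
            (((ℓ i).choose s : ℝ) * ((r : ℝ) - 1) ^ (ℓ i - s)) *
            ((Nat.choose s (s / 2) : ℝ) ^ 2 / 2 ^ s) := by ring
          _ ≤ (((ℓ i).choose s : ℝ) * ((r : ℝ) - 1) ^ (ℓ i - s)) *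
            (2 * (2 ^ s / ((s : ℝ) + 1))) := mul_le_mul_of_nonneg_left (hC s) hw
          _ = _ := by ring
    _ = 2 * ∑ s ∈ Finset.range (ℓ i + 1), (((ℓ i).choose s : ℝ) * (((r : ℝ) - 1) ^ (ℓ i - s) *
        (2 ^ s / ((s : ℝ) + 1)))) := by rw [Finset.mul_sum]
    _ ≤ 2 * (((r : ℝ) + 1) ^ (ℓ i + 1) / (2 * (ℓ i + 1))) :=
        mul_le_mul_of_nonneg_left h2 (by norm_num)
    _ = _ := by field_simp

private theorem fa_b1 (i : Fin r) :
    (∑ u : Fin (ℓ i) → Fin r, (fa_N i u : ℝ)) ^ 2 ≤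
      ((r : ℝ) + 1) ^ (ℓ i) * (((r : ℝ) + 1) ^ (ℓ i + 1) / (ℓ i + 1)) := by
  have hCS : (∑ u : Fin (ℓ i) → Fin r, (fa_N i u : ℝ)) ^ 2 ≤
      (∑ u : Fin (ℓ i) → Fin r, (2 : ℝ) ^ (Sp ℓ i u).card) *
        ∑ u : Fin (ℓ i) → Fin r, (fa_N i u : ℝ) ^ 2 / 2 ^ (Sp ℓ i u).card := by
    apply Finset.sum_sq_le_sum_mul_sum_of_sq_le_mul
    · intro s _; positivity
    · intro s _; positivity
    · intro s _
      refine le_of_eq ?_
      field_simp
  refine hCS.trans ?_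
  rw [fa_b3]
  exact mul_le_mul_of_nonneg_left (fa_b2 i) (by positivity)

private theorem fa_card_sig (i : Fin r) (Q : ∀ u : Fin (ℓ i) → Fin r,
    Fin (Nat.choose (Sp ℓ i u).card ((Sp ℓ i u).card / 2)) → Prop) [∀ u, DecidablePred (Q u)] :
    (univ.filter (fun p : Σ u : Fin (ℓ i) → Fin r,
      Fin (Nat.choose (Sp ℓ i u).card ((Sp ℓ i u).card / 2)) => Q p.1 p.2)).card =
    ∑ u, (univ.filter (Q u)).card := by
  have h : (univ.filter (fun p : Σ u : Fin (ℓ i) → Fin r,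
      Fin (Nat.choose (Sp ℓ i u).card ((Sp ℓ i u).card / 2)) => Q p.1 p.2)) =
      (univ : Finset (Fin (ℓ i) → Fin r)).sigma (fun u => univ.filter (Q u)) := by
    ext ⟨u, k⟩
    simp
  rw [h, Finset.card_sigma]

private theorem fa_count1 (m : Fin r) (Y : ℕ) :
    ((Y : ℝ) + 1) * ((univ.filter (fun ω : Om ℓ => ∃ A ∈ fa_g m (ω m).1 (ω m).2,
      2 * (Y : ℤ) + 1 ≤ |2 * (A.card : ℤ) - (Sp ℓ m (ω m).1).card|)).card : ℝ) ≤
    ((r : ℝ) + 1) ^ (ℓ m) * ∏ i ∈ univ.erase m, ∑ u, (fa_N (ℓ := ℓ) i u : ℝ) := by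
  let T : ∀ i : Fin r, Finset (Σ u : Fin (ℓ i) → Fin r,
      Fin (Nat.choose (Sp ℓ i u).card ((Sp ℓ i u).card / 2))) := fun i =>
    univ.filter (fun p => i = m → ∃ A ∈ fa_g i p.1 p.2,
      2 * (Y : ℤ) + 1 ≤ |2 * (A.card : ℤ) - (Sp ℓ i p.1).card|)
  have h1 : (univ.filter (fun ω : Om ℓ => ∃ A ∈ fa_g m (ω m).1 (ω m).2,
      2 * (Y : ℤ) + 1 ≤ |2 * (A.card : ℤ) - (Sp ℓ m (ω m).1).card|)) =
      Fintype.piFinset T := by
    ext ω
    simp only [Finset.mem_filter, Finset.mem_univ, true_and, Fintype.mem_piFinset, T]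
    constructor
    · intro h i hi
      subst hi
      exact h
    · intro h
      exact h m rfl
  have h2 : ∀ i ∈ univ.erase m, (T i).card = ∑ u, fa_N (ℓ := ℓ) i u := by
    intro i hi
    have hne := (Finset.mem_erase.1 hi).1
    have : T i = univ := by
      rw [Finset.eq_univ_iff_forall]
      intro p
      simp only [T, Finset.mem_filter, Finset.mem_univ, true_and]
      exact fun h => absurd h hne
    rw [this, Finset.card_univ, Fintype.card_sigma]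
    simp only [Fintype.card_fin]
    rfl
  have h3 : (Y + 1) * (T m).card ≤ ∑ u : Fin (ℓ m) → Fin r, 2 ^ (Sp ℓ m u).card := by
    have e1 : (T m).card = ∑ u : Fin (ℓ m) → Fin r, (univ.filter (fun k => ∃ A ∈ fa_g m u k,
        2 * (Y : ℤ) + 1 ≤ |2 * (A.card : ℤ) - (Sp ℓ m u).card|)).card := by
      rw [← fa_card_sig m (fun u k => ∃ A ∈ fa_g m u k,
        2 * (Y : ℤ) + 1 ≤ |2 * (A.card : ℤ) - (Sp ℓ m u).card|)]
      simp only [T, true_implies]
    rw [e1, Finset.mul_sum]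
    refine Finset.sum_le_sum fun u _ => ?_
    exact (Classical.choose_spec (fa_cover (Sp ℓ m u))).2.2 Y
  rw [h1, Fintype.card_piFinset, ← Finset.mul_prod_erase _ _ (Finset.mem_univ m),
    Finset.prod_congr rfl h2]
  push_cast
  rw [← mul_assoc]
  refine mul_le_mul_of_nonneg_right ?_ (Finset.prod_nonneg fun i _ =>
    Finset.sum_nonneg fun u _ => Nat.cast_nonneg _)
  rw [← fa_b3 m]
  exact_mod_cast h3

private theorem fa_count2 (P : (∀ i : Fin r, Fin (ℓ i) → Fin r) → Prop) [DecidablePred P] :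
    ((univ.filter (fun ω : Om ℓ => P (fun i => (ω i).1))).card : ℝ) =
      ∑ u ∈ univ.filter P, ∏ i, (fa_N i (u i) : ℝ) := by
  have h1 : (univ.filter (fun ω : Om ℓ => P (fun i => (ω i).1))).card =
      ∑ u ∈ univ.filter P, ∏ i, fa_N i (u i) := by
    rw [Finset.card_eq_sum_card_fiberwise (f := fun (ω : Om ℓ) i => (ω i).1)
      (t := univ.filter P)]
    · refine Finset.sum_congr rfl fun u hu => ?_
      rw [Finset.mem_filter] at hu
      have h2 : ((univ.filter (fun ω : Om ℓ => P (fun i => (ω i).1))).filter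
          (fun ω : Om ℓ => (fun i => (ω i).1) = u)) =
          Fintype.piFinset (fun i => univ.filter (fun p : Σ u : Fin (ℓ i) → Fin r,
            Fin (Nat.choose (Sp ℓ i u).card ((Sp ℓ i u).card / 2)) => p.1 = u i)) := by
        ext ω
        simp only [Finset.mem_filter, Finset.mem_univ, true_and, Fintype.mem_piFinset]
        constructor
        · rintro ⟨-, h⟩ i
          exact congrFun h i
        · intro h
          have h' : (fun i => (ω i).1) = u := funext h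
          rw [h']
          exact ⟨hu.2, rfl⟩
      rw [h2, Fintype.card_piFinset]
      refine Finset.prod_congr rfl fun i _ => ?_
      have h3 : (univ.filter (fun p : Σ u : Fin (ℓ i) → Fin r,
            Fin (Nat.choose (Sp ℓ i u).card ((Sp ℓ i u).card / 2)) => p.1 = u i)) =
          (univ : Finset (Fin (Nat.choose (Sp ℓ i (u i)).card
            ((Sp ℓ i (u i)).card / 2)))).map ⟨Sigma.mk (u i), sigma_mk_injective⟩ := by
        ext ⟨a, k⟩
        simp only [Finset.mem_filter, Finset.mem_univ, true_and, Finset.mem_map,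
          Function.Embedding.coeFn_mk]
        constructor
        · intro h
          subst h
          exact ⟨k, rfl⟩
        · rintro ⟨k', h⟩
          exact (congrArg Sigma.fst h).symm
      rw [h3, Finset.card_map, Finset.card_univ, Fintype.card_fin]
      rfl
    · intro ω hω
      have := (Finset.mem_filter.1 (Finset.mem_coe.1 hω)).2
      rw [Finset.mem_coe, Finset.mem_filter]
      exact ⟨Finset.mem_univ _, this⟩
  rw [h1]
  push_cast
  rfl

private theorem fa_two_pow (u : ∀ i : Fin r, Fin (ℓ i) → Fin r) :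
    ∏ i, (2 : ℝ) ^ (Sp ℓ i (u i)).card = ∏ z : Gd ℓ, fa_p z (u z.1 z.2) := by
  rw [Fintype.prod_sigma]
  refine Finset.prod_congr rfl fun i _ => ?_
  simp only [fa_p]
  rw [Finset.prod_ite, Finset.prod_const_one, mul_one, Finset.prod_const]
  rfl

private theorem fa_cheb2 (m : Fin r) (y : ℝ) (hy : 0 ≤ y) :
    y ^ 2 * ∑ u ∈ univ.filter (fun u : ∀ i : Fin r, Fin (ℓ i) → Fin r =>
      y ≤ |∑ z : Gd ℓ, fa_h m z (u z.1 z.2)|), ∏ i, (2 : ℝ) ^ (Sp ℓ i (u i)).card ≤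
    Fintype.card (Gd ℓ) * ((r : ℝ) + 1) ^ Fintype.card (Gd ℓ) := by
  have h1 := fa_cheb (fa_p (ℓ := ℓ)) (fa_h m) ((r : ℝ) + 1) fa_p_nonneg fa_p_sum
    (fa_h_mean m) (fa_h_le m)
  refine le_trans ?_ h1
  have h2 : ∑ u : Gd ℓ → Fin r, (∏ z, fa_p z (u z)) * (∑ z, fa_h m z (u z)) ^ 2 =
      ∑ u : (∀ i : Fin r, Fin (ℓ i) → Fin r), (∏ z : Gd ℓ, fa_p z (u z.1 z.2)) *
        (∑ z : Gd ℓ, fa_h m z (u z.1 z.2)) ^ 2 := by
    refine Fintype.sum_equiv (Equiv.piCurry (fun (i : Fin r) (_ : Fin (ℓ i)) => Fin r)) _ _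
      fun u => ?_
    rfl
  rw [h2, Finset.mul_sum]
  calc ∑ u ∈ univ.filter (fun u : ∀ i : Fin r, Fin (ℓ i) → Fin r =>
      y ≤ |∑ z : Gd ℓ, fa_h m z (u z.1 z.2)|), y ^ 2 * ∏ i, (2 : ℝ) ^ (Sp ℓ i (u i)).card
      ≤ ∑ u ∈ univ.filter (fun u : ∀ i : Fin r, Fin (ℓ i) → Fin r =>
      y ≤ |∑ z : Gd ℓ, fa_h m z (u z.1 z.2)|), (∏ z : Gd ℓ, fa_p z (u z.1 z.2)) *
        (∑ z : Gd ℓ, fa_h m z (u z.1 z.2)) ^ 2 := by
        refine Finset.sum_le_sum fun u hu => ?_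
        have hu2 := (Finset.mem_filter.1 hu).2
        rw [fa_two_pow, mul_comm]
        refine mul_le_mul_of_nonneg_left ?_ (Finset.prod_nonneg fun z _ => fa_p_nonneg z _)
        rw [← sq_abs (∑ z : Gd ℓ, fa_h m z (u z.1 z.2))]
        exact pow_le_pow_left₀ hy hu2 2
    _ ≤ _ := by
        refine Finset.sum_le_sum_of_subset_of_nonneg (Finset.filter_subset _ _)
          fun u _ _ => ?_
        exact mul_nonneg (Finset.prod_nonneg fun z _ => fa_p_nonneg z _) (sq_nonneg _)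

private theorem fa_count3 (m : Fin r) (y : ℝ) (hy : 0 ≤ y) :
    y ^ 2 * ((univ.filter (fun ω : Om ℓ =>
      y ≤ |∑ z : Gd ℓ, fa_h m z ((ω z.1).1 z.2)|)).card : ℝ) ^ 2 ≤
    (Fintype.card (Gd ℓ) * ((r : ℝ) + 1) ^ Fintype.card (Gd ℓ)) *
      ∏ i, (((r : ℝ) + 1) ^ (ℓ i + 1) / (ℓ i + 1)) := by
  have h1 := fa_count2 (ℓ := ℓ) (fun u => y ≤ |∑ z : Gd ℓ, fa_h m z (u z.1 z.2)|)
  have h2 : ((univ.filter (fun ω : Om ℓ =>
      y ≤ |∑ z : Gd ℓ, fa_h m z ((ω z.1).1 z.2)|)).card : ℝ) =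
      ∑ u ∈ univ.filter (fun u : ∀ i : Fin r, Fin (ℓ i) → Fin r =>
      y ≤ |∑ z : Gd ℓ, fa_h m z (u z.1 z.2)|), ∏ i, (fa_N i (u i) : ℝ) := h1
  rw [h2]
  set Pf := univ.filter (fun u : ∀ i : Fin r, Fin (ℓ i) → Fin r =>
      y ≤ |∑ z : Gd ℓ, fa_h m z (u z.1 z.2)|) with hPf
  have hCS : (∑ u ∈ Pf, ∏ i, (fa_N i (u i) : ℝ)) ^ 2 ≤
      (∑ u ∈ Pf, ∏ i, (2 : ℝ) ^ (Sp ℓ i (u i)).card) *
        ∑ u ∈ Pf, ∏ i, ((fa_N i (u i) : ℝ) ^ 2 / 2 ^ (Sp ℓ i (u i)).card) := by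
    apply Finset.sum_sq_le_sum_mul_sum_of_sq_le_mul
    · intro s _; positivity
    · intro s _; positivity
    · intro s _
      rw [← Finset.prod_pow, ← Finset.prod_mul_distrib]
      refine le_of_eq (Finset.prod_congr rfl fun i _ => ?_)
      field_simp
  have h3 : ∑ u ∈ Pf, ∏ i, ((fa_N i (u i) : ℝ) ^ 2 / 2 ^ (Sp ℓ i (u i)).card) ≤
      ∏ i, (((r : ℝ) + 1) ^ (ℓ i + 1) / (ℓ i + 1)) := by
    calc ∑ u ∈ Pf, ∏ i, ((fa_N i (u i) : ℝ) ^ 2 / 2 ^ (Sp ℓ i (u i)).card)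
        ≤ ∑ u : (∀ i : Fin r, Fin (ℓ i) → Fin r),
          ∏ i, ((fa_N i (u i) : ℝ) ^ 2 / 2 ^ (Sp ℓ i (u i)).card) := by
          refine Finset.sum_le_sum_of_subset_of_nonneg (Finset.filter_subset _ _)
            fun u _ _ => ?_
          exact Finset.prod_nonneg fun i _ => by positivity
      _ = ∏ i, ∑ u : Fin (ℓ i) → Fin r, ((fa_N i u : ℝ) ^ 2 / 2 ^ (Sp ℓ i u).card) := by
          rw [Finset.prod_univ_sum, Fintype.piFinset_univ]
      _ ≤ _ := Finset.prod_le_prod (fun i _ => by positivity) fun i _ => fa_b2 i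
  have h4 := fa_cheb2 (ℓ := ℓ) m y hy
  have h5 : 0 ≤ ∑ u ∈ Pf, ∏ i, (2 : ℝ) ^ (Sp ℓ i (u i)).card :=
    Finset.sum_nonneg fun u _ => Finset.prod_nonneg fun i _ => by positivity
  calc y ^ 2 * (∑ u ∈ Pf, ∏ i, (fa_N i (u i) : ℝ)) ^ 2
      ≤ y ^ 2 * ((∑ u ∈ Pf, ∏ i, (2 : ℝ) ^ (Sp ℓ i (u i)).card) *
        ∏ i, (((r : ℝ) + 1) ^ (ℓ i + 1) / (ℓ i + 1))) := by
        refine mul_le_mul_of_nonneg_left (hCS.trans ?_) (by positivity)
        exact mul_le_mul_of_nonneg_left h3 h5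
    _ = (y ^ 2 * (∑ u ∈ Pf, ∏ i, (2 : ℝ) ^ (Sp ℓ i (u i)).card)) *
        ∏ i, (((r : ℝ) + 1) ^ (ℓ i + 1) / (ℓ i + 1)) := by ring
    _ ≤ _ := mul_le_mul_of_nonneg_right h4 (Finset.prod_nonneg fun i _ => by positivity)

end Count

open scoped Classical in
private theorem fa_total {r n : ℕ} (hr : 1 ≤ r) (hn : 1 ≤ n) (ℓ : Fin r → ℕ)
    (hsum : ∑ i, ℓ i = n) (hℓ : ∀ i, n + 1 ≤ r * (ℓ i + 1)) (K : ℝ) (hK : 1 ≤ K) :
    ((univ.filter (fun ω : Om ℓ => ∃ m : Fin r,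
      (∃ A ∈ fa_g m (ω m).1 (ω m).2, 2 * ((⌊K * √(n : ℝ) / 2⌋₊ : ℕ) : ℤ) + 1 ≤
        |2 * (A.card : ℤ) - (Sp ℓ m (ω m).1).card|) ∨
      K * √(n : ℝ) ≤ |∑ z : Gd ℓ, fa_h m z ((ω z.1).1 z.2)|)).card : ℝ) ≤
    r * (3 / K * (((r : ℝ) + 1) ^ n * √((r : ℝ) * (r + 1) / n) ^ r)) := by
  have hn0 : (0 : ℝ) < n := by exact_mod_cast hn
  have hn1 : (1 : ℝ) ≤ n := by exact_mod_cast hn
  have hr0 : (0 : ℝ) < r := by exact_mod_cast hr
  have hr1 : (1 : ℝ) ≤ r := by exact_mod_cast hr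
  have hK0 : 0 < K := by linarith
  set β : ℝ := √((r : ℝ) * (r + 1) / n) with hβ
  have hβ2 : β ^ 2 = (r : ℝ) * (r + 1) / n := Real.sq_sqrt (by positivity)
  have hβ0 : 0 < β := Real.sqrt_pos.mpr (by positivity)
  have hsn : 0 < √(n : ℝ) := Real.sqrt_pos.mpr hn0
  have hβn : 1 ≤ √(n : ℝ) * β := by
    rw [hβ, ← Real.sqrt_mul hn0.le, Real.one_le_sqrt]
    have : (n : ℝ) * ((r : ℝ) * (r + 1) / n) = r * (r + 1) := by field_simp
    rw [this]
    nlinarith
  have hcard : Fintype.card (Gd ℓ) = n := by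
    rw [Fintype.card_sigma]
    simp only [Fintype.card_fin]
    exact hsum
  have hratio : ∀ i, ((r : ℝ) + 1) / (ℓ i + 1) ≤ β ^ 2 := by
    intro i
    have h5 : (n : ℝ) + 1 ≤ r * (ℓ i + 1) := by exact_mod_cast hℓ i
    rw [hβ2, div_le_div_iff₀ (by positivity) hn0]
    nlinarith
  have hb2 : ∀ i, ((r : ℝ) + 1) ^ (ℓ i + 1) / (ℓ i + 1) ≤ ((r : ℝ) + 1) ^ (ℓ i) * β ^ 2 := by
    intro i
    calc ((r : ℝ) + 1) ^ (ℓ i + 1) / (ℓ i + 1) =
        ((r : ℝ) + 1) ^ (ℓ i) * (((r : ℝ) + 1) / (ℓ i + 1)) := by rw [pow_succ]; ring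
      _ ≤ _ := mul_le_mul_of_nonneg_left (hratio i) (by positivity)
  have hb1 : ∀ i, ∑ u, (fa_N (ℓ := ℓ) i u : ℝ) ≤ ((r : ℝ) + 1) ^ (ℓ i) * β := by
    intro i
    have h1 := fa_b1 (ℓ := ℓ) i
    have h2 : (∑ u : Fin (ℓ i) → Fin r, (fa_N i u : ℝ)) ^ 2 ≤
        (((r : ℝ) + 1) ^ (ℓ i) * β) ^ 2 := by
      refine h1.trans ?_
      calc ((r : ℝ) + 1) ^ (ℓ i) * (((r : ℝ) + 1) ^ (ℓ i + 1) / (ℓ i + 1))
          ≤ ((r : ℝ) + 1) ^ (ℓ i) * (((r : ℝ) + 1) ^ (ℓ i) * β ^ 2) :=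
            mul_le_mul_of_nonneg_left (hb2 i) (by positivity)
        _ = _ := by ring
    exact (pow_le_pow_iff_left₀ (Finset.sum_nonneg fun u _ => Nat.cast_nonneg _)
      (by positivity) (by norm_num)).mp h2
  set P : ℝ := ((r : ℝ) + 1) ^ n with hP
  have hP0 : 0 < P := by positivity
  have hprodβ : ∀ m : Fin r, ((r : ℝ) + 1) ^ (ℓ m) * ∏ i ∈ univ.erase m,
      ∑ u, (fa_N (ℓ := ℓ) i u : ℝ) ≤ P * β ^ (r - 1) := by
    intro m
    calc ((r : ℝ) + 1) ^ (ℓ m) * ∏ i ∈ univ.erase m, ∑ u, (fa_N (ℓ := ℓ) i u : ℝ)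
        ≤ ((r : ℝ) + 1) ^ (ℓ m) * ∏ i ∈ univ.erase m, (((r : ℝ) + 1) ^ (ℓ i) * β) := by
          refine mul_le_mul_of_nonneg_left ?_ (by positivity)
          exact Finset.prod_le_prod (fun i _ => Finset.sum_nonneg fun u _ => Nat.cast_nonneg _)
            fun i _ => hb1 i
      _ = (((r : ℝ) + 1) ^ (ℓ m) * ∏ i ∈ univ.erase m, ((r : ℝ) + 1) ^ (ℓ i)) * β ^ (r - 1) := by
          rw [Finset.prod_mul_distrib, Finset.prod_const, Finset.card_erase_of_mem
            (Finset.mem_univ m), Finset.card_univ, Fintype.card_fin]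
          ring
      _ = P * β ^ (r - 1) := by
          rw [Finset.mul_prod_erase univ (fun i => ((r : ℝ) + 1) ^ (ℓ i)) (Finset.mem_univ m),
            Finset.prod_pow_eq_pow_sum, hsum]
  have hβr : β ^ (r - 1) * β = β ^ r := by
    rw [← pow_succ]
    congr 1
    omega
  -- the two counts
  have hB1 : ∀ m : Fin r, ((univ.filter (fun ω : Om ℓ => ∃ A ∈ fa_g m (ω m).1 (ω m).2,
      2 * ((⌊K * √(n : ℝ) / 2⌋₊ : ℕ) : ℤ) + 1 ≤
        |2 * (A.card : ℤ) - (Sp ℓ m (ω m).1).card|)).card : ℝ) ≤ 2 / K * (P * β ^ r) := by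
    intro m
    have h1 := (fa_count1 (ℓ := ℓ) m ⌊K * √(n : ℝ) / 2⌋₊).trans (hprodβ m)
    have h2 := Nat.lt_floor_add_one (K * √(n : ℝ) / 2)
    have h1' : (K * √(n : ℝ) / 2) * ((univ.filter (fun ω : Om ℓ => ∃ A ∈ fa_g m (ω m).1 (ω m).2,
      2 * ((⌊K * √(n : ℝ) / 2⌋₊ : ℕ) : ℤ) + 1 ≤
        |2 * (A.card : ℤ) - (Sp ℓ m (ω m).1).card|)).card : ℝ) ≤ P * β ^ (r - 1) := by
      refine le_trans ?_ h1
      convert mul_le_mul_of_nonneg_right h2.le (Nat.cast_nonneg (α := ℝ) _) using 3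
    set X : ℝ := ((univ.filter (fun ω : Om ℓ => ∃ A ∈ fa_g m (ω m).1 (ω m).2,
      2 * ((⌊K * √(n : ℝ) / 2⌋₊ : ℕ) : ℤ) + 1 ≤
        |2 * (A.card : ℤ) - (Sp ℓ m (ω m).1).card|)).card : ℝ) with hX
    have h3 : P * β ^ (r - 1) ≤ √(n : ℝ) * (P * β ^ r) := by
      rw [← hβr]
      have : 0 ≤ P * β ^ (r - 1) := by positivity
      calc P * β ^ (r - 1) ≤ (P * β ^ (r - 1)) * (√(n : ℝ) * β) :=
            le_mul_of_one_le_right this hβn
        _ = _ := by ring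
    have h4 : √(n : ℝ) * (K / 2 * X) ≤ √(n : ℝ) * (P * β ^ r) := by
      calc √(n : ℝ) * (K / 2 * X) = (K * √(n : ℝ) / 2) * X := by ring
        _ ≤ _ := h1'.trans h3
    have h5 := le_of_mul_le_mul_left h4 hsn
    calc X = 2 / K * (K / 2 * X) := by field_simp
      _ ≤ 2 / K * (P * β ^ r) := mul_le_mul_of_nonneg_left h5 (by positivity)
  have hB2 : ∀ m : Fin r, ((univ.filter (fun ω : Om ℓ =>
      K * √(n : ℝ) ≤ |∑ z : Gd ℓ, fa_h m z ((ω z.1).1 z.2)|)).card : ℝ) ≤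
        1 / K * (P * β ^ r) := by
    intro m
    have h1 := fa_count3 (ℓ := ℓ) m (K * √(n : ℝ)) (by positivity)
    rw [hcard] at h1
    have h1' : (K * √(n : ℝ)) ^ 2 * ((univ.filter (fun ω : Om ℓ =>
      K * √(n : ℝ) ≤ |∑ z : Gd ℓ, fa_h m z ((ω z.1).1 z.2)|)).card : ℝ) ^ 2 ≤
      n * P * ∏ i, (((r : ℝ) + 1) ^ (ℓ i + 1) / (ℓ i + 1)) := by
      convert h1 using 5
    set X : ℝ := ((univ.filter (fun ω : Om ℓ =>
      K * √(n : ℝ) ≤ |∑ z : Gd ℓ, fa_h m z ((ω z.1).1 z.2)|)).card : ℝ) with hX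
    have h2 : ∏ i, (((r : ℝ) + 1) ^ (ℓ i + 1) / (ℓ i + 1)) ≤ P * (β ^ r) ^ 2 := by
      calc ∏ i, (((r : ℝ) + 1) ^ (ℓ i + 1) / (ℓ i + 1))
          ≤ ∏ i, (((r : ℝ) + 1) ^ (ℓ i) * β ^ 2) :=
            Finset.prod_le_prod (fun i _ => by positivity) fun i _ => hb2 i
        _ = P * (β ^ r) ^ 2 := by
            rw [Finset.prod_mul_distrib, Finset.prod_const, Finset.card_univ, Fintype.card_fin,
              Finset.prod_pow_eq_pow_sum, hsum, ← pow_mul, ← pow_mul, mul_comm 2 r]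
    have h3 : (n : ℝ) * (K * X) ^ 2 ≤ n * (P * β ^ r) ^ 2 := by
      calc (n : ℝ) * (K * X) ^ 2 = (K * √(n : ℝ)) ^ 2 * X ^ 2 := by
            rw [mul_pow K (√(n : ℝ)), Real.sq_sqrt hn0.le]; ring
        _ ≤ n * P * ∏ i, (((r : ℝ) + 1) ^ (ℓ i + 1) / (ℓ i + 1)) := h1'
        _ ≤ n * P * (P * (β ^ r) ^ 2) := mul_le_mul_of_nonneg_left h2 (by positivity)
        _ = _ := by ring
    have h4 := le_of_mul_le_mul_left h3 hn0
    have h5 : K * X ≤ P * β ^ r :=
      (pow_le_pow_iff_left₀ (mul_nonneg hK0.le (Nat.cast_nonneg _)) (by positivity)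
        (by norm_num)).mp h4
    calc X = 1 / K * (K * X) := by field_simp
      _ ≤ 1 / K * (P * β ^ r) := mul_le_mul_of_nonneg_left h5 (by positivity)
  -- the union
  have hun : (univ.filter (fun ω : Om ℓ => ∃ m : Fin r,
      (∃ A ∈ fa_g m (ω m).1 (ω m).2, 2 * ((⌊K * √(n : ℝ) / 2⌋₊ : ℕ) : ℤ) + 1 ≤
        |2 * (A.card : ℤ) - (Sp ℓ m (ω m).1).card|) ∨
      K * √(n : ℝ) ≤ |∑ z : Gd ℓ, fa_h m z ((ω z.1).1 z.2)|)) ⊆
      (univ : Finset (Fin r)).biUnion (fun m =>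
        (univ.filter (fun ω : Om ℓ => ∃ A ∈ fa_g m (ω m).1 (ω m).2,
      2 * ((⌊K * √(n : ℝ) / 2⌋₊ : ℕ) : ℤ) + 1 ≤
        |2 * (A.card : ℤ) - (Sp ℓ m (ω m).1).card|)) ∪
        (univ.filter (fun ω : Om ℓ =>
      K * √(n : ℝ) ≤ |∑ z : Gd ℓ, fa_h m z ((ω z.1).1 z.2)|))) := by
    intro ω hω
    obtain ⟨m, hm⟩ := (Finset.mem_filter.1 hω).2
    rw [Finset.mem_biUnion]
    refine ⟨m, Finset.mem_univ _, ?_⟩
    rw [Finset.mem_union, Finset.mem_filter, Finset.mem_filter]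
    rcases hm with hm | hm
    · exact Or.inl ⟨Finset.mem_univ _, hm⟩
    · exact Or.inr ⟨Finset.mem_univ _, hm⟩
  have h1 := (Finset.card_le_card hun).trans Finset.card_biUnion_le
  have h2 : ((univ.filter (fun ω : Om ℓ => ∃ m : Fin r,
      (∃ A ∈ fa_g m (ω m).1 (ω m).2, 2 * ((⌊K * √(n : ℝ) / 2⌋₊ : ℕ) : ℤ) + 1 ≤
        |2 * (A.card : ℤ) - (Sp ℓ m (ω m).1).card|) ∨
      K * √(n : ℝ) ≤ |∑ z : Gd ℓ, fa_h m z ((ω z.1).1 z.2)|)).card : ℝ) ≤
      ∑ m : Fin r, (((univ.filter (fun ω : Om ℓ => ∃ A ∈ fa_g m (ω m).1 (ω m).2,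
      2 * ((⌊K * √(n : ℝ) / 2⌋₊ : ℕ) : ℤ) + 1 ≤
        |2 * (A.card : ℤ) - (Sp ℓ m (ω m).1).card|)) ∪
        (univ.filter (fun ω : Om ℓ =>
      K * √(n : ℝ) ≤ |∑ z : Gd ℓ, fa_h m z ((ω z.1).1 z.2)|))).card : ℝ) := by
    exact_mod_cast h1
  refine h2.trans ?_
  calc _ ≤ ∑ m : Fin r, (3 / K * (P * β ^ r)) := by
        refine Finset.sum_le_sum fun m _ => ?_
        refine (Nat.cast_le.mpr (Finset.card_union_le _ _)).trans ?_
        push_cast
        refine (add_le_add (hB1 m) (hB2 m)).trans (le_of_eq ?_)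
        ring
    _ = _ := by rw [Finset.sum_const, Finset.card_univ, Fintype.card_fin, nsmul_eq_mul]

open scoped Classical in
/-- Block FAR: words of far types (helper70's grids) -/
theorem far_pr (r : ℕ) (hr : 1 ≤ r) (η : ℝ) (hη : 0 < η) : ∃ K : ℝ, 0 < K ∧ ∃ n0 : ℕ, ∀ n ≥ n0,
    ∃ G : Finset (Finset (Finset (Fin n))),
      (∀ C ∈ G, IsChain (· ⊆ ·) (C : Set (Finset (Fin n)))) ∧
      (G.card : ℝ) ≤ η * maxMultinomial n r ∧
      ∀ w : Fin n → Fin (r + 1),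
        (∃ m : Fin r, K * Real.sqrt n ≤ |(cl w m : ℝ) - ((m : ℝ) + 1) * n / (r + 1)|) →
        ∃ C ∈ G, ∀ m : Fin r, univ.filter (fun x => (w x : ℕ) ≤ (m : ℕ)) ∈ C := by
  obtain ⟨c, hc, n0, hmax⟩ := max_lower r hr
  have hr0 : (0 : ℝ) < r := by exact_mod_cast hr
  set Q : ℝ := 3 * r * √((r : ℝ) * (r + 1)) ^ r with hQ
  have hQ0 : 0 < Q := by positivity
  set K : ℝ := max 1 (Q / (c * η)) with hKdef
  have hK1 : 1 ≤ K := le_max_left _ _
  have hK2 : Q / (c * η) ≤ K := le_max_right _ _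
  have hK0 : 0 < K := by linarith
  refine ⟨2 * K, by positivity, max n0 1, fun n hn => ?_⟩
  have hnn0 : n0 ≤ n := (le_max_left _ _).trans hn
  have hn1 : 1 ≤ n := (le_max_right _ _).trans hn
  have hnp : (0 : ℝ) < n := by exact_mod_cast hn1
  have hsn : 0 < √(n : ℝ) := Real.sqrt_pos.mpr hnp
  have hsn1 : 1 ≤ √(n : ℝ) := by
    rw [Real.one_le_sqrt]
    exact_mod_cast hn1
  let ℓ : Fin r → ℕ := fun i => n / r + if (i : ℕ) < n % r then 1 else 0
  have hsum : ∑ i, ℓ i = n := sum_bal n r hr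
  have hℓ : ∀ i, n + 1 ≤ r * (ℓ i + 1) := by
    intro i
    have h6 := Nat.div_add_mod n r
    have h7 := Nat.mod_lt n hr
    have h8 : n / r ≤ ℓ i := Nat.le_add_right _ _
    have h9 : r * (n / r) ≤ r * ℓ i := Nat.mul_le_mul_left _ h8
    rw [mul_add, mul_one]; omega
  have hcard : Fintype.card (Gd ℓ) = n := by
    rw [Fintype.card_sigma]
    simp only [Fintype.card_fin]
    exact hsum
  let e : Gd ℓ ≃ Fin n := Fintype.equivFinOfCardEq hcard
  let Bad : Finset (Om ℓ) := univ.filter (fun ω : Om ℓ => ∃ m : Fin r,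
      (∃ A ∈ fa_g m (ω m).1 (ω m).2, 2 * ((⌊K * √(n : ℝ) / 2⌋₊ : ℕ) : ℤ) + 1 ≤
        |2 * (A.card : ℤ) - (Sp ℓ m (ω m).1).card|) ∨
      K * √(n : ℝ) ≤ |∑ z : Gd ℓ, fa_h m z ((ω z.1).1 z.2)|)
  have hBad : (Bad.card : ℝ) ≤ r * (3 / K * (((r : ℝ) + 1) ^ n *
      √((r : ℝ) * (r + 1) / n) ^ r)) := fa_total hr hn1 ℓ hsum hℓ K hK1
  refine ⟨Bad.image (fun ω => (fa_chn ω).image (Finset.map e.toEmbedding)), ?_, ?_, ?_⟩
  · intro C hC
    obtain ⟨ω, -, rfl⟩ := Finset.mem_image.1 hC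
    intro A hA B hB _
    simp only [Finset.coe_image, Set.mem_image, Finset.mem_coe] at hA hB
    obtain ⟨A', hA', rfl⟩ := hA
    obtain ⟨B', hB', rfl⟩ := hB
    rcases (fa_chn_chain ω).total hA' hB' with h | h
    · left; exact Finset.map_subset_map.2 h
    · right; exact Finset.map_subset_map.2 h
  · have h1 : ((Bad.image (fun ω => (fa_chn ω).image (Finset.map e.toEmbedding))).card : ℝ) ≤
        Bad.card := by exact_mod_cast Finset.card_image_le
    refine h1.trans (hBad.trans ?_)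
    have h2 : √((r : ℝ) * (r + 1) / n) ^ r = √((r : ℝ) * (r + 1)) ^ r / √(n : ℝ) ^ r := by
      rw [Real.sqrt_div (by positivity), div_pow]
    rw [h2]
    have h3 := hmax n hnn0
    have h4 : Q / K ≤ c * η := by
      rw [div_le_iff₀ hK0]
      rw [div_le_iff₀ (by positivity)] at hK2
      linarith
    calc (r : ℝ) * (3 / K * (((r : ℝ) + 1) ^ n * (√((r : ℝ) * (r + 1)) ^ r / √(n : ℝ) ^ r)))
        = (Q / K) * (((r : ℝ) + 1) ^ n / √(n : ℝ) ^ r) := by rw [hQ]; ring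
      _ ≤ (c * η) * (((r : ℝ) + 1) ^ n / √(n : ℝ) ^ r) :=
          mul_le_mul_of_nonneg_right h4 (by positivity)
      _ = η * (c * ((r : ℝ) + 1) ^ n / √(n : ℝ) ^ r) := by ring
      _ ≤ η * maxMultinomial n r := mul_le_mul_of_nonneg_left h3 hη.le
  · rintro w ⟨m, hm⟩
    obtain ⟨ω, hω1, hω2, hω3⟩ := fa_word (fun z => w (e z))
    have hfil : ∀ m : Fin r, univ.filter (fun x => (w x : ℕ) ≤ (m : ℕ)) =
        (univ.filter (fun z => (w (e z) : ℕ) ≤ (m : ℕ))).map e.toEmbedding := by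
      intro m
      ext x
      simp only [Finset.mem_filter, Finset.mem_univ, true_and, Finset.mem_map,
        Equiv.coe_toEmbedding]
      constructor
      · intro h
        exact ⟨e.symm x, by simpa using h, by simp⟩
      · rintro ⟨z, hz, rfl⟩
        exact hz
    have hcl : cl w m = cl (fun z => w (e z)) m := by
      rw [cl, cl, hfil m, Finset.card_map]
    refine ⟨(fa_chn ω).image (Finset.map e.toEmbedding), ?_, ?_⟩
    · refine Finset.mem_image_of_mem _ ?_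
      simp only [Bad, Finset.mem_filter, Finset.mem_univ, true_and]
      refine ⟨m, ?_⟩
      have h1 := fa_type (fun z => w (e z)) m
      rw [hcard, ← hcl] at h1
      rw [h1] at hm
      have hω1m := hω1 m
      have h2 := hm.trans (abs_add_le _ _)
      have hsumeq : ∑ z : Gd ℓ, fa_h m z ((ω z.1).1 z.2) =
          ∑ z, fa_h m z (fa_v (fun z => w (e z)) z) := by
        refine Finset.sum_congr rfl fun z _ => ?_
        rw [hω1 z.1]
      by_cases h3 : K * √(n : ℝ) ≤ |∑ z, fa_h m z (fa_v (fun z => w (e z)) z)|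
      · right
        rw [hsumeq]
        exact h3
      · left
        refine ⟨_, hω2 m, ?_⟩
        push Not at h3
        rw [hω1m]
        set d : ℕ := (fa_d (fun z => w (e z)) m).card with hd
        set s : ℕ := (Sp ℓ m (fun x => fa_v (fun z => w (e z)) ⟨m, x⟩)).card with hs
        have h4 : K * √(n : ℝ) ≤ |(d : ℝ) - (s : ℝ) / 2| := by linarith
        have h5 : 2 * (K * √(n : ℝ)) ≤ |2 * (d : ℝ) - (s : ℝ)| := by
          have : 2 * (d : ℝ) - (s : ℝ) = 2 * ((d : ℝ) - (s : ℝ) / 2) := by ring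
          rw [this, abs_mul, abs_two]
          linarith
        have h6 : ((⌊K * √(n : ℝ) / 2⌋₊ : ℕ) : ℝ) ≤ K * √(n : ℝ) / 2 :=
          Nat.floor_le (by positivity)
        have h7 : 1 ≤ K * √(n : ℝ) := by nlinarith
        have h8 : 2 * ((⌊K * √(n : ℝ) / 2⌋₊ : ℕ) : ℝ) + 1 ≤ |2 * (d : ℝ) - (s : ℝ)| := by
          linarith
        have h9 : ((2 * ((⌊K * √(n : ℝ) / 2⌋₊ : ℕ) : ℤ) + 1 : ℤ) : ℝ) ≤
            ((|2 * (d : ℤ) - (s : ℤ)| : ℤ) : ℝ) := by
          push_cast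
          exact h8
        exact_mod_cast h9
    · intro m'
      rw [hfil m']
      exact Finset.mem_image_of_mem _ (hω3 m')

end Pool.Agent.Lib_helper46.CC

namespace Pool.Agent.Lib_helper46.CC

alias far := far_pr

end Pool.Agent.Lib_helper46.CC
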