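import Mathlib
import Pool.Agent.Lib_helper46.CCF.CVC
import Pool.Agent.Lib_helper46.CCF.REP

/-! Block UCV, written by helper29. -/

/-!
# Block UCV (helper29): a unit is covered by one chain
-/

set_option autoImplicit false

namespace Pool.Agent.Lib_helper46.CC

open Finset Pool.Agent.Lib_helper70.Chains
open scoped Classical

section

variable {r y z R t k h D D2 : ℕ} {δ B : ℝ}

theorem ucv_lt (Fn : LF r z R t) (w : Word r y z R t) (S S' : Fin r → Finset (Fin t))
    {m m' : Fin r} (hm : m < m') : low (modw Fn w S) m ⊆ low (modw Fn w S') m' := by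
  intro x hx
  have hmn : (m : ℕ) < (m' : ℕ) := hm
  unfold low at hx ⊢
  rw [mem_filter] at hx ⊢
  refine ⟨mem_univ _, ?_⟩
  rcases x with x | ⟨b, x⟩ | ⟨p, x⟩
  · have := hx.2
    change ((w.1 x : ℕ)) ≤ _ at this
    change ((w.1 x : ℕ)) ≤ _
    omega
  · have := hx.2
    change ((w.2.1 b x : ℕ)) ≤ _ at this
    change ((w.2.1 b x : ℕ)) ≤ _
    omega
  · have h2 := hx.2
    rw [cvc_wv] at h2 ⊢
    exact cvc_lt _ _ _ hm _ h2

theorem ucv_eq (Fn : LF r z R t) (w : Word r y z R t) (S S' : Fin r → Finset (Fin t))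
    (m : Fin r) (hS : S m ⊆ S' m) : low (modw Fn w S) m ⊆ low (modw Fn w S') m := by
  intro x hx
  unfold low at hx ⊢
  rw [mem_filter] at hx ⊢
  refine ⟨mem_univ _, ?_⟩
  rcases x with x | ⟨b, x⟩ | ⟨p, x⟩
  · exact hx.2
  · exact hx.2
  · have h2 := hx.2
    rw [cvc_wv] at h2 ⊢
    refine cvc_le _ _ _ m ?_ _ h2
    intro x' _ hx'
    by_cases hc : (cur Fn w m).1 = p
    · rw [if_pos hc] at hx' ⊢
      exact hS hx'
    · rw [if_neg hc] at hx' ⊢
      exact hx'

/-- Block UCV: a unit is covered by one chain -/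
theorem unit_cover_pr (κ : Ker r k t h D D2 δ B) (f0 : Fin r → ℕ) (Fn : LF r z R t)
    (i : Fin r → Fin k) (ht : 0 < t) (w : Word r y z R t) (hw : InC f0 h i w)
    (hok : OkW f0 h Fn i w) :
    ∃ C : Finset (Finset (Gr r y z R t)), IsChain (· ⊆ ·) (C : Set (Finset (Gr r y z R t))) ∧
      ∀ S, Val f0 h Fn i w S →
        (∀ m, κ.st (TT Fn w m) (al f0 h Fn i w m) (S m) =
          κ.st (TT Fn w m) (al f0 h Fn i w m) (SS Fn w m)) →
        ∀ m, low (modw Fn w S) m ∈ C := by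
  refine ⟨univ.filter (fun X => ∃ (S : Fin r → Finset (Fin t)) (m : Fin r),
    Val f0 h Fn i w S ∧ (∀ m, κ.st (TT Fn w m) (al f0 h Fn i w m) (S m) =
          κ.st (TT Fn w m) (al f0 h Fn i w m) (SS Fn w m)) ∧ low (modw Fn w S) m = X), ?_, ?_⟩
  · intro a ha b hb _
    rw [mem_coe, mem_filter] at ha hb
    obtain ⟨-, S, m, hS, hst, rfl⟩ := ha
    obtain ⟨-, S', m', hS', hst', rfl⟩ := hb
    rcases lt_trichotomy m m' with hm | rfl | hm
    · exact Or.inl (ucv_lt Fn w S S' hm)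
    · have hsys := κ.isSys _ _ (hok m)
      obtain ⟨h1, h2, h3⟩ := hS m
      obtain ⟨h1', h2', h3'⟩ := hS' m
      rcases le_total (S m).card (S' m).card with hle | hle
      · exact Or.inl (ucv_eq Fn w S S' m
          (hsys.mono _ _ h1 h1' h2 hle h3' ((hst m).trans (hst' m).symm)))
      · exact Or.inr (ucv_eq Fn w S' S m
          (hsys.mono _ _ h1' h1 h2' hle h3 ((hst' m).trans (hst m).symm)))
    · exact Or.inr (ucv_lt Fn w S' S hm)
  · intro S hS hst m
    exact mem_filter.2 ⟨mem_univ _, S, m, hS, hst, rfl⟩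

end

end Pool.Agent.Lib_helper46.CC

namespace Pool.Agent.Lib_helper46.CC

alias unit_cover := unit_cover_pr

end Pool.Agent.Lib_helper46.CC
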