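import Mathlib
import Pool.Agent.Lib_helper46.CCF.WBase
import Pool.Agent.Lib_helper46.CCF.MMX
import Pool.Agent.Lib_helper46.CCF.UCV
import Pool.Agent.Lib_helper46.CCF.CVC
import Pool.Agent.Lib_helper46.CCF.CVE
import Pool.Agent.Lib_helper46.CCF.CLA
import Pool.Agent.Lib_helper46.CCF.INV
import Pool.Agent.Lib_helper46.CCF.REP
import Pool.Agent.Lib_helper46.CCF.BRI

set_option autoImplicit false

namespace Pool.Agent.Lib_helper46.CC

open Finset Pool.Agent.Lib_helper70.Chains
open scoped Classical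

section

variable {r y z R t k h D D2 : ℕ} {δ B : ℝ}

/-- the vertices of the nibble -/
noncomputable def fV (κ : Ker r k t h D D2 δ B) (A η : ℝ) (f0 : Fin r → ℕ) (Fn : LF r z R t) :
    Finset ((Fin r → Fin k) × Word r y z R t) :=
  univ.filter (fun v => InC f0 h v.1 v.2 ∧ OkW f0 h Fn v.1 v.2 ∧ Rp κ f0 Fn v.1 v.2 ∧
    Good κ A η f0 Fn v.1 v.2)

/-- the units of an edge -/
noncomputable def fI (κ : Ker r k t h D D2 δ B) (A η : ℝ) (f0 : Fin r → ℕ) (Fn : LF r z R t)
    (e : Edge r y z R t k h) : Finset ((Fin r → Fin k) × Word r y z R t) :=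
  (fV κ A η f0 Fn).filter (fun v => wt κ A f0 Fn e ≠ 0 ∧ FreE Fn e v.1 ∧ uw Fn e v.1 = v.2)

theorem fI_card (κ : Ker r k t h D D2 δ B) (A η : ℝ) (f0 : Fin r → ℕ) (Fn : LF r z R t)
    (e : Edge r y z R t k h) : (fI κ A η f0 Fn e).card ≤ k ^ r := by
  have h1 : (fI κ A η f0 Fn e).card ≤ (univ : Finset (Fin r → Fin k)).card := by
    apply card_le_card_of_injOn (fun v => v.1)
    · intro v _
      exact mem_univ _
    · intro v hv v' hv' hvv
      simp only [fI, coe_filter, Set.mem_setOf_eq] at hv hv'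
      have h2 := hv.2.2.2
      have h3 := hv'.2.2.2
      simp only at hvv
      apply Prod.ext hvv
      rw [← h2, ← h3, hvv]
  simpa using h1

theorem fI_sum (κ : Ker r k t h D D2 δ B) (A η : ℝ) (f0 : Fin r → ℕ) (Fn : LF r z R t)
    (v : (Fin r → Fin k) × Word r y z R t) (hv : v ∈ fV κ A η f0 Fn) (θ : ℝ) :
    ∑ e ∈ univ.filter (fun e : Edge r y z R t k h => v ∈ fI κ A η f0 Fn e), wt κ A f0 Fn e / θ =
      (∑ e : Edge r y z R t k h, if FreE Fn e v.1 ∧ uw Fn e v.1 = v.2 then wt κ A f0 Fn e else 0)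
        / θ := by
  rw [sum_filter, sum_div]
  apply sum_congr rfl
  intro e _
  by_cases h0 : wt κ A f0 Fn e = 0
  · simp [h0]
  · by_cases h1 : FreE Fn e v.1 ∧ uw Fn e v.1 = v.2
    · have : v ∈ fI κ A η f0 Fn e := by
        simp only [fI, mem_filter]
        exact ⟨hv, h0, h1.1, h1.2⟩
      rw [if_pos this, if_pos h1]
    · have : v ∉ fI κ A η f0 Fn e := by
        simp only [fI, mem_filter]
        rintro ⟨_, _, h3⟩
        exact h1 h3
      rw [if_neg this, if_neg h1]
      simp

end

/-- the chain of a single word -/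
theorem word_chain {r y z R t : ℕ} (w : Word r y z R t) :
    IsChain (· ⊆ ·) ((univ.image (fun m => low w m) : Finset (Finset (Gr r y z R t))) :
      Set (Finset (Gr r y z R t))) := by
  intro S hS S' hS' _
  simp only [coe_image, coe_univ, Set.image_univ, Set.mem_range] at hS hS'
  obtain ⟨m, rfl⟩ := hS
  obtain ⟨m', rfl⟩ := hS'
  rcases le_total m m' with h | h
  · left
    intro x hx
    simp only [low, mem_filter, mem_univ, true_and] at hx ⊢
    exact hx.trans h
  · right
    intro x hx
    simp only [low, mem_filter, mem_univ, true_and] at hx ⊢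
    exact hx.trans h

theorem card_Gr (r y z R t : ℕ) : Fintype.card (Gr r y z R t) = y + r * z + R * ((r + 1) * t) := by
  simp [Gr, Pos]
  ring

/-- number of words of a given type -/
theorem card_typ (r : ℕ) (hr : 1 ≤ r) (y z R t n : ℕ) (hn : n = y + r * z + R * ((r + 1) * t))
    (hn1 : r + 1 ≤ n) (f : Fin r → ℕ) :
    (univ.filter (fun w : Word r y z R t => ∀ m, typ w m = f m)).card ≤ maxMultinomial n r := by
  have h1 := nc_le_max r hr (Gr r y z R t) (fun m => (f m : ℤ)) (by rw [card_Gr, ← hn]; exact hn1)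
  rw [card_Gr, ← hn] at h1
  refine le_trans ?_ h1
  unfold NC
  apply card_le_card_of_injOn (fun w => wv w)
  · intro w hw
    simp only [coe_filter, mem_univ, true_and, Set.mem_setOf_eq] at hw ⊢
    intro m
    rw [← typ_eq, hw m]
  · intro w _ w' _ hww
    have h2 : ∀ x, wv w x = wv w' x := fun x => congrFun hww x
    refine Prod.ext ?_ (Prod.ext ?_ ?_)
    · funext a
      exact h2 (Sum.inl a)
    · funext a b
      exact h2 (Sum.inr (Sum.inl (a, b)))
    · funext a b
      exact h2 (Sum.inr (Sum.inr (a, b)))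

/-- the combinatorial part: the cover built from all the pieces -/
theorem assemble {r y z R t k h D D2 : ℕ} {δ B : ℝ} (κ : Ker r k t h D D2 δ B) (A η : ℝ)
    (f0 : Fin r → ℕ) (Fn : LF r z R t) (ht : 0 < t) (n : ℕ)
    (hn : n = y + r * z + R * ((r + 1) * t)) (Far : Word r y z R t → Prop)
    (G : Finset (Finset (Finset (Gr r y z R t))))
    (hG1 : ∀ C ∈ G, IsChain (· ⊆ ·) (C : Set (Finset (Gr r y z R t))))
    (hG2 : ∀ w, Far w → ∃ C ∈ G, ∀ m, low w m ∈ C)
    (hcell : ∀ w : Word r y z R t, ¬ Far w → ∃ i : Fin r → Fin k, InC f0 h i w)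
    (F : Finset (Edge r y z R t k h)) :
    coverNumber n r ≤ G.card +
      (univ.filter (fun w : Word r y z R t => ∃ i : Fin r → Fin k,
          InC f0 h i w ∧ ¬ OkW f0 h Fn i w)).card +
      (∑ i : Fin r → Fin k, (univ.filter (fun w : Word r y z R t => InC f0 h i w ∧
          OkW f0 h Fn i w ∧ Rp κ f0 Fn i w ∧ ¬ Good κ A η f0 Fn i w)).card) +
      (F.card + ((fV κ A η f0 Fn).filter (fun v => ∀ e ∈ F, v ∉ fI κ A η f0 Fn e)).card) := by
  -- chains of units
  have hU : ∀ v : (Fin r → Fin k) × Word r y z R t, ∃ C : Finset (Finset (Gr r y z R t)),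
      IsChain (· ⊆ ·) (C : Set (Finset (Gr r y z R t))) ∧
      (InC f0 h v.1 v.2 → OkW f0 h Fn v.1 v.2 → ∀ S, Val f0 h Fn v.1 v.2 S →
        (∀ m, κ.st (TT Fn v.2 m) (al f0 h Fn v.1 v.2 m) (S m) =
          κ.st (TT Fn v.2 m) (al f0 h Fn v.1 v.2 m) (SS Fn v.2 m)) →
        ∀ m, low (modw Fn v.2 S) m ∈ C) := by
    intro v
    by_cases h1 : InC f0 h v.1 v.2
    · by_cases h2 : OkW f0 h Fn v.1 v.2
      · obtain ⟨C, hC1, hC2⟩ := unit_cover κ f0 Fn v.1 ht v.2 h1 h2
        exact ⟨C, hC1, fun _ _ => hC2⟩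
      · exact ⟨∅, by simp, fun _ h3 => absurd h3 h2⟩
    · exact ⟨∅, by simp, fun h3 => absurd h3 h1⟩
  choose UC hUC1 hUC2 using hU
  set WB := univ.filter (fun w : Word r y z R t => ∃ i : Fin r → Fin k,
          InC f0 h i w ∧ ¬ OkW f0 h Fn i w) with hWB
  set UB := (univ : Finset (Fin r → Fin k)).sigma (fun i => univ.filter (fun w : Word r y z R t =>
      InC f0 h i w ∧ OkW f0 h Fn i w ∧ Rp κ f0 Fn i w ∧ ¬ Good κ A η f0 Fn i w)) with hUB
  set VU := (fV κ A η f0 Fn).filter (fun v => ∀ e ∈ F, v ∉ fI κ A η f0 Fn e) with hVU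
  set F' := F.filter (fun e => wt κ A f0 Fn e ≠ 0) with hF'
  let Fam : Finset (Finset (Finset (Gr r y z R t))) :=
    G ∪ WB.image (fun w => univ.image (fun m => low w m)) ∪
      UB.image (fun s => UC (s.1, s.2)) ∪ (F'.image (fun e => chn Fn e) ∪ VU.image UC)
  have hFam1 : ∀ C ∈ Fam, IsChain (· ⊆ ·) (C : Set (Finset (Gr r y z R t))) := by
    intro C hC
    simp only [Fam, mem_union, mem_image] at hC
    rcases hC with ((hC | ⟨w, _, rfl⟩) | ⟨s, _, rfl⟩) | (⟨e, he, rfl⟩ | ⟨v, _, rfl⟩)
    · exact hG1 C hC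
    · exact word_chain w
    · exact hUC1 _
    · rw [hF', mem_filter] at he
      exact chn_chain κ A f0 Fn e he.2
    · exact hUC1 _
  have hFam2 : ∀ w : Word r y z R t, ∃ C ∈ Fam, ∀ m, low w m ∈ C := by
    intro w
    by_cases hfar : Far w
    · obtain ⟨C, hC, hC2⟩ := hG2 w hfar
      exact ⟨C, by simp only [Fam, mem_union]; tauto, hC2⟩
    obtain ⟨i, hi⟩ := hcell w hfar
    by_cases hok : OkW f0 h Fn i w
    swap
    · refine ⟨univ.image (fun m => low w m), ?_, fun m => mem_image_of_mem _ (mem_univ _)⟩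
      have : w ∈ WB := by
        rw [hWB, mem_filter]
        exact ⟨mem_univ _, i, hi, hok⟩
      have h2 := mem_image_of_mem (fun w => (univ.image (fun m => low w m) :
        Finset (Finset (Gr r y z R t)))) this
      simp only [Fam, mem_union]
      tauto
    -- the representative of the unit of w
    have hsys := fun m => κ.isSys (TT Fn w m) (al f0 h Fn i w m) (hok m)
    have hV0 := (val_inv f0 Fn i w ht hi hok (SS Fn w) (by
      -- Val (SS w)
      intro m
      have h1 := hok m
      have hsub : SS Fn w m ⊆ TT Fn w m := sr_sub _ _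
      have h2 := hi m
      have h3 : 1 ≤ (TT Fn w m).card := by
        have := h1.1
        by_contra h4
        have h5 : (TT Fn w m).card = 0 := by omega
        rw [h5] at this
        omega
      have h4 : 1 ≤ al f0 h Fn i w m := by
        have := h1.2.1
        omega
      refine ⟨hsub, ?_, ?_⟩
      · unfold al at h4 ⊢
        omega
      · unfold al at h4 ⊢
        omega)).2.2.2
    set S0 : Fin r → Finset (Fin t) := fun m => κ.st (TT Fn w m) (al f0 h Fn i w m) (SS Fn w m)
      with hS0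
    have hS0At : ∀ m, S0 m ∈ κ.At (TT Fn w m) (al f0 h Fn i w m) := fun m =>
      (hsys m).st_mem _ (hV0 m).1 (hV0 m).2.1 (hV0 m).2.2
    have hS0V : Val f0 h Fn i w S0 := fun m => by
      have := (hsys m).At_sub _ (hS0At m)
      exact ⟨this.1, this.2.1, this.2.2.1⟩
    obtain ⟨hc1, hc2, hc3, _⟩ := val_inv f0 Fn i w ht hi hok S0 hS0V
    set w0 := modw Fn w S0 with hw0
    have hTT : ∀ m, TT Fn w0 m = TT Fn w m := fun m => tt_mod Fn w S0 m
    have hSS : ∀ m, SS Fn w0 m = S0 m := fun m => ss_mod Fn w S0 (fun m => (hS0V m).1) m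
    have hrp : Rp κ f0 Fn i w0 := by
      intro m
      rw [hSS, hTT, hc2]
      exact hS0At m
    have hback : modw Fn w0 (SS Fn w) = w := by
      rw [hw0, mod_mod, mod_ss]
    have hVal : Val f0 h Fn i w0 (SS Fn w) := by
      intro m
      rw [hTT, hc2]
      exact hV0 m
    have hst : ∀ m, κ.st (TT Fn w0 m) (al f0 h Fn i w0 m) (SS Fn w m) = SS Fn w0 m := by
      intro m
      rw [hTT, hc2, hSS]
    have hst2 : ∀ m, κ.st (TT Fn w0 m) (al f0 h Fn i w0 m) (SS Fn w m) =
        κ.st (TT Fn w0 m) (al f0 h Fn i w0 m) (SS Fn w0 m) := by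
      intro m
      rw [hst m]
      rw [hTT, hc2, hSS]
      exact ((hsys m).At_sub _ (hS0At m)).2.2.2.symm
    by_cases hgood : Good κ A η f0 Fn i w0
    · have hv : ((i, w0) : (Fin r → Fin k) × Word r y z R t) ∈ fV κ A η f0 Fn := by
        simp only [fV, mem_filter, mem_univ, true_and]
        exact ⟨hc1, hc3, hrp, hgood⟩
      by_cases hcov : ∀ e ∈ F, (i, w0) ∉ fI κ A η f0 Fn e
      · refine ⟨UC (i, w0), ?_, fun m => ?_⟩
        · have : ((i, w0) : (Fin r → Fin k) × Word r y z R t) ∈ VU := by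
            rw [hVU, mem_filter]
            exact ⟨hv, hcov⟩
          have h2 := mem_image_of_mem UC this
          simp only [Fam, mem_union]
          tauto
        · have := hUC2 (i, w0) hc1 hc3 (SS Fn w) hVal hst2 m
          simp only at this
          rwa [hback] at this
      · push_neg at hcov
        obtain ⟨e, he, he2⟩ := hcov
        simp only [fI, mem_filter] at he2
        obtain ⟨_, he3, he4, he5⟩ := he2
        refine ⟨chn Fn e, ?_, fun m => ?_⟩
        · have : e ∈ F' := by
            rw [hF', mem_filter]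
            exact ⟨he, he3⟩
          have h2 := mem_image_of_mem (fun e => chn Fn e) this
          simp only [Fam, mem_union]
          tauto
        · have := chn_cover κ A f0 Fn e he3 i he4 ht w0 he5 hc1 hc3 hrp (SS Fn w) hVal hst m
          rwa [hback] at this
    · refine ⟨UC (i, w0), ?_, fun m => ?_⟩
      · have : (⟨i, w0⟩ : Σ _ : Fin r → Fin k, Word r y z R t) ∈ UB := by
          rw [hUB, mem_sigma]
          refine ⟨mem_univ _, ?_⟩
          rw [mem_filter]
          exact ⟨mem_univ _, hc1, hc3, hrp, hgood⟩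
        have h2 := mem_image_of_mem (fun s : Σ _ : Fin r → Fin k, Word r y z R t =>
          UC (s.1, s.2)) this
        simp only [Fam, mem_union]
        tauto
      · have := hUC2 (i, w0) hc1 hc3 (SS Fn w) hVal hst2 m
        simp only at this
        rwa [hback] at this
  have hmain := bridge (G := Gr r y z R t) r Fam hFam1 (by
    intro w
    let w' : Word r y z R t := (fun a => w (Sum.inl a), fun a b => w (Sum.inr (Sum.inl (a, b))),
      fun a b => w (Sum.inr (Sum.inr (a, b))))
    obtain ⟨C, hC, hC2⟩ := hFam2 w'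
    refine ⟨C, hC, fun m => ?_⟩
    have hw : wv w' = w := by
      funext x
      rcases x with a | b | c
      · rfl
      · rfl
      · rfl
    have := hC2 m
    unfold low at this
    rwa [hw] at this)
  rw [card_Gr, ← hn] at hmain
  refine hmain.trans ?_
  have hUBc : UB.card = ∑ i : Fin r → Fin k, (univ.filter (fun w : Word r y z R t =>
      InC f0 h i w ∧ OkW f0 h Fn i w ∧ Rp κ f0 Fn i w ∧ ¬ Good κ A η f0 Fn i w)).card := by
    rw [hUB, card_sigma]
  calc Fam.card ≤ G.card + WB.card + UB.card + (F.card + VU.card) := by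
        refine (card_union_le _ _).trans (Nat.add_le_add ((card_union_le _ _).trans
          (Nat.add_le_add ((card_union_le _ _).trans (Nat.add_le_add le_rfl card_image_le))
            card_image_le)) ((card_union_le _ _).trans (Nat.add_le_add (card_image_le.trans
              (card_filter_le _ _)) card_image_le)))
    _ = _ := by rw [hUBc]

end Pool.Agent.Lib_helper46.CC
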