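import Mathlib
import Pool.Agent.Lib_helper46.CCF.WBase
import Pool.Agent.Lib_helper46.CCF.REP
import Pool.Agent.Lib_helper46.CCF.MSP
import Pool.Agent.Lib_helper46.CCF.KEP

/-! Block GLO, written by helper28. -/

/-!
# CC, block GLO: total weight of all edges
-/

set_option autoImplicit false

namespace Pool.Agent.Lib_helper46.CC

open Finset Pool.Agent.Lib_helper70.Chains
open scoped Classical

section EDGES

variable {r y z R t k h D D2 : ℕ} {δ B : ℝ}

theorem glo_fiber {A X : Type} [Fintype A] [Fintype X] {R : ℕ}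
    (g : (Fin R → A) → ℝ) (W : Fin R → A × X → ℝ) :
    ∑ d : Fin R → A × X, g (fun p => (d p).1) * ∏ p, W p (d p) =
      ∑ b : Fin R → A, g b * ∏ p, ∑ x : A × X, if x.1 = b p then W p x else 0 := by
  have h1 : ∀ b : Fin R → A, ∏ p, ∑ x : A × X, (if x.1 = b p then W p x else 0) =
      ∑ d : Fin R → A × X, if ∀ p, (d p).1 = b p then ∏ p, W p (d p) else 0 := by
    intro b
    rw [Finset.prod_univ_sum, Fintype.piFinset_univ]
    apply Finset.sum_congr rfl
    intro d _
    rw [Finset.prod_ite_zero]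
    simp
  simp_rw [h1, Finset.mul_sum]
  rw [Finset.sum_comm]
  apply Finset.sum_congr rfl
  intro d _
  rw [Finset.sum_eq_single (fun p => (d p).1)]
  · simp
  · intro b _ hb
    rw [if_neg, mul_zero]
    intro hcon
    apply hb
    funext p
    exact (hcon p).symm
  · intro hcon
    exact absurd (Finset.mem_univ _) hcon

theorem glo_start (κ : Ker r k t h D D2 δ B) (f : Fin r → Fin k → Fin R) (p : Fin R)
    (β : PW r t) :
    (∑ d : PW r t × (Fin r → Finset (Fin t) × (Fin (k * (2 * h) + 1) → Finset (Fin t))),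
      if d.1 = β then wp κ f p d else 0) = Wid κ (hib f p) (usz f p) (fun _ => 0) β := by
  rw [← key_frozen κ f p (fun _ => 0) β]
  apply Finset.sum_congr rfl
  intro d _
  by_cases h0 : wp κ f p d = 0
  · rw [h0]
    simp
  · have h1 : ∀ m, pv (d.2 m).2 0 = Sr d.1 m := by
      intro m
      by_contra hcon
      apply h0
      unfold wp
      apply Finset.prod_eq_zero (Finset.mem_univ m)
      rw [if_neg hcon]
    have h2 : rep d.1 (fun m => pv (d.2 m).2 (0 * (2 * h))) = d.1 := by
      have h3 : (fun m => pv (d.2 m).2 (0 * (2 * h))) = Sr d.1 := by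
        funext m
        rw [zero_mul]
        exact h1 m
      rw [h3]
      exact rep_sr d.1
    show (if d.1 = β then wp κ f p d else 0) =
      if rep d.1 (fun m => pv (d.2 m).2 ((fun _ => 0) m * (2 * h))) = β then wp κ f p d else 0
    have h4 : rep d.1 (fun m => pv (d.2 m).2 ((fun _ => 0) m * (2 * h))) = d.1 := h2
    rw [h4]

theorem glo_wz_nonneg (A : ℝ) (m : Fin r) (H : Fin k → ZW r z) : 0 ≤ wz A m H := by
  unfold wz
  split_ifs
  · positivity
  · exact le_rfl

theorem glo_hist (A : ℝ) (hk : 0 < k) (C : ℝ)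
    (hC : ∀ (m : Fin r) (u : ZW r z),
      (∑ H : Fin k → ZW r z, if H ⟨0, hk⟩ = u then wz A m H else 0) ≤ C)
    (u : Fin r → ZW r z) :
    (∑ H : Fin r → Fin k → ZW r z, if ∀ m, H m ⟨0, hk⟩ = u m then ∏ m, wz A m (H m) else 0) ≤
      C ^ r := by
  have h1 : (∑ H : Fin r → Fin k → ZW r z, if ∀ m, H m ⟨0, hk⟩ = u m then
      ∏ m, wz A m (H m) else 0) =
      ∏ m, ∑ H : Fin k → ZW r z, if H ⟨0, hk⟩ = u m then wz A m H else 0 := by
    rw [Finset.prod_univ_sum, Fintype.piFinset_univ]
    apply Finset.sum_congr rfl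
    intro H _
    rw [Finset.prod_ite_zero]
    simp
  rw [h1]
  have h2 : ∏ m : Fin r, ∑ H : Fin k → ZW r z, (if H ⟨0, hk⟩ = u m then wz A m H else 0) ≤
      ∏ _m : Fin r, C := by
    apply Finset.prod_le_prod
    · intro m _
      apply Finset.sum_nonneg
      intro H _
      split_ifs
      · exact glo_wz_nonneg A m H
      · exact le_rfl
    · intro m _
      exact hC m (u m)
  refine h2.trans (le_of_eq ?_)
  rw [Finset.prod_const, Finset.card_univ, Fintype.card_fin]

/-- Block GLO: total weight of all edges -/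
theorem glob_pr (κ : Ker r k t h D D2 δ B) (A : ℝ) (hk : 0 < k) (f0 : Fin r → ℕ)
    (Fn : LF r z R t)
    (C : ℝ) (hC : ∀ m u, (∑ H : Fin k → ZW r z, if H ⟨0, hk⟩ = u then wz A m H else 0) ≤ C) :
    (∑ e : Edge r y z R t k h, wt κ A f0 Fn e) ≤
      C ^ r * ((univ.filter (fun w : Word r y z R t => ∀ m, typ w m = f0 m + k * h)).card : ℝ) := by
  set P : (Fin y → Fin (r + 1)) → (Fin r → ZW r z) → ℝ := fun v u =>
    ∑ b : Fin R → PW r t, if ∀ m : Fin r, cl v m + ∑ m', cl (u m') m + ∑ p, cl (b p) m =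
      f0 m + k * h then 1 else 0 with hP
  have hP0 : ∀ v u, 0 ≤ P v u := by
    intro v u
    apply Finset.sum_nonneg
    intro b _
    split_ifs <;> norm_num
  -- one start word and one family of histories
  have h1 : ∀ (v : Fin y → Fin (r + 1)) (H : Fin r → Fin k → ZW r z),
      (∑ d : Fin R → PW r t × (Fin r → Finset (Fin t) × (Fin (k * (2 * h) + 1) →
        Finset (Fin t))), wt κ A f0 Fn (v, H, d)) ≤
      (∏ m, wz A m (H m)) * P v (fun m => H m ⟨0, hk⟩) := by
    intro v H
    set f : Fin r → Fin k → Fin R := fun m j => (Fn m (H m j)).1 with hf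
    set g : (Fin R → PW r t) → ℝ := fun b => if ∀ m : Fin r,
      cl v m + ∑ m', cl (H m' ⟨0, hk⟩) m + ∑ p, cl (b p) m = f0 m then 1 else 0 with hg
    have h2 : ∀ d : Fin R → PW r t × (Fin r → Finset (Fin t) × (Fin (k * (2 * h) + 1) →
        Finset (Fin t))), wt κ A f0 Fn (v, H, d) =
        (∏ m, wz A m (H m)) * (g (fun p => (d p).1) * ∏ p, wp κ f p (d p)) := by
      intro d
      have h3 : ∀ m, st0 ((v, H, d) : Edge r y z R t k h) m =
          cl v m + ∑ m', cl (H m' ⟨0, hk⟩) m + ∑ p, cl (d p).1 m := by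
        intro m
        show cl v m + ∑ m', (if hk : 0 < k then cl (H m' ⟨0, hk⟩) m else 0) +
          ∑ p, cl (d p).1 m = _
        have h31 : ∀ m' : Fin r, (if hk : 0 < k then cl (H m' ⟨0, hk⟩) m else 0) =
            cl (H m' ⟨0, hk⟩) m := fun m' => dif_pos hk
        rw [Finset.sum_congr rfl fun m' _ => h31 m']
      have h3' : (∀ m, st0 ((v, H, d) : Edge r y z R t k h) m = f0 m) ↔ ∀ m : Fin r,
          cl v m + ∑ m', cl (H m' ⟨0, hk⟩) m + ∑ p, cl (d p).1 m = f0 m :=
        forall_congr' fun m => by rw [h3]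
      show (if ∀ m, st0 ((v, H, d) : Edge r y z R t k h) m = f0 m then
        (∏ m, wz A m (H m)) * ∏ p, wp κ f p (d p) else 0) =
        (∏ m, wz A m (H m)) * ((if ∀ m : Fin r,
          cl v m + ∑ m', cl (H m' ⟨0, hk⟩) m + ∑ p, cl (d p).1 m = f0 m then 1 else 0) *
            ∏ p, wp κ f p (d p))
      rw [if_congr h3' rfl rfl]
      split_ifs <;> ring
    rw [Finset.sum_congr rfl fun d _ => h2 d, ← Finset.mul_sum]
    apply mul_le_mul_of_nonneg_left _ (Finset.prod_nonneg fun m _ => glo_wz_nonneg A m (H m))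
    rw [glo_fiber g (fun p => wp κ f p)]
    have h41 : ∀ b : Fin R → PW r t, (∏ p, ∑ x : PW r t × (Fin r → Finset (Fin t) ×
        (Fin (k * (2 * h) + 1) → Finset (Fin t))), if x.1 = b p then wp κ f p x else 0) =
        ∏ p, Wid κ (hib f p) (usz f p) (fun _ => 0) (b p) := by
      intro b
      apply Finset.prod_congr rfl
      intro p _
      rw [← glo_start κ f p (b p)]
    have h42 : (∑ b : Fin R → PW r t, g b * ∏ p, ∑ x : PW r t × (Fin r → Finset (Fin t) ×
        (Fin (k * (2 * h) + 1) → Finset (Fin t))), if x.1 = b p then wp κ f p x else 0) =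
        ∑ b : Fin R → PW r t, g b * ∏ p, Wid κ (hib f p) (usz f p) (fun _ => 0) (b p) :=
      Finset.sum_congr rfl fun b _ => by rw [h41 b]
    refine le_trans (le_of_eq ?_) (le_trans (le_of_eq h42) ?_)
    · apply Finset.sum_congr rfl
      intro b _
      congr 1
      apply Finset.prod_congr rfl
      intro p _
      apply Finset.sum_congr rfl
      intro x _
      congr 1
    have h4 := mass_parts κ f (fun G : Fin r → ℤ => if ∀ m : Fin r,
      (cl v m : ℤ) + ∑ m', (cl (H m' ⟨0, hk⟩) m : ℤ) + G m = f0 m then (1 : ℝ) else 0) (by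
        intro G
        show (0 : ℝ) ≤ if _ then (1 : ℝ) else 0
        split_ifs <;> norm_num)
    refine le_trans (le_of_eq ?_) (h4.trans (le_of_eq ?_))
    · apply Finset.sum_congr rfl
      intro b _
      rw [mul_comm]
      congr 1
      show (if _ then (1 : ℝ) else 0) = if _ then (1 : ℝ) else 0
      congr 1
      apply propext
      apply forall_congr'
      intro m
      constructor
      · intro h5
        have h6 : ((cl v m + ∑ m', cl (H m' ⟨0, hk⟩) m + ∑ p, cl (b p) m : ℕ) : ℤ) = f0 m := by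
          rw [h5]
        push_cast at h6
        exact h6
      · intro h5
        have h6 : ((cl v m + ∑ m', cl (H m' ⟨0, hk⟩) m + ∑ p, cl (b p) m : ℕ) : ℤ) = f0 m := by
          push_cast
          exact h5
        exact_mod_cast h6
    · show _ = ∑ b : Fin R → PW r t, _
      apply Finset.sum_congr rfl
      intro b _
      show (if _ then (1 : ℝ) else 0) = if _ then (1 : ℝ) else 0
      congr 1
      apply propext
      apply forall_congr'
      intro m
      constructor
      · intro h5
        have h6 : ((cl v m + ∑ m', cl (H m' ⟨0, hk⟩) m + ∑ p, cl (b p) m : ℕ) : ℤ) =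
            ((f0 m + k * h : ℕ) : ℤ) := by
          push_cast
          linarith
        exact_mod_cast h6
      · intro h5
        have h6 : ((cl v m + ∑ m', cl (H m' ⟨0, hk⟩) m + ∑ p, cl (b p) m : ℕ) : ℤ) =
            ((f0 m + k * h : ℕ) : ℤ) := by
          rw [h5]
        push_cast at h6
        linarith
  -- sum over the histories
  have h7 : ∀ v : Fin y → Fin (r + 1), (∑ H : Fin r → Fin k → ZW r z,
      (∏ m, wz A m (H m)) * P v (fun m => H m ⟨0, hk⟩)) ≤
      C ^ r * ∑ u : Fin r → ZW r z, P v u := by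
    intro v
    have h8 : (∑ H : Fin r → Fin k → ZW r z,
        (∏ m, wz A m (H m)) * P v (fun m => H m ⟨0, hk⟩)) =
        ∑ u : Fin r → ZW r z, (∑ H : Fin r → Fin k → ZW r z,
          if ∀ m, H m ⟨0, hk⟩ = u m then ∏ m, wz A m (H m) else 0) * P v u := by
      simp_rw [Finset.sum_mul]
      rw [Finset.sum_comm]
      apply Finset.sum_congr rfl
      intro H _
      rw [Finset.sum_eq_single (fun m => H m ⟨0, hk⟩)]
      · simp
      · intro u _ hu
        rw [if_neg, zero_mul]
        intro hcon
        apply hu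
        funext m
        exact (hcon m).symm
      · intro hcon
        exact absurd (Finset.mem_univ _) hcon
    rw [h8, Finset.mul_sum]
    apply Finset.sum_le_sum
    intro u _
    exact mul_le_mul_of_nonneg_right (glo_hist A hk C hC u) (hP0 v u)
  have h9 : ((univ.filter (fun w : Word r y z R t => ∀ m, typ w m = f0 m + k * h)).card : ℝ) =
      ∑ v : Fin y → Fin (r + 1), ∑ u : Fin r → ZW r z, P v u := by
    rw [Finset.card_filter]
    push_cast
    rw [Fintype.sum_prod_type]
    apply Finset.sum_congr rfl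
    intro v _
    rw [Fintype.sum_prod_type]
    rfl
  have h10 : (∑ e : Edge r y z R t k h, wt κ A f0 Fn e) =
      ∑ v : Fin y → Fin (r + 1), ∑ H : Fin r → Fin k → ZW r z,
        ∑ d : Fin R → PW r t × (Fin r → Finset (Fin t) × (Fin (k * (2 * h) + 1) →
          Finset (Fin t))), wt κ A f0 Fn (v, H, d) := by
    rw [Fintype.sum_prod_type]
    apply Finset.sum_congr rfl
    intro v _
    rw [Fintype.sum_prod_type]
  rw [h10, h9, Finset.mul_sum]
  apply Finset.sum_le_sum
  intro v _
  exact (Finset.sum_le_sum fun H _ => h1 v H).trans (h7 v)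

end EDGES

end Pool.Agent.Lib_helper46.CC

namespace Pool.Agent.Lib_helper46.CC

alias glob := glob_pr

end Pool.Agent.Lib_helper46.CC
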