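import Mathlib
import Pool.Agent.Lib_helper46.CC.Defs

/-! Block KHI, written by helper95. -/

/-!
# MP_10b4aa_co: block KHI
-/

set_option autoImplicit false

namespace Pool.Agent.Lib_helper46.CC

open Finset
open scoped Classical

/-- the first `l` elements in the order `π` -/
noncomputable def khi_pre {n : ℕ} (π : Equiv.Perm (Fin n)) (l : ℕ) : Finset (Fin n) :=
  (univ.filter (fun i : Fin n => (i : ℕ) < l)).image π

theorem khi_pre_card {n : ℕ} (π : Equiv.Perm (Fin n)) (l : ℕ) (hl : l ≤ n) :
    (khi_pre π l).card = l := by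
  rw [khi_pre, Finset.card_image_of_injective _ π.injective]
  have h1 : (univ.filter (fun i : Fin n => (i : ℕ) < l)) =
      (Finset.range l).attachFin (fun i hi => lt_of_lt_of_le (Finset.mem_range.1 hi) hl) := by
    ext i
    simp [Finset.mem_attachFin]
  rw [h1, Finset.card_attachFin, Finset.card_range]

theorem khi_pre_mono {n : ℕ} (π : Equiv.Perm (Fin n)) {l l' : ℕ} (h : l ≤ l') :
    khi_pre π l ⊆ khi_pre π l' := by
  apply Finset.image_subset_image
  intro i hi
  rw [Finset.mem_filter] at hi ⊢
  exact ⟨hi.1, hi.2.trans_le h⟩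

/-- number of orders in which the first `l` elements form `S` -/
noncomputable def khi_cnt {n : ℕ} (l : ℕ) (S : Finset (Fin n)) : ℕ :=
  (univ.filter (fun π : Equiv.Perm (Fin n) => khi_pre π l = S)).card

theorem khi_cnt_le {n : ℕ} (l : ℕ) (S S' : Finset (Fin n)) (h : S.card = S'.card) :
    khi_cnt l S ≤ khi_cnt l S' := by
  obtain ⟨τ, hτ⟩ : ∃ τ : Equiv.Perm (Fin n), S.image τ = S' := by
    let e : {x // x ∈ S} ≃ {x // x ∈ S'} := Finset.equivOfCardEq h
    refine ⟨e.extendSubtype, ?_⟩
    apply Finset.eq_of_subset_of_card_le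
    · intro x hx
      obtain ⟨y, hy, rfl⟩ := Finset.mem_image.1 hx
      exact e.extendSubtype_mem y hy
    · rw [Finset.card_image_of_injective _ (Equiv.injective _), h]
  unfold khi_cnt
  refine Finset.card_le_card_of_injOn (fun π => π.trans τ) ?_ ?_
  · intro π hπ
    rw [Finset.mem_coe, Finset.mem_filter] at hπ ⊢
    refine ⟨Finset.mem_univ _, ?_⟩
    rw [← hτ, ← hπ.2, khi_pre, khi_pre, Finset.image_image]
    rfl
  · intro π _ π' _ h
    ext i
    have h1 := congrArg (fun f : Equiv.Perm (Fin n) => f i) h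
    simp only [Equiv.trans_apply] at h1
    rw [τ.injective h1]

theorem khi_cnt_eq {n : ℕ} (l : ℕ) (hl : l ≤ n) (S : Finset (Fin n)) (h : S.card = l) :
    (khi_cnt l S : ℝ) / (Fintype.card (Equiv.Perm (Fin n)) : ℝ) = 1 / (n.choose l : ℝ) := by
  have h1 : ∑ S' ∈ powersetCard l (univ : Finset (Fin n)), khi_cnt l S' =
      Fintype.card (Equiv.Perm (Fin n)) := by
    rw [← Finset.card_univ (α := Equiv.Perm (Fin n))]
    unfold khi_cnt
    rw [← Finset.card_eq_sum_card_fiberwise]
    intro π _
    rw [Finset.mem_coe, Finset.mem_powersetCard]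
    exact ⟨Finset.subset_univ _, khi_pre_card π l hl⟩
  have h2 : ∀ S' ∈ powersetCard l (univ : Finset (Fin n)), khi_cnt l S' = khi_cnt l S := by
    intro S' hS'
    have h3 := (Finset.mem_powersetCard.1 hS').2
    exact le_antisymm (khi_cnt_le l S' S (h3.trans h.symm)) (khi_cnt_le l S S' (h.trans h3.symm))
  rw [Finset.sum_congr rfl h2, Finset.sum_const, Finset.card_powersetCard, Finset.card_univ,
    Fintype.card_fin, smul_eq_mul] at h1
  have h3 : (0 : ℝ) < n.choose l := by exact_mod_cast Nat.choose_pos hl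
  have h4 : (0 : ℝ) < (Fintype.card (Equiv.Perm (Fin n)) : ℝ) := by
    exact_mod_cast Fintype.card_pos
  rw [div_eq_div_iff h4.ne' h3.ne', one_mul]
  have h5 : ((n.choose l * khi_cnt l S : ℕ) : ℝ) =
      (Fintype.card (Equiv.Perm (Fin n)) : ℝ) := by rw [h1]
  rw [← h5]
  push_cast
  ring

/-- Block KHI: uniform random path of length `N` from level `a`, then constant until `N'` -/
theorem khi_exists_pr {t : ℕ} (T : Finset (Fin t)) (a N N' : ℕ) (hN : N ≤ N')
    (h1 : a + N ≤ T.card) :
    ∃ law : (Fin (N' + 1) → Finset (Fin t)) → ℝ, (∀ P, 0 ≤ law P) ∧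
      (∀ P, law P ≠ 0 → (∀ i j, i ≤ j → pv P i ⊆ pv P j) ∧
        ∀ j, pv P j ⊆ T ∧ (pv P j).card = a + min j N) ∧
      ∀ j ≤ N, ∀ S, S ⊆ T → S.card = a + j →
        ∑ P, (if pv P j = S then law P else 0) = 1 / (T.card.choose (a + j) : ℝ) := by
  let e : T ≃ Fin T.card := T.equivFin
  let em : Fin T.card ↪ Fin t := e.symm.toEmbedding.trans (Function.Embedding.subtype _)
  let path : Equiv.Perm (Fin T.card) → Fin (N' + 1) → Finset (Fin t) := fun π j =>
    (khi_pre π (a + min (j : ℕ) N)).map em
  have hpv : ∀ π j, pv (path π) j = (khi_pre π (a + min j N)).map em := by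
    intro π j
    show (khi_pre π (a + min (min j N') N)).map em = _
    rw [min_assoc, min_eq_right hN]
  have hemT : ∀ i, em i ∈ T := fun i => (e.symm i).2
  let c : ℝ := (Fintype.card (Equiv.Perm (Fin T.card)) : ℝ)
  have hc : 0 < c := by
    have : 0 < Fintype.card (Equiv.Perm (Fin T.card)) := Fintype.card_pos
    show (0 : ℝ) < (Fintype.card (Equiv.Perm (Fin T.card)) : ℝ)
    exact_mod_cast this
  let law : (Fin (N' + 1) → Finset (Fin t)) → ℝ := fun P =>
    ((univ.filter (fun π : Equiv.Perm (Fin T.card) => path π = P)).card : ℝ) / c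
  refine ⟨law, fun P => div_nonneg (Nat.cast_nonneg _) hc.le, ?_, ?_⟩
  · intro P hP
    have h2 : (univ.filter (fun π : Equiv.Perm (Fin T.card) => path π = P)).Nonempty := by
      rw [Finset.nonempty_iff_ne_empty]
      intro h
      apply hP
      show ((univ.filter (fun π : Equiv.Perm (Fin T.card) => path π = P)).card : ℝ) / c = 0
      rw [h, Finset.card_empty, Nat.cast_zero, zero_div]
    obtain ⟨π, hπ⟩ := h2
    have hπ2 := (Finset.mem_filter.1 hπ).2
    subst hπ2
    refine ⟨fun i j hij => ?_, fun j => ⟨?_, ?_⟩⟩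
    · rw [hpv, hpv, Finset.map_subset_map]
      exact khi_pre_mono π (by omega)
    · rw [hpv]
      intro x hx
      obtain ⟨y, _, rfl⟩ := Finset.mem_map.1 hx
      exact hemT y
    · rw [hpv, Finset.card_map, khi_pre_card]
      omega
  · intro j hj S hS hSc
    obtain ⟨S', rfl⟩ : ∃ S' : Finset (Fin T.card), S'.map em = S := by
      refine ⟨univ.filter (fun i => em i ∈ S), ?_⟩
      ext x
      rw [Finset.mem_map]
      constructor
      · rintro ⟨i, hi, rfl⟩
        exact (Finset.mem_filter.1 hi).2
      · intro hx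
        refine ⟨e ⟨x, hS hx⟩, ?_, ?_⟩
        · rw [Finset.mem_filter]
          refine ⟨Finset.mem_univ _, ?_⟩
          have : em (e ⟨x, hS hx⟩) = x := by
            show ((e.symm (e ⟨x, hS hx⟩) : T) : Fin t) = x
            rw [Equiv.symm_apply_apply]
          rw [this]
          exact hx
        · show ((e.symm (e ⟨x, hS hx⟩) : T) : Fin t) = x
          rw [Equiv.symm_apply_apply]
    rw [Finset.card_map] at hSc
    rw [← khi_cnt_eq (a + j) (by omega) S' hSc]
    have h3 : ∀ P : Fin (N' + 1) → Finset (Fin t), (if pv P j = S'.map em then law P else 0) =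
        ((univ.filter (fun π : Equiv.Perm (Fin T.card) => khi_pre π (a + j) = S' ∧
          path π = P)).card : ℝ) / c := by
      intro P
      split_ifs with hPj
      · show ((univ.filter (fun π : Equiv.Perm (Fin T.card) => path π = P)).card : ℝ) / c = _
        congr 3
        ext π
        rw [Finset.mem_filter, Finset.mem_filter]
        constructor
        · rintro ⟨h4, h5⟩
          refine ⟨h4, ?_, h5⟩
          rw [← h5, hpv, min_eq_left hj] at hPj
          exact Finset.map_injective em hPj
        · rintro ⟨h4, _, h5⟩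
          exact ⟨h4, h5⟩
      · rw [Finset.filter_false_of_mem]
        · simp
        · rintro π _ ⟨h4, h5⟩
          apply hPj
          rw [← h5, hpv, min_eq_left hj, h4]
    rw [Finset.sum_congr rfl fun P _ => h3 P, ← Finset.sum_div]
    congr 1
    rw [khi_cnt, Finset.card_eq_sum_card_fiberwise (f := path) (t := univ)
      (fun π _ => Finset.mem_coe.2 (Finset.mem_univ _))]
    push_cast
    refine Finset.sum_congr rfl fun P _ => ?_
    rw [Finset.filter_filter]

end Pool.Agent.Lib_helper46.CC

namespace Pool.Agent.Lib_helper46.CC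

alias khi_exists := khi_exists_pr

end Pool.Agent.Lib_helper46.CC
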