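import Mathlib
import Pool.Agent.Lib_helper46.CCF.WBase
import Pool.Agent.Lib_helper70.LS.Path
import Pool.Agent.Lib_helper46.CCF.BIN

/-! Block LOC, written by helper70. -/

/-!
# CC, block LOC: the precise local system
-/

set_option autoImplicit false

namespace Pool.Agent.Lib_helper46.CC

open Finset

/-! ## Transport to `T` -/

section Transport

variable {t : ℕ}

private noncomputable def loc_phi (T : Finset (Fin t)) (A : Finset (Fin T.card)) :
    Finset (Fin t) := A.map (T.orderEmbOfFin rfl).toEmbedding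

private noncomputable def loc_psi (T : Finset (Fin t)) (S : Finset (Fin t)) :
    Finset (Fin T.card) := univ.filter (fun i => T.orderEmbOfFin rfl i ∈ S)

private theorem loc_phi_sub (T : Finset (Fin t)) (A : Finset (Fin T.card)) : loc_phi T A ⊆ T := by
  intro x hx
  rw [loc_phi, mem_map] at hx
  obtain ⟨i, -, rfl⟩ := hx
  exact T.orderEmbOfFin_mem rfl i

private theorem loc_phi_card (T : Finset (Fin t)) (A : Finset (Fin T.card)) :
    (loc_phi T A).card = A.card := card_map _

private theorem loc_phi_mono (T : Finset (Fin t)) {A B : Finset (Fin T.card)} (h : A ⊆ B) :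
    loc_phi T A ⊆ loc_phi T B := map_subset_map.mpr h

private theorem loc_phi_psi (T : Finset (Fin t)) {S : Finset (Fin t)} (hS : S ⊆ T) :
    loc_phi T (loc_psi T S) = S := by
  ext x
  rw [loc_phi, mem_map]
  constructor
  · rintro ⟨i, hi, rfl⟩
    exact (mem_filter.mp hi).2
  · intro hx
    have h1 : x ∈ Set.range (T.orderEmbOfFin rfl) := by
      rw [Finset.range_orderEmbOfFin]; exact hS hx
    obtain ⟨i, hi⟩ := h1
    exact ⟨i, mem_filter.mpr ⟨mem_univ _, by rw [hi]; exact hx⟩, hi⟩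

private theorem loc_psi_phi (T : Finset (Fin t)) (A : Finset (Fin T.card)) :
    loc_psi T (loc_phi T A) = A := by
  ext i
  rw [loc_psi, mem_filter, loc_phi, mem_map]
  constructor
  · rintro ⟨-, j, hj, hji⟩
    have : j = i := (T.orderEmbOfFin rfl).injective hji
    rwa [← this]
  · intro hi
    exact ⟨mem_univ _, i, hi, rfl⟩

private theorem loc_psi_card (T : Finset (Fin t)) {S : Finset (Fin t)} (hS : S ⊆ T) :
    (loc_psi T S).card = S.card := by
  rw [← loc_phi_card, loc_phi_psi T hS]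

open Classical in
/-- the local system on `T` -/
private theorem loc_T (T : Finset (Fin t)) (a L m Δ : ℕ) (hm : 0 < m) (hma : m ≤ a)
    (hmb : m + (a + L) ≤ T.card) (h1 : T.card ≤ 2 * a + Δ) (h2 : 2 * a + 2 * L ≤ T.card + Δ)
    (h3 : L ≤ Δ) :
    ∃ (ι : Type) (_ : Fintype ι) (Ω : Type) (_ : Fintype Ω) (_ : Nonempty Ω)
      (atm : Finset (Fin t) → ι) (pth : ι → Ω → ℕ → Finset (Fin t)),
      (∀ i π l, pth i π l ⊆ T) ∧
      (∀ i π l, l ≤ a + L → (pth i π l).card = l) ∧
      (∀ i π l, pth i π l ⊆ pth i π (l + 1)) ∧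
      (∀ S π, S ⊆ T → a ≤ S.card → S.card ≤ a + L → pth (atm S) π S.card = S) ∧
      ((Fintype.card ι : ℝ) ≤ (1 + L * (2 * Δ / m * (1 + Δ / m) ^ L)) * T.card.choose a) ∧
      (∀ S : Finset (Fin t),
        ((univ.filter (fun w : ι × Ω => pth w.1 w.2 a = S)).card : ℝ) ≤
          (1 + L * (2 * Δ / m * (1 + Δ / m) ^ L)) * Fintype.card Ω) ∧
      (∀ S : Finset (Fin t),
        ((univ.filter (fun w : ι × Ω => pth w.1 w.2 (a + L) = S)).card : ℝ) ≤
          (1 + L * (2 * Δ / m * (1 + Δ / m) ^ L)) * Fintype.card Ω) := by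
  obtain ⟨ι, hι, atm, pth, p1, p2, p3, p4, p5, p6⟩ :=
    Lib_helper70.LS.local_system T.card a L m Δ hm hma hmb h1 h2 h3
  have hcardΩ : Fintype.card (Equiv.Perm (Fin T.card)) = T.card.factorial := by
    rw [Fintype.card_perm, Fintype.card_fin]
  have hnn : (0 : ℝ) ≤ (1 + L * (2 * Δ / m * (1 + Δ / m) ^ L)) * (T.card.factorial : ℝ) := by
    positivity
  have key : ∀ (b : ℕ), b ≤ a + L → (∀ S : Finset (Fin T.card), S.card = b →
        ((univ.filter (fun w : ι × Equiv.Perm (Fin T.card) => pth w.1 w.2 b = S)).card : ℝ) ≤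
          (1 + L * (2 * Δ / m * (1 + Δ / m) ^ L)) * T.card.factorial) →
      ∀ S : Finset (Fin t), ((univ.filter (fun w : ι × Equiv.Perm (Fin T.card) =>
        loc_phi T (pth w.1 w.2 b) = S)).card : ℝ) ≤
          (1 + L * (2 * Δ / m * (1 + Δ / m) ^ L)) * Fintype.card (Equiv.Perm (Fin T.card)) := by
    intro b hb h S
    rw [hcardΩ]
    by_cases hS : (loc_psi T S).card = b
    · refine le_trans ?_ (h _ hS)
      have : (univ.filter (fun w : ι × Equiv.Perm (Fin T.card) => loc_phi T (pth w.1 w.2 b) = S))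
          ⊆ univ.filter (fun w : ι × Equiv.Perm (Fin T.card) =>
            pth w.1 w.2 b = loc_psi T S) := by
        intro w hw
        rw [mem_filter] at hw ⊢
        refine ⟨mem_univ _, ?_⟩
        rw [← hw.2, loc_psi_phi]
      exact_mod_cast card_le_card this
    · have : (univ.filter (fun w : ι × Equiv.Perm (Fin T.card) =>
          loc_phi T (pth w.1 w.2 b) = S)) = ∅ := by
        rw [filter_eq_empty_iff]
        intro w _ hw
        apply hS
        rw [← hw, loc_psi_phi]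
        exact p1 _ _ _ hb
      rw [this, card_empty, Nat.cast_zero]
      exact hnn
  refine ⟨ι, hι, Equiv.Perm (Fin T.card), inferInstance, ⟨1⟩, fun S => atm (loc_psi T S),
    fun i π l => loc_phi T (pth i π l), fun i π l => loc_phi_sub T _, ?_, ?_, ?_, p4, ?_, ?_⟩
  · intro i π l hl
    rw [loc_phi_card]
    exact p1 i π l hl
  · intro i π l
    exact loc_phi_mono T (p2 i π l)
  · intro S π hS hS1 hS2
    have := p3 (loc_psi T S) π (by rw [loc_psi_card T hS]; exact hS1)
      (by rw [loc_psi_card T hS]; exact hS2)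
    rw [loc_psi_card T hS] at this
    show loc_phi T (pth (atm (loc_psi T S)) π S.card) = S
    rw [this, loc_phi_psi T hS]
  · exact key a (by omega) p5
  · exact key (a + L) le_rfl p6

end Transport

/-! ## Numerical estimates -/

private theorem loc_num {n a h D : ℕ} {δ : ℝ} (hδ : 0 < δ) (hδ1 : δ ≤ 1)
    (h1 : |2 * ((a : ℤ) + h) - (n : ℤ)| ≤ D)
    (h2 : 1000 * ((D : ℝ) + h + 1) * ((h : ℝ) + 1) ≤ δ * n) :
    (0 < n / 4 ∧ n / 4 ≤ a ∧ n / 4 + (a + 2 * h) ≤ n ∧ n ≤ 2 * a + (D + 2 * h) ∧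
      2 * a + 2 * (2 * h) ≤ n + (D + 2 * h) ∧ 2 * h ≤ D + 2 * h) ∧
    (((2 * h : ℕ) : ℝ) * (2 * ((D + 2 * h : ℕ) : ℝ) / ((n / 4 : ℕ) : ℝ) *
      (1 + ((D + 2 * h : ℕ) : ℝ) / ((n / 4 : ℕ) : ℝ)) ^ (2 * h)) ≤ δ / 10) ∧
    ((n.choose a : ℝ) ≤ (1 + δ / 20) * n.choose (a + h)) ∧
    ((n.choose a : ℝ) ≤ 2 * n.choose (a + 2 * h)) := by
  have hD0 : (0 : ℝ) ≤ D := Nat.cast_nonneg D
  have hh0 : (0 : ℝ) ≤ h := Nat.cast_nonneg h
  have hn0 : (0 : ℝ) ≤ n := Nat.cast_nonneg n
  have hbig : 1000 * ((D : ℝ) + h + 1) ≤ n := by nlinarith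
  have hbig' : 1000 * (D + h + 1) ≤ n := by exact_mod_cast hbig
  have hnpos : (0 : ℝ) < n := by linarith
  rw [abs_le] at h1
  have hm : (n : ℝ) / 5 ≤ ((n / 4 : ℕ) : ℝ) := by
    have e1 : n ≤ 4 * (n / 4) + 3 := by omega
    have e2 : (n : ℝ) ≤ 4 * ((n / 4 : ℕ) : ℝ) + 3 := by exact_mod_cast e1
    linarith
  have hmpos : (0 : ℝ) < ((n / 4 : ℕ) : ℝ) := by linarith
  refine ⟨⟨by omega, by omega, by omega, by omega, by omega, by omega⟩, ?_, ?_, ?_⟩
  · set x : ℝ := ((D + 2 * h : ℕ) : ℝ) / ((n / 4 : ℕ) : ℝ) with hx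
    have hx0 : 0 ≤ x := by positivity
    have hx1 : ((2 * h : ℕ) : ℝ) * x ≤ δ / 50 := by
      rw [hx, ← mul_div_assoc, div_le_iff₀ hmpos]
      push_cast
      have e1 : 2 * (h : ℝ) * (D + 2 * h) ≤ 4 * (((D : ℝ) + h + 1) * ((h : ℝ) + 1)) := by
        nlinarith [mul_nonneg hh0 hD0, mul_nonneg hh0 hh0]
      nlinarith
    have hx2 : (1 + x) ^ (2 * h) ≤ 2 := by
      calc (1 + x) ^ (2 * h) ≤ (Real.exp x) ^ (2 * h) := by
            apply pow_le_pow_left₀ (by linarith)
            linarith [Real.add_one_le_exp x]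
        _ = Real.exp (((2 * h : ℕ) : ℝ) * x) := by rw [← Real.exp_nat_mul]
        _ ≤ Real.exp (1 / 50) := Real.exp_le_exp.mpr (by linarith)
        _ ≤ 2 := by
            have := Real.abs_exp_sub_one_le (x := 1 / 50) (by norm_num)
            have h3 := (abs_le.mp this).2
            norm_num at h3
            linarith
    have e3 : 2 * ((D + 2 * h : ℕ) : ℝ) / ((n / 4 : ℕ) : ℝ) = 2 * x := by
      rw [hx, mul_div_assoc]
    rw [e3]
    have hL0 : (0 : ℝ) ≤ ((2 * h : ℕ) : ℝ) := Nat.cast_nonneg _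
    have hp0 : 0 ≤ (1 + x) ^ (2 * h) := by positivity
    calc ((2 * h : ℕ) : ℝ) * (2 * x * (1 + x) ^ (2 * h))
        = (((2 * h : ℕ) : ℝ) * x) * (2 * (1 + x) ^ (2 * h)) := by ring
      _ ≤ (δ / 50) * (2 * 2) := by
          apply mul_le_mul hx1 (by linarith) (by positivity) (by positivity)
      _ ≤ δ / 10 := by linarith
  · have hb := bin_ratio n a (a + h) h (D + 2 * h) (by rw [abs_le]; push_cast; omega)
      (by rw [abs_le]; push_cast; omega) (by omega)
    have hexp : Real.exp (4 * (h : ℝ) * (((D + 2 * h : ℕ) : ℝ) + 2 * h + 1) / n) ≤ 1 + δ / 20 := by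
      set y : ℝ := 4 * (h : ℝ) * (((D + 2 * h : ℕ) : ℝ) + 2 * h + 1) / n with hy
      have hy0 : 0 ≤ y := by positivity
      have hy1 : y ≤ 16 * δ / 1000 := by
        rw [hy, div_le_iff₀ hnpos]
        push_cast
        nlinarith [mul_nonneg hh0 hD0, mul_nonneg hh0 hh0]
      have h3 := (abs_le.mp (Real.abs_exp_sub_one_le (x := y) (by
        rw [abs_of_nonneg hy0]; linarith))).2
      rw [abs_of_nonneg hy0] at h3
      linarith
    calc (n.choose a : ℝ) ≤ n.choose (a + h) * _ := hb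
      _ ≤ n.choose (a + h) * (1 + δ / 20) := mul_le_mul_of_nonneg_left hexp (Nat.cast_nonneg _)
      _ = (1 + δ / 20) * n.choose (a + h) := mul_comm _ _
  · have hb := bin_ratio n a (a + 2 * h) (2 * h) (D + 2 * h) (by rw [abs_le]; push_cast; omega)
      (by rw [abs_le]; push_cast; omega) (by omega)
    have hexp : Real.exp (4 * ((2 * h : ℕ) : ℝ) *
        (((D + 2 * h : ℕ) : ℝ) + 2 * ((2 * h : ℕ) : ℝ) + 1) / n) ≤ 2 := by
      set y : ℝ := 4 * ((2 * h : ℕ) : ℝ) *
        (((D + 2 * h : ℕ) : ℝ) + 2 * ((2 * h : ℕ) : ℝ) + 1) / n with hy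
      have hy0 : 0 ≤ y := by positivity
      have hy1 : y ≤ 48 * δ / 1000 := by
        rw [hy, div_le_iff₀ hnpos]
        push_cast
        nlinarith [mul_nonneg hh0 hD0, mul_nonneg hh0 hh0]
      have h3 := (abs_le.mp (Real.abs_exp_sub_one_le (x := y) (by
        rw [abs_of_nonneg hy0]; linarith))).2
      rw [abs_of_nonneg hy0] at h3
      linarith
    calc (n.choose a : ℝ) ≤ n.choose (a + 2 * h) * _ := hb
      _ ≤ n.choose (a + 2 * h) * 2 := mul_le_mul_of_nonneg_left hexp (Nat.cast_nonneg _)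
      _ = 2 * n.choose (a + 2 * h) := mul_comm _ _

private theorem loc_f1 {A O : ℝ} (hO : 0 < O) : O * (A * O)⁻¹ = A⁻¹ := by
  rw [mul_inv, mul_comm A⁻¹, ← mul_assoc, mul_inv_cancel₀ hO.ne', one_mul]

private theorem loc_f2 {A O e : ℝ} (hO : 0 < O) : ((1 + e) * O) * (A * O)⁻¹ = (1 + e) / A := by
  rw [mul_assoc, loc_f1 hO, div_eq_mul_inv]

/-! ## The block -/

open Classical in
/-- Block LOC: precise local system with the law of the random path -/
theorem loc_exists_pr {t : ℕ} (T : Finset (Fin t)) (a h D : ℕ) (δ : ℝ) (hδ : 0 < δ) (hδ1 : δ ≤ 1)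
    (h1 : |2 * ((a : ℤ) + h) - (T.card : ℤ)| ≤ D)
    (h2 : 1000 * ((D : ℝ) + h + 1) * ((h : ℝ) + 1) ≤ δ * T.card) :
    ∃ (At : Finset (Finset (Fin t))) (st : Finset (Fin t) → Finset (Fin t))
      (law : Finset (Fin t) → (Fin (2 * h + 1) → Finset (Fin t)) → ℝ),
      IsSys T a (2 * h) At st ∧ (∀ S P, 0 ≤ law S P) ∧
      (∀ S P, law S P ≠ 0 → S ∈ At ∧ (∀ i j, i ≤ j → pv P i ⊆ pv P j) ∧
        (∀ j ≤ 2 * h, pv P j ⊆ T ∧ (pv P j).card = a + j) ∧
        ∀ S', S' ⊆ T → a ≤ S'.card → S'.card ≤ a + 2 * h → st S' = S → pv P (S'.card - a) = S') ∧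
      (∀ S ∈ At, (1 - δ) / (T.card.choose (a + h) : ℝ) ≤ ∑ P, law S P) ∧
      (∀ S, ∑ P, law S P ≤ 2 / (T.card.choose (a + h) : ℝ)) ∧
      (∑ S, ∑ P, law S P = 1) ∧
      (∀ S', ∑ S, ∑ P, (if pv P 0 = S' then law S P else 0) ≤ 2 / (T.card.choose (a + h) : ℝ)) ∧
      (∀ S', ∑ S, ∑ P, (if pv P (2 * h) = S' then law S P else 0) ≤
        2 / (T.card.choose (a + h) : ℝ)) := by
  obtain ⟨⟨n1, n2, n3, n4, n5, n6⟩, n7, n8, n9⟩ := loc_num hδ hδ1 h1 h2
  obtain ⟨ι, hι, Ω, hΩ, hne, atm, pth, p0, p1, p2, p3, p4, p5, p6⟩ :=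
    loc_T T a (2 * h) (T.card / 4) (D + 2 * h) n1 n2 n3 n4 n5 n6
  set e : ℝ := ((2 * h : ℕ) : ℝ) * (2 * ((D + 2 * h : ℕ) : ℝ) / ((T.card / 4 : ℕ) : ℝ) *
      (1 + ((D + 2 * h : ℕ) : ℝ) / ((T.card / 4 : ℕ) : ℝ)) ^ (2 * h)) with he
  have he0 : 0 ≤ e := by positivity
  set W : Finset (Fin t) → Prop := fun S => S ⊆ T ∧ a ≤ S.card ∧ S.card ≤ a + 2 * h with hW
  obtain ⟨π0⟩ := hne
  have pmono : ∀ i π l l', l ≤ l' → pth i π l ⊆ pth i π l' := by
    intro i π l l' hll
    induction hll with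
    | refl => exact subset_rfl
    | step _ ih => exact ih.trans (p2 i π _)
  have hinj : ∀ S S', W S → W S' → S.card ≤ S'.card → atm S = atm S' → S ⊆ S' := by
    intro S S' hS hS' hc ha
    have e1 := p3 S π0 hS.1 hS.2.1 hS.2.2
    have e2 := p3 S' π0 hS'.1 hS'.2.1 hS'.2.2
    rw [← e1, ← e2, ha]
    have := pmono (atm S') π0 _ _ hc
    rw [e2] at this ⊢
    exact this
  -- representatives
  let rep : ι → Finset (Fin t) := fun i => if h : ∃ S, W S ∧ atm S = i then h.choose else ∅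
  let st : Finset (Fin t) → Finset (Fin t) := fun S => rep (atm S)
  have hrep : ∀ S, W S → W (st S) ∧ atm (st S) = atm S := by
    intro S hS
    have hex : ∃ S', W S' ∧ atm S' = atm S := ⟨S, hS, rfl⟩
    have : st S = hex.choose := dif_pos hex
    rw [this]
    exact hex.choose_spec
  have hstst : ∀ S, W S → st (st S) = st S := by
    intro S hS
    show rep (atm (st S)) = rep (atm S)
    rw [(hrep S hS).2]
  let At : Finset (Finset (Fin t)) := (univ.filter W).image st
  have hAt : ∀ B, B ∈ At ↔ ∃ S, W S ∧ st S = B := by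
    intro B
    simp only [At, mem_image, mem_filter, mem_univ, true_and]
  have hAtW : ∀ B ∈ At, W B ∧ st B = B := by
    intro B hB
    obtain ⟨S, hS, rfl⟩ := (hAt B).mp hB
    exact ⟨(hrep S hS).1, hstst S hS⟩
  have hAtinj : Set.InjOn atm (At : Set (Finset (Fin t))) := by
    intro B hB B' hB' hBB
    have e1 := (hAtW B hB).2
    have e2 := (hAtW B' hB').2
    rw [← e1, ← e2]
    show rep (atm B) = rep (atm B')
    rw [hBB]
  -- sizes
  have hc1 : At.card ≤ Fintype.card ι := by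
    rw [← card_image_of_injOn hAtinj]
    exact card_le_univ _
  have hc2 : T.card.choose (a + h) ≤ At.card := by
    rw [← card_powersetCard]
    refine card_le_card_of_injOn st ?_ ?_
    · intro S hS
      rw [mem_coe, mem_powersetCard] at hS
      rw [mem_coe, hAt]
      exact ⟨S, ⟨hS.1, by omega, by omega⟩, rfl⟩
    · intro S hS S' hS' hSS
      rw [mem_coe, mem_powersetCard] at hS hS'
      have w1 : W S := ⟨hS.1, by omega, by omega⟩
      have w2 : W S' := ⟨hS'.1, by omega, by omega⟩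
      have hat : atm S = atm S' := by
        rw [← (hrep S w1).2, ← (hrep S' w2).2, hSS]
      exact subset_antisymm (hinj S S' w1 w2 (by omega) hat)
        (hinj S' S w2 w1 (by omega) hat.symm)
  have hCpos : 0 < T.card.choose (a + h) := Nat.choose_pos (by omega)
  have hAtpos : 0 < At.card := lt_of_lt_of_le hCpos hc2
  have hC : (0 : ℝ) < (T.card.choose (a + h) : ℝ) := by exact_mod_cast hCpos
  have hA : (0 : ℝ) < (At.card : ℝ) := by exact_mod_cast hAtpos
  have hO : (0 : ℝ) < (Fintype.card Ω : ℝ) := by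
    exact_mod_cast Fintype.card_pos_iff.mpr ⟨π0⟩
  have hc2' : (T.card.choose (a + h) : ℝ) ≤ At.card := by exact_mod_cast hc2
  have hc1' : (At.card : ℝ) ≤ (1 + e) * T.card.choose a := by
    refine le_trans ?_ p4
    exact_mod_cast hc1
  -- the law
  let path : ι → Ω → (Fin (2 * h + 1) → Finset (Fin t)) := fun i π j => pth i π (a + j)
  let c : ℝ := (At.card : ℝ) * Fintype.card Ω
  have hcpos : 0 < c := mul_pos hA hO
  let law : Finset (Fin t) → (Fin (2 * h + 1) → Finset (Fin t)) → ℝ := fun S P =>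
    if S ∈ At then ∑ π : Ω, (if path (atm S) π = P then c⁻¹ else 0) else 0
  have hpv : ∀ i π j, pv (path i π) j = pth i π (a + min j (2 * h)) := fun i π j => rfl
  have hsum : ∀ (g : (Fin (2 * h + 1) → Finset (Fin t)) → Prop) [DecidablePred g]
      (S : Finset (Fin t)), S ∈ At →
      ∑ P, (if g P then law S P else 0) = ∑ π : Ω, (if g (path (atm S) π) then c⁻¹ else 0) := by
    intro g _ S hS
    have e1 : ∀ P, (if g P then law S P else 0) =
        ∑ π : Ω, (if path (atm S) π = P then (if g P then c⁻¹ else 0) else 0) := by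
      intro P
      simp only [law, if_pos hS]
      by_cases hg : g P
      · simp only [if_pos hg]
      · simp only [if_neg hg, ite_self, sum_const_zero]
    rw [sum_congr rfl fun P _ => e1 P, sum_comm]
    refine sum_congr rfl fun π _ => ?_
    rw [sum_ite_eq, if_pos (mem_univ _)]
  have hsum1 : ∀ S ∈ At, ∑ P, law S P = (At.card : ℝ)⁻¹ := by
    intro S hS
    have := hsum (fun _ => True) S hS
    simp only [if_true] at this
    rw [this, sum_const, card_univ, nsmul_eq_mul]
    exact loc_f1 hO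
  have hsum0 : ∀ S, S ∉ At → ∀ P, law S P = 0 := by
    intro S hS P
    simp only [law, if_neg hS]
  have hbd : ∀ (b : ℕ) (S' : Finset (Fin t)), (((univ.filter (fun w : ι × Ω =>
        pth w.1 w.2 (a + b) = S')).card : ℝ) ≤ (1 + e) * Fintype.card Ω) → b ≤ 2 * h →
      ∑ S, ∑ P, (if pv P b = S' then law S P else 0) ≤ 2 / (T.card.choose (a + h) : ℝ) := by
    intro b S' hb hb2
    have e1 : ∑ S, ∑ P, (if pv P b = S' then law S P else 0) =
        ∑ S ∈ At, ∑ π : Ω, (if pth (atm S) π (a + b) = S' then c⁻¹ else 0) := by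
      rw [← sum_subset (subset_univ At)]
      · refine sum_congr rfl fun S hS => ?_
        rw [hsum (fun P => pv P b = S') S hS]
        refine sum_congr rfl fun π _ => ?_
        rw [hpv, min_eq_left hb2]
      · intro S _ hS
        refine sum_eq_zero fun P _ => ?_
        rw [hsum0 S hS P, ite_self]
    have e2 : ∑ S ∈ At, ∑ π : Ω, (if pth (atm S) π (a + b) = S' then c⁻¹ else 0) ≤
        ∑ i : ι, ∑ π : Ω, (if pth i π (a + b) = S' then c⁻¹ else 0) := by
      rw [← sum_image (f := fun i : ι => ∑ π : Ω, (if pth i π (a + b) = S' then c⁻¹ else 0))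
        (s := At) (g := atm) hAtinj]
      refine sum_le_sum_of_subset_of_nonneg (subset_univ _) fun i _ _ => sum_nonneg fun π _ => ?_
      split_ifs
      · exact (inv_pos.mpr hcpos).le
      · exact le_rfl
    have e3 : ∑ i : ι, ∑ π : Ω, (if pth i π (a + b) = S' then c⁻¹ else 0) =
        ((univ.filter (fun w : ι × Ω => pth w.1 w.2 (a + b) = S')).card : ℝ) * c⁻¹ := by
      rw [← Fintype.sum_prod_type' (fun i π => if pth i π (a + b) = S' then c⁻¹ else 0),
        ← sum_filter, sum_const, nsmul_eq_mul]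
    rw [e1]
    refine e2.trans ?_
    rw [e3]
    calc ((univ.filter (fun w : ι × Ω => pth w.1 w.2 (a + b) = S')).card : ℝ) * c⁻¹
        ≤ ((1 + e) * Fintype.card Ω) * c⁻¹ :=
          mul_le_mul_of_nonneg_right hb (inv_pos.mpr hcpos).le
      _ = (1 + e) / At.card := loc_f2 hO
      _ ≤ 2 / At.card := by
          apply div_le_div_of_nonneg_right _ hA.le
          linarith
      _ ≤ 2 / (T.card.choose (a + h) : ℝ) := div_le_div_of_nonneg_left (by norm_num) hC hc2'
  refine ⟨At, st, law, ⟨?_, ?_, ?_, ?_⟩, ?_, ?_, ?_, ?_, ?_, ?_, ?_⟩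
  · -- At_sub
    intro B hB
    obtain ⟨hw, hs⟩ := hAtW B hB
    exact ⟨hw.1, hw.2.1, hw.2.2, hs⟩
  · -- st_mem
    intro S hS hS1 hS2
    rw [hAt]
    exact ⟨S, ⟨hS, hS1, hS2⟩, rfl⟩
  · -- mono
    intro S S' hS hS' hS1 hSS hS2 hst
    have w1 : W S := ⟨hS, hS1, by omega⟩
    have w2 : W S' := ⟨hS', by omega, hS2⟩
    have hat : atm S = atm S' := by
      rw [← (hrep S w1).2, ← (hrep S' w2).2, hst]
    exact hinj S S' w1 w2 hSS hat
  · -- card_le
    have hx : (At.card : ℝ) ≤ (T.card.choose a : ℝ) + T.card.choose (a + 2 * h) := by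
      have hca : (0 : ℝ) ≤ (T.card.choose a : ℝ) := Nat.cast_nonneg _
      have : e * T.card.choose a ≤ T.card.choose (a + 2 * h) := by
        have e4 : e * T.card.choose a ≤ (1 / 2) * T.card.choose a :=
          mul_le_mul_of_nonneg_right (by linarith) hca
        linarith
      linarith
    exact_mod_cast hx
  · -- nonneg
    intro S P
    simp only [law]
    split_ifs
    · refine sum_nonneg fun π _ => ?_
      split_ifs
      · exact (inv_pos.mpr hcpos).le
      · exact le_rfl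
    · exact le_rfl
  · -- support
    intro S P hSP
    have hS : S ∈ At := by
      by_contra hS
      exact hSP (hsum0 S hS P)
    obtain ⟨π, hπ⟩ : ∃ π, path (atm S) π = P := by
      by_contra hcon
      push Not at hcon
      apply hSP
      simp only [law, if_pos hS]
      exact sum_eq_zero fun π _ => if_neg (hcon π)
    subst hπ
    refine ⟨hS, ?_, ?_, ?_⟩
    · intro i j hij
      rw [hpv, hpv]
      exact pmono _ _ _ _ (by omega)
    · intro j hj
      rw [hpv, min_eq_left hj]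
      exact ⟨p0 _ _ _, p1 _ _ _ (by omega)⟩
    · intro S' hS' h3 h4 h5
      have hw : W S' := ⟨hS', h3, h4⟩
      have hat : atm S = atm S' := by
        rw [← h5]
        exact (hrep S' hw).2
      rw [hpv, hat, min_eq_left (by omega), Nat.add_sub_cancel' h3]
      exact p3 S' π hS' h3 h4
  · intro S hS
    rw [hsum1 S hS]
    have hx : (1 - δ) * At.card ≤ T.card.choose (a + h) := by
      have hca : (0 : ℝ) ≤ (T.card.choose a : ℝ) := Nat.cast_nonneg _
      have e5 : (At.card : ℝ) ≤ (1 + δ / 10) * ((1 + δ / 20) * T.card.choose (a + h)) := by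
        refine hc1'.trans ?_
        refine (mul_le_mul_of_nonneg_right (by linarith : (1 : ℝ) + e ≤ 1 + δ / 10) hca).trans ?_
        exact mul_le_mul_of_nonneg_left n8 (by linarith)
      have e6 : (1 - δ) * ((1 + δ / 10) * (1 + δ / 20)) ≤ 1 := by nlinarith [mul_pos hδ hδ]
      calc (1 - δ) * At.card ≤ (1 - δ) * ((1 + δ / 10) * ((1 + δ / 20) * T.card.choose (a + h))) :=
            mul_le_mul_of_nonneg_left e5 (by linarith)
        _ = ((1 - δ) * ((1 + δ / 10) * (1 + δ / 20))) * T.card.choose (a + h) := by ring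
        _ ≤ 1 * T.card.choose (a + h) := mul_le_mul_of_nonneg_right e6 hC.le
        _ = T.card.choose (a + h) := one_mul _
    rw [div_le_iff₀ hC, inv_mul_eq_div, le_div_iff₀ hA]
    exact hx
  · intro S
    by_cases hS : S ∈ At
    · rw [hsum1 S hS, ← one_div]
      refine (div_le_div_of_nonneg_left (by norm_num) hC hc2').trans ?_
      exact div_le_div_of_nonneg_right (by norm_num) hC.le
    · rw [sum_eq_zero fun P _ => hsum0 S hS P]
      positivity
  · rw [← sum_subset (subset_univ At), sum_congr rfl hsum1, sum_const, nsmul_eq_mul]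
    · exact mul_inv_cancel₀ hA.ne'
    · intro S _ hS
      exact sum_eq_zero fun P _ => hsum0 S hS P
  · intro S'
    exact hbd 0 S' (by simpa using p5 S') (by omega)
  · intro S'
    exact hbd (2 * h) S' (p6 S') le_rfl

end Pool.Agent.Lib_helper46.CC

namespace Pool.Agent.Lib_helper46.CC

alias loc_exists := loc_exists_pr

end Pool.Agent.Lib_helper46.CC
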