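import Mathlib
import Pool.Agent.Lib_helper46.CCF.WBase
import Pool.Agent.Lib_helper70.ChainSCD
import Pool.Agent.Lib_helper46.CCF.BIN

/-! Block SCW, written by helper95. -/

/-!
# MP_10b4aa_co: block SCW
-/

set_option autoImplicit false

namespace Pool.Agent.Lib_helper46.CC

open Finset Pool.Agent.Lib_helper70.Chains
open scoped Classical

theorem scw_exp (T L : ℕ) (h2 : 16 * (L + 1) ^ 2 ≤ T) :
    Real.exp (4 * (L : ℝ) * (((1 : ℕ) : ℝ) + 2 * L + 1) / T) ≤ 2 := by
  have hT : (0 : ℝ) < T := by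
    have : 0 < T := lt_of_lt_of_le (by positivity) h2
    exact_mod_cast this
  have h3 : (16 : ℝ) * ((L : ℝ) + 1) ^ 2 ≤ T := by exact_mod_cast h2
  have h4 : 4 * (L : ℝ) * (((1 : ℕ) : ℝ) + 2 * L + 1) / T ≤ 1 / 2 := by
    rw [div_le_div_iff₀ hT (by norm_num)]
    push_cast
    have hL : (0 : ℝ) ≤ L := Nat.cast_nonneg _
    nlinarith
  have h5 : Real.exp (1 / 2) ≤ 2 := by
    have h6 : Real.exp (1 / 2) ^ 2 = Real.exp 1 := by
      rw [← Real.exp_nat_mul]
      norm_num
    have h7 := Real.exp_one_lt_d9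
    nlinarith [Real.exp_pos (1 / 2)]
  exact (Real.exp_le_exp.2 h4).trans h5

/-- Block SCW: window system from a symmetric chain decomposition -/
theorem scw_exists_pr {t : ℕ} (T : Finset (Fin t)) (a L : ℕ) (h1 : a + L ≤ T.card)
    (h2 : 16 * (L + 1) ^ 2 ≤ T.card) :
    ∃ (At : Finset (Finset (Fin t))) (st : Finset (Fin t) → Finset (Fin t)),
      IsSys T a L At st := by
  obtain ⟨𝒟, hD1, hD2, hD3⟩ := scd T
  let win : Finset (Fin t) → Prop := fun A => a ≤ A.card ∧ A.card ≤ a + L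
  let W := 𝒟.filter (fun C => ∃ A ∈ C, win A)
  have hlow : ∀ C ∈ W, ∃ A ∈ C, win A := fun C hC => (Finset.mem_filter.1 hC).2
  choose! low hl1 hl2 using hlow
  choose! ch hc1 hc2 using hD2
  let st : Finset (Fin t) → Finset (Fin t) := fun S => if S ⊆ T ∧ win S then low (ch S) else S
  have hchW : ∀ S, S ⊆ T → win S → ch S ∈ W := fun S hS hw =>
    Finset.mem_filter.2 ⟨hc1 S hS, S, hc2 S hS, hw⟩
  have hst : ∀ S, S ⊆ T → win S → st S = low (ch S) := fun S hS hw => if_pos ⟨hS, hw⟩
  have hlT : ∀ C ∈ W, low C ⊆ T := fun C hC =>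
    (hD1 C (Finset.mem_filter.1 hC).1).2 _ (hl1 C hC)
  refine ⟨W.image low, st, ⟨?_, ?_, ?_, ?_⟩⟩
  · intro B hB
    obtain ⟨C, hC, rfl⟩ := Finset.mem_image.1 hB
    refine ⟨hlT C hC, (hl2 C hC).1, (hl2 C hC).2, ?_⟩
    rw [hst _ (hlT C hC) (hl2 C hC)]
    congr 1
    exact hD3 (low C) _ (hc1 _ (hlT C hC)) C (Finset.mem_filter.1 hC).1 (hc2 _ (hlT C hC))
      (hl1 C hC)
  · intro S hS ha hb
    rw [hst S hS ⟨ha, hb⟩]
    exact Finset.mem_image_of_mem _ (hchW S hS ⟨ha, hb⟩)
  · intro S S' hS hS' ha hab hb heq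
    have hw : win S := ⟨ha, hab.trans hb⟩
    have hw' : win S' := ⟨ha.trans hab, hb⟩
    rw [hst S hS hw, hst S' hS' hw'] at heq
    have h3 : ch S = ch S' := hD3 (low (ch S)) _ (hc1 S hS) _ (hc1 S' hS')
      (hl1 _ (hchW S hS hw)) (by rw [heq]; exact hl1 _ (hchW S' hS' hw'))
    have h4 := (hD1 _ (hc1 S hS)).1.1
    refine chain_subset_of_card h4 (hc2 S hS) ?_ hab
    rw [h3]
    exact hc2 S' hS'
  · have hcard : ∀ l : ℕ, (∀ C ∈ W, ∃ A ∈ C, A.card = l) → W.card ≤ T.card.choose l := by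
      intro l hl
      choose! m hm hmc using hl
      rw [← Finset.card_powersetCard]
      refine Finset.card_le_card_of_injOn m ?_ ?_
      · intro C hC
        rw [Finset.mem_coe, Finset.mem_powersetCard]
        exact ⟨(hD1 C (Finset.mem_filter.1 hC).1).2 _ (hm C hC), hmc C hC⟩
      · intro C hC C' hC' h
        exact hD3 (m C) C (Finset.mem_filter.1 hC).1 C' (Finset.mem_filter.1 hC').1 (hm C hC)
          (by rw [h]; exact hm C' hC')
    have hlev : ∀ l : ℕ, (∀ k A : ℕ, 2 * k ≤ T.card → a ≤ A → A ≤ a + L → k ≤ A →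
        A ≤ T.card - k → k ≤ l ∧ l ≤ T.card - k) → W.card ≤ T.card.choose l := by
      intro l hl
      apply hcard
      intro C hC
      obtain ⟨hch, k, hk, him⟩ := (hD1 C (Finset.mem_filter.1 hC).1).1
      have h5 : (low C).card ∈ C.image Finset.card := Finset.mem_image_of_mem _ (hl1 C hC)
      rw [him, Finset.mem_Icc] at h5
      have h6 := hl k (low C).card hk (hl2 C hC).1 (hl2 C hC).2 h5.1 h5.2
      have h7 : l ∈ C.image Finset.card := by rw [him, Finset.mem_Icc]; exact h6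
      exact Finset.mem_image.1 h7
    refine Finset.card_image_le.trans ?_
    by_cases hA : 2 * (a + L) ≤ T.card
    · refine (hlev (a + L) fun k A hk _ hA2 hkA _ => by omega).trans (Nat.le_add_left _ _)
    by_cases hB : T.card ≤ 2 * a
    · refine (hlev a fun k A hk hA1 _ _ hAT => by omega).trans (Nat.le_add_right _ _)
    · have h3 := hlev (T.card / 2) fun k A hk _ _ _ _ => by omega
      have hx := scw_exp T.card L h2
      have hb1 := bin_ratio T.card (T.card / 2) a L 1 (by rw [abs_le]; omega)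
        (by rw [abs_le]; omega) (by nlinarith)
      have hb2 := bin_ratio T.card (T.card / 2) (a + L) L 1 (by rw [abs_le]; omega)
        (by rw [abs_le]; push_cast; omega) (by nlinarith)
      have h8 : (T.card.choose (T.card / 2) : ℝ) ≤ T.card.choose a + T.card.choose (a + L) := by
        have h9 : (T.card.choose (T.card / 2) : ℝ) ≤ T.card.choose a * 2 :=
          hb1.trans (mul_le_mul_of_nonneg_left hx (Nat.cast_nonneg _))
        have h10 : (T.card.choose (T.card / 2) : ℝ) ≤ T.card.choose (a + L) * 2 :=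
          hb2.trans (mul_le_mul_of_nonneg_left hx (Nat.cast_nonneg _))
        linarith
      exact h3.trans (by exact_mod_cast h8)

end Pool.Agent.Lib_helper46.CC

namespace Pool.Agent.Lib_helper46.CC

alias scw_exists := scw_exists_pr

end Pool.Agent.Lib_helper46.CC
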