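import Mathlib
import Pool.Agent.Lib_helper46.CCF.WBase
import Pool.Agent.Lib_helper46.CCF.LOC
import Pool.Agent.Lib_helper46.CCF.BIN
import Pool.Agent.Lib_helper46.CCF.KHI
import Pool.Agent.Lib_helper46.CCF.SCW

/-! Block KERA, written by helper3. -/

set_option autoImplicit false

namespace Pool.Agent.Lib_helper46.CC

open Finset
open scoped Classical

section KERA

theorem ker_pv_ext {α : Type*} {N N' : ℕ} (hN : N ≤ N') (P : Fin (N + 1) → Finset α) (n : ℕ) :
    pv (fun j : Fin (N' + 1) => pv P (j : ℕ)) n = pv P n := by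
  show P ⟨min (min n N') N, by omega⟩ = P ⟨min n N, by omega⟩
  congr 1
  apply Fin.ext
  show min (min n N') N = min n N
  omega

theorem ker_pv_min {α : Type*} {N : ℕ} (P : Fin (N + 1) → Finset α) (n : ℕ) :
    pv P (min n N) = pv P n := by
  unfold pv
  congr 1
  apply Fin.ext
  show min (min n N) N = min n N
  omega

theorem ker_pv_fin {α : Type*} {N : ℕ} (P : Fin (N + 1) → Finset α) (j : Fin (N + 1)) :
    pv P (j : ℕ) = P j := by
  unfold pv
  congr 1
  apply Fin.ext
  show min (j : ℕ) N = j
  have := j.2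
  omega

/-- the path is constant after time `N` -/
def KerConst {α : Type*} {N' : ℕ} (N : ℕ) (P : Fin (N' + 1) → Finset α) : Prop :=
  ∀ j : Fin (N' + 1), P j = pv P (min (j : ℕ) N)

/-- restriction of a path -/
def kerRes {α : Type*} {N' : ℕ} (N : ℕ) (P : Fin (N' + 1) → Finset α) : Fin (N + 1) → Finset α :=
  fun j => pv P (j : ℕ)

theorem ker_pv_res {α : Type*} {N N' : ℕ} (P : Fin (N' + 1) → Finset α)
    (hP : KerConst N P) (n : ℕ) : pv (kerRes N P) n = pv P n := by
  have h1 : pv (kerRes N P) n = pv P (min n N) := rfl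
  rw [h1]
  have h2 := hP ⟨min n N', by omega⟩
  have h3 : pv P n = P ⟨min n N', by omega⟩ := rfl
  rw [h3, h2]
  show pv P (min n N) = pv P (min (min n N') N)
  rcases Nat.le_total N N' with h | h
  · congr 1
    omega
  · unfold pv
    congr 1
    apply Fin.ext
    show min (min n N) N' = min (min (min n N') N) N'
    omega

theorem ker_ext_const {α : Type*} {N N' : ℕ} (hN : N ≤ N') (P : Fin (N + 1) → Finset α) :
    KerConst N (fun j : Fin (N' + 1) => pv P (j : ℕ)) := by
  intro j
  rw [ker_pv_ext hN]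
  show pv P j = pv P (min (j : ℕ) N)
  rw [ker_pv_min]

theorem ker_res_ext {α : Type*} {N N' : ℕ} (hN : N ≤ N') (P : Fin (N + 1) → Finset α) :
    kerRes N (fun j : Fin (N' + 1) => pv P (j : ℕ)) = P := by
  funext j
  unfold kerRes
  rw [ker_pv_ext hN, ker_pv_fin]

theorem ker_ext_res {α : Type*} {N N' : ℕ} (P : Fin (N' + 1) → Finset α)
    (hP : KerConst N P) : (fun j : Fin (N' + 1) => pv (kerRes N P) (j : ℕ)) = P := by
  funext j
  rw [ker_pv_res P hP, ker_pv_fin]

theorem ker_sum_ext {t N N' : ℕ} (hN : N ≤ N') (F : (Fin (N' + 1) → Finset (Fin t)) → ℝ) :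
    ∑ P : Fin (N' + 1) → Finset (Fin t), (if KerConst N P then F P else 0) =
      ∑ P : Fin (N + 1) → Finset (Fin t), F (fun j => pv P (j : ℕ)) := by
  rw [← Finset.sum_filter]
  refine Finset.sum_nbij' (fun P => kerRes N P) (fun P j => pv P (j : ℕ)) ?_ ?_ ?_ ?_ ?_
  · intro P _
    exact Finset.mem_univ _
  · intro P _
    rw [Finset.mem_filter]
    exact ⟨Finset.mem_univ _, ker_ext_const hN P⟩
  · intro P hP
    rw [Finset.mem_filter] at hP
    exact ker_ext_res P hP.2
  · intro P _
    exact ker_res_ext hN P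
  · intro P hP
    rw [Finset.mem_filter] at hP
    rw [ker_ext_res P hP.2]

variable {r k t h D D2 : ℕ}

/-- the kernel -/
noncomputable def kerK (r k t h D D2 : ℕ)
    (ll : Finset (Fin t) → ℕ → Finset (Fin t) → (Fin (2 * h + 1) → Finset (Fin t)) → ℝ)
    (kl : Finset (Fin t) → ℕ → ℕ → (Fin (k * (2 * h) + 1) → Finset (Fin t)) → ℝ)
    (c : Bool) (M : ℕ) (T S : Finset (Fin t)) (P : Fin (k * (2 * h) + 1) → Finset (Fin t)) : ℝ :=
  if M = 0 then (if S = ∅ ∧ KerConst 0 P ∧ pv P 0 ⊆ T then 1 else 0)
  else if c = false then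
    (if M = 1 ∧ Nice r t D T (((pv P 0).card + h : ℕ) : ℤ) ∧ KerConst (2 * h) P then
      (T.card.choose ((pv P 0).card + h) : ℝ) * ll T (pv P 0).card S (kerRes (2 * h) P) else 0)
  else (if M ≤ k ∧ S = ∅ ∧ Nice r t D2 T (((pv P 0).card + M * h : ℕ) : ℤ) then
      (T.card.choose ((pv P 0).card + M * h) : ℝ) * kl T (pv P 0).card M P else 0)

/-- conclusion of LOC -/
def KerLoc {t : ℕ} (T : Finset (Fin t)) (a h : ℕ) (δ : ℝ) (At : Finset (Finset (Fin t)))
    (st : Finset (Fin t) → Finset (Fin t))
    (law : Finset (Fin t) → (Fin (2 * h + 1) → Finset (Fin t)) → ℝ) : Prop :=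
  IsSys T a (2 * h) At st ∧ (∀ S P, 0 ≤ law S P) ∧
      (∀ S P, law S P ≠ 0 → S ∈ At ∧ (∀ i j, i ≤ j → pv P i ⊆ pv P j) ∧
        (∀ j ≤ 2 * h, pv P j ⊆ T ∧ (pv P j).card = a + j) ∧
        ∀ S', S' ⊆ T → a ≤ S'.card → S'.card ≤ a + 2 * h → st S' = S → pv P (S'.card - a) = S') ∧
      (∀ S ∈ At, (1 - δ) / (T.card.choose (a + h) : ℝ) ≤ ∑ P, law S P) ∧
      (∀ S, ∑ P, law S P ≤ 2 / (T.card.choose (a + h) : ℝ)) ∧
      (∑ S, ∑ P, law S P = 1) ∧
      (∀ S', ∑ S, ∑ P, (if pv P 0 = S' then law S P else 0) ≤ 2 / (T.card.choose (a + h) : ℝ)) ∧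
      (∀ S', ∑ S, ∑ P, (if pv P (2 * h) = S' then law S P else 0) ≤
        2 / (T.card.choose (a + h) : ℝ))

/-- conclusion of KHI -/
def KerKhi {t : ℕ} (T : Finset (Fin t)) (a N N' : ℕ)
    (law : (Fin (N' + 1) → Finset (Fin t)) → ℝ) : Prop :=
  (∀ P, 0 ≤ law P) ∧
      (∀ P, law P ≠ 0 → (∀ i j, i ≤ j → pv P i ⊆ pv P j) ∧
        ∀ j, pv P j ⊆ T ∧ (pv P j).card = a + min j N) ∧
      ∀ j ≤ N, ∀ S, S ⊆ T → S.card = a + j →
        ∑ P, (if pv P j = S then law P else 0) = 1 / (T.card.choose (a + j) : ℝ)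

variable {lA : Finset (Fin t) → ℕ → Finset (Finset (Fin t))}
  {ls : Finset (Fin t) → ℕ → Finset (Fin t) → Finset (Fin t)}
  {ll : Finset (Fin t) → ℕ → Finset (Fin t) → (Fin (2 * h + 1) → Finset (Fin t)) → ℝ}
  {kl : Finset (Fin t) → ℕ → ℕ → (Fin (k * (2 * h) + 1) → Finset (Fin t)) → ℝ} {δ B : ℝ}
  (hk : 1 ≤ k)
  (HL : ∀ T a, Nice r t D T ((a + h : ℕ) : ℤ) → KerLoc T a h δ (lA T a) (ls T a) (ll T a))
  (HK : ∀ T a M, 1 ≤ M → M ≤ k → Nice r t D2 T ((a + M * h : ℕ) : ℤ) →
    KerKhi T a (M * (2 * h)) (k * (2 * h)) (kl T a M))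
  (HB : ∀ T (x : ℤ), (Nice r t D T x ∨ Nice r t D2 T x) →
    ((k * h : ℕ) : ℤ) < x ∧ x + ((k * h : ℕ) : ℤ) ≤ T.card)
  (Hbin : ∀ (T : Finset (Fin t)) (x x' : ℕ), Nice r t D2 T (x : ℤ) →
    |(x : ℤ) - x'| ≤ ((k * h : ℕ) : ℤ) →
    (T.card.choose x : ℝ) ≤ B * (T.card.choose x' : ℝ))
  (hB : 2 ≤ B)

include HL HK in
theorem ker_nonneg (c : Bool) (M : ℕ) (T S : Finset (Fin t))
    (P : Fin (k * (2 * h) + 1) → Finset (Fin t)) : 0 ≤ kerK r k t h D D2 ll kl c M T S P := by
  unfold kerK
  split_ifs with h1 h2 h3 h4 h5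
  · norm_num
  · exact le_rfl
  · exact mul_nonneg (Nat.cast_nonneg _) ((HL T _ h4.2.1).2.1 _ _)
  · exact le_rfl
  · exact mul_nonneg (Nat.cast_nonneg _) ((HK T _ M (by omega) h5.1 h5.2.2).1 _)
  · exact le_rfl

include HL HK in
theorem ker_supp (c : Bool) (M : ℕ) (T S : Finset (Fin t))
    (P : Fin (k * (2 * h) + 1) → Finset (Fin t)) (hK : kerK r k t h D D2 ll kl c M T S P ≠ 0) :
    (∀ i j, i ≤ j → pv P i ⊆ pv P j) ∧
    ∀ j, pv P j ⊆ T ∧ (pv P j).card = (pv P 0).card + min j (M * (2 * h)) := by
  unfold kerK at hK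
  split_ifs at hK with h1 h2 h3 h4 h5
  · have h6 : ∀ n, pv P n = pv P 0 := by
      intro n
      have h7 := h2.2.1 ⟨min n (k * (2 * h)), by omega⟩
      have h8 : pv P n = P ⟨min n (k * (2 * h)), by omega⟩ := rfl
      rw [h8, h7]
      show pv P (min (min n (k * (2 * h))) 0) = pv P 0
      rw [Nat.min_zero]
    subst h1
    refine ⟨fun i j _ => by rw [h6 i, h6 j], fun j => ⟨by rw [h6 j]; exact h2.2.2, ?_⟩⟩
    rw [h6 j]
    simp
  · exact absurd rfl hK
  · have h6 := (HL T _ h4.2.1).2.2.1 _ _ (right_ne_zero_of_mul hK)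
    obtain ⟨-, h7, h8, -⟩ := h6
    have h9 : ∀ n, pv P n = pv (kerRes (2 * h) P) n := fun n => (ker_pv_res P h4.2.2 n).symm
    refine ⟨fun i j hij => by rw [h9 i, h9 j]; exact h7 i j hij, fun j => ?_⟩
    rw [h4.1, one_mul]
    have h10 := h8 (min j (2 * h)) (min_le_right _ _)
    have h11 : pv (kerRes (2 * h) P) (min j (2 * h)) = pv P j := by
      rw [ker_pv_min, ← h9]
    rw [h11] at h10
    exact h10
  · exact absurd rfl hK
  · have h6 := (HK T _ M (by omega) h5.1 h5.2.2).2.1 _ (right_ne_zero_of_mul hK)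
    exact h6
  · exact absurd rfl hK

include HL in
/-- slices of the precise kernel -/
theorem ker_cur (hk : 1 ≤ k) (T S : Finset (Fin t)) (a : ℕ) (Q : (ℕ → Finset (Fin t)) → Prop)
    [DecidablePred Q] :
    ∑ P : Fin (k * (2 * h) + 1) → Finset (Fin t),
      (if Q (pv P) ∧ (pv P 0).card = a then kerK r k t h D D2 ll kl false 1 T S P else 0) =
      if Nice r t D T ((a + h : ℕ) : ℤ) then
        (T.card.choose (a + h) : ℝ) * ∑ P, (if Q (pv P) then ll T a S P else 0) else 0 := by
  have hN : 2 * h ≤ k * (2 * h) := by nlinarith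
  have h1 : ∀ P : Fin (k * (2 * h) + 1) → Finset (Fin t),
      (if Q (pv P) ∧ (pv P 0).card = a then kerK r k t h D D2 ll kl false 1 T S P else 0) =
      (if KerConst (2 * h) P then (if Q (pv P) ∧ (pv P 0).card = a ∧
        Nice r t D T ((a + h : ℕ) : ℤ) then
          (T.card.choose (a + h) : ℝ) * ll T a S (kerRes (2 * h) P) else 0) else 0) := by
    intro P
    unfold kerK
    simp only [one_ne_zero, if_false, if_true, true_and]
    by_cases h2 : KerConst (2 * h) P
    · by_cases h3 : Q (pv P) ∧ (pv P 0).card = a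
      · rw [if_pos h3, if_pos h2]
        by_cases h4 : Nice r t D T ((a + h : ℕ) : ℤ)
        · rw [h3.2, if_pos ⟨h4, h2⟩, if_pos ⟨h3.1, rfl, h4⟩]
        · rw [h3.2, if_neg (fun h5 => h4 h5.1), if_neg (fun h5 => h4 h5.2.2)]
      · rw [if_neg h3, if_pos h2, if_neg (fun h5 => h3 ⟨h5.1, h5.2.1⟩)]
    · rw [if_neg h2]
      by_cases h3 : Q (pv P) ∧ (pv P 0).card = a
      · rw [if_pos h3, if_neg (fun h5 => h2 h5.2)]
      · rw [if_neg h3]
  rw [Finset.sum_congr rfl fun P _ => h1 P, ker_sum_ext hN]
  by_cases h4 : Nice r t D T ((a + h : ℕ) : ℤ)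
  · rw [if_pos h4, Finset.mul_sum]
    refine Finset.sum_congr rfl fun P _ => ?_
    rw [ker_res_ext hN, ker_pv_ext hN]
    have h5 : pv (fun j : Fin (k * (2 * h) + 1) => pv P (j : ℕ)) = pv P := by
      funext n
      exact ker_pv_ext hN P n
    rw [h5]
    by_cases h6 : Q (pv P)
    · rw [if_pos h6]
      by_cases h7 : (pv P 0).card = a
      · rw [if_pos ⟨h6, h7, h4⟩]
      · rw [if_neg (fun h8 => h7 h8.2.1)]
        have h9 : ll T a S P = 0 := by
          by_contra h10
          have h11 := ((HL T a h4).2.2.1 S P h10).2.2.1 0 (Nat.zero_le _)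
          exact h7 (by rw [h11.2, add_zero])
        rw [h9, mul_zero]
    · rw [if_neg h6, if_neg (fun h8 => h6 h8.1), mul_zero]
  · rw [if_neg h4]
    refine Finset.sum_eq_zero fun P _ => ?_
    rw [if_neg (fun h5 => h4 h5.2.2)]

include HL HK in
/-- slices of the rough kernel -/
theorem ker_rough (M : ℕ) (hM : 1 ≤ M) (hMk : M ≤ k) (T : Finset (Fin t)) (a : ℕ)
    (Q : (ℕ → Finset (Fin t)) → Prop) [DecidablePred Q] :
    ∑ S, ∑ P : Fin (k * (2 * h) + 1) → Finset (Fin t),
      (if Q (pv P) ∧ (pv P 0).card = a then kerK r k t h D D2 ll kl true M T S P else 0) =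
      if Nice r t D2 T ((a + M * h : ℕ) : ℤ) then
        (T.card.choose (a + M * h) : ℝ) * ∑ P, (if Q (pv P) then kl T a M P else 0) else 0 := by
  rw [Finset.sum_eq_single (∅ : Finset (Fin t))]
  · by_cases h4 : Nice r t D2 T ((a + M * h : ℕ) : ℤ)
    · rw [if_pos h4, Finset.mul_sum]
      refine Finset.sum_congr rfl fun P _ => ?_
      unfold kerK
      rw [if_neg (by omega : ¬ M = 0), if_neg (by decide : ¬ (true = false))]
      by_cases h6 : Q (pv P)
      · rw [if_pos h6]
        by_cases h7 : (pv P 0).card = a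
        · rw [if_pos ⟨h6, h7⟩, h7, if_pos ⟨hMk, rfl, h4⟩]
        · rw [if_neg (fun h8 => h7 h8.2)]
          have h9 : kl T a M P = 0 := by
            by_contra h10
            have h11 := ((HK T a M hM hMk h4).2.1 P h10).2 0
            exact h7 (by rw [h11.2, Nat.zero_min, add_zero])
          rw [h9, mul_zero]
      · rw [if_neg h6, if_neg (fun h8 => h6 h8.1), mul_zero]
    · rw [if_neg h4]
      refine Finset.sum_eq_zero fun P _ => ?_
      by_cases h7 : Q (pv P) ∧ (pv P 0).card = a
      · rw [if_pos h7]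
        unfold kerK
        rw [if_neg (by omega : ¬ M = 0), if_neg (by decide : ¬ (true = false)), h7.2, if_neg (fun h8 => h4 h8.2.2)]
      · rw [if_neg h7]
  · intro S _ hS
    refine Finset.sum_eq_zero fun P _ => ?_
    have h8 : kerK r k t h D D2 ll kl true M T S P = 0 := by
      unfold kerK
      rw [if_neg (by omega : ¬ M = 0), if_neg (by decide : ¬ (true = false)), if_neg (fun h8 => hS h8.2.1)]
    rw [h8, ite_self]
  · intro h1
    exact absurd (Finset.mem_univ _) h1

/-- the trivial kernel -/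
theorem ker_triv (c : Bool) (T : Finset (Fin t)) (Q : (ℕ → Finset (Fin t)) → Prop)
    [DecidablePred Q] :
    ∑ S, ∑ P : Fin (k * (2 * h) + 1) → Finset (Fin t),
      (if Q (pv P) then kerK r k t h D D2 ll kl c 0 T S P else 0) =
      ∑ S', (if Q (fun _ => S') ∧ S' ⊆ T then 1 else 0) := by
  rw [Finset.sum_eq_single (∅ : Finset (Fin t))]
  · have h1 : ∀ P : Fin (k * (2 * h) + 1) → Finset (Fin t),
        (if Q (pv P) then kerK r k t h D D2 ll kl c 0 T ∅ P else 0) =
        if KerConst 0 P then (if Q (pv P) ∧ pv P 0 ⊆ T then 1 else 0) else 0 := by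
      intro P
      unfold kerK
      rw [if_pos rfl]
      by_cases h2 : Q (pv P) <;> by_cases h3 : KerConst 0 P <;> by_cases h4 : pv P 0 ⊆ T <;>
        simp [h2, h3, h4]
    rw [Finset.sum_congr rfl fun P _ => h1 P, ker_sum_ext (Nat.zero_le _)]
    refine Finset.sum_nbij' (fun P => P 0) (fun S' _ => S') ?_ ?_ ?_ ?_ ?_
    · intro P _; exact Finset.mem_univ _
    · intro P _; exact Finset.mem_univ _
    · intro P _
      funext j
      show P 0 = P j
      congr 1
      apply Fin.ext
      have := j.2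
      show 0 = (j : ℕ)
      omega
    · intro S' _; rfl
    · intro P _
      have h5 : pv (fun j : Fin (k * (2 * h) + 1) => pv P (j : ℕ)) = fun _ => P 0 := by
        funext n
        rw [ker_pv_ext (Nat.zero_le _)]
        unfold pv
        congr 1
        apply Fin.ext
        show min n 0 = 0
        omega
      rw [h5]
  · intro S _ hS
    refine Finset.sum_eq_zero fun P _ => ?_
    have h8 : kerK r k t h D D2 ll kl c 0 T S P = 0 := by
      unfold kerK
      rw [if_pos rfl, if_neg (fun h8 => hS h8.1)]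
    rw [h8, ite_self]
  · intro h1
    exact absurd (Finset.mem_univ _) h1

theorem ker_khi_total {T : Finset (Fin t)} {a N N' : ℕ}
    {law : (Fin (N' + 1) → Finset (Fin t)) → ℝ} (H : KerKhi T a N N' law) (ha : a ≤ T.card) :
    ∑ P, law P = 1 := by
  have h1 : ∀ P, law P = ∑ S ∈ T.powersetCard a, (if pv P 0 = S then law P else 0) := by
    intro P
    by_cases h2 : law P = 0
    · rw [h2]
      simp
    · have h3 := (H.2.1 P h2).2 0
      rw [Nat.zero_min, add_zero] at h3
      rw [Finset.sum_eq_single (pv P 0)]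
      · rw [if_pos rfl]
      · intro S _ hS
        rw [if_neg (fun h => hS h.symm)]
      · intro h4
        exact absurd (Finset.mem_powersetCard.mpr h3) h4
  rw [Finset.sum_congr rfl fun P _ => h1 P, Finset.sum_comm]
  have h2 : ∀ S ∈ T.powersetCard a, ∑ P, (if pv P 0 = S then law P else 0) =
      1 / (T.card.choose a : ℝ) := by
    intro S hS
    rw [Finset.mem_powersetCard] at hS
    have h3 := H.2.2 0 (Nat.zero_le _) S hS.1 (by rw [add_zero]; exact hS.2)
    rw [add_zero] at h3
    exact h3
  rw [Finset.sum_congr rfl h2, Finset.sum_const, Finset.card_powersetCard, nsmul_eq_mul]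
  have h3 : (0 : ℝ) < (T.card.choose a : ℝ) := by exact_mod_cast Nat.choose_pos ha
  field_simp

include HL HK HB in
/-- total mass of a slice -/
theorem ker_slice (hk : 1 ≤ k) (c : Bool) (M : ℕ) (T : Finset (Fin t)) (a : ℕ) (hM0 : 1 ≤ M)
    (hM : M ≤ k) (hc : c = false → M ≤ 1) :
    ∑ S, ∑ P : Fin (k * (2 * h) + 1) → Finset (Fin t),
      (if True ∧ (pv P 0).card = a then kerK r k t h D D2 ll kl c M T S P else 0) =
      if Nice r t (if c = true then D2 else D) T ((a + M * h : ℕ) : ℤ) then
        (T.card.choose (a + M * h) : ℝ) else 0 := by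
  cases c with
  | false =>
    have hM1 : M = 1 := le_antisymm (hc rfl) hM0
    subst hM1
    rw [Finset.sum_congr rfl fun S _ => ker_cur (D2 := D2) (kl := kl) HL hk T S a (fun _ => True)]
    rw [if_neg (by decide : ¬ (false = true)), one_mul]
    by_cases h4 : Nice r t D T ((a + h : ℕ) : ℤ)
    · simp only [if_pos h4, if_true]
      rw [← Finset.mul_sum, (HL T a h4).2.2.2.2.2.1, mul_one]
    · simp only [if_neg h4]
      exact Finset.sum_const_zero
  | true =>
    rw [ker_rough HL HK M hM0 hM T a (fun _ => True)]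
    rw [if_pos rfl]
    by_cases h4 : Nice r t D2 T ((a + M * h : ℕ) : ℤ)
    · rw [if_pos h4, if_pos h4]
      simp only [if_true]
      rw [ker_khi_total (HK T a M hM0 hM h4) ?_, mul_one]
      have h5 := (HB T _ (Or.inr h4)).2
      have h6 : a + M * h ≤ T.card := by
        have h7 : (0 : ℤ) ≤ ((k * h : ℕ) : ℤ) := Int.natCast_nonneg _
        have h8 : ((a + M * h : ℕ) : ℤ) ≤ (T.card : ℤ) := by linarith
        exact_mod_cast h8
      omega
    · rw [if_neg h4, if_neg h4]

include HL HK HB in
theorem ker_mass (hk : 1 ≤ k) (c : Bool) (M J : ℕ) (T : Finset (Fin t)) (a : ℕ) (hJ : J ≤ M)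
    (hM : M ≤ k) (hc : c = false → M ≤ 1) :
    ∑ S, ∑ P : Fin (k * (2 * h) + 1) → Finset (Fin t),
      (if (pv P (J * (2 * h))).card = a then kerK r k t h D D2 ll kl c M T S P else 0) =
      if M = 0 ∨ Nice r t (if c = true then D2 else D) T (a + ((M : ℤ) - 2 * J) * h) then
        ((T.card.choose ((a : ℤ) + ((M : ℤ) - 2 * J) * h).toNat : ℕ) : ℝ) else 0 := by
  rcases Nat.eq_zero_or_pos M with hM0 | hM0
  · subst hM0
    have hJ0 : J = 0 := by omega
    subst hJ0
    rw [ker_triv (D2 := D2) c T (fun p => (p (0 * (2 * h))).card = a), if_pos (Or.inl rfl)]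
    have h1 : ((a : ℤ) + (((0 : ℕ) : ℤ) - 2 * ((0 : ℕ) : ℤ)) * (h : ℤ)).toNat = a := by simp
    rw [h1, ← Finset.card_powersetCard, ← Finset.sum_filter, Finset.sum_const, nsmul_eq_mul,
      mul_one]
    congr 2
    ext S
    rw [Finset.mem_filter, Finset.mem_powersetCard]
    constructor
    · rintro ⟨-, h2, h3⟩
      exact ⟨h3, h2⟩
    · rintro ⟨h2, h3⟩
      exact ⟨Finset.mem_univ _, h3, h2⟩
  · have hJM : J * (2 * h) ≤ M * (2 * h) := Nat.mul_le_mul_right _ hJ
    have hsh : ∀ S (P : Fin (k * (2 * h) + 1) → Finset (Fin t)),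
        kerK r k t h D D2 ll kl c M T S P ≠ 0 →
        (pv P (J * (2 * h))).card = (pv P 0).card + J * (2 * h) := by
      intro S P hP
      have h1 := ((ker_supp HL HK c M T S P hP).2 (J * (2 * h))).2
      rw [Nat.min_eq_left hJM] at h1
      exact h1
    rw [if_congr (or_iff_right (by omega : ¬ M = 0)) rfl rfl]
    rcases Nat.lt_or_ge a (J * (2 * h)) with ha | ha
    · have h1 : ∀ S (P : Fin (k * (2 * h) + 1) → Finset (Fin t)),
          (if (pv P (J * (2 * h))).card = a then kerK r k t h D D2 ll kl c M T S P else 0) = 0 := by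
        intro S P
        by_cases h2 : kerK r k t h D D2 ll kl c M T S P = 0
        · rw [h2, ite_self]
        · rw [if_neg]
          have := hsh S P h2
          omega
      rw [Finset.sum_eq_zero fun S _ => Finset.sum_eq_zero fun P _ => h1 S P, if_neg]
      intro h2
      have h3 : Nice r t D T (a + ((M : ℤ) - 2 * J) * h) ∨
          Nice r t D2 T (a + ((M : ℤ) - 2 * J) * h) := by
        cases c with
        | false => left; simpa using h2
        | true => right; simpa using h2
      have h4 := (HB T _ h3).1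
      push_cast at h4
      have h5 : (a : ℤ) < J * (2 * h) := by exact_mod_cast ha
      have h6 : (M : ℤ) * h ≤ k * h := by
        have : (M : ℤ) ≤ k := by exact_mod_cast hM
        exact mul_le_mul_of_nonneg_right this (Int.natCast_nonneg _)
      nlinarith
    · obtain ⟨a0, rfl⟩ := Nat.exists_eq_add_of_le ha
      have h1 : ∀ S (P : Fin (k * (2 * h) + 1) → Finset (Fin t)),
          (if (pv P (J * (2 * h))).card = J * (2 * h) + a0 then
            kerK r k t h D D2 ll kl c M T S P else 0) =
          (if True ∧ (pv P 0).card = a0 then kerK r k t h D D2 ll kl c M T S P else 0) := by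
        intro S P
        by_cases h2 : kerK r k t h D D2 ll kl c M T S P = 0
        · rw [h2, ite_self, ite_self]
        · have h3 := hsh S P h2
          by_cases h4 : (pv P 0).card = a0
          · rw [if_pos (by omega), if_pos ⟨trivial, h4⟩]
          · rw [if_neg (by omega), if_neg (fun h5 => h4 h5.2)]
      rw [Finset.sum_congr rfl fun S _ => Finset.sum_congr rfl fun P _ => h1 S P,
        ker_slice HL HK HB hk c M T a0 hM0 hM hc]
      have h2 : (((J * (2 * h) + a0 : ℕ) : ℤ) + ((M : ℤ) - 2 * J) * h) =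
          ((a0 + M * h : ℕ) : ℤ) := by
        push_cast
        ring
      rw [h2, Int.toNat_natCast]

include HL HK HB Hbin hB in
theorem ker_dens (hk : 1 ≤ k) (c : Bool) (M J : ℕ) (T S' : Finset (Fin t)) (hJ : J ≤ M)
    (hM : M ≤ k) (hc : c = false → M ≤ 1) :
    ∑ S, ∑ P : Fin (k * (2 * h) + 1) → Finset (Fin t),
      (if pv P (J * (2 * h)) = S' then kerK r k t h D D2 ll kl c M T S P else 0) ≤
      if M = 0 then 1 else B := by
  rcases Nat.eq_zero_or_pos M with hM0 | hM0
  · subst hM0
    rw [ker_triv (D2 := D2) c T (fun p => p (J * (2 * h)) = S'), if_pos rfl,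
      Finset.sum_eq_single S']
    · split_ifs <;> norm_num
    · intro S'' _ h1
      rw [if_neg (fun h2 => h1 h2.1)]
    · intro h1
      exact absurd (Finset.mem_univ _) h1
  · rw [if_neg (by omega)]
    have hJM : J * (2 * h) ≤ M * (2 * h) := Nat.mul_le_mul_right _ hJ
    have hsh : ∀ S (P : Fin (k * (2 * h) + 1) → Finset (Fin t)),
        kerK r k t h D D2 ll kl c M T S P ≠ 0 →
        (pv P (J * (2 * h))).card = (pv P 0).card + J * (2 * h) := by
      intro S P hP
      have h1 := ((ker_supp HL HK c M T S P hP).2 (J * (2 * h))).2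
      rw [Nat.min_eq_left hJM] at h1
      exact h1
    rcases Nat.lt_or_ge S'.card (J * (2 * h)) with ha | ha
    · have h1 : ∀ S (P : Fin (k * (2 * h) + 1) → Finset (Fin t)),
          (if pv P (J * (2 * h)) = S' then kerK r k t h D D2 ll kl c M T S P else 0) = 0 := by
        intro S P
        by_cases h2 : kerK r k t h D D2 ll kl c M T S P = 0
        · rw [h2, ite_self]
        · rw [if_neg]
          intro h3
          have := hsh S P h2
          rw [h3] at this
          omega
      rw [Finset.sum_eq_zero fun S _ => Finset.sum_eq_zero fun P _ => h1 S P]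
      linarith
    · obtain ⟨a0, ha0⟩ := Nat.exists_eq_add_of_le ha
      have h1 : ∀ S (P : Fin (k * (2 * h) + 1) → Finset (Fin t)),
          (if pv P (J * (2 * h)) = S' then kerK r k t h D D2 ll kl c M T S P else 0) =
          (if pv P (J * (2 * h)) = S' ∧ (pv P 0).card = a0 then
            kerK r k t h D D2 ll kl c M T S P else 0) := by
        intro S P
        by_cases h2 : kerK r k t h D D2 ll kl c M T S P = 0
        · rw [h2, ite_self, ite_self]
        · have h3 := hsh S P h2
          by_cases h4 : pv P (J * (2 * h)) = S'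
          · rw [if_pos h4, if_pos ⟨h4, by rw [h4] at h3; omega⟩]
          · rw [if_neg h4, if_neg (fun h5 => h4 h5.1)]
      rw [Finset.sum_congr rfl fun S _ => Finset.sum_congr rfl fun P _ => h1 S P]
      cases c with
      | false =>
        have hM1 : M = 1 := le_antisymm (hc rfl) hM0
        subst hM1
        rw [Finset.sum_congr rfl fun S _ => ker_cur (D2 := D2) (kl := kl) HL hk T S a0
          (fun p => p (J * (2 * h)) = S')]
        by_cases h4 : Nice r t D T ((a0 + h : ℕ) : ℤ)
        · simp only [if_pos h4]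
          rw [← Finset.mul_sum]
          have h5 : ∑ S, ∑ P, (if pv P (J * (2 * h)) = S' then ll T a0 S P else 0) ≤
              2 / (T.card.choose (a0 + h) : ℝ) := by
            rcases Nat.eq_zero_or_pos J with hJ0 | hJ0
            · subst hJ0
              rw [Nat.zero_mul]
              exact (HL T a0 h4).2.2.2.2.2.2.1 S'
            · have hJ1 : J = 1 := by omega
              subst hJ1
              rw [one_mul]
              exact (HL T a0 h4).2.2.2.2.2.2.2 S'
          have h6 : (0 : ℝ) ≤ (T.card.choose (a0 + h) : ℝ) := Nat.cast_nonneg _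
          calc (T.card.choose (a0 + h) : ℝ) *
              ∑ S, ∑ P, (if pv P (J * (2 * h)) = S' then ll T a0 S P else 0) ≤
              (T.card.choose (a0 + h) : ℝ) * (2 / (T.card.choose (a0 + h) : ℝ)) :=
                mul_le_mul_of_nonneg_left h5 h6
            _ ≤ 2 := by
                rcases h6.eq_or_lt with h7 | h7
                · rw [← h7]; norm_num
                · rw [mul_div_cancel₀ _ h7.ne']
            _ ≤ B := hB
        · simp only [if_neg h4]
          rw [Finset.sum_const_zero]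
          linarith
      | true =>
        rw [ker_rough HL HK M hM0 hM T a0 (fun p => p (J * (2 * h)) = S')]
        by_cases h4 : Nice r t D2 T ((a0 + M * h : ℕ) : ℤ)
        · rw [if_pos h4]
          have hKH := HK T a0 M hM0 hM h4
          by_cases hS' : S' ⊆ T
          · rw [hKH.2.2 (J * (2 * h)) hJM S' hS' (by omega)]
            have h5 := Hbin T (a0 + M * h) (a0 + J * (2 * h)) h4 (by
              push_cast
              have e1 : (J : ℤ) ≤ M := by exact_mod_cast hJ
              have e2 : (M : ℤ) ≤ k := by exact_mod_cast hM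
              have e3 : (0 : ℤ) ≤ h := Int.natCast_nonneg _
              have e4 : (0 : ℤ) ≤ J := Int.natCast_nonneg _
              rw [abs_le]
              constructor <;> nlinarith)
            have h6 : a0 + J * (2 * h) ≤ T.card := by
              have h7 := (HB T _ (Or.inr h4)).2
              have h8 : a0 + M * h + k * h ≤ T.card := by exact_mod_cast h7
              have h9 : J * (2 * h) ≤ M * h + k * h := by nlinarith
              omega
            have h7 : (0 : ℝ) < (T.card.choose (a0 + J * (2 * h)) : ℝ) := by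
              exact_mod_cast Nat.choose_pos h6
            rw [mul_one_div, div_le_iff₀ h7]
            exact h5
          · have h5 : ∀ P : Fin (k * (2 * h) + 1) → Finset (Fin t),
                (if pv P (J * (2 * h)) = S' then kl T a0 M P else 0) = 0 := by
              intro P
              by_cases h6 : kl T a0 M P = 0
              · rw [h6, ite_self]
              · rw [if_neg]
                intro h7
                have h8 := ((hKH.2.1 P h6).2 (J * (2 * h))).1
                rw [h7] at h8
                exact hS' h8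
            rw [Finset.sum_eq_zero fun P _ => h5 P, mul_zero]
            linarith
        · rw [if_neg h4]
          linarith

include HL HK HB Hbin hB in
/-- assembly of the kernel -/
theorem ker_build (hk : 1 ≤ k)
    (sA : Finset (Fin t) → ℕ → Finset (Finset (Fin t)))
    (ss : Finset (Fin t) → ℕ → Finset (Fin t) → Finset (Fin t))
    (HS : ∀ T a, Okk r t h T a → IsSys T a (2 * h) (sA T a) (ss T a)) (hδ : δ ≤ 1) :
    Nonempty (Ker r k t h D D2 δ B) := by
  refine ⟨{
    At := fun T a => if Nice r t D T ((a + h : ℕ) : ℤ) then lA T a else sA T a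
    st := fun T a => if Nice r t D T ((a + h : ℕ) : ℤ) then ls T a else ss T a
    isSys := ?_
    K := kerK r k t h D D2 ll kl
    nonneg := fun c M T S P => ker_nonneg HL HK c M T S P
    oneB := by linarith
    le_B := ?_
    supp := fun c M T S P hP => ker_supp HL HK c M T S P hP
    mass := fun c M J T a hJ hM hc => ker_mass HL HK HB hk c M J T a hJ hM hc
    dens := fun c M J T S' hJ hM hc => ker_dens HL HK HB Hbin hB hk c M J T S' hJ hM hc
    zero := ?_
    cur_ge := ?_
    cur_le := ?_
    cur_sub := ?_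
    cur_supp := ?_ }⟩
  · intro T a hOk
    show IsSys T a (2 * h) (if Nice r t D T ((a + h : ℕ) : ℤ) then lA T a else sA T a)
      (if Nice r t D T ((a + h : ℕ) : ℤ) then ls T a else ss T a)
    by_cases h4 : Nice r t D T ((a + h : ℕ) : ℤ)
    · rw [if_pos h4, if_pos h4]
      exact (HL T a h4).1
    · rw [if_neg h4, if_neg h4]
      exact HS T a hOk
  · intro c M T S P
    show kerK r k t h D D2 ll kl c M T S P ≤ if M = 0 then 1 else B
    rcases Nat.eq_zero_or_pos M with hM0 | hM0
    · subst hM0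
      unfold kerK
      rw [if_pos rfl, if_pos rfl]
      split_ifs <;> norm_num
    · by_cases h5 : kerK r k t h D D2 ll kl c M T S P = 0
      · rw [h5, if_neg (by omega)]
        linarith
      · have h6 : M ≤ k ∧ (c = false → M ≤ 1) := by
          unfold kerK at h5
          rw [if_neg (by omega)] at h5
          split_ifs at h5 with h7 h8 h9
          · exact ⟨by omega, fun _ => by omega⟩
          · exact absurd rfl h5
          · exact ⟨h9.1, fun h => absurd h h7⟩
          · exact absurd rfl h5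
        refine le_trans ?_ (ker_dens HL HK HB Hbin hB hk c M 0 T (pv P 0) (Nat.zero_le _)
          h6.1 h6.2)
        have h7 : ∀ S' ∈ (univ : Finset (Finset (Fin t))), (0 : ℝ) ≤
            ∑ P' : Fin (k * (2 * h) + 1) → Finset (Fin t),
            (if pv P' (0 * (2 * h)) = pv P 0 then kerK r k t h D D2 ll kl c M T S' P' else 0) :=
          fun S' _ => Finset.sum_nonneg fun P' _ => by
            split_ifs
            · exact ker_nonneg HL HK c M T S' P'
            · exact le_rfl
        refine le_trans ?_ (Finset.single_le_sum h7 (Finset.mem_univ S))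
        have h8 : ∀ P' ∈ (univ : Finset (Fin (k * (2 * h) + 1) → Finset (Fin t))), (0 : ℝ) ≤
            (if pv P' (0 * (2 * h)) = pv P 0 then kerK r k t h D D2 ll kl c M T S P' else 0) :=
          fun P' _ => by
            split_ifs
            · exact ker_nonneg HL HK c M T S P'
            · exact le_rfl
        refine le_trans ?_ (Finset.single_le_sum h8 (Finset.mem_univ P))
        rw [Nat.zero_mul, if_pos rfl]
  · intro c T S' hS'
    show ∑ S, ∑ P : Fin (k * (2 * h) + 1) → Finset (Fin t),
      (if pv P 0 = S' then kerK r k t h D D2 ll kl c 0 T S P else 0) = 1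
    rw [ker_triv (D2 := D2) c T (fun p => p 0 = S'), Finset.sum_eq_single S']
    · rw [if_pos ⟨rfl, hS'⟩]
    · intro S'' _ h1
      rw [if_neg (fun h2 => h1 h2.1)]
    · intro h1
      exact absurd (Finset.mem_univ _) h1
  · intro T a S _ hN hS
    have hN2 : Nice r t D T ((a + h : ℕ) : ℤ) := by
      push_cast
      exact hN
    have hS2 : S ∈ lA T a := by
      have h5 : S ∈ (if Nice r t D T ((a + h : ℕ) : ℤ) then lA T a else sA T a) := hS
      rwa [if_pos hN2] at h5
    show 1 - δ ≤ ∑ P : Fin (k * (2 * h) + 1) → Finset (Fin t),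
      (if (pv P 0).card = a then kerK r k t h D D2 ll kl false 1 T S P else 0)
    have h6 := ker_cur (D2 := D2) (kl := kl) HL hk T S a (fun _ => True)
    simp only [true_and, if_true] at h6
    rw [h6, if_pos hN2]
    have h7 := (HL T a hN2).2.2.2.1 S hS2
    have h8 : a + h ≤ T.card := by
      have h9 := (HB T _ (Or.inl hN2)).2
      have h10 : a + h + k * h ≤ T.card := by exact_mod_cast h9
      omega
    have h9 : (0 : ℝ) < (T.card.choose (a + h) : ℝ) := by exact_mod_cast Nat.choose_pos h8
    rw [div_le_iff₀ h9] at h7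
    linarith
  · intro T a S
    show ∑ P : Fin (k * (2 * h) + 1) → Finset (Fin t),
      (if (pv P 0).card = a then kerK r k t h D D2 ll kl false 1 T S P else 0) ≤ B
    have h6 := ker_cur (D2 := D2) (kl := kl) HL hk T S a (fun _ => True)
    simp only [true_and, if_true] at h6
    rw [h6]
    by_cases hN2 : Nice r t D T ((a + h : ℕ) : ℤ)
    · rw [if_pos hN2]
      have h7 := (HL T a hN2).2.2.2.2.1 S
      have h8 : (0 : ℝ) ≤ (T.card.choose (a + h) : ℝ) := Nat.cast_nonneg _
      calc (T.card.choose (a + h) : ℝ) * ∑ P, ll T a S P ≤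
          (T.card.choose (a + h) : ℝ) * (2 / (T.card.choose (a + h) : ℝ)) :=
            mul_le_mul_of_nonneg_left h7 h8
        _ ≤ 2 := by
            rcases h8.eq_or_lt with h7 | h7
            · rw [← h7]; norm_num
            · rw [mul_div_cancel₀ _ h7.ne']
        _ ≤ B := hB
    · rw [if_neg hN2]
      linarith
  · intro T S P hP
    have h5 : kerK r k t h D D2 ll kl false 1 T S P ≠ 0 := hP
    unfold kerK at h5
    rw [if_neg (by omega), if_pos rfl] at h5
    split_ifs at h5 with h7
    · have h8 := (HL T _ h7.2.1).2.2.1 _ _ (right_ne_zero_of_mul h5)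
      exact ((HL T _ h7.2.1).1.At_sub _ h8.1).1
    · exact absurd rfl h5
  · intro T S P hP _ S' hS' h1 h2 h3
    have h5 : kerK r k t h D D2 ll kl false 1 T S P ≠ 0 := hP
    have h6 : (if Nice r t D T (((pv P 0).card + h : ℕ) : ℤ) then ls T (pv P 0).card
      else ss T (pv P 0).card) S' = S := h3
    unfold kerK at h5
    rw [if_neg (by omega), if_pos rfl] at h5
    split_ifs at h5 with h7
    · rw [if_pos h7.2.1] at h6
      have h8 := (HL T _ h7.2.1).2.2.1 _ _ (right_ne_zero_of_mul h5)
      have h9 := h8.2.2.2 S' hS' h1 h2 h6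
      rw [ker_pv_res P h7.2.2] at h9
      exact h9
    · exact absurd rfl h5

end KERA

end Pool.Agent.Lib_helper46.CC
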