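import Mathlib
import Pool.Agent.Lib_helper46.CCF.WBase
import Pool.Agent.Lib_helper46.CCF.KERA
import Pool.Agent.Lib_helper46.CCF.LOC
import Pool.Agent.Lib_helper46.CCF.BIN
import Pool.Agent.Lib_helper46.CCF.KHI
import Pool.Agent.Lib_helper46.CCF.SCW

/-! Block KER, written by helper3. -/

set_option autoImplicit false

namespace Pool.Agent.Lib_helper46.CC

open Finset
open scoped Classical

section KER

/-- lower bound for `t` -/
theorem ker_n_le {r q n t z y h : ℕ} {K : ℝ} (hq : 2 ≤ q) (H : Reg r q K n t z y h) :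
    (n : ℝ) ≤ 2 * (q : ℝ) ^ 16 * (((r : ℝ) + 1) * t) := by
  have h1 : (n : ℝ) = y + r * z + (q : ℝ) ^ 16 * (((r : ℝ) + 1) * t) := by
    have := H.sum
    exact_mod_cast this
  have h2 : (q : ℝ) ^ 4 * y ≤ 2 * n := by exact_mod_cast H.y_le
  have h3 : (q : ℝ) ^ 4 * (r * z) ≤ 2 * n := by exact_mod_cast H.z_le
  have hq2 : (2 : ℝ) ≤ q := by exact_mod_cast hq
  have h4 : (16 : ℝ) ≤ (q : ℝ) ^ 4 := by
    calc (16 : ℝ) = 2 ^ 4 := by norm_num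
      _ ≤ (q : ℝ) ^ 4 := pow_le_pow_left₀ (by norm_num) hq2 4
  have h5 : (0 : ℝ) ≤ n := Nat.cast_nonneg _
  set X := (q : ℝ) ^ 16 * (((r : ℝ) + 1) * t) with hX
  have h6 : (q : ℝ) ^ 4 * n ≤ 4 * n + (q : ℝ) ^ 4 * X := by
    calc (q : ℝ) ^ 4 * n = (q : ℝ) ^ 4 * y + (q : ℝ) ^ 4 * (r * z) + (q : ℝ) ^ 4 * X := by
          rw [h1]; ring
      _ ≤ _ := by linarith
  have h7 : (q : ℝ) ^ 4 * (n / 2) ≤ (q : ℝ) ^ 4 * X := by nlinarith
  have h8 : (n : ℝ) / 2 ≤ X := le_of_mul_le_mul_left h7 (by linarith)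
  have h9 : 2 * (q : ℝ) ^ 16 * (((r : ℝ) + 1) * t) = 2 * X := by rw [hX]; ring
  rw [h9]
  linarith

/-- Block KER: existence of the kernels -/
theorem ker_exists_pr (r : ℕ) (hr : 1 ≤ r) (K δ : ℝ) (hK : 0 < K) (hδ : 0 < δ) (hδ1 : δ ≤ 1) :
    ∃ q0 : ℕ, ∀ q ≥ q0, ∃ B : ℝ, ∃ n0 : ℕ, ∀ n ≥ n0, ∀ t z y h : ℕ, Reg r q K n t z y h →
      Nonempty (Ker r (q ^ 14) t h (DA q t) (DB q t) δ B) := by
  set R : ℝ := (r : ℝ) + 1 with hR
  have hR1 : 1 ≤ R := by rw [hR]; linarith [Nat.cast_nonneg (α := ℝ) r]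
  set c : ℝ := K * Real.sqrt (2 * R) with hc
  have hc0 : 0 ≤ c := by positivity
  obtain ⟨q1, hq1⟩ := exists_nat_gt (1000 * (c + 4) * (c + 2) * R / δ + 64 * (c + 2) ^ 2 * R)
  refine ⟨q1 + 2, fun q hq => ?_⟩
  have hq2 : 2 ≤ q := by omega
  have hqr : (2 : ℝ) ≤ q := by exact_mod_cast hq2
  have hq1' : (q1 : ℝ) ≤ q := by exact_mod_cast (by omega : q1 ≤ q)
  have hqp : ∀ j : ℕ, 1 ≤ j → (q : ℝ) ≤ (q : ℝ) ^ j := fun j hj => by
    calc (q : ℝ) = (q : ℝ) ^ 1 := (pow_one _).symm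
      _ ≤ _ := pow_le_pow_right₀ (by linarith) hj
  have hA0 : 0 ≤ 1000 * (c + 4) * (c + 2) * R / δ := by positivity
  have hA1 : 0 ≤ 64 * (c + 2) ^ 2 * R := by positivity
  have hqA : 1000 * (c + 4) * (c + 2) * R ≤ δ * (q : ℝ) ^ 4 := by
    have h1 := hqp 4 (by norm_num)
    have h2 : 1000 * (c + 4) * (c + 2) * R / δ ≤ (q : ℝ) ^ 4 := by linarith
    rw [div_le_iff₀ hδ] at h2
    linarith
  have hqB : 64 * (c + 2) ^ 2 * R ≤ (q : ℝ) ^ 12 := by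
    have h1 := hqp 12 (by norm_num)
    linarith
  set L : ℝ := 4 * ((c + 1) * (q : ℝ) ^ 8) * (2 * (q : ℝ) ^ 10 + 2 * ((c + 1) * (q : ℝ) ^ 8) + 1)
    * R with hL
  set S0 : ℝ := (q : ℝ) ^ 8 + R * (4 * (q : ℝ) ^ 10 + 4 * ((c + 1) * (q : ℝ) ^ 8) + 2) with hS0
  have hS00 : 0 ≤ S0 := by positivity
  obtain ⟨n0, hn0⟩ := exists_nat_gt (2 * (q : ℝ) ^ 16 * (R * S0 ^ 2))
  refine ⟨max 2 (Real.exp L), n0, fun n hn t z y h H => ?_⟩
  have hnt := ker_n_le hq2 H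
  rw [← hR] at hnt
  set s : ℝ := Real.sqrt t with hs
  have hs0 : 0 ≤ s := Real.sqrt_nonneg _
  have hss : s ^ 2 = t := Real.sq_sqrt (Nat.cast_nonneg _)
  have hsS : S0 ≤ s := by
    have h1 : (n0 : ℝ) ≤ n := by exact_mod_cast hn
    have h2 : 2 * (q : ℝ) ^ 16 * (R * S0 ^ 2) ≤ 2 * (q : ℝ) ^ 16 * (R * t) := by linarith
    have h3 : S0 ^ 2 ≤ t := by
      have h4 : 0 < 2 * (q : ℝ) ^ 16 * R := by positivity
      refine le_of_mul_le_mul_left ?_ h4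
      calc 2 * (q : ℝ) ^ 16 * R * S0 ^ 2 = 2 * (q : ℝ) ^ 16 * (R * S0 ^ 2) := by ring
        _ ≤ _ := h2
        _ = _ := by ring
    rw [← hss] at h3
    exact le_of_sq_le_sq h3 hs0
  have hq8 : (q : ℝ) ^ 8 ≤ s := by
    have : 0 ≤ R * (4 * (q : ℝ) ^ 10 + 4 * ((c + 1) * (q : ℝ) ^ 8) + 2) := by positivity
    linarith
  have hq8a : (1 : ℝ) ≤ (q : ℝ) ^ 8 := one_le_pow₀ (by linarith)
  have hs1 : 1 ≤ s := by linarith
  have hq6 : (q : ℝ) ^ 6 ≤ s := by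
    have h1 : (q : ℝ) ^ 6 ≤ (q : ℝ) ^ 8 := pow_le_pow_right₀ (by linarith) (by norm_num)
    linarith
  have hsR : R * (4 * (q : ℝ) ^ 10 + 4 * ((c + 1) * (q : ℝ) ^ 8) + 2) ≤ s := by
    have : 0 ≤ (q : ℝ) ^ 8 := by positivity
    linarith
  -- bound for `h`
  have hsn : Real.sqrt n ≤ (q : ℝ) ^ 8 * Real.sqrt (2 * R) * s := by
    have h1 : Real.sqrt n ≤ Real.sqrt (2 * (q : ℝ) ^ 16 * (R * t)) := Real.sqrt_le_sqrt hnt
    have h2 : 2 * (q : ℝ) ^ 16 * (R * t) = ((q : ℝ) ^ 8 * Real.sqrt (2 * R) * s) ^ 2 := by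
      rw [mul_pow, mul_pow, hss, Real.sq_sqrt (by positivity)]
      ring
    rw [h2, Real.sqrt_sq (by positivity)] at h1
    exact h1
  have hkh : (q : ℝ) ^ 14 * h ≤ c * (q : ℝ) ^ 8 * s + (q : ℝ) ^ 14 := by
    refine H.h_le.trans ?_
    have h1 : K * Real.sqrt n ≤ K * ((q : ℝ) ^ 8 * Real.sqrt (2 * R) * s) :=
      mul_le_mul_of_nonneg_left hsn hK.le
    have h2 : K * ((q : ℝ) ^ 8 * Real.sqrt (2 * R) * s) = c * (q : ℝ) ^ 8 * s := by
      rw [hc]; ring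
    linarith
  have hkh2 : (q : ℝ) ^ 14 * h ≤ (c + 1) * (q : ℝ) ^ 8 * s := by
    have h1 : (q : ℝ) ^ 14 ≤ (q : ℝ) ^ 8 * s := by
      calc (q : ℝ) ^ 14 = (q : ℝ) ^ 8 * (q : ℝ) ^ 6 := by ring
        _ ≤ _ := mul_le_mul_of_nonneg_left hq6 (by positivity)
    linarith
  have hh1 : (q : ℝ) ^ 6 * ((h : ℝ) + 1) ≤ (c + 2) * s := by
    have h1 : (q : ℝ) ^ 8 * ((q : ℝ) ^ 6 * h) ≤ (q : ℝ) ^ 8 * (c * s + (q : ℝ) ^ 6) := by
      calc (q : ℝ) ^ 8 * ((q : ℝ) ^ 6 * h) = (q : ℝ) ^ 14 * h := by ring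
        _ ≤ _ := hkh
        _ = _ := by ring
    have h2 : (q : ℝ) ^ 6 * h ≤ c * s + (q : ℝ) ^ 6 :=
      le_of_mul_le_mul_left h1 (by positivity)
    linarith
  have hh2 : (h : ℝ) + 1 ≤ (c + 2) * s := by
    have h1 : (1 : ℝ) ≤ (q : ℝ) ^ 6 := one_le_pow₀ (by linarith)
    have h2 : (h : ℝ) + 1 ≤ (q : ℝ) ^ 6 * ((h : ℝ) + 1) := by
      have : (0 : ℝ) ≤ (h : ℝ) + 1 := by positivity
      nlinarith
    linarith
  -- bounds for `DA`, `DB`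
  have hsq : (Nat.sqrt t : ℝ) ≤ s := Real.nat_sqrt_le_real_sqrt
  have hDA : (DA q t : ℝ) ≤ 2 * (q : ℝ) ^ 2 * s := by
    unfold DA
    push_cast
    have : (Nat.sqrt t : ℝ) + 1 ≤ 2 * s := by linarith
    calc (q : ℝ) ^ 2 * ((Nat.sqrt t : ℝ) + 1) ≤ (q : ℝ) ^ 2 * (2 * s) :=
        mul_le_mul_of_nonneg_left this (by positivity)
      _ = _ := by ring
  have hDB : (DB q t : ℝ) ≤ 2 * (q : ℝ) ^ 10 * s := by
    unfold DB
    push_cast
    have : (Nat.sqrt t : ℝ) + 1 ≤ 2 * s := by linarith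
    calc (q : ℝ) ^ 10 * ((Nat.sqrt t : ℝ) + 1) ≤ (q : ℝ) ^ 10 * (2 * s) :=
        mul_le_mul_of_nonneg_left this (by positivity)
      _ = _ := by ring
  have hDAB : DA q t ≤ DB q t := by
    unfold DA DB
    exact Nat.mul_le_mul_right _ (Nat.pow_le_pow_right (by omega) (by norm_num))
  have hT : ∀ T : Finset (Fin t), t ≤ (r + 1) * T.card → (t : ℝ) ≤ R * T.card := by
    intro T hT
    rw [hR]
    exact_mod_cast hT
  -- (F2)
  have F2 : ∀ T : Finset (Fin t), t ≤ (r + 1) * T.card →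
      1000 * ((DA q t : ℝ) + h + 1) * ((h : ℝ) + 1) ≤ δ * T.card := by
    intro T hTt
    have h1 : (DA q t : ℝ) + h + 1 ≤ (c + 4) * (q : ℝ) ^ 2 * s := by
      have h2 : (c + 2) * s ≤ (c + 2) * (q : ℝ) ^ 2 * s := by
        have h3 : (1 : ℝ) ≤ (q : ℝ) ^ 2 := one_le_pow₀ (by linarith)
        have h4 : 0 ≤ (c + 2) * s := by positivity
        nlinarith
      linarith
    have h5 : (q : ℝ) ^ 6 * (1000 * ((DA q t : ℝ) + h + 1) * ((h : ℝ) + 1)) ≤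
        1000 * ((c + 4) * (q : ℝ) ^ 2 * s) * ((c + 2) * s) := by
      calc (q : ℝ) ^ 6 * (1000 * ((DA q t : ℝ) + h + 1) * ((h : ℝ) + 1)) =
          (1000 * ((DA q t : ℝ) + h + 1)) * ((q : ℝ) ^ 6 * ((h : ℝ) + 1)) := by ring
        _ ≤ (1000 * ((c + 4) * (q : ℝ) ^ 2 * s)) * ((c + 2) * s) :=
          mul_le_mul (mul_le_mul_of_nonneg_left h1 (by norm_num)) hh1 (by positivity)
            (by positivity)
        _ = _ := by ring
    have h6 : 1000 * ((c + 4) * (q : ℝ) ^ 2 * s) * ((c + 2) * s) ≤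
        (q : ℝ) ^ 6 * (δ * T.card) := by
      have h7 : 1000 * ((c + 4) * (q : ℝ) ^ 2 * s) * ((c + 2) * s) =
          (1000 * (c + 4) * (c + 2)) * (q : ℝ) ^ 2 * t := by rw [← hss]; ring
      rw [h7]
      calc (1000 * (c + 4) * (c + 2)) * (q : ℝ) ^ 2 * t ≤
          (1000 * (c + 4) * (c + 2)) * (q : ℝ) ^ 2 * (R * T.card) :=
            mul_le_mul_of_nonneg_left (hT T hTt) (by positivity)
        _ = (1000 * (c + 4) * (c + 2) * R) * ((q : ℝ) ^ 2 * T.card) := by ring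
        _ ≤ (δ * (q : ℝ) ^ 4) * ((q : ℝ) ^ 2 * T.card) :=
            mul_le_mul_of_nonneg_right hqA (by positivity)
        _ = _ := by ring
    exact le_of_mul_le_mul_left (h5.trans h6) (by positivity)
  -- (F3)
  have F3 : ∀ T : Finset (Fin t), t ≤ (r + 1) * T.card → 16 * (2 * h + 1) ^ 2 ≤ T.card := by
    intro T hTt
    have h1 : (q : ℝ) ^ 12 * (16 * (2 * (h : ℝ) + 1) ^ 2) ≤ (q : ℝ) ^ 12 * T.card := by
      have h2 : (2 * (h : ℝ) + 1) ^ 2 ≤ (2 * ((h : ℝ) + 1)) ^ 2 :=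
        pow_le_pow_left₀ (by positivity) (by linarith) 2
      have h3 : ((q : ℝ) ^ 6 * ((h : ℝ) + 1)) ^ 2 ≤ ((c + 2) * s) ^ 2 :=
        pow_le_pow_left₀ (by positivity) hh1 2
      calc (q : ℝ) ^ 12 * (16 * (2 * (h : ℝ) + 1) ^ 2) ≤
          (q : ℝ) ^ 12 * (16 * (2 * ((h : ℝ) + 1)) ^ 2) :=
            mul_le_mul_of_nonneg_left (mul_le_mul_of_nonneg_left h2 (by norm_num))
              (by positivity)
        _ = 64 * ((q : ℝ) ^ 6 * ((h : ℝ) + 1)) ^ 2 := by ring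
        _ ≤ 64 * ((c + 2) * s) ^ 2 := mul_le_mul_of_nonneg_left h3 (by norm_num)
        _ = 64 * (c + 2) ^ 2 * t := by rw [← hss]; ring
        _ ≤ 64 * (c + 2) ^ 2 * (R * T.card) :=
            mul_le_mul_of_nonneg_left (hT T hTt) (by positivity)
        _ = (64 * (c + 2) ^ 2 * R) * T.card := by ring
        _ ≤ _ := mul_le_mul_of_nonneg_right hqB (Nat.cast_nonneg _)
    have h4 : 16 * (2 * (h : ℝ) + 1) ^ 2 ≤ T.card := le_of_mul_le_mul_left h1 (by positivity)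
    exact_mod_cast h4
  -- (F4)
  have F4r : ∀ T : Finset (Fin t), t ≤ (r + 1) * T.card →
      2 * ((DB q t : ℝ) + 2 * ((q : ℝ) ^ 14 * h)) + 2 ≤ T.card := by
    intro T hTt
    have h1 : 2 * ((DB q t : ℝ) + 2 * ((q : ℝ) ^ 14 * h)) + 2 ≤
        (4 * (q : ℝ) ^ 10 + 4 * ((c + 1) * (q : ℝ) ^ 8) + 2) * s := by
      linarith
    have h2 : R * (2 * ((DB q t : ℝ) + 2 * ((q : ℝ) ^ 14 * h)) + 2) ≤ R * T.card := by
      calc R * (2 * ((DB q t : ℝ) + 2 * ((q : ℝ) ^ 14 * h)) + 2) ≤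
          R * ((4 * (q : ℝ) ^ 10 + 4 * ((c + 1) * (q : ℝ) ^ 8) + 2) * s) :=
            mul_le_mul_of_nonneg_left h1 (by linarith)
        _ = (R * (4 * (q : ℝ) ^ 10 + 4 * ((c + 1) * (q : ℝ) ^ 8) + 2)) * s := by ring
        _ ≤ s * s := mul_le_mul_of_nonneg_right hsR hs0
        _ = t := by rw [← hss]; ring
        _ ≤ _ := hT T hTt
    exact le_of_mul_le_mul_left h2 (by linarith)
  have F4 : ∀ T : Finset (Fin t), t ≤ (r + 1) * T.card →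
      2 * (DB q t + 2 * (q ^ 14 * h)) + 2 ≤ T.card := by
    intro T hTt
    exact_mod_cast F4r T hTt
  -- (F5)
  have F5 : ∀ T : Finset (Fin t), t ≤ (r + 1) * T.card →
      4 * ((q ^ 14 * h : ℕ) : ℝ) * ((DB q t : ℝ) + 2 * ((q ^ 14 * h : ℕ) : ℝ) + 1) / T.card ≤
        L := by
    intro T hTt
    have hTpos : (0 : ℝ) < T.card := by
      have := F4 T hTt
      have h1 : 0 < T.card := by omega
      exact_mod_cast h1
    rw [div_le_iff₀ hTpos]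
    push_cast
    have h1 : (DB q t : ℝ) + 2 * ((q : ℝ) ^ 14 * h) + 1 ≤
        (2 * (q : ℝ) ^ 10 + 2 * ((c + 1) * (q : ℝ) ^ 8) + 1) * s := by linarith
    calc 4 * ((q : ℝ) ^ 14 * h) * ((DB q t : ℝ) + 2 * ((q : ℝ) ^ 14 * h) + 1) ≤
        (4 * ((c + 1) * (q : ℝ) ^ 8 * s)) *
          ((2 * (q : ℝ) ^ 10 + 2 * ((c + 1) * (q : ℝ) ^ 8) + 1) * s) :=
          mul_le_mul (mul_le_mul_of_nonneg_left hkh2 (by norm_num)) h1 (by positivity)
            (by positivity)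
      _ = (4 * ((c + 1) * (q : ℝ) ^ 8) *
          (2 * (q : ℝ) ^ 10 + 2 * ((c + 1) * (q : ℝ) ^ 8) + 1)) * t := by rw [← hss]; ring
      _ ≤ (4 * ((c + 1) * (q : ℝ) ^ 8) *
          (2 * (q : ℝ) ^ 10 + 2 * ((c + 1) * (q : ℝ) ^ 8) + 1)) * (R * T.card) :=
          mul_le_mul_of_nonneg_left (hT T hTt) (by positivity)
      _ = _ := by rw [hL]; ring
  have hk : 1 ≤ q ^ 14 := Nat.one_le_pow _ _ (by omega)
  have HB : ∀ (T : Finset (Fin t)) (x : ℤ), (Nice r t (DA q t) T x ∨ Nice r t (DB q t) T x) →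
      ((q ^ 14 * h : ℕ) : ℤ) < x ∧ x + ((q ^ 14 * h : ℕ) : ℤ) ≤ T.card := by
    intro T x hx
    have h1 : |2 * x - (T.card : ℤ)| ≤ (DB q t : ℤ) ∧ t ≤ (r + 1) * T.card := by
      rcases hx with hx | hx
      · refine ⟨hx.1.trans ?_, hx.2⟩
        exact_mod_cast hDAB
      · exact hx
    have h2 := F4 T h1.2
    have h3 := abs_le.mp h1.1
    have h4 : 2 * ((DB q t : ℤ) + 2 * ((q ^ 14 * h : ℕ) : ℤ)) + 2 ≤ (T.card : ℤ) := by
      exact_mod_cast h2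
    have h5 : (0 : ℤ) ≤ (DB q t : ℤ) := Int.natCast_nonneg _
    have h6 : (0 : ℤ) ≤ ((q ^ 14 * h : ℕ) : ℤ) := Int.natCast_nonneg _
    constructor <;> linarith
  have HL' : ∀ (T : Finset (Fin t)) (a : ℕ), ∃ (A : Finset (Finset (Fin t)))
      (st : Finset (Fin t) → Finset (Fin t))
      (law : Finset (Fin t) → (Fin (2 * h + 1) → Finset (Fin t)) → ℝ),
      Nice r t (DA q t) T ((a + h : ℕ) : ℤ) → KerLoc T a h δ A st law := by
    intro T a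
    by_cases hN : Nice r t (DA q t) T ((a + h : ℕ) : ℤ)
    · obtain ⟨A, st, law, hlaw⟩ := loc_exists T a h (DA q t) δ hδ hδ1
        (by have := hN.1; push_cast at this; exact this) (F2 T hN.2)
      exact ⟨A, st, law, fun _ => hlaw⟩
    · exact ⟨∅, id, fun _ _ => 0, fun h1 => absurd h1 hN⟩
  choose lA ls ll HL using HL'
  have HK' : ∀ (T : Finset (Fin t)) (a M : ℕ), ∃ law : (Fin (q ^ 14 * (2 * h) + 1) →
      Finset (Fin t)) → ℝ, 1 ≤ M → M ≤ q ^ 14 → Nice r t (DB q t) T ((a + M * h : ℕ) : ℤ) →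
      KerKhi T a (M * (2 * h)) (q ^ 14 * (2 * h)) law := by
    intro T a M
    by_cases hN : M ≤ q ^ 14 ∧ Nice r t (DB q t) T ((a + M * h : ℕ) : ℤ)
    · have h1 := (HB T _ (Or.inr hN.2)).2
      have h2 : a + M * h + q ^ 14 * h ≤ T.card := by exact_mod_cast h1
      have h3 : M * h ≤ q ^ 14 * h := Nat.mul_le_mul_right _ hN.1
      obtain ⟨law, hlaw⟩ := khi_exists T a (M * (2 * h)) (q ^ 14 * (2 * h))
        (Nat.mul_le_mul_right _ hN.1) (by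
          have h4 : M * (2 * h) = M * h + M * h := by ring
          omega)
      exact ⟨law, fun _ _ _ => hlaw⟩
    · exact ⟨fun _ => 0, fun _ h1 h2 => absurd ⟨h1, h2⟩ hN⟩
  choose kl HK using HK'
  have HS' : ∀ (T : Finset (Fin t)) (a : ℕ), ∃ (A : Finset (Finset (Fin t)))
      (st : Finset (Fin t) → Finset (Fin t)), Okk r t h T a → IsSys T a (2 * h) A st := by
    intro T a
    by_cases hN : Okk r t h T a
    · obtain ⟨A, st, hsys⟩ := scw_exists T a (2 * h) (by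
        have := hN.2.2
        omega) (F3 T hN.1)
      exact ⟨A, st, fun _ => hsys⟩
    · exact ⟨∅, id, fun h1 => absurd h1 hN⟩
  choose sA ss HS using HS'
  refine ker_build (lA := lA) (ls := ls) (ll := ll) (kl := kl) HL HK HB ?_ (le_max_left _ _) hk
    sA ss HS hδ1
  intro T x x' hN hx
  have h1 := bin_ratio T.card x x' (q ^ 14 * h) (DB q t) hN.1 hx (by
    have := F4 T hN.2
    omega)
  refine h1.trans ?_
  rw [mul_comm]
  refine mul_le_mul_of_nonneg_right ?_ (Nat.cast_nonneg _)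
  exact (Real.exp_le_exp.mpr (F5 T hN.2)).trans (le_max_right _ _)

end KER

end Pool.Agent.Lib_helper46.CC

namespace Pool.Agent.Lib_helper46.CC

alias ker_exists := ker_exists_pr

end Pool.Agent.Lib_helper46.CC
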