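import Mathlib
import Pool.Agent.Lib_helper46.CCF.WBase
import Pool.Agent.Lib_helper46.CCF.REP

/-! Block LOW, written by helper30. -/

set_option autoImplicit false

namespace Pool.Agent.Lib_helper46.CC

open Finset Pool.Agent.Lib_helper70.Chains
open scoped Classical

section GLOBAL

/-- a word with given letter counts -/
theorem low_word {n r : ℕ} (a : Fin (r + 1) → ℕ) (ha : ∑ i, a i = n) :
    ∃ w : Fin n → Fin (r + 1), ∀ i, Fintype.card {x // w x = i} = a i := by
  have hc : Fintype.card (Fin n) = Fintype.card (Σ i : Fin (r + 1), Fin (a i)) := by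
    rw [Fintype.card_sigma, Fintype.card_fin]
    simp [ha]
  let e : Fin n ≃ (Σ i : Fin (r + 1), Fin (a i)) := Fintype.equivOfCardEq hc
  refine ⟨fun x => (e x).1, ?_⟩
  intro i
  have h1 : Fintype.card {x // (e x).1 = i} =
      Fintype.card {y : Σ i : Fin (r + 1), Fin (a i) // y.1 = i} :=
    Fintype.card_congr (e.subtypeEquiv (fun x => Iff.rfl))
  rw [h1]
  have h2 : Fintype.card {y : Σ i : Fin (r + 1), Fin (a i) // y.1 = i} = Fintype.card (Fin (a i)) :=
    Fintype.card_congr
      { toFun := fun y => y.2 ▸ y.1.2
        invFun := fun z => ⟨⟨i, z⟩, rfl⟩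
        left_inv := by
          rintro ⟨⟨j, z⟩, hj⟩
          simp only at hj
          subst hj
          rfl
        right_inv := fun z => rfl }
  rw [h2, Fintype.card_fin]

/-- the sets of a word -/
noncomputable def low_F {n r : ℕ} (w : Fin n → Fin (r + 1)) (m : Fin r) : Finset (Fin n) :=
  univ.filter (fun x => (w x : ℕ) ≤ (m : ℕ))

theorem low_F_mono {n r : ℕ} (w : Fin n → Fin (r + 1)) {m m' : Fin r} (h : m ≤ m') :
    low_F w m ⊆ low_F w m' := by
  intro x hx
  unfold low_F at hx ⊢
  rw [mem_filter] at hx ⊢
  have : (m : ℕ) ≤ (m' : ℕ) := h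
  exact ⟨hx.1, by omega⟩

theorem low_word_ext {n r : ℕ} {w w' : Fin n → Fin (r + 1)} (h : ∀ m : Fin r, low_F w m = low_F w' m) :
    w = w' := by
  funext x
  have h1 : ∀ m : Fin r, (w x : ℕ) ≤ m ↔ (w' x : ℕ) ≤ m := by
    intro m
    have := h m
    rw [Finset.ext_iff] at this
    have h2 := this x
    unfold low_F at h2
    rw [mem_filter, mem_filter] at h2
    simpa using h2
  apply Fin.ext
  apply le_antisymm
  · by_cases hr : (w' x : ℕ) < r
    · exact (h1 ⟨_, hr⟩).mpr le_rfl
    · have h2 := (w x).isLt
      omega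
  · by_cases hr : (w x : ℕ) < r
    · exact (h1 ⟨_, hr⟩).mp le_rfl
    · have h2 := (w' x).isLt
      omega

theorem low_F_card {n r : ℕ} (w : Fin n → Fin (r + 1)) (g : Equiv.Perm (Fin n)) (m : Fin r) :
    (low_F (w ∘ g) m).card = (low_F w m).card := cl_perm w g m

theorem low_main {n r : ℕ} (a : Fin (r + 1) → ℕ) (ha : IsGapVector n r a)
    (F : Finset (Finset (Finset (Fin n)))) (hF : IsChainCover n r F) :
    Nat.multinomial Finset.univ a ≤ F.card := by
  obtain ⟨w0, hw0⟩ := low_word a ha.1
  -- the chain of a permuted word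
  have hex : ∀ g : Equiv.Perm (Fin n), ∃ C ∈ F, ∀ m, low_F (w0 ∘ g) m ∈ C := by
    intro g
    set D : Finset (Finset (Fin n)) := univ.image (fun m : Fin r => low_F (w0 ∘ g) m) with hD
    have hinj : Function.Injective (fun m : Fin r => low_F (w0 ∘ g) m) := by
      have hlt : ∀ m m' : Fin r, m < m' → low_F (w0 ∘ g) m ≠ low_F (w0 ∘ g) m' := by
        intro m m' hmm heq
        have hpos : 0 < Fintype.card {x // w0 x = m'.castSucc} := by
          rw [hw0]
          apply ha.2
          · intro h0
            have h1 : (m' : ℕ) = 0 := by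
              have := congrArg Fin.val h0
              simpa using this
            have h2 : (m : ℕ) < (m' : ℕ) := hmm
            omega
          · exact (Fin.castSucc_lt_last m').ne
        rw [Fintype.card_pos_iff] at hpos
        obtain ⟨x, hx⟩ := hpos
        have h3 : g.symm x ∈ low_F (w0 ∘ g) m' := by
          unfold low_F
          rw [mem_filter]
          refine ⟨mem_univ _, ?_⟩
          rw [Function.comp_apply, Equiv.apply_symm_apply, hx, Fin.val_castSucc]
        rw [← heq] at h3
        unfold low_F at h3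
        rw [mem_filter, Function.comp_apply, Equiv.apply_symm_apply, hx, Fin.val_castSucc] at h3
        have h2 : (m : ℕ) < (m' : ℕ) := hmm
        omega
      intro m m' heq
      rcases lt_trichotomy m m' with h | h | h
      · exact absurd heq (hlt m m' h)
      · exact h
      · exact absurd heq.symm (hlt m' m h)
    have hDr : D.card = r := by
      rw [hD, Finset.card_image_of_injective _ hinj, Finset.card_univ, Fintype.card_fin]
    have hDc : IsChain (· ⊆ ·) (D : Set (Finset (Fin n))) := by
      intro S hS S' hS' _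
      rw [Finset.mem_coe, hD, Finset.mem_image] at hS hS'
      obtain ⟨m, _, rfl⟩ := hS
      obtain ⟨m', _, rfl⟩ := hS'
      rcases le_total m m' with h | h
      · exact Or.inl (low_F_mono _ h)
      · exact Or.inr (low_F_mono _ h)
    obtain ⟨C, hC, hDC⟩ := hF.2 D hDr hDc
    exact ⟨C, hC, fun m => hDC (Finset.mem_image_of_mem _ (mem_univ m))⟩
  choose C hC hCm using hex
  have hsame : ∀ g g' : Equiv.Perm (Fin n), C g = C g' → w0 ∘ g = w0 ∘ g' := by
    intro g g' hgg
    apply low_word_ext
    intro m
    have h1 := hCm g m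
    have h2 := hCm g' m
    rw [← hgg] at h2
    have hcard : (low_F (w0 ∘ g) m).card = (low_F (w0 ∘ g') m).card := by
      rw [low_F_card, low_F_card]
    rcases (hF.1 _ (hC g)).total h1 h2 with h | h
    · exact Finset.eq_of_subset_of_card_le h hcard.ge
    · exact (Finset.eq_of_subset_of_card_le h hcard.le).symm
  have hstab : Fintype.card {g : Equiv.Perm (Fin n) // w0 ∘ g = w0} = ∏ i, (a i).factorial := by
    rw [DomMulAct.stabilizer_card]
    exact Finset.prod_congr rfl fun i _ => by rw [hw0]
  have hfib : ∀ Cc ∈ F, ((univ : Finset (Equiv.Perm (Fin n))).filter (fun g => C g = Cc)).card ≤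
      ∏ i, (a i).factorial := by
    intro Cc _
    rcases ((univ : Finset (Equiv.Perm (Fin n))).filter (fun g => C g = Cc)).eq_empty_or_nonempty
      with h | ⟨g1, hg1⟩
    · rw [h, Finset.card_empty]
      exact Nat.zero_le _
    · rw [← hstab, Fintype.card_subtype]
      rw [mem_filter] at hg1
      apply Finset.card_le_card_of_injOn (fun g => g * g1⁻¹)
      · intro g hg
        have hg' : g ∈ (univ : Finset (Equiv.Perm (Fin n))).filter (fun g => C g = Cc) := hg
        rw [mem_filter] at hg'
        have h3 := hsame g g1 (by rw [hg'.2, hg1.2])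
        have h4 : w0 ∘ ⇑(g * g1⁻¹) = w0 := by
          funext x
          have h5 := congrFun h3 (g1⁻¹ x)
          rw [Function.comp_apply, Function.comp_apply, show g1 (g1⁻¹ x) = x from
            Equiv.apply_symm_apply g1 x] at h5
          rw [Function.comp_apply, Equiv.Perm.mul_apply]
          exact h5
        simp only [Finset.coe_filter, mem_univ, true_and, Set.mem_ofPred_eq]
        exact h4
      · intro g _ g' _ hgg
        exact mul_right_cancel hgg
  have hcard := Finset.card_le_mul_card_image_of_maps_to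
    (s := (univ : Finset (Equiv.Perm (Fin n)))) (t := F) (f := C) (fun g _ => hC g)
    (∏ i, (a i).factorial) hfib
  rw [Finset.card_univ, Fintype.card_perm, Fintype.card_fin] at hcard
  have hspec := Nat.multinomial_spec (Finset.univ) a
  rw [ha.1] at hspec
  rw [← hspec] at hcard
  exact Nat.le_of_mul_le_mul_left hcard (Finset.prod_pos fun i _ => Nat.factorial_pos _)

theorem lower_pr (n r : ℕ) (hr : 1 ≤ r) : maxMultinomial n r ≤ coverNumber n r := by
  unfold maxMultinomial coverNumber
  apply csSup_le'
  rintro k ⟨a, ha, rfl⟩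
  apply le_csInf
  · refine ⟨_, (univ : Finset (Finset (Finset (Fin n)))).filter
      (fun C => IsChain (· ⊆ ·) (C : Set (Finset (Fin n)))), ⟨?_, ?_⟩, rfl⟩
    · intro C hC
      rw [mem_filter] at hC
      exact hC.2
    · intro D _ hD
      exact ⟨D, by rw [mem_filter]; exact ⟨mem_univ _, hD⟩, Finset.Subset.refl _⟩
  · rintro b ⟨F, hF, rfl⟩
    exact low_main a ha F hF


end GLOBAL

end Pool.Agent.Lib_helper46.CC

namespace Pool.Agent.Lib_helper46.CC

alias lower := lower_pr

end Pool.Agent.Lib_helper46.CC
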