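import Mathlib
import Pool.Agent.Lib_helper46.CCF.WBase

/-! Block NIBS, written by helper3. -/

set_option autoImplicit false

namespace Pool.Agent.Lib_helper46.CC

open Finset
open scoped Classical

section NIB

variable {V E : Type} [DecidableEq V] [Fintype E] [DecidableEq E]

theorem nibs_prod (a f : E → ℝ) :
    ∑ A : Finset E, rw a A * ∏ e ∈ A, f e = ∏ e, (a e * f e + (1 - a e)) := by
  rw [Finset.prod_add (fun e => a e * f e) (fun e => 1 - a e) univ]
  rw [Finset.powerset_univ]
  refine Finset.sum_congr rfl fun A _ => ?_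
  unfold rw
  rw [Finset.prod_mul_distrib]
  ring

/-- Block NIBS (one round) -/
theorem nib_step_pr (inc : E → Finset V) (a : E → ℝ) (S U : Finset V) :
    ∑ A : Finset E, rw a A * (if U ⊆ nx inc S A then 1 else 0) =
      if U ⊆ S then ∏ e ∈ univ.filter (fun e => inc e ⊆ S ∧ ¬ Disjoint (inc e) U), (1 - a e)
      else 0 := by
  by_cases hU : U ⊆ S
  · rw [if_pos hU]
    have h1 : ∀ A : Finset E, (if U ⊆ nx inc S A then (1 : ℝ) else 0) =
        ∏ e ∈ A, (if inc e ⊆ S ∧ ¬ Disjoint (inc e) U then (0 : ℝ) else 1) := by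
      intro A
      by_cases hA : U ⊆ nx inc S A
      · rw [if_pos hA, Finset.prod_eq_one]
        intro e he
        rw [if_neg]
        rintro ⟨h2, h3⟩
        rw [Finset.not_disjoint_iff] at h3
        obtain ⟨v, hv, hvU⟩ := h3
        have h4 := hA hvU
        unfold nx at h4
        rw [Finset.mem_sdiff, Finset.mem_biUnion] at h4
        exact h4.2 ⟨e, Finset.mem_filter.mpr ⟨he, h2⟩, hv⟩
      · rw [if_neg hA]
        symm
        rw [Finset.not_subset] at hA
        obtain ⟨v, hvU, hv⟩ := hA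
        unfold nx at hv
        rw [Finset.mem_sdiff, Finset.mem_biUnion] at hv
        push Not at hv
        obtain ⟨e, he, hve⟩ := hv (hU hvU)
        rw [Finset.mem_filter] at he
        refine Finset.prod_eq_zero he.1 ?_
        rw [if_pos]
        exact ⟨he.2, Finset.not_disjoint_iff.mpr ⟨v, hve, hvU⟩⟩
    rw [Finset.sum_congr rfl fun A _ => by rw [h1 A], nibs_prod, Finset.prod_filter]
    refine Finset.prod_congr rfl fun e _ => ?_
    by_cases h : inc e ⊆ S ∧ ¬ Disjoint (inc e) U
    · rw [if_pos h, if_pos h]; ring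
    · rw [if_neg h, if_neg h]; ring
  · rw [if_neg hU]
    refine Finset.sum_eq_zero fun A _ => ?_
    rw [if_neg, mul_zero]
    intro h
    refine hU (h.trans ?_)
    unfold nx
    exact Finset.sdiff_subset

theorem nibs_rw_nonneg (a : E → ℝ) (h0 : ∀ e, 0 ≤ a e) (h1 : ∀ e, a e ≤ 1) (A : Finset E) :
    0 ≤ rw a A := by
  unfold rw
  refine mul_nonneg (Finset.prod_nonneg fun e _ => h0 e) (Finset.prod_nonneg fun e _ => ?_)
  linarith [h1 e]

theorem nibs_rw_sum (a : E → ℝ) : ∑ A : Finset E, rw a A = 1 := by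
  have h := nibs_prod a (fun _ => 1)
  simp only [Finset.prod_const_one, mul_one] at h
  rw [h]
  refine Finset.prod_eq_one fun e _ => ?_
  ring

theorem nibs_rw_mem (a : E → ℝ) (e : E) :
    ∑ A : Finset E, rw a A * (if e ∈ A then 1 else 0) = a e := by
  have h := nibs_prod a (fun e' => if e' = e then 0 else 1)
  have h1 : ∀ A : Finset E, (∏ e' ∈ A, if e' = e then (0 : ℝ) else 1) =
      1 - (if e ∈ A then 1 else 0) := by
    intro A
    by_cases he : e ∈ A
    · rw [if_pos he, Finset.prod_eq_zero he (by rw [if_pos rfl])]; ring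
    · rw [if_neg he, Finset.prod_eq_one]
      · ring
      · intro e' he'
        rw [if_neg]
        rintro rfl
        exact he he'
  rw [Finset.sum_congr rfl fun A _ => by rw [h1 A]] at h
  have h2 : ∏ e', (a e' * (if e' = e then 0 else 1) + (1 - a e')) = 1 - a e := by
    rw [Finset.prod_eq_single e]
    · rw [if_pos rfl]; ring
    · intro e' _ he'
      rw [if_neg he']; ring
    · intro h3
      exact absurd (Finset.mem_univ e) h3
  rw [h2] at h
  simp only [mul_sub, mul_one, Finset.sum_sub_distrib] at h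
  rw [nibs_rw_sum] at h
  linarith

theorem nibs_nx_sub (inc : E → Finset V) (S : Finset V) (A : Finset E) : nx inc S A ⊆ S := by
  unfold nx
  exact Finset.sdiff_subset

variable (V0 : Finset V) (inc : E → Finset V) (a : ℕ → E → ℝ)

theorem nibs_add (T : ℕ) : ∀ f g : Finset V → ℝ,
    Ev V0 inc a T (fun S => f S + g S) = Ev V0 inc a T f + Ev V0 inc a T g := by
  induction T with
  | zero => intro f g; rfl
  | succ T ih =>
    intro f g
    show Ev V0 inc a T _ = Ev V0 inc a T _ + Ev V0 inc a T _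
    rw [← ih]
    congr 1
    funext S
    rw [← Finset.sum_add_distrib]
    refine Finset.sum_congr rfl fun A _ => ?_
    ring

theorem nibs_mul (T : ℕ) (c : ℝ) : ∀ f : Finset V → ℝ,
    Ev V0 inc a T (fun S => c * f S) = c * Ev V0 inc a T f := by
  induction T with
  | zero => intro f; rfl
  | succ T ih =>
    intro f
    show Ev V0 inc a T _ = c * Ev V0 inc a T _
    rw [← ih]
    congr 1
    funext S
    rw [Finset.mul_sum]
    refine Finset.sum_congr rfl fun A _ => ?_
    ring

theorem nibs_zero (T : ℕ) : Ev V0 inc a T (fun _ => 0) = 0 := by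
  have h := nibs_mul V0 inc a T 0 (fun _ => 0)
  simp only [zero_mul] at h
  exact h

theorem nibs_sum {ι : Type*} (T : ℕ) (s : Finset ι) (f : ι → Finset V → ℝ) :
    Ev V0 inc a T (fun S => ∑ x ∈ s, f x S) = ∑ x ∈ s, Ev V0 inc a T (f x) := by
  induction s using Finset.induction_on with
  | empty => simp only [Finset.sum_empty]; exact nibs_zero V0 inc a T
  | insert x s hx ih =>
    rw [Finset.sum_insert hx, ← ih, ← nibs_add]
    congr 1
    funext S
    rw [Finset.sum_insert hx]

theorem nibs_mono (T : ℕ) (h0 : ∀ s < T, ∀ e, 0 ≤ a s e) (h1 : ∀ s < T, ∀ e, a s e ≤ 1) :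
    ∀ f g : Finset V → ℝ, (∀ S, f S ≤ g S) → Ev V0 inc a T f ≤ Ev V0 inc a T g := by
  induction T with
  | zero => intro f g h; exact h V0
  | succ T ih =>
    intro f g h
    show Ev V0 inc a T _ ≤ Ev V0 inc a T _
    refine ih (fun s hs => h0 s (by omega)) (fun s hs => h1 s (by omega)) _ _ fun S => ?_
    refine Finset.sum_le_sum fun A _ => ?_
    exact mul_le_mul_of_nonneg_left (h _)
      (nibs_rw_nonneg _ (h0 T (by omega)) (h1 T (by omega)) A)

theorem nibs_const (T : ℕ) : Ev V0 inc a T (fun _ => 1) = 1 := by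
  induction T with
  | zero => rfl
  | succ T ih =>
    show Ev V0 inc a T _ = 1
    simp only [mul_one]
    rw [nibs_rw_sum]
    exact ih

theorem nibs_abs (T : ℕ) (h0 : ∀ s < T, ∀ e, 0 ≤ a s e) (h1 : ∀ s < T, ∀ e, a s e ≤ 1)
    (f g h : Finset V → ℝ) (hfg : ∀ S, |f S - g S| ≤ h S) :
    |Ev V0 inc a T f - Ev V0 inc a T g| ≤ Ev V0 inc a T h := by
  have h2 : Ev V0 inc a T f ≤ Ev V0 inc a T (fun S => g S + h S) :=
    nibs_mono V0 inc a T h0 h1 _ _ fun S => by linarith [(abs_le.mp (hfg S)).2]
  have h3 : Ev V0 inc a T g ≤ Ev V0 inc a T (fun S => f S + h S) :=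
    nibs_mono V0 inc a T h0 h1 _ _ fun S => by linarith [(abs_le.mp (hfg S)).1]
  rw [nibs_add] at h2 h3
  rw [abs_le]
  constructor <;> linarith

end NIB

end Pool.Agent.Lib_helper46.CC

namespace Pool.Agent.Lib_helper46.CC

alias nib_step := nib_step_pr

end Pool.Agent.Lib_helper46.CC
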