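import Mathlib
import Pool.Agent.Lib_helper46.CCF.WBase
import Pool.Agent.Lib_helper46.CCF.NIBS

/-! Block NIBI, written by helper3. -/

set_option autoImplicit false

namespace Pool.Agent.Lib_helper46.CC

open Finset
open scoped Classical

section NIBI1

theorem nibi_exp_lip (x y : ℝ) (hx : 0 ≤ x) (hy : 0 ≤ y) :
    |Real.exp (-x) - Real.exp (-y)| ≤ |x - y| := by
  have key : ∀ x y : ℝ, 0 ≤ x → x ≤ y → |Real.exp (-x) - Real.exp (-y)| ≤ |x - y| := by
    intro x y hx hxy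
    have h1 : Real.exp (-y) ≤ Real.exp (-x) := Real.exp_le_exp.mpr (by linarith)
    rw [abs_of_nonneg (by linarith), abs_of_nonpos (by linarith)]
    have h2 : Real.exp (-y) = Real.exp (-x) * Real.exp (-(y - x)) := by
      rw [← Real.exp_add]; congr 1; ring
    have h3 : 1 - (y - x) ≤ Real.exp (-(y - x)) := by
      have := Real.add_one_le_exp (-(y - x)); linarith
    have h4 : Real.exp (-x) ≤ 1 := by
      rw [← Real.exp_zero]; exact Real.exp_le_exp.mpr (by linarith)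
    have h5 : 0 < Real.exp (-x) := Real.exp_pos _
    rw [h2]
    have h6 : Real.exp (-x) * (1 - Real.exp (-(y - x))) ≤ Real.exp (-x) * (y - x) :=
      mul_le_mul_of_nonneg_left (by linarith) h5.le
    have h7 : Real.exp (-x) * (y - x) ≤ 1 * (y - x) :=
      mul_le_mul_of_nonneg_right h4 (by linarith)
    linarith
  rcases le_total x y with h | h
  · exact key x y hx h
  · rw [abs_sub_comm, abs_sub_comm x y]
    exact key y x hy h

theorem nibi_prod {E : Type} (s : Finset E) (b : E → ℝ) (h0 : ∀ e, 0 ≤ b e) (h1 : ∀ e, b e ≤ 1) :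
    |∏ e ∈ s, (1 - b e) - Real.exp (-∑ e ∈ s, b e)| ≤ ∑ e ∈ s, b e ^ 2 ∧
      0 ≤ ∏ e ∈ s, (1 - b e) ∧ ∏ e ∈ s, (1 - b e) ≤ 1 := by
  induction s using Finset.induction_on with
  | empty => simp
  | insert x s hx ih =>
    obtain ⟨i1, i2, i3⟩ := ih
    rw [Finset.prod_insert hx, Finset.sum_insert hx, Finset.sum_insert hx]
    have h2 : Real.exp (-(b x + ∑ e ∈ s, b e)) =
        Real.exp (-b x) * Real.exp (-∑ e ∈ s, b e) := by
      rw [← Real.exp_add]; congr 1; ring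
    have h3 : |Real.exp (-b x) - 1 - (-b x)| ≤ (-b x) ^ 2 :=
      Real.abs_exp_sub_one_sub_id_le (by rw [abs_neg, abs_of_nonneg (h0 x)]; exact h1 x)
    have h4 : Real.exp (-b x) ≤ 1 := by
      rw [← Real.exp_zero]; exact Real.exp_le_exp.mpr (by linarith [h0 x])
    have h5 : 0 < Real.exp (-b x) := Real.exp_pos _
    refine ⟨?_, mul_nonneg (by linarith [h1 x]) i2, ?_⟩
    · rw [h2]
      have h6 : (1 - b x) * ∏ e ∈ s, (1 - b e) -
          Real.exp (-b x) * Real.exp (-∑ e ∈ s, b e) =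
          -(Real.exp (-b x) - 1 - (-b x)) * (∏ e ∈ s, (1 - b e)) +
            Real.exp (-b x) * (∏ e ∈ s, (1 - b e) - Real.exp (-∑ e ∈ s, b e)) := by ring
      rw [h6]
      refine (abs_add_le _ _).trans ?_
      rw [abs_mul, abs_mul, abs_neg, abs_of_nonneg i2, abs_of_pos h5]
      have h7 : |Real.exp (-b x) - 1 - (-b x)| * ∏ e ∈ s, (1 - b e) ≤ (-b x) ^ 2 * 1 :=
        mul_le_mul h3 i3 i2 (by positivity)
      have h8 : Real.exp (-b x) * |∏ e ∈ s, (1 - b e) - Real.exp (-∑ e ∈ s, b e)| ≤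
          1 * ∑ e ∈ s, b e ^ 2 := mul_le_mul h4 i1 (abs_nonneg _) (by norm_num)
      nlinarith
    · calc (1 - b x) * ∏ e ∈ s, (1 - b e) ≤ 1 * 1 :=
          mul_le_mul (by linarith [h0 x]) i3 i2 (by norm_num)
        _ = 1 := by ring

/-- pointwise inequality -/
theorem nibi_point {E : Type} (s : Finset E) (b : E → ℝ) (am l μ : ℝ) (h0 : ∀ e, 0 ≤ b e)
    (h1 : ∀ e, b e ≤ am) (ham : am ≤ 1) (hl : 0 < l) (hμ : 0 ≤ μ) :
    |∏ e ∈ s, (1 - b e) - Real.exp (-μ)| ≤
      am * (∑ e ∈ s, b e) + 1 / (2 * l) * (∑ e ∈ s, b e) ^ 2 - μ / l * (∑ e ∈ s, b e) +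
        (μ ^ 2 / (2 * l) + l / 2) := by
  obtain ⟨h2, -, -⟩ := nibi_prod s b h0 (fun e => (h1 e).trans ham)
  have hX : 0 ≤ ∑ e ∈ s, b e := Finset.sum_nonneg fun e _ => h0 e
  have h3 := nibi_exp_lip (∑ e ∈ s, b e) μ hX hμ
  have h4 : ∑ e ∈ s, b e ^ 2 ≤ am * ∑ e ∈ s, b e := by
    rw [Finset.mul_sum]
    refine Finset.sum_le_sum fun e _ => ?_
    rw [pow_two]
    exact mul_le_mul_of_nonneg_right (h1 e) (h0 e)
  set X := ∑ e ∈ s, b e
  have h5 : |X - μ| ≤ 1 / (2 * l) * (X - μ) ^ 2 + l / 2 := by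
    have h6 : 0 ≤ (|X - μ| - l) ^ 2 := sq_nonneg _
    have h7 : |X - μ| ^ 2 = (X - μ) ^ 2 := sq_abs _
    have h8 : 2 * l * |X - μ| ≤ (X - μ) ^ 2 + l ^ 2 := by nlinarith
    have h9 : 1 / (2 * l) * (X - μ) ^ 2 + l / 2 = ((X - μ) ^ 2 + l ^ 2) / (2 * l) := by
      field_simp
    rw [h9, le_div_iff₀ (by positivity)]
    linarith
  have h10 : |∏ e ∈ s, (1 - b e) - Real.exp (-μ)| ≤
      |∏ e ∈ s, (1 - b e) - Real.exp (-X)| + |Real.exp (-X) - Real.exp (-μ)| := by
    have h11 := abs_add_le (∏ e ∈ s, (1 - b e) - Real.exp (-X)) (Real.exp (-X) - Real.exp (-μ))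
    have h12 : ∏ e ∈ s, (1 - b e) - Real.exp (-X) + (Real.exp (-X) - Real.exp (-μ)) =
      ∏ e ∈ s, (1 - b e) - Real.exp (-μ) := by ring
    rwa [h12] at h11
  have h13 : 1 / (2 * l) * (X - μ) ^ 2 = 1 / (2 * l) * X ^ 2 - μ / l * X + μ ^ 2 / (2 * l) := by
    field_simp
    ring
  linarith

end NIBI1

section NIBI2

variable {E : Type} [Fintype E]

theorem nibi_ub {ι : Type*} (w : E → ℝ) (h0 : ∀ e, 0 ≤ w e) (s : Finset ι) (P : ι → E → Prop)
    (Q : E → Prop) [∀ x, DecidablePred (P x)] [DecidablePred Q] (hQ : ∀ e, Q e → ∃ x ∈ s, P x e) :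
    ∑ e ∈ univ.filter Q, w e ≤ ∑ x ∈ s, ∑ e ∈ univ.filter (P x), w e := by
  simp only [Finset.sum_filter]
  rw [Finset.sum_comm]
  refine Finset.sum_le_sum fun e _ => ?_
  have hn : ∀ x ∈ s, (0 : ℝ) ≤ if P x e then w e else 0 := fun x _ => by
    split_ifs
    · exact h0 e
    · exact le_rfl
  by_cases h : Q e
  · rw [if_pos h]
    obtain ⟨x, hx, hP⟩ := hQ e h
    calc w e = if P x e then w e else 0 := by rw [if_pos hP]
      _ ≤ _ := Finset.single_le_sum (f := fun x => if P x e then w e else 0) hn hx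
  · rw [if_neg h]
    exact Finset.sum_nonneg hn

variable {V : Type} [DecidableEq V] [DecidableEq E]

/-- edges meeting `U` -/
noncomputable def nibi_MU (inc : E → Finset V) (U : Finset V) : Finset E :=
  univ.filter (fun e => ¬ Disjoint (inc e) U)

variable (V0 : Finset V) (w : E → ℝ) (inc : E → Finset V) (m u : ℕ) (θ : ℝ)
  (h0 : ∀ e, 0 ≤ w e) (hm : ∀ e, (inc e).card ≤ m)
  (hd : ∀ v ∈ V0, 1 ≤ (∑ e ∈ univ.filter (fun e => v ∈ inc e), w e) ∧
        (∑ e ∈ univ.filter (fun e => v ∈ inc e), w e) ≤ 1 + θ)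
  (hc : ∀ v v', v ≠ v' → (∑ e ∈ univ.filter (fun e => v ∈ inc e ∧ v' ∈ inc e), w e) ≤ θ)
  (hθ : 0 ≤ θ) (hθ1 : θ ≤ 1) (U : Finset V) (hU : U ⊆ V0) (hu : U.card ≤ u)

include h0 hd hθ hθ1 hU hu in
theorem nibi_W1 : ∑ e ∈ nibi_MU inc U, w e ≤ 2 * u := by
  have h1 := nibi_ub w h0 U (fun v e => v ∈ inc e) (fun e => ¬ Disjoint (inc e) U) (by
    intro e he
    rw [Finset.not_disjoint_iff] at he
    obtain ⟨v, hv, hvU⟩ := he
    exact ⟨v, hvU, hv⟩)
  have h2 : ∑ v ∈ U, ∑ e ∈ univ.filter (fun e => v ∈ inc e), w e ≤ ∑ _v ∈ U, (2 : ℝ) :=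
    Finset.sum_le_sum fun v hv => by linarith [(hd v (hU hv)).2]
  rw [Finset.sum_const, nsmul_eq_mul] at h2
  have h3 : (U.card : ℝ) ≤ u := by exact_mod_cast hu
  unfold nibi_MU
  refine h1.trans (h2.trans ?_)
  linarith

include hc hθ hu in
theorem nibi_offdiag :
    ∑ x ∈ U.offDiag, ∑ e ∈ univ.filter (fun e => x.1 ∈ inc e ∧ x.2 ∈ inc e), w e ≤
      (u : ℝ) ^ 2 * θ := by
  have h2 : ∑ x ∈ U.offDiag, ∑ e ∈ univ.filter (fun e => x.1 ∈ inc e ∧ x.2 ∈ inc e), w e ≤
      ∑ _x ∈ U.offDiag, θ := Finset.sum_le_sum fun x hx => by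
    rw [Finset.mem_offDiag] at hx
    exact hc x.1 x.2 hx.2.2
  rw [Finset.sum_const, nsmul_eq_mul] at h2
  have h3 : (U.offDiag.card : ℝ) ≤ (u : ℝ) ^ 2 := by
    have h4 : U.offDiag.card ≤ u ^ 2 := by
      rw [Finset.offDiag_card]
      have : U.card * U.card ≤ u * u := Nat.mul_le_mul hu hu
      nlinarith [Nat.sub_le (U.card * U.card) U.card]
    exact_mod_cast h4
  exact h2.trans (mul_le_mul_of_nonneg_right h3 hθ)

include h0 hc hθ hu in
theorem nibi_W2 : ∑ e ∈ univ.filter (fun e => 2 ≤ (inc e ∩ U).card), w e ≤ (u : ℝ) ^ 2 * θ := by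
  have h1 := nibi_ub w h0 U.offDiag (fun x e => x.1 ∈ inc e ∧ x.2 ∈ inc e)
    (fun e => 2 ≤ (inc e ∩ U).card) (by
    intro e he
    obtain ⟨v, hv, v', hv', hne⟩ := Finset.one_lt_card.mp (show 1 < (inc e ∩ U).card by omega)
    rw [Finset.mem_inter] at hv hv'
    exact ⟨(v, v'), Finset.mem_offDiag.mpr ⟨hv.2, hv'.2, hne⟩, hv.1, hv'.1⟩)
  exact h1.trans (nibi_offdiag w inc u θ hc hθ U hu)

include h0 hc hθ hu in
theorem nibi_W2' :
    ∑ e ∈ nibi_MU inc U, w e * (if 2 ≤ (inc e ∩ U).card then 1 else 0) ≤ (u : ℝ) ^ 2 * θ := by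
  refine le_trans ?_ (nibi_W2 w inc u θ h0 hc hθ U hu)
  rw [Finset.sum_filter]
  have h1 : ∑ e ∈ nibi_MU inc U, w e * (if 2 ≤ (inc e ∩ U).card then 1 else 0) =
      ∑ e ∈ nibi_MU inc U, (if 2 ≤ (inc e ∩ U).card then w e else 0) :=
    Finset.sum_congr rfl fun e _ => by rw [mul_ite, mul_one, mul_zero]
  rw [h1]
  refine Finset.sum_le_sum_of_subset_of_nonneg (Finset.subset_univ _) fun e _ _ => ?_
  split_ifs
  · exact h0 e
  · exact le_rfl

include h0 hd hc hθ hU hu in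
theorem nibi_W1_ge : (U.card : ℝ) ≤ (∑ e ∈ nibi_MU inc U, w e) + (u : ℝ) ^ 2 * θ := by
  have h1 : (U.card : ℝ) ≤ ∑ v ∈ U, ∑ e ∈ univ.filter (fun e => v ∈ inc e), w e := by
    have h2 : ∑ _v ∈ U, (1 : ℝ) ≤ ∑ v ∈ U, ∑ e ∈ univ.filter (fun e => v ∈ inc e), w e :=
      Finset.sum_le_sum fun v hv => (hd v (hU hv)).1
    rw [Finset.sum_const, nsmul_eq_mul, mul_one] at h2
    exact h2
  have h3 : ∑ v ∈ U, ∑ e ∈ univ.filter (fun e => v ∈ inc e), w e =
      ∑ e, w e * ((inc e ∩ U).card : ℝ) := by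
    simp only [Finset.sum_filter]
    rw [Finset.sum_comm]
    refine Finset.sum_congr rfl fun e _ => ?_
    rw [← Finset.sum_filter, Finset.sum_const, nsmul_eq_mul, mul_comm]
    congr 3
    ext v
    rw [Finset.mem_filter, Finset.mem_inter]
    exact and_comm
  have h4 : ∑ x ∈ U.offDiag, ∑ e ∈ univ.filter (fun e => x.1 ∈ inc e ∧ x.2 ∈ inc e), w e =
      ∑ e, w e * ((inc e ∩ U).offDiag.card : ℝ) := by
    simp only [Finset.sum_filter]
    rw [Finset.sum_comm]
    refine Finset.sum_congr rfl fun e _ => ?_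
    rw [← Finset.sum_filter, Finset.sum_const, nsmul_eq_mul, mul_comm]
    congr 3
    ext x
    rw [Finset.mem_filter, Finset.mem_offDiag, Finset.mem_offDiag, Finset.mem_inter,
      Finset.mem_inter]
    tauto
  have h5 : ∑ e, w e * ((inc e ∩ U).card : ℝ) ≤
      (∑ e ∈ nibi_MU inc U, w e) + ∑ e, w e * ((inc e ∩ U).offDiag.card : ℝ) := by
    unfold nibi_MU
    rw [Finset.sum_filter, ← Finset.sum_add_distrib]
    refine Finset.sum_le_sum fun e _ => ?_
    rw [Finset.offDiag_card]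
    by_cases hD : Disjoint (inc e) U
    · have hD2 := hD
      rw [Finset.disjoint_iff_inter_eq_empty] at hD
      rw [hD, if_neg (fun h => h hD2)]
      simp
    · rw [if_pos hD]
      have h6 : 1 ≤ (inc e ∩ U).card := by
        rw [Nat.one_le_iff_ne_zero]
        intro h7
        rw [Finset.card_eq_zero, ← Finset.disjoint_iff_inter_eq_empty] at h7
        exact hD h7
      have h8 : ((inc e ∩ U).card : ℝ) ≤
          1 + (((inc e ∩ U).card * (inc e ∩ U).card - (inc e ∩ U).card : ℕ) : ℝ) := by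
        have h9 : (inc e ∩ U).card ≤
            1 + ((inc e ∩ U).card * (inc e ∩ U).card - (inc e ∩ U).card) := by
          obtain ⟨c, hc⟩ : ∃ c, (inc e ∩ U).card = c + 1 := ⟨(inc e ∩ U).card - 1, by omega⟩
          rw [hc]
          have : (c + 1) * (c + 1) - (c + 1) = c * (c + 1) := by
            rw [Nat.sub_eq_iff_eq_add (by nlinarith)]; ring
          rw [this]
          nlinarith [Nat.zero_le (c * c)]
        exact_mod_cast h9
      nlinarith [h0 e, mul_le_mul_of_nonneg_left h8 (h0 e)]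
  have h6 := nibi_offdiag w inc u θ hc hθ U hu
  rw [h4] at h6
  rw [h3] at h1
  linarith

include h0 hm hc hθ hu in
theorem nibi_W3 (e0 : E) :
    ∑ e ∈ nibi_MU inc U, w e * (if ∃ x ∈ inc e0 \ U, x ∈ inc e then 1 else 0) ≤
      m * u * θ := by
  have h1 := nibi_ub w h0 ((inc e0 \ U) ×ˢ U) (fun x e => x.1 ∈ inc e ∧ x.2 ∈ inc e)
    (fun e => ¬ Disjoint (inc e) U ∧ ∃ x ∈ inc e0 \ U, x ∈ inc e) (by
    rintro e ⟨he, x, hx, hxe⟩
    rw [Finset.not_disjoint_iff] at he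
    obtain ⟨v, hv, hvU⟩ := he
    exact ⟨(x, v), Finset.mem_product.mpr ⟨hx, hvU⟩, hxe, hv⟩)
  have h2 : ∑ x ∈ (inc e0 \ U) ×ˢ U,
      ∑ e ∈ univ.filter (fun e => x.1 ∈ inc e ∧ x.2 ∈ inc e), w e ≤
      ∑ _x ∈ (inc e0 \ U) ×ˢ U, θ := Finset.sum_le_sum fun x hx => by
    rw [Finset.mem_product, Finset.mem_sdiff] at hx
    refine hc x.1 x.2 fun h => hx.1.2 ?_
    rw [h]; exact hx.2
  rw [Finset.sum_const, nsmul_eq_mul, Finset.card_product] at h2
  have h3 : (((inc e0 \ U).card * U.card : ℕ) : ℝ) ≤ m * u := by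
    have h4 : (inc e0 \ U).card * U.card ≤ m * u :=
      Nat.mul_le_mul ((Finset.card_le_card Finset.sdiff_subset).trans (hm e0)) hu
    exact_mod_cast h4
  have h5 : ∑ e ∈ nibi_MU inc U, w e * (if ∃ x ∈ inc e0 \ U, x ∈ inc e then 1 else 0) =
      ∑ e ∈ univ.filter (fun e => ¬ Disjoint (inc e) U ∧ ∃ x ∈ inc e0 \ U, x ∈ inc e), w e := by
    unfold nibi_MU
    rw [← Finset.filter_filter, Finset.sum_filter (fun e => ∃ x ∈ inc e0 \ U, x ∈ inc e)]
    refine Finset.sum_congr rfl fun e _ => ?_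
    rw [mul_ite, mul_one, mul_zero]
  rw [h5]
  exact h1.trans (h2.trans (mul_le_mul_of_nonneg_right h3 hθ))

end NIBI2

section NIBI3

variable {V E : Type} [DecidableEq V] [Fintype E] [DecidableEq E]
variable (V0 : Finset V) (w : E → ℝ) (inc : E → Finset V) (m u T : ℕ) (θ ε : ℝ)
  (h0 : ∀ e, 0 ≤ w e) (h1 : ∀ e, w e ≤ θ) (hV : ∀ e, inc e ⊆ V0) (hm : ∀ e, (inc e).card ≤ m)
  (hd : ∀ v ∈ V0, 1 ≤ (∑ e ∈ univ.filter (fun e => v ∈ inc e), w e) ∧
        (∑ e ∈ univ.filter (fun e => v ∈ inc e), w e) ≤ 1 + θ)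
  (hc : ∀ v v', v ≠ v' → (∑ e ∈ univ.filter (fun e => v ∈ inc e ∧ v' ∈ inc e), w e) ≤ θ)
  (hθ : 0 ≤ θ) (hθ1 : θ ≤ 1) (hε : 0 < ε) (hε1 : ε ≤ 1) (U : Finset V) (hU : U ⊆ V0)
  (hu : U.card ≤ u)

include h0 hε in
theorem nibi_act_nonneg (e : E) : 0 ≤ act w inc ε T e := by
  unfold act
  exact mul_nonneg (mul_nonneg hε.le (h0 e)) (Real.exp_pos _).le

include h0 hm hε in
theorem nibi_act_le (e : E) : act w inc ε T e ≤ ε * w e * Real.exp (ε * T * m) := by
  unfold act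
  refine mul_le_mul_of_nonneg_left (Real.exp_le_exp.mpr ?_) (mul_nonneg hε.le (h0 e))
  have h2 : ((inc e).card : ℝ) ≤ m := by exact_mod_cast hm e
  refine mul_le_mul_of_nonneg_left (by linarith) (by positivity)

include hε in
theorem nibi_M_ge : 1 ≤ Real.exp (ε * T * m) := by
  rw [← Real.exp_zero]
  exact Real.exp_le_exp.mpr (by positivity)

variable (P : Finset V → ℝ) (hP0 : ∀ W, 0 ≤ P W) (hP1 : ∀ W, P W ≤ 1)
  (hP : ∀ W, W ⊆ V0 → W.card ≤ u + 2 * m → |P W - Real.exp (-(ε * T * W.card))| ≤ θ)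

theorem nibi_mem {e : E} : e ∈ nibi_MU inc U ↔ ¬ Disjoint (inc e) U := by
  unfold nibi_MU
  rw [Finset.mem_filter]
  exact ⟨fun h => h.2, fun h => ⟨Finset.mem_univ _, h⟩⟩

theorem nibi_mem_card {e : E} (he : e ∈ nibi_MU inc U) : 1 ≤ (inc e ∩ U).card := by
  rw [nibi_mem] at he
  rw [Nat.one_le_iff_ne_zero]
  intro h7
  rw [Finset.card_eq_zero, ← Finset.disjoint_iff_inter_eq_empty] at h7
  exact he h7

include h0 hV hm hε hU hu hP0 hP1 hP hθ in
theorem nibi_L1 (e : E) (he : e ∈ nibi_MU inc U) :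
    |act w inc ε T e * P (U ∪ inc e) - ε * w e * Real.exp (-(ε * T * U.card))| ≤
      ε * w e * (Real.exp (ε * T * m) * θ +
        (Real.exp (ε * T * m) + 1) * (if 2 ≤ (inc e ∩ U).card then 1 else 0)) := by
  have ha0 := nibi_act_nonneg w inc T ε h0 hε e
  have ha1 := nibi_act_le w inc m T ε h0 hm hε e
  have hM := nibi_M_ge m T ε hε
  have hw := h0 e
  have hεw : 0 ≤ ε * w e := mul_nonneg hε.le hw
  have hex0 : 0 < Real.exp (-(ε * T * U.card)) := Real.exp_pos _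
  have hex1 : Real.exp (-(ε * T * U.card)) ≤ 1 := by
    rw [← Real.exp_zero]
    exact Real.exp_le_exp.mpr (by have : (0 : ℝ) ≤ ε * T * U.card := by positivity
                                  linarith)
  have hPa := hP0 (U ∪ inc e)
  have hPb := hP1 (U ∪ inc e)
  by_cases h2 : 2 ≤ (inc e ∩ U).card
  · rw [if_pos h2]
    have h3 : act w inc ε T e * P (U ∪ inc e) ≤ ε * w e * Real.exp (ε * T * m) * 1 :=
      mul_le_mul ha1 hPb hPa (by positivity)
    have h4 : 0 ≤ act w inc ε T e * P (U ∪ inc e) := mul_nonneg ha0 hPa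
    have h5 : ε * w e * Real.exp (-(ε * T * U.card)) ≤ ε * w e * 1 :=
      mul_le_mul_of_nonneg_left hex1 hεw
    have h6 : 0 ≤ ε * w e * Real.exp (-(ε * T * U.card)) := by positivity
    have h7 : 0 ≤ ε * w e * (Real.exp (ε * T * m) * θ) := by positivity
    rw [abs_le]
    constructor <;> nlinarith
  · rw [if_neg h2]
    have h3 : (inc e ∩ U).card = 1 := by
      have := nibi_mem_card inc U he
      omega
    have h4 : (U ∪ inc e).card + 1 = U.card + (inc e).card := by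
      rw [← h3, Finset.inter_comm]
      exact Finset.card_union_add_card_inter U (inc e)
    have h5 : act w inc ε T e * Real.exp (-(ε * T * (U ∪ inc e).card)) =
        ε * w e * Real.exp (-(ε * T * U.card)) := by
      unfold act
      rw [mul_assoc, ← Real.exp_add]
      congr 2
      have h6 : (((U ∪ inc e).card : ℕ) : ℝ) = U.card + (inc e).card - 1 := by
        have : (((U ∪ inc e).card + 1 : ℕ) : ℝ) = ((U.card + (inc e).card : ℕ) : ℝ) := by
          rw [h4]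
        push_cast at this
        linarith
      rw [h6]
      ring
    rw [← h5, ← mul_sub, abs_mul, abs_of_nonneg ha0]
    have h7 := hP (U ∪ inc e) (Finset.union_subset hU (hV e)) (by
      have := Finset.card_union_le U (inc e)
      have := hm e
      omega)
    calc act w inc ε T e * |P (U ∪ inc e) - Real.exp (-(ε * T * (U ∪ inc e).card))| ≤
        (ε * w e * Real.exp (ε * T * m)) * θ := mul_le_mul ha1 h7 (abs_nonneg _) (by positivity)
      _ = _ := by ring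

include h0 hV hm hε hU hu hP0 hP1 hP hθ in
theorem nibi_L2 (e e' : E) (he : e ∈ nibi_MU inc U) (he' : e' ∈ nibi_MU inc U) :
    |act w inc ε T e * (act w inc ε T e' * P (U ∪ inc e ∪ inc e')) -
      (ε * w e) * (ε * w e') * Real.exp (-(ε * T * U.card))| ≤
      (ε * w e) * (ε * w e') * (Real.exp (ε * T * m) ^ 2 * θ +
        (Real.exp (ε * T * m) ^ 2 + 1) * ((if 2 ≤ (inc e ∩ U).card then 1 else 0) +
          (if 2 ≤ (inc e' ∩ U).card then 1 else 0) +
          (if ∃ x ∈ inc e \ U, x ∈ inc e' then 1 else 0))) := by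
  have ha0 := nibi_act_nonneg w inc T ε h0 hε e
  have ha1 := nibi_act_le w inc m T ε h0 hm hε e
  have hb0 := nibi_act_nonneg w inc T ε h0 hε e'
  have hb1 := nibi_act_le w inc m T ε h0 hm hε e'
  have hM := nibi_M_ge m T ε hε
  have hw := h0 e
  have hw' := h0 e'
  have hεw : 0 ≤ ε * w e := mul_nonneg hε.le hw
  have hεw' : 0 ≤ ε * w e' := mul_nonneg hε.le hw'
  have hex0 : 0 < Real.exp (-(ε * T * U.card)) := Real.exp_pos _
  have hex1 : Real.exp (-(ε * T * U.card)) ≤ 1 := by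
    rw [← Real.exp_zero]
    exact Real.exp_le_exp.mpr (by have : (0 : ℝ) ≤ ε * T * U.card := by positivity
                                  linarith)
  have hPa := hP0 (U ∪ inc e ∪ inc e')
  have hPb := hP1 (U ∪ inc e ∪ inc e')
  have hab : act w inc ε T e * act w inc ε T e' ≤
      (ε * w e) * (ε * w e') * Real.exp (ε * T * m) ^ 2 := by
    calc act w inc ε T e * act w inc ε T e' ≤
        (ε * w e * Real.exp (ε * T * m)) * (ε * w e' * Real.exp (ε * T * m)) :=
          mul_le_mul ha1 hb1 hb0 (by positivity)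
      _ = _ := by ring
  have hab0 : 0 ≤ act w inc ε T e * act w inc ε T e' := mul_nonneg ha0 hb0
  by_cases hB : 2 ≤ (inc e ∩ U).card ∨ 2 ≤ (inc e' ∩ U).card ∨ ∃ x ∈ inc e \ U, x ∈ inc e'
  · have hB1 : (1 : ℝ) ≤ (if 2 ≤ (inc e ∩ U).card then 1 else 0) +
          (if 2 ≤ (inc e' ∩ U).card then 1 else 0) +
          (if ∃ x ∈ inc e \ U, x ∈ inc e' then 1 else 0) := by
      rcases hB with h | h | h
      · rw [if_pos h]; split_ifs <;> norm_num
      · rw [if_pos h]; split_ifs <;> norm_num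
      · rw [if_pos h]; split_ifs <;> norm_num
    have h3 : act w inc ε T e * act w inc ε T e' * P (U ∪ inc e ∪ inc e') ≤
        (ε * w e) * (ε * w e') * Real.exp (ε * T * m) ^ 2 * 1 :=
      mul_le_mul hab hPb hPa (by positivity)
    have h4 : 0 ≤ act w inc ε T e * act w inc ε T e' * P (U ∪ inc e ∪ inc e') :=
      mul_nonneg hab0 hPa
    have h5 : (ε * w e) * (ε * w e') * Real.exp (-(ε * T * U.card)) ≤
        (ε * w e) * (ε * w e') * 1 :=
      mul_le_mul_of_nonneg_left hex1 (mul_nonneg hεw hεw')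
    have h6 : 0 ≤ (ε * w e) * (ε * w e') * Real.exp (-(ε * T * U.card)) := by positivity
    have h7 : 0 ≤ (ε * w e) * (ε * w e') * (Real.exp (ε * T * m) ^ 2 * θ) := by positivity
    have h8 : (ε * w e) * (ε * w e') * ((Real.exp (ε * T * m) ^ 2 + 1) * 1) ≤
        (ε * w e) * (ε * w e') * ((Real.exp (ε * T * m) ^ 2 + 1) *
          ((if 2 ≤ (inc e ∩ U).card then 1 else 0) +
          (if 2 ≤ (inc e' ∩ U).card then 1 else 0) +
          (if ∃ x ∈ inc e \ U, x ∈ inc e' then 1 else 0))) :=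
      mul_le_mul_of_nonneg_left (mul_le_mul_of_nonneg_left hB1 (by positivity))
        (mul_nonneg hεw hεw')
    rw [← mul_assoc (act w inc ε T e), mul_add, abs_le]
    constructor <;> nlinarith
  · push Not at hB
    obtain ⟨hB1, hB2, hB3⟩ := hB
    have h3 : (inc e ∩ U).card = 1 := by
      have := nibi_mem_card inc U he
      omega
    have h3' : (inc e' ∩ U).card = 1 := by
      have := nibi_mem_card inc U he'
      omega
    have h4 : (U ∪ inc e).card + 1 = U.card + (inc e).card := by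
      rw [← h3, Finset.inter_comm]
      exact Finset.card_union_add_card_inter U (inc e)
    have h4' : (U ∪ inc e) ∩ inc e' = inc e' ∩ U := by
      ext x
      rw [Finset.mem_inter, Finset.mem_union, Finset.mem_inter]
      constructor
      · rintro ⟨hx | hx, hx'⟩
        · exact ⟨hx', hx⟩
        · refine ⟨hx', ?_⟩
          by_contra hxU
          exact hB3 x (Finset.mem_sdiff.mpr ⟨hx, hxU⟩) hx'
      · rintro ⟨hx, hxU⟩
        exact ⟨Or.inl hxU, hx⟩
    have h4'' : (U ∪ inc e ∪ inc e').card + 2 = U.card + (inc e).card + (inc e').card := by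
      have h5 := Finset.card_union_add_card_inter (U ∪ inc e) (inc e')
      rw [h4', h3'] at h5
      omega
    have h5 : act w inc ε T e * act w inc ε T e' *
        Real.exp (-(ε * T * (U ∪ inc e ∪ inc e').card)) =
        (ε * w e) * (ε * w e') * Real.exp (-(ε * T * U.card)) := by
      unfold act
      have h6 : (((U ∪ inc e ∪ inc e').card : ℕ) : ℝ) =
          U.card + (inc e).card + (inc e').card - 2 := by
        have : (((U ∪ inc e ∪ inc e').card + 2 : ℕ) : ℝ) =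
            ((U.card + (inc e).card + (inc e').card : ℕ) : ℝ) := by
          rw [h4'']
        push_cast at this
        linarith
      rw [h6]
      have h7 : Real.exp (-(ε * T * U.card)) =
          Real.exp (ε * T * ((inc e).card - 1)) * Real.exp (ε * T * ((inc e').card - 1)) *
            Real.exp (-(ε * T * (U.card + (inc e).card + (inc e').card - 2))) := by
        rw [← Real.exp_add, ← Real.exp_add]
        congr 1
        ring
      rw [h7]
      ring
    rw [if_neg (by omega), if_neg (by omega), if_neg (by push Not; exact hB3)]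
    rw [← h5, ← mul_assoc (act w inc ε T e), ← mul_sub, abs_mul, abs_of_nonneg hab0]
    have h7 := hP (U ∪ inc e ∪ inc e')
      (Finset.union_subset (Finset.union_subset hU (hV e)) (hV e')) (by
      have := Finset.card_union_le (U ∪ inc e) (inc e')
      have := Finset.card_union_le U (inc e)
      have := hm e
      have := hm e'
      omega)
    calc act w inc ε T e * act w inc ε T e' * |P (U ∪ inc e ∪ inc e') -
          Real.exp (-(ε * T * (U ∪ inc e ∪ inc e').card))| ≤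
        ((ε * w e) * (ε * w e') * Real.exp (ε * T * m) ^ 2) * θ :=
          mul_le_mul hab h7 (abs_nonneg _) (by positivity)
      _ = _ := by ring

include h0 hV hm hd hc hε hε1 hU hu hP0 hP1 hP hθ hθ1 in
theorem nibi_S1 :
    |∑ e ∈ nibi_MU inc U, act w inc ε T e * P (U ∪ inc e) -
      ε * (∑ e ∈ nibi_MU inc U, w e) * Real.exp (-(ε * T * U.card))| ≤
      (Real.exp (ε * T * m) * (2 * u) + (Real.exp (ε * T * m) + 1) * (u : ℝ) ^ 2) * θ := by
  have hM := nibi_M_ge m T ε hε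
  have h2 : ε * (∑ e ∈ nibi_MU inc U, w e) * Real.exp (-(ε * T * U.card)) =
      ∑ e ∈ nibi_MU inc U, ε * w e * Real.exp (-(ε * T * U.card)) := by
    rw [Finset.mul_sum, Finset.sum_mul]
  rw [h2, ← Finset.sum_sub_distrib]
  refine (Finset.abs_sum_le_sum_abs _ _).trans ?_
  refine (Finset.sum_le_sum fun e he => nibi_L1 V0 w inc m u T θ ε h0 hV hm hθ hε U hU hu P
    hP0 hP1 hP e he).trans ?_
  have h3 : ∑ e ∈ nibi_MU inc U, ε * w e * (Real.exp (ε * T * m) * θ +
        (Real.exp (ε * T * m) + 1) * (if 2 ≤ (inc e ∩ U).card then 1 else 0)) =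
      ε * (Real.exp (ε * T * m) * θ * (∑ e ∈ nibi_MU inc U, w e) +
        (Real.exp (ε * T * m) + 1) * ∑ e ∈ nibi_MU inc U, w e *
          (if 2 ≤ (inc e ∩ U).card then 1 else 0)) := by
    rw [Finset.mul_sum, Finset.mul_sum, ← Finset.sum_add_distrib, Finset.mul_sum]
    refine Finset.sum_congr rfl fun e _ => ?_
    ring
  rw [h3]
  have h4 := nibi_W1 V0 w inc u θ h0 hd hθ hθ1 U hU hu
  have h5 := nibi_W2' w inc u θ h0 hc hθ U hu
  have h6 : Real.exp (ε * T * m) * θ * (∑ e ∈ nibi_MU inc U, w e) ≤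
      Real.exp (ε * T * m) * θ * (2 * u) := mul_le_mul_of_nonneg_left h4 (by positivity)
  have h7 : (Real.exp (ε * T * m) + 1) * ∑ e ∈ nibi_MU inc U, w e *
          (if 2 ≤ (inc e ∩ U).card then 1 else 0) ≤
      (Real.exp (ε * T * m) + 1) * ((u : ℝ) ^ 2 * θ) :=
    mul_le_mul_of_nonneg_left h5 (by positivity)
  have h8 : 0 ≤ Real.exp (ε * T * m) * θ * (∑ e ∈ nibi_MU inc U, w e) +
        (Real.exp (ε * T * m) + 1) * ∑ e ∈ nibi_MU inc U, w e *
          (if 2 ≤ (inc e ∩ U).card then 1 else 0) := by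
    have h9 : 0 ≤ ∑ e ∈ nibi_MU inc U, w e := Finset.sum_nonneg fun e _ => h0 e
    have h10 : 0 ≤ ∑ e ∈ nibi_MU inc U, w e *
        (if 2 ≤ (inc e ∩ U).card then (1 : ℝ) else 0) := Finset.sum_nonneg fun e _ =>
      mul_nonneg (h0 e) (by split_ifs <;> norm_num)
    positivity
  calc ε * (Real.exp (ε * T * m) * θ * (∑ e ∈ nibi_MU inc U, w e) +
        (Real.exp (ε * T * m) + 1) * ∑ e ∈ nibi_MU inc U, w e *
          (if 2 ≤ (inc e ∩ U).card then 1 else 0)) ≤
      1 * (Real.exp (ε * T * m) * θ * (∑ e ∈ nibi_MU inc U, w e) +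
        (Real.exp (ε * T * m) + 1) * ∑ e ∈ nibi_MU inc U, w e *
          (if 2 ≤ (inc e ∩ U).card then 1 else 0)) := mul_le_mul_of_nonneg_right hε1 h8
    _ ≤ _ := by rw [one_mul]; linarith

include h0 hV hm hd hc hε hε1 hU hu hP0 hP1 hP hθ hθ1 in
theorem nibi_S2 :
    |∑ e ∈ nibi_MU inc U, ∑ e' ∈ nibi_MU inc U,
        act w inc ε T e * (act w inc ε T e' * P (U ∪ inc e ∪ inc e')) -
      (ε * (∑ e ∈ nibi_MU inc U, w e)) ^ 2 * Real.exp (-(ε * T * U.card))| ≤
      (Real.exp (ε * T * m) ^ 2 * (2 * u) ^ 2 + (Real.exp (ε * T * m) ^ 2 + 1) *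
        (2 * ((2 * u) * (u : ℝ) ^ 2) + (2 * u) * (m * u))) * θ := by
  have hM := nibi_M_ge m T ε hε
  have h2 : (ε * (∑ e ∈ nibi_MU inc U, w e)) ^ 2 * Real.exp (-(ε * T * U.card)) =
      ∑ e ∈ nibi_MU inc U, ∑ e' ∈ nibi_MU inc U,
        (ε * w e) * (ε * w e') * Real.exp (-(ε * T * U.card)) := by
    rw [pow_two, Finset.mul_sum, Finset.sum_mul_sum, Finset.sum_mul]
    refine Finset.sum_congr rfl fun e _ => ?_
    rw [Finset.sum_mul]
  rw [h2, ← Finset.sum_sub_distrib]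
  have h2' : ∑ e ∈ nibi_MU inc U, (∑ e' ∈ nibi_MU inc U,
        act w inc ε T e * (act w inc ε T e' * P (U ∪ inc e ∪ inc e')) -
      ∑ e' ∈ nibi_MU inc U, (ε * w e) * (ε * w e') * Real.exp (-(ε * T * U.card))) =
      ∑ e ∈ nibi_MU inc U, ∑ e' ∈ nibi_MU inc U,
        (act w inc ε T e * (act w inc ε T e' * P (U ∪ inc e ∪ inc e')) -
      (ε * w e) * (ε * w e') * Real.exp (-(ε * T * U.card))) :=
    Finset.sum_congr rfl fun e _ => by rw [Finset.sum_sub_distrib]
  rw [h2']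
  refine (Finset.abs_sum_le_sum_abs _ _).trans ?_
  refine (Finset.sum_le_sum fun e he => (Finset.abs_sum_le_sum_abs _ _).trans
    (Finset.sum_le_sum fun e' he' => nibi_L2 V0 w inc m u T θ ε h0 hV hm hθ hε U hU hu P
    hP0 hP1 hP e e' he he')).trans ?_
  set W1 := ∑ e ∈ nibi_MU inc U, w e with hW1
  set W2 := ∑ e ∈ nibi_MU inc U, w e * (if 2 ≤ (inc e ∩ U).card then (1 : ℝ) else 0) with hW2
  set M := Real.exp (ε * T * m) with hMd
  have h4 := nibi_W1 V0 w inc u θ h0 hd hθ hθ1 U hU hu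
  rw [← hW1] at h4
  have h5 := nibi_W2' w inc u θ h0 hc hθ U hu
  rw [← hW2] at h5
  have h9 : 0 ≤ W1 := Finset.sum_nonneg fun e _ => h0 e
  have h10 : 0 ≤ W2 := Finset.sum_nonneg fun e _ =>
      mul_nonneg (h0 e) (by split_ifs <;> norm_num)
  have hε2 : ε * ε ≤ 1 := by nlinarith
  have h3 : ∀ e ∈ nibi_MU inc U, ∑ e' ∈ nibi_MU inc U, (ε * w e) * (ε * w e') * (M ^ 2 * θ +
        (M ^ 2 + 1) * ((if 2 ≤ (inc e ∩ U).card then 1 else 0) +
          (if 2 ≤ (inc e' ∩ U).card then 1 else 0) +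
          (if ∃ x ∈ inc e \ U, x ∈ inc e' then 1 else 0))) ≤
      w e * (M ^ 2 * θ * W1 + (M ^ 2 + 1) * ((if 2 ≤ (inc e ∩ U).card then 1 else 0) * W1 + W2 +
        m * u * θ)) := by
    intro e he
    have h11 : ∑ e' ∈ nibi_MU inc U, (ε * w e) * (ε * w e') * (M ^ 2 * θ +
        (M ^ 2 + 1) * ((if 2 ≤ (inc e ∩ U).card then 1 else 0) +
          (if 2 ≤ (inc e' ∩ U).card then 1 else 0) +
          (if ∃ x ∈ inc e \ U, x ∈ inc e' then 1 else 0))) =
        (ε * ε) * (w e * (M ^ 2 * θ * W1 + (M ^ 2 + 1) *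
          ((if 2 ≤ (inc e ∩ U).card then 1 else 0) * W1 + W2 +
          ∑ e' ∈ nibi_MU inc U, w e' * (if ∃ x ∈ inc e \ U, x ∈ inc e' then 1 else 0)))) := by
      rw [hW1, hW2]
      simp only [Finset.mul_sum, ← Finset.sum_add_distrib]
      refine Finset.sum_congr rfl fun e' _ => ?_
      ring
    rw [h11]
    have h12 := nibi_W3 w inc m u θ h0 hm hc hθ U hu e
    have h13 : 0 ≤ ∑ e' ∈ nibi_MU inc U, w e' *
        (if ∃ x ∈ inc e \ U, x ∈ inc e' then (1 : ℝ) else 0) :=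
      Finset.sum_nonneg fun e' _ => mul_nonneg (h0 e') (by split_ifs <;> norm_num)
    have h14 : 0 ≤ (if 2 ≤ (inc e ∩ U).card then (1 : ℝ) else 0) := by split_ifs <;> norm_num
    have h15 : w e * (M ^ 2 * θ * W1 + (M ^ 2 + 1) *
          ((if 2 ≤ (inc e ∩ U).card then 1 else 0) * W1 + W2 +
          ∑ e' ∈ nibi_MU inc U, w e' * (if ∃ x ∈ inc e \ U, x ∈ inc e' then 1 else 0))) ≤
          w e * (M ^ 2 * θ * W1 + (M ^ 2 + 1) * ((if 2 ≤ (inc e ∩ U).card then 1 else 0) * W1 + W2 +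
        m * u * θ)) := by
      refine mul_le_mul_of_nonneg_left ?_ (h0 e)
      have h16 : (M ^ 2 + 1) *
          ((if 2 ≤ (inc e ∩ U).card then 1 else 0) * W1 + W2 +
          ∑ e' ∈ nibi_MU inc U, w e' * (if ∃ x ∈ inc e \ U, x ∈ inc e' then 1 else 0)) ≤
          (M ^ 2 + 1) * ((if 2 ≤ (inc e ∩ U).card then 1 else 0) * W1 + W2 +
        m * u * θ) := mul_le_mul_of_nonneg_left (by linarith) (by positivity)
      linarith
    refine le_trans ?_ h15
    have h17 : 0 ≤ w e * (M ^ 2 * θ * W1 + (M ^ 2 + 1) *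
          ((if 2 ≤ (inc e ∩ U).card then 1 else 0) * W1 + W2 +
          ∑ e' ∈ nibi_MU inc U, w e' * (if ∃ x ∈ inc e \ U, x ∈ inc e' then 1 else 0))) := by
      refine mul_nonneg (h0 e) ?_
      have h18 : 0 ≤ (if 2 ≤ (inc e ∩ U).card then 1 else 0) * W1 + W2 +
          ∑ e' ∈ nibi_MU inc U, w e' * (if ∃ x ∈ inc e \ U, x ∈ inc e' then (1 : ℝ) else 0) := by
        have := mul_nonneg h14 h9
        linarith
      have h19 : 0 ≤ M ^ 2 * θ * W1 := by positivity
      have h20 : 0 ≤ (M ^ 2 + 1) * ((if 2 ≤ (inc e ∩ U).card then 1 else 0) * W1 + W2 +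
          ∑ e' ∈ nibi_MU inc U, w e' * (if ∃ x ∈ inc e \ U, x ∈ inc e' then (1 : ℝ) else 0)) :=
        mul_nonneg (by positivity) h18
      linarith
    nlinarith
  refine (Finset.sum_le_sum h3).trans ?_
  have h21 : ∑ e ∈ nibi_MU inc U, w e * (M ^ 2 * θ * W1 + (M ^ 2 + 1) *
      ((if 2 ≤ (inc e ∩ U).card then 1 else 0) * W1 + W2 + m * u * θ)) =
      M ^ 2 * θ * W1 * W1 + (M ^ 2 + 1) * (W2 * W1 + W1 * W2 + W1 * (m * u * θ)) := by
    have h22 : ∀ e ∈ nibi_MU inc U, w e * (M ^ 2 * θ * W1 + (M ^ 2 + 1) *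
      ((if 2 ≤ (inc e ∩ U).card then 1 else 0) * W1 + W2 + m * u * θ)) =
        w e * (M ^ 2 * θ * W1 + (M ^ 2 + 1) * (W2 + m * u * θ)) +
        (w e * (if 2 ≤ (inc e ∩ U).card then 1 else 0)) * ((M ^ 2 + 1) * W1) := fun e _ => by ring
    rw [Finset.sum_congr rfl h22, Finset.sum_add_distrib, ← Finset.sum_mul, ← Finset.sum_mul,
      ← hW1, ← hW2]
    ring
  rw [h21]
  have h23 : W1 * W1 ≤ (2 * u) * (2 * u) := mul_le_mul h4 h4 h9 (by positivity)
  have h24 : W2 * W1 ≤ ((u : ℝ) ^ 2 * θ) * (2 * u) := mul_le_mul h5 h4 h9 (by positivity)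
  have h25 : W1 * (m * u * θ) ≤ (2 * u) * (m * u * θ) :=
    mul_le_mul_of_nonneg_right h4 (by positivity)
  have h26 : M ^ 2 * θ * W1 * W1 ≤ M ^ 2 * θ * ((2 * u) * (2 * u)) := by
    rw [mul_assoc]
    exact mul_le_mul_of_nonneg_left h23 (by positivity)
  have h27 : (M ^ 2 + 1) * (W2 * W1 + W1 * W2 + W1 * (m * u * θ)) ≤
      (M ^ 2 + 1) * (((u : ℝ) ^ 2 * θ) * (2 * u) + ((u : ℝ) ^ 2 * θ) * (2 * u) +
        (2 * u) * (m * u * θ)) := by
    refine mul_le_mul_of_nonneg_left ?_ (by positivity)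
    have : W1 * W2 = W2 * W1 := mul_comm _ _
    linarith
  calc M ^ 2 * θ * W1 * W1 + (M ^ 2 + 1) * (W2 * W1 + W1 * W2 + W1 * (m * u * θ)) ≤
      M ^ 2 * θ * ((2 * u) * (2 * u)) + (M ^ 2 + 1) * (((u : ℝ) ^ 2 * θ) * (2 * u) +
        ((u : ℝ) ^ 2 * θ) * (2 * u) + (2 * u) * (m * u * θ)) := by linarith
    _ = _ := by ring

end NIBI3

section NIBI4

variable {V E : Type} [DecidableEq V] [Fintype E] [DecidableEq E]

/-- the constant of one step -/
noncomputable def nibi_C (m u : ℕ) (M l : ℝ) : ℝ :=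
  M * (2 * u * M) + 1 / (2 * l) * ((M ^ 2 * (2 * u) ^ 2 + (M ^ 2 + 1) *
        (2 * ((2 * u) * (u : ℝ) ^ 2) + (2 * u) * (m * u))) +
    2 * (2 * u) * (M * (2 * u) + (M + 1) * (u : ℝ) ^ 2) + (2 * u) ^ 2) + ((u : ℝ) ^ 2 + u + 1)

theorem nibi_step (V0 : Finset V) (w : E → ℝ) (inc : E → Finset V) (m u T : ℕ) (θ ε l : ℝ)
    (h0 : ∀ e, 0 ≤ w e) (h1 : ∀ e, w e ≤ θ) (hV : ∀ e, inc e ⊆ V0) (hm : ∀ e, (inc e).card ≤ m)
    (hd : ∀ v ∈ V0, 1 ≤ (∑ e ∈ univ.filter (fun e => v ∈ inc e), w e) ∧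
        (∑ e ∈ univ.filter (fun e => v ∈ inc e), w e) ≤ 1 + θ)
    (hc : ∀ v v', v ≠ v' → (∑ e ∈ univ.filter (fun e => v ∈ inc e ∧ v' ∈ inc e), w e) ≤ θ)
    (hθ : 0 ≤ θ) (hθ1 : θ ≤ 1) (hMθ : Real.exp (ε * T * m) * θ ≤ 1) (hε : 0 < ε) (hε1 : ε ≤ 1)
    (hl : 0 < l)
    (hP : ∀ W, W ⊆ V0 → W.card ≤ u + 2 * m →
      |Ev V0 inc (act w inc ε) T (fun S => if W ⊆ S then 1 else 0) -
        Real.exp (-(ε * T * W.card))| ≤ θ)
    (U : Finset V) (hU : U ⊆ V0) (hu : U.card ≤ u) :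
    |Ev V0 inc (act w inc ε) (T + 1) (fun S => if U ⊆ S then 1 else 0) -
        Real.exp (-(ε * ((T + 1 : ℕ) : ℝ) * U.card))| ≤
      nibi_C m u (Real.exp (ε * T * m)) l * θ + l / 2 := by
  have ha0 : ∀ s < T, ∀ e, 0 ≤ act w inc ε s e := fun s _ e =>
    nibi_act_nonneg w inc s ε h0 hε e
  have ham : ∀ s ≤ T, ∀ e, act w inc ε s e ≤ Real.exp (ε * T * m) * θ := by
    intro s hs e
    refine (nibi_act_le w inc m s ε h0 hm hε e).trans ?_
    have h2 : ε * w e ≤ θ := by nlinarith [h0 e, h1 e]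
    have h3 : Real.exp (ε * s * m) ≤ Real.exp (ε * T * m) := by
      refine Real.exp_le_exp.mpr ?_
      have : (s : ℝ) ≤ T := by exact_mod_cast hs
      have h4 : ε * s ≤ ε * T := mul_le_mul_of_nonneg_left this hε.le
      exact mul_le_mul_of_nonneg_right h4 (by positivity)
    calc ε * w e * Real.exp (ε * s * m) ≤ θ * Real.exp (ε * T * m) :=
        mul_le_mul h2 h3 (Real.exp_pos _).le hθ
      _ = _ := mul_comm _ _
  have ha1 : ∀ s < T, ∀ e, act w inc ε s e ≤ 1 := fun s hs e => (ham s hs.le e).trans hMθ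
  set P : Finset V → ℝ := fun W => Ev V0 inc (act w inc ε) T (fun S => if W ⊆ S then 1 else 0)
    with hPdef
  have hP0 : ∀ W, 0 ≤ P W := by
    intro W
    rw [← nibs_zero V0 inc (act w inc ε) T]
    exact nibs_mono V0 inc _ T ha0 ha1 _ _ fun S => by split_ifs <;> norm_num
  have hP1 : ∀ W, P W ≤ 1 := by
    intro W
    rw [← nibs_const V0 inc (act w inc ε) T]
    exact nibs_mono V0 inc _ T ha0 ha1 _ _ fun S => by split_ifs <;> norm_num
  have hS1 := nibi_S1 V0 w inc m u T θ ε h0 hV hm hd hc hθ hθ1 hε hε1 U hU hu P hP0 hP1 hP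
  have hS2 := nibi_S2 V0 w inc m u T θ ε h0 hV hm hd hc hθ hθ1 hε hε1 U hU hu P hP0 hP1 hP
  have hW1 := nibi_W1 V0 w inc u θ h0 hd hθ hθ1 U hU hu
  have hW1g := nibi_W1_ge V0 w inc u θ h0 hd hc hθ U hU hu
  have hM1 := nibi_M_ge m T ε hε
  have haT0 : ∀ e, 0 ≤ act w inc ε T e := fun e => nibi_act_nonneg w inc T ε h0 hε e
  set M := Real.exp (ε * T * m) with hM
  set W1 := ∑ e ∈ nibi_MU inc U, w e with hW1d
  have hW10 : 0 ≤ W1 := Finset.sum_nonneg fun e _ => h0 e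
  set μ := ε * W1 with hμ
  have hμ0 : 0 ≤ μ := mul_nonneg hε.le hW10
  have hμ1 : μ ≤ 2 * u := by nlinarith
  set ex := Real.exp (-(ε * T * U.card)) with hex
  have hex0 : 0 < ex := Real.exp_pos _
  have hex1 : ex ≤ 1 := by
    rw [← Real.exp_zero]
    exact Real.exp_le_exp.mpr (by have : (0 : ℝ) ≤ ε * T * U.card := by positivity
                                  linarith)
  set S1 := ∑ e ∈ nibi_MU inc U, act w inc ε T e * P (U ∪ inc e) with hS1d
  set S2 := ∑ e ∈ nibi_MU inc U, ∑ e' ∈ nibi_MU inc U,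
        act w inc ε T e * (act w inc ε T e' * P (U ∪ inc e ∪ inc e')) with hS2d
  -- the functions
  have hX1 : ∀ S : Finset V, (if U ⊆ S then (1 : ℝ) else 0) *
      (∑ e ∈ nibi_MU inc U, (if inc e ⊆ S then act w inc ε T e else 0)) =
      ∑ e ∈ nibi_MU inc U, act w inc ε T e * (if U ∪ inc e ⊆ S then 1 else 0) := by
    intro S
    rw [Finset.mul_sum]
    refine Finset.sum_congr rfl fun e _ => ?_
    by_cases h2 : U ⊆ S
    · by_cases h3 : inc e ⊆ S
      · rw [if_pos h2, if_pos h3, if_pos (Finset.union_subset h2 h3)]; ring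
      · rw [if_pos h2, if_neg h3, if_neg (fun h => h3 (Finset.union_subset_iff.mp h).2)]; ring
    · rw [if_neg h2, if_neg (fun h => h2 (Finset.union_subset_iff.mp h).1)]; ring
  have hX2 : ∀ S : Finset V, (if U ⊆ S then (1 : ℝ) else 0) *
      (∑ e ∈ nibi_MU inc U, (if inc e ⊆ S then act w inc ε T e else 0)) ^ 2 =
      ∑ e ∈ nibi_MU inc U, ∑ e' ∈ nibi_MU inc U, act w inc ε T e * (act w inc ε T e' *
        (if U ∪ inc e ∪ inc e' ⊆ S then 1 else 0)) := by
    intro S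
    rw [pow_two, ← mul_assoc, hX1, Finset.sum_mul_sum]
    refine Finset.sum_congr rfl fun e _ => Finset.sum_congr rfl fun e' _ => ?_
    by_cases h2 : U ∪ inc e ⊆ S
    · by_cases h3 : inc e' ⊆ S
      · rw [if_pos h2, if_pos h3, if_pos (Finset.union_subset h2 h3)]; ring
      · rw [if_pos h2, if_neg h3, if_neg (fun h => h3 (Finset.union_subset_iff.mp h).2)]; ring
    · rw [if_neg h2, if_neg (fun h => h2 (Finset.union_subset_iff.mp h).1)]; ring
  have hE1 : Ev V0 inc (act w inc ε) T (fun S => (if U ⊆ S then (1 : ℝ) else 0) *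
      (∑ e ∈ nibi_MU inc U, (if inc e ⊆ S then act w inc ε T e else 0))) = S1 := by
    simp only [hX1]
    rw [nibs_sum, hS1d]
    refine Finset.sum_congr rfl fun e _ => ?_
    rw [nibs_mul]
  have hE2 : Ev V0 inc (act w inc ε) T (fun S => (if U ⊆ S then (1 : ℝ) else 0) *
      (∑ e ∈ nibi_MU inc U, (if inc e ⊆ S then act w inc ε T e else 0)) ^ 2) = S2 := by
    simp only [hX2]
    rw [nibs_sum, hS2d]
    refine Finset.sum_congr rfl fun e _ => ?_
    rw [nibs_sum]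
    refine Finset.sum_congr rfl fun e' _ => ?_
    rw [nibs_mul, nibs_mul]
  have hEf : Ev V0 inc (act w inc ε) (T + 1) (fun S => if U ⊆ S then 1 else 0) =
      Ev V0 inc (act w inc ε) T (fun S => if U ⊆ S then
        ∏ e ∈ nibi_MU inc U, (1 - (if inc e ⊆ S then act w inc ε T e else 0)) else 0) := by
    show Ev V0 inc (act w inc ε) T (fun S => ∑ A : Finset E, rw (act w inc ε T) A *
      (if U ⊆ nx inc S A then 1 else 0)) = _
    congr 1
    funext S
    rw [nib_step_pr]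
    by_cases h2 : U ⊆ S
    · rw [if_pos h2, if_pos h2]
      unfold nibi_MU
      rw [Finset.prod_filter, Finset.prod_filter]
      refine Finset.prod_congr rfl fun e _ => ?_
      by_cases h3 : inc e ⊆ S
      · by_cases h4 : Disjoint (inc e) U
        · rw [if_neg (fun h => h.2 h4), if_neg (fun h => h h4)]
        · rw [if_pos ⟨h3, h4⟩, if_pos h4, if_pos h3]
      · by_cases h4 : Disjoint (inc e) U
        · rw [if_neg (fun h => h.2 h4), if_neg (fun h => h h4)]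
        · rw [if_neg (fun h => h3 h.1), if_pos h4, if_neg h3, sub_zero]
    · rw [if_neg h2, if_neg h2]
  have hpt : ∀ S : Finset V, |(if U ⊆ S then
        ∏ e ∈ nibi_MU inc U, (1 - (if inc e ⊆ S then act w inc ε T e else 0)) else 0) -
      Real.exp (-μ) * (if U ⊆ S then 1 else 0)| ≤
      (M * θ) * ((if U ⊆ S then (1 : ℝ) else 0) *
        (∑ e ∈ nibi_MU inc U, (if inc e ⊆ S then act w inc ε T e else 0))) +
      ((1 / (2 * l)) * ((if U ⊆ S then (1 : ℝ) else 0) *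
        (∑ e ∈ nibi_MU inc U, (if inc e ⊆ S then act w inc ε T e else 0)) ^ 2) +
      ((-(μ / l)) * ((if U ⊆ S then (1 : ℝ) else 0) *
        (∑ e ∈ nibi_MU inc U, (if inc e ⊆ S then act w inc ε T e else 0))) +
      (μ ^ 2 / (2 * l) + l / 2) * (if U ⊆ S then 1 else 0))) := by
    intro S
    by_cases h2 : U ⊆ S
    · simp only [if_pos h2]
      have h3 := nibi_point (nibi_MU inc U) (fun e => if inc e ⊆ S then act w inc ε T e else 0)
        (M * θ) l μ (fun e => by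
          show 0 ≤ if inc e ⊆ S then act w inc ε T e else 0
          split_ifs
          · exact haT0 e
          · exact le_rfl) (fun e => by
          show (if inc e ⊆ S then act w inc ε T e else 0) ≤ M * θ
          split_ifs
          · exact ham T le_rfl e
          · positivity) hMθ hl hμ0
      rw [mul_one]
      refine h3.trans (le_of_eq ?_)
      ring
    · simp only [if_neg h2]
      simp
  have hEh := nibs_abs V0 inc (act w inc ε) T ha0 ha1 _ _ _ hpt
  rw [← hEf, nibs_mul, nibs_add, nibs_add, nibs_add, nibs_mul, nibs_mul, nibs_mul, nibs_mul,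
    hE1, hE2] at hEh
  have hPU : Ev V0 inc (act w inc ε) T (fun S => if U ⊆ S then 1 else 0) = P U := rfl
  rw [hPU] at hEh
  -- bound of `S1`
  have hS1a : S1 ≤ 2 * u * M := by
    have h2 : S1 ≤ ∑ e ∈ nibi_MU inc U, w e * M := by
      refine Finset.sum_le_sum fun e _ => ?_
      have h3 := nibi_act_le w inc m T ε h0 hm hε e
      rw [← hM] at h3
      have h4 : ε * w e * M ≤ w e * M := by
        have h5 : ε * w e ≤ 1 * w e := mul_le_mul_of_nonneg_right hε1 (h0 e)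
        rw [one_mul] at h5
        exact mul_le_mul_of_nonneg_right h5 (by linarith)
      calc act w inc ε T e * P (U ∪ inc e) ≤ act w inc ε T e * 1 :=
          mul_le_mul_of_nonneg_left (hP1 _) (haT0 e)
        _ ≤ _ := by linarith
    rw [← Finset.sum_mul] at h2
    exact h2.trans (mul_le_mul_of_nonneg_right hW1 (by linarith))
  have hPUe := hP U hU (by omega)
  rw [hPU, ← hex] at hPUe
  -- the variance
  have hvar : S2 - 2 * μ * S1 + μ ^ 2 * P U ≤ ((M ^ 2 * (2 * u) ^ 2 + (M ^ 2 + 1) *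
        (2 * ((2 * u) * (u : ℝ) ^ 2) + (2 * u) * (m * u))) +
    2 * (2 * u) * (M * (2 * u) + (M + 1) * (u : ℝ) ^ 2) + (2 * u) ^ 2) * θ := by
    set c1 := M * (2 * u) + (M + 1) * (u : ℝ) ^ 2 with hc1
    set c2 := M ^ 2 * (2 * u) ^ 2 + (M ^ 2 + 1) *
        (2 * ((2 * u) * (u : ℝ) ^ 2) + (2 * u) * (m * u)) with hc2
    have hc10 : 0 ≤ c1 := by positivity
    rw [abs_le] at hS1 hS2 hPUe
    have e1 : S2 - μ ^ 2 * ex ≤ c2 * θ := hS2.2
    have e2 : -(c1 * θ) ≤ S1 - μ * ex := hS1.1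
    have e3 : P U - ex ≤ θ := hPUe.2
    have e4 : 2 * μ * (-(c1 * θ)) ≤ 2 * μ * (S1 - μ * ex) :=
      mul_le_mul_of_nonneg_left e2 (by positivity)
    have e5 : μ ^ 2 * (P U - ex) ≤ μ ^ 2 * θ := mul_le_mul_of_nonneg_left e3 (by positivity)
    have e6 : μ * (c1 * θ) ≤ (2 * u) * (c1 * θ) := mul_le_mul_of_nonneg_right hμ1 (by positivity)
    have e7 : μ ^ 2 * θ ≤ (2 * u) ^ 2 * θ :=
      mul_le_mul_of_nonneg_right (pow_le_pow_left₀ hμ0 hμ1 2) hθ
    nlinarith
  -- conclusion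
  have hEh2 : |Ev V0 inc (act w inc ε) (T + 1) (fun S => if U ⊆ S then 1 else 0) -
      Real.exp (-μ) * P U| ≤ (M * (2 * u * M)) * θ + (1 / (2 * l)) *
      (((M ^ 2 * (2 * u) ^ 2 + (M ^ 2 + 1) *
        (2 * ((2 * u) * (u : ℝ) ^ 2) + (2 * u) * (m * u))) +
    2 * (2 * u) * (M * (2 * u) + (M + 1) * (u : ℝ) ^ 2) + (2 * u) ^ 2) * θ) + l / 2 := by
    refine hEh.trans ?_
    have e1 : M * θ * S1 ≤ M * θ * (2 * u * M) :=
      mul_le_mul_of_nonneg_left hS1a (by positivity)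
    have e2 : (1 / (2 * l)) * (S2 - 2 * μ * S1 + μ ^ 2 * P U) ≤ (1 / (2 * l)) *
      (((M ^ 2 * (2 * u) ^ 2 + (M ^ 2 + 1) *
        (2 * ((2 * u) * (u : ℝ) ^ 2) + (2 * u) * (m * u))) +
    2 * (2 * u) * (M * (2 * u) + (M + 1) * (u : ℝ) ^ 2) + (2 * u) ^ 2) * θ) :=
      mul_le_mul_of_nonneg_left hvar (by positivity)
    have e3 : M * θ * S1 + (1 / (2 * l) * S2 + (-(μ / l) * S1 + (μ ^ 2 / (2 * l) + l / 2) * P U)) =
        M * θ * S1 + (1 / (2 * l)) * (S2 - 2 * μ * S1 + μ ^ 2 * P U) + l / 2 * P U := by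
      field_simp
      ring
    have e4 : l / 2 * P U ≤ l / 2 * 1 := mul_le_mul_of_nonneg_left (hP1 U) (by positivity)
    rw [e3]
    linarith
  have hlast : |Real.exp (-μ) * P U - Real.exp (-(ε * ((T + 1 : ℕ) : ℝ) * U.card))| ≤
      ((u : ℝ) ^ 2 + u + 1) * θ := by
    have e1 : Real.exp (-(ε * ((T + 1 : ℕ) : ℝ) * U.card)) = Real.exp (-(ε * U.card)) * ex := by
      rw [hex, ← Real.exp_add]
      congr 1
      push_cast
      ring
    have e2 : Real.exp (-μ) * P U - Real.exp (-(ε * U.card)) * ex =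
        (Real.exp (-μ) - Real.exp (-(ε * U.card))) * P U +
          Real.exp (-(ε * U.card)) * (P U - ex) := by ring
    rw [e1, e2]
    refine (abs_add_le _ _).trans ?_
    rw [abs_mul, abs_mul, abs_of_nonneg (hP0 U), abs_of_pos (Real.exp_pos (-(ε * U.card)))]
    have e3 := nibi_exp_lip μ (ε * U.card) hμ0 (by positivity)
    have e4 : |μ - ε * U.card| ≤ ((u : ℝ) ^ 2 + u) * θ := by
      have e5 : W1 ≤ U.card * (1 + θ) := by
        have h2 := nibi_ub w h0 U (fun v e => v ∈ inc e) (fun e => ¬ Disjoint (inc e) U) (by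
          intro e he
          rw [Finset.not_disjoint_iff] at he
          obtain ⟨v, hv, hvU⟩ := he
          exact ⟨v, hvU, hv⟩)
        have h3 : ∑ v ∈ U, ∑ e ∈ univ.filter (fun e => v ∈ inc e), w e ≤ ∑ _v ∈ U, (1 + θ) :=
          Finset.sum_le_sum fun v hv => (hd v (hU hv)).2
        rw [Finset.sum_const, nsmul_eq_mul] at h3
        exact h2.trans h3
      have e6 : (U.card : ℝ) ≤ u := by exact_mod_cast hu
      have e7 : (U.card : ℝ) * θ ≤ u * θ := mul_le_mul_of_nonneg_right e6 hθ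
      have e8 : |W1 - U.card| ≤ ((u : ℝ) ^ 2 + u) * θ := by
        have : 0 ≤ (u : ℝ) ^ 2 * θ := by positivity
        have : 0 ≤ (u : ℝ) * θ := by positivity
        rw [abs_le]
        constructor <;> nlinarith
      have e9 : μ - ε * U.card = ε * (W1 - U.card) := by rw [hμ]; ring
      rw [e9, abs_mul, abs_of_pos hε]
      calc ε * |W1 - U.card| ≤ 1 * |W1 - U.card| :=
          mul_le_mul_of_nonneg_right hε1 (abs_nonneg _)
        _ ≤ _ := by rw [one_mul]; exact e8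
    have e10 : Real.exp (-(ε * U.card)) ≤ 1 := by
      rw [← Real.exp_zero]
      exact Real.exp_le_exp.mpr (by have : (0 : ℝ) ≤ ε * U.card := by positivity
                                    linarith)
    have e11 : |Real.exp (-μ) - Real.exp (-(ε * U.card))| * P U ≤ (((u : ℝ) ^ 2 + u) * θ) * 1 :=
      mul_le_mul (e3.trans e4) (hP1 U) (hP0 U) (by positivity)
    have e12 : Real.exp (-(ε * U.card)) * |P U - ex| ≤ 1 * θ :=
      mul_le_mul e10 hPUe (abs_nonneg _) (by norm_num)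
    linarith
  have hfin := abs_add_le (Ev V0 inc (act w inc ε) (T + 1) (fun S => if U ⊆ S then 1 else 0) -
      Real.exp (-μ) * P U) (Real.exp (-μ) * P U - Real.exp (-(ε * ((T + 1 : ℕ) : ℝ) * U.card)))
  rw [sub_add_sub_cancel] at hfin
  refine hfin.trans ?_
  unfold nibi_C
  linarith

/-- Block NIBI (induction) -/
theorem nib_prob_pr (m : ℕ) (ε : ℝ) (hε : 0 < ε) (hε1 : ε ≤ 1) (T u : ℕ) (η : ℝ) (hη : 0 < η) :
    ∃ κ : ℝ, 0 < κ ∧ ∀ (V E : Type) [DecidableEq V] [Fintype E] [DecidableEq E] (V0 : Finset V)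
      (w : E → ℝ) (inc : E → Finset V), (∀ e, 0 ≤ w e) → (∀ e, w e ≤ κ) → (∀ e, inc e ⊆ V0) →
      (∀ e, (inc e).card ≤ m) →
      (∀ v ∈ V0, 1 ≤ (∑ e ∈ univ.filter (fun e => v ∈ inc e), w e) ∧
        (∑ e ∈ univ.filter (fun e => v ∈ inc e), w e) ≤ 1 + κ) →
      (∀ v v', v ≠ v' → (∑ e ∈ univ.filter (fun e => v ∈ inc e ∧ v' ∈ inc e), w e) ≤ κ) →
      ∀ U : Finset V, U ⊆ V0 → U.card ≤ u →
        |Ev V0 inc (act w inc ε) T (fun S => if U ⊆ S then 1 else 0) -
          Real.exp (-(ε * T * U.card))| ≤ η := by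
  induction T generalizing u η with
  | zero =>
    refine ⟨1, one_pos, ?_⟩
    intro V E _ _ _ V0 w inc _ _ _ _ _ _ U hU _
    have h1 : Ev V0 inc (act w inc ε) 0 (fun S => if U ⊆ S then 1 else 0) =
        if U ⊆ V0 then (1 : ℝ) else 0 := rfl
    rw [h1, if_pos hU]
    simp
    exact hη.le
  | succ T ih =>
    set M := Real.exp (ε * T * m) with hM
    have hM1 : 1 ≤ M := nibi_M_ge m T ε hε
    set C := nibi_C m u M η with hC
    have hC0 : 0 < C := by
      rw [hC]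
      unfold nibi_C
      positivity
    set θ := min 1 (min (1 / M) (η / (2 * C))) with hθ
    have hθ0 : 0 < θ := by
      rw [hθ]
      refine lt_min one_pos (lt_min (by positivity) (by positivity))
    have hθ1 : θ ≤ 1 := min_le_left _ _
    have hθ2 : M * θ ≤ 1 := by
      have : θ ≤ 1 / M := (min_le_right _ _).trans (min_le_left _ _)
      rw [le_div_iff₀ (by linarith)] at this
      linarith
    have hθ3 : C * θ ≤ η / 2 := by
      have : θ ≤ η / (2 * C) := (min_le_right _ _).trans (min_le_right _ _)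
      rw [le_div_iff₀ (by positivity)] at this
      linarith
    obtain ⟨κ, hκ, hind⟩ := ih (u + 2 * m) θ hθ0
    refine ⟨min κ θ, lt_min hκ hθ0, ?_⟩
    intro V E _ _ _ V0 w inc h0 h1 hV hm hd hc U hU hu
    have k1 : min κ θ ≤ κ := min_le_left _ _
    have k2 : min κ θ ≤ θ := min_le_right _ _
    have hP := hind V E V0 w inc h0 (fun e => (h1 e).trans k1) hV hm
      (fun v hv => ⟨(hd v hv).1, (hd v hv).2.trans (by linarith)⟩)
      (fun v v' hv => (hc v v' hv).trans k1)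
    have h2 := nibi_step V0 w inc m u T θ ε η h0 (fun e => (h1 e).trans k2) hV hm
      (fun v hv => ⟨(hd v hv).1, (hd v hv).2.trans (by linarith)⟩)
      (fun v v' hv => (hc v v' hv).trans k2) hθ0.le hθ1 hθ2 hε hε1 hη hP U hU hu
    rw [← hM, ← hC] at h2
    linarith

end NIBI4

end Pool.Agent.Lib_helper46.CC

namespace Pool.Agent.Lib_helper46.CC

alias nib_prob := nib_prob_pr

end Pool.Agent.Lib_helper46.CC
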