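import Mathlib
import Pool.Agent.Lib_helper46.CCF.WBase

/-! Block NIBT, written by helper3. -/

set_option autoImplicit false

namespace Pool.Agent.Lib_helper46.CC

open Finset
open scoped Classical

section NIB

variable {V E : Type} [DecidableEq V] [Fintype E] [DecidableEq E]

/-- Block NIBT (thinning) -/
theorem nib_thin_pr (V0 : Finset V) (w : E → ℝ) (inc : E → Finset V) (κ : ℝ)
    (h0 : ∀ e, 0 ≤ w e) (h1 : ∀ e, w e ≤ κ) (hV : ∀ e, inc e ⊆ V0)
    (h2 : ∀ v ∈ V0, 1 ≤ ∑ e ∈ univ.filter (fun e => v ∈ inc e), w e) :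
    ∃ inc' : E → Finset V, (∀ e, inc' e ⊆ inc e) ∧
      ∀ v ∈ V0, 1 ≤ (∑ e ∈ univ.filter (fun e => v ∈ inc' e), w e) ∧
        (∑ e ∈ univ.filter (fun e => v ∈ inc' e), w e) ≤ 1 + κ := by
  have key : ∀ v : V, ∃ F : Finset E, v ∈ V0 → F ⊆ univ.filter (fun e => v ∈ inc e) ∧
      1 ≤ ∑ e ∈ F, w e ∧ ∑ e ∈ F, w e ≤ 1 + κ := by
    intro v
    by_cases hv : v ∈ V0
    · have hne : ((univ.filter (fun e => v ∈ inc e)).powerset.filter
          (fun F => 1 ≤ ∑ e ∈ F, w e)).Nonempty :=
        ⟨univ.filter (fun e => v ∈ inc e), by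
          rw [Finset.mem_filter, Finset.mem_powerset]
          exact ⟨Finset.Subset.refl _, h2 v hv⟩⟩
      obtain ⟨F, hF, hmin⟩ := Finset.exists_min_image _ (fun F => F.card) hne
      rw [Finset.mem_filter, Finset.mem_powerset] at hF
      refine ⟨F, fun _ => ⟨hF.1, hF.2, ?_⟩⟩
      have hFne : F.Nonempty := by
        rcases F.eq_empty_or_nonempty with h | h
        · have h3 := hF.2
          rw [h, Finset.sum_empty] at h3
          exact absurd h3 (by norm_num)
        · exact h
      obtain ⟨e, he⟩ := hFne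
      by_contra hlt
      push Not at hlt
      have h3 : 1 ≤ ∑ e' ∈ F.erase e, w e' := by
        have h4 := Finset.add_sum_erase F w he
        linarith [h1 e]
      have h5 := hmin (F.erase e) (by
        rw [Finset.mem_filter, Finset.mem_powerset]
        exact ⟨(Finset.erase_subset e F).trans hF.1, h3⟩)
      have h6 := Finset.card_erase_lt_of_mem he
      omega
    · exact ⟨∅, fun h => absurd h hv⟩
  choose Fv hFv using key
  refine ⟨fun e => (inc e).filter (fun v => e ∈ Fv v), fun e => Finset.filter_subset _ _, ?_⟩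
  intro v hv
  obtain ⟨ha, hb, hc⟩ := hFv v hv
  have h7 : univ.filter (fun e => v ∈ (inc e).filter (fun v => e ∈ Fv v)) = Fv v := by
    ext e
    simp only [Finset.mem_filter, Finset.mem_univ, true_and]
    constructor
    · exact fun h => h.2
    · intro he
      have h8 := ha he
      rw [Finset.mem_filter] at h8
      exact ⟨h8.2, he⟩
  rw [h7]
  exact ⟨hb, hc⟩

end NIB

end Pool.Agent.Lib_helper46.CC

namespace Pool.Agent.Lib_helper46.CC

alias nib_thin := nib_thin_pr

end Pool.Agent.Lib_helper46.CC
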