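import Mathlib
import Pool.Agent.Lib_helper46.CCF.WBase
import Pool.Agent.Lib_helper46.CCF.NIBS

/-! Block NIBX, written by helper3. -/

set_option autoImplicit false

namespace Pool.Agent.Lib_helper46.CC

open Finset
open scoped Classical

section NIB

variable {V E : Type} [DecidableEq V] [Fintype E] [DecidableEq E]

/-- cost to go -/
noncomputable def nibx_G (V0 : Finset V) (inc : E → Finset V) (a : ℕ → E → ℝ) (T : ℕ) :
    ℕ → Finset V → ℝ
  | 0, S => ∑ v ∈ V0, (if {v} ⊆ S then 1 else 0)
  | j + 1, S => ∑ A : Finset E, rw (a (T - (j + 1))) A *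
      (((A.filter (fun e => inc e ⊆ S)).card : ℝ) + nibx_G V0 inc a T j (nx inc S A))

theorem nibx_choose (V0 : Finset V) (inc : E → Finset V) (a : ℕ → E → ℝ) (T : ℕ)
    (h0 : ∀ s e, 0 ≤ a s e) (h1 : ∀ s < T, ∀ e, a s e ≤ 1) (j : ℕ) (hj : j ≤ T) :
    ∀ S, S ⊆ V0 → ∃ F : Finset E,
      (F.card : ℝ) + ((S.filter (fun v => ∀ e ∈ F, v ∉ inc e)).card : ℝ) ≤
        nibx_G V0 inc a T j S := by
  induction j with
  | zero =>
    intro S hS
    refine ⟨∅, ?_⟩
    simp only [Finset.notMem_empty, false_implies, implies_true, Finset.filter_true,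
      Finset.card_empty, Nat.cast_zero, zero_add]
    unfold nibx_G
    rw [← Finset.sum_filter, Finset.sum_const, nsmul_eq_mul, mul_one]
    have h2 : V0.filter (fun v => {v} ⊆ S) = S := by
      ext v
      rw [Finset.mem_filter, Finset.singleton_subset_iff]
      exact ⟨fun h => h.2, fun h => ⟨hS h, h⟩⟩
    rw [h2]
  | succ j ih =>
    intro S hS
    have ih2 := ih (by omega)
    have h3 : ∀ A : Finset E, ∃ F : Finset E,
        (F.card : ℝ) + (((nx inc S A).filter (fun v => ∀ e ∈ F, v ∉ inc e)).card : ℝ) ≤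
        nibx_G V0 inc a T j (nx inc S A) := fun A =>
      ih2 _ ((nibs_nx_sub inc S A).trans hS)
    have h4 : ∃ A : Finset E, ((A.filter (fun e => inc e ⊆ S)).card : ℝ) +
        nibx_G V0 inc a T j (nx inc S A) ≤ nibx_G V0 inc a T (j + 1) S := by
      by_contra hcon
      push Not at hcon
      have h5 : nibx_G V0 inc a T (j + 1) S < nibx_G V0 inc a T (j + 1) S := by
        have h6 : ∑ A : Finset E, rw (a (T - (j + 1))) A * nibx_G V0 inc a T (j + 1) S <
            ∑ A : Finset E, rw (a (T - (j + 1))) A *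
              (((A.filter (fun e => inc e ⊆ S)).card : ℝ) +
                nibx_G V0 inc a T j (nx inc S A)) := by
          have h7 : ∀ A : Finset E, 0 ≤ rw (a (T - (j + 1))) A :=
            nibs_rw_nonneg _ (h0 _) (h1 _ (by omega))
          refine Finset.sum_lt_sum (fun A _ => mul_le_mul_of_nonneg_left (hcon A).le (h7 A)) ?_
          by_contra hc2
          push Not at hc2
          have h8 : ∀ A : Finset E, rw (a (T - (j + 1))) A = 0 := by
            intro A
            by_contra hne
            have hpos : 0 < rw (a (T - (j + 1))) A := lt_of_le_of_ne (h7 A) (Ne.symm hne)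
            have h9 := hc2 A (Finset.mem_univ A)
            have h10 := mul_lt_mul_of_pos_left (hcon A) hpos
            linarith
          have h11 := nibs_rw_sum (a (T - (j + 1)))
          rw [Finset.sum_eq_zero fun A _ => h8 A] at h11
          exact absurd h11 (by norm_num)
        rw [← Finset.sum_mul, nibs_rw_sum, one_mul] at h6
        exact h6
      exact lt_irrefl _ h5
    obtain ⟨A, hA⟩ := h4
    obtain ⟨F, hF⟩ := h3 A
    refine ⟨A.filter (fun e => inc e ⊆ S) ∪ F, ?_⟩
    have h12 : ((A.filter (fun e => inc e ⊆ S) ∪ F).card : ℝ) ≤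
        ((A.filter (fun e => inc e ⊆ S)).card : ℝ) + (F.card : ℝ) := by
      exact_mod_cast Finset.card_union_le _ _
    have h13 : ((S.filter (fun v => ∀ e ∈ A.filter (fun e => inc e ⊆ S) ∪ F, v ∉ inc e)).card : ℝ)
        ≤ (((nx inc S A).filter (fun v => ∀ e ∈ F, v ∉ inc e)).card : ℝ) := by
      have h14 : S.filter (fun v => ∀ e ∈ A.filter (fun e => inc e ⊆ S) ∪ F, v ∉ inc e) ⊆
          (nx inc S A).filter (fun v => ∀ e ∈ F, v ∉ inc e) := by
        intro v hv
        rw [Finset.mem_filter] at hv ⊢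
        refine ⟨?_, fun e he => hv.2 e (Finset.mem_union_right _ he)⟩
        unfold nx
        rw [Finset.mem_sdiff]
        refine ⟨hv.1, fun h => ?_⟩
        rw [Finset.mem_biUnion] at h
        obtain ⟨e, he, hve⟩ := h
        exact hv.2 e (Finset.mem_union_left _ he) hve
      exact_mod_cast Finset.card_le_card h14
    linarith

theorem nibx_ev (V0 : Finset V) (inc : E → Finset V) (a : ℕ → E → ℝ) (T j : ℕ) (hj : j ≤ T) :
    Ev V0 inc a (T - j) (nibx_G V0 inc a T j) =
      (∑ s ∈ Finset.Ico (T - j) T, ∑ e, a s e *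
        Ev V0 inc a s (fun S => if inc e ⊆ S then 1 else 0)) +
        ∑ v ∈ V0, Ev V0 inc a T (fun S => if {v} ⊆ S then 1 else 0) := by
  induction j with
  | zero =>
    rw [Nat.sub_zero, Finset.Ico_self, Finset.sum_empty, zero_add, ← nibs_sum]
    rfl
  | succ j ih =>
    have ih2 := ih (by omega)
    have hT : T - j = (T - (j + 1)) + 1 := by omega
    rw [hT] at ih2
    have h1 : Ev V0 inc a ((T - (j + 1)) + 1) (nibx_G V0 inc a T j) =
        Ev V0 inc a (T - (j + 1)) (fun S => ∑ A : Finset E, rw (a (T - (j + 1))) A *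
          nibx_G V0 inc a T j (nx inc S A)) := rfl
    have h2 : nibx_G V0 inc a T (j + 1) = fun S =>
        (∑ e, a (T - (j + 1)) e * (if inc e ⊆ S then 1 else 0)) +
          ∑ A : Finset E, rw (a (T - (j + 1))) A * nibx_G V0 inc a T j (nx inc S A) := by
      funext S
      show (∑ A : Finset E, rw (a (T - (j + 1))) A *
        (((A.filter (fun e => inc e ⊆ S)).card : ℝ) + nibx_G V0 inc a T j (nx inc S A))) = _
      simp only [mul_add, Finset.sum_add_distrib]
      congr 1
      have h3 : ∀ A : Finset E, (((A.filter (fun e => inc e ⊆ S)).card : ℝ)) =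
          ∑ e, (if e ∈ A then 1 else 0) * (if inc e ⊆ S then (1 : ℝ) else 0) := by
        intro A
        rw [Finset.card_filter]
        push_cast
        rw [← Finset.sum_subset (Finset.subset_univ A)]
        · refine Finset.sum_congr rfl fun e he => ?_
          rw [if_pos he, one_mul]
        · intro e _ he
          rw [if_neg he, zero_mul]
      rw [Finset.sum_congr rfl fun A _ => by rw [h3 A]]
      simp only [Finset.mul_sum]
      rw [Finset.sum_comm]
      refine Finset.sum_congr rfl fun e _ => ?_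
      rw [← nibs_rw_mem (a (T - (j + 1))) e, Finset.sum_mul]
      refine Finset.sum_congr rfl fun A _ => ?_
      ring
    rw [h2, nibs_add, ← h1, ih2, nibs_sum]
    have h4 : Finset.Ico (T - (j + 1)) T = insert (T - (j + 1)) (Finset.Ico (T - (j + 1) + 1) T) := by
      ext x
      simp only [Finset.mem_insert, Finset.mem_Ico]
      omega
    rw [h4, Finset.sum_insert (by simp only [Finset.mem_Ico]; omega)]
    rw [Finset.sum_congr rfl fun e _ => nibs_mul V0 inc a (T - (j + 1)) (a (T - (j + 1)) e) _]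
    ring

/-- Block NIBX (choice of the outcome) -/
theorem nib_choice_pr (V0 : Finset V) (inc : E → Finset V) (hV : ∀ e, inc e ⊆ V0) (a : ℕ → E → ℝ)
    (h0 : ∀ T e, 0 ≤ a T e) (T : ℕ) (h1 : ∀ s < T, ∀ e, a s e ≤ 1) :
    ∃ F : Finset E, (F.card : ℝ) + ((V0.filter (fun v => ∀ e ∈ F, v ∉ inc e)).card : ℝ) ≤
      (∑ s ∈ range T, ∑ e, a s e * Ev V0 inc a s (fun S => if inc e ⊆ S then 1 else 0)) +
        ∑ v ∈ V0, Ev V0 inc a T (fun S => if {v} ⊆ S then 1 else 0) := by
  obtain ⟨F, hF⟩ := nibx_choose V0 inc a T h0 h1 T le_rfl V0 (Finset.Subset.refl _)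
  refine ⟨F, hF.trans ?_⟩
  have h := nibx_ev V0 inc a T T le_rfl
  rw [Nat.sub_self, ← Finset.range_eq_Ico] at h
  rw [← h]
  exact le_rfl

end NIB

end Pool.Agent.Lib_helper46.CC

namespace Pool.Agent.Lib_helper46.CC

alias nib_choice := nib_choice_pr

end Pool.Agent.Lib_helper46.CC
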