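import Mathlib
import Pool.Agent.Lib_helper46.CCF.WBase
import Pool.Agent.Lib_helper46.CCF.NIBT
import Pool.Agent.Lib_helper46.CCF.NIBX
import Pool.Agent.Lib_helper46.CCF.NIBI

/-! Block NIBF, written by helper3. -/

set_option autoImplicit false

namespace Pool.Agent.Lib_helper46.CC

open Finset
open scoped Classical

section NIB

theorem nibf_all (m : ℕ) (ε : ℝ) (hε : 0 < ε) (hε1 : ε ≤ 1) (u : ℕ) (η : ℝ) (hη : 0 < η) (T : ℕ) :
    ∃ κ : ℝ, 0 < κ ∧ ∀ s ≤ T, ∀ (V E : Type) [DecidableEq V] [Fintype E] [DecidableEq E]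
      (V0 : Finset V)
      (w : E → ℝ) (inc : E → Finset V), (∀ e, 0 ≤ w e) → (∀ e, w e ≤ κ) → (∀ e, inc e ⊆ V0) →
      (∀ e, (inc e).card ≤ m) →
      (∀ v ∈ V0, 1 ≤ (∑ e ∈ univ.filter (fun e => v ∈ inc e), w e) ∧
        (∑ e ∈ univ.filter (fun e => v ∈ inc e), w e) ≤ 1 + κ) →
      (∀ v v', v ≠ v' → (∑ e ∈ univ.filter (fun e => v ∈ inc e ∧ v' ∈ inc e), w e) ≤ κ) →
      ∀ U : Finset V, U ⊆ V0 → U.card ≤ u →
        |Ev V0 inc (act w inc ε) s (fun S => if U ⊆ S then 1 else 0) -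
          Real.exp (-(ε * s * U.card))| ≤ η := by
  induction T with
  | zero =>
    obtain ⟨κ, hκ, h⟩ := nib_prob_pr m ε hε hε1 0 u η hη
    refine ⟨κ, hκ, fun s hs => ?_⟩
    have hs0 : s = 0 := by omega
    subst hs0
    exact h
  | succ T ih =>
    obtain ⟨κ, hκ, h⟩ := ih
    obtain ⟨κ', hκ', h'⟩ := nib_prob_pr m ε hε hε1 (T + 1) u η hη
    refine ⟨min κ κ', lt_min hκ hκ', fun s hs => ?_⟩
    have k1 : min κ κ' ≤ κ := min_le_left _ _
    have k2 : min κ κ' ≤ κ' := min_le_right _ _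
    intro V E _ _ _ V0 w inc h0 h1 hV hm hd hc
    rcases Nat.lt_or_ge s (T + 1) with hs1 | hs1
    · exact h s (by omega) V E V0 w inc h0 (fun e => (h1 e).trans k1) hV hm
        (fun v hv => ⟨(hd v hv).1, (hd v hv).2.trans (by linarith)⟩)
        (fun v v' hv => (hc v v' hv).trans k1)
    · have hs2 : s = T + 1 := by omega
      subst hs2
      exact h' V E V0 w inc h0 (fun e => (h1 e).trans k2) hV hm
        (fun v hv => ⟨(hd v hv).1, (hd v hv).2.trans (by linarith)⟩)
        (fun v v' hv => (hc v v' hv).trans k2)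

theorem nibf_geom (ε : ℝ) (hε : 0 < ε) (T : ℕ) :
    ∑ s ∈ range T, ε * Real.exp (-(ε * s)) ≤ 1 + ε := by
  have h1 : ∀ T : ℕ, ∑ s ∈ range T, ε * Real.exp (-(ε * s)) ≤
      (1 + ε) * (1 - Real.exp (-(ε * T))) := by
    intro T
    induction T with
    | zero => simp
    | succ T ih =>
      rw [Finset.sum_range_succ]
      have h2 : Real.exp (-(ε * ((T + 1 : ℕ) : ℝ))) = Real.exp (-(ε * T)) * Real.exp (-ε) := by
        rw [← Real.exp_add]
        congr 1
        push_cast
        ring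
      rw [h2]
      have h3 : (1 + ε) * Real.exp (-ε) ≤ 1 := by
        have h4 : 1 + ε ≤ Real.exp ε := by linarith [Real.add_one_le_exp ε]
        have h5 : Real.exp ε * Real.exp (-ε) = 1 := by rw [← Real.exp_add]; simp
        calc (1 + ε) * Real.exp (-ε) ≤ Real.exp ε * Real.exp (-ε) :=
            mul_le_mul_of_nonneg_right h4 (Real.exp_pos _).le
          _ = 1 := h5
      have h6 : 0 < Real.exp (-(ε * T)) := Real.exp_pos _
      have h7 : Real.exp (-(ε * T)) * ((1 + ε) * Real.exp (-ε)) ≤ Real.exp (-(ε * T)) * 1 :=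
        mul_le_mul_of_nonneg_left h3 h6.le
      nlinarith
  refine (h1 T).trans ?_
  have h2 : 0 < Real.exp (-(ε * T)) := Real.exp_pos _
  nlinarith

/-- Block NIBF (final nibble theorem) -/
theorem nibble_pr (m : ℕ) (δ : ℝ) (hδ : 0 < δ) :
    ∃ κ : ℝ, 0 < κ ∧ ∀ (V E : Type) [DecidableEq V] [Fintype E] [DecidableEq E] (V0 : Finset V)
      (w : E → ℝ) (inc : E → Finset V), (∀ e, 0 ≤ w e) → (∀ e, w e ≤ κ) → (∀ e, inc e ⊆ V0) →
      (∀ e, (inc e).card ≤ m) →
      (∀ v ∈ V0, 1 ≤ ∑ e ∈ univ.filter (fun e => v ∈ inc e), w e) →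
      (∀ v v', v ≠ v' → (∑ e ∈ univ.filter (fun e => v ∈ inc e ∧ v' ∈ inc e), w e) ≤ κ) →
      ∃ F : Finset E, (F.card : ℝ) + ((V0.filter (fun v => ∀ e ∈ F, v ∉ inc e)).card : ℝ) ≤
        (1 + δ) * (∑ e, w e) + δ * V0.card := by
  set ε := min 1 (δ / 2) with hεd
  have hε : 0 < ε := lt_min one_pos (by positivity)
  have hε1 : ε ≤ 1 := min_le_left _ _
  have hε2 : ε ≤ δ / 2 := min_le_right _ _
  obtain ⟨T, hT⟩ : ∃ T : ℕ, Real.exp (-(ε * T)) ≤ δ / 2 := by
    obtain ⟨T, hT⟩ := exists_nat_gt (2 / (δ * ε))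
    refine ⟨T, ?_⟩
    have h1 : 2 / δ < ε * T := by
      rw [div_lt_iff₀ (by positivity)] at hT
      rw [div_lt_iff₀ hδ]
      nlinarith
    have h2 : 2 / δ ≤ Real.exp (ε * T) := by
      have := Real.add_one_le_exp (ε * T)
      linarith
    rw [Real.exp_neg]
    have h3 : 0 < 2 / δ := by positivity
    calc (Real.exp (ε * T))⁻¹ ≤ (2 / δ)⁻¹ := inv_anti₀ h3 h2
      _ = δ / 2 := by rw [inv_div]
  set M := Real.exp (ε * T * m) with hM
  have hM1 : 1 ≤ M := nibi_M_ge m T ε hε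
  set η := min (δ / 2) (δ / (2 * (T * M + 1))) with hη
  have hη0 : 0 < η := lt_min (by positivity) (by positivity)
  have hη1 : η ≤ δ / 2 := min_le_left _ _
  have hη2 : T * (M * η) ≤ δ / 2 := by
    have h1 : η ≤ δ / (2 * (T * M + 1)) := min_le_right _ _
    rw [le_div_iff₀ (by positivity)] at h1
    nlinarith
  obtain ⟨κ, hκ, hall⟩ := nibf_all m ε hε hε1 (max m 1) η hη0 T
  refine ⟨min κ (1 / M), lt_min hκ (by positivity), ?_⟩
  intro V E _ _ _ V0 w inc h0 h1 hV hm hd hc
  have k1 : min κ (1 / M) ≤ κ := min_le_left _ _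
  have k2 : min κ (1 / M) ≤ 1 / M := min_le_right _ _
  obtain ⟨inc', hsub, hd'⟩ := nib_thin_pr V0 w inc (min κ (1 / M)) h0 h1 hV hd
  have hV' : ∀ e, inc' e ⊆ V0 := fun e => (hsub e).trans (hV e)
  have hm' : ∀ e, (inc' e).card ≤ m := fun e => (Finset.card_le_card (hsub e)).trans (hm e)
  have hc' : ∀ v v', v ≠ v' →
      (∑ e ∈ univ.filter (fun e => v ∈ inc' e ∧ v' ∈ inc' e), w e) ≤ κ := by
    intro v v' hv
    refine (le_trans ?_ (hc v v' hv)).trans k1
    refine Finset.sum_le_sum_of_subset_of_nonneg ?_ fun e _ _ => h0 e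
    intro e he
    rw [Finset.mem_filter] at he ⊢
    exact ⟨he.1, hsub e he.2.1, hsub e he.2.2⟩
  have hP := fun (s : ℕ) (hs : s ≤ T) => hall s hs V E V0 w inc' h0 (fun e => (h1 e).trans k1)
    hV' hm' (fun v hv => ⟨(hd' v hv).1, (hd' v hv).2.trans (by linarith)⟩) hc'
  have ha0 : ∀ s e, 0 ≤ act w inc' ε s e := fun s e => nibi_act_nonneg w inc' s ε h0 hε e
  have hMs : ∀ s ≤ T, Real.exp (ε * s * m) ≤ M := by
    intro s hs
    refine Real.exp_le_exp.mpr ?_
    have : (s : ℝ) ≤ T := by exact_mod_cast hs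
    have h4 : ε * s ≤ ε * T := mul_le_mul_of_nonneg_left this hε.le
    exact mul_le_mul_of_nonneg_right h4 (by positivity)
  have ha1 : ∀ s < T, ∀ e, act w inc' ε s e ≤ 1 := by
    intro s hs e
    refine (nibi_act_le w inc' m s ε h0 hm' hε e).trans ?_
    have h2 : ε * w e ≤ 1 / M := by nlinarith [h0 e, h1 e]
    calc ε * w e * Real.exp (ε * s * m) ≤ 1 / M * M :=
        mul_le_mul h2 (hMs s hs.le) (Real.exp_pos _).le (by positivity)
      _ = 1 := by field_simp
  obtain ⟨F, hF⟩ := nib_choice_pr V0 inc' hV' (act w inc' ε) ha0 T ha1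
  refine ⟨F, ?_⟩
  have h2 : ((V0.filter (fun v => ∀ e ∈ F, v ∉ inc e)).card : ℝ) ≤
      ((V0.filter (fun v => ∀ e ∈ F, v ∉ inc' e)).card : ℝ) := by
    have h3 : V0.filter (fun v => ∀ e ∈ F, v ∉ inc e) ⊆
        V0.filter (fun v => ∀ e ∈ F, v ∉ inc' e) := by
      intro v hv
      rw [Finset.mem_filter] at hv ⊢
      exact ⟨hv.1, fun e he hve => hv.2 e he (hsub e hve)⟩
    exact_mod_cast Finset.card_le_card h3
  have h3 : ∑ v ∈ V0, Ev V0 inc' (act w inc' ε) T (fun S => if {v} ⊆ S then 1 else 0) ≤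
      δ * V0.card := by
    have h4 : ∑ v ∈ V0, Ev V0 inc' (act w inc' ε) T (fun S => if {v} ⊆ S then 1 else 0) ≤
        ∑ _v ∈ V0, δ := by
      refine Finset.sum_le_sum fun v hv => ?_
      have h5 := hP T le_rfl {v} (by rwa [Finset.singleton_subset_iff])
        (by rw [Finset.card_singleton]; exact le_max_right _ _)
      rw [Finset.card_singleton, Nat.cast_one, mul_one] at h5
      have h6 := (abs_le.mp h5).2
      linarith
    rw [Finset.sum_const, nsmul_eq_mul] at h4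
    linarith
  have h4 : ∑ s ∈ range T, ∑ e, act w inc' ε s e *
      Ev V0 inc' (act w inc' ε) s (fun S => if inc' e ⊆ S then 1 else 0) ≤
      (1 + δ) * ∑ e, w e := by
    have hw : 0 ≤ ∑ e, w e := Finset.sum_nonneg fun e _ => h0 e
    have h5 : ∀ s ∈ range T, ∑ e, act w inc' ε s e *
      Ev V0 inc' (act w inc' ε) s (fun S => if inc' e ⊆ S then 1 else 0) ≤
        (ε * Real.exp (-(ε * s)) + M * η) * ∑ e, w e := by
      intro s hs
      rw [Finset.mem_range] at hs
      rw [Finset.mul_sum]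
      refine Finset.sum_le_sum fun e _ => ?_
      have h6 := hP s hs.le (inc' e) (hV' e) ((hm' e).trans (le_max_left _ _))
      have h7 := (abs_le.mp h6).2
      have h8 : Ev V0 inc' (act w inc' ε) s (fun S => if inc' e ⊆ S then 1 else 0) ≤
          Real.exp (-(ε * s * (inc' e).card)) + η := by linarith
      have h9 : act w inc' ε s e * Real.exp (-(ε * s * (inc' e).card)) =
          ε * w e * Real.exp (-(ε * s)) := by
        unfold act
        rw [mul_assoc, ← Real.exp_add]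
        congr 2
        ring
      have h10 : act w inc' ε s e ≤ w e * M := by
        refine (nibi_act_le w inc' m s ε h0 hm' hε e).trans ?_
        have h11 : ε * w e ≤ w e := by nlinarith [h0 e]
        exact mul_le_mul h11 (hMs s hs.le) (Real.exp_pos _).le (h0 e)
      calc act w inc' ε s e *
          Ev V0 inc' (act w inc' ε) s (fun S => if inc' e ⊆ S then 1 else 0) ≤
          act w inc' ε s e * (Real.exp (-(ε * s * (inc' e).card)) + η) :=
            mul_le_mul_of_nonneg_left h8 (ha0 s e)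
        _ = ε * w e * Real.exp (-(ε * s)) + act w inc' ε s e * η := by rw [mul_add, h9]
        _ ≤ ε * w e * Real.exp (-(ε * s)) + w e * M * η := by
            have := mul_le_mul_of_nonneg_right h10 hη0.le
            linarith
        _ = _ := by ring
    refine (Finset.sum_le_sum h5).trans ?_
    rw [← Finset.sum_mul, Finset.sum_add_distrib, Finset.sum_const, nsmul_eq_mul,
      Finset.card_range]
    refine mul_le_mul_of_nonneg_right ?_ hw
    have h6 := nibf_geom ε hε T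
    linarith
  linarith

end NIB

end Pool.Agent.Lib_helper46.CC

namespace Pool.Agent.Lib_helper46.CC

alias nibble := nibble_pr

end Pool.Agent.Lib_helper46.CC
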