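import Mathlib
import Pool.Agent.Lib_helper46.CCF.WBase

/-! Block PAR, written by helper30. -/

set_option autoImplicit false

namespace Pool.Agent.Lib_helper46.CC

open Finset Pool.Agent.Lib_helper70.Chains
open scoped Classical

section GLOBAL

theorem par_exists_pr (r q : ℕ) (hr : 1 ≤ r) (hq : 2 ≤ q) (K : ℝ) (hK : 0 < K) :
    ∃ n0 : ℕ, ∀ n ≥ n0, ∃ t z y h : ℕ, Reg r q K n t z y h := by
  set W : ℕ := q ^ 16 * (r + 1) with hW
  have hWpos : 0 < W := by positivity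
  have hq4 : 0 < q ^ 4 := by positivity
  have hq4' : 16 ≤ q ^ 4 := by
    calc 16 = 2 ^ 4 := by norm_num
      _ ≤ q ^ 4 := Nat.pow_le_pow_left hq 4
  refine ⟨2 * r * q ^ 4 + 2 * q ^ 4 + q ^ 4 * W, ?_⟩
  intro n hn
  set z : ℕ := n / (r * q ^ 4) with hz
  set Y : ℕ := n / q ^ 4 with hY
  have hrq : 0 < r * q ^ 4 := by positivity
  have hz1 : r * q ^ 4 * z ≤ n := Nat.mul_div_le n (r * q ^ 4)
  have hz2 : n < r * q ^ 4 * z + r * q ^ 4 := by
    have := Nat.lt_mul_div_succ n hrq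
    rw [← hz] at this
    linarith
  have hY1 : q ^ 4 * Y ≤ n := Nat.mul_div_le n (q ^ 4)
  have hY2 : n < q ^ 4 * Y + q ^ 4 := by
    have := Nat.lt_mul_div_succ n hq4
    rw [← hY] at this
    linarith
  have hrz : q ^ 4 * (r * z) ≤ n := by
    calc q ^ 4 * (r * z) = r * q ^ 4 * z := by ring
      _ ≤ n := hz1
  have hrz16 : 16 * (r * z) ≤ n := (Nat.mul_le_mul_right _ hq4').trans hrz
  have hY16 : 16 * Y ≤ n := (Nat.mul_le_mul_right _ hq4').trans hY1
  set t : ℕ := (n - r * z - Y) / W with ht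
  have ht1 : W * t ≤ n - r * z - Y := Nat.mul_div_le _ W
  have ht2 : n - r * z - Y < W * t + W := by
    have := Nat.lt_mul_div_succ (n - r * z - Y) hWpos
    rw [← ht] at this
    linarith
  refine ⟨t, z, n - r * z - W * t, ⌈K * Real.sqrt n / (q : ℝ) ^ 14⌉₊, ?_⟩
  have hy1 : Y ≤ n - r * z - W * t := by omega
  have hy2 : n - r * z - W * t ≤ Y + W := by omega
  have hq14 : (0 : ℝ) < (q : ℝ) ^ 14 := by
    have : (0 : ℝ) < q := by exact_mod_cast (by omega : 0 < q)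
    positivity
  have hsq : 0 ≤ K * Real.sqrt n / (q : ℝ) ^ 14 := by positivity
  refine ⟨?_, ?_, ?_, ?_, ?_, ?_, ?_⟩
  · have h1 : q ^ 16 * ((r + 1) * t) = W * t := by rw [hW]; ring
    rw [h1]
    omega
  · have h1 : q ^ 4 * Y ≤ q ^ 4 * (n - r * z - W * t) := Nat.mul_le_mul_left _ hy1
    nlinarith
  · have h1 : q ^ 4 * (n - r * z - W * t) ≤ q ^ 4 * (Y + W) := Nat.mul_le_mul_left _ hy2
    nlinarith
  · have h1 : 2 * q ^ 4 * (r * z) = 2 * (r * q ^ 4 * z) := by ring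
    rw [h1]
    nlinarith
  · omega
  · have h1 := Nat.le_ceil (K * Real.sqrt n / (q : ℝ) ^ 14)
    rw [div_le_iff₀ hq14] at h1
    linarith
  · have h1 := (Nat.ceil_lt_add_one hsq).le
    have h2 := mul_le_mul_of_nonneg_left h1 hq14.le
    have h3 : (q : ℝ) ^ 14 * (K * Real.sqrt n / (q : ℝ) ^ 14 + 1) = K * Real.sqrt n + (q : ℝ) ^ 14 := by
      field_simp
    linarith


end GLOBAL

end Pool.Agent.Lib_helper46.CC

namespace Pool.Agent.Lib_helper46.CC

alias par_exists := par_exists_pr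

end Pool.Agent.Lib_helper46.CC
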