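import Mathlib
import Pool.Agent.Lib_helper46.CCF.WBase
import Pool.Agent.Lib_helper46.CCF.FAR
import Pool.Agent.Lib_helper46.CCF.KER
import Pool.Agent.Lib_helper46.CCF.VBD
import Pool.Agent.Lib_helper46.CCF.CHO
import Pool.Agent.Lib_helper46.CCF.PAR
import Pool.Agent.Lib_helper46.CCF.CEL
import Pool.Agent.Lib_helper46.CCF.NIBF
import Pool.Agent.Lib_helper46.CCF.ZBK
import Pool.Agent.Lib_helper46.CCF.DEG
import Pool.Agent.Lib_helper46.CCF.WTN
import Pool.Agent.Lib_helper46.CCF.GLO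
import Pool.Agent.Lib_helper46.CCF.CNT
import Pool.Agent.Lib_helper46.CCF.INV
import Pool.Agent.Lib_helper46.CCF.CLA
import Pool.Agent.Lib_helper46.CCF.Final

set_option autoImplicit false

namespace Pool.Agent.Lib_helper46.CC

open Finset Pool.Agent.Lib_helper70.Chains Filter
open scoped Classical

/-- the far family, transported to the structured ground set -/
theorem far_transport (r y z R t n : ℕ) (hn : n = y + r * z + R * ((r + 1) * t)) (K : ℝ)
    (G : Finset (Finset (Finset (Fin n))))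
    (hG1 : ∀ C ∈ G, IsChain (· ⊆ ·) (C : Set (Finset (Fin n))))
    (hG2 : ∀ w : Fin n → Fin (r + 1),
        (∃ m : Fin r, K * Real.sqrt n ≤ |(cl w m : ℝ) - ((m : ℝ) + 1) * n / (r + 1)|) →
        ∃ C ∈ G, ∀ m : Fin r, univ.filter (fun x => (w x : ℕ) ≤ (m : ℕ)) ∈ C) :
    ∃ G' : Finset (Finset (Finset (Gr r y z R t))), G'.card ≤ G.card ∧
      (∀ C ∈ G', IsChain (· ⊆ ·) (C : Set (Finset (Gr r y z R t)))) ∧
      ∀ w : Word r y z R t,
        (∃ m : Fin r, K * Real.sqrt n ≤ |(typ w m : ℝ) - ((m : ℝ) + 1) * n / (r + 1)|) →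
        ∃ C ∈ G', ∀ m : Fin r, low w m ∈ C := by
  have hcard : Fintype.card (Fin n) = Fintype.card (Gr r y z R t) := by
    rw [card_Gr, ← hn, Fintype.card_fin]
  let e : Fin n ≃ Gr r y z R t := Fintype.equivOfCardEq hcard
  refine ⟨G.image (fun C => C.image (Finset.map e.toEmbedding)), card_image_le, ?_, ?_⟩
  · intro C hC
    rw [mem_image] at hC
    obtain ⟨C0, hC0, rfl⟩ := hC
    intro S hS S' hS' _
    simp only [coe_image, Set.mem_image, mem_coe] at hS hS'
    obtain ⟨S0, hS0, rfl⟩ := hS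
    obtain ⟨S0', hS0', rfl⟩ := hS'
    rcases (hG1 C0 hC0).total hS0 hS0' with h | h
    · left; exact map_subset_map.2 h
    · right; exact map_subset_map.2 h
  · intro w hw
    obtain ⟨m0, hm0⟩ := hw
    have hcl : ∀ m, cl (fun x => wv w (e x)) m = typ w m := by
      intro m
      rw [typ_eq]
      unfold cl
      apply card_bij (fun x _ => e x)
      · intro x hx
        simpa using hx
      · intro x _ x' _ h
        exact e.injective h
      · intro x hx
        refine ⟨e.symm x, ?_, by simp⟩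
        simpa using hx
    obtain ⟨C, hC, hC2⟩ := hG2 (fun x => wv w (e x)) ⟨m0, by rw [hcl]; exact hm0⟩
    refine ⟨C.image (Finset.map e.toEmbedding), mem_image_of_mem _ hC, fun m => ?_⟩
    rw [mem_image]
    refine ⟨_, hC2 m, ?_⟩
    ext x
    simp only [low, mem_map_equiv, mem_filter, mem_univ, true_and, Equiv.apply_symm_apply]

theorem pow_near (r : ℕ) (x : ℝ) (hx : 0 < x) : ∃ κ : ℝ, 0 < κ ∧ κ ≤ 1 ∧
    ∀ κ' : ℝ, 0 ≤ κ' → κ' ≤ κ → (1 + κ') ^ r ≤ 1 + x := by
  have h1 : Tendsto (fun κ : ℝ => (1 + κ) ^ r) (nhds 0) (nhds 1) := by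
    have : Tendsto (fun κ : ℝ => (1 + κ) ^ r) (nhds 0) (nhds ((1 + 0) ^ r)) := by
      apply Continuous.tendsto
      fun_prop
    simpa using this
  have h2 : ∀ᶠ κ : ℝ in nhds 0, (1 + κ) ^ r < 1 + x := h1.eventually_lt_const (by linarith)
  rw [Metric.eventually_nhds_iff] at h2
  obtain ⟨d, hd, h3⟩ := h2
  refine ⟨min (d / 2) 1, by positivity, min_le_right _ _, fun κ' h4 h5 => ?_⟩
  have h6 : κ' ≤ d / 2 := h5.trans (min_le_left _ _)
  apply le_of_lt
  apply h3
  rw [Real.dist_eq, sub_zero, abs_of_nonneg h4]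
  linarith

theorem main_aux1 {a b : ℝ} (ha : 1 ≤ a) (hb : 1 ≤ b) : 1 ≤ a * b := by nlinarith

theorem main_aux2 {x θ : ℝ} (hx : 0 < x) (hθ : 1 / 2 ≤ θ) : x / 2 ≤ x * θ := by nlinarith

theorem main_aux3 {ε θ : ℝ} (h0 : 0 < ε) (h1 : ε ≤ 1) (h : 1 - ε / 20 ≤ θ) (hθ : 0 < θ) :
    1 / θ ≤ 1 + ε / 4 := by
  rw [div_le_iff₀ hθ]
  nlinarith

theorem main_aux4 {ε : ℝ} (h0 : 0 < ε) (h1 : ε ≤ 1) :
    (1 + ε / 16) * ((1 + ε / 16) * (1 + ε / 4)) ≤ 1 + ε / 2 := by
  nlinarith [mul_pos h0 h0]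

theorem main_aux5 {a b P : ℝ} (ha : 0 ≤ a) (hb : 1 ≤ b) (h : a * b ≤ P) : a ≤ P := by nlinarith

theorem main_aux6 {ε η M x : ℝ} (h0 : 0 ≤ ε * M) (h1 : 5 * η * M ≤ ε / 4 * M)
    (h2 : x ≤ (1 + ε / 2) * M) :
    η * M + η * M + 3 * η * M + (x + ε / 16 * M) ≤ (1 + ε) * M := by nlinarith

/-- `nibble` without decidability instances -/
theorem nibble' (m : ℕ) (δ : ℝ) (hδ : 0 < δ) :
    ∃ κ : ℝ, 0 < κ ∧ ∀ (V E : Type) [Fintype E] (V0 : Finset V)
      (w : E → ℝ) (inc : E → Finset V), (∀ e, 0 ≤ w e) → (∀ e, w e ≤ κ) → (∀ e, inc e ⊆ V0) →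
      (∀ e, (inc e).card ≤ m) →
      (∀ v ∈ V0, ∃ s : Finset E, (∀ e, e ∈ s ↔ v ∈ inc e) ∧ 1 ≤ ∑ e ∈ s, w e) →
      (∀ v v', v ≠ v' → ∃ s : Finset E, (∀ e, e ∈ s ↔ v ∈ inc e ∧ v' ∈ inc e) ∧
        ∑ e ∈ s, w e ≤ κ) →
      ∃ (F : Finset E) (s : Finset V), (∀ v, v ∈ s ↔ v ∈ V0 ∧ ∀ e ∈ F, v ∉ inc e) ∧
        (F.card : ℝ) + (s.card : ℝ) ≤ (1 + δ) * (∑ e, w e) + δ * V0.card := by
  obtain ⟨κ, hκ, h⟩ := nibble m δ hδ
  refine ⟨κ, hκ, ?_⟩
  intro V E _ V0 w inc h0 h1 h2 h3 h4 h5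
  have h6 := h V E V0 w inc h0 h1 h2 h3 (by
    intro v hv
    obtain ⟨s, hs, hs2⟩ := h4 v hv
    refine le_trans hs2 (le_of_eq (sum_congr ?_ (fun _ _ => rfl)))
    ext e
    simp [hs e]) (by
    intro v v' hv
    obtain ⟨s, hs, hs2⟩ := h5 v v' hv
    refine le_trans (le_of_eq (sum_congr ?_ (fun _ _ => rfl))) hs2
    ext e
    simp [hs e])
  obtain ⟨F, hF⟩ := h6
  refine ⟨F, V0.filter (fun v => ∀ e ∈ F, v ∉ inc e), fun v => by simp, ?_⟩
  convert hF

theorem upper (r : ℕ) (hr : 1 ≤ r) (ε : ℝ) (hε : 0 < ε) (hε1 : ε ≤ 1) :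
    ∃ n0 : ℕ, ∀ n ≥ n0, (coverNumber n r : ℝ) ≤ (1 + ε) * maxMultinomial n r := by
  have hr0 : (1 : ℝ) ≤ r := by exact_mod_cast hr
  set η : ℝ := ε / (20 * (r + 2)) with hηdef
  have hη : 0 < η := by positivity
  have hη2 : (r + 2 : ℝ) * η = ε / 20 := by
    rw [hηdef]
    field_simp
  have hη1 : η ≤ 1 / 60 := by
    have : (3 : ℝ) * η ≤ (r + 2 : ℝ) * η := by
      apply mul_le_mul_of_nonneg_right _ hη.le
      linarith
    linarith
  set θ : ℝ := (1 - 2 * η) * (1 - η) ^ r with hθdef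
  have hθ : 1 - ε / 20 ≤ θ := by
    have h1 : 1 - r * η ≤ (1 - η) ^ r := by
      have := one_add_mul_le_pow (a := -η) (by linarith) r
      have e1 : 1 + (r : ℝ) * -η = 1 - r * η := by ring
      have e2 : (1 + -η) ^ r = (1 - η) ^ r := by ring_nf
      rw [e1, e2] at this
      exact this
    have h2 : (1 - 2 * η) * (1 - r * η) ≤ (1 - 2 * η) * (1 - η) ^ r :=
      mul_le_mul_of_nonneg_left h1 (by linarith)
    have h3 : 0 ≤ 2 * η * (r * η) := by positivity
    have h4 : (1 - 2 * η) * (1 - r * η) = 1 - (r + 2) * η + 2 * η * (r * η) := by ring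
    rw [hθdef]
    linarith
  have hθ0 : 0 < θ := by linarith
  -- constants
  obtain ⟨K, hK, nF, hFar⟩ := far r hr η hη
  obtain ⟨q1, hq1⟩ := ker_exists r hr K η hK hη (by linarith)
  obtain ⟨q2, hq2⟩ := vbad r hr K η hK hη
  obtain ⟨q3, hq3⟩ := choose_fn r hr K η η hK hη
  obtain ⟨q, hqq⟩ : ∃ q : ℕ, q = max (max q1 q2) (max q3 2) := ⟨_, rfl⟩
  have hqq1 : q1 ≤ q := by omega
  have hqq2 : q2 ≤ q := by omega
  have hqq3 : q3 ≤ q := by omega
  have hq : 2 ≤ q := by omega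
  obtain ⟨B, nK, hker⟩ := hq1 q hqq1
  obtain ⟨nV, hvb⟩ := hq2 q hqq2
  obtain ⟨nC, hch⟩ := hq3 q hqq3 B
  obtain ⟨nP, hpar⟩ := par_exists r q hr hq K hK
  obtain ⟨nE, hcel⟩ := cell_exists r q hr (by omega) K hK
  set k : ℕ := q ^ 14 with hk
  have hk2 : 2 ≤ k := by
    calc 2 ≤ q := hq
      _ = q ^ 1 := (pow_one q).symm
      _ ≤ q ^ 14 := Nat.pow_le_pow_right (by omega) (by norm_num)
  have hk0 : 0 < k := by omega
  set KR : ℝ := ((2 * k : ℕ) : ℝ) ^ r with hKR
  have hKR0 : 0 < KR := by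
    rw [hKR]
    have : (0 : ℝ) < ((2 * k : ℕ) : ℝ) := by exact_mod_cast (by omega)
    positivity
  have hKR1 : 1 ≤ KR := by
    rw [hKR]
    apply one_le_pow₀
    exact_mod_cast (by omega : 1 ≤ 2 * k)
  obtain ⟨κN, hκN, hnib⟩ := nibble' (k ^ r) (ε / (16 * KR)) (by positivity)
  obtain ⟨κa, hκa, hκa1, hκa2⟩ := pow_near r (ε / 16) (by positivity)
  set P : ℝ := (|B| + 1) ^ (r * k) * (|B| + 1) ^ r with hP
  have hP1 : 1 ≤ P := by
    have h1 : (1 : ℝ) ≤ |B| + 1 := by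
      have := abs_nonneg B
      linarith
    have h2 : 1 ≤ (|B| + 1) ^ (r * k) := one_le_pow₀ h1
    have h3 : 1 ≤ (|B| + 1) ^ r := one_le_pow₀ h1
    rw [hP]
    exact main_aux1 h2 h3
  have hP0 : 0 < P := by linarith
  set κz : ℝ := min κa (κN / (2 * 2 ^ r * P)) with hκz
  have hκz0 : 0 < κz := by
    rw [hκz]
    apply lt_min hκa
    positivity
  have hκz1 : κz ≤ 1 := (min_le_left _ _).trans hκa1
  have hκz2 : κz * (2 * 2 ^ r * P) ≤ κN := by
    have h1 : κz ≤ κN / (2 * 2 ^ r * P) := min_le_right _ _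
    rwa [le_div_iff₀ (by positivity)] at h1
  have hq0 : (0 : ℝ) < q := by exact_mod_cast (by omega : 0 < q)
  obtain ⟨z0, hz0⟩ := z_bounds r k hr hk2 (q : ℝ) κz hq0 hκz0
  refine ⟨nF + nK + nV + nC + nP + nE + (2 * q ^ 4 * (r * z0)) + r + 2, fun n hn => ?_⟩
  obtain ⟨t, z, y, h, hreg⟩ := hpar n (by omega)
  obtain ⟨κ⟩ := hker n (by omega) t z y h hreg
  obtain ⟨Fn, hFn⟩ := hch n (by omega) t z y h hreg κ
  have hVB := hvb n (by omega) t z y h hreg Fn
  obtain ⟨G, hG1, hG2, hG3⟩ := hFar n (by omega)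
  have hcell := hcel n (by omega) t z y h hreg
  set f0 : Fin r → ℕ := F0 r q n h with hf0
  set M : ℝ := (maxMultinomial n r : ℝ) with hM
  have hM0 : 0 ≤ M := by
    rw [hM]
    positivity
  -- z and t are large
  have hzz : z0 ≤ z := by
    by_contra hcon
    push_neg at hcon
    have h1 := hreg.z_ge
    have h2 : r * z ≤ r * z0 := Nat.mul_le_mul_left r hcon.le
    have h3 : 2 * q ^ 4 * (r * z) ≤ 2 * q ^ 4 * (r * z0) := Nat.mul_le_mul_left _ h2
    omega
  have ht : 0 < t := by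
    rcases Nat.eq_zero_or_pos t with h0 | h0
    · exfalso
      have h1 := hreg.sum
      rw [h0] at h1
      simp only [mul_zero, add_zero] at h1
      have h2 := hreg.y_le
      have h3 := hreg.z_le
      have h4 : 16 ≤ q ^ 4 := by
        calc 16 = 2 ^ 4 := by norm_num
          _ ≤ q ^ 4 := Nat.pow_le_pow_left hq 4
      have h5 : 16 * y ≤ q ^ 4 * y := Nat.mul_le_mul_right _ h4
      have h6 : 16 * (r * z) ≤ q ^ 4 * (r * z) := Nat.mul_le_mul_right _ h4
      omega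
    · exact h0
  obtain ⟨G', hG'c, hG'1, hG'2⟩ := far_transport r y z (q ^ 16) t n hreg.sum K G hG1 hG3
  -- number of units
  have hcorner : ∀ (Pr : Word r y z (q ^ 16) t → Prop) (i : Fin r → Fin k),
      (∑ ρ : Fin r → Bool, (univ.filter (fun w : Word r y z (q ^ 16) t =>
        (∀ m, typ w m = bot f0 h i m + if ρ m = true then 2 * h else 0) ∧
          OkW f0 h Fn i w ∧ Pr w)).card) ≤ 2 ^ r * maxMultinomial n r := by
    intro Pr i
    calc _ ≤ ∑ ρ : Fin r → Bool, maxMultinomial n r := by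
          apply sum_le_sum
          intro ρ _
          refine le_trans (card_le_card ?_) (card_typ r hr y z (q ^ 16) t n hreg.sum (by omega)
            (fun m => bot f0 h i m + if ρ m = true then 2 * h else 0))
          intro w hw
          simp only [mem_filter, mem_univ, true_and] at hw ⊢
          exact hw.1
      _ = 2 ^ r * maxMultinomial n r := by
          rw [sum_const, smul_eq_mul]
          simp
  have hVcard : ((fV (y := y) κ (q : ℝ) (2 * η) f0 Fn).card : ℝ) ≤ KR * M := by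
    have h1 : (fV (y := y) κ (q : ℝ) (2 * η) f0 Fn).card ≤ ∑ i : Fin r → Fin k,
        (univ.filter (fun w : Word r y z (q ^ 16) t => InC f0 h i w ∧ OkW f0 h Fn i w ∧
          Rp κ f0 Fn i w ∧ Good κ (q : ℝ) (2 * η) f0 Fn i w)).card := by
      rw [← card_sigma]
      apply card_le_card_of_injOn (fun v => (⟨v.1, v.2⟩ : Σ _ : Fin r → Fin k,
        Word r y z (q ^ 16) t))
      · intro v hv
        simp only [fV, coe_filter, mem_univ, true_and] at hv
        simp only [coe_sigma, Set.mem_sigma_iff, mem_coe, mem_univ, true_and, mem_filter]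
        exact hv
      · intro v _ v' _ hvv
        simp only [Sigma.mk.injEq] at hvv
        exact Prod.ext hvv.1 (eq_of_heq hvv.2)
    have h2 : (fV (y := y) κ (q : ℝ) (2 * η) f0 Fn).card ≤ ∑ i : Fin r → Fin k,
        2 ^ r * maxMultinomial n r := by
      refine h1.trans (sum_le_sum fun i _ => ?_)
      refine le_trans (count_units κ f0 Fn i ht (fun w => Good κ (q : ℝ) (2 * η) f0 Fn i w) ?_)
        (hcorner _ i)
      intro w S h3 h4 h5
      exact good_inv κ (q : ℝ) (2 * η) f0 Fn i w ht h3 h4 S h5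
    rw [sum_const, smul_eq_mul] at h2
    simp only [card_univ, Fintype.card_pi, Fintype.card_fin, prod_const] at h2
    have h3 : (((fV (y := y) κ (q : ℝ) (2 * η) f0 Fn).card : ℕ) : ℝ) ≤
        ((k ^ r * (2 ^ r * maxMultinomial n r) : ℕ) : ℝ) := by exact_mod_cast h2
    refine h3.trans (le_of_eq ?_)
    rw [hKR, hM]
    push_cast
    rw [mul_pow]
    ring
  have hbad : ((∑ i : Fin r → Fin k, (univ.filter (fun w : Word r y z (q ^ 16) t =>
      InC f0 h i w ∧ OkW f0 h Fn i w ∧ Rp κ f0 Fn i w ∧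
        ¬ Good κ (q : ℝ) (2 * η) f0 Fn i w)).card : ℕ) : ℝ) ≤ 3 * η * M := by
    refine le_trans ?_ hFn
    have h1 : (∑ i : Fin r → Fin k, (univ.filter (fun w : Word r y z (q ^ 16) t =>
      InC f0 h i w ∧ OkW f0 h Fn i w ∧ Rp κ f0 Fn i w ∧
        ¬ Good κ (q : ℝ) (2 * η) f0 Fn i w)).card) ≤
      (∑ i : Fin r → Fin k, ∑ ρ : Fin r → Bool,
          (univ.filter (fun w : Word r y z (q ^ 16) t =>
            (∀ m, typ w m = bot f0 h i m + if ρ m = true then 2 * h else 0) ∧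
              OkW f0 h Fn i w ∧ ¬ Good κ (q : ℝ) (2 * η) f0 Fn i w)).card) := by
      refine sum_le_sum fun i _ => ?_
      have h6 := count_units (y := y) κ f0 Fn i ht
        (fun w => ¬ Good κ (q : ℝ) (2 * η) f0 Fn i w) (by
        intro w S h3 h4 h5
        exact not_congr (good_inv κ (q : ℝ) (2 * η) f0 Fn i w ht h3 h4 S h5))
      refine le_trans (le_trans (le_of_eq ?_) h6) (le_of_eq ?_)
      · congr 1
        ext w
        simp only [mem_filter]
      · refine sum_congr rfl fun ρ _ => ?_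
        congr 1
        ext w
        simp only [mem_filter]
    exact_mod_cast h1
  -- the kernel constant
  have hB1 : 1 ≤ B := κ.oneB
  have hBP : B ^ (r * k) * B ^ r ≤ P := by
    rw [hP]
    have h1 : B ≤ |B| + 1 := by
      have := le_abs_self B
      linarith
    have h2 : 0 ≤ B := by linarith
    apply mul_le_mul (pow_le_pow_left₀ h2 h1 _) (pow_le_pow_left₀ h2 h1 _) (by positivity)
    positivity
  have hBP1 : B ^ (r * k) ≤ P := by
    have h1 : 1 ≤ B ^ r := one_le_pow₀ hB1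
    have h2 : 0 ≤ B ^ (r * k) := by positivity
    exact main_aux5 h2 h1 hBP
  have hzb := hz0 z hzz
  have hcd2 : κz * (1 + κz) ^ r * B ^ (r * k) * B ^ r ≤ κN * θ := by
    have h4 : (1 + κz) ^ r ≤ 2 ^ r := pow_le_pow_left₀ (by linarith) (by linarith) r
    have h5 : κz * (1 + κz) ^ r * B ^ (r * k) * B ^ r ≤ κz * 2 ^ r * P := by
      calc κz * (1 + κz) ^ r * B ^ (r * k) * B ^ r
          = κz * (1 + κz) ^ r * (B ^ (r * k) * B ^ r) := by ring
        _ ≤ κz * 2 ^ r * P := by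
            apply mul_le_mul (mul_le_mul_of_nonneg_left h4 hκz0.le) hBP (by positivity)
              (by positivity)
    have h6 : κz * 2 ^ r * P * 2 ≤ κN := by
      calc κz * 2 ^ r * P * 2 = κz * (2 * 2 ^ r * P) := by ring
        _ ≤ κN := hκz2
    have h9 : κN / 2 ≤ κN * θ := main_aux2 hκN (by linarith)
    linarith
  -- the nibble
  have hnibble := hnib ((Fin r → Fin k) × Word r y z (q ^ 16) t) (Edge r y z (q ^ 16) t k h)
    (fV (y := y) κ (q : ℝ) (2 * η) f0 Fn) (fun e => wt κ (q : ℝ) f0 Fn e / θ)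
    (fI κ (q : ℝ) (2 * η) f0 Fn)
    (fun e => div_nonneg (wt_nonneg κ (q : ℝ) f0 Fn e) hθ0.le)
    (by
      intro e
      rw [div_le_iff₀ hθ0]
      have h1 := wt_le κ (q : ℝ) f0 Fn e
      have h2 : (∏ m, wz (q : ℝ) m (e.2.1 m)) ≤ κz := by
        have hm0 : (⟨0, hr⟩ : Fin r) ∈ (univ : Finset (Fin r)) := mem_univ _
        rw [← mul_prod_erase univ _ hm0]
        have h3 : ∏ m ∈ univ.erase (⟨0, hr⟩ : Fin r), wz (q : ℝ) m (e.2.1 m) ≤ 1 := by
          apply prod_le_one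
          · intro m _
            unfold wz
            split_ifs <;> positivity
          · intro m _
            exact ((hzb m).2.2.2 _).trans hκz1
        have h4 := (hzb (⟨0, hr⟩ : Fin r)).2.2.2 (e.2.1 ⟨0, hr⟩)
        have h5 : 0 ≤ wz (q : ℝ) (⟨0, hr⟩ : Fin r) (e.2.1 ⟨0, hr⟩) := by
          unfold wz
          split_ifs <;> positivity
        calc _ ≤ wz (q : ℝ) (⟨0, hr⟩ : Fin r) (e.2.1 ⟨0, hr⟩) * 1 :=
              mul_le_mul_of_nonneg_left h3 h5
          _ ≤ κz := by linarith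
      have h6 : (∏ m, wz (q : ℝ) m (e.2.1 m)) * B ^ (r * k) ≤ κz * P :=
        mul_le_mul h2 hBP1 (by positivity) hκz0.le
      have h7 : (1 : ℝ) ≤ 2 ^ r := one_le_pow₀ (by norm_num)
      have h8 : κz * P * 2 ≤ κN := by
        calc κz * P * 2 ≤ κz * P * 2 * 2 ^ r := le_mul_of_one_le_right (by positivity) h7
          _ = κz * (2 * 2 ^ r * P) := by ring
          _ ≤ κN := hκz2
      have h9 : κN / 2 ≤ κN * θ := main_aux2 hκN (by linarith)
      linarith)
    (fun e => filter_subset _ _)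
    (fun e => fI_card κ (q : ℝ) (2 * η) f0 Fn e)
    (by
      intro v hv
      have h1 := fI_sum κ (q : ℝ) (2 * η) f0 Fn v hv θ
      simp only [fV, mem_filter, mem_univ, true_and] at hv
      have h2 := deg_lower κ (q : ℝ) (2 * η) (by linarith) (by linarith) f0 Fn v.1 v.2 hv.1 hv.2.1
        hv.2.2.1 hv.2.2.2
      have h3 := (one_le_div hθ0).2 h2
      rw [← h1] at h3
      exact ⟨_, fun e => by simp, h3⟩)
    (by
      intro v v' hvv
      by_cases hcase : ∃ e, v ∈ fI κ (q : ℝ) (2 * η) f0 Fn e ∧ v' ∈ fI κ (q : ℝ) (2 * η) f0 Fn e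
      swap
      · push_neg at hcase
        refine ⟨∅, fun e => ?_, by rw [sum_empty]; exact hκN.le⟩
        constructor
        · intro he
          exact absurd he (notMem_empty e)
        · intro he
          exact absurd he.2 (hcase e he.1)
      obtain ⟨e0, he1, he2⟩ := hcase
      simp only [fI, mem_filter] at he1 he2
      have hii : v.1 ≠ v'.1 := by
        intro h1
        apply hvv
        apply Prod.ext h1
        rw [← he1.2.2.2, ← he2.2.2.2, h1]
      have hvV := he1.1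
      simp only [fV, mem_filter, mem_univ, true_and] at hvV
      have hcd := codeg κ (q : ℝ) f0 Fn (1 + κz) κz (fun m j u => (hzb m).1 j u)
        (by linarith) hκz0.le (fun m j j' u u' hj => (hzb m).2.2.1 j j' u u' hj) v.1 v'.1 hii
        v.2 v'.2 hvV.1 hvV.2.1
      have h2 : ∑ e ∈ univ.filter (fun e => v ∈ fI κ (q : ℝ) (2 * η) f0 Fn e ∧
          v' ∈ fI κ (q : ℝ) (2 * η) f0 Fn e), wt κ (q : ℝ) f0 Fn e / θ ≤
          (∑ e : Edge r y z (q ^ 16) t k h, if (FreE Fn e v.1 ∧ uw Fn e v.1 = v.2) ∧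
            (FreE Fn e v'.1 ∧ uw Fn e v'.1 = v'.2) then wt κ (q : ℝ) f0 Fn e else 0) / θ := by
        rw [sum_filter, sum_div]
        apply sum_le_sum
        intro e _
        by_cases h3 : v ∈ fI κ (q : ℝ) (2 * η) f0 Fn e ∧ v' ∈ fI κ (q : ℝ) (2 * η) f0 Fn e
        · rw [if_pos h3]
          simp only [fI, mem_filter] at h3
          rw [if_pos ⟨h3.1.2.2, h3.2.2.2⟩]
        · rw [if_neg h3]
          apply div_nonneg _ hθ0.le
          split_ifs
          · exact wt_nonneg κ (q : ℝ) f0 Fn e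
          · exact le_rfl
      have h2' : (∑ e : Edge r y z (q ^ 16) t k h, if (FreE Fn e v.1 ∧ uw Fn e v.1 = v.2) ∧
            (FreE Fn e v'.1 ∧ uw Fn e v'.1 = v'.2) then wt κ (q : ℝ) f0 Fn e else 0) / θ ≤ κN := by
        rw [div_le_iff₀ hθ0]
        refine hcd.trans ?_
        exact hcd2
      exact ⟨_, fun e => by simp, h2.trans h2'⟩)
  obtain ⟨F, sF, hsF, hF⟩ := hnibble
  have hsF2 : (fV (y := y) κ (q : ℝ) (2 * η) f0 Fn).filter
        (fun v => ∀ e ∈ F, v ∉ fI κ (q : ℝ) (2 * η) f0 Fn e) = sF := by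
    ext v
    rw [hsF v, mem_filter]
  rw [← hsF2] at hF
  have hass := assemble κ (q : ℝ) (2 * η) f0 Fn ht n hreg.sum
    (fun w => ∃ m : Fin r, K * Real.sqrt n ≤ |(typ w m : ℝ) - ((m : ℝ) + 1) * n / (r + 1)|)
    G' hG'1 hG'2 (by
      intro w hw
      apply hcell w
      intro m
      by_contra h1
      exact hw ⟨m, not_lt.1 h1⟩) F
  have hassR : (coverNumber n r : ℝ) ≤ (G'.card : ℝ) +
      ((univ.filter (fun w : Word r y z (q ^ 16) t => ∃ i : Fin r → Fin k,
          InC f0 h i w ∧ ¬ OkW f0 h Fn i w)).card : ℝ) +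
      ((∑ i : Fin r → Fin k, (univ.filter (fun w : Word r y z (q ^ 16) t => InC f0 h i w ∧
          OkW f0 h Fn i w ∧ Rp κ f0 Fn i w ∧ ¬ Good κ (q : ℝ) (2 * η) f0 Fn i w)).card : ℕ) : ℝ) +
      ((F.card : ℝ) + (((fV (y := y) κ (q : ℝ) (2 * η) f0 Fn).filter
        (fun v => ∀ e ∈ F, v ∉ fI κ (q : ℝ) (2 * η) f0 Fn e)).card : ℝ)) := by
    exact_mod_cast hass
  have hglob := glob (y := y) κ (q : ℝ) hk0 f0 Fn (1 + κz) (fun m u => (hzb m).1 ⟨0, hk0⟩ u)
  have hmid := card_typ r hr y z (q ^ 16) t n hreg.sum (by omega) (fun m => f0 m + k * h)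
  have hsum : (∑ e : Edge r y z (q ^ 16) t k h, wt κ (q : ℝ) f0 Fn e / θ) ≤
      (1 + ε / 16) * M / θ := by
    rw [← sum_div]
    apply div_le_div_of_nonneg_right _ hθ0.le
    refine hglob.trans ?_
    apply mul_le_mul (hκa2 κz hκz0.le (min_le_left _ _)) _ (by positivity) (by positivity)
    rw [hM]
    exact_mod_cast hmid
  have hG'r : (G'.card : ℝ) ≤ η * M := by
    refine le_trans ?_ hG2
    exact_mod_cast hG'c
  have hfin : (F.card : ℝ) + (((fV (y := y) κ (q : ℝ) (2 * η) f0 Fn).filter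
        (fun v => ∀ e ∈ F, v ∉ fI κ (q : ℝ) (2 * η) f0 Fn e)).card : ℝ) ≤
      (1 + ε / 16) * ((1 + ε / 16) * M / θ) + ε / 16 * M := by
    refine hF.trans ?_
    have h1 : ε / (16 * KR) ≤ ε / 16 := by
      apply div_le_div_of_nonneg_left hε.le (by norm_num)
      linarith
    have h2 : ε / (16 * KR) * ((fV (y := y) κ (q : ℝ) (2 * η) f0 Fn).card : ℝ) ≤ ε / 16 * M := by
      calc _ ≤ ε / (16 * KR) * (KR * M) := mul_le_mul_of_nonneg_left hVcard (by positivity)
        _ = ε / 16 * M := by field_simp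
    have h3 : (1 + ε / (16 * KR)) * (∑ e : Edge r y z (q ^ 16) t k h,
        wt κ (q : ℝ) f0 Fn e / θ) ≤ (1 + ε / 16) * ((1 + ε / 16) * M / θ) := by
      apply mul_le_mul (by linarith) hsum _ (by positivity)
      apply sum_nonneg
      intro e _
      exact div_nonneg (wt_nonneg κ (q : ℝ) f0 Fn e) hθ0.le
    linarith
  have h1θ : 1 / θ ≤ 1 + ε / 4 := main_aux3 hε hε1 hθ hθ0
  have hMθ : M / θ ≤ (1 + ε / 4) * M := by
    calc M / θ = (1 / θ) * M := by ring
      _ ≤ _ := mul_le_mul_of_nonneg_right h1θ hM0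
  have h7 : (1 + ε / 16) * ((1 + ε / 16) * M / θ) ≤ (1 + ε / 16) * ((1 + ε / 16) *
      ((1 + ε / 4) * M)) := by
    apply mul_le_mul_of_nonneg_left _ (by positivity)
    rw [mul_div_assoc]
    exact mul_le_mul_of_nonneg_left hMθ (by positivity)
  have h8 : (1 + ε / 16) * ((1 + ε / 16) * ((1 + ε / 4) * M)) ≤ (1 + ε / 2) * M := by
    have : (1 + ε / 16) * ((1 + ε / 16) * (1 + ε / 4)) ≤ 1 + ε / 2 := main_aux4 hε hε1
    calc _ = ((1 + ε / 16) * ((1 + ε / 16) * (1 + ε / 4))) * M := by ring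
      _ ≤ _ := mul_le_mul_of_nonneg_right this hM0
  have h9 : 5 * η ≤ ε / 4 := by
    have : (3 : ℝ) * η ≤ (r + 2 : ℝ) * η := by
      apply mul_le_mul_of_nonneg_right _ hη.le
      linarith
    linarith
  have h10 : 5 * η * M ≤ ε / 4 * M := mul_le_mul_of_nonneg_right h9 hM0
  have h11 : 0 ≤ ε * M := by positivity
  have hVB' : ((univ.filter (fun w : Word r y z (q ^ 16) t => ∃ i : Fin r → Fin k,
          InC f0 h i w ∧ ¬ OkW f0 h Fn i w)).card : ℝ) ≤ η * M := hVB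
  calc (coverNumber n r : ℝ) ≤ _ := hassR
    _ ≤ η * M + η * M + 3 * η * M + ((1 + ε / 16) * ((1 + ε / 16) * M / θ) + ε / 16 * M) := by
        linarith
    _ ≤ (1 + ε) * M := main_aux6 h11 h10 (h7.trans h8)

end Pool.Agent.Lib_helper46.CC
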