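import Mathlib
import Pool.Agent.Lib_helper46.CCF.WBase
import Pool.Agent.Lib_helper46.CCF.LOW
import Pool.Agent.Lib_helper46.CCF.MMX
import Pool.Agent.Lib_helper46.CCF.Main

set_option autoImplicit false

namespace Pool.Agent.Lib_helper46.CC

open Finset Pool.Agent.Lib_helper70.Chains Filter

theorem cover_tendsto (r : ℕ) (hr : 1 ≤ r) :
    Tendsto (fun n : ℕ => (coverNumber n r : ℝ) / (maxMultinomial n r : ℝ)) atTop (nhds 1) := by
  obtain ⟨c, hc, n1, h1⟩ := max_lower r hr
  have hpos : ∀ n : ℕ, n ≥ n1 + 1 → (0 : ℝ) < (maxMultinomial n r : ℝ) := by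
    intro n hn
    refine lt_of_lt_of_le ?_ (h1 n (by omega))
    have hn0 : (0 : ℝ) < n := by exact_mod_cast (by omega : 0 < n)
    have : 0 < Real.sqrt n := Real.sqrt_pos.2 hn0
    positivity
  rw [Metric.tendsto_atTop]
  intro ε hε
  obtain ⟨n2, h2⟩ := upper r hr (min (ε / 2) 1) (by positivity) (min_le_right _ _)
  refine ⟨n1 + n2 + 1, fun n hn => ?_⟩
  have h3 := h2 n (by omega)
  have h4 := hpos n (by omega)
  have h5 : (maxMultinomial n r : ℝ) ≤ (coverNumber n r : ℝ) := by
    exact_mod_cast lower n r hr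
  have h6 : 1 ≤ (coverNumber n r : ℝ) / (maxMultinomial n r : ℝ) := by
    rw [le_div_iff₀ h4]
    linarith
  have h7 : (coverNumber n r : ℝ) / (maxMultinomial n r : ℝ) ≤ 1 + ε / 2 := by
    rw [div_le_iff₀ h4]
    refine h3.trans (mul_le_mul_of_nonneg_right ?_ h4.le)
    have := min_le_left (ε / 2) (1 : ℝ)
    linarith
  rw [Real.dist_eq, abs_lt]
  constructor <;> linarith

theorem cover_attained (n r : ℕ) :
    ∃ F : Finset (Finset (Finset (Fin n))), IsChainCover n r F ∧ F.card = coverNumber n r := by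
  classical
  have hne : {k | ∃ F : Finset (Finset (Finset (Fin n))), IsChainCover n r F ∧ F.card = k}.Nonempty := by
    refine ⟨_, Finset.univ.filter (fun C : Finset (Finset (Fin n)) =>
      IsChain (· ⊆ ·) (C : Set (Finset (Fin n)))), ⟨?_, ?_⟩, rfl⟩
    · intro C hC
      exact (Finset.mem_filter.1 hC).2
    · intro D _ hD
      exact ⟨D, Finset.mem_filter.2 ⟨Finset.mem_univ _, hD⟩, subset_rfl⟩
  exact Nat.sInf_mem hne

end Pool.Agent.Lib_helper46.CC
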